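import Pool.Agent.Lib_MP_bfd926_sq.SRep

/-!
# Modular forms of level one from power series

`mk_form`: a function `g` on the upper half plane which is holomorphic, satisfies
`g (τ + 1) = g τ`, `g (-1 / τ) = τ ^ k * g τ` and is given by a power series in `q` is a modular form
for `SL(2, ℤ)` with this `q`-expansion: invariance by `slash_action_generators_SL2Z`
(`Mathlib/NumberTheory/ModularForms/LevelOne/Basic.lean`; the actions of `S` and `T` are computed as
in `discriminant_S_invariant`, `discriminant_T_invariant`), `UpperHalfPlane.mdifferentiable_iff` for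
the holomorphy, `isBoundedAtImInfty_of_hasSum_qExpansion` for the boundedness at infinity, and for the
other cusps `Subgroup.IsArithmetic.isCusp_iff_isCusp_SL2Z`,
`OnePoint.isBoundedAt_iff_forall_SL2Z` as in `ModularForm.eisensteinSeriesMF` and
`CuspForm.discriminantEquiv` (the function is invariant, so all the slashes are equal to it). The
`q`-expansion: `ModularFormClass.qExpansion_coeff_unique` with
`one_mem_strictPeriods_SL`.
`Rep_form`: conversely every modular form of level one is represented by its `q`-expansion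
(`ModularForm.hasSum_qExpansion`; `UpperHalfPlane.ofComplex_apply…`).
-/

open UpperHalfPlane PowerSeries
open scoped MatrixGroups ModularForm Manifold

namespace MT2

private theorem SMb_T (k : ℕ) (g : ℂ → ℂ) (hT : ∀ τ : ℂ, 0 < τ.im → g (τ + 1) = g τ) :
    ((fun τ : ℍ => g τ) ∣[(k : ℤ)] ModularGroup.T) = fun τ : ℍ => g τ := by
  ext z
  rw [ModularForm.SL_slash_apply, denom, modular_T_smul, ModularGroup.T]
  simp only [UpperHalfPlane.coe_vadd]
  simp
  rw [add_comm]
  exact hT z z.2

private theorem SMb_S (k : ℕ) (g : ℂ → ℂ)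
    (hS : ∀ τ : ℂ, 0 < τ.im → g (-1 / τ) = τ ^ k * g τ) :
    ((fun τ : ℍ => g τ) ∣[(k : ℤ)] ModularGroup.S) = fun τ : ℍ => g τ := by
  ext z
  suffices g (-(↑z)⁻¹) * ((z : ℂ) ^ k)⁻¹ = g z by
    rw [ModularForm.SL_slash_apply, UpperHalfPlane.modular_S_smul]
    simpa [denom, ModularGroup.S] using this
  have h1 := hS z z.2
  have h2 : (-1 / (z : ℂ)) = -(↑z)⁻¹ := by ring
  rw [h2] at h1
  rw [h1]
  have h3 : (z : ℂ) ^ k ≠ 0 := pow_ne_zero _ z.ne_zero
  field_simp

private theorem SMb_sum {φ : PowerSeries ℂ} {g : ℂ → ℂ} (hR : Rep φ g) (τ : ℍ) :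
    HasSum (fun m : ℕ => coeff m φ • Function.Periodic.qParam 1 τ ^ m) (g τ) := by
  have h := hR τ τ.2
  simpa [Function.Periodic.qParam] using h

theorem mk_form (k : ℕ) (g : ℂ → ℂ) (φ : PowerSeries ℂ) (hR : Rep φ g)
    (hd : ∀ τ : ℂ, 0 < τ.im → DifferentiableAt ℂ g τ)
    (hS : ∀ τ : ℂ, 0 < τ.im → g (-1 / τ) = τ ^ k * g τ)
    (hT : ∀ τ : ℂ, 0 < τ.im → g (τ + 1) = g τ) :
    ∃ f : ModularForm 𝒮ℒ (k : ℤ), (∀ τ : ℍ, f τ = g τ) ∧ qExpansion 1 f = φ := by
  have hinv : ∀ γ : SL(2, ℤ), ((fun τ : ℍ => g τ) ∣[(k : ℤ)] γ) = fun τ : ℍ => g τ :=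
    SlashInvariantForm.slash_action_generators_SL2Z (SMb_S k g hS) (SMb_T k g hT)
  have hb : IsBoundedAtImInfty (fun τ : ℍ => g τ) :=
    isBoundedAtImInfty_of_hasSum_qExpansion one_pos (fun τ => SMb_sum hR τ)
  let f : ModularForm 𝒮ℒ (k : ℤ) :=
    { toFun := fun τ : ℍ => g τ
      slash_action_eq' := fun A hA => by
        obtain ⟨A, rfl⟩ := hA
        exact hinv A
      holo' := by
        rw [UpperHalfPlane.mdifferentiable_iff]
        intro z hz
        refine ((hd z hz).differentiableWithinAt).congr (fun w hw => ?_) ?_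
        · simp [ofComplex_apply_of_im_pos hw]
        · simp [ofComplex_apply_of_im_pos hz]
      bdd_at_cusps' := fun {c} hc => by
        rw [Subgroup.IsArithmetic.isCusp_iff_isCusp_SL2Z] at hc
        rw [OnePoint.isBoundedAt_iff_forall_SL2Z hc]
        intro γ _
        rw [hinv γ]
        exact hb }
  refine ⟨f, fun τ => rfl, ?_⟩
  ext m
  exact (ModularFormClass.qExpansion_coeff_unique (f := f) (h := 1) (Γ := 𝒮ℒ) (k := (k : ℤ))
    (c := fun m => coeff m φ) one_pos one_mem_strictPeriods_SL (fun τ => SMb_sum hR τ) m).symm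

theorem Rep_form {F : Type} [FunLike F ℍ ℂ] (k : ℤ) [ModularFormClass F 𝒮ℒ k] (f : F) :
    Rep (qExpansion 1 f) (f ∘ ofComplex) := by
  intro τ hτ
  have h := ModularForm.hasSum_qExpansion (f := f) (h := 1) (Γ := 𝒮ℒ) one_pos (k := k)
    one_mem_strictPeriods_SL ⟨τ, hτ⟩
  simpa [Function.Periodic.qParam, ofComplex_apply_of_im_pos hτ] using h

end MT2
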