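import Pool.Agent.Lib_MP_bfd926_sq.SGa
import Pool.Agent.Lib_MP_bfd926_sq.SMb

/-!
# The Hecke operator `T₂` on cusp forms of level one

`Rep_uu`: `∑_m a_m exp (π * I * τ) ^ m * (1 + (-1) ^ m) / 2 = ∑_n a_{2n} q ^ n`
(`F ((τ + 1) / 2) = ∑ a_m (-1) ^ m exp (π * I * τ) ^ m`; the injection `n ↦ 2 * n`).
`exists_T2`: the function `T2f k f` is invariant (`T2f_slash`), holomorphic (each of the three
functions is), and it is given by the power series `uu φ + C (2 ^ k / 2) * dbl φ`,
`φ = qExpansion 1 f` (`Rep_form`, `Rep.dbl`, `Rep_uu`; `f` is a function on `ℍ`, use `f ∘ ofComplex`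
and `ofComplex_apply`). So it is bounded at infinity (`isBoundedAtImInfty_of_hasSum_qExpansion`) and a
modular form (or use `mk_form`), and a cusp form as the coefficient `0` of the series is zero
(`toCuspForm`, `isCuspForm_iff_coeffZero_eq_zero`). Linearity is clear from the formula for the values;
the `q`-expansion by `ModularFormClass.qExpansion_coeff_unique`.
-/

open UpperHalfPlane PowerSeries
open scoped MatrixGroups ModularForm Manifold

namespace MT2

theorem Rep_uu {φ : PowerSeries ℂ} {F : ℂ → ℂ} (hF : Rep φ F) :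
    Rep (uu φ) (fun τ => (F (τ / 2) + F ((τ + 1) / 2)) / 2) := by
  intro τ h
  have him0 : 0 < (τ / 2).im := by
    have h1 : (τ / 2).im = τ.im / 2 := by simp
    rw [h1]
    positivity
  have him1 : 0 < ((τ + 1) / 2).im := by
    have h1 : ((τ + 1) / 2).im = τ.im / 2 := by simp
    rw [h1]
    positivity
  have h0 := hF (τ / 2) him0
  have h1 := hF ((τ + 1) / 2) him1
  have h2 := (h0.add h1).div_const 2
  have hp1 : Complex.exp (2 * Real.pi * Complex.I * ((τ + 1) / 2)) =
      -Complex.exp (2 * Real.pi * Complex.I * (τ / 2)) := by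
    have h3 : 2 * (Real.pi : ℂ) * Complex.I * ((τ + 1) / 2) =
        2 * Real.pi * Complex.I * (τ / 2) + Real.pi * Complex.I := by ring
    rw [h3, Complex.exp_add, Complex.exp_pi_mul_I]
    ring
  have hp2 : Complex.exp (2 * Real.pi * Complex.I * τ) =
      Complex.exp (2 * Real.pi * Complex.I * (τ / 2)) ^ 2 := by
    rw [← Complex.exp_nat_mul]
    congr 1
    push_cast
    ring
  rw [hp1] at h2
  have hinj : Function.Injective (fun m : ℕ => 2 * m) := fun a b hab => by
    have : 2 * a = 2 * b := hab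
    omega
  have h3 := (hinj.hasSum_iff (f := fun m : ℕ =>
      (coeff m φ * Complex.exp (2 * Real.pi * Complex.I * (τ / 2)) ^ m +
        coeff m φ * (-Complex.exp (2 * Real.pi * Complex.I * (τ / 2))) ^ m) / 2)
      (a := (F (τ / 2) + F ((τ + 1) / 2)) / 2) (by
        intro m hm
        have hodd : Odd m := by
          rcases Nat.even_or_odd m with h4 | h4
          · obtain ⟨c, hc⟩ := h4
            exact absurd ⟨c, by show 2 * c = m; omega⟩ hm
          · exact h4
        show (coeff m φ * Complex.exp (2 * Real.pi * Complex.I * (τ / 2)) ^ m +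
          coeff m φ * (-Complex.exp (2 * Real.pi * Complex.I * (τ / 2))) ^ m) / 2 = 0
        rw [hodd.neg_pow]
        ring)).2 h2
  refine h3.congr_fun ?_
  intro m
  show coeff m (uu φ) * _ = (coeff (2 * m) φ * Complex.exp (2 * Real.pi * Complex.I * (τ / 2)) ^ (2 * m) +
      coeff (2 * m) φ * (-Complex.exp (2 * Real.pi * Complex.I * (τ / 2))) ^ (2 * m)) / 2
  have hc : coeff m (uu φ) = coeff (2 * m) φ := by
    unfold uu
    rw [PowerSeries.coeff_mk]
  rw [hc, hp2, (even_two_mul m).neg_pow, pow_mul]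
  ring

private theorem SGb_diff (k : ℕ) (f : CuspForm 𝒮ℒ (k : ℤ)) (τ : ℂ) (h : 0 < τ.im) :
    DifferentiableAt ℂ (f ∘ ofComplex) τ := by
  have h1 := f.holo'
  rw [UpperHalfPlane.mdifferentiable_iff] at h1
  exact (h1 τ h).differentiableAt ((isOpen_lt continuous_const Complex.continuous_im).mem_nhds h)

private theorem SGb_form (k : ℕ) (f : CuspForm 𝒮ℒ (k : ℤ)) :
    ∃ g : CuspForm 𝒮ℒ (k : ℤ), (∀ z : ℍ, g z = T2f k f z) ∧
      qExpansion 1 g = uu (qExpansion 1 f) + C ((2 : ℂ) ^ k / 2) * dbl (qExpansion 1 f) := by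
  have hF := Rep_form (k : ℤ) f
  have hR0 := (Rep_uu hF).add ((Rep_C ((2 : ℂ) ^ k / 2)).mul hF.dbl)
  have hc2 : (2 : ℂ) ^ ((k : ℤ) - 1) = 2 ^ k / 2 := by
    rw [zpow_sub_one₀ (two_ne_zero), zpow_natCast]
    rfl
  let g : ℂ → ℂ := fun τ => ((f ∘ ofComplex) (τ / 2) + (f ∘ ofComplex) ((τ + 1) / 2)) / 2 +
    2 ^ k / 2 * (f ∘ ofComplex) (2 * τ)
  have hgT : (fun z : ℍ => g z) = T2f k f := by
    ext z
    show ((f ∘ ofComplex) ((z : ℂ) / 2) + (f ∘ ofComplex) (((z : ℂ) + 1) / 2)) / 2 +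
      2 ^ k / 2 * (f ∘ ofComplex) (2 * (z : ℂ)) = 2 ^ ((k : ℤ) - 1) * f (ofComplex (2 * z)) +
        (f (ofComplex (z / 2)) + f (ofComplex ((z + 1) / 2))) / 2
    rw [hc2]
    show (f (ofComplex ((z : ℂ) / 2)) + f (ofComplex (((z : ℂ) + 1) / 2))) / 2 +
      2 ^ k / 2 * f (ofComplex (2 * (z : ℂ))) = 2 ^ k / 2 * f (ofComplex (2 * z)) +
        (f (ofComplex (z / 2)) + f (ofComplex ((z + 1) / 2))) / 2
    ring
  have hR : Rep (uu (qExpansion 1 f) + C ((2 : ℂ) ^ k / 2) * dbl (qExpansion 1 f)) g := hR0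
  have hinvf : ∀ γ : SL(2, ℤ), ((f : ℍ → ℂ) ∣[(k : ℤ)] γ) = f := fun γ =>
    SlashInvariantFormClass.slash_action_eq f _ ⟨γ, rfl⟩
  have hinv : ∀ γ : SL(2, ℤ), ((fun z : ℍ => g z) ∣[(k : ℤ)] γ) = fun z : ℍ => g z := by
    intro γ
    rw [hgT]
    exact T2f_slash k f hinvf γ
  have hd : ∀ τ : ℂ, 0 < τ.im → DifferentiableAt ℂ g τ := by
    intro τ h
    have him0 : 0 < (τ / 2).im := by
      have h1 : (τ / 2).im = τ.im / 2 := by simp
      rw [h1]
      positivity
    have him1 : 0 < ((τ + 1) / 2).im := by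
      have h1 : ((τ + 1) / 2).im = τ.im / 2 := by simp
      rw [h1]
      positivity
    have him2 : 0 < (2 * τ).im := by
      have h1 : (2 * τ).im = 2 * τ.im := by simp
      rw [h1]
      positivity
    have d0 : DifferentiableAt ℂ (fun τ => (f ∘ ofComplex) (τ / 2)) τ :=
      DifferentiableAt.comp (g := (f ∘ ofComplex)) (f := fun τ : ℂ => τ / 2) τ
        (SGb_diff k f _ him0) (differentiableAt_id.div_const 2)
    have d1 : DifferentiableAt ℂ (fun τ => (f ∘ ofComplex) ((τ + 1) / 2)) τ :=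
      DifferentiableAt.comp (g := (f ∘ ofComplex)) (f := fun τ : ℂ => (τ + 1) / 2) τ
        (SGb_diff k f _ him1) ((differentiableAt_id.add_const 1).div_const 2)
    have d2 : DifferentiableAt ℂ (fun τ => (f ∘ ofComplex) (2 * τ)) τ :=
      DifferentiableAt.comp (g := (f ∘ ofComplex)) (f := fun τ : ℂ => 2 * τ) τ
        (SGb_diff k f _ him2) (differentiableAt_id.const_mul 2)
    exact ((d0.add d1).div_const 2).add (d2.const_mul _)
  have hsum : ∀ z : ℍ, HasSum (fun m : ℕ => coeff m (uu (qExpansion 1 f) +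
      C ((2 : ℂ) ^ k / 2) * dbl (qExpansion 1 f)) • Function.Periodic.qParam 1 z ^ m) (g z) := by
    intro z
    have h := hR z z.2
    simpa [Function.Periodic.qParam] using h
  have hb : IsBoundedAtImInfty (fun z : ℍ => g z) :=
    isBoundedAtImInfty_of_hasSum_qExpansion one_pos hsum
  let G : ModularForm 𝒮ℒ (k : ℤ) :=
    { toFun := fun z : ℍ => g z
      slash_action_eq' := fun A hA => by
        obtain ⟨A, rfl⟩ := hA
        exact hinv A
      holo' := by
        rw [UpperHalfPlane.mdifferentiable_iff]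
        intro z hz
        refine ((hd z hz).differentiableWithinAt).congr (fun w hw => ?_) ?_
        · simp [ofComplex_apply_of_im_pos hw]
        · simp [ofComplex_apply_of_im_pos hz]
      bdd_at_cusps' := fun {c} hc => by
        rw [Subgroup.IsArithmetic.isCusp_iff_isCusp_SL2Z] at hc
        rw [OnePoint.isBoundedAt_iff_forall_SL2Z hc]
        intro γ _
        rw [hinv γ]
        exact hb }
  have hq : qExpansion 1 G = uu (qExpansion 1 f) + C ((2 : ℂ) ^ k / 2) * dbl (qExpansion 1 f) := by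
    ext m
    exact (ModularFormClass.qExpansion_coeff_unique (f := G) (h := 1) (Γ := 𝒮ℒ) (k := (k : ℤ))
      (c := fun m => coeff m (uu (qExpansion 1 f) + C ((2 : ℂ) ^ k / 2) * dbl (qExpansion 1 f)))
      one_pos one_mem_strictPeriods_SL hsum m).symm
  have hf0 : (qExpansion 1 f).coeff 0 = 0 :=
    CuspFormClass.qExpansion_coeff_zero f one_pos one_mem_strictPeriods_SL
  have h0 : (qExpansion 1 G).coeff 0 = 0 := by
    rw [hq, map_add, PowerSeries.coeff_C_mul]
    have h1 : coeff 0 (uu (qExpansion 1 f)) = 0 := by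
      unfold uu
      rw [PowerSeries.coeff_mk]
      exact hf0
    have h2 : coeff 0 (dbl (qExpansion 1 f)) = 0 := by
      unfold dbl
      have h3 := PowerSeries.coeff_expand_mul 2 two_ne_zero (qExpansion 1 f) 0
      rw [mul_zero] at h3
      rw [h3]
      exact hf0
    rw [h1, h2, mul_zero, add_zero]
  refine ⟨ModularForm.toCuspForm G h0, fun z => ?_, ?_⟩
  · show g z = T2f k f z
    exact congrFun hgT z
  · exact hq

theorem exists_T2 (k : ℕ) : ∃ T : Module.End ℂ (CuspForm 𝒮ℒ (k : ℤ)),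
    (∀ (f : CuspForm 𝒮ℒ (k : ℤ)) (z : ℍ), T f z = T2f k f z) ∧
    ∀ f : CuspForm 𝒮ℒ (k : ℤ), qExpansion 1 (T f) =
      uu (qExpansion 1 f) + C ((2 : ℂ) ^ k / 2) * dbl (qExpansion 1 f) := by
  choose T hT1 hT2 using SGb_form k
  refine ⟨{ toFun := T, map_add' := fun f g => ?_, map_smul' := fun a f => ?_ }, hT1, hT2⟩
  · refine DFunLike.ext _ _ fun z => ?_
    have h1 : (T f + T g) z = T f z + T g z := rfl
    rw [h1, hT1, hT1, hT1]
    unfold T2f
    have h2 : ∀ w : ℍ, (f + g) w = f w + g w := fun w => rfl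
    rw [h2, h2, h2]
    ring
  · refine DFunLike.ext _ _ fun z => ?_
    have h1 : (a • T f) z = a * T f z := rfl
    rw [RingHom.id_apply, h1, hT1, hT1]
    unfold T2f
    have h2 : ∀ w : ℍ, (a • f) w = a * f w := fun w => rfl
    rw [h2, h2, h2]
    ring

end MT2
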