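import Mathlib

/-!
# Linear algebra: symmetric operators are diagonalizable

`B` is a positive definite Hermitian form on a finite dimensional complex vector space `V` (linear in
the second variable), `T` is symmetric. `eig_top`: define an `InnerProductSpace.Core ℂ V` with
`inner f g = B f g`, and use `LinearMap.IsSymmetric.orthogonalComplement_iSup_eigenspaces_eq_bot`
(or argue directly: the orthogonal complement of the sum of the eigenspaces is `T`-invariant, so zero).
`card_eig`: `V` is the direct sum of the eigenspaces (`Module.End.eigenspaces_iSupIndep`), there are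
finitely many eigenvalues, so `finrank V = ∑ finrank (eigenspace μ) ≤ c * number`.
`root_mult`: `finrank (maxGenEigenspace μ) = rootMultiplicity μ T.charpoly`
(`LinearMap.finrank_maxGenEigenspace_eq`, in `Mathlib/LinearAlgebra/Eigenspace/Zero.lean`), and
`maxGenEigenspace μ = eigenspace μ`, as the operator is diagonalizable
(`Module.End.IsFinitelySemisimple.maxGenEigenspace_eq_eigenspace` or compare dimensions: the sum over
all eigenvalues `μ` of `finrank (maxGenEigenspace μ)` is at most `finrank V`, which is
`∑ finrank (eigenspace μ)`, and `eigenspace μ ≤ maxGenEigenspace μ`).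
-/

namespace MT2

theorem eig_top {V : Type} [AddCommGroup V] [Module ℂ V] [FiniteDimensional ℂ V]
    (B : V → V → ℂ) (hadd : ∀ f g h, B f (g + h) = B f g + B f h)
    (hsmul : ∀ f (a : ℂ) g, B f (a • g) = a * B f g)
    (hconj : ∀ f g, B g f = (starRingEnd ℂ) (B f g)) (hpos : ∀ f, 0 ≤ (B f f).re)
    (hdef : ∀ f, B f f = 0 → f = 0) (T : Module.End ℂ V) (hT : ∀ f g, B (T f) g = B f (T g)) :
    ⨆ μ : ℂ, T.eigenspace μ = ⊤ := by
  let core : InnerProductSpace.Core ℂ V :=
    { inner := B
      conj_inner_symm := fun x y => (hconj y x).symm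
      re_inner_nonneg := fun x => hpos x
      add_left := fun x y z => by
        rw [hconj z (x + y), hadd, map_add, ← hconj z x, ← hconj z y]
      smul_left := fun x y r => by
        rw [hconj y (r • x), hsmul, map_mul, ← hconj y x]
      definite := hdef }
  letI : NormedAddCommGroup V := core.toNormedAddCommGroup
  letI : InnerProductSpace ℂ V := InnerProductSpace.ofCore core.toCore
  have hsym : LinearMap.IsSymmetric T := fun f g => hT f g
  have h := hsym.orthogonalComplement_iSup_eigenspaces_eq_bot
  exact Submodule.orthogonal_eq_bot_iff.1 h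

private theorem SPa_le {V : Type} [AddCommGroup V] [Module ℂ V] [FiniteDimensional ℂ V]
    (E : ℂ → Submodule ℂ V) (s : Finset ℂ) :
    Module.finrank ℂ (⨆ μ ∈ s, E μ : Submodule ℂ V) ≤ ∑ μ ∈ s, Module.finrank ℂ (E μ) := by
  classical
  induction s using Finset.induction_on with
  | empty => simp
  | insert a s ha ih =>
    rw [Finset.iSup_insert, Finset.sum_insert ha]
    exact (Submodule.finrank_add_le_finrank_add_finrank _ _).trans (Nat.add_le_add_left ih _)

theorem card_eig {V : Type} [AddCommGroup V] [Module ℂ V] [FiniteDimensional ℂ V]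
    (T : Module.End ℂ V) (htop : ⨆ μ : ℂ, T.eigenspace μ = ⊤) (c : ℕ)
    (hc : ∀ μ, Module.finrank ℂ (T.eigenspace μ) ≤ c) :
    Module.finrank ℂ V ≤ c * {μ : ℂ | T.HasEigenvalue μ}.ncard := by
  classical
  have hfin : Set.Finite {μ : ℂ | T.HasEigenvalue μ} := Module.End.finite_hasEigenvalue T
  have h1 : (⨆ μ ∈ hfin.toFinset, T.eigenspace μ : Submodule ℂ V) = ⊤ := by
    rw [eq_top_iff, ← htop]
    refine iSup_le fun μ => ?_
    by_cases hμ : T.HasEigenvalue μ
    · exact le_iSup₂_of_le μ (hfin.mem_toFinset.2 hμ) le_rfl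
    · have h0 : T.eigenspace μ = ⊥ := by
        by_contra hne
        exact hμ hne
      rw [h0]
      exact bot_le
  have h2 := SPa_le (fun μ => T.eigenspace μ) hfin.toFinset
  rw [h1, finrank_top] at h2
  calc Module.finrank ℂ V ≤ ∑ μ ∈ hfin.toFinset, Module.finrank ℂ (T.eigenspace μ) := h2
    _ ≤ ∑ _μ ∈ hfin.toFinset, c := Finset.sum_le_sum fun μ _ => hc μ
    _ = c * {μ : ℂ | T.HasEigenvalue μ}.ncard := by
        rw [Finset.sum_const, smul_eq_mul, mul_comm, Set.ncard_eq_toFinset_card _ hfin]

theorem root_mult {V : Type} [AddCommGroup V] [Module ℂ V] [FiniteDimensional ℂ V]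
    (T : Module.End ℂ V) (htop : ⨆ μ : ℂ, T.eigenspace μ = ⊤) (μ : ℂ) :
    T.charpoly.rootMultiplicity μ = Module.finrank ℂ (T.eigenspace μ) := by
  have hle : ∀ ν : ℂ, T.eigenspace ν ≤ T.maxGenEigenspace ν := fun ν =>
    T.genEigenspace_le_maximal ν 1
  have hind := Module.End.independent_maxGenEigenspace T
  have heq : T.maxGenEigenspace μ = T.eigenspace μ := by
    refine le_antisymm (fun x hx => ?_) (hle μ)
    have hx2 : x ∈ T.eigenspace μ ⊔ ⨆ (ν : ℂ) (_ : ν ≠ μ), T.eigenspace ν := by
      have h1 : (⨆ ν : ℂ, T.eigenspace ν) ≤ T.eigenspace μ ⊔ ⨆ (ν : ℂ) (_ : ν ≠ μ), T.eigenspace ν := by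
        refine iSup_le fun ν => ?_
        by_cases hν : ν = μ
        · rw [hν]
          exact le_sup_left
        · exact le_sup_of_le_right (le_iSup₂_of_le ν hν le_rfl)
      refine h1 ?_
      rw [htop]
      exact Submodule.mem_top
    obtain ⟨a, ha, b, hb, hab⟩ := Submodule.mem_sup.1 hx2
    have hb1 : b ∈ T.maxGenEigenspace μ := by
      have : b = x - a := by rw [← hab, add_sub_cancel_left]
      rw [this]
      exact Submodule.sub_mem _ hx (hle μ ha)
    have hb2 : b ∈ ⨆ (ν : ℂ) (_ : ν ≠ μ), T.maxGenEigenspace ν :=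
      iSup₂_mono (fun ν _ => hle ν) hb
    have hb0 : b = 0 := by
      have := Submodule.disjoint_def.1 (hind μ) b hb1 hb2
      exact this
    rw [← hab, hb0, add_zero]
    exact ha
  rw [← LinearMap.finrank_maxGenEigenspace_eq, heq]

end MT2
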