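import Pool.Agent.Lib_MP_bfd926_sq.SPb

/-!
# The Petersson product

`pet k f g = ∫_D conj f * g * y ^ k`, `D = ModularGroup.fdo`, `f`, `g` cusp forms of level one.
* `pet_int`: `petersson k f g` is bounded on `ℍ` (`CuspFormClass.petersson_bounded_left`, in
  `Mathlib/NumberTheory/ModularForms/Bounds.lean`) and continuous (`petersson_continuous`, cusp forms
  are holomorphic), and `volume D < ∞` (`fdo_lt_top`).
* `pet_add`, `pet_smul`, `pet_conj`: linearity of the integral, `petersson_symm`.
* `pet_pos`, `pet_def`: `petersson k f f z = |f z| ^ 2 * y ^ k ≥ 0`; if the integral over the open set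
  `D` is zero then `f` vanishes on `D` (continuity; nonempty open sets have positive measure in `ℍ`:
  the measure is Lebesgue measure with a positive density), so `f = 0`, since every point of `ℍ` is
  equivalent to a point of the closed domain, which is the closure of `D`
  (`ModularGroup.exists_smul_mem_fd`, `ModularGroup.fd_eq_closure_fdo`), and `f` is invariant; or by
  analytic continuation from the nonempty open set `D`.
-/

open UpperHalfPlane Matrix MeasureTheory
open scoped MatrixGroups ModularForm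

namespace MT2

/-- The Petersson product. -/
noncomputable def pet (k : ℤ) (f g : ℍ → ℂ) : ℂ :=
  ∫ z in (ModularGroup.fdo : Set ℍ), petersson k f g z

/-! ### Auxiliary facts -/

private lemma cont (k : ℤ) (f g : CuspForm 𝒮ℒ k) : Continuous (petersson k f g) :=
  petersson_continuous k (ModularFormClass.continuous f) (ModularFormClass.continuous g)

theorem pet_int (k : ℤ) (f g : CuspForm 𝒮ℒ k) :
    IntegrableOn (petersson k f g) ModularGroup.fdo := by
  obtain ⟨C, hC⟩ := CuspFormClass.petersson_bounded_left k 𝒮ℒ f g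
  exact Measure.integrableOn_of_bounded (M := C) fdo_lt_top.ne
    (cont k f g).aestronglyMeasurable (ae_of_all _ hC)

theorem pet_add (k : ℤ) (f g h : CuspForm 𝒮ℒ k) :
    pet k f (g + h : CuspForm 𝒮ℒ k) = pet k f g + pet k f h := by
  unfold pet
  rw [← integral_add (pet_int k f g) (pet_int k f h)]
  refine integral_congr_ae (ae_of_all _ fun z => ?_)
  show petersson k f (g + h : CuspForm 𝒮ℒ k) z = petersson k f g z + petersson k f h z
  unfold petersson
  have : (g + h : CuspForm 𝒮ℒ k) z = g z + h z := rfl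
  rw [this]
  ring

theorem pet_smul (k : ℤ) (f g : CuspForm 𝒮ℒ k) (a : ℂ) :
    pet k f (a • g : CuspForm 𝒮ℒ k) = a * pet k f g := by
  unfold pet
  rw [← integral_const_mul]
  refine integral_congr_ae (ae_of_all _ fun z => ?_)
  show petersson k f (a • g : CuspForm 𝒮ℒ k) z = a * petersson k f g z
  unfold petersson
  have : (a • g : CuspForm 𝒮ℒ k) z = a * g z := rfl
  rw [this]
  ring

theorem pet_conj (k : ℤ) (f g : CuspForm 𝒮ℒ k) : pet k g f = (starRingEnd ℂ) (pet k f g) := by
  unfold pet
  rw [← integral_conj]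
  exact integral_congr_ae (ae_of_all _ fun z => petersson_symm k f g z)

private lemma pet_self (k : ℤ) (f : ℍ → ℂ) (z : ℍ) :
    petersson k f f z = ((‖f z‖ ^ 2 * z.im ^ k : ℝ) : ℂ) := by
  unfold petersson
  rw [← Complex.normSq_eq_conj_mul_self, Complex.normSq_eq_norm_sq]
  push_cast
  rfl

private lemma pet_self_nonneg (k : ℤ) (f : ℍ → ℂ) (z : ℍ) : 0 ≤ ‖f z‖ ^ 2 * z.im ^ k :=
  mul_nonneg (sq_nonneg _) (zpow_nonneg z.im_pos.le k)

private lemma pet_eq_real (k : ℤ) (f : CuspForm 𝒮ℒ k) :
    pet k f f = ((∫ z in (ModularGroup.fdo : Set ℍ), ‖f z‖ ^ 2 * z.im ^ k : ℝ) : ℂ) := by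
  unfold pet
  refine (integral_congr_ae (ae_of_all _ fun z => pet_self k f z)).trans ?_
  exact integral_ofReal

theorem pet_pos (k : ℤ) (f : CuspForm 𝒮ℒ k) : 0 ≤ (pet k f f).re := by
  rw [pet_eq_real, Complex.ofReal_re]
  exact integral_nonneg fun z => pet_self_nonneg k f z

/-- Nonempty open sets of the upper half plane have positive measure. -/
private lemma open_pos {U : Set ℍ} (hU : IsOpen U) (h : (volume : Measure ℍ) U = 0) : U = ∅ := by
  have h1 : (volume.comap UpperHalfPlane.coe : Measure ℍ) ≪ (volume : Measure ℍ) := by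
    rw [volume_def]
    refine withDensity_absolutelyContinuous' ?_ (ae_of_all _ fun z => ?_)
    · refine Measurable.aemeasurable ?_
      refine Measurable.coe_nnreal_ennreal ?_
      refine Measurable.pow_const ?_ 2
      refine Measurable.const_div ?_ 1
      exact (continuous_im.subtype_mk _).measurable
    · have h2 : (1 / NNReal.mk z.im z.im_pos.le : NNReal) ^ 2 ≠ 0 := by
        refine pow_ne_zero 2 (div_ne_zero one_ne_zero ?_)
        intro h0
        exact z.im_ne_zero (congrArg NNReal.toReal h0)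
      exact ENNReal.coe_ne_zero.mpr h2
  have h3 := h1 h
  rw [measurableEmbedding_coe.comap_apply] at h3
  have h4 : IsOpen (UpperHalfPlane.coe '' U) := isOpenEmbedding_coe.isOpenMap U hU
  by_contra hne
  have h5 : (UpperHalfPlane.coe '' U).Nonempty :=
    (Set.nonempty_iff_ne_empty.mpr hne).image _
  exact (h4.measure_pos volume h5).ne' h3

theorem pet_def (k : ℤ) (f : CuspForm 𝒮ℒ k) (h : pet k f f = 0) : f = 0 := by
  rw [pet_eq_real, Complex.ofReal_eq_zero] at h
  have hint : IntegrableOn (fun z : ℍ => ‖f z‖ ^ 2 * z.im ^ k) ModularGroup.fdo := by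
    have h1 := (pet_int k f f).re
    refine h1.congr (ae_of_all _ fun z => ?_)
    show RCLike.re (petersson k f f z) = _
    rw [pet_self]
    exact Complex.ofReal_re _
  have h2 := (setIntegral_eq_zero_iff_of_nonneg_ae
    (ae_of_all _ fun z => pet_self_nonneg k f z) hint).mp h
  have hcf : Continuous f := ModularFormClass.continuous f
  have hU : IsOpen ({z : ℍ | f z ≠ 0} ∩ ModularGroup.fdo) :=
    (isOpen_compl_singleton.preimage hcf).inter ModularGroup.isOpen_fdo
  have h3 : (volume : Measure ℍ) ({z : ℍ | f z ≠ 0} ∩ ModularGroup.fdo) = 0 := by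
    have h4 : (volume.restrict ModularGroup.fdo : Measure ℍ) {z : ℍ | f z ≠ 0} = 0 := by
      refine measure_mono_null ?_ h2
      intro z hz h0
      have h5 : ‖f z‖ ^ 2 * z.im ^ k = 0 := h0
      rcases mul_eq_zero.mp h5 with h6 | h6
      · exact hz (norm_eq_zero.mp (pow_eq_zero_iff two_ne_zero |>.mp h6))
      · exact zpow_ne_zero k z.im_ne_zero h6
    rwa [Measure.restrict_apply' ModularGroup.isOpen_fdo.measurableSet] at h4
  have h4 := open_pos hU h3
  have h5 : ∀ z ∈ ModularGroup.fdo, f z = 0 := by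
    intro z hz
    by_contra h0
    have : z ∈ ({z : ℍ | f z ≠ 0} ∩ ModularGroup.fdo) := ⟨h0, hz⟩
    rw [h4] at this
    exact this
  have h6 : ∀ z ∈ ModularGroup.fd, f z = 0 := by
    intro z hz
    rw [ModularGroup.fd_eq_closure_fdo] at hz
    have hcl : IsClosed {z : ℍ | f z = 0} := isClosed_singleton.preimage hcf
    exact closure_minimal (s := ModularGroup.fdo) (t := {z : ℍ | f z = 0}) h5 hcl hz
  refine CuspForm.ext fun z => ?_
  obtain ⟨γ, hγ⟩ := ModularGroup.exists_smul_mem_fd z
  have h7 := SlashInvariantFormClass.norm_petersson_smul (k := k) (Γ := 𝒮ℒ) (τ := z) (f := f) (f' := f)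
    (g := (γ : GL (Fin 2) ℝ)) (MonoidHom.mem_range.mpr ⟨γ, rfl⟩)
  have h8 : f ((γ : GL (Fin 2) ℝ) • z) = 0 := h6 _ hγ
  have h9 : petersson k f f ((γ : GL (Fin 2) ℝ) • z) = 0 := by
    unfold petersson
    rw [h8, mul_zero, zero_mul]
  rw [h9, norm_zero] at h7
  have h10 : petersson k f f z = 0 := norm_eq_zero.mp h7.symm
  rw [pet_self, Complex.ofReal_eq_zero] at h10
  rcases mul_eq_zero.mp h10 with h6 | h6
  · exact norm_eq_zero.mp (pow_eq_zero_iff two_ne_zero |>.mp h6)
  · exact absurd h6 (zpow_ne_zero k z.im_ne_zero)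

end MT2
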