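import Pool.Agent.Lib_MP_bfd926_sq.SPc
import Pool.Agent.Lib_MP_bfd926_sq.SPd

/-!
# The Hecke operator is symmetric for the Petersson product

* `pet_bdd`: `‖petersson k f (g ∣[k] gl A) z‖ ≤ c` for all
  `A`, `z`: its square is `‖petersson k f f z‖ * ‖petersson k (g ∣[k] gl A) (g ∣[k] gl A) z‖`; the first
  factor is bounded (`CuspFormClass.petersson_bounded_left`), the second is
  `2 ^ (k - 2) * ‖petersson k g g (gl A • z)‖` by `petersson_slash` with `gl_det`. The same for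
  `petersson k (f ∣[k] gl A) g`.
* `pet_adj`: by `T2f_eq`, `pet k f (T2f k g) = ∑_i ∫_D petersson k f (g ∣[k] gl (dlt i))`. Apply
  `sum_formula` to `P A = petersson k f (g ∣[k] gl A)` (`slash_gl_smul`). By `slash_adj`,
  `petersson_slash`: `2 ^ (k - 2) * P A z = petersson k ((f ∣[k] gl (adj A)) ∣[k] gl A) (g ∣[k] gl A) z =
  2 ^ (k - 2) * petersson k (f ∣[k] gl (adj A)) g (gl A • z)`, so that with
  `Q A = petersson k (f ∣[k] gl A) g` one has `P A z = Q (adj A) (gl A • z)`. By `swap` the term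
  of `A` is the integral of `Q (adj A)` over `{w ∈ D | gl (adj A) • w ∈ D}`; reindex by `adj` (`adj_adj`,
  an involution, `Equiv.tsum_eq`), and apply `sum_formula` to `Q`. So
  `2 * pet k f (T2f k g) = 2 * pet k (T2f k f) g`.
-/

open UpperHalfPlane Matrix MeasureTheory
open scoped MatrixGroups ModularForm

namespace MT2

private theorem SPe_cs (k : ℤ) (u v : ℍ → ℂ) (z : ℍ) :
    ‖petersson k u v z‖ ^ 2 = ‖petersson k u u z‖ * ‖petersson k v v z‖ := by
  unfold petersson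
  simp only [norm_mul, Complex.norm_conj]
  ring

private theorem SPe_slash (k : ℤ) (u v : ℍ → ℂ) (A : M2) (z : ℍ) :
    petersson k (u ∣[k] gl A) (v ∣[k] gl A) z = (2 : ℂ) ^ (k - 2) * petersson k u v (gl A • z) := by
  rw [petersson_slash, gl_det]
  have h1 : |(2 : ℝ)| = 2 := abs_of_pos two_pos
  rw [h1]
  have h2 : UpperHalfPlane.σ (gl A) (petersson k u v (gl A • z)) = petersson k u v (gl A • z) := by
    unfold UpperHalfPlane.σ
    rw [if_pos (by rw [gl_det]; norm_num)]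
    rfl
  rw [h2]
  norm_num

private theorem SPe_inv {k : ℤ} (f : CuspForm 𝒮ℒ k) (γ : SL(2, ℤ)) : (f : ℍ → ℂ) ∣[k] γ = f := by
  rw [ModularForm.SL_slash]
  exact SlashInvariantFormClass.slash_action_eq f _ ⟨γ, rfl⟩

private theorem SPe_cont {k : ℤ} (f : CuspForm 𝒮ℒ k) (A : M2) : Continuous ((f : ℍ → ℂ) ∣[k] gl A) :=
  ((CuspFormClass.holo f).slash k (gl A)).continuous

private theorem SPe_cont0 {k : ℤ} (f : CuspForm 𝒮ℒ k) : Continuous (f : ℍ → ℂ) :=
  (CuspFormClass.holo f).continuous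

private theorem SPe_norm2 (k : ℤ) : ‖(2 : ℂ) ^ (k - 2)‖ = (2 : ℝ) ^ (k - 2) := by
  rw [norm_zpow]
  norm_num

theorem pet_bdd (k : ℤ) (f g : CuspForm 𝒮ℒ k) : ∃ c : ℝ, ∀ (A : M2) (z : ℍ),
    ‖petersson k f (g ∣[k] gl A) z‖ ≤ c ∧ ‖petersson k (f ∣[k] gl A) g z‖ ≤ c := by
  obtain ⟨Cf, hf⟩ := CuspFormClass.petersson_bounded_left k 𝒮ℒ f f
  obtain ⟨Cg, hg⟩ := CuspFormClass.petersson_bounded_left k 𝒮ℒ g g
  have hCf : 0 ≤ Cf := (norm_nonneg _).trans (hf UpperHalfPlane.I)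
  have h2 : (0 : ℝ) ≤ (2 : ℝ) ^ (k - 2) := by positivity
  refine ⟨Real.sqrt (Cf * ((2 : ℝ) ^ (k - 2) * Cg)), fun A z => ⟨?_, ?_⟩⟩
  · apply Real.le_sqrt_of_sq_le
    rw [SPe_cs, SPe_slash, norm_mul, SPe_norm2]
    exact mul_le_mul (hf z) (mul_le_mul_of_nonneg_left (hg _) h2) (by positivity) hCf
  · apply Real.le_sqrt_of_sq_le
    rw [SPe_cs, SPe_slash, norm_mul, SPe_norm2]
    have e : Cf * ((2 : ℝ) ^ (k - 2) * Cg) = (2 : ℝ) ^ (k - 2) * Cf * Cg := by ring
    rw [e]
    exact mul_le_mul (mul_le_mul_of_nonneg_left (hf _) h2) (hg z) (by positivity) (by positivity)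

private theorem SPe_PQ (k : ℤ) (f g : ℍ → ℂ) (A : M2) (z : ℍ) :
    petersson k f (g ∣[k] gl A) z = petersson k (f ∣[k] gl (adj A)) g (gl A • z) := by
  have h0 : (2 : ℂ) ^ (k - 2) ≠ 0 := zpow_ne_zero _ two_ne_zero
  apply mul_left_cancel₀ h0
  rw [← SPe_slash, slash_adj]
  unfold petersson
  have h1 : (starRingEnd ℂ) ((2 : ℂ) ^ (k - 2)) = (2 : ℂ) ^ (k - 2) := by
    rw [map_zpow₀, map_ofNat]
  simp only [Pi.smul_apply, smul_eq_mul, map_mul, h1]
  ring

private theorem SPe_int {P : ℍ → ℂ} (hc : Continuous P) (c : ℝ) (hb : ∀ z, ‖P z‖ ≤ c) :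
    IntegrableOn P ModularGroup.fdo :=
  Measure.integrableOn_of_bounded fdo_lt_top.ne hc.aestronglyMeasurable
    (Filter.Eventually.of_forall hb)

theorem pet_adj (k : ℤ) (f g : CuspForm 𝒮ℒ k) : pet k (T2f k f) g = pet k f (T2f k g) := by
  obtain ⟨c, hc⟩ := pet_bdd k f g
  have cP : ∀ A : M2, Continuous (petersson k f (g ∣[k] gl A)) := fun A =>
    petersson_continuous k (SPe_cont0 f) (SPe_cont g A)
  have cQ : ∀ A : M2, Continuous (petersson k (f ∣[k] gl A) g) := fun A =>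
    petersson_continuous k (SPe_cont f A) (SPe_cont0 g)
  have hP := sum_formula (fun A => petersson k f (g ∣[k] gl A)) cP
    (fun γ A => by rw [slash_gl_smul k g (SPe_inv g) γ A]) c (fun A z => (hc A z).1)
  have hQ := sum_formula (fun A => petersson k (f ∣[k] gl A) g) cQ
    (fun γ A => by rw [slash_gl_smul k f (SPe_inv f) γ A]) c (fun A z => (hc A z).2)
  have e1 : pet k f (T2f k g) = ∑ i : Fin 3, ∫ z in ModularGroup.fdo, petersson k f (g ∣[k] gl (dlt i)) z := by
    unfold pet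
    rw [← integral_finsetSum _ (fun i _ => SPe_int (cP (dlt i)) c (fun z => (hc _ z).1))]
    apply integral_congr_ae
    apply Filter.Eventually.of_forall
    intro z
    show petersson k f (T2f k g) z = ∑ i : Fin 3, petersson k f (g ∣[k] gl (dlt i)) z
    rw [T2f_eq]
    unfold petersson
    rw [Finset.sum_apply, Finset.mul_sum, Finset.sum_mul]
  have e2 : pet k (T2f k f) g = ∑ i : Fin 3, ∫ z in ModularGroup.fdo, petersson k (f ∣[k] gl (dlt i)) g z := by
    unfold pet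
    rw [← integral_finsetSum _ (fun i _ => SPe_int (cQ (dlt i)) c (fun z => (hc _ z).2))]
    apply integral_congr_ae
    apply Filter.Eventually.of_forall
    intro z
    show petersson k (T2f k f) g z = ∑ i : Fin 3, petersson k (f ∣[k] gl (dlt i)) g z
    rw [T2f_eq]
    unfold petersson
    rw [Finset.sum_apply, map_sum, Finset.sum_mul, Finset.sum_mul]
  have e3 : ∀ A : M2, (∫ z in ModularGroup.fdo ∩ {z | gl A • z ∈ ModularGroup.fdo},
      petersson k f (g ∣[k] gl A) z) =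
      ∫ w in ModularGroup.fdo ∩ {w | gl (adj A) • w ∈ ModularGroup.fdo},
        petersson k (f ∣[k] gl (adj A)) g w := by
    intro A
    rw [← swap A (petersson k (f ∣[k] gl (adj A)) g)]
    apply integral_congr_ae
    apply Filter.Eventually.of_forall
    intro z
    exact SPe_PQ k f g A z
  have e4 : 2 * pet k f (T2f k g) = 2 * pet k (T2f k f) g := by
    rw [e1, e2, hP, hQ]
    rw [tsum_congr e3]
    exact Equiv.tsum_eq (⟨adj, adj, adj_adj, adj_adj⟩ : M2 ≃ M2)
      (fun B => ∫ w in ModularGroup.fdo ∩ {w | gl B • w ∈ ModularGroup.fdo},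
        petersson k (f ∣[k] gl B) g w)
  exact (mul_left_cancel₀ two_ne_zero e4).symm

end MT2
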