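import Mathlib

/-!
# The dimension of the space of cusp forms of level one

`dimension_level_one` and `rank_eq_one_add_rank_cuspForm` (for `k ≥ 3`), or `CuspForm.discriminantEquiv`
and `dimension_level_one` in weight `k - 12` (`levelOne_neg_weight_rank_zero` for `k < 12`), in
`Mathlib/NumberTheory/ModularForms/LevelOne/DimensionFormula.lean`. Cases modulo `12`.
-/

open scoped MatrixGroups

namespace MT2

theorem cusp_dim (e w : ℕ) (he : e ≤ 1) :
    Module.Finite ℂ (CuspForm 𝒮ℒ ((4 * w + 2 * e : ℕ) : ℤ)) ∧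
      Module.finrank ℂ (CuspForm 𝒮ℒ ((4 * w + 2 * e : ℕ) : ℤ)) = (w - e) / 3 := by
  constructor
  · exact Module.Finite.equiv (CuspForm.discriminantEquiv (k := ((4 * w + 2 * e : ℕ) : ℤ))).symm
  · apply Module.finrank_eq_of_rank_eq
    rw [(CuspForm.discriminantEquiv (k := ((4 * w + 2 * e : ℕ) : ℤ))).rank_eq]
    rcases Nat.lt_or_ge (4 * w + 2 * e) 12 with h | h
    · rw [ModularForm.levelOne_neg_weight_rank_zero (by omega)]
      have : (w - e) / 3 = 0 := by omega
      rw [this, Nat.cast_zero]
    · have h1 : (((4 * w + 2 * e : ℕ) : ℤ) - 12) = ((4 * w + 2 * e - 12 : ℕ) : ℤ) := by omega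
      rw [h1, ModularForm.dimension_level_one _ (by rw [Nat.even_iff]; omega)]
      unfold Nat.ModEq
      split_ifs with h2
      · have : (w - e) / 3 = (4 * w + 2 * e - 12) / 12 := by omega
        rw [this]
      · have : (w - e) / 3 = (4 * w + 2 * e - 12) / 12 + 1 := by omega
        rw [this, Nat.cast_add, Nat.cast_one]

end MT2
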