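import Pool.Agent.Lib_MP_bfd926_sq.SMc

/-!
# The structure of the spaces of cusp forms of level one

`mod_struct`, strong induction on `w` (step `3`). Let `k = 4 * w + 2 * e`. For `w < e`, i.e.
`w = 0`, `e = 1`, `k = 2`: `levelOne_weight_two_rank_zero`, take `y = 0`. Otherwise let
`G = E₄ ^ (w - e) * E₆ ^ e` (weight `4 * (w - e) + 6 * e = k`), whose expansion is, by `ser4_eq`,
`ser6_eq`, `up ℂ (WW e w) * atf (Bt ℂ e w 0)` (constant coefficient `1`), and `F - c • G`, `c` the
constant coefficient of the expansion of `F`, is a cusp form, `toCuspForm`, and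
`qExpansion_eq_qExpansion_discriminant_mul` gives its expansion as that of `Δ` times the expansion of
a form `H` of weight `k - 12`. If `w < 3` then `k - 12 < 0`, `H = 0` (`levelOne_neg_weight_eq_zero`) and
`(w - e) / 3 = 0`. If `w ≥ 3`, `k - 12 = 4 * (w - 3) + 2 * e` (use `ModularForm.mcast`), and by induction
`qExpansion 1 H = up ℂ (WW e (w - 3)) * atf (∑ l ∈ range ((w - 3 - e) / 3 + 1), C (y l) * Bt ℂ e (w - 3) l)`;
with `WW e (w - 3) * be ^ 6 = WW e w` and `X * Bt ℂ e (w - 3) l = Bt ℂ e w (l + 1)`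
(`w - 3 - e - 3 * l = w - e - 3 * (l + 1)`) we get the claim, if `w ≥ 3 + e`, as
`(w - e) / 3 = (w - 3 - e) / 3 + 1`. In the case `w = 3`, `e = 1` one has `H = 0` (weight `2`).

`cusp_struct`: apply `mod_struct` to the modular form given by the cusp form
(`CuspForm.toModularFormₗ`); the constant coefficient of the expansion is `y 0`
(`constantCoeff` of `up ℂ (WW e w)` is `1`, and of `atf P` it is `P.coeff 0`) and it is zero.
-/

open UpperHalfPlane PowerSeries
open scoped MatrixGroups ModularForm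

namespace MT2

private theorem SStr_cc_thA : constantCoeff thA = 1 := by
  rw [← coeff_zero_eq_constantCoeff_apply, thA, coeff_mk]
  simp

private theorem SStr_cc_thB : constantCoeff thB = 1 := by
  rw [thB, evalNegHom]
  rw [← coeff_zero_eq_constantCoeff_apply, coeff_rescale, coeff_zero_eq_constantCoeff_apply, SStr_cc_thA]
  simp

private theorem SStr_cc_WW (e w : ℕ) : constantCoeff (WW e w) = 1 := by
  rw [WW, map_mul, map_pow, map_pow, map_sub, map_mul, al, be, map_pow, map_pow, SStr_cc_thA, SStr_cc_thB]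
  have : constantCoeff (2 : PowerSeries ℤ) = 2 := map_ofNat _ 2
  rw [this]
  norm_num

private theorem SStr_cc_up (φ : PowerSeries ℤ) (h : constantCoeff φ = 1) : constantCoeff (up ℂ φ) = 1 := by
  rw [up, ← coeff_zero_eq_constantCoeff_apply, coeff_map, coeff_zero_eq_constantCoeff_apply, h]
  simp

private theorem SStr_cc_ff : constantCoeff ff = 0 := by
  have : constantCoeff thO = 0 := by
    rw [← coeff_zero_eq_constantCoeff_apply, thO, coeff_mk, if_neg]
    rintro ⟨n, hn, hn2⟩
    have : n = 0 := by simpa using hn2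
    omega
  rw [ff, map_mul, map_mul, map_mul, map_mul, this]
  ring

private theorem SStr_cc_upff : constantCoeff (up ℂ ff) = 0 := by
  rw [up, ← coeff_zero_eq_constantCoeff_apply, coeff_map, coeff_zero_eq_constantCoeff_apply, SStr_cc_ff]
  simp

private theorem SStr_atf_Bt (e w l : ℕ) :
    atf (Bt ℂ e w l) = up ℂ ff ^ l * (1 - 512 * up ℂ ff) ^ e * (1 + 256 * up ℂ ff) ^ (w - e - 3 * l) := by
  unfold atf Bt
  simp only [map_mul, map_pow, map_sub, map_add, map_one, Polynomial.aeval_X, map_ofNat]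

private theorem SStr_up_mul (a b : PowerSeries ℤ) : up ℂ (a * b) = up ℂ a * up ℂ b := map_mul _ a b
private theorem SStr_up_pow (a : PowerSeries ℤ) (n : ℕ) : up ℂ (a ^ n) = up ℂ a ^ n := map_pow _ a n
private theorem SStr_up_add (a b : PowerSeries ℤ) : up ℂ (a + b) = up ℂ a + up ℂ b := map_add _ a b
private theorem SStr_up_sub (a b : PowerSeries ℤ) : up ℂ (a - b) = up ℂ a - up ℂ b := map_sub _ a b
private theorem SStr_up_one : up ℂ (1 : PowerSeries ℤ) = 1 := map_one (PowerSeries.map (Int.castRingHom ℂ))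
private theorem SStr_up_two : up ℂ (2 : PowerSeries ℤ) = 2 :=
  map_ofNat (PowerSeries.map (Int.castRingHom ℂ)) 2
private theorem SStr_up_256 : up ℂ (256 : PowerSeries ℤ) = 256 :=
  map_ofNat (PowerSeries.map (Int.castRingHom ℂ)) 256
private theorem SStr_up_512 : up ℂ (512 : PowerSeries ℤ) = 512 :=
  map_ofNat (PowerSeries.map (Int.castRingHom ℂ)) 512

private theorem SStr_G (e w : ℕ) (he : e ≤ w) :
    up ℂ ser4 ^ (w - e) * up ℂ ser6 ^ e = up ℂ (WW e w) * atf (Bt ℂ e w 0) := by
  obtain ⟨v, rfl⟩ := Nat.exists_eq_add_of_le he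
  rw [SStr_atf_Bt, ser4_eq, ser6_eq, WW]
  simp only [SStr_up_mul, SStr_up_pow, SStr_up_add, SStr_up_sub, SStr_up_one, SStr_up_two, SStr_up_256, SStr_up_512]
  have h1 : e + v - e = v := by omega
  simp only [h1, Nat.mul_zero, Nat.sub_zero, pow_zero, one_mul, mul_pow]
  ring

private theorem SStr_zero {k : ℤ} (hk : k < 0 ∨ k = 2) (H : ModularForm 𝒮ℒ k) : H = 0 := by
  rcases hk with hk | rfl
  · exact rank_zero_iff_forall_zero.mp (ModularForm.levelOne_neg_weight_rank_zero hk) H
  · exact rank_zero_iff_forall_zero.mp ModularForm.levelOne_weight_two_rank_zero H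

private theorem SStr_cc_atf (P : Polynomial ℂ) : constantCoeff (atf P) = P.coeff 0 := by
  unfold atf
  have h : ∀ Q : Polynomial ℂ, constantCoeff (Polynomial.aeval (up ℂ ff) Q) = Q.coeff 0 := by
    intro Q
    induction Q using Polynomial.induction_on' with
    | add p q hp hq => rw [map_add, map_add, hp, hq, Polynomial.coeff_add]
    | monomial n a =>
      rw [Polynomial.aeval_monomial, map_mul, map_pow, SStr_cc_upff, Polynomial.coeff_monomial]
      have : constantCoeff ((algebraMap ℂ (PowerSeries ℂ)) a) = a := by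
        simp
      rw [this]
      by_cases hn : n = 0
      · subst hn; simp
      · simp [hn]
  exact h P

private theorem SStr_Bt (e w l : ℕ) (hw : 3 ≤ w) : Polynomial.X * Bt ℂ e (w - 3) l = Bt ℂ e w (l + 1) := by
  unfold Bt
  have h8 : w - 3 - e - 3 * l = w - e - 3 * (l + 1) := by omega
  rw [h8, pow_succ' Polynomial.X l]
  simp only [mul_assoc]

private theorem SStr_step (e w n : ℕ) (hw : 3 ≤ w) (y : ℕ → ℂ) :
    up ℂ (be ^ 6 * ff) * (up ℂ (WW e (w - 3)) * atf (∑ l ∈ Finset.range n, Polynomial.C (y l) * Bt ℂ e (w - 3) l)) =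
      up ℂ (WW e w) * atf (∑ l ∈ Finset.range n, Polynomial.C (y l) * Bt ℂ e w (l + 1)) := by
  have h5 : up ℂ (be ^ 6 * ff) * up ℂ (WW e (w - 3)) = up ℂ (WW e w) * atf (Polynomial.X) := by
    have h6 : WW e w = be ^ 6 * WW e (w - 3) := by
      rw [WW, WW]
      have : 2 * w = 2 * (w - 3) + 6 := by omega
      rw [this, pow_add, mul_comm (be ^ 6), mul_assoc]
    have h7 : atf (Polynomial.X : Polynomial ℂ) = up ℂ ff := by
      unfold atf; rw [Polynomial.aeval_X]
    rw [h6, h7, SStr_up_mul, SStr_up_mul, mul_assoc, mul_assoc, mul_comm (up ℂ ff)]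
  have h9 : Polynomial.X * (∑ l ∈ Finset.range n, Polynomial.C (y l) * Bt ℂ e (w - 3) l) =
      ∑ l ∈ Finset.range n, Polynomial.C (y l) * Bt ℂ e w (l + 1) := by
    rw [Finset.mul_sum]
    refine Finset.sum_congr rfl (fun l _ => ?_)
    rw [← SStr_Bt e w l hw, mul_left_comm]
  rw [← mul_assoc, h5, mul_assoc, ← h9]
  congr 1
  exact (map_mul (Polynomial.aeval (up ℂ ff)) _ _).symm

private theorem SStr_atf_add (P Q : Polynomial ℂ) (c : ℂ) : atf (P + Polynomial.C c * Q) = atf P + c • atf Q := by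
  have h1 : atf (P + Polynomial.C c * Q) = atf P + atf (Polynomial.C c * Q) := map_add (Polynomial.aeval (up ℂ ff)) _ _
  have h2 : atf (Polynomial.C c * Q) = c • atf Q := by
    have h3 : atf (Polynomial.C c * Q) = atf (Polynomial.C c) * atf Q := map_mul (Polynomial.aeval (up ℂ ff)) _ _
    have h4 : atf (Polynomial.C c : Polynomial ℂ) = algebraMap ℂ (PowerSeries ℂ) c := Polynomial.aeval_C (up ℂ ff) c
    rw [h3, h4, Algebra.smul_def]
  rw [h1, h2]

private theorem SStr_atf_zero : atf (0 : Polynomial ℂ) = 0 := map_zero (Polynomial.aeval (up ℂ ff))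

theorem mod_struct (e w : ℕ) (he : e ≤ 1) (F : ModularForm 𝒮ℒ ((4 * w + 2 * e : ℕ) : ℤ)) :
    ∃ y : ℕ → ℂ, qExpansion 1 F = up ℂ (WW e w) *
      atf (∑ l ∈ Finset.range ((w - e) / 3 + 1), Polynomial.C (y l) * Bt ℂ e w l) := by
  induction w using Nat.strong_induction_on with
  | _ w ih =>
    rcases lt_or_ge w e with hwe | hwe
    · have hF : F = 0 := SStr_zero (Or.inr (by
        have h1 : w = 0 := by omega
        have h2 : e = 1 := by omega
        subst h1 h2; rfl)) F
      refine ⟨fun _ => 0, ?_⟩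
      have h1 : qExpansion 1 F = 0 := by
        rw [hF]; exact (ModularForm.qExpansion_eq_zero_iff one_pos one_mem_strictPeriods_SL _).mpr rfl
      rw [h1]
      simp [atf]
    · -- the form `G`
      let G : ModularForm 𝒮ℒ ((4 * w + 2 * e : ℕ) : ℤ) :=
        ModularForm.mcast (by push_cast [Nat.cast_sub hwe]; ring) ((ModularForm.E₄.pow (w - e)).mul (ModularForm.E₆.pow e))
      have hG : qExpansion 1 G = up ℂ (WW e w) * atf (Bt ℂ e w 0) := by
        have h1 : qExpansion 1 G = qExpansion 1 ((ModularForm.E₄.pow (w - e)).mul (ModularForm.E₆.pow e)) := rfl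
        rw [h1, ModularForm.qExpansion_mul one_pos one_mem_strictPeriods_SL,
          ModularForm.qExpansion_pow one_pos one_mem_strictPeriods_SL,
          ModularForm.qExpansion_pow one_pos one_mem_strictPeriods_SL, E4_q, E6_q]
        exact SStr_G e w hwe
      have hG0 : (qExpansion 1 G).coeff 0 = 1 := by
        rw [hG, coeff_zero_eq_constantCoeff_apply, map_mul, SStr_cc_up _ (SStr_cc_WW e w), SStr_cc_atf]
        rw [Polynomial.coeff_zero_eq_eval_zero, Bt]
        simp
      set c : ℂ := (qExpansion 1 F).coeff 0 with hc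
      obtain ⟨D, hD⟩ : ∃ D : ModularForm 𝒮ℒ ((4 * w + 2 * e : ℕ) : ℤ), D = F - c • G := ⟨_, rfl⟩
      have hsub : qExpansion 1 D = qExpansion 1 F - c • qExpansion 1 G := by
        rw [hD, FunLike.coe_sub, ModularForm.qExpansion_sub one_pos one_mem_strictPeriods_SL, FunLike.coe_smul,
          ModularForm.qExpansion_smul one_pos one_mem_strictPeriods_SL]
      have h0 : (qExpansion 1 D).coeff 0 = 0 := by
        rw [hsub, map_sub, PowerSeries.coeff_smul, hG0, ← hc, smul_eq_mul, mul_one, sub_self]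
      have hdel := ModularForm.qExpansion_eq_qExpansion_discriminant_mul D h0
      rw [delta_q] at hdel
      obtain ⟨H, hH⟩ : ∃ H, H = CuspForm.discriminantEquiv (ModularForm.toCuspForm D h0) := ⟨_, rfl⟩
      rw [← hH] at hdel
      have hFq : qExpansion 1 F = up ℂ (be ^ 6 * ff) * qExpansion 1 H + c • (up ℂ (WW e w) * atf (Bt ℂ e w 0)) := by
        rw [← hdel, hsub, hG, sub_add_cancel]
      rcases lt_or_ge w (3 + e) with hw3 | hw3
      · have hH0 : H = 0 := SStr_zero (by
          rcases lt_or_ge w 3 with h | h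
          · left; push_cast; omega
          · right
            have h1 : w = 3 := by omega
            have h2 : e = 1 := by omega
            subst h1 h2; norm_num) H
        have h2 : qExpansion 1 H = 0 := by
          rw [hH0]; exact (ModularForm.qExpansion_eq_zero_iff one_pos one_mem_strictPeriods_SL _).mpr rfl
        have h3 : (w - e) / 3 = 0 := by omega
        refine ⟨fun _ => c, ?_⟩
        have h4 := SStr_atf_add 0 (Bt ℂ e w 0) c
        rw [zero_add, SStr_atf_zero, zero_add] at h4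
        rw [hFq, h2, h3, mul_zero, zero_add, zero_add, Finset.sum_range_one, h4, mul_smul_comm]
      · have hw4 : 3 ≤ w := by omega
        let H' : ModularForm 𝒮ℒ ((4 * (w - 3) + 2 * e : ℕ) : ℤ) := ModularForm.mcast (by
          push_cast [Nat.cast_sub hw4]; ring) H
        obtain ⟨y, hy⟩ := ih (w - 3) (by omega) H'
        have hy' : qExpansion 1 H = up ℂ (WW e (w - 3)) *
          atf (∑ l ∈ Finset.range ((w - 3 - e) / 3 + 1), Polynomial.C (y l) * Bt ℂ e (w - 3) l) := hy
        refine ⟨fun l => if l = 0 then c else y (l - 1), ?_⟩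
        have h3 : (w - e) / 3 + 1 = ((w - 3 - e) / 3 + 1) + 1 := by omega
        rw [hFq, hy', h3, Finset.sum_range_succ' _ ((w - 3 - e) / 3 + 1), SStr_step e w _ hw4 y]
        have h10 : (∑ l ∈ Finset.range ((w - 3 - e) / 3 + 1),
              Polynomial.C (if l + 1 = 0 then c else y (l + 1 - 1)) * Bt ℂ e w (l + 1)) =
            ∑ l ∈ Finset.range ((w - 3 - e) / 3 + 1), Polynomial.C (y l) * Bt ℂ e w (l + 1) := by
          refine Finset.sum_congr rfl (fun l _ => ?_)
          rw [if_neg (Nat.succ_ne_zero l), Nat.add_sub_cancel]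
        rw [h10]
        have h11 : (fun l => if l = 0 then c else y (l - 1)) 0 = c := if_pos rfl
        rw [h11, SStr_atf_add, mul_add, mul_smul_comm]

theorem cusp_struct (e w : ℕ) (he : e ≤ 1) (F : CuspForm 𝒮ℒ ((4 * w + 2 * e : ℕ) : ℤ)) :
    ∃ y : ℕ → ℂ, qExpansion 1 F = up ℂ (WW e w) *
      atf (∑ l ∈ Finset.Icc 1 ((w - e) / 3), Polynomial.C (y l) * Bt ℂ e w l) := by
  obtain ⟨y, hy⟩ := mod_struct e w he (CuspForm.toModularFormₗ F)
  have hy1 : qExpansion 1 F = up ℂ (WW e w) *
      atf (∑ l ∈ Finset.range ((w - e) / 3 + 1), Polynomial.C (y l) * Bt ℂ e w l) := hy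
  have h0 : (qExpansion 1 F).coeff 0 = 0 :=
    CuspFormClass.qExpansion_coeff_zero F one_pos one_mem_strictPeriods_SL
  have hcoef : ∀ l, (Bt ℂ e w l).coeff 0 = if l = 0 then 1 else 0 := by
    intro l
    rw [Polynomial.coeff_zero_eq_eval_zero, Bt]
    by_cases hl : l = 0
    · subst hl; simp
    · simp [hl]
  have hy0 : y 0 = 0 := by
    rw [hy1, coeff_zero_eq_constantCoeff_apply, map_mul, SStr_cc_up _ (SStr_cc_WW e w), SStr_cc_atf, one_mul,
      Polynomial.finsetSum_coeff] at h0
    rw [Finset.sum_eq_single 0] at h0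
    · rw [Polynomial.coeff_C_mul, hcoef] at h0
      simpa using h0
    · intro l _ hl
      rw [Polynomial.coeff_C_mul, hcoef, if_neg hl, mul_zero]
    · intro h; exact absurd (Finset.mem_range.mpr (Nat.succ_pos _)) h
  refine ⟨y, ?_⟩
  rw [hy1]
  congr 2
  rw [Finset.range_eq_Ico, Finset.sum_eq_sum_Ico_succ_bot (Nat.succ_pos _), hy0, map_zero, zero_mul, zero_add]
  refine Finset.sum_congr ?_ (fun _ _ => rfl)
  ext l
  simp only [Finset.mem_Ico, Finset.mem_Icc]
  omega

end MT2
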