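import Pool.Agent.Lib_MP_bfd926_sq.SEq2
import Pool.Agent.Lib_MP_bfd926_sq.SDim
import Pool.Agent.Lib_MP_bfd926_sq.SStr

/-!
# The matrix of `2 * T₂`

Let `d = (w - e) / 3`. By `cusp_struct` every cusp form `f` of weight `k = 4 * w + 2 * e` has
`qExpansion 1 f = up ℂ (WW e w) * atf P`, `P = ∑ l ∈ Icc 1 d, C (y l) * Bt ℂ e w l`; the polynomial `P`
is determined by `f` (`atf_inj`, `up ℂ (WW e w)` is invertible) and linear in `f`; the coordinates
`f ↦ (crd P i)_{1 ≤ i ≤ d}` are injective (`crd_inj`), so bijective by `cusp_dim`: this is the basis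
`b`, `b.repr f i = crd P (i + 1)`. For the basis vector `b j`, `P = P_j` is the polynomial of
`crd_surj` (the same coordinates), `c l j = crd P_j l` for `l > d`. Also
`v (P_j.coeff l) = v (16 ^ l * crd P_j l) ≤ v 2 ^ (4 * j)` for all `l ≥ 1` (`l = j`; `l > d`:
`4 * l + 4 * (l - j) ≥ 4 * j`). Now apply `eq_crd2` with `P = P_j`, `P'` the polynomial of `T (b j)`,
`ρ = v 2 ^ (4 * j)`. The sum over `Icc 1 (2 * i)` has the terms `NE e w i j` (zero if `j > 2 * i`, by
`NE_zero`) and the terms with `l > d`.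
-/

open UpperHalfPlane PowerSeries
open scoped MatrixGroups ModularForm

namespace MT2

private theorem SMat_WI (e w : ℕ) : ∃ V : PowerSeries ℂ, up ℂ (WW e w) * V = 1 := by
  have h1 : WW e w * PowerSeries.invOfUnit (WW e w) 1 = 1 := by
    apply PowerSeries.mul_invOfUnit
    unfold WW
    have h2 : constantCoeff (2 : PowerSeries ℤ) = 2 := map_ofNat _ 2
    rw [map_mul, map_pow, map_pow, map_sub, map_mul, al_zero, be_zero, h2]
    norm_num
  refine ⟨up ℂ (PowerSeries.invOfUnit (WW e w) 1), ?_⟩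
  have h2 : up ℂ (WW e w) * up ℂ (PowerSeries.invOfUnit (WW e w) 1) =
      up ℂ (WW e w * PowerSeries.invOfUnit (WW e w) 1) := (map_mul _ _ _).symm
  rw [h2, h1]
  exact map_one (PowerSeries.map (Int.castRingHom ℂ))

private theorem SMat_cancel (e w : ℕ) {A B : PowerSeries ℂ}
    (h : up ℂ (WW e w) * A = up ℂ (WW e w) * B) : A = B := by
  obtain ⟨V, hV⟩ := SMat_WI e w
  exact mul_left_cancel₀ (left_ne_zero_of_mul_eq_one hV) h

private theorem SMat_atf_add (P Q : Polynomial ℂ) : atf (P + Q) = atf P + atf Q :=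
  map_add (Polynomial.aeval (up ℂ ff)) P Q

private theorem SMat_atf_smul (a : ℂ) (Q : Polynomial ℂ) : atf (Polynomial.C a * Q) = a • atf Q := by
  have h3 : atf (Polynomial.C a * Q) = atf (Polynomial.C a) * atf Q :=
    map_mul (Polynomial.aeval (up ℂ ff)) _ _
  have h4 : atf (Polynomial.C a : Polynomial ℂ) = algebraMap ℂ (PowerSeries ℂ) a :=
    Polynomial.aeval_C (up ℂ ff) a
  rw [h3, h4, Algebra.smul_def]

private noncomputable def SMat_P (e w : ℕ) (y : ℕ → ℂ) : Polynomial ℂ :=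
  ∑ l ∈ Finset.Icc 1 ((w - e) / 3), Polynomial.C (y l) * Bt ℂ e w l

private theorem SMat_P_zero (e w : ℕ) (y : ℕ → ℂ) (h : ∀ l, 1 ≤ l → l ≤ (w - e) / 3 → y l = 0) :
    SMat_P e w y = 0 := by
  unfold SMat_P
  refine Finset.sum_eq_zero fun l hl => ?_
  rw [Finset.mem_Icc] at hl
  rw [h l hl.1 hl.2, Polynomial.C_0, zero_mul]

private theorem SMat_P_sub (e w : ℕ) (y z : ℕ → ℂ) :
    SMat_P e w (fun l => y l - z l) = SMat_P e w y - SMat_P e w z := by
  unfold SMat_P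
  rw [← Finset.sum_sub_distrib]
  refine Finset.sum_congr rfl fun l _ => ?_
  rw [Polynomial.C_sub, sub_mul]

private theorem SMat_crd_add (P Q : Polynomial ℂ) (i : ℕ) : crd (P + Q) i = crd P i + crd Q i := by
  unfold crd
  rw [Polynomial.coeff_add, add_div]

private theorem SMat_crd_sub (P Q : Polynomial ℂ) (i : ℕ) : crd (P - Q) i = crd P i - crd Q i := by
  unfold crd
  rw [Polynomial.coeff_sub, sub_div]

private theorem SMat_crd_smul (a : ℂ) (P : Polynomial ℂ) (i : ℕ) :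
    crd (Polynomial.C a * P) i = a * crd P i := by
  unfold crd
  rw [Polynomial.coeff_C_mul, mul_div_assoc]

private theorem SMat_P_ext (e w : ℕ) (y z : ℕ → ℂ)
    (h : ∀ i, 1 ≤ i → i ≤ (w - e) / 3 → crd (SMat_P e w y) i = crd (SMat_P e w z) i) :
    SMat_P e w y = SMat_P e w z := by
  have h1 : ∀ l, 1 ≤ l → l ≤ (w - e) / 3 → y l - z l = 0 := by
    refine crd_inj e w ((w - e) / 3) (fun l => y l - z l) fun i hi1 hi2 => ?_
    have h2 : crd (SMat_P e w (fun l => y l - z l)) i = 0 := by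
      rw [SMat_P_sub, SMat_crd_sub, h i hi1 hi2, sub_self]
    exact h2
  have h3 := SMat_P_sub e w y z
  rw [SMat_P_zero e w _ h1] at h3
  exact (sub_eq_zero.1 h3.symm)

private theorem SMat_NE_zero {e : ℕ} {w i j : ℕ} (h : 2 * i < j) : NE e w i j = 0 := by
  have h1 : ¬ (0 : ℤ) ≤ 2 * (i : ℤ) - (j : ℤ) := by omega
  have h2 : ¬ (0 : ℤ) ≤ 2 * (i : ℤ) - (j : ℤ) - 1 := by omega
  unfold NE N Nt ch
  simp only [h1, h2, if_false]
  simp

private theorem SMat_sum (e w d i j : ℕ) (x : ℕ → ℂ) (hj1 : 1 ≤ j) (hj : j ≤ d)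
    (hx : ∀ l, 1 ≤ l → l ≤ d → x l = if l = j then 1 else 0) :
    ∑ l ∈ Finset.Icc 1 (2 * i), (NE e w i l : ℂ) * x l =
      (NE e w i j : ℂ) + ∑ l ∈ Finset.Ioc d (2 * i), (NE e w i l : ℂ) * x l := by
  obtain ⟨c, hc⟩ : ∃ c, c = max d (2 * i) := ⟨_, rfl⟩
  have s1 : ∑ l ∈ Finset.Icc 1 (2 * i), (NE e w i l : ℂ) * x l =
      ∑ l ∈ Finset.Icc 1 c, (NE e w i l : ℂ) * x l := by
    apply Finset.sum_subset
    · exact Finset.Icc_subset_Icc le_rfl (by omega)
    · intro l hl hl2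
      rw [Finset.mem_Icc] at hl hl2
      rw [SMat_NE_zero (by omega), Int.cast_zero, zero_mul]
  have s2 : ∑ l ∈ Finset.Icc 1 c, (NE e w i l : ℂ) * x l =
      ∑ l ∈ Finset.Icc 1 d, (NE e w i l : ℂ) * x l + ∑ l ∈ Finset.Ioc d c, (NE e w i l : ℂ) * x l := by
    have hu : Finset.Icc 1 c = Finset.Icc 1 d ∪ Finset.Ioc d c := by
      ext l
      simp only [Finset.mem_union, Finset.mem_Icc, Finset.mem_Ioc]
      omega
    rw [hu, Finset.sum_union]
    rw [Finset.disjoint_left]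
    intro l hl hl2
    rw [Finset.mem_Icc] at hl
    rw [Finset.mem_Ioc] at hl2
    omega
  have s3 : ∑ l ∈ Finset.Icc 1 d, (NE e w i l : ℂ) * x l = (NE e w i j : ℂ) := by
    rw [Finset.sum_eq_single j]
    · rw [hx j hj1 hj, if_pos rfl, mul_one]
    · intro l hl hlj
      rw [Finset.mem_Icc] at hl
      rw [hx l hl.1 hl.2, if_neg hlj, mul_zero]
    · intro h
      exact absurd (Finset.mem_Icc.2 ⟨hj1, hj⟩) h
  have s4 : Finset.Ioc d c = Finset.Ioc d (2 * i) := by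
    ext l
    simp only [Finset.mem_Ioc]
    omega
  rw [s1, s2, s3, s4]

private theorem SMat_anti {Γ : Type} [LinearOrderedCommGroupWithZero Γ] {t : Γ} (ht : t ≤ 1)
    {m n : ℕ} (h : n ≤ m) : t ^ m ≤ t ^ n := pow_le_pow_right_of_le_one' ht h

private theorem SMat_16 {Γ : Type} [LinearOrderedCommGroupWithZero Γ] (v : Valuation ℂ Γ) (n : ℕ) :
    v ((16 : ℂ) ^ n) = v 2 ^ (4 * n) := by
  rw [pow_mul, map_pow, ← map_pow v 2 4]
  norm_num

theorem matrix_T2 {Γ : Type} [LinearOrderedCommGroupWithZero Γ] (v : Valuation ℂ Γ) (hv : v 2 ≤ 1)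
    (e w : ℕ) (he : e ≤ 1) (T : Module.End ℂ (CuspForm 𝒮ℒ ((4 * w + 2 * e : ℕ) : ℤ)))
    (hT : ∀ f, qExpansion 1 (T f) =
      uu (qExpansion 1 f) + C ((2 : ℂ) ^ (4 * w + 2 * e) / 2) * dbl (qExpansion 1 f)) :
    ∃ (b : Module.Basis (Fin ((w - e) / 3)) ℂ (CuspForm 𝒮ℒ ((4 * w + 2 * e : ℕ) : ℤ)))
      (c r : ℕ → ℕ → ℂ),
      (∀ l j, 1 ≤ j → j ≤ (w - e) / 3 → (w - e) / 3 < l → v (c l j) ≤ v 2 ^ (4 * (l - j))) ∧
      (∀ i j, 1 ≤ j → j ≤ (w - e) / 3 → v (r i j) ≤ v 2 ^ (4 * j)) ∧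
      ∀ i j : Fin ((w - e) / 3), 2 * LinearMap.toMatrix b b T i j =
        16 ^ ((i : ℕ) + 1) * (NE e w ((i : ℕ) + 1) ((j : ℕ) + 1) : ℂ) +
          16 ^ ((i : ℕ) + 1) * ∑ l ∈ Finset.Ioc ((w - e) / 3) (2 * ((i : ℕ) + 1)),
            (NE e w ((i : ℕ) + 1) l : ℂ) * c l ((j : ℕ) + 1) +
          2 ^ (4 * w + 2 * e) / 16 ^ ((i : ℕ) + 1) * r ((i : ℕ) + 1) ((j : ℕ) + 1) := by
  obtain ⟨hfin, hrank⟩ := cusp_dim e w he
  choose Y hY using cusp_struct e w he
  have hq : ∀ f : CuspForm 𝒮ℒ ((4 * w + 2 * e : ℕ) : ℤ),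
      qExpansion 1 f = up ℂ (WW e w) * atf (SMat_P e w (Y f)) := hY
  have hadd : ∀ f g, SMat_P e w (Y (f + g)) = SMat_P e w (Y f) + SMat_P e w (Y g) := by
    intro f g
    apply atf_inj
    apply SMat_cancel e w
    rw [SMat_atf_add, mul_add, ← hq, ← hq, ← hq]
    exact ModularForm.qExpansion_add one_pos one_mem_strictPeriods_SL f g
  have hsmul : ∀ (a : ℂ) f, SMat_P e w (Y (a • f)) = Polynomial.C a * SMat_P e w (Y f) := by
    intro a f
    apply atf_inj
    apply SMat_cancel e w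
    rw [SMat_atf_smul, mul_smul_comm, ← hq, ← hq]
    exact ModularForm.qExpansion_smul one_pos one_mem_strictPeriods_SL a f
  let φ : CuspForm 𝒮ℒ ((4 * w + 2 * e : ℕ) : ℤ) →ₗ[ℂ] (Fin ((w - e) / 3) → ℂ) :=
    { toFun := fun f i => crd (SMat_P e w (Y f)) ((i : ℕ) + 1)
      map_add' := fun f g => by
        funext i
        simp only [Pi.add_apply]
        rw [hadd, SMat_crd_add]
      map_smul' := fun a f => by
        funext i
        simp only [Pi.smul_apply, RingHom.id_apply, smul_eq_mul]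
        rw [hsmul, SMat_crd_smul] }
  have hφ : ∀ f i, φ f i = crd (SMat_P e w (Y f)) ((i : ℕ) + 1) := fun _ _ => rfl
  have hinj : Function.Injective φ := by
    rw [injective_iff_map_eq_zero]
    intro f hf
    have h1 : ∀ i, 1 ≤ i → i ≤ (w - e) / 3 → crd (SMat_P e w (Y f)) i = 0 := by
      intro i hi1 hi2
      have h2 := congrFun hf ⟨i - 1, by omega⟩
      rw [hφ] at h2
      have h3 : i - 1 + 1 = i := by omega
      simp only [h3] at h2
      exact h2
    have h2 : ∀ l, 1 ≤ l → l ≤ (w - e) / 3 → Y f l = 0 := crd_inj e w ((w - e) / 3) (Y f) h1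
    have h3 : qExpansion 1 (CuspForm.toModularFormₗ f) = 0 := by
      have h4 : qExpansion 1 f = 0 := by
        rw [hq, SMat_P_zero e w _ h2]
        have : atf (0 : Polynomial ℂ) = 0 := map_zero (Polynomial.aeval (up ℂ ff))
        rw [this, mul_zero]
      exact h4
    have h5 := (ModularForm.qExpansion_eq_zero_iff one_pos one_mem_strictPeriods_SL _).mp h3
    exact CuspForm.toModularFormₗ_injective (h5.trans (map_zero _).symm)
  let E := LinearMap.linearEquivOfInjective φ hinj (hrank.trans (Module.finrank_fin_fun ℂ).symm)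
  let b : Module.Basis (Fin ((w - e) / 3)) ℂ (CuspForm 𝒮ℒ ((4 * w + 2 * e : ℕ) : ℤ)) :=
    Module.Basis.ofEquivFun E
  have hb : ∀ f i, b.repr f i = crd (SMat_P e w (Y f)) ((i : ℕ) + 1) := by
    intro f i
    rw [← hφ]
    exact Module.Basis.ofEquivFun_repr_apply E f i
  have hbj : ∀ (j : Fin ((w - e) / 3)) (l : ℕ), 1 ≤ l → l ≤ (w - e) / 3 →
      crd (SMat_P e w (Y (b j))) l = if l = (j : ℕ) + 1 then 1 else 0 := by
    intro j l hl1 hl2
    have h1 := hb (b j) ⟨l - 1, by omega⟩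
    have h3 : l - 1 + 1 = l := by omega
    rw [b.repr_self] at h1
    simp only [h3] at h1
    rw [← h1, Finsupp.single_apply]
    by_cases h4 : l = (j : ℕ) + 1
    · rw [if_pos h4, if_pos]
      apply Fin.ext
      show (j : ℕ) = l - 1
      omega
    · rw [if_neg h4, if_neg]
      intro h5
      apply h4
      have h6 : (j : ℕ) = l - 1 := congrArg Fin.val h5
      omega
  have htail : ∀ (j : Fin ((w - e) / 3)) (l : ℕ), (w - e) / 3 < l →
      v (crd (SMat_P e w (Y (b j))) l) ≤ v 2 ^ (4 * (l - ((j : ℕ) + 1))) := by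
    intro j l hl
    have hj : (j : ℕ) < (w - e) / 3 := j.2
    obtain ⟨y, hy1, hy2⟩ := crd_surj v hv e w ((w - e) / 3) ((j : ℕ) + 1) (by omega) (by omega)
    have h1 : SMat_P e w (Y (b j)) = SMat_P e w y := by
      apply SMat_P_ext
      intro i hi1 hi2
      rw [hbj j i hi1 hi2]
      exact (hy1 i hi1 hi2).symm
    rw [h1]
    exact hy2 l hl
  have h0 : ∀ f, (SMat_P e w (Y f)).coeff 0 = 0 := fun f => crd_zero e w _ (Y f)
  have hco : ∀ (j : Fin ((w - e) / 3)) (l : ℕ),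
      v ((SMat_P e w (Y (b j))).coeff l) ≤ v 2 ^ (4 * ((j : ℕ) + 1)) := by
    intro j l
    have hj : (j : ℕ) < (w - e) / 3 := j.2
    rcases Nat.eq_zero_or_pos l with hl | hl
    · rw [hl, h0, map_zero]
      exact zero_le
    have h1 : (SMat_P e w (Y (b j))).coeff l = crd (SMat_P e w (Y (b j))) l * 16 ^ l := by
      unfold crd
      field_simp
    rw [h1, map_mul, SMat_16]
    rcases le_or_gt l ((w - e) / 3) with h2 | h2
    · rw [hbj j l hl h2]
      by_cases h3 : l = (j : ℕ) + 1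
      · rw [if_pos h3, map_one, one_mul, h3]
      · rw [if_neg h3, map_zero, zero_mul]
        exact zero_le
    · calc v (crd (SMat_P e w (Y (b j))) l) * v 2 ^ (4 * l)
          ≤ v 2 ^ (4 * (l - ((j : ℕ) + 1))) * v 2 ^ (4 * l) := mul_le_mul' (htail j l h2) le_rfl
        _ = v 2 ^ (4 * (l - ((j : ℕ) + 1)) + 4 * l) := (pow_add _ _ _).symm
        _ ≤ v 2 ^ (4 * ((j : ℕ) + 1)) := SMat_anti hv (by omega)
  have key : ∀ (j : Fin ((w - e) / 3)) (i : ℕ), ∃ r : ℂ, v r ≤ v 2 ^ (4 * ((j : ℕ) + 1)) ∧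
      2 * crd (SMat_P e w (Y (T (b j)))) i =
        16 ^ i * ∑ l ∈ Finset.Icc 1 (2 * i), (NE e w i l : ℂ) * crd (SMat_P e w (Y (b j))) l +
          2 ^ (4 * w + 2 * e) / 16 ^ i * r := by
    intro j i
    refine eq_crd2 v e w he _ _ (h0 (b j)) ?_ _ (hco j) i
    rw [← hq, ← hq]
    exact (hT (b j)).symm
  choose R hR1 hR2 using key
  refine ⟨b, fun l j => if h : j - 1 < (w - e) / 3 then crd (SMat_P e w (Y (b ⟨j - 1, h⟩))) l else 0,
    fun i j => if h : j - 1 < (w - e) / 3 then R ⟨j - 1, h⟩ i else 0, ?_, ?_, ?_⟩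
  · intro l j hj1 hj2 hl
    have h1 : j - 1 < (w - e) / 3 := by omega
    have h2 := htail ⟨j - 1, h1⟩ l hl
    have h3 : j - 1 + 1 = j := by omega
    simp only [h3] at h2
    simp only [dif_pos h1]
    exact h2
  · intro i j hj1 hj2
    have h1 : j - 1 < (w - e) / 3 := by omega
    have h2 := hR1 ⟨j - 1, h1⟩ i
    have h3 : j - 1 + 1 = j := by omega
    simp only [h3] at h2
    simp only [dif_pos h1]
    exact h2
  · intro i j
    have hj : (j : ℕ) < (w - e) / 3 := j.2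
    have h1 : (j : ℕ) + 1 - 1 < (w - e) / 3 := by omega
    have h2 : (⟨(j : ℕ) + 1 - 1, h1⟩ : Fin ((w - e) / 3)) = j := by
      apply Fin.ext
      show (j : ℕ) + 1 - 1 = j
      omega
    rw [LinearMap.toMatrix_apply, hb, hR2 j ((i : ℕ) + 1),
      SMat_sum e w ((w - e) / 3) ((i : ℕ) + 1) ((j : ℕ) + 1) _ (by omega) (by omega) (hbj j)]
    simp only [dif_pos h1, h2]
    push_cast
    ring

end MT2
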