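import Pool.Agent.Lib_MP_bfd926_sq.SDefs

/-!
# A valuation of the complex numbers with `v 2 < 1`

`ℤ` localized at the prime ideal `(2)` is a local subring `A` of `ℂ`
(`LocalSubring.ofPrime` for the subring `(algebraMap ℤ ℂ).range` or `(⊥ : Subring ℂ)` and the
prime ideal generated by `2`; the integer `2` is not invertible in `A`, as `ℤ → ℂ` is injective).
`LocalSubring.exists_le_valuationSubring` gives a valuation subring `B` which dominates
`A`; so `2` is not invertible in `B` (domination: the inclusion `A → B` is a local homomorphism),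
and `B.valuation 2 < 1` (`ValuationSubring.valuation_lt_one_iff`). The value group of `B` lives in
`Type`.
-/

namespace MT2

theorem exists_val : ∃ (Γ : Type) (_ : LinearOrderedCommGroupWithZero Γ) (v : Valuation ℂ Γ),
    v 2 < 1 := by
  have hI : (Ideal.span {(2 : (⊥ : Subring ℂ))} : Ideal (⊥ : Subring ℂ)) ≠ ⊤ := by
    rw [Ne, Ideal.eq_top_iff_one, Ideal.mem_span_singleton']
    rintro ⟨⟨a, ha⟩, h⟩
    obtain ⟨n, rfl⟩ := Subring.mem_bot.1 ha
    have h1 : (n : ℂ) * 2 = 1 := congrArg Subtype.val h
    have h2 : n * 2 = 1 := by exact_mod_cast h1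
    omega
  obtain ⟨B, _, hB⟩ := Ideal.image_subset_nonunits_valuationSubring _ hI
  refine ⟨B.ValueGroup, inferInstance, B.valuation, ?_⟩
  rw [← ValuationSubring.mem_nonunits_iff]
  exact hB ⟨2, Ideal.mem_span_singleton_self _, rfl⟩

end MT2
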