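import Pool.Agent.Lib_MP_bfd926_sq.SInt

/-!
# The left null vectors

Let `c = n * (n - w)`, `3 * n ≤ w`, `y = yv w n`. By definition, for `i < n`
`(4 * i - 2) * (i * (i - w) - c) * y_i = -(i + 1 - w) * (i ^ 2 - w ^ 2 - 4 * c) * y_{i+1}`
(`yv_rec`), `y_n = 1`, `y_i = 0` for `i > n`.

Let `κ_j = ∑_{i ∈ Icc 1 n} y_i * K4 w i j`. Multiply `int_A - 2 * c * int_B` by `y_i` and sum over
`i ∈ Icc 1 n`: on the left-hand side the coefficient of `N w i j` is
`(4 * i - 2) * (c_i - c) * y_i + (i + 1 - w) * (i ^ 2 - w ^ 2 - 4 * c) * y_{i+1} = 0` (the term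
`N w 0 j` is zero for `1 ≤ j`), so that for all `1 ≤ j`
`2 * (2 * w - 1 - 2 * j) * (c_j - c) * κ_j = (j - 1) * (j * (j - 2 * w) - 4 * c) * κ_{j-1}`. (1)
For `j = 1, …, n - 1` the factor on the left is not zero, so `κ_j = 0` for `1 ≤ j < n` (induction;
for `j = 1` the right-hand side has the factor `j - 1`). By `K4_zero` and `K4_top`,
`κ_{2n-1} = y_n = 1`. For `n < j ≤ 2 * n - 1` one has
`j * (j - 2 * w) - 4 * c = (2 * n - j) * (2 * w - 2 * n - j) ≠ 0`, so (1) gives `κ_{j-1}` from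
`κ_j`, and `κ_n = kap w n` (`kapsum_self`).
With `l_i = (i - 1/2) * y_i + (i + 1 - w) * y_{i+1}` and `int_B`:
`∑_i l_i * N w i j = ∑_i y_i * ((i - 1/2) * N w i j + (i - w) * N w (i - 1) j) =
 (1/2) * (-(2 * w - 1 - 2 * j) * κ_j + 2 * (j - 1) * κ_{j-1})`, which is zero for
`1 ≤ j < n` and `-(1/2) * (2 * w - 1 - 2 * n) * kap w n` for `j = n`.
-/

namespace MT2

theorem yv_self (w n : ℕ) : yv w n n = 1 := by
  unfold yv
  rw [if_pos le_rfl, Finset.Ico_self, Finset.prod_empty]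

theorem yv_gt {w n i : ℕ} (h : n < i) : yv w n i = 0 := by
  unfold yv
  rw [if_neg (by omega)]

private theorem sLeft_cne {w n l : ℕ} (hn : 3 * n ≤ w) (hl : l < n) :
    (l : ℚ) * (l - w) - n * (n - w) ≠ 0 := by
  have h1 : (l : ℚ) * (l - w) - n * (n - w) = (l - n) * (n + l - w) := by ring
  rw [h1]
  have h2 : (l : ℚ) < n := by exact_mod_cast hl
  have h3 : ((n + l : ℕ) : ℚ) < w := by exact_mod_cast (by omega : n + l < w)
  push_cast at h3
  exact mul_ne_zero (by linarith) (by linarith)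

private theorem sLeft_odd (w l : ℕ) : 2 * (w : ℚ) - 1 - 2 * l ≠ 0 := by
  intro h
  have h1 : (2 * (w : ℤ) - 1 - 2 * l : ℤ) = 0 := by
    have : ((2 * (w : ℤ) - 1 - 2 * l : ℤ) : ℚ) = 0 := by
      push_cast
      exact h
    exact_mod_cast this
  omega

private theorem sLeft_half (l : ℕ) : (l : ℚ) - 1 / 2 ≠ 0 := by
  intro h
  have h1 : 2 * (l : ℤ) - 1 = 0 := by
    have : ((2 * (l : ℤ) - 1 : ℤ) : ℚ) = 0 := by
      push_cast
      linarith
    exact_mod_cast this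
  omega

theorem yv_rec {w n i : ℕ} (hn : 3 * n ≤ w) (hi : i < n) :
    (4 * (i : ℚ) - 2) * (i * (i - w) - n * (n - w)) * yv w n i =
      -((i : ℚ) + 1 - w) * ((i : ℚ) ^ 2 - w ^ 2 - 4 * (n * (n - w))) * yv w n (i + 1) := by
  have h1 := sLeft_cne hn hi
  have h2 := sLeft_half i
  have h3 : yv w n i = (-((i : ℚ) + 1 - w) * ((i : ℚ) ^ 2 - w ^ 2 - 4 * (n * (n - w))) /
        (4 * (i * (i - w) - n * (n - w)) * (i - 1 / 2))) * yv w n (i + 1) := by
    unfold yv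
    rw [if_pos hi.le, if_pos (by omega), Finset.prod_eq_prod_Ico_succ_bot hi]
  have h4 : (4 * (i : ℚ) - 2) * (i * (i - w) - n * (n - w)) =
      4 * (i * (i - w) - n * (n - w)) * (i - 1 / 2) := by ring
  rw [h3, h4, ← mul_assoc, mul_div_cancel₀]
  exact mul_ne_zero (mul_ne_zero four_ne_zero h1) h2

theorem lv_self (w n : ℕ) : lv w n n = n - 1 / 2 := by
  unfold lv
  rw [yv_self, yv_gt (Nat.lt_succ_self n)]
  ring

theorem lv_gt {w n i : ℕ} (h : n < i) : lv w n i = 0 := by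
  unfold lv
  rw [yv_gt h, yv_gt (by omega)]
  ring

private theorem sLeft_sum {M : Type} [AddCommMonoid M] (F : ℕ → M) (n : ℕ) :
    ∑ j ∈ Finset.Icc 1 n, F j = ∑ l ∈ Finset.range n, F (l + 1) := by
  rw [Finset.range_eq_Ico, Finset.sum_Ico_add' F 0 n 1]
  congr 1

private theorem sLeft_step {w n j : ℕ} (hn : 3 * n ≤ w) :
    2 * (2 * (w : ℚ) - 1 - 2 * ((j : ℚ) + 1)) * (((j : ℚ) + 1) * ((j + 1) - w) - n * (n - w)) *
        ∑ l ∈ Finset.range n, yv w n (l + 1) * (K4 w (l + 1) (j + 1) : ℚ) =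
      (j : ℚ) * (((j : ℚ) + 1) * ((j + 1) - 2 * w) - 4 * (n * (n - w))) *
        ∑ l ∈ Finset.range n, yv w n (l + 1) * (K4 w (l + 1) j : ℚ) := by
  have key : ∀ l ∈ Finset.range n,
      2 * (2 * (w : ℚ) - 1 - 2 * ((j : ℚ) + 1)) * (((j : ℚ) + 1) * ((j + 1) - w) - n * (n - w)) *
        (yv w n (l + 1) * (K4 w (l + 1) (j + 1) : ℚ)) -
      (j : ℚ) * (((j : ℚ) + 1) * ((j + 1) - 2 * w) - 4 * (n * (n - w))) *
        (yv w n (l + 1) * (K4 w (l + 1) j : ℚ)) =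
      (4 * (l : ℚ) - 2) * (l * (l - w) - n * (n - w)) * yv w n l * (N w l (j + 1) : ℚ) -
        (4 * ((l + 1 : ℕ) : ℚ) - 2) * (((l + 1 : ℕ) : ℚ) * (((l + 1 : ℕ) : ℚ) - w) -
          n * (n - w)) * yv w n (l + 1) * (N w ((l + 1 : ℕ) : ℤ) (j + 1) : ℚ) := by
    intro l hl
    have hA := congrArg (Int.cast : ℤ → ℚ) (int_A (w : ℤ) ((l : ℤ) + 1) ((j : ℤ) + 1))
    have hB := congrArg (Int.cast : ℤ → ℚ) (int_B (w : ℤ) ((l : ℤ) + 1) ((j : ℤ) + 1))
    simp only [add_sub_cancel_right] at hA hB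
    have hr := yv_rec (i := l) hn (Finset.mem_range.1 hl)
    push_cast at hA hB ⊢
    linear_combination (yv w n (l + 1)) * hA - 2 * (n * (n - w)) * (yv w n (l + 1)) * hB -
      (N w l (j + 1) : ℚ) * hr
  have hsum := Finset.sum_congr (rfl : Finset.range n = Finset.range n) key
  rw [Finset.sum_sub_distrib, ← Finset.mul_sum, ← Finset.mul_sum] at hsum
  have htel := Finset.sum_range_sub' (fun l : ℕ => (4 * (l : ℚ) - 2) *
    (l * (l - w) - n * (n - w)) * yv w n l * (N w l (j + 1) : ℚ)) n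
  rw [htel] at hsum
  have h0 : N w ((0 : ℕ) : ℤ) ((j : ℤ) + 1) = 0 := N_zero (by push_cast; omega)
  rw [h0] at hsum
  push_cast at hsum
  linear_combination hsum

private theorem sLeft_lt {w n j : ℕ} (hn : 3 * n ≤ w) (hjn : j + 1 < n) :
    ∑ l ∈ Finset.range n, yv w n (l + 1) * (K4 w (l + 1) (j + 1) : ℚ) = 0 := by
  induction j with
  | zero =>
    have hs := sLeft_step (w := w) (n := n) (j := 0) hn
    have h1 := sLeft_cne (w := w) (n := n) (l := 1) hn hjn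
    have h2 := sLeft_odd w 1
    push_cast at hs h1 h2 ⊢
    rw [zero_mul, zero_mul] at hs
    rcases mul_eq_zero.1 hs with h | h
    · exfalso
      rcases mul_eq_zero.1 h with h | h
      · rcases mul_eq_zero.1 h with h | h
        · norm_num at h
        · exact h2 (by linarith)
      · exact h1 (by linarith)
    · exact h
  | succ j ih =>
    have h0 := ih (by omega)
    have hs := sLeft_step (w := w) (n := n) (j := j + 1) hn
    have h1 := sLeft_cne (w := w) (n := n) (l := j + 2) hn (by omega)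
    have h2 := sLeft_odd w (j + 2)
    push_cast at h0 hs h1 h2 ⊢
    rw [h0, mul_zero] at hs
    rcases mul_eq_zero.1 hs with h | h
    · exfalso
      rcases mul_eq_zero.1 h with h | h
      · rcases mul_eq_zero.1 h with h | h
        · norm_num at h
        · exact h2 (by linarith)
      · exact h1 (by linarith)
    · exact h

theorem kapsum_lt {w n j : ℕ} (hn : 3 * n ≤ w) (hj : 1 ≤ j) (hjn : j < n) :
    ∑ i ∈ Finset.Icc 1 n, yv w n i * (K4 w i j : ℚ) = 0 := by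
  obtain ⟨j, rfl⟩ : ∃ k, j = k + 1 := ⟨j - 1, by omega⟩
  rw [sLeft_sum (fun i => yv w n i * (K4 w i ((j + 1 : ℕ) : ℤ) : ℚ))]
  have h := sLeft_lt hn hjn
  push_cast
  exact h

private theorem sLeft_top {w n : ℕ} :
    ∑ l ∈ Finset.range (n + 1), yv w (n + 1) (l + 1) *
      (K4 w (l + 1) ((2 * n + 1 : ℕ) : ℤ) : ℚ) = 1 := by
  rw [Finset.sum_range_succ, Finset.sum_eq_zero, zero_add, yv_self]
  · have := K4_top (w : ℤ) ((n : ℤ) + 1)
    rw [show 2 * ((n : ℤ) + 1) - 1 = ((2 * n + 1 : ℕ) : ℤ) by push_cast; ring] at this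
    rw [this]
    simp
  · intro l hl
    rw [K4_zero (by have := Finset.mem_range.1 hl; push_cast; omega)]
    simp

private theorem sLeft_down {w n t : ℕ} (hn : 3 * (n + 1) ≤ w) (ht : t ≤ n) :
    ∑ l ∈ Finset.range (n + 1), yv w (n + 1) (l + 1) *
      (K4 w (l + 1) ((2 * n + 1 - t : ℕ) : ℤ) : ℚ) =
      ∏ j ∈ Finset.Ioo (2 * n + 1 - t) (2 * (n + 1)),
        (2 * (2 * (w : ℚ) - 1 - 2 * j) * (j * (j - w) - ((n + 1 : ℕ) : ℚ) *
          (((n + 1 : ℕ) : ℚ) - w)) /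
          (((j : ℚ) - 1) * (2 * ((n + 1 : ℕ) : ℚ) - j) * (2 * w - 2 * ((n + 1 : ℕ) : ℚ) - j))) := by
  induction t with
  | zero =>
    rw [show 2 * n + 1 - 0 = 2 * n + 1 by omega, sLeft_top,
      show Finset.Ioo (2 * n + 1) (2 * (n + 1)) = ∅ by
        ext x; simp only [Finset.mem_Ioo, Finset.notMem_empty, iff_false]; omega]
    rw [Finset.prod_empty]
  | succ t ih =>
    have h0 := ih (by omega)
    obtain ⟨m, hm⟩ : ∃ m, 2 * n + 1 - t = m + 1 := ⟨2 * n - t, by omega⟩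
    have hm' : 2 * n + 1 - (t + 1) = m := by omega
    have hI : Finset.Ioo m (2 * (n + 1)) = insert (m + 1) (Finset.Ioo (m + 1) (2 * (n + 1))) := by
      ext x; simp only [Finset.mem_Ioo, Finset.mem_insert]; omega
    rw [hm', hI, Finset.prod_insert (by simp)]
    rw [hm] at h0
    rw [← h0]
    have hs := sLeft_step (w := w) (n := n + 1) (j := m) hn
    have hm1 : 1 ≤ m := by omega
    have hm2 : m + 1 < 2 * (n + 1) := by omega
    have hm3 : 2 * (n + 1) + (m + 1) < 2 * w := by omega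
    have e1 : (m : ℚ) ≠ 0 := by
      have : (1 : ℚ) ≤ m := by exact_mod_cast hm1
      linarith
    have e2 : 2 * ((n : ℚ) + 1) - (m + 1) ≠ 0 := by
      have : (((m + 1 : ℕ) : ℚ)) < ((2 * (n + 1) : ℕ) : ℚ) := by exact_mod_cast hm2
      push_cast at this
      linarith
    have e3 : 2 * (w : ℚ) - 2 * ((n : ℚ) + 1) - (m + 1) ≠ 0 := by
      have : (((2 * (n + 1) + (m + 1) : ℕ) : ℚ)) < ((2 * w : ℕ) : ℚ) := by exact_mod_cast hm3
      push_cast at this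
      linarith
    push_cast at hs ⊢
    have e4 : ((m : ℚ) + 1 - 1) * (2 * ((n : ℚ) + 1) - (m + 1)) *
        (2 * w - 2 * ((n : ℚ) + 1) - (m + 1)) =
        (m : ℚ) * (((m : ℚ) + 1) * ((m + 1) - 2 * w) - 4 * (((n : ℚ) + 1) * ((n + 1) - w))) := by
      ring
    have e5 : ((m : ℚ) + 1 - 1) * (2 * ((n : ℚ) + 1) - (m + 1)) *
        (2 * w - 2 * ((n : ℚ) + 1) - (m + 1)) ≠ 0 := by
      rw [add_sub_cancel_right]
      exact mul_ne_zero (mul_ne_zero e1 e2) e3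
    rw [eq_comm, div_mul_eq_mul_div, div_eq_iff e5, hs, e4]
    ring

theorem kapsum_self {w n : ℕ} (hn : 3 * n ≤ w) (h1 : 1 ≤ n) :
    ∑ i ∈ Finset.Icc 1 n, yv w n i * (K4 w i n : ℚ) = kap w n := by
  obtain ⟨n, rfl⟩ : ∃ k, n = k + 1 := ⟨n - 1, by omega⟩
  rw [sLeft_sum (fun i => yv w (n + 1) i * (K4 w i ((n + 1 : ℕ) : ℤ) : ℚ))]
  have h := sLeft_down (w := w) (n := n) (t := n) hn le_rfl
  rw [show 2 * n + 1 - n = n + 1 by omega] at h
  unfold kap
  rw [← h]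
  push_cast
  rfl

private theorem sLeft_lvsum (w n j : ℕ) :
    ∑ i ∈ Finset.Icc 1 n, lv w n i * (N w i ((j : ℤ) + 1) : ℚ) =
      1 / 2 * (-(2 * (w : ℚ) - 1 - 2 * (j + 1)) *
        ∑ l ∈ Finset.range n, yv w n (l + 1) * (K4 w (l + 1) (j + 1) : ℚ) +
        2 * (j : ℚ) * ∑ l ∈ Finset.range n, yv w n (l + 1) * (K4 w (l + 1) j : ℚ)) := by
  rw [sLeft_sum (fun i => lv w n i * (N w i ((j : ℤ) + 1) : ℚ))]
  have key : ∀ l ∈ Finset.range n,
      lv w n (l + 1) * (N w ((l + 1 : ℕ) : ℤ) ((j : ℤ) + 1) : ℚ) -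
      1 / 2 * (-(2 * (w : ℚ) - 1 - 2 * (j + 1)) *
        (yv w n (l + 1) * (K4 w (l + 1) (j + 1) : ℚ)) +
        2 * (j : ℚ) * (yv w n (l + 1) * (K4 w (l + 1) j : ℚ))) =
      -((l : ℚ) + 1 - w) * yv w n (l + 1) * (N w l ((j : ℤ) + 1) : ℚ) -
        -(((l + 1 : ℕ) : ℚ) + 1 - w) * yv w n (l + 1 + 1) *
          (N w ((l + 1 : ℕ) : ℤ) ((j : ℤ) + 1) : ℚ) := by
    intro l _
    have hB := congrArg (Int.cast : ℤ → ℚ) (int_B (w : ℤ) ((l : ℤ) + 1) ((j : ℤ) + 1))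
    simp only [add_sub_cancel_right] at hB
    unfold lv
    push_cast at hB ⊢
    linear_combination 1 / 2 * (yv w n (l + 1)) * hB
  have hsum := Finset.sum_congr (rfl : Finset.range n = Finset.range n) key
  rw [Finset.sum_sub_distrib, ← Finset.mul_sum, Finset.sum_add_distrib, ← Finset.mul_sum,
    ← Finset.mul_sum] at hsum
  have htel := Finset.sum_range_sub' (fun l : ℕ => -((l : ℚ) + 1 - w) * yv w n (l + 1) *
    (N w l ((j : ℤ) + 1) : ℚ)) n
  rw [htel] at hsum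
  have h0 : N w ((0 : ℕ) : ℤ) ((j : ℤ) + 1) = 0 := N_zero (by push_cast; omega)
  rw [h0, yv_gt (Nat.lt_succ_self n)] at hsum
  push_cast at hsum ⊢
  linear_combination hsum

theorem lv_null {w n j : ℕ} (hn : 3 * n ≤ w) (hj : 1 ≤ j) (hjn : j < n) :
    ∑ i ∈ Finset.Icc 1 n, lv w n i * (N w i j : ℚ) = 0 := by
  obtain ⟨j, rfl⟩ : ∃ k, j = k + 1 := ⟨j - 1, by omega⟩
  have h := sLeft_lvsum w n j
  push_cast
  rw [h, sLeft_lt hn hjn]
  rcases Nat.eq_zero_or_pos j with h0 | h0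
  · subst h0
    simp
  · obtain ⟨k, rfl⟩ : ∃ k, j = k + 1 := ⟨j - 1, by omega⟩
    have h2 := sLeft_lt (w := w) (n := n) (j := k) hn (by omega)
    push_cast at h2 ⊢
    rw [h2]
    ring

theorem lv_top {w n : ℕ} (hn : 3 * n ≤ w) (h1 : 1 ≤ n) :
    ∑ i ∈ Finset.Icc 1 n, lv w n i * (N w i n : ℚ) =
      -(1 / 2) * (2 * w - 1 - 2 * n) * kap w n := by
  have hk := kapsum_self hn h1
  obtain ⟨j, rfl⟩ : ∃ k, n = k + 1 := ⟨n - 1, by omega⟩
  rw [sLeft_sum (fun i => yv w (j + 1) i * (K4 w i ((j + 1 : ℕ) : ℤ) : ℚ))] at hk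
  have h := sLeft_lvsum w (j + 1) j
  rw [← hk]
  push_cast at h ⊢
  rw [h]
  rcases Nat.eq_zero_or_pos j with h0 | h0
  · subst h0
    simp
    ring
  · obtain ⟨k, rfl⟩ : ∃ k, j = k + 1 := ⟨j - 1, by omega⟩
    have h2 := sLeft_lt (w := w) (n := k + 1 + 1) (j := k) hn (by omega)
    push_cast at h2 ⊢
    rw [h2]
    ring

end MT2
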