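import Pool.Agent.Lib_MP_bfd926_sq.SDefs

/-!
# The 2-adic size of the pivots

For `1 ≤ n`, `3 * n ≤ w`: with `j = n + m`, `m = 1, …, n - 1`, the factor of `kap w n` is
`-2 * (2 * w - 1 - 2 * j) * m * (w - 2 * n - m) / ((n + m - 1) * (n - m) * (2 * w - 3 * n - m))`,
and `∏ m = ∏ (n - m)`. Hence
`kap w n * (∏ m ∈ range (n - 1), (2 * m + 1)) * C(2 * w - 3 * n - 1, n - 1) =
 (-1) ^ (n - 1) * (∏_{j ∈ Ioo n (2n)} (2 * w - 1 - 2 * j)) * C(w - 2 * n - 1, n - 1)`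
(using `∏_{m=1}^{n-1} (n + m - 1) = (2 n - 2)! / (n - 1)! = 2 ^ (n - 1) * ∏_{m<n-1} (2 m + 1)`,
`∏ (w - 2 * n - m) = (n - 1)! * C(w - 2 * n - 1, n - 1)`, and
`∏ (2 * w - 3 * n - m) = (n - 1)! * C(2 * w - 3 * n - 1, n - 1)`). Here `w - 2 * n - 1 ≥ n - 1`,
so `kap w n ≠ 0`, and the norm of the inverse is at most the inverse of the norm of
`C(w - 2 * n - 1, n - 1)`, which is at most `2 ^ log 2 w` (`Nat.factorization_choose_le_log`).
The numbers `2 * w - 1 - 2 * j`, `2 * m + 1`, `2 * n - 1`, `2 * w - 1 - 2 * n` are odd.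
-/

namespace MT2

private theorem SDb_two (k : ℕ) :
    (2 : ℚ) ^ k * (∏ m ∈ Finset.range k, (2 * (m : ℚ) + 1)) * (k.factorial : ℚ) =
      ((2 * k).factorial : ℚ) := by
  induction k with
  | zero => simp
  | succ k ih =>
    have e : 2 * (k + 1) = (2 * k + 1) + 1 := by ring
    rw [e, Nat.factorial_succ, Nat.factorial_succ, Nat.factorial_succ, Finset.prod_range_succ,
      pow_succ]
    push_cast
    rw [← ih]
    ring

private theorem SDb_asc (k : ℕ) :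
    (k.factorial : ℚ) * (∏ m ∈ Finset.range k, ((k : ℚ) + 1 + m)) =
      ((2 * k).factorial : ℚ) := by
  have h := Finset.prod_range_add (fun m : ℕ => (m : ℚ) + 1) k k
  have h1 : ∀ n : ℕ, ∏ m ∈ Finset.range n, ((m : ℚ) + 1) = (n.factorial : ℚ) := by
    intro n
    rw [← Finset.prod_range_add_one_eq_factorial]
    push_cast
    rfl
  rw [h1, ← two_mul, h1] at h
  rw [h]
  refine congrArg _ (Finset.prod_congr rfl (fun m _ => ?_))
  push_cast
  ring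

private theorem SDb_half (k : ℕ) :
    (∏ m ∈ Finset.range k, ((k : ℚ) + 1 + m)) =
      (2 : ℚ) ^ k * (∏ m ∈ Finset.range k, (2 * (m : ℚ) + 1)) := by
  have h1 := SDb_two k
  have h2 := SDb_asc k
  have h3 : (k.factorial : ℚ) ≠ 0 := Nat.cast_ne_zero.mpr (Nat.factorial_ne_zero k)
  apply mul_left_cancel₀ h3
  rw [h2, ← h1]
  ring

private theorem SDb_desc (k a : ℕ) (h : k ≤ a) :
    (∏ m ∈ Finset.range k, ((a : ℚ) - m)) = (k.factorial : ℚ) * (Nat.choose a k : ℚ) := by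
  rw [← Nat.cast_mul, ← Nat.descFactorial_eq_factorial_mul_choose,
    Nat.descFactorial_eq_prod_range, Nat.cast_prod]
  refine Finset.prod_congr rfl (fun m hm => ?_)
  rw [Finset.mem_range] at hm
  rw [Nat.cast_sub (by omega)]

private theorem SDb_Ioo (n : ℕ) (h1 : 1 ≤ n) (f : ℕ → ℚ) :
    ∏ j ∈ Finset.Ioo n (2 * n), f j = ∏ m ∈ Finset.range (n - 1), f (n + 1 + m) := by
  have e : Finset.Ioo n (2 * n) = Finset.Ico (n + 1) (2 * n) := by
    ext j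
    simp only [Finset.mem_Ioo, Finset.mem_Ico]
    omega
  rw [e, Finset.prod_Ico_eq_prod_range]
  have e2 : 2 * n - (n + 1) = n - 1 := by omega
  rw [e2]

theorem kap_closed {w n : ℕ} (hn : 3 * n ≤ w) (h1 : 1 ≤ n) :
    kap w n * (∏ m ∈ Finset.range (n - 1), (2 * (m : ℚ) + 1)) *
        (Nat.choose (2 * w - 3 * n - 1) (n - 1) : ℚ) =
      (-1) ^ (n - 1) * (∏ j ∈ Finset.Ioo n (2 * n), (2 * (w : ℚ) - 1 - 2 * j)) *
        (Nat.choose (w - 2 * n - 1) (n - 1) : ℚ) := by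
  rw [kap, SDb_Ioo n h1, SDb_Ioo n h1]
  obtain ⟨k, rfl⟩ : ∃ k, n = k + 1 := ⟨n - 1, by omega⟩
  obtain ⟨u, rfl⟩ : ∃ u, w = 3 * (k + 1) + u := ⟨w - 3 * (k + 1), by omega⟩
  have e1 : k + 1 - 1 = k := by omega
  have e2 : 2 * (3 * (k + 1) + u) - 3 * (k + 1) - 1 = 3 * k + 2 + 2 * u := by omega
  have e3 : 3 * (k + 1) + u - 2 * (k + 1) - 1 = k + u := by omega
  rw [e1, e2, e3]
  have hk : (k.factorial : ℚ) ≠ 0 := Nat.cast_ne_zero.mpr (Nat.factorial_ne_zero k)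
  have hA := SDb_desc k (3 * k + 2 + 2 * u) (by omega)
  have hB := SDb_desc k (k + u) (by omega)
  have hC := SDb_desc k k le_rfl
  have hD := SDb_half k
  rw [Nat.choose_self, Nat.cast_one, mul_one] at hC
  have hE : ∏ m ∈ Finset.range k, ((m : ℚ) + 1) = (k.factorial : ℚ) := by
    rw [← Finset.prod_range_add_one_eq_factorial]
    push_cast
    rfl
  have hf : ∏ m ∈ Finset.range k,
      (2 * (2 * ((3 * (k + 1) + u : ℕ) : ℚ) - 1 - 2 * ((k + 1 + 1 + m : ℕ) : ℚ)) *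
        (((k + 1 + 1 + m : ℕ) : ℚ) * (((k + 1 + 1 + m : ℕ) : ℚ) - ((3 * (k + 1) + u : ℕ) : ℚ)) -
          ((k + 1 : ℕ) : ℚ) * (((k + 1 : ℕ) : ℚ) - ((3 * (k + 1) + u : ℕ) : ℚ))) /
      ((((k + 1 + 1 + m : ℕ) : ℚ) - 1) * (2 * ((k + 1 : ℕ) : ℚ) - ((k + 1 + 1 + m : ℕ) : ℚ)) *
        (2 * ((3 * (k + 1) + u : ℕ) : ℚ) - 2 * ((k + 1 : ℕ) : ℚ) - ((k + 1 + 1 + m : ℕ) : ℚ)))) =
      (2 ^ k * (-1) ^ k *
        (∏ m ∈ Finset.range k,
          (2 * ((3 * (k + 1) + u : ℕ) : ℚ) - 1 - 2 * ((k + 1 + 1 + m : ℕ) : ℚ))) *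
        (∏ m ∈ Finset.range k, ((m : ℚ) + 1)) *
        (∏ m ∈ Finset.range k, (((k + u : ℕ) : ℚ) - m))) /
      ((∏ m ∈ Finset.range k, ((k : ℚ) + 1 + m)) * (∏ m ∈ Finset.range k, ((k : ℚ) - m)) *
        (∏ m ∈ Finset.range k, (((3 * k + 2 + 2 * u : ℕ) : ℚ) - m))) := by
    have hc2 : (2 : ℚ) ^ k = ∏ m ∈ Finset.range k, (2 : ℚ) := by
      rw [Finset.prod_const, Finset.card_range]
    have hc1 : (-1 : ℚ) ^ k = ∏ m ∈ Finset.range k, (-1 : ℚ) := by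
      rw [Finset.prod_const, Finset.card_range]
    rw [hc2, hc1, ← Finset.prod_mul_distrib, ← Finset.prod_mul_distrib, ← Finset.prod_mul_distrib,
      ← Finset.prod_mul_distrib, ← Finset.prod_mul_distrib, ← Finset.prod_mul_distrib,
      ← Finset.prod_div_distrib]
    refine Finset.prod_congr rfl (fun m _ => ?_)
    congr 1
    · push_cast
      ring
    · push_cast
      ring
  rw [hf, hA, hB, hC, hD, hE]
  have hP : (∏ m ∈ Finset.range k, (2 * (m : ℚ) + 1)) ≠ 0 :=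
    Finset.prod_ne_zero_iff.mpr (fun m _ => by positivity)
  have hCh : ((Nat.choose (3 * k + 2 + 2 * u) k : ℕ) : ℚ) ≠ 0 :=
    Nat.cast_ne_zero.mpr (Nat.choose_pos (by omega)).ne'
  field_simp

private theorem SDb_odd (z : ℤ) (h : z % 2 = 1) : padicNorm 2 (z : ℚ) = 1 := by
  refine (padicNorm.int_eq_one_iff z).mpr (fun h2 => ?_)
  have : ((2 : ℕ) : ℤ) = 2 := rfl
  rw [this] at h2
  omega

private theorem SDb_prod {ι : Type} (s : Finset ι) (f : ι → ℤ) (h : ∀ i ∈ s, f i % 2 = 1) :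
    padicNorm 2 (∏ i ∈ s, (f i : ℚ)) = 1 := by
  classical
  induction s using Finset.induction_on with
  | empty => simp
  | insert a s ha ih =>
    rw [Finset.prod_insert ha, padicNorm.mul, SDb_odd _ (h a (Finset.mem_insert_self a s)),
      ih (fun i hi => h i (Finset.mem_insert_of_mem hi)), one_mul]

private theorem SDb_kap_ne {w n : ℕ} (hn : 3 * n ≤ w) (h1 : 1 ≤ n) : kap w n ≠ 0 := by
  intro h
  have hk := kap_closed hn h1
  rw [h, zero_mul, zero_mul] at hk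
  have h2 : (∏ j ∈ Finset.Ioo n (2 * n), (2 * (w : ℚ) - 1 - 2 * j)) ≠ 0 := by
    refine Finset.prod_ne_zero_iff.mpr (fun j hj => ?_)
    rw [Finset.mem_Ioo] at hj
    have h3 : (2 * (w : ℚ) - 1 - 2 * j) = ((2 * (w : ℤ) - 1 - 2 * j : ℤ) : ℚ) := by push_cast; ring
    rw [h3, Int.cast_ne_zero]
    omega
  have h3 : (Nat.choose (w - 2 * n - 1) (n - 1) : ℚ) ≠ 0 :=
    Nat.cast_ne_zero.mpr (Nat.choose_pos (by omega)).ne'
  have h4 : ((-1 : ℚ)) ^ (n - 1) ≠ 0 := pow_ne_zero _ (by norm_num)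
  exact (mul_ne_zero (mul_ne_zero h4 h2) h3) hk.symm

theorem del_ne {w n : ℕ} (hn : 3 * n ≤ w) (h1 : 1 ≤ n) : del w n ≠ 0 := by
  have h2 := SDb_kap_ne hn h1
  have h3 : (2 * (w : ℚ) - 1 - 2 * n) ≠ 0 := by
    have : (2 * (w : ℚ) - 1 - 2 * n) = ((2 * (w : ℤ) - 1 - 2 * n : ℤ) : ℚ) := by push_cast; ring
    rw [this, Int.cast_ne_zero]
    omega
  have h4 : (2 * (n : ℚ) - 1) ≠ 0 := by
    have : (2 * (n : ℚ) - 1) = ((2 * (n : ℤ) - 1 : ℤ) : ℚ) := by push_cast; ring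
    rw [this, Int.cast_ne_zero]
    omega
  rw [del]
  exact div_ne_zero (mul_ne_zero (neg_ne_zero.mpr h3) h2) h4

theorem del_norm {w n : ℕ} (hn : 3 * n ≤ w) (h1 : 1 ≤ n) :
    padicNorm 2 (1 / del w n) ≤ 2 ^ (Nat.log 2 w) := by
  have hk := congrArg (padicNorm 2) (kap_closed hn h1)
  rw [padicNorm.mul, padicNorm.mul, padicNorm.mul, padicNorm.mul] at hk
  have q1 : padicNorm 2 (∏ m ∈ Finset.range (n - 1), (2 * (m : ℚ) + 1)) = 1 := by
    refine (congrArg (padicNorm 2) (Finset.prod_congr rfl (fun m _ => ?_))).trans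
      (SDb_prod (Finset.range (n - 1)) (fun m : ℕ => 2 * (m : ℤ) + 1) (fun m _ => by omega))
    push_cast
    ring
  have q2 : padicNorm 2 (∏ j ∈ Finset.Ioo n (2 * n), (2 * (w : ℚ) - 1 - 2 * j)) = 1 := by
    refine (congrArg (padicNorm 2) (Finset.prod_congr rfl (fun m _ => ?_))).trans
      (SDb_prod (Finset.Ioo n (2 * n)) (fun m : ℕ => 2 * (w : ℤ) - 1 - 2 * m)
        (fun m _ => by omega))
    push_cast
    ring
  have q3 : padicNorm 2 ((-1 : ℚ) ^ (n - 1)) = 1 := by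
    have h := SDb_odd ((-1 : ℤ) ^ (n - 1)) (by
      rcases neg_one_pow_eq_or ℤ (n - 1) with h | h <;> rw [h] <;> norm_num)
    push_cast at h
    exact h
  rw [q1, q2, q3, mul_one, one_mul, one_mul] at hk
  have q4 : padicNorm 2 (2 * (n : ℚ) - 1) = 1 := by
    have h := SDb_odd (2 * (n : ℤ) - 1) (by omega)
    push_cast at h
    exact h
  have q5 : padicNorm 2 (2 * (w : ℚ) - 1 - 2 * n) = 1 := by
    have h := SDb_odd (2 * (w : ℤ) - 1 - 2 * n) (by omega)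
    push_cast at h
    exact h
  have e : padicNorm 2 (1 / del w n) = (padicNorm 2 (kap w n))⁻¹ := by
    rw [del, padicNorm.div, padicNorm.div, padicNorm.mul, padicNorm.neg, q4, q5, padicNorm.one]
    simp
  rw [e]
  have hkn : padicNorm 2 (kap w n) ≠ 0 := by
    intro h
    exact SDb_kap_ne hn h1 (padicNorm.zero_of_padicNorm_eq_zero h)
  have hk0 : 0 < padicNorm 2 (kap w n) := lt_of_le_of_ne (padicNorm.nonneg _) (Ne.symm hkn)
  have hc1 : padicNorm 2 ((Nat.choose (2 * w - 3 * n - 1) (n - 1) : ℕ) : ℚ) ≤ 1 := by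
    have := padicNorm.of_int (p := 2) ((Nat.choose (2 * w - 3 * n - 1) (n - 1) : ℕ) : ℤ)
    rwa [Int.cast_natCast] at this
  have hc2 : ((2 : ℚ) ^ (Nat.log 2 w))⁻¹ ≤
      padicNorm 2 ((Nat.choose (w - 2 * n - 1) (n - 1) : ℕ) : ℚ) := by
    have hne : Nat.choose (w - 2 * n - 1) (n - 1) ≠ 0 := (Nat.choose_pos (by omega)).ne'
    have hv := Nat.factorization_choose_le_log (p := 2) (n := w - 2 * n - 1) (k := n - 1)
    have hl : Nat.log 2 (w - 2 * n - 1) ≤ Nat.log 2 w := Nat.log_mono_right (by omega)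
    rw [padicNorm.eq_zpow_of_nonzero (Nat.cast_ne_zero.mpr hne), padicValRat.of_nat,
      zpow_neg, zpow_natCast]
    have hf : padicValNat 2 (Nat.choose (w - 2 * n - 1) (n - 1)) ≤ Nat.log 2 w := by
      rw [← Nat.factorization_def _ Nat.prime_two]
      exact hv.trans hl
    apply inv_anti₀ (by positivity)
    have : ((2 : ℕ) : ℚ) = 2 := rfl
    rw [this]
    exact pow_le_pow_right₀ (by norm_num) hf
  have hlow : ((2 : ℚ) ^ (Nat.log 2 w))⁻¹ ≤ padicNorm 2 (kap w n) := by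
    calc ((2 : ℚ) ^ (Nat.log 2 w))⁻¹ ≤
        padicNorm 2 ((Nat.choose (w - 2 * n - 1) (n - 1) : ℕ) : ℚ) := hc2
      _ = padicNorm 2 (kap w n) *
          padicNorm 2 ((Nat.choose (2 * w - 3 * n - 1) (n - 1) : ℕ) : ℚ) := hk.symm
      _ ≤ padicNorm 2 (kap w n) * 1 := mul_le_mul_of_nonneg_left hc1 hk0.le
      _ = padicNorm 2 (kap w n) := mul_one _
  calc (padicNorm 2 (kap w n))⁻¹ ≤ (((2 : ℚ) ^ (Nat.log 2 w))⁻¹)⁻¹ :=
        inv_anti₀ (by positivity) hlow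
    _ = 2 ^ (Nat.log 2 w) := inv_inv _

end MT2
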