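import Pool.Agent.Lib_MP_bfd926_sq.SDefs

/-!
# The 2-adic size of the left vectors

For `t < n`, `3 * n ≤ w`, `v = w - 3 * n` (a natural number). The factor `m = n - s` of the product
in `yv` is `-(w - n + s - 1) * (w - 3 * n + s) * (w - n - s) / (2 * s * (w - 2 * n + s) * (2 * n - 1 - 2 * s))`
(as `m ^ 2 - w ^ 2 - 4 * n * (n - w) = (m - w + 2 * n) * (m + w - 2 * n)`,
`m * (m - w) - n * (n - w) = (m - n) * (m + n - w)`), so
`yv w n (n - t) = (-1) ^ t * ∏_{s = 1}^t (…)`. By induction on `t`, `lv_closed`, for `1 ≤ t < n`: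
`lv w n (n - t) * (∏ m ∈ range t, (2 * n - 1 - 2 * m)) * C(w - 2 * n + t, t) =
 (-1) ^ t * (n - 1/2) * (∏ m ∈ range t, (2 * m + 1)) * C(w - n + t, 2 * t) *
   (C(v + t, t) + 2 * C(v + t - 1, t - 1))`.
(Prove first a closed form for `yv w n (n - t)` with falling factorials, then insert it in the
definition of `lv`; the combination `(i - 1/2) * y_i + (i + 1 - w) * y_{i+1}`, `i = n - t`, produces
the factor `w - 3 * n + 3 * t = w - 3 * i`, and
`(v + 3 * t) * C(v + t - 1, t - 1) = t * (C(v + t, t) + 2 * C(v + t - 1, t - 1))`. Checked by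
computer.)
The products are odd integers and `Nat.factorization_choose_le_log` bounds `C(w - 2 * n + t, t)`.
For `t = 0` the quotient is `1`.
-/

namespace MT2

/-- one step of the product -/
private theorem SLb_step {w n u : ℕ} (hu : u + 1 ≤ n) :
    yv w n (n - (u + 1)) =
      (-((((n - (u + 1) : ℕ) : ℚ)) + 1 - w) * ((((n - (u + 1) : ℕ) : ℚ)) ^ 2 - w ^ 2 - 4 * (n * (n - w))) /
        (4 * (((n - (u + 1) : ℕ) : ℚ) * (((n - (u + 1) : ℕ) : ℚ) - w) - n * (n - w)) *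
          (((n - (u + 1) : ℕ) : ℚ) - 1 / 2))) * yv w n (n - u) := by
  unfold yv
  rw [if_pos (Nat.sub_le _ _), if_pos (Nat.sub_le _ _)]
  have h1 : n - (u + 1) < n := by omega
  rw [Finset.prod_eq_prod_Ico_succ_bot h1]
  have h2 : n - (u + 1) + 1 = n - u := by omega
  rw [h2]

private theorem SLb_fac (n v u : ℕ) (hu : u + 1 ≤ n) :
    (-((((n - (u + 1) : ℕ) : ℚ)) + 1 - ((v + 3 * n : ℕ) : ℚ)) *
        ((((n - (u + 1) : ℕ) : ℚ)) ^ 2 - ((v + 3 * n : ℕ) : ℚ) ^ 2 - 4 * (n * (n - ((v + 3 * n : ℕ) : ℚ)))) /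
        (4 * (((n - (u + 1) : ℕ) : ℚ) * (((n - (u + 1) : ℕ) : ℚ) - ((v + 3 * n : ℕ) : ℚ)) -
          n * (n - ((v + 3 * n : ℕ) : ℚ))) *
          (((n - (u + 1) : ℕ) : ℚ) - 1 / 2))) =
      -((v + 2 * n + u : ℚ) * (v + u + 1) * (v + 2 * n - u - 1)) /
        (2 * (u + 1) * (v + n + u + 1) * (2 * n - 3 - 2 * u)) := by
  have hc : ((n - (u + 1) : ℕ) : ℚ) = (n : ℚ) - (u + 1) := by
    rw [Nat.cast_sub hu]; push_cast; ring
  rw [hc]
  push_cast
  have hodd : (2 * (n : ℚ) - 3 - 2 * u) ≠ 0 := by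
    intro h
    have h' : (2 * (n : ℤ) - 3 - 2 * u) = 0 := by exact_mod_cast h
    omega
  have hu1 : ((u : ℚ) + 1) ≠ 0 := by positivity
  have hb : ((v : ℚ) + n + u + 1) ≠ 0 := by positivity
  have e1 : (n : ℚ) - (u + 1) - 1 / 2 = (2 * n - 3 - 2 * u) / 2 := by ring
  have e2 : ((n : ℚ) - (u + 1)) * ((n : ℚ) - (u + 1) - (v + 3 * n)) - n * (n - (v + 3 * n)) =
      (u + 1) * (v + n + u + 1) := by ring
  rw [e1, e2]
  field_simp
  ring

private theorem SLb_odd_ne (n u : ℕ) : (2 * (n : ℚ) - 3 - 2 * u) ≠ 0 := by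
  intro h
  have h' : (2 * (n : ℤ) - 3 - 2 * u) = 0 := by exact_mod_cast h
  omega

private theorem SLb_choose1 (b u : ℕ) :
    (Nat.choose (b + (u + 1)) (u + 1) : ℚ) = ((b : ℚ) + u + 1) * (Nat.choose (b + u) u : ℚ) / (u + 1) := by
  have h := Nat.add_one_mul_choose_eq (b + u) u
  have h' : (((b + u + 1) * Nat.choose (b + u) u : ℕ) : ℚ) =
      ((Nat.choose (b + u + 1) (u + 1) * (u + 1) : ℕ) : ℚ) := by
    exact_mod_cast h
  push_cast at h'
  have hu1 : ((u : ℚ) + 1) ≠ 0 := by positivity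
  rw [eq_div_iff hu1]
  have e : b + (u + 1) = b + u + 1 := by ring
  rw [e, ← h']

private theorem SLb_choose2 (a u : ℕ) (ha : 1 ≤ a) :
    (Nat.choose (a + (u + 1) - 1) (2 * (u + 1)) : ℚ) =
      ((a : ℚ) + u) * ((a : ℚ) - u - 1) * (Nat.choose (a + u - 1) (2 * u) : ℚ) /
        ((2 * u + 2) * (2 * u + 1)) := by
  obtain ⟨a', rfl⟩ : ∃ a', a = a' + 1 := ⟨a - 1, by omega⟩
  have e1 : a' + 1 + (u + 1) - 1 = a' + u + 1 := by omega
  have e2 : a' + 1 + u - 1 = a' + u := by omega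
  have e3 : 2 * (u + 1) = 2 * u + 1 + 1 := by ring
  rw [e1, e2, e3]
  have h1 := Nat.add_one_mul_choose_eq (a' + u) (2 * u + 1)
  have h1' : (((a' + u + 1) * Nat.choose (a' + u) (2 * u + 1) : ℕ) : ℚ) =
      ((Nat.choose (a' + u + 1) (2 * u + 1 + 1) * (2 * u + 1 + 1) : ℕ) : ℚ) := by
    exact_mod_cast h1
  push_cast at h1'
  have h2 := Nat.choose_succ_right_eq (a' + u) (2 * u)
  have h2' : (Nat.choose (a' + u) (2 * u + 1) : ℚ) * (2 * u + 1) =
      (Nat.choose (a' + u) (2 * u) : ℚ) * ((a' : ℚ) - u) := by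
    rcases Nat.lt_or_ge (a' + u) (2 * u) with h | h
    · rw [Nat.choose_eq_zero_of_lt h, Nat.choose_eq_zero_of_lt (by omega)]
      simp
    · have h3 : (((a' + u - 2 * u : ℕ)) : ℚ) = (a' : ℚ) - u := by
        rw [Nat.cast_sub h]; push_cast; ring
      rw [← h3]
      exact_mod_cast h2
  have hp1 : (2 * (u : ℚ) + 1) ≠ 0 := by positivity
  have hp2 : (2 * (u : ℚ) + 2) ≠ 0 := by positivity
  rw [eq_div_iff (mul_ne_zero hp2 hp1)]
  push_cast
  have h4 : (Nat.choose (a' + u + 1) (2 * u + 1 + 1) : ℚ) * (2 * u + 2) =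
      ((a' : ℚ) + u + 1) * (Nat.choose (a' + u) (2 * u + 1) : ℚ) := by
    rw [h1']; ring
  calc (Nat.choose (a' + u + 1) (2 * u + 1 + 1) : ℚ) * ((2 * u + 2) * (2 * u + 1))
      = ((Nat.choose (a' + u + 1) (2 * u + 1 + 1) : ℚ) * (2 * u + 2)) * (2 * u + 1) := by ring
    _ = ((a' : ℚ) + u + 1) * ((Nat.choose (a' + u) (2 * u + 1) : ℚ) * (2 * u + 1)) := by rw [h4]; ring
    _ = _ := by rw [h2']; ring

private theorem SLb_choose3 (a u : ℕ) (ha : 1 ≤ a) :
    (Nat.choose (a + (u + 1)) (2 * (u + 1)) : ℚ) =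
      ((a : ℚ) + u) * ((a : ℚ) + u + 1) * (Nat.choose (a + u - 1) (2 * u) : ℚ) /
        ((2 * u + 2) * (2 * u + 1)) := by
  obtain ⟨a', rfl⟩ : ∃ a', a = a' + 1 := ⟨a - 1, by omega⟩
  have e1 : a' + 1 + (u + 1) = (a' + u + 1) + 1 := by omega
  have e2 : a' + 1 + u - 1 = a' + u := by omega
  have e3 : 2 * (u + 1) = 2 * u + 1 + 1 := by ring
  rw [e1, e2, e3]
  have h1 := Nat.add_one_mul_choose_eq (a' + u + 1) (2 * u + 1)
  have h1' : (((a' + u + 1 + 1) * Nat.choose (a' + u + 1) (2 * u + 1) : ℕ) : ℚ) =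
      ((Nat.choose (a' + u + 1 + 1) (2 * u + 1 + 1) * (2 * u + 1 + 1) : ℕ) : ℚ) := by
    exact_mod_cast h1
  have h2 := Nat.add_one_mul_choose_eq (a' + u) (2 * u)
  have h2' : (((a' + u + 1) * Nat.choose (a' + u) (2 * u) : ℕ) : ℚ) =
      ((Nat.choose (a' + u + 1) (2 * u + 1) * (2 * u + 1) : ℕ) : ℚ) := by
    exact_mod_cast h2
  push_cast at h1' h2'
  have hp1 : (2 * (u : ℚ) + 1) ≠ 0 := by positivity
  have hp2 : (2 * (u : ℚ) + 2) ≠ 0 := by positivity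
  rw [eq_div_iff (mul_ne_zero hp2 hp1)]
  push_cast
  calc (Nat.choose (a' + u + 1 + 1) (2 * u + 1 + 1) : ℚ) * ((2 * u + 2) * (2 * u + 1))
      = ((Nat.choose (a' + u + 1 + 1) (2 * u + 1 + 1) : ℚ) * (2 * u + 1 + 1)) * (2 * u + 1) := by ring
    _ = ((a' : ℚ) + u + 1 + 1) * ((Nat.choose (a' + u + 1) (2 * u + 1) : ℚ) * (2 * u + 1)) := by
        rw [← h1']; ring
    _ = _ := by rw [← h2']; ring

private theorem SLb_yv (n v : ℕ) (hn : 1 ≤ n) : ∀ t : ℕ, t ≤ n →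
    yv (v + 3 * n) n (n - t) * (Nat.choose (v + n + t) t : ℚ) *
        (∏ m ∈ Finset.range t, (2 * (n : ℚ) - 3 - 2 * m)) =
      (-1) ^ t * (∏ m ∈ Finset.range t, (2 * (m : ℚ) + 1)) *
        (Nat.choose (v + 2 * n + t - 1) (2 * t) : ℚ) * (Nat.choose (v + t) t : ℚ) := by
  intro t
  induction t with
  | zero =>
    intro _
    simp [yv]
  | succ u ih =>
    intro hu
    have IH := ih (by omega)
    rw [SLb_step hu, SLb_fac n v u hu]
    rw [Finset.prod_range_succ, Finset.prod_range_succ, SLb_choose1 (v + n) u, SLb_choose1 v u,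
      SLb_choose2 (v + 2 * n) u (by omega)]
    have hodd := SLb_odd_ne n u
    have hu1 : ((u : ℚ) + 1) ≠ 0 := by positivity
    have hb : ((v : ℚ) + n + u + 1) ≠ 0 := by positivity
    have hp1 : (2 * (u : ℚ) + 1) ≠ 0 := by positivity
    push_cast
    set Y := yv (v + 3 * n) n (n - u) with hY
    set cb := (Nat.choose (v + n + u) u : ℚ) with hcb
    set P := ∏ m ∈ Finset.range u, (2 * (n : ℚ) - 3 - 2 * m) with hP
    set D := ∏ m ∈ Finset.range u, (2 * (m : ℚ) + 1) with hD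
    set ca := (Nat.choose (v + 2 * n + u - 1) (2 * u) : ℚ) with hca
    set cv := (Nat.choose (v + u) u : ℚ) with hcv
    have key : -((v + 2 * n + u : ℚ) * (v + u + 1) * (v + 2 * n - u - 1)) /
        (2 * (u + 1) * (v + n + u + 1) * (2 * n - 3 - 2 * u)) * Y *
        (((v : ℚ) + n + u + 1) * cb / (u + 1)) * (P * (2 * n - 3 - 2 * u)) =
        (-((v + 2 * n + u : ℚ) * (v + u + 1) * (v + 2 * n - u - 1)) / (2 * (u + 1) ^ 2)) * (Y * cb * P) := by
      field_simp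
    rw [key, IH, pow_succ]
    have h22 : (2 * (u : ℚ) + 2) = 2 * (u + 1) := by ring
    rw [h22]
    field_simp
    ring

private theorem SLb_key {q A B C E U : ℚ} (Y P cb z : ℚ) (hq : q ≠ 0) (hE : E ≠ 0) (hU : U ≠ 0) :
    (q / 2 * (-(A * B * C) / (2 * U * E * q) * Y) + -A * Y) * (P * z) * (E * cb / U) =
      (-z * A * (B * C + 4 * U * E) / (4 * U ^ 2)) * (Y * cb * P) := by
  field_simp
  ring

theorem lv_closed {w n t : ℕ} (hn : 3 * n ≤ w) (h1 : 1 ≤ t) (ht : t < n) :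
    lv w n (n - t) * (∏ m ∈ Finset.range t, (2 * (n : ℚ) - 1 - 2 * m)) *
        (Nat.choose (w - 2 * n + t) t : ℚ) =
      (-1) ^ t * ((n : ℚ) - 1 / 2) * (∏ m ∈ Finset.range t, (2 * (m : ℚ) + 1)) *
        (Nat.choose (w - n + t) (2 * t) : ℚ) *
        ((Nat.choose (w - 3 * n + t) t : ℚ) + 2 * (Nat.choose (w - 3 * n + t - 1) (t - 1) : ℚ)) := by
  obtain ⟨v, rfl⟩ : ∃ v, w = v + 3 * n := ⟨w - 3 * n, by omega⟩
  obtain ⟨u, rfl⟩ : ∃ u, t = u + 1 := ⟨t - 1, by omega⟩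
  have e1 : v + 3 * n - 2 * n = v + n := by omega
  have e2 : v + 3 * n - n = v + 2 * n := by omega
  have e3 : v + 3 * n - 3 * n = v := by omega
  have e4 : v + (u + 1) - 1 = v + u := by omega
  have e5 : u + 1 - 1 = u := by omega
  have e6 : n - (u + 1) + 1 = n - u := by omega
  rw [e1, e2, e3, e4, e5]
  unfold lv
  rw [e6, SLb_step (w := v + 3 * n) (by omega : u + 1 ≤ n), SLb_fac n v u (by omega)]
  have hc : ((n - (u + 1) : ℕ) : ℚ) = (n : ℚ) - (u + 1) := by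
    rw [Nat.cast_sub (by omega)]; push_cast; ring
  have IH := SLb_yv n v (by omega) u (by omega)
  rw [hc, Finset.prod_range_succ', Finset.prod_range_succ, SLb_choose1 (v + n) u, SLb_choose1 v u,
    SLb_choose3 (v + 2 * n) u (by omega)]
  have eP : ∏ k ∈ Finset.range u, (2 * (n : ℚ) - 1 - 2 * ((k + 1 : ℕ) : ℚ)) =
      ∏ m ∈ Finset.range u, (2 * (n : ℚ) - 3 - 2 * m) := by
    refine Finset.prod_congr rfl fun k _ => ?_
    push_cast; ring
  rw [eP]
  have hodd := SLb_odd_ne n u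
  have hu1 : ((u : ℚ) + 1) ≠ 0 := by positivity
  have hb : ((v : ℚ) + n + u + 1) ≠ 0 := by positivity
  have hp1 : (2 * (u : ℚ) + 1) ≠ 0 := by positivity
  push_cast
  set Y := yv (v + 3 * n) n (n - u) with hY
  set cb := (Nat.choose (v + n + u) u : ℚ) with hcb
  set P := ∏ m ∈ Finset.range u, (2 * (n : ℚ) - 3 - 2 * m) with hP
  set D := ∏ m ∈ Finset.range u, (2 * (m : ℚ) + 1) with hD
  set ca := (Nat.choose (v + 2 * n + u - 1) (2 * u) : ℚ) with hca
  set cv := (Nat.choose (v + u) u : ℚ) with hcv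
  have g1 : ((n : ℚ) - (u + 1) - 1 / 2) = (2 * n - 3 - 2 * u) / 2 := by ring
  have g2 : ((n : ℚ) - (u + 1) + 1 - (v + 3 * n)) = -(v + 2 * n + u) := by ring
  have g3 : (2 * (n : ℚ) - 1 - 2 * 0) = 2 * n - 1 := by ring
  rw [g1, g2, g3, SLb_key (hq := hodd) (hE := hb) (hU := hu1), IH, pow_succ]
  have h22 : (2 * (u : ℚ) + 2) = 2 * (u + 1) := by ring
  rw [h22]
  field_simp
  ring

private theorem SLb_norm_choose (N k : ℕ) (hk : k ≤ N) :
    (2 : ℚ) ^ (-(Nat.log 2 N : ℤ)) ≤ padicNorm 2 (Nat.choose N k : ℚ) := by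
  have h0 : (Nat.choose N k : ℚ) ≠ 0 := by
    exact_mod_cast (Nat.choose_pos hk).ne'
  rw [padicNorm.eq_zpow_of_nonzero h0]
  have h1 : padicValRat 2 (Nat.choose N k : ℚ) = ((Nat.choose N k).factorization 2 : ℤ) := by
    rw [padicValRat.of_nat, Nat.factorization_def _ Nat.prime_two]
  rw [h1]
  have h2 := Nat.factorization_choose_le_log (p := 2) (n := N) (k := k)
  push_cast
  refine zpow_le_zpow_right₀ (by norm_num) ?_
  have : ((Nat.choose N k).factorization 2 : ℤ) ≤ (Nat.log 2 N : ℤ) := by exact_mod_cast h2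
  linarith

private theorem SLb_norm_odd (z : ℤ) (hz : z % 2 = 1) : padicNorm 2 (z : ℚ) = 1 := by
  have : ¬ ((2 : ℕ) : ℤ) ∣ z := by
    intro h
    have : (2 : ℤ) ∣ z := by exact_mod_cast h
    omega
  exact padicNorm.int_eq_one_iff z |>.2 this

theorem lv_norm {w n i : ℕ} (hn : 3 * n ≤ w) (h1 : 1 ≤ n) (hi : 1 ≤ i) :
    padicNorm 2 (lv w n i / lv w n n) ≤ 2 ^ (Nat.log 2 w) := by
  have hpow : (1 : ℚ) ≤ 2 ^ (Nat.log 2 w) := one_le_pow₀ (by norm_num)
  have hlvn : lv w n n = (n : ℚ) - 1 / 2 := by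
    unfold lv yv
    simp
  have hhalf : ((n : ℚ) - 1 / 2) ≠ 0 := by
    have : (1 : ℚ) ≤ n := by exact_mod_cast h1
    intro h; linarith
  rcases Nat.lt_trichotomy i n with h | h | h
  · obtain ⟨t, ht, rfl⟩ : ∃ t, 1 ≤ t ∧ i = n - t := ⟨n - i, by omega, by omega⟩
    have htn : t < n := by omega
    have hcl := lv_closed hn ht htn
    rw [hlvn]
    -- the odd products
    obtain ⟨O, hO, hOodd⟩ : ∃ O : ℤ, (O : ℚ) = ∏ m ∈ Finset.range t, (2 * (n : ℚ) - 1 - 2 * m) ∧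
        O % 2 = 1 := by
      refine ⟨∏ m ∈ Finset.range t, (2 * (n : ℤ) - 1 - 2 * m), by push_cast; rfl, ?_⟩
      refine Finset.prod_induction (fun m : ℕ => (2 * (n : ℤ) - 1 - 2 * m)) (fun z : ℤ => z % 2 = 1)
        (fun a b ha hb => by rw [Int.mul_emod, ha, hb]; rfl) (by norm_num) (fun m _ => by omega)
    have hcN : t ≤ w - 2 * n + t := by omega
    set B : ℚ := (Nat.choose (w - 2 * n + t) t : ℚ) with hB
    have hB0 : B ≠ 0 := by
      rw [hB]; exact_mod_cast (Nat.choose_pos hcN).ne'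
    have hO0 : (O : ℚ) ≠ 0 := by
      intro h0
      have : O = 0 := by exact_mod_cast h0
      omega
    obtain ⟨Z, hZ⟩ : ∃ Z : ℤ, (Z : ℚ) = (-1) ^ t * (∏ m ∈ Finset.range t, (2 * (m : ℚ) + 1)) *
        (Nat.choose (w - n + t) (2 * t) : ℚ) *
        ((Nat.choose (w - 3 * n + t) t : ℚ) + 2 * (Nat.choose (w - 3 * n + t - 1) (t - 1) : ℚ)) :=
      ⟨(-1) ^ t * (∏ m ∈ Finset.range t, (2 * (m : ℤ) + 1)) *
        (Nat.choose (w - n + t) (2 * t) : ℤ) *
        ((Nat.choose (w - 3 * n + t) t : ℤ) + 2 * (Nat.choose (w - 3 * n + t - 1) (t - 1) : ℤ)), by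
          push_cast; rfl⟩
    have hquot : lv w n (n - t) / ((n : ℚ) - 1 / 2) = (Z : ℚ) / (O * B) := by
      rw [div_eq_div_iff hhalf (mul_ne_zero hO0 hB0), hZ, hO, ← mul_assoc, hcl]
      ring
    rw [hquot, padicNorm.div, padicNorm.mul, SLb_norm_odd O hOodd, one_mul]
    have hlow := SLb_norm_choose (w - 2 * n + t) t hcN
    rw [← hB] at hlow
    have hZ1 : padicNorm 2 (Z : ℚ) ≤ 1 := padicNorm.of_int Z
    have hBpos : 0 < padicNorm 2 B := lt_of_le_of_ne (padicNorm.nonneg _) (by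
      intro h0
      exact hB0 ((padicNorm.zero_of_padicNorm_eq_zero h0.symm)))
    rw [div_le_iff₀ hBpos]
    have hlog : Nat.log 2 (w - 2 * n + t) ≤ Nat.log 2 w := Nat.log_mono_right (by omega)
    have h3 : (2 : ℚ) ^ (-(Nat.log 2 w : ℤ)) ≤ padicNorm 2 B := by
      refine le_trans (zpow_le_zpow_right₀ (by norm_num) ?_) hlow
      have : (Nat.log 2 (w - 2 * n + t) : ℤ) ≤ (Nat.log 2 w : ℤ) := by exact_mod_cast hlog
      linarith
    calc padicNorm 2 (Z : ℚ) ≤ 1 := hZ1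
      _ = 2 ^ (Nat.log 2 w) * (2 : ℚ) ^ (-(Nat.log 2 w : ℤ)) := by
          rw [zpow_neg, zpow_natCast, mul_inv_cancel₀ (by positivity)]
      _ ≤ _ := mul_le_mul_of_nonneg_left h3 (by positivity)
  · subst h
    rw [hlvn, div_self hhalf]
    simpa using hpow
  · have : lv w n i = 0 := by
      unfold lv yv
      rw [if_neg (by omega), if_neg (by omega)]
      ring
    rw [this, zero_div]
    simp

end MT2
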