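import Pool.Agent.Lib_MP_bfd926_sq.SDefs

/-!
# The 2-adic size of the right null vectors

For `t < n` (`t ≤ n - 1`), `3 * n ≤ w`, by induction on `t` (split off the factor `m = n - t - 1`
of the product, whose value is, with `s = t + 1`, `m = n - s`,
`m * (2 * n - 1 - m) * (2 * w - 2 * n - 1 - m) / (4 * (n - m) * (w - 1/2 - m) * (w - n - m))`,
as `(m + 1) ^ 2 - 2 * w * (m + 1) - 4 * n * (n - w) = (2 * n - 1 - m) * (2 * w - 2 * n - 1 - m)`
and `n * (n - w) - m * (m - w) = -(n - m) * (w - n - m)`):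
`xv w n (n - t) * (∏ m ∈ range t, (2 * w - 2 * n + 1 + 2 * m)) * C(w - 2 * n + t, t) =
 (∏ m ∈ range t, (2 * m + 1)) * C(n + t - 1, 2 * t) * C(2 * w - 3 * n + t - 1, t)`
(the binomial coefficients are natural numbers; `2 * n ≤ w`, `3 * n ≤ 2 * w`).
The two products are odd integers, and `Nat.factorization_choose_le_log` gives
`padicNorm 2 (C(w - 2 * n + t, t)) ≥ 2 ^ (-log 2 (w - 2 * n + t))`, `w - 2 * n + t ≤ w`.
-/

namespace MT2

private theorem SXb_step {w n t : ℕ} (hn : 3 * n ≤ w) (ht : t + 1 < n) :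
    xv w n (n - (t + 1)) * (2 * (2 * (w : ℚ) - 2 * n + 1 + 2 * t) * (t + 1) * (w - 2 * n + t + 1)) =
      ((n : ℚ) - t - 1) * (n + t) * (2 * w - 3 * n + t) * xv w n (n - t) := by
  have hq : (3 : ℚ) * n ≤ w := by exact_mod_cast hn
  have htq : (t : ℚ) + 1 < n := by exact_mod_cast ht
  have ht0 : (0 : ℚ) ≤ t := Nat.cast_nonneg t
  unfold xv
  rw [if_pos (by omega), if_pos (by omega), Finset.prod_eq_prod_Ico_succ_bot (by omega),
    show n - (t + 1) + 1 = n - t by omega]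
  have hc : ((n - (t + 1) : ℕ) : ℚ) = (n : ℚ) - t - 1 := by
    rw [Nat.cast_sub (by omega)]
    push_cast
    ring
  rw [hc]
  have e1 : (2 * (2 * (w : ℚ) - 1 - 2 * ((n : ℚ) - t - 1)) *
      ((n : ℚ) * (n - w) - ((n : ℚ) - t - 1) * (((n : ℚ) - t - 1) - w))) =
      -(2 * (2 * (w : ℚ) - 2 * n + 1 + 2 * t) * (t + 1) * (w - 2 * n + t + 1)) := by ring
  have e2 : (-((n : ℚ) - t - 1) * ((((n : ℚ) - t - 1) + 1) ^ 2 - 2 * w * (((n : ℚ) - t - 1) + 1) -
      4 * (n * (n - w)))) = -(((n : ℚ) - t - 1) * (n + t) * (2 * w - 3 * n + t)) := by ring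
  rw [e1, e2, neg_div_neg_eq]
  have h1 : (2 * (w : ℚ) - 2 * n + 1 + 2 * t) ≠ 0 := by
    have : (0 : ℚ) < 2 * (w : ℚ) - 2 * n + 1 + 2 * t := by linarith
    exact this.ne'
  have h2 : ((t : ℚ) + 1) ≠ 0 := by positivity
  have h3 : ((w : ℚ) - 2 * n + t + 1) ≠ 0 := by
    have : (0 : ℚ) < (w : ℚ) - 2 * n + t + 1 := by linarith
    exact this.ne'
  have hD : 2 * (2 * (w : ℚ) - 2 * n + 1 + 2 * t) * (t + 1) * (w - 2 * n + t + 1) ≠ 0 :=
    mul_ne_zero (mul_ne_zero (mul_ne_zero two_ne_zero h1) h2) h3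
  rw [mul_right_comm, div_mul_cancel₀ _ hD]

theorem xv_closed {w n t : ℕ} (hn : 3 * n ≤ w) (ht : t < n) :
    xv w n (n - t) * (∏ m ∈ Finset.range t, (2 * (w : ℚ) - 2 * n + 1 + 2 * m)) *
        (Nat.choose (w - 2 * n + t) t : ℚ) =
      (∏ m ∈ Finset.range t, (2 * (m : ℚ) + 1)) * (Nat.choose (n + t - 1) (2 * t) : ℚ) *
        (Nat.choose (2 * w - 3 * n + t - 1) t : ℚ) := by
  induction t with
  | zero =>
    unfold xv
    simp
  | succ t ih =>
    have ih := ih (by omega)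
    have hs := SXb_step hn ht
    have hq : (3 : ℚ) * n ≤ w := by exact_mod_cast hn
    have htq : (t : ℚ) + 1 < n := by exact_mod_cast ht
    have ht0 : (0 : ℚ) ≤ t := Nat.cast_nonneg t
    -- the binomial coefficients
    have a1 : (Nat.choose (w - 2 * n + (t + 1)) (t + 1) : ℚ) * (t + 1) =
        ((w : ℚ) - 2 * n + t + 1) * (Nat.choose (w - 2 * n + t) t : ℚ) := by
      have h := Nat.add_one_mul_choose_eq (w - 2 * n + t) t
      have h' : (((w - 2 * n + t + 1) * Nat.choose (w - 2 * n + t) t : ℕ) : ℚ) =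
        ((Nat.choose (w - 2 * n + t + 1) (t + 1) * (t + 1) : ℕ) : ℚ) := by rw [h]
      push_cast [Nat.cast_sub (show 2 * n ≤ w by omega)] at h'
      rw [show w - 2 * n + (t + 1) = w - 2 * n + t + 1 by omega]
      linarith
    have a2 : (Nat.choose (2 * w - 3 * n + (t + 1) - 1) (t + 1) : ℚ) * (t + 1) =
        (2 * (w : ℚ) - 3 * n + t) * (Nat.choose (2 * w - 3 * n + t - 1) t : ℚ) := by
      have h := Nat.add_one_mul_choose_eq (2 * w - 3 * n + t - 1) t
      have e : 2 * w - 3 * n + t - 1 + 1 = 2 * w - 3 * n + t := by omega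
      rw [e] at h
      have h' : (((2 * w - 3 * n + t) * Nat.choose (2 * w - 3 * n + t - 1) t : ℕ) : ℚ) =
        ((Nat.choose (2 * w - 3 * n + t) (t + 1) * (t + 1) : ℕ) : ℚ) := by rw [h]
      push_cast [Nat.cast_sub (show 3 * n ≤ 2 * w by omega)] at h'
      rw [show 2 * w - 3 * n + (t + 1) - 1 = 2 * w - 3 * n + t by omega]
      linarith
    have a3 : (Nat.choose (n + (t + 1) - 1) (2 * (t + 1)) : ℚ) * (2 * (t + 1)) * (2 * t + 1) =
        ((n : ℚ) + t) * (n - t - 1) * (Nat.choose (n + t - 1) (2 * t) : ℚ) := by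
      have h := Nat.add_one_mul_choose_eq (n + t - 1) (2 * t + 1)
      have e : n + t - 1 + 1 = n + t := by omega
      rw [e] at h
      have h2 := Nat.choose_succ_right_eq (n + t - 1) (2 * t)
      have e2 : n + t - 1 - 2 * t = n - (t + 1) := by omega
      rw [e2] at h2
      have h' : (((n + t) * Nat.choose (n + t - 1) (2 * t + 1) : ℕ) : ℚ) =
        ((Nat.choose (n + t) (2 * t + 1 + 1) * (2 * t + 1 + 1) : ℕ) : ℚ) := by rw [h]
      have h2' : ((Nat.choose (n + t - 1) (2 * t + 1) * (2 * t + 1) : ℕ) : ℚ) =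
        ((Nat.choose (n + t - 1) (2 * t) * (n - (t + 1)) : ℕ) : ℚ) := by rw [h2]
      push_cast [Nat.cast_sub (show t + 1 ≤ n by omega)] at h' h2'
      rw [show n + (t + 1) - 1 = n + t by omega, show 2 * (t + 1) = 2 * t + 1 + 1 by omega]
      linear_combination (-(2 * (t : ℚ) + 1)) * h' + ((n : ℚ) + t) * h2'
    rw [Finset.prod_range_succ, Finset.prod_range_succ]
    have n1 : (2 * (w : ℚ) - 2 * n + 1 + 2 * t) ≠ 0 := by
      have : (0 : ℚ) < 2 * (w : ℚ) - 2 * n + 1 + 2 * t := by linarith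
      exact this.ne'
    have n2 : ((t : ℚ) + 1) ≠ 0 := by positivity
    have n3 : (2 * (t : ℚ) + 1) ≠ 0 := by positivity
    generalize xv w n (n - (t + 1)) = X' at *
    generalize xv w n (n - t) = X at *
    generalize (Nat.choose (w - 2 * n + (t + 1)) (t + 1) : ℚ) = A' at *
    generalize (Nat.choose (w - 2 * n + t) t : ℚ) = A at *
    generalize (Nat.choose (2 * w - 3 * n + (t + 1) - 1) (t + 1) : ℚ) = B' at *
    generalize (Nat.choose (2 * w - 3 * n + t - 1) t : ℚ) = B at *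
    generalize (Nat.choose (n + (t + 1) - 1) (2 * (t + 1)) : ℚ) = D' at *
    generalize (Nat.choose (n + t - 1) (2 * t) : ℚ) = D at *
    generalize (∏ m ∈ Finset.range t, (2 * (w : ℚ) - 2 * n + 1 + 2 * m)) = P at *
    generalize (∏ m ∈ Finset.range t, (2 * (m : ℚ) + 1)) = Q at *
    have hz : ((t : ℚ) + 1) ^ 2 * 2 ≠ 0 := by positivity
    apply mul_left_cancel₀ hz
    have l1 : ((t : ℚ) + 1) ^ 2 * 2 * (X' * (P * (2 * (w : ℚ) - 2 * n + 1 + 2 * t)) * A') =
        (((n : ℚ) - t - 1) * (n + t) * (2 * w - 3 * n + t)) * (X * P * A) := by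
      linear_combination (P * A) * hs + (2 * (2 * (w : ℚ) - 2 * n + 1 + 2 * t) * (t + 1) * X' * P) * a1
    rw [l1, ih]
    have l2 : ((t : ℚ) + 1) ^ 2 * 2 * (Q * (2 * (t : ℚ) + 1) * D' * B') =
        Q * (D' * (2 * (t + 1)) * (2 * t + 1)) * (B' * (t + 1)) := by ring
    rw [l2, a3, a2]
    ring

private theorem SXb_odd (t : ℕ) (f : ℕ → ℕ) (hf : ∀ m, ¬ 2 ∣ f m) :
    padicNorm 2 (∏ m ∈ Finset.range t, (f m : ℚ)) = 1 := by
  induction t with
  | zero => simp
  | succ t ih =>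
    rw [Finset.prod_range_succ, padicNorm.mul, ih, one_mul]
    exact (padicNorm.nat_eq_one_iff (f t)).2 (hf t)

private theorem SXb_choose {a b w : ℕ} (hab : b ≤ a) (haw : a ≤ w) :
    1 ≤ padicNorm 2 (Nat.choose a b : ℚ) * 2 ^ (Nat.log 2 w) := by
  have h0 : Nat.choose a b ≠ 0 := (Nat.choose_pos hab).ne'
  have h0' : (Nat.choose a b : ℚ) ≠ 0 := by exact_mod_cast h0
  have h1 : (Nat.choose a b).factorization 2 ≤ Nat.log 2 a := Nat.factorization_choose_le_log
  rw [Nat.factorization_def _ Nat.prime_two] at h1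
  have h2 : Nat.log 2 a ≤ Nat.log 2 w := Nat.log_mono_right haw
  rw [padicNorm.eq_zpow_of_nonzero h0', padicValRat.of_nat]
  have h3 : ((2 : ℕ) : ℚ) ^ (-(padicValNat 2 (Nat.choose a b) : ℤ)) * 2 ^ (Nat.log 2 w) =
      (2 : ℚ) ^ ((Nat.log 2 w : ℤ) - (padicValNat 2 (Nat.choose a b) : ℤ)) := by
    rw [← zpow_natCast, Nat.cast_ofNat, ← zpow_add₀ (by norm_num)]
    congr 1
    ring
  rw [h3]
  exact one_le_zpow₀ (by norm_num) (by omega)

theorem xv_norm {w n l : ℕ} (hn : 3 * n ≤ w) (hl : 1 ≤ l) :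
    padicNorm 2 (xv w n l) ≤ 2 ^ (Nat.log 2 w) := by
  rcases Nat.lt_or_ge n l with h | h
  · have : xv w n l = 0 := by
      unfold xv
      rw [if_neg (by omega)]
    rw [this, padicNorm.zero]
    positivity
  · have hc := xv_closed (w := w) (n := n) (t := n - l) hn (by omega)
    rw [show n - (n - l) = l by omega] at hc
    have e1 : (∏ m ∈ Finset.range (n - l), (2 * (w : ℚ) - 2 * n + 1 + 2 * m)) =
        ∏ m ∈ Finset.range (n - l), ((2 * (w - n) + 1 + 2 * m : ℕ) : ℚ) := by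
      refine Finset.prod_congr rfl fun m _ => ?_
      push_cast [Nat.cast_sub (show n ≤ w by omega)]
      ring
    have e2 : (∏ m ∈ Finset.range (n - l), (2 * (m : ℚ) + 1)) =
        ∏ m ∈ Finset.range (n - l), ((2 * m + 1 : ℕ) : ℚ) := by
      refine Finset.prod_congr rfl fun m _ => ?_
      push_cast
      ring
    have p1 := SXb_odd (n - l) (fun m => 2 * (w - n) + 1 + 2 * m) (fun m => by omega)
    have p2 := SXb_odd (n - l) (fun m => 2 * m + 1) (fun m => by omega)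
    have hN := congrArg (padicNorm 2) hc
    rw [padicNorm.mul, padicNorm.mul, padicNorm.mul, padicNorm.mul, e1, e2] at hN
    rw [show (∏ m ∈ Finset.range (n - l), ((2 * (w - n) + 1 + 2 * m : ℕ) : ℚ)) =
        ∏ m ∈ Finset.range (n - l), (((fun m => 2 * (w - n) + 1 + 2 * m) m : ℕ) : ℚ) from rfl, p1,
      show (∏ m ∈ Finset.range (n - l), ((2 * m + 1 : ℕ) : ℚ)) =
        ∏ m ∈ Finset.range (n - l), (((fun m => 2 * m + 1) m : ℕ) : ℚ) from rfl, p2, mul_one, one_mul] at hN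
    have q1 : padicNorm 2 (Nat.choose (n + (n - l) - 1) (2 * (n - l)) : ℚ) ≤ 1 := padicNorm.of_nat _
    have q2 : padicNorm 2 (Nat.choose (2 * w - 3 * n + (n - l) - 1) (n - l) : ℚ) ≤ 1 := padicNorm.of_nat _
    have q3 := SXb_choose (a := w - 2 * n + (n - l)) (b := n - l) (w := w) (by omega) (by omega)
    have r0 := padicNorm.nonneg (p := 2) (xv w n l)
    have r2 := padicNorm.nonneg (p := 2) (Nat.choose (2 * w - 3 * n + (n - l) - 1) (n - l) : ℚ)
    have r1 := padicNorm.nonneg (p := 2) (Nat.choose (n + (n - l) - 1) (2 * (n - l)) : ℚ)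
    have hle : padicNorm 2 (xv w n l) * padicNorm 2 (Nat.choose (w - 2 * n + (n - l)) (n - l) : ℚ) ≤ 1 := by
      rw [hN]
      exact mul_le_one₀ q1 r2 q2
    have hp : (0 : ℚ) < 2 ^ Nat.log 2 w := by positivity
    calc padicNorm 2 (xv w n l) ≤ padicNorm 2 (xv w n l) *
          (padicNorm 2 (Nat.choose (w - 2 * n + (n - l)) (n - l) : ℚ) * 2 ^ (Nat.log 2 w)) :=
          le_mul_of_one_le_right r0 q3
      _ = (padicNorm 2 (xv w n l) * padicNorm 2 (Nat.choose (w - 2 * n + (n - l)) (n - l) : ℚ)) *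
          2 ^ (Nat.log 2 w) := by ring
      _ ≤ 1 * 2 ^ (Nat.log 2 w) := mul_le_mul_of_nonneg_right hle hp.le
      _ = 2 ^ (Nat.log 2 w) := one_mul _

end MT2
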