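import Pool.Agent.Lib_MP_bfd926_sq.SRight
import Pool.Agent.Lib_MP_bfd926_sq.SLeft
import Pool.Agent.Lib_MP_bfd926_sq.SXb
import Pool.Agent.Lib_MP_bfd926_sq.SLb
import Pool.Agent.Lib_MP_bfd926_sq.SDb

/-!
# The inverse of the matrix `N`, with bounded denominators

Indices `i : Fin b` stand for `i + 1`. Let `M` be the matrix of `N`, `Rm j n = xv w (n+1) (j+1)`,
`Lm n i = lv w (n+1) (i+1)`, and `D` the diagonal matrix with the entries
`lv w (n+1) (n+1) * del w (n+1)`.

* `pivot`: `∑_j N w n j * xv w n j = del w n`: multiply by `lv w n n = n - 1/2` and use that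
  `∑_i ∑_j lv_i * N w i j * xv_j` is on the one hand `lv_n * ∑_j N w n j * xv_j` (`xv_null`), on the
  other hand `(∑_i lv_i * N w i n) * xv_n` (`lv_null`, `xv_gt`), with `lv_top`, `xv_self`.
* `Lm * M * Rm = D`: the entry `(m, n)` is zero for `m < n` by `xv_null` (sum over `j` first; the
  row `m` has support `≤ m < n`) and for `m > n` by `lv_null` (sum over `i` first; the column `n`
  has support `≤ n < m`), and for `m = n` it is `lv_n * del` by the same argument.
  (`xv_gt`, `lv_gt` to extend or restrict the sums.)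
* `Lm` is lower triangular with non-zero diagonal (`lv_self`), hence invertible
  (`Matrix.det_of_lowerTriangular`, `Matrix.isUnit_iff_isUnit_det`); from `Lm * (M * Rm * D⁻¹) = 1`
  (`D` is invertible by `del_ne`) it follows that `M * (Rm * D⁻¹ * Lm) = 1`, and so
  `(Rm * D⁻¹ * Lm) * M = 1` (`Matrix.mul_eq_one_comm`).
* Entries of `P = Rm * D⁻¹ * Lm`: `∑_n xv_j * (1 / del) * (lv_i / lv_n)`, norm at most
  `2 ^ (3 * log 2 w)` (`padicNorm.sum_le`, or the ultrametric inequality).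
* `NE`: for `e = 0` use `P`; for `e = 1`, by `N_Nt`, `Nt = 2 * D₁ * N * D₂⁻¹` with
  `D₁ = diag (w - 3 * i)`, `D₂ = diag (2 * w - 3 * j)` (non-zero for `3 * b < w`), so
  `P' = (1/2) * D₂ * P * D₁⁻¹`; `padicNorm 2 (1 / (w - 3 * i)) ≤ 2 ^ log 2 w` as
  `0 < w - 3 * i ≤ w`.
-/

namespace MT2

open Finset Matrix in
private theorem SInv_fin_sum (b : ℕ) (f : ℕ → ℚ) :
    ∑ i : Fin b, f ((i : ℕ) + 1) = ∑ i ∈ Finset.Icc 1 b, f i := by
  rw [Fin.sum_univ_eq_sum_range (fun i => f (i + 1)) b]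
  induction b with
  | zero => simp
  | succ b ih =>
    rw [Finset.sum_range_succ, ih, Finset.sum_Icc_succ_top (by omega)]

private theorem SInv_restrict {b n : ℕ} (h : n ≤ b) (f : ℕ → ℚ) (hf : ∀ i, n < i → f i = 0) :
    ∑ i ∈ Finset.Icc 1 b, f i = ∑ i ∈ Finset.Icc 1 n, f i := by
  symm
  apply Finset.sum_subset
  · exact Finset.Icc_subset_Icc le_rfl h
  · intro i hi hi2
    apply hf
    simp only [Finset.mem_Icc] at hi hi2
    by_contra hc
    exact hi2 ⟨hi.1, not_lt.mp hc⟩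

private theorem SInv_lt {w m n : ℕ} (hn : 3 * n ≤ w) (h : m < n) :
    ∑ i ∈ Finset.Icc 1 m, ∑ j ∈ Finset.Icc 1 n, lv w m i * (N w i j : ℚ) * xv w n j = 0 := by
  apply Finset.sum_eq_zero
  intro i hi
  simp only [Finset.mem_Icc] at hi
  have := xv_null (w := w) (n := n) (i := i) hn hi.1 (by omega)
  calc ∑ j ∈ Finset.Icc 1 n, lv w m i * (N w i j : ℚ) * xv w n j
      = lv w m i * ∑ j ∈ Finset.Icc 1 n, (N w i j : ℚ) * xv w n j := by
        rw [Finset.mul_sum]
        exact Finset.sum_congr rfl (fun j _ => by ring)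
    _ = 0 := by rw [this, mul_zero]

private theorem SInv_gt {w m n : ℕ} (hm : 3 * m ≤ w) (h : n < m) :
    ∑ i ∈ Finset.Icc 1 m, ∑ j ∈ Finset.Icc 1 n, lv w m i * (N w i j : ℚ) * xv w n j = 0 := by
  rw [Finset.sum_comm]
  apply Finset.sum_eq_zero
  intro j hj
  simp only [Finset.mem_Icc] at hj
  have := lv_null (w := w) (n := m) (j := j) hm hj.1 (by omega)
  calc ∑ i ∈ Finset.Icc 1 m, lv w m i * (N w i j : ℚ) * xv w n j
      = (∑ i ∈ Finset.Icc 1 m, lv w m i * (N w i j : ℚ)) * xv w n j := by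
        rw [Finset.sum_mul]
    _ = 0 := by rw [this, zero_mul]

private theorem SInv_eq {w n : ℕ} (hn : 3 * n ≤ w) (h1 : 1 ≤ n) :
    ∑ i ∈ Finset.Icc 1 n, ∑ j ∈ Finset.Icc 1 n, lv w n i * (N w i j : ℚ) * xv w n j =
      lv w n n * ∑ j ∈ Finset.Icc 1 n, (N w n j : ℚ) * xv w n j := by
  rw [Finset.sum_eq_single n]
  · rw [Finset.mul_sum]
    exact Finset.sum_congr rfl (fun j _ => by ring)
  · intro i hi hin
    simp only [Finset.mem_Icc] at hi
    have := xv_null (w := w) (n := n) (i := i) hn hi.1 (by omega)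
    calc ∑ j ∈ Finset.Icc 1 n, lv w n i * (N w i j : ℚ) * xv w n j
        = lv w n i * ∑ j ∈ Finset.Icc 1 n, (N w i j : ℚ) * xv w n j := by
          rw [Finset.mul_sum]
          exact Finset.sum_congr rfl (fun j _ => by ring)
      _ = 0 := by rw [this, mul_zero]
  · intro h
    exact absurd (Finset.mem_Icc.mpr ⟨h1, le_rfl⟩) h

private theorem SInv_eq' {w n : ℕ} (hn : 3 * n ≤ w) (h1 : 1 ≤ n) :
    ∑ i ∈ Finset.Icc 1 n, ∑ j ∈ Finset.Icc 1 n, lv w n i * (N w i j : ℚ) * xv w n j =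
      -(1 / 2) * (2 * w - 1 - 2 * n) * kap w n := by
  rw [Finset.sum_comm, Finset.sum_eq_single n]
  · rw [← Finset.sum_mul, lv_top hn h1, xv_self, mul_one]
  · intro j hj hjn
    simp only [Finset.mem_Icc] at hj
    have := lv_null (w := w) (n := n) (j := j) hn hj.1 (by omega)
    calc ∑ i ∈ Finset.Icc 1 n, lv w n i * (N w i j : ℚ) * xv w n j
        = (∑ i ∈ Finset.Icc 1 n, lv w n i * (N w i j : ℚ)) * xv w n j := by
          rw [Finset.sum_mul]
      _ = 0 := by rw [this, zero_mul]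
  · intro h
    exact absurd (Finset.mem_Icc.mpr ⟨h1, le_rfl⟩) h

private theorem SInv_lv_ne {w n : ℕ} (h1 : 1 ≤ n) : lv w n n ≠ 0 := by
  rw [lv_self]
  have : (1 : ℚ) ≤ n := by exact_mod_cast h1
  intro h
  linarith

theorem pivot {w n : ℕ} (hn : 3 * n ≤ w) (h1 : 1 ≤ n) :
    ∑ j ∈ Finset.Icc 1 n, (N w n j : ℚ) * xv w n j = del w n := by
  have h := (SInv_eq hn h1).symm.trans (SInv_eq' hn h1)
  have hne : (2 * (n : ℚ) - 1) ≠ 0 := by
    have : (1 : ℚ) ≤ n := by exact_mod_cast h1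
    intro h
    linarith
  rw [lv_self] at h
  rw [del, eq_div_iff hne]
  linear_combination 2 * h

/-- The entries of `Lm * M * Rm`. -/
private theorem SInv_entry {w b : ℕ} (hb : 3 * b ≤ w) (m n : Fin b) :
    ∑ i : Fin b, ∑ j : Fin b, lv w ((m : ℕ) + 1) ((i : ℕ) + 1) *
        (N w ((i : ℕ) + 1) ((j : ℕ) + 1) : ℚ) * xv w ((n : ℕ) + 1) ((j : ℕ) + 1) =
      if m = n then lv w ((n : ℕ) + 1) ((n : ℕ) + 1) * del w ((n : ℕ) + 1) else 0 := by
  have hm := m.2
  have hn := n.2
  have e1 : ∀ i : ℕ, ∑ j : Fin b, lv w ((m : ℕ) + 1) i *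
        (N w (i : ℤ) ((j : ℕ) + 1) : ℚ) * xv w ((n : ℕ) + 1) ((j : ℕ) + 1) =
      ∑ j ∈ Finset.Icc 1 ((n : ℕ) + 1), lv w ((m : ℕ) + 1) i * (N w i j : ℚ) *
        xv w ((n : ℕ) + 1) j := by
    intro i
    have h1 := SInv_fin_sum b (fun j => lv w ((m : ℕ) + 1) i * (N w (i : ℤ) (j : ℤ) : ℚ) *
        xv w ((n : ℕ) + 1) j)
    push_cast at h1
    rw [h1]
    apply SInv_restrict (by omega)
    intro j hj
    rw [xv_gt hj, mul_zero]
  have e2 : ∑ i : Fin b, ∑ j : Fin b, lv w ((m : ℕ) + 1) ((i : ℕ) + 1) *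
        (N w ((i : ℕ) + 1) ((j : ℕ) + 1) : ℚ) * xv w ((n : ℕ) + 1) ((j : ℕ) + 1) =
      ∑ i ∈ Finset.Icc 1 ((m : ℕ) + 1), ∑ j ∈ Finset.Icc 1 ((n : ℕ) + 1),
        lv w ((m : ℕ) + 1) i * (N w i j : ℚ) * xv w ((n : ℕ) + 1) j := by
    have h1 := SInv_fin_sum b (fun i => ∑ j : Fin b, lv w ((m : ℕ) + 1) i *
        (N w (i : ℤ) ((j : ℕ) + 1) : ℚ) * xv w ((n : ℕ) + 1) ((j : ℕ) + 1))
    push_cast at h1
    rw [h1]
    rw [SInv_restrict (b := b) (n := (m : ℕ) + 1) (by omega)]
    · exact Finset.sum_congr rfl (fun i _ => e1 i)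
    · intro i hi
      apply Finset.sum_eq_zero
      intro j _
      rw [lv_gt hi, zero_mul, zero_mul]
  rw [e2]
  rcases lt_trichotomy (m : ℕ) (n : ℕ) with h | h | h
  · rw [if_neg (by intro hh; rw [hh] at h; exact lt_irrefl _ h)]
    exact SInv_lt (by omega) (by omega)
  · have hmn : m = n := Fin.ext h
    rw [if_pos hmn, hmn, SInv_eq (by omega) (by omega), pivot (by omega) (by omega)]
  · rw [if_neg (by intro hh; rw [hh] at h; exact lt_irrefl _ h)]
    exact SInv_gt (by omega) (by omega)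

theorem inv_N {w b : ℕ} (hb : 3 * b ≤ w) :
    ∃ P : Matrix (Fin b) (Fin b) ℚ,
      P * (Matrix.of fun i j : Fin b => (N w ((i : ℕ) + 1) ((j : ℕ) + 1) : ℚ)) = 1 ∧
        ∀ i j, padicNorm 2 (P i j) ≤ 2 ^ (3 * Nat.log 2 w) := by
  set M : Matrix (Fin b) (Fin b) ℚ :=
    Matrix.of fun i j : Fin b => (N w ((i : ℕ) + 1) ((j : ℕ) + 1) : ℚ) with hM
  set R : Matrix (Fin b) (Fin b) ℚ :=
    Matrix.of fun j n : Fin b => xv w ((n : ℕ) + 1) ((j : ℕ) + 1) with hR
  set L : Matrix (Fin b) (Fin b) ℚ :=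
    Matrix.of fun m i : Fin b => lv w ((m : ℕ) + 1) ((i : ℕ) + 1) /
      (lv w ((m : ℕ) + 1) ((m : ℕ) + 1) * del w ((m : ℕ) + 1)) with hL
  have hd : ∀ m : Fin b, lv w ((m : ℕ) + 1) ((m : ℕ) + 1) * del w ((m : ℕ) + 1) ≠ 0 := by
    intro m
    have := m.2
    exact mul_ne_zero (SInv_lv_ne (by omega)) (del_ne (by omega) (by omega))
  have key : (L * M) * R = 1 := by
    ext m n
    rw [Matrix.mul_apply]
    have h1 : ∀ j : Fin b, (L * M) m j * R j n =
        (∑ i : Fin b, lv w ((m : ℕ) + 1) ((i : ℕ) + 1) *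
          (N w ((i : ℕ) + 1) ((j : ℕ) + 1) : ℚ) * xv w ((n : ℕ) + 1) ((j : ℕ) + 1)) /
          (lv w ((m : ℕ) + 1) ((m : ℕ) + 1) * del w ((m : ℕ) + 1)) := by
      intro j
      rw [Matrix.mul_apply, Finset.sum_mul, Finset.sum_div]
      apply Finset.sum_congr rfl
      intro i _
      simp only [hL, hM, hR, Matrix.of_apply]
      ring
    rw [Finset.sum_congr rfl (fun j _ => h1 j), ← Finset.sum_div, Finset.sum_comm,
      SInv_entry hb m n]
    by_cases hmn : m = n
    · rw [if_pos hmn, hmn, Matrix.one_apply_eq, div_self (hd n)]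
    · rw [if_neg hmn, Matrix.one_apply_ne hmn, zero_div]
  refine ⟨R * L, ?_, ?_⟩
  · have h2 := mul_eq_one_comm.mp key
    rw [Matrix.mul_assoc]
    exact h2
  · intro i j
    rw [Matrix.mul_apply]
    apply padicNorm.sum_le'
    · intro n _
      have hn := n.2
      have hsplit : R i n * L n j = xv w ((n : ℕ) + 1) ((i : ℕ) + 1) *
          (1 / del w ((n : ℕ) + 1)) *
          (lv w ((n : ℕ) + 1) ((j : ℕ) + 1) / lv w ((n : ℕ) + 1) ((n : ℕ) + 1)) := by
        simp only [hL, hR, Matrix.of_apply]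
        have a1 := SInv_lv_ne (w := w) (n := (n : ℕ) + 1) (by omega)
        have a2 := del_ne (w := w) (n := (n : ℕ) + 1) (by omega) (by omega)
        field_simp
      rw [hsplit, padicNorm.mul, padicNorm.mul]
      have b1 := xv_norm (w := w) (n := (n : ℕ) + 1) (l := (i : ℕ) + 1) (by omega) (by omega)
      have b2 := del_norm (w := w) (n := (n : ℕ) + 1) (by omega) (by omega)
      have b3 := lv_norm (w := w) (n := (n : ℕ) + 1) (i := (j : ℕ) + 1) (by omega) (by omega)
        (by omega)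
      have e3 : (2 : ℚ) ^ (3 * Nat.log 2 w) =
          2 ^ (Nat.log 2 w) * 2 ^ (Nat.log 2 w) * 2 ^ (Nat.log 2 w) := by
        rw [← pow_add, ← pow_add]
        congr 1
        ring
      rw [e3]
      have p2 : (0 : ℚ) ≤ 2 ^ (Nat.log 2 w) := by positivity
      exact mul_le_mul (mul_le_mul b1 b2 (padicNorm.nonneg _) p2) b3 (padicNorm.nonneg _)
        (by positivity)
    · positivity

private theorem SInv_inv_norm {w m : ℕ} (h0 : 0 < m) (hm : m ≤ w) :
    padicNorm 2 (1 / (m : ℚ)) ≤ 2 ^ (Nat.log 2 w) := by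
  have hne : (m : ℚ) ≠ 0 := by exact_mod_cast h0.ne'
  rw [one_div, padicNorm.eq_zpow_of_nonzero (inv_ne_zero hne), padicValRat.inv, neg_neg,
    padicValRat.of_nat, zpow_natCast]
  have h1 : padicValNat 2 m ≤ Nat.log 2 w :=
    (padicValNat_le_nat_log m).trans (Nat.log_mono_right hm)
  exact_mod_cast Nat.pow_le_pow_right (by norm_num) h1

theorem inv_NE {e w b : ℕ} (he : e ≤ 1) (hb : 3 * b + e ≤ w) :
    ∃ P : Matrix (Fin b) (Fin b) ℚ,
      P * (Matrix.of fun i j : Fin b => (NE e w ((i : ℕ) + 1) ((j : ℕ) + 1) : ℚ)) = 1 ∧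
        ∀ i j, padicNorm 2 (P i j) ≤ 2 ^ (EE w) := by
  obtain ⟨P, hP, hPn⟩ := inv_N (w := w) (b := b) (by omega)
  rcases Nat.eq_zero_or_pos e with h0 | h0
  · refine ⟨P, ?_, ?_⟩
    · simp only [NE, h0, if_true]
      exact hP
    · intro i j
      refine (hPn i j).trans ?_
      exact pow_le_pow_right₀ (by norm_num) (by unfold EE; omega)
  · have he1 : e = 1 := by omega
    subst he1
    set c : Fin b → ℚ := fun j => 2 * (w : ℚ) - 3 * ((j : ℚ) + 1) with hc
    set a : Fin b → ℚ := fun i => 2 * ((w : ℚ) - 3 * ((i : ℚ) + 1)) with ha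
    have hcb : ∀ i : Fin b, (3 : ℚ) * ((i : ℚ) + 1) + 1 ≤ w := by
      intro i
      have h1 : 3 * ((i : ℕ) + 1) + 1 ≤ w := by
        have := i.2
        omega
      exact_mod_cast h1
    have hc0 : ∀ i, c i ≠ 0 := by
      intro i
      have h1 := hcb i
      have h2 : (0 : ℚ) ≤ (i : ℕ) := Nat.cast_nonneg _
      simp only [hc]
      intro h
      linarith
    have ha0 : ∀ i, a i ≠ 0 := by
      intro i
      have h1 := hcb i
      simp only [ha]
      intro h
      linarith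
    refine ⟨Matrix.of fun i j => c i * P i j * (1 / a j), ?_, ?_⟩
    · ext i j
      rw [Matrix.mul_apply]
      have hN : ∀ k : Fin b, (NE 1 w ((k : ℕ) + 1) ((j : ℕ) + 1) : ℚ) =
          a k * (N w ((k : ℕ) + 1) ((j : ℕ) + 1) : ℚ) * (1 / c j) := by
        intro k
        have h1 := N_Nt (w : ℤ) ((k : ℕ) + 1) ((j : ℕ) + 1)
        have h2 : (2 * (w : ℚ) - 3 * ((j : ℚ) + 1)) * (Nt w ((k : ℕ) + 1) ((j : ℕ) + 1) : ℚ) =
            2 * ((w : ℚ) - 3 * ((k : ℚ) + 1)) * (N w ((k : ℕ) + 1) ((j : ℕ) + 1) : ℚ) := by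
          exact_mod_cast h1
        have h3 := hc0 j
        simp only [NE, one_ne_zero, if_false]
        rw [mul_one_div, eq_div_iff h3]
        simp only [hc, ha]
        linarith
      have h1 : ∀ k : Fin b, (Matrix.of fun i j => c i * P i j * (1 / a j)) i k *
          (Matrix.of fun i j : Fin b => (NE 1 w ((i : ℕ) + 1) ((j : ℕ) + 1) : ℚ)) k j =
          c i * (1 / c j) * (P i k *
            (Matrix.of fun i j : Fin b => (N w ((i : ℕ) + 1) ((j : ℕ) + 1) : ℚ)) k j) := by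
        intro k
        simp only [Matrix.of_apply]
        rw [hN k]
        have h3 := ha0 k
        field_simp
      rw [Finset.sum_congr rfl (fun k _ => h1 k), ← Finset.mul_sum, ← Matrix.mul_apply, hP]
      by_cases hij : i = j
      · rw [hij, Matrix.one_apply_eq]
        have := hc0 j
        field_simp
      · rw [Matrix.one_apply_ne hij, mul_zero]
    · intro i j
      simp only [Matrix.of_apply]
      rw [padicNorm.mul, padicNorm.mul]
      have n1 : padicNorm 2 (c i) ≤ 1 := by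
        have h1 : c i = ((2 * (w : ℤ) - 3 * ((i : ℕ) + 1) : ℤ) : ℚ) := by
          simp only [hc]
          push_cast
          ring
        rw [h1]
        exact padicNorm.of_int _
      have n2 := hPn i j
      have n3 : padicNorm 2 (1 / a j) ≤ 2 * 2 ^ (Nat.log 2 w) := by
        have hj := j.2
        have h1 : 1 / a j = (1 / 2) * (1 / ((w - 3 * ((j : ℕ) + 1) : ℕ) : ℚ)) := by
          simp only [ha]
          rw [Nat.cast_sub (by omega)]
          push_cast
          have h4 := ha0 j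
          simp only [ha] at h4
          field_simp
        rw [h1, padicNorm.mul]
        have h2 : padicNorm 2 (1 / 2) = 2 := by
          have h3 : padicNorm 2 (2 : ℚ) = 2⁻¹ := by
            have h5 := padicNorm.padicNorm_p_of_prime (p := 2)
            push_cast at h5
            exact h5
          rw [padicNorm.div, padicNorm.one, h3]
          norm_num
        rw [h2]
        have h3 := SInv_inv_norm (w := w) (m := w - 3 * ((j : ℕ) + 1)) (by omega) (by omega)
        linarith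
      have e3 : (2 : ℚ) ^ (EE w) = 1 * 2 ^ (3 * Nat.log 2 w) * (2 * 2 ^ (Nat.log 2 w)) := by
        unfold EE
        rw [one_mul, pow_add, pow_one, show 4 * Nat.log 2 w = 3 * Nat.log 2 w + Nat.log 2 w by ring,
          pow_add]
        ring
      rw [e3]
      exact mul_le_mul (mul_le_mul n1 n2 (padicNorm.nonneg _) (by norm_num)) n3
        (padicNorm.nonneg _) (by positivity)

end MT2
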