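import Pool.Agent.Lib_MP_bfd926_sq.SQDs
import Pool.Agent.Lib_MP_bfd926_sq.SDb

/-!
# The valuations of the pivots

`kap_closed` (SDb) gives `v₂(del w n) = v₂(C(w - 2 n - 1, n - 1)) - v₂(C(2 w - 3 n - 1, n - 1))`
(`2 w - 1 - 2 n`, `2 n - 1` and the products are odd), that is (`ds_add`, `ds_two`)
`vc (w - 3 n) (n - 1) - vc (2 w - 4 n) (n - 1) = ds (w - 3 n) + ds (2 w - 3 n - 1) - ds (w - 2 n) -
ds (w - 2 n - 1) = ph 0 w n - 4 n`.
For `e = 1`: `DE 1 w n = 2 (w - 3 n) / (2 w - 3 n) * del w n` and, by `ds_succ`,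
`ds (w - 3 n - 1) + 1 = ds (w - 3 n) + v₂(w - 3 n)`,
`ds (2 w - 3 n - 1) + 1 = ds (2 w - 3 n) + v₂(2 w - 3 n)`.
-/

namespace MT2

private theorem SQD_odd (z : ℤ) (h : z % 2 = 1) : padicNorm 2 (z : ℚ) = 1 := by
  refine (padicNorm.int_eq_one_iff z).mpr (fun h2 => ?_)
  have : ((2 : ℕ) : ℤ) = 2 := rfl
  rw [this] at h2
  omega

private theorem SQD_prod {ι : Type} (s : Finset ι) (f : ι → ℤ) (h : ∀ i ∈ s, f i % 2 = 1) :
    padicNorm 2 (∏ i ∈ s, (f i : ℚ)) = 1 := by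
  classical
  induction s using Finset.induction_on with
  | empty => simp
  | insert a s ha ih =>
    rw [Finset.prod_insert ha, padicNorm.mul, SQD_odd _ (h a (Finset.mem_insert_self a s)),
      ih (fun i hi => h i (Finset.mem_insert_of_mem hi)), one_mul]

private theorem SQD_nat {m : ℕ} (hm : m ≠ 0) :
    padicNorm 2 ((m : ℕ) : ℚ) = (2 : ℚ) ^ (-(padicValNat 2 m : ℤ)) := by
  rw [padicNorm.eq_zpow_of_nonzero (Nat.cast_ne_zero.mpr hm), padicValRat.of_nat]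
  rfl

private theorem SQD_del {w n : ℕ} (hn : 3 * n ≤ w) (h1 : 1 ≤ n) :
    padicNorm 2 (del w n) = (2 : ℚ) ^ ((ds (w - 2 * n) : ℤ) + ds (w - 2 * n - 1) -
      ds (w - 3 * n) - ds (2 * w - 3 * n - 1)) := by
  have hk := congrArg (padicNorm 2) (kap_closed hn h1)
  rw [padicNorm.mul, padicNorm.mul, padicNorm.mul, padicNorm.mul] at hk
  have q1 : padicNorm 2 (∏ m ∈ Finset.range (n - 1), (2 * (m : ℚ) + 1)) = 1 := by
    refine (congrArg (padicNorm 2) (Finset.prod_congr rfl (fun m _ => ?_))).trans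
      (SQD_prod (Finset.range (n - 1)) (fun m : ℕ => 2 * (m : ℤ) + 1) (fun m _ => by omega))
    push_cast
    ring
  have q2 : padicNorm 2 (∏ j ∈ Finset.Ioo n (2 * n), (2 * (w : ℚ) - 1 - 2 * j)) = 1 := by
    refine (congrArg (padicNorm 2) (Finset.prod_congr rfl (fun m _ => ?_))).trans
      (SQD_prod (Finset.Ioo n (2 * n)) (fun m : ℕ => 2 * (w : ℤ) - 1 - 2 * m)
        (fun m _ => by omega))
    push_cast
    ring
  have q3 : padicNorm 2 ((-1 : ℚ) ^ (n - 1)) = 1 := by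
    have h := SQD_odd ((-1 : ℤ) ^ (n - 1)) (by
      rcases neg_one_pow_eq_or ℤ (n - 1) with h | h <;> rw [h] <;> norm_num)
    push_cast at h
    exact h
  have q4 : padicNorm 2 (2 * (n : ℚ) - 1) = 1 := by
    have h := SQD_odd (2 * (n : ℤ) - 1) (by omega)
    push_cast at h
    exact h
  have q5 : padicNorm 2 (2 * (w : ℚ) - 1 - 2 * n) = 1 := by
    have h := SQD_odd (2 * (w : ℤ) - 1 - 2 * n) (by omega)
    push_cast at h
    exact h
  have hc1 : Nat.choose (2 * w - 3 * n - 1) (n - 1) ≠ 0 := (Nat.choose_pos (by omega)).ne'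
  have hc2 : Nat.choose (w - 2 * n - 1) (n - 1) ≠ 0 := (Nat.choose_pos (by omega)).ne'
  rw [q1, q2, q3, mul_one, one_mul, one_mul, SQD_nat hc1, SQD_nat hc2] at hk
  have e1 : padicValNat 2 (Nat.choose (2 * w - 3 * n - 1) (n - 1)) = vc (2 * (w - 2 * n)) (n - 1) := by
    rw [vc]
    congr 2
    omega
  have e2 : padicValNat 2 (Nat.choose (w - 2 * n - 1) (n - 1)) = vc (w - 3 * n) (n - 1) := by
    rw [vc]
    congr 2
    omega
  have a1 := ds_add (2 * (w - 2 * n)) (n - 1)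
  have a2 := ds_add (w - 3 * n) (n - 1)
  rw [ds_two] at a1
  have i1 : 2 * (w - 2 * n) + (n - 1) = 2 * w - 3 * n - 1 := by omega
  have i2 : w - 3 * n + (n - 1) = w - 2 * n - 1 := by omega
  rw [i1] at a1
  rw [i2] at a2
  rw [e1, e2] at hk
  have hdel : padicNorm 2 (del w n) = padicNorm 2 (kap w n) := by
    rw [del, padicNorm.div, padicNorm.mul, padicNorm.neg, q4, q5, one_mul, div_one]
  have h2 : (2 : ℚ) ≠ 0 := two_ne_zero
  have hfin : padicNorm 2 (kap w n) =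
      (2 : ℚ) ^ (-(vc (w - 3 * n) (n - 1) : ℤ)) * (2 : ℚ) ^ ((vc (2 * (w - 2 * n)) (n - 1) : ℤ)) := by
    rw [← hk, mul_assoc, ← zpow_add₀ h2]
    simp
  rw [hdel, hfin, ← zpow_add₀ h2]
  congr 1
  omega

private theorem SQD_DE1 {w n : ℕ} (hn : 1 ≤ n) (h : 3 * n + 1 ≤ w) :
    padicNorm 2 (DE 1 w n) = (2 : ℚ) ^ (4 * (n : ℤ) - ph 1 w n) := by
  have h2 : (2 : ℚ) ≠ 0 := two_ne_zero
  have c1 : ((w : ℚ) - 3 * n) = ((w - 3 * n : ℕ) : ℚ) := by
    rw [Nat.cast_sub (by omega)]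
    push_cast
    ring
  have c2 : (2 * (w : ℚ) - 3 * n) = ((2 * w - 3 * n : ℕ) : ℚ) := by
    rw [Nat.cast_sub (by omega)]
    push_cast
    ring
  have e0 : DE 1 w n = 2 * (w - 3 * n) / (2 * w - 3 * n) * del w n := by
    rw [DE, if_neg (by norm_num)]
  have n2 : padicNorm 2 (2 : ℚ) = (2 : ℚ) ^ (-1 : ℤ) := by
    have h5 := padicNorm.padicNorm_p_of_prime (p := 2)
    push_cast at h5
    rw [zpow_neg_one]
    exact h5
  rw [e0, padicNorm.mul, padicNorm.div, padicNorm.mul, c1, c2, n2, SQD_nat (by omega),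
    SQD_nat (by omega), SQD_del (by omega) hn, ← zpow_add₀ h2, ← zpow_sub₀ h2, ← zpow_add₀ h2]
  congr 1
  have a1 := ds_succ (w - 3 * n - 1)
  have a2 := ds_succ (2 * w - 3 * n - 1)
  have i1 : w - 3 * n - 1 + 1 = w - 3 * n := by omega
  have i2 : 2 * w - 3 * n - 1 + 1 = 2 * w - 3 * n := by omega
  rw [i1] at a1
  rw [i2] at a2
  rw [ph, i2]
  omega

private theorem SQD_DE0 {w n : ℕ} (hn : 1 ≤ n) (h : 3 * n ≤ w) :
    padicNorm 2 (DE 0 w n) = (2 : ℚ) ^ (4 * (n : ℤ) - ph 0 w n) := by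
  rw [DE, if_pos rfl, SQD_del h hn]
  congr 1
  rw [ph]
  simp only [Nat.sub_zero, Nat.add_zero]
  push_cast
  ring

theorem DE_norm {e w n : ℕ} (he : e ≤ 1) (hn : 1 ≤ n) (h : 3 * n + e ≤ w) :
    padicNorm 2 (DE e w n) = (2 : ℚ) ^ (4 * (n : ℤ) - ph e w n) := by
  rcases (show e = 0 ∨ e = 1 by omega) with rfl | rfl
  · exact SQD_DE0 hn (by omega)
  · exact SQD_DE1 hn h

theorem DE_ne {e w n : ℕ} (he : e ≤ 1) (hn : 1 ≤ n) (h : 3 * n + e ≤ w) : DE e w n ≠ 0 := by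
  intro h0
  have h1 := DE_norm he hn h
  rw [h0, padicNorm.zero] at h1
  have h2 : (0 : ℚ) < (2 : ℚ) ^ (4 * (n : ℤ) - ph e w n) := zpow_pos (by norm_num) _
  rw [← h1] at h2
  exact lt_irrefl _ h2

end MT2
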