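import Pool.Agent.Lib_MP_bfd926_sq.SQDs
import Pool.Agent.Lib_MP_bfd926_sq.SQD
import Pool.Agent.Lib_MP_bfd926_sq.SInv

/-!
# The entries of the lower triangular factor

Let `z i = ∑ j ∈ Icc 1 n, N w i j * xv w n j`. By `int_A` minus `4 n (n - w)` … precisely
`int_A - 2 * (n * (n - w)) * int_B`, summed with `xv w n j`, and `xv_rec` (the right side vanishes
termwise after a shift of `j`, `xv w n (n + 1) = 0`; `SRight.xv_null` has the same computation):
`2 (2 i - 1) (i - n) (i + n - w) z_i = -(i - w) ((i - 1) ^ 2 - (w - 2 n) ^ 2) z_{i-1}`, for `i = n + u`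
`2 u (2 n + 2 u - 1) (w - 2 n - u) z_{n+u} = (w - n - u) (w - 3 n - u + 1) (w - n + u - 1) z_{n+u-1}`.
`z_i = 0` for `i < n` (`xv_null`), `z_n = del w n` (`pivot`, SInv). The product of the factors is
`L_closed`: `∏ (w - n + u - 1) (w - n - u) = (2 t)! * C(w - n + t - 1, 2 t)`,
`(2 t)! = 2 ^ t * t! * ∏ (2 m + 1)`.
`LE_one`: `N_Nt` (SCh).
`LE_norm`, `e = 0`: `v₂(C(w - 2 m - 1, s)) = vc (w - 2 m - 1 - s) s`, the other factors are integers
or odd. The hat (`w`, `m` odd, `s = 1`): the numerator is `C(w - m, 2) * (w - 3 m)`; `w - m` and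
`w - 3 m` are even, half of the difference is `m`, odd, so the numerator is divisible by 4.
`e = 1`: with `u = w - 3 m ≥ 1`: `(u - 3 s) * C(u, s) = u * (C(u, s) - 3 * C(u - 1, s - 1))`. The hat
(`w` odd, `m` even): `C(w - m, 2) * (w - 3 m - 3)`, `w - m - 1` and `w - 3 m - 3` are even, half of the
sum is `w - 2 m - 2`, odd. All checked by computer.
-/

namespace MT2

private theorem SQL_sum {M : Type} [AddCommMonoid M] (F : ℕ → M) (n : ℕ) :
    ∑ j ∈ Finset.Icc 1 n, F j = ∑ l ∈ Finset.range n, F (l + 1) := by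
  rw [Finset.range_eq_Ico, Finset.sum_Ico_add' F 0 n 1]
  congr 1

private theorem SQL_rec' {w n l : ℕ} (hn : 3 * n ≤ w) (hl : l ≤ n) :
    -2 * (2 * (w : ℚ) - 1 - 2 * l) * (l * (l - w) - n * (n - w)) * xv w n l =
      -((l : ℚ) * (((l : ℚ) + 1) * ((l + 1) - 2 * w) - 4 * (n * (n - w))) * xv w n (l + 1)) := by
  rcases eq_or_lt_of_le hl with h | h
  · subst h
    rw [xv_gt (Nat.lt_succ_self l)]
    ring
  · have := xv_rec hn h
    linarith

private theorem SQL_step {w n i : ℕ} (hn : 3 * n ≤ w) :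
    (4 * ((i : ℚ) + 1) - 2) * (((i : ℚ) + 1) * ((i + 1) - w) - n * (n - w)) *
        ∑ l ∈ Finset.range n, (N w (i + 1) (l + 1) : ℚ) * xv w n (l + 1) +
      (((i : ℚ) + 1) - w) * ((i : ℚ) ^ 2 - w ^ 2 - 4 * (n * (n - w))) *
        ∑ l ∈ Finset.range n, (N w i (l + 1) : ℚ) * xv w n (l + 1) = 0 := by
  have key : ∀ l ∈ Finset.range n,
      (4 * ((i : ℚ) + 1) - 2) * (((i : ℚ) + 1) * ((i + 1) - w) - n * (n - w)) *
        ((N w (i + 1) (l + 1) : ℚ) * xv w n (l + 1)) +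
      (((i : ℚ) + 1) - w) * ((i : ℚ) ^ 2 - w ^ 2 - 4 * (n * (n - w))) *
        ((N w i (l + 1) : ℚ) * xv w n (l + 1)) =
      (l : ℚ) * (((l : ℚ) + 1) * ((l + 1) - 2 * w) - 4 * (n * (n - w))) * xv w n (l + 1) *
          (K4 w (i + 1) l : ℚ) -
        ((l + 1 : ℕ) : ℚ) * ((((l + 1 : ℕ) : ℚ) + 1) * ((((l + 1 : ℕ) : ℚ) + 1) - 2 * w) -
          4 * (n * (n - w))) * xv w n (l + 1 + 1) * (K4 w (i + 1) ((l + 1 : ℕ) : ℤ) : ℚ) := by
    intro l hl
    have hA := congrArg (Int.cast : ℤ → ℚ) (int_A (w : ℤ) ((i : ℤ) + 1) ((l : ℤ) + 1))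
    have hB := congrArg (Int.cast : ℤ → ℚ) (int_B (w : ℤ) ((i : ℤ) + 1) ((l : ℤ) + 1))
    simp only [add_sub_cancel_right] at hA hB
    have hr := SQL_rec' (l := l + 1) hn (by have := Finset.mem_range.1 hl; omega)
    push_cast at hA hB hr ⊢
    linear_combination (xv w n (l + 1)) * hA - 2 * (n * (n - w)) * (xv w n (l + 1)) * hB +
      (K4 w (i + 1) (l + 1) : ℚ) * hr
  have hsum := Finset.sum_congr (rfl : Finset.range n = Finset.range n) key
  rw [Finset.sum_add_distrib, ← Finset.mul_sum, ← Finset.mul_sum] at hsum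
  have htel := Finset.sum_range_sub' (fun l : ℕ => (l : ℚ) * (((l : ℚ) + 1) * ((l + 1) - 2 * w) -
    4 * (n * (n - w))) * xv w n (l + 1) * (K4 w (i + 1) l : ℚ)) n
  rw [htel] at hsum
  rw [hsum, xv_gt (Nat.lt_succ_self n)]
  simp

theorem L_rec {w n u : ℕ} (hn : 1 ≤ n) (h : 3 * (n + u + 1) ≤ w) :
    2 * ((u : ℚ) + 1) * (2 * n + 2 * u + 1) * (w - 2 * n - u - 1) *
        (∑ j ∈ Finset.Icc 1 n, (N w ((n + u + 1 : ℕ) : ℤ) j : ℚ) * xv w n j) =
      (w - n - u - 1) * (w - 3 * n - u) * (w - n + u) *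
        (∑ j ∈ Finset.Icc 1 n, (N w ((n + u : ℕ) : ℤ) j : ℚ) * xv w n j) := by
  rw [SQL_sum (fun j => (N w ((n + u + 1 : ℕ) : ℤ) j : ℚ) * xv w n j),
    SQL_sum (fun j => (N w ((n + u : ℕ) : ℤ) j : ℚ) * xv w n j)]
  have hs := SQL_step (w := w) (n := n) (i := n + u) (by omega)
  push_cast at hs ⊢
  linear_combination (-1 : ℚ) * hs

private theorem SQL_LE0 (w m n : ℕ) : LE 0 w m n =
    (∑ j ∈ Finset.Icc 1 n, (N w m j : ℚ) * xv w n j) / del w n := by
  unfold LE DE XE NE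
  simp

private theorem SQL_choose2 (a k : ℕ) (h : k + 1 ≤ a) :
    (Nat.choose (a + 1) (k + 2) : ℚ) * ((k + 2) * (k + 1)) =
      (Nat.choose a k : ℚ) * ((a + 1) * (a - k)) := by
  have h1 : (Nat.choose (a + 1) (k + 1 + 1) : ℚ) * (k + 1 + 1) = (a + 1) * Nat.choose a (k + 1) := by
    exact_mod_cast (Nat.add_one_mul_choose_eq a (k + 1)).symm
  have h2 : (Nat.choose a (k + 1) : ℚ) * (k + 1) = Nat.choose a k * (a - k) := by
    have := Nat.choose_succ_right_eq a k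
    have h3 : ((a - k : ℕ) : ℚ) = (a : ℚ) - k := by
      rw [Nat.cast_sub (by omega)]
    rw [← h3]
    exact_mod_cast this
  have h4 : k + 1 + 1 = k + 2 := rfl
  rw [h4] at h1
  linear_combination (k + 1 : ℚ) * h1 + (a + 1 : ℚ) * h2

private theorem SQL_choose1 (a k : ℕ) (h : k ≤ a) :
    (Nat.choose a (k + 1) : ℚ) * (k + 1) = Nat.choose a k * (a - k) := by
  have := Nat.choose_succ_right_eq a k
  have h3 : ((a - k : ℕ) : ℚ) = (a : ℚ) - k := by
    rw [Nat.cast_sub h]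
  rw [← h3]
  exact_mod_cast this

theorem L_closed {w n t : ℕ} (hn : 1 ≤ n) (h : 3 * (n + t) ≤ w) :
    LE 0 w (n + t) n * (∏ m ∈ Finset.range t, (2 * (n : ℚ) + 1 + 2 * m)) *
        (Nat.choose (w - 2 * n - 1) t : ℚ) =
      (∏ m ∈ Finset.range t, (2 * (m : ℚ) + 1)) * (Nat.choose (w - n + t - 1) (2 * t) : ℚ) *
        (Nat.choose (w - 3 * n) t : ℚ) := by
  induction t with
  | zero =>
    have hd := del_ne (w := w) (n := n) (by omega) hn
    rw [SQL_LE0, Nat.add_zero, pivot (by omega) hn, div_self hd]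
    simp
  | succ t ih =>
    have ih := ih (by omega)
    have hd := del_ne (w := w) (n := n) (by omega) hn
    have hr := L_rec (w := w) (n := n) (u := t) hn (by omega)
    have hr2 : 2 * ((t : ℚ) + 1) * (2 * n + 2 * t + 1) * (w - 2 * n - t - 1) *
        LE 0 w (n + t + 1) n = (w - n - t - 1) * (w - 3 * n - t) * (w - n + t) *
        LE 0 w (n + t) n := by
      rw [SQL_LE0, SQL_LE0, ← mul_div_assoc, ← mul_div_assoc, hr]
    clear hr
    have c1 := SQL_choose1 (w - 2 * n - 1) t (by omega)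
    have c2 := SQL_choose1 (w - 3 * n) t (by omega)
    have c3 := SQL_choose2 (w - n + t - 1) (2 * t) (by omega)
    have e1 : ((w - 2 * n - 1 : ℕ) : ℚ) = (w : ℚ) - 2 * n - 1 := by
      rw [Nat.cast_sub (by omega), Nat.cast_sub (by omega)]
      push_cast
      ring
    have e2 : ((w - 3 * n : ℕ) : ℚ) = (w : ℚ) - 3 * n := by
      rw [Nat.cast_sub (by omega)]
      push_cast
      ring
    have e3 : ((w - n + t - 1 : ℕ) : ℚ) = (w : ℚ) - n + t - 1 := by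
      rw [Nat.cast_sub (by omega), Nat.cast_add, Nat.cast_sub (by omega)]
      push_cast
      ring
    rw [e1] at c1
    rw [e2] at c2
    rw [e3] at c3
    have e4 : w - n + t - 1 + 1 = w - n + (t + 1) - 1 := by omega
    rw [e4] at c3
    rw [Finset.prod_range_succ, Finset.prod_range_succ, show 2 * (t + 1) = 2 * t + 2 by ring,
      show n + (t + 1) = n + t + 1 by ring]
    push_cast at c3
    generalize LE 0 w (n + t + 1) n = L' at *
    generalize LE 0 w (n + t) n = L at *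
    generalize (∏ m ∈ Finset.range t, (2 * (n : ℚ) + 1 + 2 * m)) = A at *
    generalize (∏ m ∈ Finset.range t, (2 * (m : ℚ) + 1)) = B at *
    generalize ((w - 2 * n - 1).choose (t + 1) : ℚ) = C1' at *
    generalize ((w - 2 * n - 1).choose t : ℚ) = C1 at *
    generalize ((w - 3 * n).choose (t + 1) : ℚ) = C2' at *
    generalize ((w - 3 * n).choose t : ℚ) = C2 at *
    generalize ((w - n + (t + 1) - 1).choose (2 * t + 2) : ℚ) = C3' at *
    generalize ((w - n + t - 1).choose (2 * t) : ℚ) = C3 at *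
    have ht : (0 : ℚ) ≤ t := Nat.cast_nonneg t
    have hne : (2 * ((t : ℚ) + 1) ^ 2) ≠ 0 := by positivity
    apply mul_left_cancel₀ hne
    linear_combination (2 * ((t : ℚ) + 1) * L' * A * (2 * n + 1 + 2 * t)) * c1 +
      (A * C1) * hr2 + ((w - n - t - 1 : ℚ) * (w - 3 * n - t) * (w - n + t)) * ih -
      (B * (t + 1) * C2') * c3 -
      (B * C3 * (w - n + t) * (w - n - t - 1)) * c2

theorem LE_one {w m n : ℕ} (hn : 1 ≤ n) (hm : 1 ≤ m) (h : 3 * n + 1 ≤ w) (h' : 3 * m + 1 ≤ w) :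
    LE 1 w m n = ((w : ℚ) - 3 * m) / (w - 3 * n) * LE 0 w m n := by
  have hd := del_ne (w := w) (n := n) (by omega) hn
  have h1 : ((w : ℚ) - 3 * n) ≠ 0 := by
    have : ((3 * n + 1 : ℕ) : ℚ) ≤ w := by exact_mod_cast h
    push_cast at this
    intro h0
    linarith
  have h2 : (2 * (w : ℚ) - 3 * n) ≠ 0 := by
    have : ((3 * n + 1 : ℕ) : ℚ) ≤ w := by exact_mod_cast h
    push_cast at this
    have h3 : (0 : ℚ) ≤ w := Nat.cast_nonneg w
    intro h0
    linarith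
  have hs : ∑ j ∈ Finset.Icc 1 n, (NE 1 w m j : ℚ) * XE 1 w j n =
      2 * (w - 3 * m) / (2 * w - 3 * n) * ∑ j ∈ Finset.Icc 1 n, (N w m j : ℚ) * xv w n j := by
    rw [Finset.mul_sum]
    refine Finset.sum_congr rfl fun j _ => ?_
    have hN := congrArg (Int.cast : ℤ → ℚ) (N_Nt (w : ℤ) (m : ℤ) (j : ℤ))
    push_cast at hN
    unfold NE XE
    rw [if_neg one_ne_zero, if_neg one_ne_zero]
    field_simp
    linear_combination (xv w n j) * hN
  rw [SQL_LE0]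
  unfold LE
  rw [hs]
  unfold DE
  rw [if_neg one_ne_zero]
  field_simp

theorem LE_lt {e w m n : ℕ} (he : e ≤ 1) (hm : 1 ≤ m) (hmn : m < n) (h : 3 * n + e ≤ w) :
    LE e w m n = 0 := by
  have h0 : LE 0 w m n = 0 := by
    rw [SQL_LE0, xv_null (by omega) hm hmn, zero_div]
  rcases Nat.le_one_iff_eq_zero_or_eq_one.1 he with h1 | h1
  · subst h1
    exact h0
  · subst h1
    rw [LE_one (by omega) hm h (by omega), h0, mul_zero]

theorem LE_self {e w n : ℕ} (he : e ≤ 1) (hn : 1 ≤ n) (h : 3 * n + e ≤ w) : LE e w n n = 1 := by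
  have h0 : LE 0 w n n = 1 := by
    rw [SQL_LE0, pivot (by omega) hn, div_self (del_ne (by omega) hn)]
  rcases Nat.le_one_iff_eq_zero_or_eq_one.1 he with h1 | h1
  · subst h1
    exact h0
  · subst h1
    have h1 : ((w : ℚ) - 3 * n) ≠ 0 := by
      have : ((3 * n + 1 : ℕ) : ℚ) ≤ w := by exact_mod_cast h
      push_cast at this
      intro h0
      linarith
    rw [LE_one hn hn h h, h0, mul_one, div_self h1]

private theorem SQL_odd (f : ℕ → ℕ) (hf : ∀ m, Odd (f m)) (t : ℕ) :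
    Odd (∏ m ∈ Finset.range t, f m) := by
  induction t with
  | zero => simp
  | succ t ih =>
    rw [Finset.prod_range_succ]
    exact ih.mul (hf t)

private theorem SQL_norm {x : ℚ} {o c k : ℕ} {i : ℤ} (ho : Odd o) (hc : c ≠ 0)
    (h : x * o * c = i) (hk : (2 : ℤ) ^ k ∣ i) :
    padicNorm 2 x ≤ (2 : ℚ) ^ ((padicValNat 2 c : ℤ) - k) := by
  have h1 : padicNorm 2 (x * o * c) ≤ (2 : ℚ) ^ (-(k : ℤ)) := by
    rw [h]
    have := (padicNorm.dvd_iff_norm_le (p := 2) (n := k) (z := i)).1 (by exact_mod_cast hk)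
    exact_mod_cast this
  have h2 : padicNorm 2 (o : ℚ) = 1 := by
    rw [padicNorm.nat_eq_one_iff]
    exact ho.not_two_dvd_nat
  have h3 : padicNorm 2 (c : ℚ) = (2 : ℚ) ^ (-(padicValNat 2 c : ℤ)) := by
    rw [padicNorm.eq_zpow_of_nonzero (by exact_mod_cast hc), padicValRat.of_nat]
    norm_num
  rw [padicNorm.mul, padicNorm.mul, h2, h3, mul_one] at h1
  have h4 : (0 : ℚ) < (2 : ℚ) ^ (padicValNat 2 c : ℤ) := by positivity
  have h5 := mul_le_mul_of_nonneg_right h1 h4.le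
  rw [mul_assoc, ← zpow_add₀ (by norm_num : (2 : ℚ) ≠ 0),
    ← zpow_add₀ (by norm_num : (2 : ℚ) ≠ 0)] at h5
  rw [neg_add_cancel, zpow_zero, mul_one] at h5
  rw [sub_eq_add_neg, add_comm]
  exact h5

private theorem SQL_closed' {w n t : ℕ} (hn : 1 ≤ n) (h : 3 * (n + t) ≤ w) :
    LE 0 w (n + t) n * ((∏ m ∈ Finset.range t, (2 * n + 1 + 2 * m) : ℕ) : ℚ) *
        (Nat.choose (w - 2 * n - 1) t : ℚ) =
      (((∏ m ∈ Finset.range t, (2 * m + 1)) * Nat.choose (w - n + t - 1) (2 * t) *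
        Nat.choose (w - 3 * n) t : ℕ) : ℚ) := by
  have := L_closed hn h
  push_cast at this ⊢
  exact this

/-- The case `e = 0`. -/
private theorem SQL_zero {w m s k : ℕ} (hm : 1 ≤ m) (h : 3 * (m + s) ≤ w)
    (hk : 2 ^ k ∣ Nat.choose (w - m + s - 1) (2 * s) * Nat.choose (w - 3 * m) s) :
    padicNorm 2 (LE 0 w (m + s) m) ≤ (2 : ℚ) ^ ((vc (w - 2 * m - 1 - s) s : ℤ) - k) := by
  have hc : Nat.choose (w - 2 * m - 1) s ≠ 0 := (Nat.choose_pos (by omega)).ne'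
  have hv : vc (w - 2 * m - 1 - s) s = padicValNat 2 (Nat.choose (w - 2 * m - 1) s) := by
    unfold vc
    rw [Nat.sub_add_cancel (by omega)]
  rw [hv]
  refine SQL_norm (SQL_odd (fun a => 2 * m + 1 + 2 * a) (fun a => ⟨m + a, by ring⟩) s) hc
    (i := (((∏ m ∈ Finset.range s, (2 * m + 1)) * Nat.choose (w - m + s - 1) (2 * s) *
        Nat.choose (w - 3 * m) s : ℕ) : ℤ)) ?_ ?_
  · rw [Int.cast_natCast]
    exact SQL_closed' hm h
  · have : (2 : ℤ) ^ k = ((2 ^ k : ℕ) : ℤ) := by push_cast; rfl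
    rw [this, Int.natCast_dvd_natCast, mul_assoc]
    exact dvd_mul_of_dvd_right hk _

/-- `(u - 3 s) * C(u, s) = u * (C(u, s) - 3 * C(u - 1, s - 1))`. -/
private theorem SQL_cc (u s : ℕ) (hu : 1 ≤ u) (hs : 1 ≤ s) :
    ((u : ℚ) - 3 * s) * Nat.choose u s =
      u * ((Nat.choose u s : ℤ) - 3 * (Nat.choose (u - 1) (s - 1) : ℤ) : ℤ) := by
  obtain ⟨u, rfl⟩ : ∃ v, u = v + 1 := ⟨u - 1, by omega⟩
  obtain ⟨s, rfl⟩ : ∃ v, s = v + 1 := ⟨s - 1, by omega⟩
  have h1 : (Nat.choose (u + 1) (s + 1) : ℚ) * (s + 1) = (u + 1) * Nat.choose u s := by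
    exact_mod_cast (Nat.add_one_mul_choose_eq u s).symm
  rw [Nat.add_sub_cancel, Nat.add_sub_cancel]
  push_cast
  linear_combination (-3 : ℚ) * h1

/-- The case `e = 1`. -/
private theorem SQL_one {w m s k : ℕ} (hm : 1 ≤ m) (hs : 1 ≤ s) (h : 3 * (m + s) + 1 ≤ w)
    (hk : (2 : ℤ) ^ k ∣ (Nat.choose (w - m + s - 1) (2 * s) : ℤ) *
      ((Nat.choose (w - 3 * m) s : ℤ) - 3 * (Nat.choose (w - 3 * m - 1) (s - 1) : ℤ))) :
    padicNorm 2 (LE 1 w (m + s) m) ≤ (2 : ℚ) ^ ((vc (w - 2 * m - 1 - s) s : ℤ) - k) := by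
  have hc : Nat.choose (w - 2 * m - 1) s ≠ 0 := (Nat.choose_pos (by omega)).ne'
  have hv : vc (w - 2 * m - 1 - s) s = padicValNat 2 (Nat.choose (w - 2 * m - 1) s) := by
    unfold vc
    rw [Nat.sub_add_cancel (by omega)]
  rw [hv]
  refine SQL_norm (SQL_odd (fun a => 2 * m + 1 + 2 * a) (fun a => ⟨m + a, by ring⟩) s) hc
    (i := ((∏ m ∈ Finset.range s, (2 * m + 1) : ℕ) : ℤ) *
      ((Nat.choose (w - m + s - 1) (2 * s) : ℤ) *
      ((Nat.choose (w - 3 * m) s : ℤ) - 3 * (Nat.choose (w - 3 * m - 1) (s - 1) : ℤ)))) ?_ ?_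
  · have h1 := SQL_closed' (w := w) (n := m) (t := s) hm (by omega)
    have h2 := SQL_cc (w - 3 * m) s (by omega) hs
    have e2 : ((w - 3 * m : ℕ) : ℚ) = (w : ℚ) - 3 * m := by
      rw [Nat.cast_sub (by omega)]
      push_cast
      ring
    have h3 : ((w : ℚ) - 3 * m) ≠ 0 := by
      have : ((3 * m + 1 : ℕ) : ℚ) ≤ w := by exact_mod_cast (by omega : 3 * m + 1 ≤ w)
      push_cast at this
      intro h0
      linarith
    rw [e2] at h2
    rw [LE_one hm (by omega) (by omega) (by omega)]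
    apply mul_left_cancel₀ h3
    have h4 : ((w : ℚ) - 3 * m) * (((w : ℚ) - 3 * ((m + s : ℕ) : ℚ)) / (w - 3 * m) *
        LE 0 w (m + s) m * ((∏ a ∈ Finset.range s, (2 * m + 1 + 2 * a) : ℕ) : ℚ) *
        (Nat.choose (w - 2 * m - 1) s : ℚ)) = ((w : ℚ) - 3 * ((m + s : ℕ) : ℚ)) *
        (LE 0 w (m + s) m * ((∏ a ∈ Finset.range s, (2 * m + 1 + 2 * a) : ℕ) : ℚ) *
        (Nat.choose (w - 2 * m - 1) s : ℚ)) := by
      field_simp
    rw [h4, h1]
    push_cast at h2 ⊢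
    linear_combination (((∏ a ∈ Finset.range s, (2 * (a : ℚ) + 1))) *
      (Nat.choose (w - m + s - 1) (2 * s) : ℚ)) * h2
  · exact dvd_mul_of_dvd_right hk _

private theorem SQL_pq (x y : ℤ) (hx : 2 ∣ x * y) : (4 : ℤ) ∣ x * (2 * y) := by
  obtain ⟨z, hz⟩ := hx
  exact ⟨z, by linear_combination 2 * hz⟩

/-- The hat for `e = 0`. -/
private theorem SQL_hat0 {w m : ℕ} (hw : w % 2 = 1) (hm : m % 2 = 1) (h : 3 * (m + 1) ≤ w) :
    2 ^ 2 ∣ Nat.choose (w - m + 1 - 1) (2 * 1) * Nat.choose (w - 3 * m) 1 := by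
  obtain ⟨a, ha⟩ : ∃ a, w - m = 2 * a := ⟨(w - m) / 2, by omega⟩
  have h1 : Nat.choose (w - m + 1 - 1) (2 * 1) = a * (2 * a - 1) := by
    rw [Nat.add_sub_cancel, mul_one, ha, Nat.choose_two_right, mul_assoc]
    exact Nat.mul_div_cancel_left _ (by norm_num)
  have h2 : w - 3 * m = 2 * (a - m) := by omega
  rw [h1, Nat.choose_one_right, h2]
  have h3 : 2 ∣ a * (a - m) := by
    rcases Nat.even_or_odd' a with ⟨b, hb | hb⟩
    · exact ⟨b * (a - m), by rw [hb]; ring⟩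
    · obtain ⟨c, hc⟩ : ∃ c, a - m = 2 * c := ⟨(a - m) / 2, by omega⟩
      exact ⟨a * c, by rw [hc]; ring⟩
  obtain ⟨z, hz⟩ := h3
  exact ⟨z * (2 * a - 1), by
    calc a * (2 * a - 1) * (2 * (a - m)) = 2 * (a * (a - m)) * (2 * a - 1) := by ring
      _ = 2 ^ 2 * (z * (2 * a - 1)) := by rw [hz]; ring⟩

/-- The hat for `e = 1`. -/
private theorem SQL_hat1 {w m : ℕ} (hw : w % 2 = 1) (hm : m % 2 = 0) (h : 3 * (m + 1) + 1 ≤ w) :
    (2 : ℤ) ^ 2 ∣ (Nat.choose (w - m + 1 - 1) (2 * 1) : ℤ) *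
      ((Nat.choose (w - 3 * m) 1 : ℤ) - 3 * (Nat.choose (w - 3 * m - 1) (1 - 1) : ℤ)) := by
  obtain ⟨a, ha⟩ : ∃ a, w - m = 2 * a + 1 := ⟨(w - m) / 2, by omega⟩
  have h1 : Nat.choose (w - m + 1 - 1) (2 * 1) = a * (2 * a + 1) := by
    rw [Nat.add_sub_cancel, mul_one, ha, Nat.choose_two_right, Nat.add_sub_cancel, mul_comm,
      mul_assoc]
    exact Nat.mul_div_cancel_left _ (by norm_num)
  have h2 : ((w - 3 * m : ℕ) : ℤ) - 3 * 1 = 2 * ((a : ℤ) - m - 1) := by omega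
  rw [h1, Nat.choose_one_right, Nat.sub_self, Nat.choose_zero_right, Nat.cast_one, h2]
  have h3 : (2 : ℤ) ∣ (a : ℤ) * ((a : ℤ) - m - 1) := by
    rcases Int.even_or_odd' (a : ℤ) with ⟨b, hb | hb⟩
    · exact ⟨b * ((a : ℤ) - m - 1), by rw [hb]; ring⟩
    · obtain ⟨c, hc⟩ : ∃ c, (a : ℤ) - m - 1 = 2 * c := ⟨((a : ℤ) - m - 1) / 2, by omega⟩
      exact ⟨a * c, by rw [hc]; ring⟩
  obtain ⟨z, hz⟩ := h3
  refine ⟨z * (2 * a + 1), ?_⟩
  push_cast
  linear_combination (2 * (2 * (a : ℤ) + 1)) * hz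

theorem LE_norm {e w m s : ℕ} (he : e ≤ 1) (hm : 1 ≤ m) (h : 3 * (m + s) + e ≤ w) :
    padicNorm 2 (LE e w (m + s) m) ≤ (2 : ℚ) ^ (qU e w m s + 2 * s) := by
  rcases Nat.eq_zero_or_pos s with hs | hs
  · subst hs
    rw [Nat.add_zero, LE_self he hm (by omega)]
    unfold qU
    rw [vc_zero, if_neg (by omega)]
    simp
  · have hq : ∀ k : ℕ, (if w % 2 = 1 ∧ (m + e) % 2 = 1 ∧ s = 1 then (2 : ℤ) else 0) = k →
        qU e w m s + 2 * s = (vc (w - 2 * m - 1 - s) s : ℤ) - k := by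
      intro k hk
      unfold qU
      rw [hk]
      ring
    by_cases hh : w % 2 = 1 ∧ (m + e) % 2 = 1 ∧ s = 1
    · rw [hq 2 (by rw [if_pos hh]; rfl)]
      obtain ⟨h1, h2, h3⟩ := hh
      subst h3
      rcases Nat.le_one_iff_eq_zero_or_eq_one.1 he with h4 | h4
      · subst h4
        exact SQL_zero hm (by omega) (SQL_hat0 h1 (by omega) (by omega))
      · subst h4
        exact SQL_one hm le_rfl h (SQL_hat1 h1 (by omega) h)
    · rw [hq 0 (by rw [if_neg hh]; rfl)]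
      rcases Nat.le_one_iff_eq_zero_or_eq_one.1 he with h4 | h4
      · subst h4
        exact SQL_zero hm (by omega) (by rw [pow_zero]; exact one_dvd _)
      · subst h4
        exact SQL_one hm hs h (by rw [pow_zero]; exact one_dvd _)

end MT2
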