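import Pool.Agent.Lib_MP_bfd926_sq.SQDs
import Pool.Agent.Lib_MP_bfd926_sq.SQD
import Pool.Agent.Lib_MP_bfd926_sq.SInv

/-!
# The entries of the upper triangular factor

`sqURow w n j` is the `j`-th entry of the row `lv w n * N`; `sqURow_closed` is its closed form (the same
computation as in `Lib_MP_bfd926_ab/AUp.lean`). `UE 0 w n m = sqURow w n m / (lv w n n * del w n)`.
`UE_one`: `N_Nt` (SCh).
`UE_norm`, `e = 0`: `v₂(C(w - 2 m - 1, s)) = vc (w - 2 m - 1 - s) s`. The hat (`w`, `m` odd, `s = 1`):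
the numerator is `C(m + 1, 2) * (2 w - 3 (m + 1))`, `m + 1 = 2 m'`: `m' (2 m' - 1) * 2 (w - 3 m')`, and
`m' (w - 3 m')` is even. `e = 1`: `M * (C(M, s) - 3 * C(M - 1, s - 1)) = (M - 3 s) * C(M, s)`, so the
numerator is `C(m + s, 2 s) * C(M, s)`; the hat (`w` odd, `m` even): `C(m + 1, 2) * (2 w - 3 m)`,
`m = 2 m'`: `m' (2 m' + 1) * 2 (w - 3 m')`.
-/

namespace MT2

/-- The `j`-th entry of the row `lv w n * N`. -/
private noncomputable def sqURow (w n j : ℕ) : ℚ := ∑ i ∈ Finset.Icc 1 n, lv w n i * (N w i j : ℚ)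


private noncomputable def sqUZ (w n j : ℕ) : ℚ :=
  ∑ l ∈ Finset.range n, yv w n (l + 1) * (K4 w (l + 1) j : ℚ)

private theorem sqU_sum {M : Type} [AddCommMonoid M] (F : ℕ → M) (n : ℕ) :
    ∑ j ∈ Finset.Icc 1 n, F j = ∑ l ∈ Finset.range n, F (l + 1) := by
  rw [Finset.range_eq_Ico, Finset.sum_Ico_add' F 0 n 1]
  congr 1

private theorem sqU_step {w n j : ℕ} (hn : 3 * n ≤ w) :
    2 * (2 * (w : ℚ) - 1 - 2 * ((j : ℚ) + 1)) * (((j : ℚ) + 1) * ((j + 1) - w) - n * (n - w)) *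
        sqUZ w n (j + 1) =
      (j : ℚ) * (((j : ℚ) + 1) * ((j + 1) - 2 * w) - 4 * (n * (n - w))) * sqUZ w n j := by
  have key : ∀ l ∈ Finset.range n,
      2 * (2 * (w : ℚ) - 1 - 2 * ((j : ℚ) + 1)) * (((j : ℚ) + 1) * ((j + 1) - w) - n * (n - w)) *
        (yv w n (l + 1) * (K4 w (l + 1) (j + 1) : ℚ)) -
      (j : ℚ) * (((j : ℚ) + 1) * ((j + 1) - 2 * w) - 4 * (n * (n - w))) *
        (yv w n (l + 1) * (K4 w (l + 1) j : ℚ)) =
      (4 * (l : ℚ) - 2) * (l * (l - w) - n * (n - w)) * yv w n l * (N w l (j + 1) : ℚ) -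
        (4 * ((l + 1 : ℕ) : ℚ) - 2) * (((l + 1 : ℕ) : ℚ) * (((l + 1 : ℕ) : ℚ) - w) -
          n * (n - w)) * yv w n (l + 1) * (N w ((l + 1 : ℕ) : ℤ) (j + 1) : ℚ) := by
    intro l hl
    have hA := congrArg (Int.cast : ℤ → ℚ) (int_A (w : ℤ) ((l : ℤ) + 1) ((j : ℤ) + 1))
    have hB := congrArg (Int.cast : ℤ → ℚ) (int_B (w : ℤ) ((l : ℤ) + 1) ((j : ℤ) + 1))
    simp only [add_sub_cancel_right] at hA hB
    have hr := yv_rec (i := l) hn (Finset.mem_range.1 hl)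
    push_cast at hA hB ⊢
    linear_combination (yv w n (l + 1)) * hA - 2 * (n * (n - w)) * (yv w n (l + 1)) * hB -
      (N w l (j + 1) : ℚ) * hr
  have hsum := Finset.sum_congr (rfl : Finset.range n = Finset.range n) key
  rw [Finset.sum_sub_distrib, ← Finset.mul_sum, ← Finset.mul_sum] at hsum
  have htel := Finset.sum_range_sub' (fun l : ℕ => (4 * (l : ℚ) - 2) *
    (l * (l - w) - n * (n - w)) * yv w n l * (N w l (j + 1) : ℚ)) n
  rw [htel] at hsum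
  have h0 : N w ((0 : ℕ) : ℤ) ((j : ℤ) + 1) = 0 := N_zero (by push_cast; omega)
  rw [h0] at hsum
  unfold sqUZ
  push_cast at hsum ⊢
  linear_combination hsum

private theorem sqU_lvsum (w n j : ℕ) :
    sqURow w n (j + 1) =
      1 / 2 * (-(2 * (w : ℚ) - 1 - 2 * (j + 1)) * sqUZ w n (j + 1) +
        2 * (j : ℚ) * sqUZ w n j) := by
  unfold sqURow
  rw [sqU_sum (fun i => lv w n i * (N w i ((j + 1 : ℕ) : ℤ) : ℚ))]
  have key : ∀ l ∈ Finset.range n,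
      lv w n (l + 1) * (N w ((l + 1 : ℕ) : ℤ) ((j : ℤ) + 1) : ℚ) -
      1 / 2 * (-(2 * (w : ℚ) - 1 - 2 * (j + 1)) *
        (yv w n (l + 1) * (K4 w (l + 1) (j + 1) : ℚ)) +
        2 * (j : ℚ) * (yv w n (l + 1) * (K4 w (l + 1) j : ℚ))) =
      -((l : ℚ) + 1 - w) * yv w n (l + 1) * (N w l ((j : ℤ) + 1) : ℚ) -
        -(((l + 1 : ℕ) : ℚ) + 1 - w) * yv w n (l + 1 + 1) *
          (N w ((l + 1 : ℕ) : ℤ) ((j : ℤ) + 1) : ℚ) := by
    intro l _
    have hB := congrArg (Int.cast : ℤ → ℚ) (int_B (w : ℤ) ((l : ℤ) + 1) ((j : ℤ) + 1))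
    simp only [add_sub_cancel_right] at hB
    unfold lv
    push_cast at hB ⊢
    linear_combination 1 / 2 * (yv w n (l + 1)) * hB
  have hsum := Finset.sum_congr (rfl : Finset.range n = Finset.range n) key
  rw [Finset.sum_sub_distrib, ← Finset.mul_sum, Finset.sum_add_distrib, ← Finset.mul_sum,
    ← Finset.mul_sum] at hsum
  have htel := Finset.sum_range_sub' (fun l : ℕ => -((l : ℚ) + 1 - w) * yv w n (l + 1) *
    (N w l ((j : ℤ) + 1) : ℚ)) n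
  rw [htel] at hsum
  have h0 : N w ((0 : ℕ) : ℤ) ((j : ℤ) + 1) = 0 := N_zero (by push_cast; omega)
  rw [h0, yv_gt (Nat.lt_succ_self n)] at hsum
  unfold sqUZ
  push_cast at hsum ⊢
  linear_combination hsum

private theorem sqUZ_self {w n : ℕ} (hn : 3 * n ≤ w) (h1 : 1 ≤ n) : sqUZ w n n = kap w n := by
  have hk := kapsum_self hn h1
  rw [sqU_sum (fun i => yv w n i * (K4 w i n : ℚ))] at hk
  rw [← hk]
  unfold sqUZ
  push_cast
  rfl

private theorem sqU_ch (a k : ℕ) :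
    (Nat.choose a (k + 1) : ℚ) * ((k : ℚ) + 1) = (Nat.choose a k : ℚ) * ((a : ℚ) - k) := by
  rcases le_or_gt k a with h | h
  · have h1 := congrArg (Nat.cast : ℕ → ℚ) (Nat.choose_succ_right_eq a k)
    push_cast [Nat.cast_sub h] at h1
    exact h1
  · rw [Nat.choose_eq_zero_of_lt h, Nat.choose_eq_zero_of_lt (by omega : a < k + 1)]
    simp

private theorem sqU_ch2 (a k : ℕ) :
    (Nat.choose (a + 1) (k + 1) : ℚ) * ((k : ℚ) + 1) = ((a : ℚ) + 1) * (Nat.choose a k : ℚ) := by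
  have h1 := congrArg (Nat.cast : ℕ → ℚ) (Nat.add_one_mul_choose_eq a k)
  push_cast at h1
  exact h1.symm

private theorem sqU_closed {w n : ℕ} (hn : 3 * (n + 1) ≤ w) (s : ℕ) :
    sqUZ w (n + 1) (n + 1 + s) * (Nat.choose (w - 2 * (n + 1) - 1) s : ℚ) *
        (∏ m ∈ Finset.range s, (2 * (w : ℚ) - 3 - 2 * ((n : ℚ) + 1) - 2 * m)) =
      (-1) ^ s * kap w (n + 1) * (∏ m ∈ Finset.range s, (2 * (m : ℚ) + 1)) *
        (Nat.choose (n + s) (2 * s) : ℚ) * (Nat.choose (2 * w - 3 * (n + 1) - 1) s : ℚ) := by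
  have ca : ((w - 2 * (n + 1) - 1 : ℕ) : ℚ) = (w : ℚ) - 2 * (n + 1) - 1 := by
    rw [Nat.cast_sub (by omega), Nat.cast_sub (by omega)]
    push_cast
    ring
  have cb : ((2 * w - 3 * (n + 1) - 1 : ℕ) : ℚ) = 2 * (w : ℚ) - 3 * (n + 1) - 1 := by
    rw [Nat.cast_sub (by omega), Nat.cast_sub (by omega)]
    push_cast
    ring
  induction s with
  | zero =>
    have h := sqUZ_self hn (by omega : 1 ≤ n + 1)
    simp [h]
  | succ s ih =>
    have hs := sqU_step (w := w) (n := n + 1) (j := n + 1 + s) hn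
    have e1 := sqU_ch (w - 2 * (n + 1) - 1) s
    have e2 := sqU_ch (2 * w - 3 * (n + 1) - 1) s
    have e3 := sqU_ch (n + s) (2 * s)
    have e4 := sqU_ch2 (n + s) (2 * s + 1)
    rw [ca] at e1
    rw [cb] at e2
    rw [show n + 1 + (s + 1) = n + 1 + s + 1 by ring, show n + (s + 1) = n + s + 1 by ring,
      show 2 * (s + 1) = 2 * s + 1 + 1 by ring, Finset.prod_range_succ, Finset.prod_range_succ,
      pow_succ]
    push_cast at hs e1 e2 e3 e4 ⊢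
    set Z1 := sqUZ w (n + 1) (n + 1 + s + 1)
    set Z0 := sqUZ w (n + 1) (n + 1 + s)
    set A0 := (Nat.choose (w - 2 * (n + 1) - 1) s : ℚ)
    set A1 := (Nat.choose (w - 2 * (n + 1) - 1) (s + 1) : ℚ)
    set B0 := (Nat.choose (2 * w - 3 * (n + 1) - 1) s : ℚ)
    set B1 := (Nat.choose (2 * w - 3 * (n + 1) - 1) (s + 1) : ℚ)
    set C0 := (Nat.choose (n + s) (2 * s) : ℚ)
    set C1 := (Nat.choose (n + s) (2 * s + 1) : ℚ)
    set C2 := (Nat.choose (n + s + 1) (2 * s + 1 + 1) : ℚ)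
    set P := ∏ m ∈ Finset.range s, (2 * (w : ℚ) - 3 - 2 * ((n : ℚ) + 1) - 2 * m)
    set Q := ∏ m ∈ Finset.range s, (2 * (m : ℚ) + 1)
    set E := ((-1 : ℚ)) ^ s
    set k := kap w (n + 1)
    have h0 : (2 : ℚ) * ((s : ℚ) + 1) * ((s : ℚ) + 1) ≠ 0 := by positivity
    apply mul_left_cancel₀ h0
    have f1 : 2 * ((s : ℚ) + 1) * ((w : ℚ) - 2 * (n + 1) - 1 - s) *
        (2 * (w : ℚ) - 3 - 2 * ((n : ℚ) + 1) - 2 * s) * Z1 =
        -((n : ℚ) + 1 + s) * ((n : ℚ) - s) * (2 * w - 3 * (n + 1) - 1 - s) * Z0 := by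
      linear_combination -hs
    have f2 : (2 * (s : ℚ) + 2) * (2 * s + 1) * C2 = ((n : ℚ) + s + 1) * ((n : ℚ) - s) * C0 := by
      linear_combination (2 * (s : ℚ) + 1) * e4 + ((n : ℚ) + s + 1) * e3
    linear_combination (2 * ((s : ℚ) + 1) * Z1 * P * (2 * (w : ℚ) - 3 - 2 * ((n : ℚ) + 1) - 2 * s)) * e1
      + A0 * P * f1 - ((n : ℚ) + 1 + s) * ((n : ℚ) - s) * (2 * w - 3 * (n + 1) - 1 - s) * ih
      + E * k * Q * ((s : ℚ) + 1) * B1 * f2
      + E * k * Q * ((n : ℚ) + s + 1) * ((n : ℚ) - s) * C0 * e2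

private theorem sqURow_self {w n : ℕ} (hn : 3 * n ≤ w) (h1 : 1 ≤ n) :
    sqURow w n n = lv w n n * del w n := by
  unfold sqURow
  rw [lv_top hn h1, lv_self]
  unfold del
  have h2 : (2 * (n : ℚ) - 1) ≠ 0 := by
    have : (1 : ℚ) ≤ n := by exact_mod_cast h1
    linarith
  field_simp

private theorem sqURow_closed {w n t : ℕ} (h1 : 1 ≤ n) (ht1 : 1 ≤ t) (htn : t ≤ n) (hn : 3 * n ≤ w)
    (ht : 2 * n + t < w) :
    sqURow w n (n + t) * (∏ m ∈ Finset.range t, (2 * (w : ℚ) - 1 - 2 * n - 2 * m)) *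
        (Nat.choose (w - 2 * n - 1) t : ℚ) =
      (-1) ^ t * (lv w n n * del w n) * (∏ m ∈ Finset.range t, (2 * (m : ℚ) + 1)) *
        (Nat.choose (n + t) (2 * t) : ℚ) *
        ((Nat.choose (2 * w - 3 * n) t : ℚ) - 3 * (Nat.choose (2 * w - 3 * n - 1) (t - 1) : ℚ)) := by
  have hD : lv w n n * del w n = -(1 / 2) * (2 * w - 1 - 2 * n) * kap w n := by
    rw [← sqURow_self hn h1]
    unfold sqURow
    exact lv_top hn h1
  rw [hD]
  obtain ⟨n, rfl⟩ : ∃ k, n = k + 1 := ⟨n - 1, by omega⟩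
  obtain ⟨s, rfl⟩ : ∃ k, t = k + 1 := ⟨t - 1, by omega⟩
  have hc := sqU_closed hn s
  have hs := sqU_step (w := w) (n := n + 1) (j := n + 1 + s) hn
  have hl := sqU_lvsum w (n + 1) (n + 1 + s)
  have ca : ((w - 2 * (n + 1) - 1 : ℕ) : ℚ) = (w : ℚ) - 2 * (n + 1) - 1 := by
    rw [Nat.cast_sub (by omega), Nat.cast_sub (by omega)]
    push_cast
    ring
  have cb : ((2 * w - 3 * (n + 1) - 1 : ℕ) : ℚ) = 2 * (w : ℚ) - 3 * (n + 1) - 1 := by
    rw [Nat.cast_sub (by omega), Nat.cast_sub (by omega)]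
    push_cast
    ring
  have e1 := sqU_ch (w - 2 * (n + 1) - 1) s
  have e2 := sqU_ch2 (2 * w - 3 * (n + 1) - 1) s
  have e3 := sqU_ch2 (n + s) (2 * s)
  have e4 := sqU_ch2 (n + s + 1) (2 * s + 1)
  have hM : 2 * w - 3 * (n + 1) - 1 + 1 = 2 * w - 3 * (n + 1) := by omega
  rw [ca] at e1
  rw [cb, hM] at e2
  have hP : ∏ m ∈ Finset.range (s + 1), (2 * (w : ℚ) - 1 - 2 * ((n + 1 : ℕ) : ℚ) - 2 * m) =
      (∏ m ∈ Finset.range s, (2 * (w : ℚ) - 3 - 2 * ((n : ℚ) + 1) - 2 * m)) *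
        (2 * (w : ℚ) - 1 - 2 * ((n : ℚ) + 1)) := by
    rw [Finset.prod_range_succ']
    congr 1
    · refine Finset.prod_congr rfl fun m _ => ?_
      push_cast
      ring
    · push_cast
      ring
  rw [hP, Nat.add_sub_cancel, show n + 1 + (s + 1) = n + 1 + s + 1 by ring,
    show 2 * (s + 1) = 2 * s + 1 + 1 by ring, Finset.prod_range_succ, pow_succ, hl]
  rw [show n + s + 1 + 1 = n + 1 + s + 1 by ring] at e4
  push_cast at hc hs e1 e2 e3 e4 ⊢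
  set Z1 := sqUZ w (n + 1) (n + 1 + s + 1)
  set Z0 := sqUZ w (n + 1) (n + 1 + s)
  set A0 := (Nat.choose (w - 2 * (n + 1) - 1) s : ℚ)
  set A1 := (Nat.choose (w - 2 * (n + 1) - 1) (s + 1) : ℚ)
  set B0 := (Nat.choose (2 * w - 3 * (n + 1) - 1) s : ℚ)
  set BM := (Nat.choose (2 * w - 3 * (n + 1)) (s + 1) : ℚ)
  set C0 := (Nat.choose (n + s) (2 * s) : ℚ)
  set C1 := (Nat.choose (n + s + 1) (2 * s + 1) : ℚ)
  set C2 := (Nat.choose (n + 1 + s + 1) (2 * s + 1 + 1) : ℚ)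
  set P := ∏ m ∈ Finset.range s, (2 * (w : ℚ) - 3 - 2 * ((n : ℚ) + 1) - 2 * m)
  set Q := ∏ m ∈ Finset.range s, (2 * (m : ℚ) + 1)
  set E := ((-1 : ℚ)) ^ s
  set k := kap w (n + 1)
  have h0 : (4 : ℚ) * ((s : ℚ) + 1) * ((s : ℚ) + 1) ≠ 0 := by positivity
  apply mul_left_cancel₀ h0
  set h := 1 / 2 * (-(2 * (w : ℚ) - 1 - 2 * ((n : ℚ) + 1 + s + 1)) * Z1 +
    2 * ((n : ℚ) + 1 + s) * Z0) with hh
  have f1 : 4 * ((s : ℚ) + 1) * ((w : ℚ) - 2 * (n + 1) - 1 - s) * h =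
      ((n : ℚ) + 1 + s) * ((n : ℚ) + s + 2) * (2 * w - 3 * (n + s + 2)) * Z0 := by
    rw [hh]
    linear_combination hs
  have f2 : 2 * ((s : ℚ) + 1) * (2 * s + 1) * C2 =
      ((n : ℚ) + s + 2) * ((n : ℚ) + s + 1) * C0 := by
    linear_combination (2 * (s : ℚ) + 1) * e4 + ((n : ℚ) + s + 2) * e3
  have f3 : ((s : ℚ) + 1) * (BM - 3 * B0) = (2 * (w : ℚ) - 3 * (n + s + 2)) * B0 := by
    linear_combination e2
  linear_combination (4 * ((s : ℚ) + 1) * h * P * (2 * (w : ℚ) - 1 - 2 * ((n : ℚ) + 1))) * e1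
    + (P * (2 * (w : ℚ) - 1 - 2 * ((n : ℚ) + 1)) * A0) * f1
    + (((n : ℚ) + 1 + s) * ((n : ℚ) + s + 2) * (2 * w - 3 * (n + s + 2)) *
        (2 * (w : ℚ) - 1 - 2 * ((n : ℚ) + 1))) * hc
    - (E * k * Q * (2 * (w : ℚ) - 1 - 2 * ((n : ℚ) + 1)) * ((s : ℚ) + 1) * (BM - 3 * B0)) * f2
    - (E * k * Q * (2 * (w : ℚ) - 1 - 2 * ((n : ℚ) + 1)) *
        (((n : ℚ) + s + 2) * ((n : ℚ) + s + 1)) * C0) * f3

private theorem sqU_lv_ne {w n : ℕ} (h1 : 1 ≤ n) : lv w n n ≠ 0 := by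
  rw [lv_self]
  have : (1 : ℚ) ≤ n := by exact_mod_cast h1
  intro h
  linarith

private theorem sqU_UE0 {w n : ℕ} (m : ℕ) :
    UE 0 w n m = sqURow w n m / (lv w n n * del w n) := by
  have h : ∀ i ∈ Finset.Icc 1 n, YE 0 w n i * (NE 0 w i m : ℚ) =
      lv w n i * (N w i m : ℚ) / lv w n n := by
    intro i _
    unfold YE NE
    simp only [if_true]
    ring
  have hD : DE 0 w n = del w n := by
    unfold DE
    simp
  unfold UE sqURow
  rw [Finset.sum_congr rfl h, ← Finset.sum_div, div_div, hD]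

private theorem sqU_wne {w i : ℕ} (h : 3 * i + 1 ≤ w) : (w : ℚ) - 3 * i ≠ 0 := by
  have : (3 * (i : ℚ) + 1) ≤ w := by exact_mod_cast h
  intro h'
  linarith

private theorem sqU_wne2 {w i : ℕ} (h : 3 * i + 1 ≤ w) : 2 * (w : ℚ) - 3 * i ≠ 0 := by
  have : (3 * (i : ℚ) + 1) ≤ w := by exact_mod_cast h
  intro h'
  have h2 : (0 : ℚ) ≤ i := Nat.cast_nonneg i
  linarith

theorem U_closed {w n t : ℕ} (hn : 1 ≤ n) (ht : 1 ≤ t) (h : 3 * (n + t) ≤ w) :
    UE 0 w n (n + t) * (∏ m ∈ Finset.range t, (2 * (w : ℚ) - 2 * n - 1 - 2 * m)) *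
        (Nat.choose (w - 2 * n - 1) t : ℚ) =
      (-1) ^ t * (∏ m ∈ Finset.range t, (2 * (m : ℚ) + 1)) *
        (Nat.choose (n + t) (2 * t) : ℚ) *
        ((Nat.choose (2 * w - 3 * n) t : ℚ) - 3 * (Nat.choose (2 * w - 3 * n - 1) (t - 1) : ℚ)) := by
  have hD : lv w n n * del w n ≠ 0 := mul_ne_zero (sqU_lv_ne hn) (del_ne (by omega) hn)
  rw [sqU_UE0]
  rcases le_or_gt t n with htn | htn
  · have hc := sqURow_closed (w := w) hn ht htn (by omega) (by omega)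
    have e : ∀ m : ℕ, 2 * (w : ℚ) - 2 * n - 1 - 2 * m = 2 * (w : ℚ) - 1 - 2 * n - 2 * m := by
      intro m
      ring
    simp only [e]
    rw [div_mul_eq_mul_div, div_mul_eq_mul_div, div_eq_iff hD]
    linear_combination hc
  · have h0 : sqURow w n (n + t) = 0 := by
      unfold sqURow
      refine Finset.sum_eq_zero fun i hi => ?_
      simp only [Finset.mem_Icc] at hi
      rw [N_zero (by push_cast; omega)]
      simp
    rw [h0, Nat.choose_eq_zero_of_lt (by omega : n + t < 2 * t)]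
    simp

theorem UE_one {w n m : ℕ} (hn : 1 ≤ n) (hm : 1 ≤ m) (h : 3 * n + 1 ≤ w) (h' : 3 * m + 1 ≤ w) :
    UE 1 w n m = (2 * (w : ℚ) - 3 * n) / (2 * w - 3 * m) * UE 0 w n m := by
  have hw : (w : ℚ) - 3 * n ≠ 0 := sqU_wne h
  have hw2 : 2 * (w : ℚ) - 3 * n ≠ 0 := sqU_wne2 h
  have hm2 : 2 * (w : ℚ) - 3 * m ≠ 0 := sqU_wne2 h'
  have hd : del w n ≠ 0 := del_ne (by omega) hn
  have hs : (∑ i ∈ Finset.Icc 1 n, YE 1 w n i * (NE 1 w i m : ℚ)) =
      2 * ((w : ℚ) - 3 * n) / (2 * w - 3 * m) *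
        ∑ i ∈ Finset.Icc 1 n, YE 0 w n i * (NE 0 w i m : ℚ) := by
    rw [Finset.mul_sum]
    refine Finset.sum_congr rfl fun i hi => ?_
    simp only [Finset.mem_Icc] at hi
    have hi3 : (w : ℚ) - 3 * i ≠ 0 := sqU_wne (by omega)
    have hN := congrArg (Int.cast : ℤ → ℚ) (N_Nt (w : ℤ) (i : ℤ) (m : ℤ))
    unfold YE NE
    simp only [if_true, one_ne_zero, if_false]
    push_cast at hN
    have hNt : (Nt w i m : ℚ) = 2 * ((w : ℚ) - 3 * i) / (2 * w - 3 * m) * (N w i m : ℚ) := by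
      field_simp
      linear_combination hN
    rw [hNt]
    field_simp
  unfold UE
  rw [hs]
  unfold DE
  simp only [if_true, one_ne_zero, if_false]
  field_simp

theorem UE_lt {e w m n : ℕ} (he : e ≤ 1) (hm : 1 ≤ m) (hmn : m < n) (h : 3 * n + e ≤ w) :
    UE e w n m = 0 := by
  have h0 : UE 0 w n m = 0 := by
    rw [sqU_UE0]
    have : sqURow w n m = 0 := by
      unfold sqURow
      exact lv_null (by omega) hm hmn
    rw [this, zero_div]
  interval_cases e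
  · exact h0
  · rw [UE_one (by omega) hm h (by omega), h0, mul_zero]

theorem UE_self {e w n : ℕ} (he : e ≤ 1) (hn : 1 ≤ n) (h : 3 * n + e ≤ w) : UE e w n n = 1 := by
  have h0 : UE 0 w n n = 1 := by
    rw [sqU_UE0, sqURow_self (by omega) hn]
    exact div_self (mul_ne_zero (sqU_lv_ne hn) (del_ne (by omega) hn))
  interval_cases e
  · exact h0
  · rw [UE_one hn hn h h, h0, div_self (sqU_wne2 h), mul_one]

private theorem sqU_odd (f : ℕ → ℤ) (hf : ∀ m, ∃ k, f m = 2 * k + 1) (t : ℕ) :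
    ∃ k : ℤ, ∏ m ∈ Finset.range t, f m = 2 * k + 1 := by
  induction t with
  | zero => exact ⟨0, by simp⟩
  | succ t ih =>
    obtain ⟨a, ha⟩ := ih
    obtain ⟨b, hb⟩ := hf t
    refine ⟨2 * a * b + a + b, ?_⟩
    rw [Finset.prod_range_succ, ha, hb]
    ring

private theorem sqU_norm_odd {z : ℤ} (h : ∃ k : ℤ, z = 2 * k + 1) : padicNorm 2 (z : ℚ) = 1 := by
  rw [padicNorm.int_eq_one_iff]
  obtain ⟨k, rfl⟩ := h
  push_cast
  omega

private theorem sqU_norm_nat {c : ℕ} (hc : c ≠ 0) :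
    padicNorm 2 (c : ℚ) = (2 : ℚ) ^ (-(padicValNat 2 c : ℤ)) := by
  rw [padicNorm.eq_zpow_of_nonzero (by exact_mod_cast hc), padicValRat.of_nat]
  norm_num

private theorem sqU_bound {x : ℚ} {a p z : ℤ} {c s k : ℕ} (hc : c ≠ 0)
    (ha : ∃ k : ℤ, a = 2 * k + 1) (hp : ∃ k : ℤ, p = 2 * k + 1) (hz : (2 : ℤ) ^ k ∣ z)
    (h : x * (a : ℚ) * (c : ℚ) = (-1) ^ s * (p : ℚ) * (z : ℚ)) :
    padicNorm 2 x ≤ (2 : ℚ) ^ ((padicValNat 2 c : ℤ) - k) := by
  have h1 := congrArg (padicNorm 2) h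
  rw [padicNorm.mul, padicNorm.mul, padicNorm.mul, padicNorm.mul, sqU_norm_odd ha, sqU_norm_odd hp,
    sqU_norm_nat hc] at h1
  have h2 : padicNorm 2 ((-1 : ℚ) ^ s) = 1 := by
    rcases neg_one_pow_eq_or ℚ s with h3 | h3 <;> rw [h3]
    · simp
    · rw [padicNorm.neg]
      simp
  rw [h2] at h1
  have h3 : padicNorm 2 (z : ℚ) ≤ (2 : ℚ) ^ (-(k : ℤ)) := by
    have := (padicNorm.dvd_iff_norm_le (p := 2) (n := k) (z := z)).1 (by exact_mod_cast hz)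
    exact_mod_cast this
  have h4 : padicNorm 2 x = padicNorm 2 (z : ℚ) * (2 : ℚ) ^ ((padicValNat 2 c : ℤ)) := by
    have h5 : (2 : ℚ) ^ (-(padicValNat 2 c : ℤ)) * (2 : ℚ) ^ ((padicValNat 2 c : ℤ)) = 1 := by
      rw [← zpow_add₀ (by norm_num)]
      simp
    calc padicNorm 2 x = padicNorm 2 x * 1 * ((2 : ℚ) ^ (-(padicValNat 2 c : ℤ)) *
          (2 : ℚ) ^ ((padicValNat 2 c : ℤ))) := by rw [h5]; ring
      _ = (padicNorm 2 x * 1 * (2 : ℚ) ^ (-(padicValNat 2 c : ℤ))) *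
          (2 : ℚ) ^ ((padicValNat 2 c : ℤ)) := by ring
      _ = _ := by rw [h1]; ring
  rw [h4]
  calc padicNorm 2 (z : ℚ) * (2 : ℚ) ^ ((padicValNat 2 c : ℤ))
      ≤ (2 : ℚ) ^ (-(k : ℤ)) * (2 : ℚ) ^ ((padicValNat 2 c : ℤ)) :=
        mul_le_mul_of_nonneg_right h3 (by positivity)
    _ = (2 : ℚ) ^ ((padicValNat 2 c : ℤ) - k) := by
        rw [← zpow_add₀ (by norm_num)]
        congr 1
        ring

private theorem sqU_P1 (w n t : ℕ) :
    ∃ a : ℤ, (∃ k : ℤ, a = 2 * k + 1) ∧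
      (∏ m ∈ Finset.range t, (2 * (w : ℚ) - 2 * n - 1 - 2 * m)) = (a : ℚ) := by
  refine ⟨∏ m ∈ Finset.range t, (2 * (w : ℤ) - 2 * n - 1 - 2 * m), ?_, ?_⟩
  · exact sqU_odd (fun m => 2 * (w : ℤ) - 2 * n - 1 - 2 * m)
      (fun m => ⟨(w : ℤ) - n - 1 - m, by ring⟩) t
  · push_cast
    rfl

private theorem sqU_P2 (t : ℕ) :
    ∃ a : ℤ, (∃ k : ℤ, a = 2 * k + 1) ∧
      (∏ m ∈ Finset.range t, (2 * (m : ℚ) + 1)) = (a : ℚ) := by
  refine ⟨∏ m ∈ Finset.range t, (2 * (m : ℤ) + 1), ?_, ?_⟩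
  · exact sqU_odd (fun m => 2 * (m : ℤ) + 1) (fun m => ⟨(m : ℤ), rfl⟩) t
  · push_cast
    rfl

/-- the closed form for both `e`, with an integral numerator -/
private theorem sqU_num {e w m s : ℕ} (he : e ≤ 1) (hm : 1 ≤ m) (hs : 1 ≤ s)
    (h : 3 * (m + s) + e ≤ w) :
    UE e w m (m + s) * (∏ j ∈ Finset.range s, (2 * (w : ℚ) - 2 * m - 1 - 2 * j)) *
        (Nat.choose (w - 2 * m - 1) s : ℚ) =
      (-1) ^ s * (∏ j ∈ Finset.range s, (2 * (j : ℚ) + 1)) *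
        (((Nat.choose (m + s) (2 * s) : ℤ) *
          (if e = 0 then (Nat.choose (2 * w - 3 * m) s : ℤ) -
            3 * (Nat.choose (2 * w - 3 * m - 1) (s - 1) : ℤ)
            else (Nat.choose (2 * w - 3 * m) s : ℤ)) : ℤ) : ℚ) := by
  have hc := U_closed (w := w) hm hs (by omega)
  interval_cases e
  · simp only [if_true]
    push_cast
    linear_combination hc
  · rw [UE_one hm (by omega) (by omega) h]
    simp only [one_ne_zero, if_false]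
    obtain ⟨r, rfl⟩ : ∃ r, s = r + 1 := ⟨s - 1, by omega⟩
    have hM : 2 * w - 3 * m - 1 + 1 = 2 * w - 3 * m := by omega
    have e2 := sqU_ch2 (2 * w - 3 * m - 1) r
    rw [hM] at e2
    have cM : ((2 * w - 3 * m - 1 : ℕ) : ℚ) = 2 * (w : ℚ) - 3 * m - 1 := by
      rw [Nat.cast_sub (by omega), Nat.cast_sub (by omega)]
      push_cast
      ring
    rw [cM] at e2
    have h2 : 2 * (w : ℚ) - 3 * ((m + (r + 1) : ℕ) : ℚ) ≠ 0 := sqU_wne2 h
    rw [Nat.add_sub_cancel] at hc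
    set V := UE 0 w m (m + (r + 1))
    set P1 := ∏ j ∈ Finset.range (r + 1), (2 * (w : ℚ) - 2 * m - 1 - 2 * j)
    set P2 := ∏ j ∈ Finset.range (r + 1), (2 * (j : ℚ) + 1)
    set c1 := (Nat.choose (w - 2 * m - 1) (r + 1) : ℚ)
    set B0 := (Nat.choose (2 * w - 3 * m - 1) r : ℚ)
    push_cast at h2 e2 ⊢
    set BM := (Nat.choose (2 * w - 3 * m) (r + 1) : ℚ)
    set c2 := (Nat.choose (m + (r + 1)) (2 * (r + 1)) : ℚ)
    rw [div_mul_eq_mul_div, div_mul_eq_mul_div, div_mul_eq_mul_div, div_eq_iff h2]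
    linear_combination (2 * (w : ℚ) - 3 * m) * hc +
      3 * ((-1) ^ (r + 1) * P2 * c2) * e2

private theorem sqU_hat {e w m : ℕ} (he : e ≤ 1) (h : 3 * (m + 1) + e ≤ w)
    (hw : w % 2 = 1) (hme : (m + e) % 2 = 1) :
    (2 : ℤ) ^ 2 ∣ (Nat.choose (m + 1) (2 * 1) : ℤ) *
          (if e = 0 then (Nat.choose (2 * w - 3 * m) 1 : ℤ) -
            3 * (Nat.choose (2 * w - 3 * m - 1) (1 - 1) : ℤ)
            else (Nat.choose (2 * w - 3 * m) 1 : ℤ)) := by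
  obtain ⟨v, hv⟩ : ∃ v, w = 2 * v + 1 := ⟨w / 2, by omega⟩
  interval_cases e
  · obtain ⟨r, hr⟩ : ∃ r, m = 2 * r + 1 := ⟨m / 2, by omega⟩
    have h1 : Nat.choose (m + 1) (2 * 1) = (r + 1) * (2 * r + 1) := by
      rw [mul_one, Nat.choose_two_right, hr]
      rw [show (2 * r + 1 + 1) * (2 * r + 1 + 1 - 1) = (r + 1) * (2 * r + 1) * 2 by
        rw [Nat.add_sub_cancel]; ring]
      exact Nat.mul_div_cancel _ (by norm_num)
    have h2 : (((2 * w - 3 * m : ℕ)) : ℤ) = 2 * (w : ℤ) - 3 * m := by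
      rw [Nat.cast_sub (by omega)]
      push_cast
      ring
    simp only [if_true]
    rw [h1, Nat.choose_one_right, Nat.sub_self, Nat.choose_zero_right, h2, hv, hr]
    push_cast
    rcases Nat.even_or_odd' r with ⟨q, rfl | rfl⟩
    · refine ⟨(2 * q + 1) * (4 * q + 1) * ((v : ℤ) - 3 * q - 1), ?_⟩
      push_cast
      ring
    · refine ⟨(q + 1) * (4 * q + 3) * (2 * (v : ℤ) - 6 * q - 5), ?_⟩
      push_cast
      ring
  · obtain ⟨r, hr⟩ : ∃ r, m = 2 * r := ⟨m / 2, by omega⟩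
    have h1 : Nat.choose (m + 1) (2 * 1) = r * (2 * r + 1) := by
      rw [mul_one, Nat.choose_two_right, hr]
      rw [show (2 * r + 1) * (2 * r + 1 - 1) = r * (2 * r + 1) * 2 by
        rw [Nat.add_sub_cancel]; ring]
      exact Nat.mul_div_cancel _ (by norm_num)
    have h2 : (((2 * w - 3 * m : ℕ)) : ℤ) = 2 * (w : ℤ) - 3 * m := by
      rw [Nat.cast_sub (by omega)]
      push_cast
      ring
    simp only [one_ne_zero, if_false]
    rw [h1, Nat.choose_one_right, h2, hv, hr]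
    push_cast
    rcases Nat.even_or_odd' r with ⟨q, rfl | rfl⟩
    · refine ⟨q * (4 * q + 1) * (2 * (v : ℤ) + 1 - 6 * q), ?_⟩
      push_cast
      ring
    · refine ⟨(2 * q + 1) * (4 * q + 3) * ((v : ℤ) - 3 * q - 1), ?_⟩
      push_cast
      ring

theorem UE_norm {e w m s : ℕ} (he : e ≤ 1) (hm : 1 ≤ m) (h : 3 * (m + s) + e ≤ w) :
    padicNorm 2 (UE e w m (m + s)) ≤ (2 : ℚ) ^ (qU e w m s + 2 * s) := by
  rcases Nat.eq_zero_or_pos s with rfl | hs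
  · rw [add_zero, UE_self he hm (by omega)]
    simp [qU, vc]
  · have hn := sqU_num he hm hs h
    obtain ⟨a, ha, hA⟩ := sqU_P1 w m s
    obtain ⟨p, hp, hP⟩ := sqU_P2 s
    rw [hA, hP] at hn
    have hc : Nat.choose (w - 2 * m - 1) s ≠ 0 := (Nat.choose_pos (by omega)).ne'
    have hvc : vc (w - 2 * m - 1 - s) s = padicValNat 2 (Nat.choose (w - 2 * m - 1) s) := by
      unfold vc
      rw [Nat.sub_add_cancel (by omega)]
    unfold qU
    rw [hvc]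
    split_ifs with hh
    · obtain ⟨h1, h2, h3⟩ := hh
      subst h3
      have := sqU_bound (k := 2) hc ha hp (sqU_hat he h h1 h2) hn
      refine this.trans (le_of_eq ?_)
      congr 1
      push_cast
      ring
    · have := sqU_bound (k := 0) hc ha hp (by simp) hn
      refine this.trans (le_of_eq ?_)
      congr 1
      push_cast
      ring

end MT2
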