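import Pool.Agent.Lib_MP_bfd926_sq.SQDs
import Pool.Agent.Lib_MP_bfd926_sq.SLb
import Pool.Agent.Lib_MP_bfd926_sq.SLeft

/-!
# The entries of the left vectors

`YE_norm`, `e = 0`, `t ≥ 1`: by `lv_closed` (SLb), `lv_self`, `v = w - 3 n`,
`YE 0 w n (n - t) * (odd) * C(w - 2 n + t, t) =
± (odd) * C(w - n + t, 2 t) * (C(v + t, t) + 2 * C(v + t - 1, t - 1))`.
The hat (`w` odd, `n` even, `t = 1`): the numerator is `C(w - n + 1, 2) * (v + 3)`; `w - n + 1` and
`v + 3 = w - 3 n + 3` are even, half of their sum is `w - 2 n + 2`, which is odd, so one of the halves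
is even: the numerator is divisible by 4.
`e = 1`: `YE 1 w n (n - t) = v / (v + 3 t) * YE 0 w n (n - t)` and
`v * (C(v + t, t) + 2 * C(v + t - 1, t - 1)) = (v + 3 t) * C(v + t - 1, t)`: again an integer. The hat
(`w`, `n` odd, `t = 1`): the numerator is `C(w - n + 1, 2) * v`, `w - n` and `v = w - 3 n` are even,
half of their difference is `n`, odd: divisible by 4.
All checked by computer.
-/

namespace MT2

private theorem sqy_half {n : ℕ} (hn : 1 ≤ n) : ((n : ℚ) - 1 / 2) ≠ 0 := by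
  have : (1 : ℚ) ≤ n := by exact_mod_cast hn
  intro h
  linarith

theorem YE_self {e w n : ℕ} (he : e ≤ 1) (hn : 1 ≤ n) (h : 3 * n + e ≤ w) : YE e w n n = 1 := by
  unfold YE
  have h1 : lv w n n ≠ 0 := by
    rw [lv_self]
    exact sqy_half hn
  rcases Nat.eq_zero_or_pos e with h0 | h0
  · rw [if_pos h0, div_self h1]
  · rw [if_neg (by omega), div_self h1, mul_one]
    apply div_self
    have h2 : ((3 * n + 1 : ℕ) : ℚ) ≤ w := by exact_mod_cast (by omega : 3 * n + 1 ≤ w)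
    push_cast at h2
    intro h3
    linarith

theorem YE_gt {e w n i : ℕ} (h : n < i) : YE e w n i = 0 := by
  unfold YE
  rw [lv_gt h, zero_div, mul_zero]
  split_ifs <;> rfl

private theorem sqy_norm_odd (z : ℤ) (hz : z % 2 = 1) : padicNorm 2 (z : ℚ) = 1 := by
  have h1 : ¬ ((2 : ℕ) : ℤ) ∣ z := by
    intro h
    have : (2 : ℤ) ∣ z := by exact_mod_cast h
    omega
  exact padicNorm.int_eq_one_iff z |>.2 h1

private theorem sqy_norm_choose (a t : ℕ) :
    padicNorm 2 (Nat.choose (a + t) t : ℚ) = (2 : ℚ) ^ (-(vc a t : ℤ)) := by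
  have h0 : (Nat.choose (a + t) t : ℚ) ≠ 0 := by
    exact_mod_cast (Nat.choose_pos (by omega : t ≤ a + t)).ne'
  rw [padicNorm.eq_zpow_of_nonzero h0, padicValRat.of_nat]
  rfl

private theorem sqy_four {a b : ℕ} (c : ℕ) (h : (a + b) % 2 = 1) : 4 ∣ a * c * (2 * b) := by
  rcases Nat.even_or_odd' a with ⟨k, hk | hk⟩
  · subst hk
    exact ⟨k * c * b, by ring⟩
  · obtain ⟨l, hl⟩ : ∃ l, b = 2 * l := ⟨b / 2, by omega⟩
    subst hl
    exact ⟨a * c * l, by ring⟩

private theorem sqy_hat0 {w n : ℕ} (hw : w % 2 = 1) (hn : n % 2 = 0) (h : 3 * n ≤ w) :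
    4 ∣ Nat.choose (w - n + 1) 2 * (w - 3 * n + 1 + 2) := by
  obtain ⟨a, ha⟩ : ∃ a, w - n + 1 = 2 * a := ⟨(w - n + 1) / 2, by omega⟩
  obtain ⟨b, hb⟩ : ∃ b, w - 3 * n + 1 + 2 = 2 * b := ⟨(w - 3 * n + 3) / 2, by omega⟩
  have h1 : Nat.choose (2 * a) 2 = a * (2 * a - 1) := by
    rw [Nat.choose_two_right, mul_assoc, Nat.mul_div_cancel_left _ (by norm_num)]
  rw [ha, hb, h1]
  exact sqy_four _ (by omega)

private theorem sqy_hat1 {w n : ℕ} (hw : w % 2 = 1) (hn : n % 2 = 1) (h : 3 * n ≤ w) :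
    4 ∣ Nat.choose (w - n + 1) 2 * (w - 3 * n) := by
  obtain ⟨a, ha⟩ : ∃ a, w - n = 2 * a := ⟨(w - n) / 2, by omega⟩
  obtain ⟨b, hb⟩ : ∃ b, w - 3 * n = 2 * b := ⟨(w - 3 * n) / 2, by omega⟩
  have h1 : Nat.choose (2 * a + 1) 2 = a * (2 * a + 1) := by
    rw [Nat.choose_two_right, Nat.add_sub_cancel, show (2 * a + 1) * (2 * a) =
      2 * (a * (2 * a + 1)) by ring, Nat.mul_div_cancel_left _ (by norm_num)]
  rw [ha, hb, h1]
  exact sqy_four _ (by omega)

private theorem sqy_choose (v u : ℕ) :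
    (v : ℚ) * ((Nat.choose (v + (u + 1)) (u + 1) : ℚ) + 2 * (Nat.choose (v + u) u : ℚ)) =
      (v + 3 * (u + 1)) * (Nat.choose (v + u) (u + 1) : ℚ) := by
  have h1 := Nat.choose_succ_right_eq (v + u) u
  rw [Nat.add_sub_cancel] at h1
  have h1' : (Nat.choose (v + u) (u + 1) : ℚ) * (u + 1) = (Nat.choose (v + u) u : ℚ) * v := by
    exact_mod_cast h1
  have h2 : (Nat.choose (v + (u + 1)) (u + 1) : ℚ) =
      (Nat.choose (v + u) u : ℚ) + (Nat.choose (v + u) (u + 1) : ℚ) := by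
    have := Nat.choose_succ_succ (v + u) u
    exact_mod_cast this
  rw [h2]
  linear_combination -3 * h1'

/-- the quotient formula -/
private theorem sqy_quot {e w n t : ℕ} (he : e ≤ 1) (h1 : 1 ≤ t) (ht : t < n) (h : 3 * n + e ≤ w) :
    ∃ Z O : ℤ, O % 2 = 1 ∧
      YE e w n (n - t) = (Z : ℚ) / ((O : ℚ) * (Nat.choose (w - 2 * n + t) t : ℚ)) ∧
      ((w % 2 = 1 ∧ (n + e) % 2 = 0 ∧ t = 1) → (4 : ℤ) ∣ Z) := by
  have hn : 3 * n ≤ w := by omega
  have hcl := lv_closed hn h1 ht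
  have hhalf := sqy_half (n := n) (by omega)
  obtain ⟨O, hO, hOodd⟩ : ∃ O : ℤ, (O : ℚ) = ∏ m ∈ Finset.range t, (2 * (n : ℚ) - 1 - 2 * m) ∧
      O % 2 = 1 := by
    refine ⟨∏ m ∈ Finset.range t, (2 * (n : ℤ) - 1 - 2 * m), by push_cast; rfl, ?_⟩
    refine Finset.prod_induction (fun m : ℕ => (2 * (n : ℤ) - 1 - 2 * m)) (fun z : ℤ => z % 2 = 1)
      (fun a b ha hb => by rw [Int.mul_emod, ha, hb]; rfl) (by norm_num) (fun m _ => by omega)
  have hB0 : (Nat.choose (w - 2 * n + t) t : ℚ) ≠ 0 := by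
    exact_mod_cast (Nat.choose_pos (by omega : t ≤ w - 2 * n + t)).ne'
  have hO0 : (O : ℚ) ≠ 0 := by
    intro h0
    have : O = 0 := by exact_mod_cast h0
    omega
  rw [← hO] at hcl
  have hq : lv w n (n - t) / lv w n n = ((-1) ^ t * (∏ m ∈ Finset.range t, (2 * (m : ℚ) + 1)) *
        (Nat.choose (w - n + t) (2 * t) : ℚ) *
        ((Nat.choose (w - 3 * n + t) t : ℚ) + 2 * (Nat.choose (w - 3 * n + t - 1) (t - 1) : ℚ))) /
        ((O : ℚ) * (Nat.choose (w - 2 * n + t) t : ℚ)) := by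
    rw [lv_self, div_eq_div_iff hhalf (mul_ne_zero hO0 hB0), ← mul_assoc, hcl]
    ring
  rcases Nat.eq_zero_or_pos e with h0 | h0
  · refine ⟨(-1) ^ t * (∏ m ∈ Finset.range t, (2 * (m : ℤ) + 1)) *
        (Nat.choose (w - n + t) (2 * t) : ℤ) *
        ((Nat.choose (w - 3 * n + t) t : ℤ) + 2 * (Nat.choose (w - 3 * n + t - 1) (t - 1) : ℤ)), O,
        hOodd, ?_, ?_⟩
    · unfold YE
      rw [if_pos h0, hq]
      push_cast
      rfl
    · rintro ⟨hw, hne, rfl⟩
      obtain ⟨k, hk⟩ := sqy_hat0 hw (by omega) hn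
      refine ⟨-k, ?_⟩
      have hk' : (Nat.choose (w - n + 1) 2 : ℤ) * (((w - 3 * n : ℕ) : ℤ) + 1 + 2) = 4 * k := by
        exact_mod_cast hk
      rw [Finset.prod_range_one, Nat.sub_self, Nat.choose_zero_right, Nat.choose_one_right, mul_one]
      push_cast
      linear_combination -hk'
  · have he1 : e = 1 := by omega
    subst he1
    obtain ⟨u, rfl⟩ : ∃ u, t = u + 1 := ⟨t - 1, by omega⟩
    have hc := sqy_choose (w - 3 * n) u
    refine ⟨(-1) ^ (u + 1) * (∏ m ∈ Finset.range (u + 1), (2 * (m : ℤ) + 1)) *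
        (Nat.choose (w - n + (u + 1)) (2 * (u + 1)) : ℤ) *
        (Nat.choose (w - 3 * n + u) (u + 1) : ℤ), O, hOodd, ?_, ?_⟩
    · unfold YE
      rw [if_neg (by norm_num), hq]
      have hv : ((w - 3 * n : ℕ) : ℚ) = (w : ℚ) - 3 * n := by
        rw [Nat.cast_sub hn]
        push_cast
        ring
      have hnt : ((n - (u + 1) : ℕ) : ℚ) = (n : ℚ) - (u + 1) := by
        rw [Nat.cast_sub (by omega)]
        push_cast
        ring
      have hd : (w : ℚ) - 3 * ((n - (u + 1) : ℕ) : ℚ) ≠ 0 := by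
        rw [hnt]
        have h3 : (3 * (n : ℚ)) ≤ w := by exact_mod_cast hn
        have h4 : (0 : ℚ) ≤ u := Nat.cast_nonneg u
        intro h5
        linarith
      rw [hv] at hc
      rw [show w - 3 * n + (u + 1) - 1 = w - 3 * n + u by omega, Nat.add_sub_cancel]
      rw [div_mul_div_comm, div_eq_div_iff (mul_ne_zero hd (mul_ne_zero hO0 hB0))
        (mul_ne_zero hO0 hB0), hnt]
      push_cast
      linear_combination ((-1) ^ (u + 1) * (∏ m ∈ Finset.range (u + 1), (2 * (m : ℚ) + 1)) *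
        (Nat.choose (w - n + (u + 1)) (2 * (u + 1)) : ℚ)) *
        ((O : ℚ) * (Nat.choose (w - 2 * n + (u + 1)) (u + 1) : ℚ)) * hc
    · rintro ⟨hw, hne, hu⟩
      have hu0 : u = 0 := by omega
      subst hu0
      obtain ⟨k, hk⟩ := sqy_hat1 hw (by omega) hn
      refine ⟨-k, ?_⟩
      have hk' : (Nat.choose (w - n + 1) 2 : ℤ) * ((w - 3 * n : ℕ) : ℤ) = 4 * k := by
        exact_mod_cast hk
      rw [Finset.prod_range_one, Nat.add_zero, Nat.choose_one_right, mul_one]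
      push_cast
      linear_combination -hk'

theorem YE_norm {e w n t : ℕ} (he : e ≤ 1) (ht : t < n) (h : 3 * n + e ≤ w) :
    padicNorm 2 (YE e w n (n - t)) ≤ (2 : ℚ) ^ (pX e w n t + 2 * t) := by
  rcases Nat.eq_zero_or_pos t with h0 | h0
  · subst h0
    rw [Nat.sub_zero, YE_self he (by omega) h]
    simp [pX, vc_zero]
  · obtain ⟨Z, O, hO, hY, hhat⟩ := sqy_quot he h0 ht h
    rw [hY, padicNorm.div, padicNorm.mul, sqy_norm_odd O hO, one_mul, sqy_norm_choose,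
      zpow_neg, div_inv_eq_mul]
    unfold pX
    split_ifs with hc
    · have h4 : padicNorm 2 (Z : ℚ) ≤ (2 : ℚ) ^ (-2 : ℤ) := by
        have h5 := (padicNorm.dvd_iff_norm_le (p := 2) (n := 2) (z := Z)).1 (by
          have := hhat hc
          norm_num
          exact this)
        simpa using h5
      calc padicNorm 2 (Z : ℚ) * (2 : ℚ) ^ (vc (w - 2 * n) t : ℤ)
          ≤ (2 : ℚ) ^ (-2 : ℤ) * (2 : ℚ) ^ (vc (w - 2 * n) t : ℤ) :=
            mul_le_mul_of_nonneg_right h4 (by positivity)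
        _ = _ := by
            rw [← zpow_add₀ (by norm_num)]
            congr 1
            ring
    · have h4 : padicNorm 2 (Z : ℚ) ≤ 1 := padicNorm.of_int Z
      calc padicNorm 2 (Z : ℚ) * (2 : ℚ) ^ (vc (w - 2 * n) t : ℤ)
          ≤ 1 * (2 : ℚ) ^ (vc (w - 2 * n) t : ℤ) :=
            mul_le_mul_of_nonneg_right h4 (by positivity)
        _ = _ := by
            rw [one_mul]
            congr 1
            ring

end MT2
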