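import Pool.Agent.Lib_MP_bfd926_sq.SQX
import Pool.Agent.Lib_MP_bfd926_sq.SQY
import Pool.Agent.Lib_MP_bfd926_sq.SQL
import Pool.Agent.Lib_MP_bfd926_sq.SQU

/-!
# The triangular factorisation and the block formulas

`YL_one`: `∑ m ∈ Icc 1 n, YE n m * LE m n' = (∑ m, ∑ j ∈ Icc 1 n', YE n m * NE m j * XE j n') / DE n'`.
If `n < n'`: `LE m n' = 0` for all `m ≤ n` (`LE_lt`). If `n = n'` only `m = n` remains (`LE_self`,
`YE_self`). If `n' < n`: sum over `m` first: `∑ m ∈ Icc 1 n, YE n m * NE m j = DE n * UE n j = 0` for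
`j ≤ n' < n` (`UE_lt`, `DE_ne`).
`UX_one` in the same way. The matrices (indices `1, …, d`) `Y`, `L` are inverse to each other, `U`, `X`
too (`Matrix.mul_eq_one_comm`), this gives `LY_one`, `XU_one`; `LDU`: `N = L * Y * N = L * D * U`
(`UE` is `D⁻¹ * Y * N`: `∑ i ∈ Icc 1 n, YE n i * NE i m = DE n * UE n m`).
`Pn` is the inverse of the block `b × b`. `Pn_P`: `∑ j, NE m j * Pn j n = ∑ i (∑ j NE m j * XE j i) / DE i *
YE i n`, and `∑ j ∈ Icc 1 b, NE m j * XE j i = ∑ j ∈ Icc 1 i, … = DE i * LE m i` (`XE_gt`). `Pn_Q` in the same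
way. `Pn_P'`, `Pn_Q'`: the case `m = b + 1`, by `LY_one`, `XU_one`. `Pn_one`: `Pn_P` and `LY_one`.
`Pn_S`: `∑ j n, NE m j * Pn j n * NE n m' = ∑ i ∈ Icc 1 b, LE m i * DE i * UE i m'`, and `LDU`.
-/

namespace MT2

/-- The inverse of the block with the indices `1, …, b`. -/
noncomputable def Pn (e w b j n : ℕ) : ℚ :=
  ∑ i ∈ Finset.Icc 1 b, XE e w j i * YE e w i n / DE e w i

private theorem SQLU_comm (s : Finset ℕ) (f g : ℕ → ℕ → ℚ)
    (h : ∀ i ∈ s, ∀ j ∈ s, ∑ k ∈ s, f i k * g k j = if i = j then 1 else 0) :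
    ∀ i ∈ s, ∀ j ∈ s, ∑ k ∈ s, g i k * f k j = if i = j then 1 else 0 := by
  classical
  let F : Matrix s s ℚ := fun i j => f i j
  let G : Matrix s s ℚ := fun i j => g i j
  have h1 : F * G = 1 := by
    ext i j
    rw [Matrix.mul_apply, Matrix.one_apply]
    have h2 : ∑ k : s, F i k * G k j = ∑ k ∈ s, f i k * g k j :=
      Finset.sum_coe_sort s (fun k => f i k * g k j)
    rw [h2, h i i.2 j j.2]
    by_cases hij : i = j
    · rw [if_pos hij, if_pos (congrArg Subtype.val hij)]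
    · rw [if_neg hij, if_neg (fun h3 => hij (Subtype.ext h3))]
  have h2 : G * F = 1 := mul_eq_one_comm.mp h1
  intro i hi j hj
  have h3 := congrFun (congrFun h2 ⟨i, hi⟩) ⟨j, hj⟩
  rw [Matrix.mul_apply, Matrix.one_apply] at h3
  have h4 : ∑ k : s, G ⟨i, hi⟩ k * F k ⟨j, hj⟩ = ∑ k ∈ s, g i k * f k j :=
    Finset.sum_coe_sort s (fun k => g i k * f k j)
  rw [h4] at h3
  rw [h3]
  by_cases hij : i = j
  · rw [if_pos hij, if_pos (Subtype.ext hij)]
  · rw [if_neg hij, if_neg (fun h3 => hij (congrArg Subtype.val h3))]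

private theorem SQLU_ext {n d : ℕ} (h : n ≤ d) (f : ℕ → ℚ) (h0 : ∀ i, n < i → i ≤ d → f i = 0) :
    ∑ i ∈ Finset.Icc 1 n, f i = ∑ i ∈ Finset.Icc 1 d, f i := by
  refine Finset.sum_subset (Finset.Icc_subset_Icc_right h) (fun i hi hi2 => ?_)
  rw [Finset.mem_Icc] at hi
  refine h0 i ?_ hi.2
  by_contra h3
  exact hi2 (Finset.mem_Icc.mpr ⟨hi.1, by omega⟩)

/-- `YE` times `NE` is `DE` times `UE`. -/
private theorem SQLU_YN {e w i m : ℕ} (he : e ≤ 1) (hi : 1 ≤ i) (h : 3 * i + e ≤ w) :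
    ∑ k ∈ Finset.Icc 1 i, YE e w i k * (NE e w k m : ℚ) = DE e w i * UE e w i m := by
  have hD := DE_ne he hi h
  unfold UE
  field_simp

/-- `NE` times `XE` is `DE` times `LE`. -/
private theorem SQLU_NX {e w i m : ℕ} (he : e ≤ 1) (hi : 1 ≤ i) (h : 3 * i + e ≤ w) :
    ∑ j ∈ Finset.Icc 1 i, (NE e w m j : ℚ) * XE e w j i = DE e w i * LE e w m i := by
  have hD := DE_ne he hi h
  unfold LE
  field_simp

private theorem SQLU_YN' {e w b i m : ℕ} (he : e ≤ 1) (hi : 1 ≤ i) (hib : i ≤ b)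
    (h : 3 * b + e ≤ w) :
    ∑ k ∈ Finset.Icc 1 b, YE e w i k * (NE e w k m : ℚ) = DE e w i * UE e w i m := by
  rw [← SQLU_YN he hi (by omega)]
  refine (SQLU_ext hib _ (fun k hk _ => ?_)).symm
  rw [YE_gt hk, zero_mul]

private theorem SQLU_NX' {e w b i m : ℕ} (he : e ≤ 1) (hi : 1 ≤ i) (hib : i ≤ b)
    (h : 3 * b + e ≤ w) :
    ∑ j ∈ Finset.Icc 1 b, (NE e w m j : ℚ) * XE e w j i = DE e w i * LE e w m i := by
  rw [← SQLU_NX he hi (by omega)]
  refine (SQLU_ext hib _ (fun k hk _ => ?_)).symm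
  rw [XE_gt hk, mul_zero]

theorem YL_one {e w n n' : ℕ} (he : e ≤ 1) (hn : 1 ≤ n) (hn' : 1 ≤ n') (h : 3 * n + e ≤ w)
    (h' : 3 * n' + e ≤ w) :
    ∑ m ∈ Finset.Icc 1 n, YE e w n m * LE e w m n' = if n = n' then 1 else 0 := by
  rcases lt_trichotomy n n' with hlt | heq | hgt
  · rw [if_neg (by omega)]
    refine Finset.sum_eq_zero (fun m hm => ?_)
    rw [Finset.mem_Icc] at hm
    rw [LE_lt he hm.1 (by omega) h', mul_zero]
  · subst heq
    rw [if_pos rfl, Finset.sum_eq_single n]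
    · rw [YE_self he hn h, LE_self he hn h, one_mul]
    · intro m hm hmn
      rw [Finset.mem_Icc] at hm
      rw [LE_lt he hm.1 (by omega) h, mul_zero]
    · intro h3
      exact absurd (Finset.mem_Icc.mpr ⟨hn, le_refl n⟩) h3
  · rw [if_neg (by omega)]
    have hD := DE_ne he hn' h'
    have h1 : ∀ m ∈ Finset.Icc 1 n, YE e w n m * LE e w m n' =
        (∑ j ∈ Finset.Icc 1 n', YE e w n m * ((NE e w m j : ℚ) * XE e w j n')) / DE e w n' := by
      intro m _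
      rw [LE, ← Finset.mul_sum, mul_div_assoc]
    rw [Finset.sum_congr rfl h1, ← Finset.sum_div, Finset.sum_comm]
    have h2 : ∀ j ∈ Finset.Icc 1 n', ∑ m ∈ Finset.Icc 1 n,
        YE e w n m * ((NE e w m j : ℚ) * XE e w j n') = 0 := by
      intro j hj
      rw [Finset.mem_Icc] at hj
      have h3 : ∀ m ∈ Finset.Icc 1 n, YE e w n m * ((NE e w m j : ℚ) * XE e w j n') =
          YE e w n m * (NE e w m j : ℚ) * XE e w j n' := fun m _ => by ring
      rw [Finset.sum_congr rfl h3, ← Finset.sum_mul, SQLU_YN he hn h,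
        UE_lt he hj.1 (by omega) h, mul_zero, zero_mul]
    rw [Finset.sum_eq_zero h2, zero_div]

theorem UX_one {e w n n' : ℕ} (he : e ≤ 1) (hn : 1 ≤ n) (hn' : 1 ≤ n') (h : 3 * n + e ≤ w)
    (h' : 3 * n' + e ≤ w) :
    ∑ m ∈ Finset.Icc 1 n', UE e w n m * XE e w m n' = if n = n' then 1 else 0 := by
  rcases lt_trichotomy n n' with hlt | heq | hgt
  · rw [if_neg (by omega)]
    have hD := DE_ne he hn h
    have h1 : ∀ m ∈ Finset.Icc 1 n', UE e w n m * XE e w m n' =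
        (∑ i ∈ Finset.Icc 1 n, YE e w n i * (NE e w i m : ℚ) * XE e w m n') / DE e w n := by
      intro m _
      rw [UE, ← Finset.sum_mul, div_mul_eq_mul_div]
    rw [Finset.sum_congr rfl h1, ← Finset.sum_div, Finset.sum_comm]
    have h2 : ∀ i ∈ Finset.Icc 1 n, ∑ m ∈ Finset.Icc 1 n',
        YE e w n i * (NE e w i m : ℚ) * XE e w m n' = 0 := by
      intro i hi
      rw [Finset.mem_Icc] at hi
      have h3 : ∀ m ∈ Finset.Icc 1 n', YE e w n i * (NE e w i m : ℚ) * XE e w m n' =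
          YE e w n i * ((NE e w i m : ℚ) * XE e w m n') := fun m _ => by ring
      rw [Finset.sum_congr rfl h3, ← Finset.mul_sum, SQLU_NX he hn' h',
        LE_lt he hi.1 (by omega) h', mul_zero, mul_zero]
    rw [Finset.sum_eq_zero h2, zero_div]
  · subst heq
    rw [if_pos rfl, Finset.sum_eq_single n]
    · rw [UE_self he hn h, XE_self he hn h, one_mul]
    · intro m hm hmn
      rw [Finset.mem_Icc] at hm
      rw [UE_lt he hm.1 (by omega) h, zero_mul]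
    · intro h3
      exact absurd (Finset.mem_Icc.mpr ⟨hn, le_refl n⟩) h3
  · rw [if_neg (by omega)]
    refine Finset.sum_eq_zero (fun m hm => ?_)
    rw [Finset.mem_Icc] at hm
    rw [UE_lt he hm.1 (by omega) h, zero_mul]

private theorem SQLU_LY {e w d m n : ℕ} (he : e ≤ 1) (hm : 1 ≤ m) (hn : 1 ≤ n) (hmd : m ≤ d)
    (hnd : n ≤ d) (h : 3 * d + e ≤ w) :
    ∑ i ∈ Finset.Icc 1 d, LE e w m i * YE e w i n = if m = n then 1 else 0 := by
  refine SQLU_comm (Finset.Icc 1 d) (fun i k => YE e w i k) (fun i k => LE e w i k) ?_ m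
    (Finset.mem_Icc.mpr ⟨hm, hmd⟩) n (Finset.mem_Icc.mpr ⟨hn, hnd⟩)
  intro i hi j hj
  rw [Finset.mem_Icc] at hi hj
  rw [← YL_one (w := w) he hi.1 hj.1 (by omega) (by omega)]
  refine (SQLU_ext hi.2 _ (fun k hk _ => ?_)).symm
  rw [YE_gt hk, zero_mul]

private theorem SQLU_XU {e w d m n : ℕ} (he : e ≤ 1) (hm : 1 ≤ m) (hn : 1 ≤ n) (hmd : m ≤ d)
    (hnd : n ≤ d) (h : 3 * d + e ≤ w) :
    ∑ i ∈ Finset.Icc 1 d, XE e w m i * UE e w i n = if m = n then 1 else 0 := by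
  refine SQLU_comm (Finset.Icc 1 d) (fun i k => UE e w i k) (fun i k => XE e w i k) ?_ m
    (Finset.mem_Icc.mpr ⟨hm, hmd⟩) n (Finset.mem_Icc.mpr ⟨hn, hnd⟩)
  intro i hi j hj
  rw [Finset.mem_Icc] at hi hj
  rw [← UX_one (w := w) he hi.1 hj.1 (by omega) (by omega)]
  refine (SQLU_ext hj.2 _ (fun k hk _ => ?_)).symm
  rw [XE_gt hk, mul_zero]

theorem LY_one {e w m n : ℕ} (he : e ≤ 1) (hm : 1 ≤ m) (hn : 1 ≤ n) (h : 3 * m + e ≤ w)
    (h' : 3 * n + e ≤ w) :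
    ∑ i ∈ Finset.Icc 1 m, LE e w m i * YE e w i n = if m = n then 1 else 0 := by
  rw [← SQLU_LY (w := w) (d := max m n) he hm hn (le_max_left _ _) (le_max_right _ _) (by omega)]
  refine SQLU_ext (le_max_left _ _) _ (fun i hi hi2 => ?_)
  rw [LE_lt he hm hi (by omega), zero_mul]

theorem XU_one {e w m n : ℕ} (he : e ≤ 1) (hm : 1 ≤ m) (hn : 1 ≤ n) (h : 3 * m + e ≤ w)
    (h' : 3 * n + e ≤ w) :
    ∑ i ∈ Finset.Icc 1 n, XE e w m i * UE e w i n = if m = n then 1 else 0 := by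
  rw [← SQLU_XU (w := w) (d := max m n) he hm hn (le_max_left _ _) (le_max_right _ _) (by omega)]
  refine SQLU_ext (le_max_right _ _) _ (fun i hi hi2 => ?_)
  rw [UE_lt he hn hi (by omega), mul_zero]

theorem LDU {e w d m n : ℕ} (he : e ≤ 1) (hm : 1 ≤ m) (hn : 1 ≤ n) (hmd : m ≤ d) (hnd : n ≤ d)
    (h : 3 * d + e ≤ w) :
    (NE e w m n : ℚ) = ∑ i ∈ Finset.Icc 1 d, LE e w m i * DE e w i * UE e w i n := by
  have h1 : ∀ i ∈ Finset.Icc 1 d, LE e w m i * DE e w i * UE e w i n =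
      ∑ k ∈ Finset.Icc 1 d, LE e w m i * YE e w i k * (NE e w k n : ℚ) := by
    intro i hi
    rw [Finset.mem_Icc] at hi
    rw [mul_assoc, ← SQLU_YN' he hi.1 hi.2 h, Finset.mul_sum]
    exact Finset.sum_congr rfl (fun k _ => by ring)
  rw [Finset.sum_congr rfl h1, Finset.sum_comm]
  have h2 : ∀ k ∈ Finset.Icc 1 d, ∑ i ∈ Finset.Icc 1 d,
      LE e w m i * YE e w i k * (NE e w k n : ℚ) = if k = m then (NE e w k n : ℚ) else 0 := by
    intro k hk
    rw [Finset.mem_Icc] at hk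
    rw [← Finset.sum_mul, SQLU_LY he hm hk.1 hmd hk.2 h]
    by_cases hkm : k = m
    · rw [if_pos hkm.symm, if_pos hkm, one_mul]
    · rw [if_neg (fun h3 => hkm h3.symm), if_neg hkm, zero_mul]
  rw [Finset.sum_congr rfl h2, Finset.sum_ite_eq' (Finset.Icc 1 d) m,
    if_pos (Finset.mem_Icc.mpr ⟨hm, hmd⟩)]

theorem Pn_P {e w b m n : ℕ} (he : e ≤ 1) (hm : 1 ≤ m) (hn : 1 ≤ n) (hnb : n ≤ b)
    (hb : 3 * b + e ≤ w) (h : 3 * m + e ≤ w) :
    ∑ j ∈ Finset.Icc 1 b, (NE e w m j : ℚ) * Pn e w b j n =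
      ∑ i ∈ Finset.Icc 1 b, LE e w m i * YE e w i n := by
  have h1 : ∀ j ∈ Finset.Icc 1 b, (NE e w m j : ℚ) * Pn e w b j n =
      ∑ i ∈ Finset.Icc 1 b, (NE e w m j : ℚ) * XE e w j i * (YE e w i n / DE e w i) := by
    intro j _
    rw [Pn, Finset.mul_sum]
    exact Finset.sum_congr rfl (fun i _ => by ring)
  rw [Finset.sum_congr rfl h1, Finset.sum_comm]
  refine Finset.sum_congr rfl (fun i hi => ?_)
  rw [Finset.mem_Icc] at hi
  have hD := DE_ne he hi.1 (show 3 * i + e ≤ w by omega)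
  rw [← Finset.sum_mul, SQLU_NX' he hi.1 hi.2 hb]
  field_simp

theorem Pn_Q {e w b m n : ℕ} (he : e ≤ 1) (hm : 1 ≤ m) (hn : 1 ≤ n) (hnb : n ≤ b)
    (hb : 3 * b + e ≤ w) (h : 3 * m + e ≤ w) :
    ∑ j ∈ Finset.Icc 1 b, Pn e w b n j * (NE e w j m : ℚ) =
      ∑ i ∈ Finset.Icc 1 b, XE e w n i * UE e w i m := by
  have h1 : ∀ j ∈ Finset.Icc 1 b, Pn e w b n j * (NE e w j m : ℚ) =
      ∑ i ∈ Finset.Icc 1 b, XE e w n i / DE e w i * (YE e w i j * (NE e w j m : ℚ)) := by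
    intro j _
    rw [Pn, Finset.sum_mul]
    exact Finset.sum_congr rfl (fun i _ => by ring)
  rw [Finset.sum_congr rfl h1, Finset.sum_comm]
  refine Finset.sum_congr rfl (fun i hi => ?_)
  rw [Finset.mem_Icc] at hi
  have hD := DE_ne he hi.1 (show 3 * i + e ≤ w by omega)
  rw [← Finset.mul_sum, SQLU_YN' he hi.1 hi.2 hb]
  field_simp

theorem Pn_one {e w b m n : ℕ} (he : e ≤ 1) (hm : 1 ≤ m) (hn : 1 ≤ n) (hmb : m ≤ b) (hnb : n ≤ b)
    (hb : 3 * b + e ≤ w) :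
    ∑ j ∈ Finset.Icc 1 b, (NE e w m j : ℚ) * Pn e w b j n = if m = n then 1 else 0 := by
  rw [Pn_P he hm hn hnb hb (by omega), SQLU_LY he hm hn hmb hnb hb]

theorem Pn_P' {e w b n : ℕ} (he : e ≤ 1) (hn : 1 ≤ n) (hnb : n ≤ b)
    (hb : 3 * (b + 1) + e ≤ w) :
    ∑ j ∈ Finset.Icc 1 b, (NE e w (b + 1 : ℕ) j : ℚ) * Pn e w b j n = -YE e w (b + 1) n := by
  rw [Pn_P he (by omega) hn hnb (by omega) hb]
  have h1 := LY_one (m := b + 1) (n := n) he (by omega) hn hb (by omega)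
  rw [Finset.sum_Icc_succ_top (by omega), if_neg (by omega),
    LE_self he (by omega) hb, one_mul] at h1
  linarith

theorem Pn_Q' {e w b n : ℕ} (he : e ≤ 1) (hn : 1 ≤ n) (hnb : n ≤ b)
    (hb : 3 * (b + 1) + e ≤ w) :
    ∑ j ∈ Finset.Icc 1 b, Pn e w b n j * (NE e w j (b + 1 : ℕ) : ℚ) = -XE e w n (b + 1) := by
  rw [Pn_Q he (by omega) hn hnb (by omega) hb]
  have h1 := XU_one (m := n) (n := b + 1) he hn (by omega) (by omega) hb
  rw [Finset.sum_Icc_succ_top (by omega), if_neg (by omega),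
    UE_self he (by omega) hb, mul_one] at h1
  linarith

theorem Pn_S {e w b d m n : ℕ} (he : e ≤ 1) (hm : b < m) (hn : b < n) (hmd : m ≤ d) (hnd : n ≤ d)
    (h : 3 * d + e ≤ w) :
    (NE e w m n : ℚ) - ∑ i ∈ Finset.Icc 1 b, (∑ j ∈ Finset.Icc 1 b, (NE e w m j : ℚ) *
        Pn e w b j i) * (NE e w i n : ℚ) =
      ∑ i ∈ Finset.Ioc b d, LE e w m i * DE e w i * UE e w i n := by
  have h1 : ∑ i ∈ Finset.Icc 1 b, (∑ j ∈ Finset.Icc 1 b, (NE e w m j : ℚ) *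
        Pn e w b j i) * (NE e w i n : ℚ) =
      ∑ i ∈ Finset.Icc 1 b, LE e w m i * DE e w i * UE e w i n := by
    have h2 : ∀ i ∈ Finset.Icc 1 b, (∑ j ∈ Finset.Icc 1 b, (NE e w m j : ℚ) *
        Pn e w b j i) * (NE e w i n : ℚ) =
        ∑ k ∈ Finset.Icc 1 b, LE e w m k * (YE e w k i * (NE e w i n : ℚ)) := by
      intro i hi
      rw [Finset.mem_Icc] at hi
      rw [Pn_P he (by omega) hi.1 hi.2 (by omega) (by omega), Finset.sum_mul]
      exact Finset.sum_congr rfl (fun k _ => by ring)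
    rw [Finset.sum_congr rfl h2, Finset.sum_comm]
    refine Finset.sum_congr rfl (fun k hk => ?_)
    rw [Finset.mem_Icc] at hk
    rw [← Finset.mul_sum, SQLU_YN' he hk.1 hk.2 (by omega)]
    ring
  have h3 : Finset.Icc 1 d = Finset.Icc 1 b ∪ Finset.Ioc b d := by
    ext i
    simp only [Finset.mem_union, Finset.mem_Icc, Finset.mem_Ioc]
    omega
  have h4 : Disjoint (Finset.Icc 1 b) (Finset.Ioc b d) := by
    rw [Finset.disjoint_left]
    intro i hi hi2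
    rw [Finset.mem_Icc] at hi
    rw [Finset.mem_Ioc] at hi2
    omega
  rw [h1, LDU he (by omega) (by omega) hmd hnd h, h3, Finset.sum_union h4]
  ring

end MT2
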