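import Pool.Agent.Lib_MP_bfd926_sq.SQDs

/-!
# The valuations of the pivots: bounds and differences

`ph_lower`, `ph_upper`: `ds_le_log`, `ds_pos`, monotonicity of `Nat.log`, `Nat.log 2 (2 * w) = L + 1`.
`ph_diff`: with `D = m - n`, by `ds_add` and `vc_sum`
`ds (w - 3 m - e) - ds (w - 3 n - e) = vc (w - 3 m - e) (3 D) - ds (3 D)`,
`vc a t + v₂(t!) = ∑ u ∈ Ioc a (a + t), v₂(u)` and `v₂(t!) = t - ds t`
(`sub_one_mul_padicValNat_factorial`, or `ds_succ` summed up). It is perhaps easier to prove the case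
`m = n + 1` and to use induction on `m`: the case `m = n + 1` is `ds_succ` (three, three, two and two
times): `ph (n + 1) - ph n = 4 + (ds (x - 3) - ds x) + (ds (y - 3) - ds y) - (ds (z - 2) - ds z) -
(ds (z - 3) - ds (z - 1))` with `x = w - 3 n - e`, `y = 2 w - 3 n - 1 + e`, `z = w - 2 n`;
`ds (x - 3) - ds x = v₂(x) + v₂(x - 1) + v₂(x - 2) - 3`, `ds (z - 2) - ds z = v₂(z) + v₂(z - 1) - 2`.
All statements checked by computer.
-/

namespace MT2

theorem ph_lower {e w n : ℕ} (he : e ≤ 1) (hn : 1 ≤ n) (h : 3 * n + e ≤ w) :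
    (4 * n : ℤ) - 2 * Nat.log 2 w - 2 ≤ ph e w n := by
  unfold ph
  have h1 := ds_le_log (w - 2 * n)
  have h2 := ds_le_log (w - 2 * n - 1)
  have h3 : Nat.log 2 (w - 2 * n) ≤ Nat.log 2 w := Nat.log_mono_right (by omega)
  have h4 : Nat.log 2 (w - 2 * n - 1) ≤ Nat.log 2 w := Nat.log_mono_right (by omega)
  omega

theorem ph_upper {e w n : ℕ} (he : e ≤ 1) (hn : 1 ≤ n) (h : 3 * n + e ≤ w) :
    ph e w n ≤ 4 * n + 2 * Nat.log 2 w + 4 := by
  unfold ph
  have h1 := ds_le_log (w - 3 * n - e)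
  have h2 := ds_le_log (2 * w - 3 * n - 1 + e)
  have h3 : Nat.log 2 (w - 3 * n - e) ≤ Nat.log 2 w := Nat.log_mono_right (by omega)
  have h4 : Nat.log 2 (2 * w - 3 * n - 1 + e) ≤ Nat.log 2 (w * 2) :=
    Nat.log_mono_right (by omega)
  have h5 : Nat.log 2 (w * 2) = Nat.log 2 w + 1 := Nat.log_mul_base (by norm_num) (by omega)
  omega

private theorem SQPh_succ {m : ℕ} (hm : 1 ≤ m) :
    (ds (m - 1) : ℤ) = ds m + padicValNat 2 m - 1 := by
  obtain ⟨k, rfl⟩ : ∃ k, m = k + 1 := ⟨m - 1, by omega⟩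
  have h := ds_succ k
  rw [Nat.add_sub_cancel]
  omega

private theorem SQPh_val3 {x : ℕ} (hx : 3 ≤ x) :
    padicValNat 2 (x * (x - 1) * (x - 2)) =
      padicValNat 2 x + padicValNat 2 (x - 1) + padicValNat 2 (x - 2) := by
  rw [padicValNat.mul (Nat.mul_ne_zero (by omega) (by omega)) (by omega),
    padicValNat.mul (by omega) (by omega)]

theorem ph_step {e w n : ℕ} (he : e ≤ 1) (hn : 1 ≤ n) (h : 3 * (n + 1) + e ≤ w) :
    ph e w (n + 1) - ph e w n = 2 +
      padicValNat 2 ((w - 3 * n - e) * (w - 3 * n - e - 1) * (w - 3 * n - e - 2)) +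
      padicValNat 2 ((2 * w - 3 * n - 1 + e) * (2 * w - 3 * n - 2 + e) * (2 * w - 3 * n - 3 + e)) -
      padicValNat 2 (w - 2 * n) - 2 * padicValNat 2 (w - 2 * n - 1) -
      padicValNat 2 (w - 2 * n - 2) := by
  unfold ph
  have e1 : w - 3 * (n + 1) - e = w - 3 * n - e - 3 := by omega
  have e2 : 2 * w - 3 * (n + 1) - 1 + e = 2 * w - 3 * n - 1 + e - 3 := by omega
  have e3 : w - 2 * (n + 1) = w - 2 * n - 2 := by omega
  have e4 : 2 * w - 3 * n - 2 + e = 2 * w - 3 * n - 1 + e - 1 := by omega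
  have e5 : 2 * w - 3 * n - 3 + e = 2 * w - 3 * n - 1 + e - 2 := by omega
  rw [e1, e2, e3, e4, e5]
  obtain ⟨x, hx⟩ : ∃ x, x = w - 3 * n - e := ⟨_, rfl⟩
  obtain ⟨y, hy⟩ : ∃ y, y = 2 * w - 3 * n - 1 + e := ⟨_, rfl⟩
  obtain ⟨z, hz⟩ : ∃ z, z = w - 2 * n := ⟨_, rfl⟩
  rw [← hx, ← hy, ← hz]
  have hx3 : 3 ≤ x := by omega
  have hy3 : 3 ≤ y := by omega
  have hz4 : 4 ≤ z := by omega
  rw [SQPh_val3 hx3, SQPh_val3 hy3]
  have a1 := SQPh_succ (m := x) (by omega)
  have a2 := SQPh_succ (m := x - 1) (by omega)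
  have a3 := SQPh_succ (m := x - 2) (by omega)
  have b1 := SQPh_succ (m := y) (by omega)
  have b2 := SQPh_succ (m := y - 1) (by omega)
  have b3 := SQPh_succ (m := y - 2) (by omega)
  have c1 := SQPh_succ (m := z) (by omega)
  have c2 := SQPh_succ (m := z - 1) (by omega)
  have c3 := SQPh_succ (m := z - 2) (by omega)
  have f1 : x - 1 - 1 = x - 2 := by omega
  have f2 : x - 2 - 1 = x - 3 := by omega
  have f3 : y - 1 - 1 = y - 2 := by omega
  have f4 : y - 2 - 1 = y - 3 := by omega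
  have f5 : z - 1 - 1 = z - 2 := by omega
  rw [f1] at a2
  rw [f2] at a3
  rw [f3] at b2
  rw [f4] at b3
  rw [f5] at c2
  simp only [Nat.cast_add, Nat.cast_one]
  linarith

theorem ph_diff {e w n m : ℕ} (he : e ≤ 1) (hn : 1 ≤ n) (hnm : n < m) (h : 3 * m + e ≤ w) :
    ph e w m - ph e w n = 2 * (m - n : ℤ) +
      ∑ u ∈ Finset.range (3 * (m - n)), (padicValNat 2 (w - 3 * n - e - u) : ℤ) +
      ∑ u ∈ Finset.range (3 * (m - n)), (padicValNat 2 (2 * w - 3 * n - 1 + e - u) : ℤ) -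
      2 * ∑ a ∈ Finset.Ioo (2 * n) (2 * m), (padicValNat 2 (w - a) : ℤ) -
      padicValNat 2 (w - 2 * n) - padicValNat 2 (w - 2 * m) := by
  obtain ⟨D, rfl⟩ : ∃ D, m = n + 1 + D := ⟨m - n - 1, by omega⟩
  clear hnm
  induction D with
  | zero =>
    rw [Nat.add_zero] at h ⊢
    have hs := ph_step he hn h
    have e1 : 3 * (n + 1 - n) = 3 := by omega
    have e2 : Finset.Ioo (2 * n) (2 * (n + 1)) = {2 * n + 1} := by
      ext a
      rw [Finset.mem_Ioo, Finset.mem_singleton]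
      omega
    rw [hs, e1, e2, Finset.sum_singleton, Finset.sum_range_succ, Finset.sum_range_succ,
      Finset.sum_range_one, Finset.sum_range_succ, Finset.sum_range_succ, Finset.sum_range_one]
    have e4 : 2 * w - 3 * n - 2 + e = 2 * w - 3 * n - 1 + e - 1 := by omega
    have e5 : 2 * w - 3 * n - 3 + e = 2 * w - 3 * n - 1 + e - 2 := by omega
    have e6 : w - (2 * n + 1) = w - 2 * n - 1 := by omega
    have e7 : w - 2 * (n + 1) = w - 2 * n - 2 := by omega
    rw [e4, e5, e6, e7, SQPh_val3 (by omega), SQPh_val3 (by omega)]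
    simp only [Nat.sub_zero, Nat.cast_add, Nat.cast_one]
    ring
  | succ D ih =>
    have hs := ph_step (e := e) (w := w) (n := n + 1 + D) he (by omega) (by omega)
    have ih' := ih (by omega)
    have e0 : n + 1 + (D + 1) = n + 1 + D + 1 := by omega
    rw [e0]
    have e1 : 3 * (n + 1 + D + 1 - n) = 3 * (n + 1 + D - n) + 3 := by omega
    have e2 : Finset.Ioo (2 * n) (2 * (n + 1 + D + 1)) =
        insert (2 * (n + 1 + D) + 1) (insert (2 * (n + 1 + D)) (Finset.Ioo (2 * n) (2 * (n + 1 + D)))) := by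
      ext a
      simp only [Finset.mem_Ioo, Finset.mem_insert]
      omega
    have e3 : (2 * (n + 1 + D)) ∉ Finset.Ioo (2 * n) (2 * (n + 1 + D)) := by
      rw [Finset.mem_Ioo]
      omega
    have e4 : (2 * (n + 1 + D) + 1) ∉
        insert (2 * (n + 1 + D)) (Finset.Ioo (2 * n) (2 * (n + 1 + D))) := by
      rw [Finset.mem_insert, Finset.mem_Ioo]
      omega
    rw [e1, e2, Finset.sum_insert e4, Finset.sum_insert e3, Finset.sum_range_succ,
      Finset.sum_range_succ, Finset.sum_range_succ, Finset.sum_range_succ, Finset.sum_range_succ,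
      Finset.sum_range_succ]
    have g1 : w - 3 * n - e - 3 * (n + 1 + D - n) = w - 3 * (n + 1 + D) - e := by omega
    have g2 : w - 3 * n - e - (3 * (n + 1 + D - n) + 1) = w - 3 * (n + 1 + D) - e - 1 := by omega
    have g3 : w - 3 * n - e - (3 * (n + 1 + D - n) + 2) = w - 3 * (n + 1 + D) - e - 2 := by omega
    have g4 : 2 * w - 3 * n - 1 + e - 3 * (n + 1 + D - n) = 2 * w - 3 * (n + 1 + D) - 1 + e := by
      omega
    have g5 : 2 * w - 3 * n - 1 + e - (3 * (n + 1 + D - n) + 1) =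
        2 * w - 3 * (n + 1 + D) - 1 + e - 1 := by omega
    have g6 : 2 * w - 3 * n - 1 + e - (3 * (n + 1 + D - n) + 2) =
        2 * w - 3 * (n + 1 + D) - 1 + e - 2 := by omega
    have g7 : w - (2 * (n + 1 + D) + 1) = w - 2 * (n + 1 + D) - 1 := by omega
    have g8 : w - 2 * (n + 1 + D + 1) = w - 2 * (n + 1 + D) - 2 := by omega
    have g9 : 2 * w - 3 * (n + 1 + D) - 2 + e = 2 * w - 3 * (n + 1 + D) - 1 + e - 1 := by omega
    have g10 : 2 * w - 3 * (n + 1 + D) - 3 + e = 2 * w - 3 * (n + 1 + D) - 1 + e - 2 := by omega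
    rw [g1, g2, g3, g4, g5, g6, g7, g8]
    rw [g9, g10, SQPh_val3 (by omega), SQPh_val3 (by omega)] at hs
    have g11 : (((n + 1 + D + 1 : ℕ) : ℤ) - n) = (((n + 1 + D : ℕ) : ℤ) - n) + 1 := by
      simp only [Nat.cast_add, Nat.cast_one]
      ring
    rw [g11]
    simp only [Nat.cast_add, Nat.cast_one] at hs ih' ⊢
    linarith

end MT2
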