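import Pool.Agent.Lib_MP_bfd926_sq.SQLU
import Pool.Agent.Lib_MP_bfd926_sq.SQPh

/-!
# The blocks at a strict cut, over the rational numbers

`Pi i j = Pn e w b (i + 1) (j + 1)`; sums over `Fin b` are sums over `Icc 1 b` (shift by one).
`M` is the maximum of `ph e w n + 2 * pX e w n t` over `1 ≤ n ≤ b`, `t < n` (`Finset.exists_max_image`);
it is `≥ ph e w b` (`pX e w b 0 = 0`, `vc_zero`) and `≥ 4 b - 2 L - 2` (`ph_lower`); by `h1` with
`m = b + 1`, `s = 0` it is `≤ ph e w (b + 1) - 1 ≤ 4 b + 2 L + 7` (`ph_upper`). For `m > b`, `m + s ≤ d`: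
`M + 1 ≤ ph e w m - 2 * qU e w m s`.
* Entries of `Pi`: every term `XE j i * YE i n / DE i` is zero or (`t = i - j`, `t' = i - n`) has the norm
  at most `2 ^ (pX i t + 2 t + pX i t' + 2 t' - 4 i + ph i)`, and `2 t = 2 i - 2 j`;
  `2 * (ph i + pX i t + pX i t') = (ph i + 2 pX i t) + (ph i + 2 pX i t') ≤ 2 M`.
* `EE`: `Pi` is the inverse of `blkA`, `inv_NE` gives another (left) inverse with this bound
  (the entries are equal: `P = P * (A * Pi) = Pi`).
* `C * Pi`, row `b + i + 1 ≥ b + 2`: `Pn_P`, `LE_norm`, `YE_norm`, `h2`; row `b + 1`: `Pn_P'`, `h3`.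
* `Pi * B`: `Pn_Q`, `Pn_Q'`.
* the last block: `Pn_S`, the terms with `i ≤ m`, `i ≤ n` have the norm at most
  `2 ^ (qU i s + 2 s + 4 i - ph i + qU i s' + 2 s')`, `s = m - i`, `s' = n - i`; the others are zero
  (`LE_lt`, `UE_lt`).
Use `padicNorm.nonarchimedean` for sums (`padicNorm.sum_le'`, or `Finset.induction`).
-/

open Matrix

namespace MT2

/-- The upper left block. -/
def blkA (R : Type) [Ring R] (e w b : ℕ) : Matrix (Fin b) (Fin b) R :=
  Matrix.of fun i j => ((NE e w ((i : ℕ) + 1) ((j : ℕ) + 1) : ℤ) : R)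

/-- The upper right block. -/
def blkB (R : Type) [Ring R] (e w b c : ℕ) : Matrix (Fin b) (Fin c) R :=
  Matrix.of fun i j => ((NE e w ((i : ℕ) + 1) ((b + (j : ℕ) + 1 : ℕ) : ℤ) : ℤ) : R)

/-- The lower left block. -/
def blkC (R : Type) [Ring R] (e w b c : ℕ) : Matrix (Fin c) (Fin b) R :=
  Matrix.of fun i j => ((NE e w ((b + (i : ℕ) + 1 : ℕ) : ℤ) ((j : ℕ) + 1) : ℤ) : R)

/-- The lower right block. -/
def blkE (R : Type) [Ring R] (e w b c : ℕ) : Matrix (Fin c) (Fin c) R :=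
  Matrix.of fun i j => ((NE e w ((b + (i : ℕ) + 1 : ℕ) : ℤ) ((b + (j : ℕ) + 1 : ℕ) : ℤ) : ℤ) : R)

private theorem SQCutQ_sum (b : ℕ) (f : ℕ → ℚ) :
    ∑ i : Fin b, f ((i : ℕ) + 1) = ∑ i ∈ Finset.Icc 1 b, f i := by
  rw [Fin.sum_univ_eq_sum_range (fun i => f (i + 1)) b]
  induction b with
  | zero => simp
  | succ b ih =>
    rw [Finset.sum_range_succ, ih, Finset.sum_Icc_succ_top (by omega)]

private theorem SQCutQ_pX0 (e w n : ℕ) : pX e w n 0 = 0 := by
  simp [pX, vc_zero]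

private theorem SQCutQ_qU0 (e w m : ℕ) : qU e w m 0 = 0 := by
  simp [qU, vc_zero]

private theorem SQCutQ_mul {x y : ℚ} {a b c : ℤ} (hx : padicNorm 2 x ≤ (2 : ℚ) ^ a)
    (hy : padicNorm 2 y ≤ (2 : ℚ) ^ b) (h : a + b ≤ c) :
    padicNorm 2 (x * y) ≤ (2 : ℚ) ^ c := by
  rw [padicNorm.mul]
  calc _ ≤ (2 : ℚ) ^ a * (2 : ℚ) ^ b :=
        mul_le_mul hx hy (padicNorm.nonneg _) (by positivity)
    _ = (2 : ℚ) ^ (a + b) := (zpow_add₀ (by norm_num) _ _).symm
    _ ≤ _ := zpow_le_zpow_right₀ (by norm_num) h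

private theorem SQCutQ_div {x y : ℚ} {a b c : ℤ} (hx : padicNorm 2 x ≤ (2 : ℚ) ^ a)
    (hy : padicNorm 2 y = (2 : ℚ) ^ b) (h : a - b ≤ c) :
    padicNorm 2 (x / y) ≤ (2 : ℚ) ^ c := by
  rw [padicNorm.div, hy]
  calc _ ≤ (2 : ℚ) ^ a / (2 : ℚ) ^ b :=
        div_le_div_of_nonneg_right hx (by positivity)
    _ = (2 : ℚ) ^ (a - b) := (zpow_sub₀ (by norm_num) _ _).symm
    _ ≤ _ := zpow_le_zpow_right₀ (by norm_num) h

private theorem SQCutQ_zero {x : ℚ} (h : x = 0) (c : ℤ) : padicNorm 2 x ≤ (2 : ℚ) ^ c := by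
  rw [h, padicNorm.zero]
  positivity

/-- The entries of the inverse. -/
private theorem SQCutQ_Pn {e w b j n : ℕ} {M : ℤ} (he : e ≤ 1) (hj : 1 ≤ j) (hn : 1 ≤ n)
    (hb : 3 * b + e ≤ w)
    (hM : ∀ i t, 1 ≤ i → i ≤ b → t < i → ph e w i + 2 * pX e w i t ≤ M) :
    padicNorm 2 (Pn e w b j n) ≤ (2 : ℚ) ^ (M - 2 * (j : ℤ) - 2 * (n : ℤ)) := by
  unfold Pn
  refine padicNorm.sum_le' (fun i hi => ?_) (by positivity)
  rw [Finset.mem_Icc] at hi
  rcases lt_or_ge i j with h1 | h1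
  · exact SQCutQ_zero (by rw [XE_gt h1, zero_mul, zero_div]) _
  rcases lt_or_ge i n with h2 | h2
  · exact SQCutQ_zero (by rw [YE_gt h2, mul_zero, zero_div]) _
  obtain ⟨t, rfl⟩ := Nat.exists_eq_add_of_le h1
  obtain ⟨t', ht'⟩ := Nat.exists_eq_add_of_le h2
  have hx := XE_norm (e := e) (w := w) (n := j + t) (t := t) he (by omega) (by omega)
  have hy := YE_norm (e := e) (w := w) (n := j + t) (t := t') he (by omega) (by omega)
  rw [show j + t - t = j by omega] at hx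
  rw [show j + t - t' = n by omega] at hy
  have hd := DE_norm (e := e) (w := w) (n := j + t) he hi.1 (by omega)
  refine SQCutQ_div (SQCutQ_mul hx hy le_rfl) hd ?_
  have m1 := hM (j + t) t hi.1 hi.2 (by omega)
  have m2 := hM (j + t) t' hi.1 hi.2 (by omega)
  have e1 : ((j : ℤ) + t) = n + t' := by exact_mod_cast ht'
  push_cast
  linarith

/-- The entries of the lower left block. -/
private theorem SQCutQ_C {e w b c : ℕ} (he : e ≤ 1) (hd : 3 * (b + c) + e ≤ w)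
    (hcut : CutOK e w (b + c) b) {m n : ℕ} (hm : b < m) (hmc : m ≤ b + c) (hn : 1 ≤ n)
    (hnb : n ≤ b) :
    padicNorm 2 (∑ j ∈ Finset.Icc 1 b, (NE e w m j : ℚ) * Pn e w b j n) ≤
      (2 : ℚ) ^ (2 * ((m : ℤ) - n) - 1) := by
  rcases Nat.lt_or_ge (b + 1) m with h1 | h1
  · rw [Pn_P he (by omega) hn hnb (by omega) (by omega)]
    refine padicNorm.sum_le' (fun k hk => ?_) (by positivity)
    rw [Finset.mem_Icc] at hk
    rcases lt_or_ge k n with h2 | h2
    · exact SQCutQ_zero (by rw [YE_gt h2, mul_zero]) _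
    obtain ⟨t, rfl⟩ := Nat.exists_eq_add_of_le h2
    obtain ⟨s, rfl⟩ := Nat.exists_eq_add_of_le (show n + t ≤ m by omega)
    have hl := LE_norm (e := e) (w := w) (m := n + t) (s := s) he hk.1 (by omega)
    have hy := YE_norm (e := e) (w := w) (n := n + t) (t := t) he (by omega) (by omega)
    rw [show n + t - t = n by omega] at hy
    have h3 := hcut.h2 (n + t) t s hk.2 (by omega) (by omega) (by omega)
    refine SQCutQ_mul hl hy ?_
    push_cast
    linarith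
  · have h2 : m = b + 1 := by omega
    subst h2
    rw [Pn_P' he hn hnb (by omega), padicNorm.neg]
    obtain ⟨t, ht⟩ := Nat.exists_eq_add_of_le hnb
    have hy := YE_norm (e := e) (w := w) (n := b + 1) (t := t + 1) he (by omega) (by omega)
    rw [show b + 1 - (t + 1) = n by omega] at hy
    have h3 := hcut.h3 (t + 1) (by omega) (by omega)
    refine hy.trans (zpow_le_zpow_right₀ (by norm_num) ?_)
    have e1 : (b : ℤ) = n + t := by exact_mod_cast ht
    push_cast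
    linarith

/-- The entries of the upper right block. -/
private theorem SQCutQ_B {e w b c : ℕ} (he : e ≤ 1) (hd : 3 * (b + c) + e ≤ w)
    (hcut : CutOK e w (b + c) b) {m n : ℕ} (hm : b < m) (hmc : m ≤ b + c) (hn : 1 ≤ n)
    (hnb : n ≤ b) :
    padicNorm 2 (∑ j ∈ Finset.Icc 1 b, Pn e w b n j * (NE e w j m : ℚ)) ≤
      (2 : ℚ) ^ (2 * ((m : ℤ) - n) - 1) := by
  rcases Nat.lt_or_ge (b + 1) m with h1 | h1
  · rw [Pn_Q he (by omega) hn hnb (by omega) (by omega)]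
    refine padicNorm.sum_le' (fun k hk => ?_) (by positivity)
    rw [Finset.mem_Icc] at hk
    rcases lt_or_ge k n with h2 | h2
    · exact SQCutQ_zero (by rw [XE_gt h2, zero_mul]) _
    obtain ⟨t, rfl⟩ := Nat.exists_eq_add_of_le h2
    obtain ⟨s, rfl⟩ := Nat.exists_eq_add_of_le (show n + t ≤ m by omega)
    have hl := UE_norm (e := e) (w := w) (m := n + t) (s := s) he hk.1 (by omega)
    have hy := XE_norm (e := e) (w := w) (n := n + t) (t := t) he (by omega) (by omega)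
    rw [show n + t - t = n by omega] at hy
    have h3 := hcut.h2 (n + t) t s hk.2 (by omega) (by omega) (by omega)
    refine SQCutQ_mul hy hl ?_
    push_cast
    linarith
  · have h2 : m = b + 1 := by omega
    subst h2
    rw [Pn_Q' he hn hnb (by omega), padicNorm.neg]
    obtain ⟨t, ht⟩ := Nat.exists_eq_add_of_le hnb
    have hy := XE_norm (e := e) (w := w) (n := b + 1) (t := t + 1) he (by omega) (by omega)
    rw [show b + 1 - (t + 1) = n by omega] at hy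
    have h3 := hcut.h3 (t + 1) (by omega) (by omega)
    refine hy.trans (zpow_le_zpow_right₀ (by norm_num) ?_)
    have e1 : (b : ℤ) = n + t := by exact_mod_cast ht
    push_cast
    linarith

/-- The entries of the last block. -/
private theorem SQCutQ_S {e w b c : ℕ} {M : ℤ} (he : e ≤ 1) (hd : 3 * (b + c) + e ≤ w)
    (hM : ∀ m s, b < m → m + s ≤ b + c → M + 2 * qU e w m s + 1 ≤ ph e w m) {m n : ℕ}
    (hm : b < m) (hmc : m ≤ b + c) (hn : b < n) (hnc : n ≤ b + c) :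
    padicNorm 2 ((NE e w m n : ℚ) - ∑ i ∈ Finset.Icc 1 b, (∑ j ∈ Finset.Icc 1 b,
        (NE e w m j : ℚ) * Pn e w b j i) * (NE e w i n : ℚ)) ≤
      (2 : ℚ) ^ (2 * (m : ℤ) + 2 * (n : ℤ) - M - 1) := by
  rw [Pn_S he hm hn hmc hnc hd]
  refine padicNorm.sum_le' (fun k hk => ?_) (by positivity)
  rw [Finset.mem_Ioc] at hk
  rcases lt_or_ge m k with h1 | h1
  · exact SQCutQ_zero (by rw [LE_lt he (by omega) h1 (by omega), zero_mul, zero_mul]) _
  rcases lt_or_ge n k with h2 | h2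
  · exact SQCutQ_zero (by rw [UE_lt he (by omega) h2 (by omega), mul_zero]) _
  obtain ⟨s, rfl⟩ := Nat.exists_eq_add_of_le h1
  obtain ⟨s', rfl⟩ := Nat.exists_eq_add_of_le h2
  have hl := LE_norm (e := e) (w := w) (m := k) (s := s) he (by omega) (by omega)
  have hu := UE_norm (e := e) (w := w) (m := k) (s := s') he (by omega) (by omega)
  have hde := DE_norm (e := e) (w := w) (n := k) he (by omega) (by omega)
  have m1 := hM k s hk.1 (by omega)
  have m2 := hM k s' hk.1 (by omega)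
  refine SQCutQ_mul (SQCutQ_mul hl hde.le le_rfl) hu ?_
  push_cast
  linarith

theorem cutQ {e w b c : ℕ} (he : e ≤ 1) (hb : 1 ≤ b) (hc : 1 ≤ c) (hd : 3 * (b + c) + e ≤ w)
    (hcut : CutOK e w (b + c) b) :
    ∃ (Pi : Matrix (Fin b) (Fin b) ℚ) (M : ℤ), blkA ℚ e w b * Pi = 1 ∧
      (4 * b : ℤ) - 2 * Nat.log 2 w - 2 ≤ M ∧ M ≤ 4 * b + 2 * Nat.log 2 w + 7 ∧
      (∀ i j, padicNorm 2 (Pi i j) ≤ (2 : ℚ) ^ (EE w : ℤ)) ∧
      (∀ i j : Fin b, padicNorm 2 (Pi i j) ≤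
        (2 : ℚ) ^ (M - 2 * ((i : ℤ) + 1) - 2 * ((j : ℤ) + 1))) ∧
      (∀ (i : Fin c) (j : Fin b), padicNorm 2 ((blkC ℚ e w b c * Pi) i j) ≤
        (2 : ℚ) ^ (2 * ((b : ℤ) + i - j) - 1)) ∧
      (∀ (i : Fin b) (j : Fin c), padicNorm 2 ((Pi * blkB ℚ e w b c) i j) ≤
        (2 : ℚ) ^ (2 * ((b : ℤ) + j - i) - 1)) ∧
      (∀ i j : Fin c, padicNorm 2 ((blkE ℚ e w b c - blkC ℚ e w b c * Pi * blkB ℚ e w b c) i j) ≤
        (2 : ℚ) ^ (2 * ((b : ℤ) + i + 1) + 2 * ((b : ℤ) + j + 1) - M - 1)) := by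
  -- the number `M`
  obtain ⟨p, hp, hmax⟩ := Finset.exists_max_image
    ((Finset.Icc 1 b).sigma fun n => Finset.range n)
    (fun q : (_ : ℕ) × ℕ => ph e w q.1 + 2 * pX e w q.1 q.2)
    ⟨⟨b, 0⟩, by
      rw [Finset.mem_sigma, Finset.mem_Icc, Finset.mem_range]
      exact ⟨⟨hb, le_rfl⟩, hb⟩⟩
  rw [Finset.mem_sigma, Finset.mem_Icc, Finset.mem_range] at hp
  obtain ⟨M, hMdef⟩ : ∃ M : ℤ, ph e w p.1 + 2 * pX e w p.1 p.2 = M := ⟨_, rfl⟩
  have hM1 : ∀ i t, 1 ≤ i → i ≤ b → t < i → ph e w i + 2 * pX e w i t ≤ M := by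
    intro i t h1 h2 h3
    rw [← hMdef]
    exact hmax ⟨i, t⟩ (by
      rw [Finset.mem_sigma, Finset.mem_Icc, Finset.mem_range]
      exact ⟨⟨h1, h2⟩, h3⟩)
  have hM2 : ∀ m s, b < m → m + s ≤ b + c → M + 2 * qU e w m s + 1 ≤ ph e w m := by
    intro m s h1 h2
    have h3 := hcut.h1 p.1 p.2 m s hp.1.2 hp.2 h1 h2
    rw [hMdef] at h3
    exact h3
  obtain ⟨Pi, hPi⟩ : ∃ Pi : Matrix (Fin b) (Fin b) ℚ,
      Pi = Matrix.of fun i j : Fin b => Pn e w b ((i : ℕ) + 1) ((j : ℕ) + 1) := ⟨_, rfl⟩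
  have hinv : blkA ℚ e w b * Pi = 1 := by
    ext i j
    rw [Matrix.mul_apply, Matrix.one_apply]
    have h1 := Pn_one (e := e) (w := w) (b := b) (m := (i : ℕ) + 1) (n := (j : ℕ) + 1) he
      (by omega) (by omega) (by have := i.2; omega) (by have := j.2; omega) (by omega)
    rw [← SQCutQ_sum b (fun k => (NE e w ((i : ℕ) + 1 : ℕ) k : ℚ) *
      Pn e w b k ((j : ℕ) + 1))] at h1
    have h2 : ((i : ℕ) + 1 = (j : ℕ) + 1) ↔ i = j := by
      rw [Nat.add_right_cancel_iff, Fin.ext_iff]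
    rw [if_congr h2 rfl rfl] at h1
    rw [← h1]
    refine Finset.sum_congr rfl (fun k _ => ?_)
    rw [hPi]
    simp only [blkA, Matrix.of_apply]
    push_cast
    rfl
  have hCP : ∀ (i : Fin c) (j : Fin b), (blkC ℚ e w b c * Pi) i j =
      ∑ k ∈ Finset.Icc 1 b, (NE e w (b + (i : ℕ) + 1 : ℕ) k : ℚ) *
        Pn e w b k ((j : ℕ) + 1) := by
    intro i j
    rw [Matrix.mul_apply, ← SQCutQ_sum b (fun k => (NE e w (b + (i : ℕ) + 1 : ℕ) k : ℚ) *
      Pn e w b k ((j : ℕ) + 1))]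
    refine Finset.sum_congr rfl (fun k _ => ?_)
    rw [hPi]
    simp only [blkC, Matrix.of_apply]
    push_cast
    rfl
  have hPB : ∀ (i : Fin b) (j : Fin c), (Pi * blkB ℚ e w b c) i j =
      ∑ k ∈ Finset.Icc 1 b, Pn e w b ((i : ℕ) + 1) k *
        (NE e w k (b + (j : ℕ) + 1 : ℕ) : ℚ) := by
    intro i j
    rw [Matrix.mul_apply, ← SQCutQ_sum b (fun k => Pn e w b ((i : ℕ) + 1) k *
        (NE e w k (b + (j : ℕ) + 1 : ℕ) : ℚ))]
    refine Finset.sum_congr rfl (fun k _ => ?_)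
    rw [hPi]
    simp only [blkB, Matrix.of_apply]
    push_cast
    rfl
  refine ⟨Pi, M, hinv, ?_, ?_, ?_, ?_, ?_, ?_, ?_⟩
  · have h1 := hM1 b 0 hb le_rfl hb
    rw [SQCutQ_pX0] at h1
    have h2 := ph_lower (e := e) (w := w) (n := b) he hb (by omega)
    linarith
  · have h1 := hM2 (b + 1) 0 (by omega) (by omega)
    rw [SQCutQ_qU0] at h1
    have h2 := ph_upper (e := e) (w := w) (n := b + 1) he (by omega) (by omega)
    push_cast at h2
    linarith
  · obtain ⟨P, hP, hPn⟩ := inv_NE (e := e) (w := w) (b := b) he (by omega)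
    have h1 : P * blkA ℚ e w b = 1 := hP
    have h2 : P = Pi := by
      calc P = P * (blkA ℚ e w b * Pi) := by rw [hinv, mul_one]
        _ = Pi := by rw [← Matrix.mul_assoc, h1, Matrix.one_mul]
    intro i j
    rw [← h2, zpow_natCast]
    exact hPn i j
  · intro i j
    have h1 := SQCutQ_Pn (e := e) (w := w) (b := b) (j := (i : ℕ) + 1) (n := (j : ℕ) + 1) (M := M)
      he (by omega) (by omega) (by omega) hM1
    rw [hPi]
    push_cast at h1
    exact h1
  · intro i j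
    rw [hCP]
    have h1 := SQCutQ_C he hd hcut (m := b + (i : ℕ) + 1) (n := (j : ℕ) + 1) (by omega)
      (by have := i.2; omega) (by omega) (by have := j.2; omega)
    refine h1.trans (le_of_eq ?_)
    congr 1
    push_cast
    ring
  · intro i j
    rw [hPB]
    have h1 := SQCutQ_B he hd hcut (m := b + (j : ℕ) + 1) (n := (i : ℕ) + 1) (by omega)
      (by have := j.2; omega) (by omega) (by have := i.2; omega)
    refine h1.trans (le_of_eq ?_)
    congr 1
    push_cast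
    ring
  · intro i j
    have h1 := SQCutQ_S he hd hM2 (m := b + (i : ℕ) + 1) (n := b + (j : ℕ) + 1) (by omega)
      (by have := i.2; omega) (by omega) (by have := j.2; omega)
    rw [← SQCutQ_sum b (fun l => (∑ k ∈ Finset.Icc 1 b, (NE e w (b + (i : ℕ) + 1 : ℕ) k : ℚ) *
        Pn e w b k l) * (NE e w l (b + (j : ℕ) + 1 : ℕ) : ℚ))] at h1
    have h2 : (blkE ℚ e w b c - blkC ℚ e w b c * Pi * blkB ℚ e w b c) i j =
        (NE e w (b + (i : ℕ) + 1 : ℕ) (b + (j : ℕ) + 1 : ℕ) : ℚ) -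
          ∑ l : Fin b, (∑ k ∈ Finset.Icc 1 b, (NE e w (b + (i : ℕ) + 1 : ℕ) k : ℚ) *
            Pn e w b k ((l : ℕ) + 1)) * (NE e w ((l : ℕ) + 1 : ℕ) (b + (j : ℕ) + 1 : ℕ) : ℚ) := by
      rw [Matrix.sub_apply, Matrix.mul_apply]
      congr 1
      refine Finset.sum_congr rfl (fun l _ => ?_)
      rw [hCP]
      simp only [blkB, Matrix.of_apply]
      push_cast
      rfl
    rw [h2]
    refine h1.trans (le_of_eq ?_)
    push_cast
    rfl

end MT2
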