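import Mathlib

/-!
# The inverse of a matrix near the identity

`W = (det (1 + η))⁻¹ • adjugate (1 + η)`. The entries of `1 + η` are in the valuation ring; the
determinant is `1` plus an element of valuation `≤ γ < 1` (work in the valuation ring modulo the ideal
of the elements of valuation `≤ γ`), so it has the valuation 1; the entries of the
adjugate have valuation `≤ 1`;
so `v (W i j) ≤ 1`, and `W - 1 = -η * W` has entries of valuation `≤ γ`.
-/

open Matrix

namespace MT2

/-- the ideal of the elements of valuation `≤ γ` in the valuation ring -/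
private def sqInvIdeal {K Γ : Type} [Field K] [LinearOrderedCommGroupWithZero Γ]
    (v : Valuation K Γ) (γ : Γ) : Ideal v.integer where
  carrier := {x | v (x : K) ≤ γ}
  add_mem' := by
    intro a b ha hb
    have h1 : v ((a : K) + (b : K)) ≤ max (v (a : K)) (v (b : K)) := v.map_add _ _
    exact h1.trans (max_le ha hb)
  zero_mem' := by
    simp
  smul_mem' := by
    intro c x hx
    have hc : v (c : K) ≤ 1 := c.2
    have hx' : v (x : K) ≤ γ := hx
    have : v ((c : K) * (x : K)) ≤ γ := by
      rw [map_mul]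
      calc v (c : K) * v (x : K) ≤ 1 * γ := mul_le_mul' hc hx'
        _ = γ := one_mul _
    exact this

private theorem sqInv_det {K Γ ι : Type} [Field K] [LinearOrderedCommGroupWithZero Γ] [Fintype ι]
    [DecidableEq ι] (v : Valuation K Γ) (γ : Γ) (N : Matrix ι ι v.integer)
    (h : ∀ i j, v (N i j : K) ≤ γ) : v (((1 + N).det : K) - 1) ≤ γ := by
  have h1 : Ideal.Quotient.mk (sqInvIdeal v γ) (1 + N).det = Ideal.Quotient.mk (sqInvIdeal v γ) 1 := by
    rw [RingHom.map_det]
    have h2 : (Ideal.Quotient.mk (sqInvIdeal v γ)).mapMatrix (1 + N) = 1 := by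
      have h3 : (Ideal.Quotient.mk (sqInvIdeal v γ)).mapMatrix N = 0 := by
        ext i j
        rw [RingHom.mapMatrix_apply, Matrix.map_apply, Matrix.zero_apply]
        exact Ideal.Quotient.eq_zero_iff_mem.mpr (h i j)
      rw [map_add, h3, map_one, add_zero]
    rw [h2, Matrix.det_one, map_one]
  have h4 : (1 + N).det - 1 ∈ sqInvIdeal v γ := Ideal.Quotient.eq.mp h1
  exact h4

theorem inv_one_add {K Γ ι : Type} [Field K] [LinearOrderedCommGroupWithZero Γ] [Fintype ι]
    [DecidableEq ι] (v : Valuation K Γ) (η : Matrix ι ι K) (γ : Γ) (hγ : γ < 1)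
    (h : ∀ i j, v (η i j) ≤ γ) :
    ∃ W : Matrix ι ι K, (1 + η) * W = 1 ∧ W * (1 + η) = 1 ∧ ∀ i j, v ((W - 1) i j) ≤ γ := by
  let N : Matrix ι ι v.integer := Matrix.of fun i j => ⟨η i j, (h i j).trans hγ.le⟩
  have hN : (v.integer.subtype).mapMatrix (1 + N) = 1 + η := by
    have h3 : (v.integer.subtype).mapMatrix N = η := by
      ext i j
      rfl
    rw [map_add, h3, map_one]
  have hdet : v ((1 + η).det - 1) ≤ γ := by
    have h1 := sqInv_det v γ N (fun i j => h i j)
    have h2 : (((1 + N).det : v.integer) : K) = (1 + η).det := by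
      rw [← hN, ← RingHom.map_det]
      rfl
    rw [h2] at h1
    exact h1
  have hv1 : v (1 + η).det = 1 := by
    have h1 : v ((1 + η).det - 1) < v (1 : K) := by
      rw [map_one]
      exact hdet.trans_lt hγ
    have h2 := Valuation.map_add_eq_of_lt_left v h1
    rw [add_sub_cancel, map_one] at h2
    exact h2
  have hne : (1 + η).det ≠ 0 := by
    intro h0
    rw [h0, map_zero] at hv1
    exact zero_ne_one hv1
  have hadj : ∀ i j, v ((1 + η).adjugate i j) ≤ 1 := by
    intro i j
    have h1 : (v.integer.subtype).mapMatrix (1 + N).adjugate = (1 + η).adjugate := by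
      rw [RingHom.map_adjugate, hN]
    have h2 : (1 + η).adjugate i j = (((1 + N).adjugate i j : v.integer) : K) := by
      rw [← h1]
      rfl
    rw [h2]
    exact ((1 + N).adjugate i j).2
  have hW : ∀ i j, v (((1 + η).det⁻¹ • (1 + η).adjugate) i j) ≤ 1 := by
    intro i j
    rw [Matrix.smul_apply, smul_eq_mul, map_mul, map_inv₀, hv1, inv_one, one_mul]
    exact hadj i j
  have hr : (1 + η) * ((1 + η).det⁻¹ • (1 + η).adjugate) = 1 := by
    rw [Matrix.mul_smul, Matrix.mul_adjugate, smul_smul, inv_mul_cancel₀ hne, one_smul]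
  have hl : ((1 + η).det⁻¹ • (1 + η).adjugate) * (1 + η) = 1 := by
    rw [Matrix.smul_mul, Matrix.adjugate_mul, smul_smul, inv_mul_cancel₀ hne, one_smul]
  refine ⟨(1 + η).det⁻¹ • (1 + η).adjugate, hr, hl, ?_⟩
  intro i j
  generalize (1 + η).det⁻¹ • (1 + η).adjugate = W at hW hr
  have h5 : W - 1 = -(η * W) := by
    have h6 : W + η * W = 1 := by
      rw [← hr, Matrix.add_mul, Matrix.one_mul]
    rw [← h6]
    abel
  rw [h5, Matrix.neg_apply, Valuation.map_neg, Matrix.mul_apply]
  apply Valuation.map_sum_le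
  intro k _
  rw [map_mul]
  calc v (η i k) * v (W k j) ≤ γ * 1 := mul_le_mul' (h i k) (hW k j)
    _ = γ := mul_one _

end MT2
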