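import Pool.Agent.Lib_MP_bfd926_sq.SQDs
import Pool.Agent.Lib_MP_bfd926_sq.SXb

/-!
# The entries of the right vectors

`XE_norm`, `e = 0`: by `xv_closed` (SXb), `M = 2 w - 3 n`,
`xv w n (n - t) * (odd) * C(w - 2 n + t, t) = (odd) * C(n + t - 1, 2 t) * C(M + t - 1, t)`,
and `v₂(C(w - 2 n + t, t)) = vc (w - 2 n) t`. The hat (`w` odd, `n` even, `t = 1`): the numerator
`C(n, 2) * (2 w - 3 n)` is divisible by 4: `n = 2 n'`, `C(n, 2) = n' (2 n' - 1)`,
`2 w - 3 n = 2 (w - 3 n')`, and `n' (w - 3 n')` is even.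
`e = 1`: `XE 1 w (n - t) n = (M + 3 t) / M * xv w n (n - t)` and
`(M + 3 t) * C(M + t - 1, t) = M * (C(M + t - 1, t) + 3 * C(M + t - 1, t - 1))` for `t ≥ 1`
(`t * C(M + t - 1, t) = M * C(M + t - 1, t - 1)`), so the numerator is again an integer. The hat
(`w`, `n` odd, `t = 1`): `C(n, 2) * (2 w - 3 n + 3)`, `n = 2 n' + 1`: `C(n, 2) = n' (2 n' + 1)`,
`2 w - 3 n + 3 = 2 (w - 3 n')`, and `n' (w - 3 n')` is even.
-/

namespace MT2

theorem XE_self {e w n : ℕ} (he : e ≤ 1) (hn : 1 ≤ n) (h : 3 * n + e ≤ w) : XE e w n n = 1 := by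
  have hq : (3 : ℚ) * n ≤ w := by exact_mod_cast (show 3 * n ≤ w by omega)
  have hq1 : (1 : ℚ) ≤ n := by exact_mod_cast hn
  have h0 : (2 * (w : ℚ) - 3 * n) ≠ 0 := by
    have : (0 : ℚ) < 2 * (w : ℚ) - 3 * n := by linarith
    exact this.ne'
  have hx : xv w n n = 1 := by simp [xv]
  unfold XE
  rw [hx, div_self h0, mul_one, ite_self]

theorem XE_gt {e w l n : ℕ} (h : n < l) : XE e w l n = 0 := by
  have hx : xv w n l = 0 := by
    unfold xv
    rw [if_neg (by omega)]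
  unfold XE
  rw [hx, mul_zero, ite_self]

private theorem SQX_prod (t : ℕ) (f : ℕ → ℚ) (hf : ∀ m, padicNorm 2 (f m) = 1) :
    padicNorm 2 (∏ m ∈ Finset.range t, f m) = 1 := by
  induction t with
  | zero => simp
  | succ t ih => rw [Finset.prod_range_succ, padicNorm.mul, ih, hf, one_mul]

private theorem SQX_P {w n : ℕ} (h : 3 * n ≤ w) (t : ℕ) :
    padicNorm 2 (∏ m ∈ Finset.range t, (2 * (w : ℚ) - 2 * n + 1 + 2 * m)) = 1 := by
  apply SQX_prod
  intro m
  have e : (2 * (w : ℚ) - 2 * n + 1 + 2 * m) = ((2 * (w - n) + 1 + 2 * m : ℕ) : ℚ) := by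
    push_cast [Nat.cast_sub (show n ≤ w by omega)]
    ring
  rw [e]
  exact (padicNorm.nat_eq_one_iff _).2 (by omega)

private theorem SQX_Q (t : ℕ) :
    padicNorm 2 (∏ m ∈ Finset.range t, (2 * (m : ℚ) + 1)) = 1 := by
  apply SQX_prod
  intro m
  have e : (2 * (m : ℚ) + 1) = ((2 * m + 1 : ℕ) : ℚ) := by push_cast; ring
  rw [e]
  exact (padicNorm.nat_eq_one_iff _).2 (by omega)

private theorem SQX_core {w n t N h : ℕ} {X : ℚ} (hn : 3 * n ≤ w)
    (hX : X * (∏ m ∈ Finset.range t, (2 * (w : ℚ) - 2 * n + 1 + 2 * m)) *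
        (Nat.choose (w - 2 * n + t) t : ℚ) = (∏ m ∈ Finset.range t, (2 * (m : ℚ) + 1)) * (N : ℚ))
    (hN : 2 ^ h ∣ N) : padicNorm 2 X ≤ (2 : ℚ) ^ ((vc (w - 2 * n) t : ℤ) - h) := by
  have h1 := congrArg (padicNorm 2) hX
  rw [padicNorm.mul, padicNorm.mul, padicNorm.mul, SQX_P hn, SQX_Q, mul_one, one_mul] at h1
  have hc0 : Nat.choose (w - 2 * n + t) t ≠ 0 := (Nat.choose_pos (by omega)).ne'
  have hc0' : (Nat.choose (w - 2 * n + t) t : ℚ) ≠ 0 := by exact_mod_cast hc0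
  have hc : padicNorm 2 (Nat.choose (w - 2 * n + t) t : ℚ) =
      (2 : ℚ) ^ (-(vc (w - 2 * n) t : ℤ)) := by
    rw [padicNorm.eq_zpow_of_nonzero hc0', padicValRat.of_nat, Nat.cast_ofNat]
    rfl
  rw [hc] at h1
  have hN' : padicNorm 2 (N : ℚ) ≤ (2 : ℚ) ^ (-(h : ℤ)) := by
    have h2 := (padicNorm.dvd_iff_norm_le (p := 2) (n := h) (z := (N : ℤ))).1
      (by exact_mod_cast hN)
    simpa using h2
  rw [zpow_neg] at h1
  have h3 : (0 : ℚ) < 2 ^ (vc (w - 2 * n) t : ℤ) := by positivity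
  have h4 : padicNorm 2 X = padicNorm 2 (N : ℚ) * 2 ^ (vc (w - 2 * n) t : ℤ) := by
    rw [← h1, mul_assoc, inv_mul_cancel₀ h3.ne', mul_one]
  rw [h4, sub_eq_add_neg, zpow_add₀ (by norm_num), mul_comm ((2 : ℚ) ^ (vc (w - 2 * n) t : ℤ))]
  exact mul_le_mul_of_nonneg_right hN' h3.le

private theorem SQX_two {a b : ℕ} (hab : (a * b) % 2 = 0) (c : ℕ) : 4 ∣ (a * c) * (2 * b) := by
  obtain ⟨k, hk⟩ := Nat.dvd_of_mod_eq_zero hab
  exact ⟨k * c, by linear_combination (2 * c) * hk⟩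

/-- The numerator: `e = 0`. -/
private theorem SQX_hat0 {w n : ℕ} (hw : w % 2 = 1) (hn : n % 2 = 0) (h : 3 * n ≤ w) :
    4 ∣ Nat.choose n 2 * (2 * w - 3 * n) := by
  obtain ⟨k, rfl⟩ := Nat.dvd_of_mod_eq_zero hn
  have e1 : Nat.choose (2 * k) 2 = k * (2 * k - 1) := by
    rw [Nat.choose_two_right, mul_assoc, Nat.mul_div_cancel_left _ (by norm_num)]
  have e2 : 2 * w - 3 * (2 * k) = 2 * (w - 3 * k) := by omega
  rw [e1, e2]
  apply SQX_two
  rcases Nat.mod_two_eq_zero_or_one k with hk | hk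
  · rw [Nat.mul_mod, hk]; simp
  · have : (w - 3 * k) % 2 = 0 := by omega
    rw [Nat.mul_mod, this]; simp

/-- The numerator: `e = 1`. -/
private theorem SQX_hat1 {w n : ℕ} (hw : w % 2 = 1) (hn : n % 2 = 1) (h : 3 * n ≤ w) :
    4 ∣ Nat.choose n 2 * (2 * w - 3 * n + 3) := by
  obtain ⟨k, hk⟩ : ∃ k, n = 2 * k + 1 := ⟨n / 2, by omega⟩
  subst hk
  have e1 : Nat.choose (2 * k + 1) 2 = k * (2 * k + 1) := by
    rw [Nat.choose_two_right, show 2 * k + 1 - 1 = 2 * k by omega,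
      show (2 * k + 1) * (2 * k) = 2 * (k * (2 * k + 1)) by ring,
      Nat.mul_div_cancel_left _ (by norm_num)]
  have e2 : 2 * w - 3 * (2 * k + 1) + 3 = 2 * (w - 3 * k) := by omega
  rw [e1, e2]
  apply SQX_two
  rcases Nat.mod_two_eq_zero_or_one k with hk | hk
  · rw [Nat.mul_mod, hk]; simp
  · have : (w - 3 * k) % 2 = 0 := by omega
    rw [Nat.mul_mod, this]; simp

theorem XE_norm {e w n t : ℕ} (he : e ≤ 1) (ht : t < n) (h : 3 * n + e ≤ w) :
    padicNorm 2 (XE e w (n - t) n) ≤ (2 : ℚ) ^ (pX e w n t + 2 * t) := by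
  have hn : 3 * n ≤ w := by omega
  have key : ∃ N : ℕ, XE e w (n - t) n *
      (∏ m ∈ Finset.range t, (2 * (w : ℚ) - 2 * n + 1 + 2 * m)) *
        (Nat.choose (w - 2 * n + t) t : ℚ) =
      (∏ m ∈ Finset.range t, (2 * (m : ℚ) + 1)) * (N : ℚ) ∧
      (w % 2 = 1 ∧ (n + e) % 2 = 0 ∧ t = 1 → 4 ∣ N) := by
    have hcl := xv_closed hn ht
    rcases Nat.eq_zero_or_pos e with he0 | he0
    · subst he0
      refine ⟨Nat.choose (n + t - 1) (2 * t) * Nat.choose (2 * w - 3 * n + t - 1) t, ?_, ?_⟩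
      · unfold XE
        rw [if_pos rfl, hcl]
        push_cast
        ring
      · rintro ⟨hw, hne, rfl⟩
        have h1 := SQX_hat0 hw (by simpa using hne) hn
        rw [show n + 1 - 1 = n by omega, show 2 * w - 3 * n + 1 - 1 = 2 * w - 3 * n by omega,
          Nat.choose_one_right]
        exact h1
    · have he1 : e = 1 := by omega
      subst he1
      have hq : (3 : ℚ) * n + 1 ≤ w := by exact_mod_cast h
      have hq0 : (0 : ℚ) ≤ n := Nat.cast_nonneg n
      have hM : (2 * (w : ℚ) - 3 * n) ≠ 0 := by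
        have : (0 : ℚ) < 2 * (w : ℚ) - 3 * n := by linarith
        exact this.ne'
      have hX : XE 1 w (n - t) n =
          (2 * w - 3 * n + 3 * t) / (2 * w - 3 * n) * xv w n (n - t) := by
        unfold XE
        rw [if_neg (by norm_num), Nat.cast_sub ht.le]
        congr 2
        ring
      rcases Nat.eq_zero_or_pos t with ht0 | ht0
      · subst ht0
        refine ⟨1, ?_, by omega⟩
        rw [hX, Nat.cast_zero, mul_zero, add_zero, div_self hM, one_mul, hcl]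
        simp
      · obtain ⟨s, rfl⟩ : ∃ s, t = s + 1 := ⟨t - 1, by omega⟩
        refine ⟨Nat.choose (n + (s + 1) - 1) (2 * (s + 1)) *
          (Nat.choose (2 * w - 3 * n + (s + 1) - 1) (s + 1) +
            3 * Nat.choose (2 * w - 3 * n + (s + 1) - 1) s), ?_, ?_⟩
        · have h2 := Nat.choose_succ_right_eq (2 * w - 3 * n + (s + 1) - 1) s
          rw [show 2 * w - 3 * n + (s + 1) - 1 - s = 2 * w - 3 * n by omega] at h2
          have h2' : ((Nat.choose (2 * w - 3 * n + (s + 1) - 1) (s + 1) * (s + 1) : ℕ) : ℚ) =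
            ((Nat.choose (2 * w - 3 * n + (s + 1) - 1) s * (2 * w - 3 * n) : ℕ) : ℚ) := by rw [h2]
          push_cast [Nat.cast_sub (show 3 * n ≤ 2 * w by omega)] at h2'
          rw [hX]
          push_cast at hcl ⊢
          generalize xv w n (n - (s + 1)) = X at *
          generalize (Nat.choose (w - 2 * n + (s + 1)) (s + 1) : ℚ) = A at *
          generalize (Nat.choose (2 * w - 3 * n + (s + 1) - 1) (s + 1) : ℚ) = B at *
          generalize (Nat.choose (2 * w - 3 * n + (s + 1) - 1) s : ℚ) = B' at *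
          generalize (Nat.choose (n + (s + 1) - 1) (2 * (s + 1)) : ℚ) = D at *
          generalize (∏ m ∈ Finset.range (s + 1), (2 * (w : ℚ) - 2 * n + 1 + 2 * m)) = P at *
          generalize (∏ m ∈ Finset.range (s + 1), (2 * (m : ℚ) + 1)) = Q at *
          apply mul_left_cancel₀ hM
          have e3 : (2 * (w : ℚ) - 3 * n) * ((2 * w - 3 * n + 3 * (s + 1)) / (2 * w - 3 * n) *
              X * P * A) = (2 * w - 3 * n + 3 * (s + 1)) * (X * P * A) := by
            field_simp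
          rw [e3, hcl]
          linear_combination (3 * Q * D) * h2'
        · rintro ⟨hw, hne, h1⟩
          have hs : s = 0 := by omega
          subst hs
          have h1 := SQX_hat1 (n := n) hw (by omega) hn
          simpa using h1
  obtain ⟨N, hN1, hN2⟩ := key
  unfold pX
  by_cases hh : w % 2 = 1 ∧ (n + e) % 2 = 0 ∧ t = 1
  · rw [if_pos hh]
    have h1 := SQX_core (h := 2) hn hN1 (hN2 hh)
    refine h1.trans (le_of_eq ?_)
    congr 1
    push_cast
    ring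
  · rw [if_neg hh]
    have h1 := SQX_core (h := 0) hn hN1 (one_dvd _)
    refine h1.trans (le_of_eq ?_)
    congr 1
    push_cast
    ring

end MT2
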