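import Mathlib

/-!
# The Hodge-Newton lemma

`v` a valuation of an algebraically closed field.

* `roots_count_of_red`: the roots of a polynomial with the reduction `unit * X ^ n`.
* `block_count`: the number of the eigenvalues of `fromBlocks A B C' E` of valuation larger
  (smaller) than `v π`, if `v (π * A⁻¹) < 1`, `v (C' * A⁻¹) ≤ 1`, `v (A⁻¹ * B) ≤ 1`,
  `v (A⁻¹ * B * (C' * A⁻¹)) < 1` and `v (E - C' * A⁻¹ * B) < v π` for all entries.
* `block_count_mul`: the same for `fromBlocks A B C' E * W`, `W - 1` small.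
* `lu_count`: the same for `L * diagonal δ * U * W`, `L`, `U` block triangular.
* `distinct_of_cuts`: many cuts give many distinct roots.
-/

open Polynomial Matrix

namespace MT2


/-- The roots of a polynomial with the reduction `unit * X ^ n`. -/
theorem roots_count_of_red {K Γ : Type} [Field K] [IsAlgClosed K]
    [LinearOrderedCommGroupWithZero Γ] (v : Valuation K Γ) (N : ℕ) :
    ∀ (g : K[X]) (n : ℕ), g.natDegree = N → v (g.coeff n) = 1 →
      (∀ j, j ≠ n → v (g.coeff j) < 1) →
      g.roots.countP (fun r => v r < 1) = n ∧ ∀ r ∈ g.roots, v r ≠ 1 := by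
  classical
  induction N with
  | zero =>
    intro g n hN hn hj
    have hg : g = C (g.coeff 0) := eq_C_of_natDegree_eq_zero hN
    have hn0 : n = 0 := by
      by_contra h
      rw [hg, coeff_C_of_ne_zero h, map_zero] at hn
      exact zero_ne_one hn
    subst hn0
    rw [hg, roots_C]
    simp
  | succ N ih =>
    intro g n hN hn hj
    have hg0 : g ≠ 0 := by
      rintro rfl
      simp at hN
    have hdeg : g.degree ≠ 0 := by
      rw [degree_eq_natDegree hg0, hN]
      exact_mod_cast Nat.succ_ne_zero N
    obtain ⟨r, hr⟩ := IsAlgClosed.exists_root g hdeg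
    obtain ⟨h, hgh⟩ := dvd_iff_isRoot.mpr hr
    have hh0 : h ≠ 0 := by
      rintro rfl
      rw [mul_zero] at hgh
      exact hg0 hgh
    have hhd : h.natDegree = N := by
      have h1 : g.natDegree = (X - C r).natDegree + h.natDegree := by
        rw [hgh]
        exact natDegree_mul (X_sub_C_ne_zero r) hh0
      rw [natDegree_X_sub_C, hN] at h1
      omega
    have hc0 : g.coeff 0 = -(r * h.coeff 0) := by
      rw [hgh, sub_mul, coeff_sub, coeff_C_mul, mul_coeff_zero, coeff_X_zero]
      ring
    have hcs : ∀ j, g.coeff (j + 1) = h.coeff j - r * h.coeff (j + 1) := by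
      intro j
      rw [hgh, sub_mul, coeff_sub, coeff_C_mul, coeff_X_mul]
    have hroots : g.roots = r ::ₘ h.roots := by
      rw [hgh, roots_mul (by rw [← hgh]; exact hg0), roots_X_sub_C]
      rfl
    have hle : ∀ j, v (g.coeff j) ≤ 1 := by
      intro j
      by_cases h1 : j = n
      · rw [h1, hn]
      · exact (hj j h1).le
    have hv1 : v r ≠ 1 := by
      intro h1
      have h2 : g.eval r = 0 := hr
      rw [eval_eq_sum_range] at h2
      have hmem : n ∈ Finset.range (g.natDegree + 1) := by
        rw [Finset.mem_range]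
        have h3 : g.coeff n ≠ 0 := by
          intro h4
          rw [h4, map_zero] at hn
          exact zero_ne_one hn
        have := le_natDegree_of_ne_zero h3
        omega
      rw [← Finset.add_sum_erase _ _ hmem] at h2
      have h3 : v (g.coeff n * r ^ n) = 1 := by rw [map_mul, map_pow, hn, h1, one_pow, one_mul]
      have h4 : v (∑ x ∈ (Finset.range (g.natDegree + 1)).erase n, g.coeff x * r ^ x) < 1 := by
        apply Valuation.map_sum_lt _ one_ne_zero
        intro i hi
        rw [Finset.mem_erase] at hi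
        rw [map_mul, map_pow, h1, one_pow, mul_one]
        exact hj i hi.1
      have h5 := Valuation.map_add_eq_of_lt_right v (x := ∑ x ∈ (Finset.range (g.natDegree + 1)).erase n,
        g.coeff x * r ^ x) (y := g.coeff n * r ^ n) (by rw [h3]; exact h4)
      rw [add_comm, h2, map_zero, h3] at h5
      exact zero_ne_one h5
    rcases lt_or_gt_of_ne hv1 with hlt | hgt
    · -- small root
      have hb : ∀ k j, j + k = N + 1 → v (h.coeff j) ≤ 1 := by
        intro k
        induction k with
        | zero =>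
          intro j hjk
          rw [coeff_eq_zero_of_natDegree_lt (by omega), map_zero]
          exact zero_le_one
        | succ k ihk =>
          intro j hjk
          have h1 : h.coeff j = g.coeff (j + 1) + r * h.coeff (j + 1) := by
            rw [hcs]
            ring
          rw [h1]
          apply Valuation.map_add_le v (hle _)
          rw [map_mul]
          exact mul_le_one' hlt.le (ihk (j + 1) (by omega))
      have hb' : ∀ j, v (h.coeff j) ≤ 1 := by
        intro j
        by_cases h1 : j ≤ N + 1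
        · exact hb (N + 1 - j) j (by omega)
        · rw [coeff_eq_zero_of_natDegree_lt (by omega), map_zero]
          exact zero_le_one
      have hs : ∀ j, v (r * h.coeff j) < 1 := by
        intro j
        rw [map_mul]
        calc v r * v (h.coeff j) ≤ v r * 1 := mul_le_mul_right (hb' j) _
          _ < 1 := by rw [mul_one]; exact hlt
      obtain ⟨n', rfl⟩ : ∃ n', n = n' + 1 := by
        rcases Nat.eq_zero_or_pos n with h1 | h1
        · exfalso
          rw [h1, hc0, Valuation.map_neg] at hn
          exact absurd hn (hs 0).ne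
        · exact ⟨n - 1, by omega⟩
      have hkey : ∀ j, h.coeff j = r * h.coeff (j + 1) + g.coeff (j + 1) := by
        intro j
        rw [hcs]
        ring
      have h1 : v (h.coeff n') = 1 := by
        rw [hkey, Valuation.map_add_eq_of_lt_right v (by rw [hn]; exact hs _), hn]
      have h2 : ∀ j, j ≠ n' → v (h.coeff j) < 1 := by
        intro j hjn
        rw [hkey]
        exact Valuation.map_add_lt v (hs _) (hj _ (by omega))
      obtain ⟨h3, h4⟩ := ih h n' hhd h1 h2
      rw [hroots, Multiset.countP_cons_of_pos (p := fun r => v r < 1) _ hlt, h3]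
      refine ⟨rfl, ?_⟩
      intro s hsm
      rw [Multiset.mem_cons] at hsm
      rcases hsm with rfl | hsm
      · exact hv1
      · exact h4 s hsm
    · -- large root
      have hr0 : r ≠ 0 := by
        rintro rfl
        rw [map_zero] at hgt
        exact absurd hgt (not_lt.mpr zero_le_one)
      have hinv : v r⁻¹ < 1 := by
        rw [map_inv₀]
        exact inv_lt_one_of_one_lt₀ hgt
      have hH0 : (C (-r) * h).coeff 0 = g.coeff 0 := by
        rw [coeff_C_mul, hc0]
        ring
      have hHs : ∀ j, (C (-r) * h).coeff (j + 1) = r⁻¹ * (C (-r) * h).coeff j + g.coeff (j + 1) := by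
        intro j
        rw [coeff_C_mul, coeff_C_mul, hcs]
        field_simp
        ring
      have hb : ∀ j, v ((C (-r) * h).coeff j) ≤ 1 := by
        intro j
        induction j with
        | zero =>
          rw [hH0]
          exact hle 0
        | succ j ihj =>
          rw [hHs]
          apply Valuation.map_add_le v _ (hle _)
          rw [map_mul]
          exact mul_le_one' hinv.le ihj
      have hs : ∀ j, v (r⁻¹ * (C (-r) * h).coeff j) < 1 := by
        intro j
        rw [map_mul]
        calc v r⁻¹ * v ((C (-r) * h).coeff j) ≤ v r⁻¹ * 1 := mul_le_mul_right (hb j) _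
          _ < 1 := by rw [mul_one]; exact hinv
      have h1 : v ((C (-r) * h).coeff n) = 1 := by
        cases n with
        | zero => rw [hH0, hn]
        | succ n =>
          rw [hHs, Valuation.map_add_eq_of_lt_right v (by rw [hn]; exact hs _), hn]
      have h2 : ∀ j, j ≠ n → v ((C (-r) * h).coeff j) < 1 := by
        intro j hjn
        cases j with
        | zero =>
          rw [hH0]
          exact hj 0 hjn
        | succ j =>
          rw [hHs]
          exact Valuation.map_add_lt v (hs _) (hj _ hjn)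
      have hd : (C (-r) * h).natDegree = N := by
        rw [natDegree_C_mul (neg_ne_zero.mpr hr0), hhd]
      obtain ⟨h3, h4⟩ := ih _ n hd h1 h2
      rw [roots_C_mul _ (neg_ne_zero.mpr hr0)] at h3 h4
      rw [hroots, Multiset.countP_cons_of_neg (p := fun r => v r < 1) _ (not_lt.mpr hgt.le), h3]
      refine ⟨rfl, ?_⟩
      intro s hsm
      rw [Multiset.mem_cons] at hsm
      rcases hsm with rfl | hsm
      · exact hv1
      · exact h4 s hsm

private theorem QHN_general {K ι : Type} [Field K] [Fintype ι] [DecidableEq ι]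
    (T U Ui D M1 M0 : Matrix ι ι K) (π : K)
    (h1 : Ui * M1 * D * U = π • (1 : Matrix ι ι K)) (h0 : Ui * M0 * D * U = T) :
    T.charpoly.comp (C π * X) = C (Ui.det * D.det * U.det) *
      ((X : K[X]) • M1.map (C : K → K[X]) - M0.map (C : K → K[X])).det := by
  have e1 : ∀ M N : Matrix ι ι K, (M * N).map (C : K → K[X]) =
      M.map (C : K → K[X]) * N.map (C : K → K[X]) := by
    intro M N
    exact Matrix.map_mul (f := (C : K →+* K[X]))
  have e2 : ∀ M : Matrix ι ι K, (M.map (C : K → K[X])).det = C M.det := by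
    intro M
    exact (RingHom.map_det (C : K →+* K[X]) M).symm
  have e3 : T.charpoly.comp (C π * X) =
      ((C π * X) • (1 : Matrix ι ι K[X]) - T.map (C : K → K[X])).det := by
    rw [Matrix.charpoly]
    have h2 := RingHom.map_det (Polynomial.compRingHom (C π * X : K[X])) (charmatrix T)
    rw [Polynomial.coe_compRingHom_apply] at h2
    rw [h2]
    congr 1
    ext i j
    rw [RingHom.mapMatrix_apply, Matrix.map_apply, Polynomial.coe_compRingHom_apply,
      Matrix.charmatrix_apply, Matrix.sub_apply, Matrix.smul_apply, Matrix.map_apply,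
      Matrix.one_apply, Matrix.diagonal_apply]
    by_cases hij : i = j
    · simp [hij]
    · simp [hij]
  have key : (C π * X) • (1 : Matrix ι ι K[X]) - T.map (C : K → K[X]) =
      Ui.map (C : K → K[X]) * ((X : K[X]) • M1.map (C : K → K[X]) - M0.map (C : K → K[X])) *
        D.map (C : K → K[X]) * U.map (C : K → K[X]) := by
    rw [Matrix.mul_sub, Matrix.sub_mul, Matrix.sub_mul, ← e1, ← e1, ← e1, h0, Matrix.mul_smul,
      Matrix.smul_mul, Matrix.smul_mul, ← e1, ← e1, ← e1, h1]
    congr 1
    ext i j
    rw [Matrix.smul_apply, Matrix.smul_apply, Matrix.map_apply, Matrix.smul_apply,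
      Matrix.one_apply, Matrix.one_apply]
    by_cases hij : i = j
    · rw [if_pos hij, if_pos hij, smul_eq_mul, smul_eq_mul, smul_eq_mul, mul_one, mul_one,
        mul_comm]
    · rw [if_neg hij, if_neg hij, smul_zero, smul_zero, C_0, smul_zero]
  rw [e3, key, det_mul, det_mul, det_mul, e2, e2, e2, C_mul, C_mul]
  ring

private theorem QHN_res {K Γ m n : Type} [Field K] [LinearOrderedCommGroupWithZero Γ]
    [Fintype m] [Fintype n] [DecidableEq m] [DecidableEq n] (v : Valuation K Γ)
    (a : Matrix m m K) (r21 : Matrix n m K) (M0 : Matrix (m ⊕ n) (m ⊕ n) K)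
    (ha : ∀ i j, v (a i j) < 1) (h21 : ∀ i j, v (r21 i j) ≤ 1)
    (h0 : ∀ i j, v ((M0 - (fromBlocks 1 0 r21 0 : Matrix (m ⊕ n) (m ⊕ n) K)) i j) < 1) (g : K[X])
    (hg : g = ((X : K[X]) • (fromBlocks a 0 0 (1 : Matrix n n K)).map (C : K → K[X]) -
          M0.map (C : K → K[X])).det) :
    v (g.coeff (Fintype.card n)) = 1 ∧ ∀ j, j ≠ Fintype.card n → v (g.coeff j) < 1 := by
  classical
  have hmem : ∀ x : K, x ∈ v.valuationSubring ↔ v x ≤ 1 := v.mem_valuationSubring_iff
  have hlt : ∀ x : v.valuationSubring,
      IsLocalRing.residue v.valuationSubring x = 0 ↔ v (x : K) < 1 := by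
    intro x
    rw [IsLocalRing.residue_eq_zero_iff, ValuationSubring.valuation_lt_one_iff]
    exact (v.isEquiv_valuation_valuationSubring.lt_one_iff_lt_one).symm
  have hM1 : ∀ i j, (fromBlocks a 0 0 (1 : Matrix n n K)) i j ∈ v.valuationSubring := by
    intro i j
    rw [hmem]
    rcases i with i | i <;> rcases j with j | j
    · exact (ha i j).le
    · simp
    · simp
    · simp only [fromBlocks_apply₂₂, Matrix.one_apply]
      split <;> simp
  have hR : ∀ i j, (fromBlocks (1 : Matrix m m K) 0 r21 (0 : Matrix n n K)) i j ∈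
      v.valuationSubring := by
    intro i j
    rw [hmem]
    rcases i with i | i <;> rcases j with j | j
    · simp only [fromBlocks_apply₁₁, Matrix.one_apply]
      split <;> simp
    · simp
    · exact h21 i j
    · simp
  have hM0 : ∀ i j, M0 i j ∈ v.valuationSubring := by
    intro i j
    have h1 : M0 i j = (M0 - (fromBlocks 1 0 r21 0 : Matrix (m ⊕ n) (m ⊕ n) K)) i j + fromBlocks 1 0 r21 0 i j := by
      rw [Matrix.sub_apply, sub_add_cancel]
    rw [h1]
    exact add_mem ((hmem _).mpr (h0 i j).le) (hR i j)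
  obtain ⟨N1, hN1⟩ : ∃ N1 : Matrix (m ⊕ n) (m ⊕ n) v.valuationSubring,
      N1.map (fun x => (x : K)) = fromBlocks a 0 0 (1 : Matrix n n K) :=
    ⟨fun i j => ⟨_, hM1 i j⟩, rfl⟩
  obtain ⟨N0, hN0⟩ : ∃ N0 : Matrix (m ⊕ n) (m ⊕ n) v.valuationSubring,
      N0.map (fun x => (x : K)) = M0 :=
    ⟨fun i j => ⟨_, hM0 i j⟩, rfl⟩
  obtain ⟨G, hG⟩ : ∃ G : v.valuationSubring[X], G =
      ((X : v.valuationSubring[X]) • N1.map (C : v.valuationSubring → v.valuationSubring[X]) -
        N0.map (C : v.valuationSubring → v.valuationSubring[X])).det := ⟨_, rfl⟩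
  have hgG : G.map v.valuationSubring.subtype = g := by
    rw [hG, ← coe_mapRingHom, RingHom.map_det, hg]
    congr 1
    ext1 i j
    rw [RingHom.mapMatrix_apply, Matrix.map_apply, Matrix.sub_apply, Matrix.smul_apply,
      Matrix.map_apply, Matrix.map_apply, Matrix.sub_apply, Matrix.smul_apply, Matrix.map_apply,
      Matrix.map_apply, ← hN1, ← hN0, Matrix.map_apply, Matrix.map_apply, coe_mapRingHom,
      smul_eq_mul, smul_eq_mul, Polynomial.map_sub, Polynomial.map_mul, map_X, map_C, map_C]
    rfl
  have e0 : ∀ i j, IsLocalRing.residue v.valuationSubring (N0 i j) =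
      IsLocalRing.residue v.valuationSubring ⟨_, hR i j⟩ := by
    intro i j
    rw [← sub_eq_zero, ← map_sub, hlt]
    have h1 : ((N0 i j - ⟨_, hR i j⟩ : v.valuationSubring) : K) =
        (M0 - (fromBlocks 1 0 r21 0 : Matrix (m ⊕ n) (m ⊕ n) K)) i j := by
      rw [← hN0]
      rfl
    rw [h1]
    exact h0 i j
  have e1 : ∀ i j, ((N1 i j : v.valuationSubring) : K) =
      fromBlocks a 0 0 (1 : Matrix n n K) i j := by
    intro i j
    rw [← hN1]
    rfl
  have hres : G.map (IsLocalRing.residue v.valuationSubring) =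
      (C ((-1) ^ Fintype.card m) * X ^ Fintype.card n :
        (IsLocalRing.ResidueField v.valuationSubring)[X]) := by
    rw [hG, ← coe_mapRingHom, RingHom.map_det]
    have h3 : (mapRingHom (IsLocalRing.residue v.valuationSubring)).mapMatrix
        ((X : v.valuationSubring[X]) • N1.map (C : v.valuationSubring → v.valuationSubring[X]) -
        N0.map (C : v.valuationSubring → v.valuationSubring[X])) =
        fromBlocks (-1 : Matrix m m (IsLocalRing.ResidueField v.valuationSubring)[X]) 0
          (of fun i j => - C (IsLocalRing.residue v.valuationSubring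
          (N0 (Sum.inr i) (Sum.inl j))))
          ((X : (IsLocalRing.ResidueField v.valuationSubring)[X]) •
            (1 : Matrix n n (IsLocalRing.ResidueField v.valuationSubring)[X])) := by
      ext1 i j
      rw [RingHom.mapMatrix_apply, Matrix.map_apply, Matrix.sub_apply, Matrix.smul_apply,
        Matrix.map_apply, Matrix.map_apply, coe_mapRingHom,
        smul_eq_mul, Polynomial.map_sub, Polynomial.map_mul, map_X, map_C, map_C]
      rcases i with i | i <;> rcases j with j | j
      · have h4 : IsLocalRing.residue v.valuationSubring (N1 (Sum.inl i) (Sum.inl j)) = 0 := by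
          rw [hlt, e1]
          exact ha i j
        have h5 : IsLocalRing.residue v.valuationSubring (N0 (Sum.inl i) (Sum.inl j)) =
            if i = j then 1 else 0 := by
          have h6 : (⟨_, hR (Sum.inl i) (Sum.inl j)⟩ : v.valuationSubring) =
              if i = j then 1 else 0 := by
            apply Subtype.ext
            simp only [fromBlocks_apply₁₁, Matrix.one_apply]
            split <;> simp
          rw [e0, h6]
          split <;> simp
        rw [h4, h5, fromBlocks_apply₁₁, Matrix.neg_apply, Matrix.one_apply]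
        split <;> simp
      · have h4 : IsLocalRing.residue v.valuationSubring (N1 (Sum.inl i) (Sum.inr j)) = 0 := by
          rw [hlt, e1]
          simp
        have h5 : IsLocalRing.residue v.valuationSubring (N0 (Sum.inl i) (Sum.inr j)) = 0 := by
          rw [e0, hlt]
          simp
        rw [h4, h5]
        simp
      · have h4 : IsLocalRing.residue v.valuationSubring (N1 (Sum.inr i) (Sum.inl j)) = 0 := by
          rw [hlt, e1]
          simp
        rw [h4]
        simp
      · have h5 : IsLocalRing.residue v.valuationSubring (N0 (Sum.inr i) (Sum.inr j)) = 0 := by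
          rw [e0, hlt]
          simp
        have h4 : N1 (Sum.inr i) (Sum.inr j) = if i = j then 1 else 0 := by
          apply Subtype.ext
          rw [e1, fromBlocks_apply₂₂, Matrix.one_apply]
          split <;> simp
        rw [h4, h5, fromBlocks_apply₂₂, Matrix.smul_apply, Matrix.one_apply]
        split <;> simp
    rw [h3, det_fromBlocks_zero₁₂, det_smul, det_one, det_neg, det_one]
    simp
  have hco : ∀ j, g.coeff j = ((G.coeff j : v.valuationSubring) : K) := by
    intro j
    rw [← hgG, coeff_map]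
    rfl
  have hre : ∀ j, IsLocalRing.residue v.valuationSubring (G.coeff j) =
      if j = Fintype.card n then (-1) ^ Fintype.card m else 0 := by
    intro j
    rw [← coeff_map, hres, coeff_C_mul, coeff_X_pow]
    split <;> simp
  constructor
  · rw [hco]
    apply le_antisymm ((hmem _).mp (G.coeff _).2)
    rw [← not_lt, ← hlt, hre, if_pos rfl]
    exact pow_ne_zero _ (neg_ne_zero.mpr one_ne_zero)
  · intro j hj
    rw [hco, ← hlt, hre, if_neg hj]

private theorem QHN_factor {K Γ m n : Type} [Field K] [LinearOrderedCommGroupWithZero Γ]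
    [Fintype m] [Fintype n] [DecidableEq m] [DecidableEq n] (v : Valuation K Γ)
    (A Ai : Matrix m m K) (B : Matrix m n K) (C' : Matrix n m K)
    (E : Matrix n n K) (W : Matrix (m ⊕ n) (m ⊕ n) K) (π : K) (hπ : π ≠ 0) (hA : A * Ai = 1)
    (hAi : ∀ i j, v (π * Ai i j) < 1)
    (hQP : ∀ i j, v ((Ai * B * (C' * Ai)) i j) < 1) (hQ : ∀ i j, v ((Ai * B) i j) ≤ 1)
    (hP : ∀ i j, v ((C' * Ai) i j) ≤ 1)
    (hS1 : ∀ i j, v ((π⁻¹ • (E - C' * Ai * B)) i j) < 1)
    (hS2 : ∀ i j, v ((π⁻¹ • (Ai * B * (E - C' * Ai * B))) i j) < 1)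
    (hW : ∀ i j, v ((W - 1) i j) < 1) :
    ∃ g : K[X], (fromBlocks A B C' E * W).charpoly.comp (C π * X) =
      C (A.det * π ^ Fintype.card n) * g ∧
      v (g.coeff (Fintype.card n)) = 1 ∧ ∀ j, j ≠ Fintype.card n → v (g.coeff j) < 1 := by
  classical
  have hA' : Ai * A = 1 := mul_eq_one_comm.mp hA
  have hA2 : ∀ (k : Type) (Z : Matrix k m K), Z * Ai * A = Z := by
    intro k Z
    rw [Matrix.mul_assoc, hA', Matrix.mul_one]
  have hA3 : ∀ (k : Type) (Z : Matrix m k K), A * (Ai * Z) = Z := by
    intro k Z
    rw [← Matrix.mul_assoc, hA, Matrix.one_mul]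
  obtain ⟨U, hU⟩ : ∃ U : Matrix (m ⊕ n) (m ⊕ n) K, U =
      fromBlocks 1 (Ai * B) 0 (1 : Matrix n n K) := ⟨_, rfl⟩
  obtain ⟨Ui, hUi⟩ : ∃ Ui : Matrix (m ⊕ n) (m ⊕ n) K, Ui =
      fromBlocks 1 (-(Ai * B)) 0 (1 : Matrix n n K) := ⟨_, rfl⟩
  obtain ⟨D, hD⟩ : ∃ D : Matrix (m ⊕ n) (m ⊕ n) K, D =
      fromBlocks A 0 0 (π • (1 : Matrix n n K)) := ⟨_, rfl⟩
  obtain ⟨M0, hM0⟩ : ∃ M0 : Matrix (m ⊕ n) (m ⊕ n) K, M0 =
    fromBlocks (1 + Ai * B * (C' * Ai)) (π⁻¹ • (Ai * B * (E - C' * Ai * B))) (C' * Ai)
            (π⁻¹ • (E - C' * Ai * B)) := ⟨_, rfl⟩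
  have hUUi : U * Ui = 1 := by
    rw [hU, hUi]
    simp only [fromBlocks_multiply, Matrix.one_mul, Matrix.mul_one, Matrix.mul_zero,
      Matrix.zero_mul, add_zero, zero_add]
    rw [neg_add_cancel, fromBlocks_one]
  have hT0 : Ui * M0 * D * U = fromBlocks A B C' E := by
    rw [hUi, hM0, hD, hU]
    simp only [fromBlocks_multiply, Matrix.one_mul, Matrix.mul_one, Matrix.mul_zero,
      Matrix.zero_mul, add_zero, zero_add, Matrix.mul_smul, Matrix.neg_mul]
    rw [add_neg_cancel_right, Matrix.one_mul, hA2, hA3, smul_neg, add_neg_cancel, smul_zero,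
      add_zero, smul_zero, zero_add, smul_smul, mul_inv_cancel₀ hπ, one_smul,
      ← Matrix.mul_assoc, add_sub_cancel]
  have h := QHN_general (W * fromBlocks A B C' E) U Ui D
    (fromBlocks (π • Ai) 0 0 (1 : Matrix n n K)) ((U * W * Ui) * M0) π ?_ ?_
  · refine ⟨((X : K[X]) • (fromBlocks (π • Ai) 0 0 (1 : Matrix n n K)).map (C : K → K[X]) -
      (U * W * Ui * M0).map (C : K → K[X])).det, ?_, ?_⟩
    · rw [charpoly_mul_comm, h]
      congr 1
      congr 1
      rw [hUi, hD, hU, det_fromBlocks_zero₂₁, det_fromBlocks_zero₂₁, det_fromBlocks_zero₂₁,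
        det_smul]
      simp
    · apply QHN_res v (π • Ai) (C' * Ai) (U * W * Ui * M0) _ hP _ _ rfl
      · intro i j
        rw [Matrix.smul_apply, smul_eq_mul]
        exact hAi i j
      · have hM0' : ∀ i j, v ((M0 - (fromBlocks 1 0 (C' * Ai) 0 : Matrix (m ⊕ n) (m ⊕ n) K)) i j) < 1 := by
          intro i j
          rw [hM0]
          rcases i with i | i <;> rcases j with j | j
          · simp only [Matrix.sub_apply, fromBlocks_apply₁₁, Matrix.add_apply,
              add_sub_cancel_left]
            exact hQP i j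
          · simp only [Matrix.sub_apply, fromBlocks_apply₁₂, Matrix.zero_apply, sub_zero]
            exact hS2 i j
          · simp
          · simp only [Matrix.sub_apply, fromBlocks_apply₂₂, Matrix.zero_apply, sub_zero]
            exact hS1 i j
        have hR : ∀ i j, v ((fromBlocks (1 : Matrix m m K) 0 (C' * Ai)
            (0 : Matrix n n K)) i j) ≤ 1 := by
          intro i j
          rcases i with i | i <;> rcases j with j | j
          · simp only [fromBlocks_apply₁₁, Matrix.one_apply]
            split <;> simp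
          · simp
          · exact hP i j
          · simp
        have hM0'' : ∀ i j, v (M0 i j) ≤ 1 := by
          intro i j
          have h1 : M0 i j = (M0 - (fromBlocks 1 0 (C' * Ai) 0 : Matrix (m ⊕ n) (m ⊕ n) K)) i j +
              fromBlocks 1 0 (C' * Ai) 0 i j := by
            rw [Matrix.sub_apply, sub_add_cancel]
          rw [h1]
          exact Valuation.map_add_le v (hM0' i j).le (hR i j)
        have hU' : ∀ i j, v (U i j) ≤ 1 := by
          intro i j
          rw [hU]
          rcases i with i | i <;> rcases j with j | j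
          · simp only [fromBlocks_apply₁₁, Matrix.one_apply]
            split <;> simp
          · exact hQ i j
          · simp
          · simp only [fromBlocks_apply₂₂, Matrix.one_apply]
            split <;> simp
        have hUi' : ∀ i j, v (Ui i j) ≤ 1 := by
          intro i j
          rw [hUi]
          rcases i with i | i <;> rcases j with j | j
          · simp only [fromBlocks_apply₁₁, Matrix.one_apply]
            split <;> simp
          · simp only [fromBlocks_apply₁₂, Matrix.neg_apply, Valuation.map_neg]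
            exact hQ i j
          · simp
          · simp only [fromBlocks_apply₂₂, Matrix.one_apply]
            split <;> simp
        have hml : ∀ (M N : Matrix (m ⊕ n) (m ⊕ n) K), (∀ i j, v (M i j) ≤ 1) →
            (∀ i j, v (N i j) < 1) → ∀ i j, v ((M * N) i j) < 1 := by
          intro M N hM hN i j
          rw [Matrix.mul_apply]
          apply Valuation.map_sum_lt _ one_ne_zero
          intro k _
          rw [map_mul]
          calc v (M i k) * v (N k j) ≤ 1 * v (N k j) := mul_le_mul_left (hM i k) _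
            _ < 1 := by rw [one_mul]; exact hN k j
        have hmr : ∀ (M N : Matrix (m ⊕ n) (m ⊕ n) K), (∀ i j, v (M i j) < 1) →
            (∀ i j, v (N i j) ≤ 1) → ∀ i j, v ((M * N) i j) < 1 := by
          intro M N hM hN i j
          rw [Matrix.mul_apply]
          apply Valuation.map_sum_lt _ one_ne_zero
          intro k _
          rw [map_mul]
          calc v (M i k) * v (N k j) ≤ v (M i k) * 1 := mul_le_mul_right (hN k j) _
            _ < 1 := by rw [mul_one]; exact hM i k
        have e1 : U * W * Ui * M0 - fromBlocks 1 0 (C' * Ai) 0 =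
            U * (W - 1) * Ui * M0 + (M0 - (fromBlocks 1 0 (C' * Ai) 0 : Matrix (m ⊕ n) (m ⊕ n) K)) := by
          rw [Matrix.mul_sub, Matrix.mul_one, Matrix.sub_mul, Matrix.sub_mul, hUUi,
            Matrix.one_mul]
          abel
        intro i j
        rw [e1, Matrix.add_apply]
        apply Valuation.map_add_lt v _ (hM0' i j)
        exact hmr _ _ (hmr _ _ (hml _ _ hU' hW) hUi') hM0'' i j
  · rw [hUi, hD, hU]
    simp only [fromBlocks_multiply, Matrix.one_mul, Matrix.mul_one, Matrix.mul_zero,
      Matrix.zero_mul, add_zero, zero_add, Matrix.smul_mul, Matrix.mul_smul, hA']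
    rw [← fromBlocks_one, fromBlocks_smul]
    congr 1
    · simp
    · simp
  · have h2 : Ui * (U * W * Ui * M0) * D * U = (Ui * U) * W * (Ui * M0 * D * U) := by
      simp only [Matrix.mul_assoc]
    rw [h2, mul_eq_one_comm.mp hUUi, Matrix.one_mul, hT0]

/-- The Hodge-Newton lemma: the number of the large and of the small eigenvalues of
`fromBlocks A B C' E * W`. -/
theorem block_count_mul {K Γ m n : Type} [Field K] [IsAlgClosed K]
    [LinearOrderedCommGroupWithZero Γ]
    [Fintype m] [Fintype n] [DecidableEq m] [DecidableEq n] (v : Valuation K Γ)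
    (A Ai : Matrix m m K) (B : Matrix m n K) (C' : Matrix n m K) (E : Matrix n n K)
    (W : Matrix (m ⊕ n) (m ⊕ n) K) (π : K)
    (hπ : π ≠ 0) (hA : A * Ai = 1) (hAi : ∀ i j, v (π * Ai i j) < 1)
    (hQP : ∀ i j, v ((Ai * B * (C' * Ai)) i j) < 1) (hQ : ∀ i j, v ((Ai * B) i j) ≤ 1)
    (hP : ∀ i j, v ((C' * Ai) i j) ≤ 1) (hS : ∀ i j, v ((E - C' * Ai * B) i j) < v π)
    (hW : ∀ i j, v ((W - 1) i j) < 1) :
    (fromBlocks A B C' E * W).charpoly.roots.countP (fun r => v r < v π) = Fintype.card n ∧
    (fromBlocks A B C' E * W).charpoly.roots.countP (fun r => v π < v r) = Fintype.card m ∧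
    ∀ r ∈ (fromBlocks A B C' E * W).charpoly.roots, v r ≠ v π := by
  classical
  have hvπ : v π ≠ 0 := (Valuation.ne_zero_iff v).mpr hπ
  have hvπ' : 0 < v π := zero_lt_iff.mpr hvπ
  have hdet : A.det ≠ 0 := by
    intro h
    have h1 := congrArg Matrix.det hA
    rw [det_mul, h, zero_mul, det_one] at h1
    exact zero_ne_one h1
  have hS1 : ∀ i j, v ((π⁻¹ • (E - C' * Ai * B)) i j) < 1 := by
    intro i j
    rw [Matrix.smul_apply, smul_eq_mul, map_mul, map_inv₀, inv_mul_lt_iff₀ hvπ', mul_one]
    exact hS i j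
  have hS2 : ∀ i j, v ((π⁻¹ • (Ai * B * (E - C' * Ai * B))) i j) < 1 := by
    intro i j
    rw [← Matrix.mul_smul, Matrix.mul_apply]
    apply Valuation.map_sum_lt _ one_ne_zero
    intro k _
    rw [map_mul]
    calc v ((Ai * B) i k) * v ((π⁻¹ • (E - C' * Ai * B)) k j)
        ≤ 1 * v ((π⁻¹ • (E - C' * Ai * B)) k j) := mul_le_mul_left (hQ i k) _
      _ < 1 := by rw [one_mul]; exact hS1 k j
  obtain ⟨g, hf, h1, h2⟩ := QHN_factor v A Ai B C' E W π hπ hA hAi hQP hQ hP hS1 hS2 hW
  have hc : A.det * π ^ Fintype.card n ≠ 0 := mul_ne_zero hdet (pow_ne_zero _ hπ)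
  obtain ⟨h3, h4⟩ := roots_count_of_red v g.natDegree g (Fintype.card n) rfl h1 h2
  have hroots : g.roots = (fromBlocks A B C' E * W).charpoly.roots.map (fun r => r * π⁻¹) := by
    have h5 := roots_comp_C_mul_X_add_C (fromBlocks A B C' E * W).charpoly π 0 hπ.isUnit
    rw [C_0, add_zero, hf, roots_C_mul _ hc] at h5
    rw [h5]
    apply Multiset.map_congr rfl
    intro r _
    rw [sub_zero, Ring.inverse_eq_inv', mul_comm]
  have hcard : Multiset.card (fromBlocks A B C' E * W).charpoly.roots =
      Fintype.card m + Fintype.card n := by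
    rw [splits_iff_card_roots.mp (IsAlgClosed.splits _), charpoly_natDegree_eq_dim,
      Fintype.card_sum]
  have hne : ∀ r ∈ (fromBlocks A B C' E * W).charpoly.roots, v r ≠ v π := by
    intro r hr h5
    have h6 : r * π⁻¹ ∈ g.roots := by
      rw [hroots]
      exact Multiset.mem_map_of_mem _ hr
    apply h4 _ h6
    rw [map_mul, map_inv₀, h5, mul_inv_cancel₀ hvπ]
  have hlt : (fromBlocks A B C' E * W).charpoly.roots.countP (fun r => v r < v π) =
      Fintype.card n := by
    rw [← h3, hroots, Multiset.countP_map, ← Multiset.countP_eq_card_filter]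
    apply Multiset.countP_congr rfl
    intro r _
    rw [map_mul, map_inv₀, mul_inv_lt_iff₀ hvπ', one_mul]
  refine ⟨hlt, ?_, hne⟩
  have h7 := Multiset.card_eq_countP_add_countP (fun r => v r < v π)
    (fromBlocks A B C' E * W).charpoly.roots
  have h8 : (fromBlocks A B C' E * W).charpoly.roots.countP (fun r => ¬ v r < v π) =
      (fromBlocks A B C' E * W).charpoly.roots.countP (fun r => v π < v r) := by
    apply Multiset.countP_congr rfl
    intro r hr
    rw [not_lt]
    exact propext ⟨fun h => lt_of_le_of_ne h (hne r hr).symm, fun h => h.le⟩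
  omega

/-- The Hodge-Newton lemma: the number of the large and of the small eigenvalues of
`fromBlocks A B C' E`. -/
theorem block_count {K Γ m n : Type} [Field K] [IsAlgClosed K]
    [LinearOrderedCommGroupWithZero Γ]
    [Fintype m] [Fintype n] [DecidableEq m] [DecidableEq n] (v : Valuation K Γ)
    (A Ai : Matrix m m K) (B : Matrix m n K) (C' : Matrix n m K) (E : Matrix n n K) (π : K)
    (hπ : π ≠ 0) (hA : A * Ai = 1) (hAi : ∀ i j, v (π * Ai i j) < 1)
    (hQP : ∀ i j, v ((Ai * B * (C' * Ai)) i j) < 1) (hQ : ∀ i j, v ((Ai * B) i j) ≤ 1)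
    (hP : ∀ i j, v ((C' * Ai) i j) ≤ 1) (hS : ∀ i j, v ((E - C' * Ai * B) i j) < v π) :
    (fromBlocks A B C' E).charpoly.roots.countP (fun r => v r < v π) = Fintype.card n ∧
    (fromBlocks A B C' E).charpoly.roots.countP (fun r => v π < v r) = Fintype.card m ∧
    ∀ r ∈ (fromBlocks A B C' E).charpoly.roots, v r ≠ v π := by
  have h := block_count_mul v A Ai B C' E 1 π hπ hA hAi hQP hQ hP hS (by
    intro i j
    rw [sub_self, Matrix.zero_apply, map_zero]
    exact zero_lt_one)
  rw [Matrix.mul_one] at h
  exact h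

private theorem QHN_lu_sum {K Γ m n : Type} [Field K] [IsAlgClosed K]
    [LinearOrderedCommGroupWithZero Γ]
    [Fintype m] [Fintype n] [DecidableEq m] [DecidableEq n] (v : Valuation K Γ)
    (L11 Li11 U11 Ui11 : Matrix m m K) (L21 : Matrix n m K) (U12 : Matrix m n K)
    (L22 U22 : Matrix n n K) (d1 : m → K) (d2 : n → K)
    (W : Matrix (m ⊕ n) (m ⊕ n) K) (π : K) (hπ : π ≠ 0)
    (hL : L11 * Li11 = 1) (hU : U11 * Ui11 = 1) (hd : ∀ i, d1 i ≠ 0)
    (hAi : ∀ i j, v (π * (Ui11 * diagonal (fun k => (d1 k)⁻¹) * Li11) i j) < 1)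
    (hQP : ∀ i j, v ((Ui11 * U12 * (L21 * Li11)) i j) < 1) (hQ : ∀ i j, v ((Ui11 * U12) i j) ≤ 1)
    (hP : ∀ i j, v ((L21 * Li11) i j) ≤ 1) (hS : ∀ i j, v ((L22 * diagonal d2 * U22) i j) < v π)
    (hW : ∀ i j, v ((W - 1) i j) < 1) :
    (fromBlocks L11 0 L21 L22 * fromBlocks (diagonal d1) 0 0 (diagonal d2) *
      fromBlocks U11 U12 0 U22 * W).charpoly.roots.countP (fun r => v r < v π) =
      Fintype.card n ∧
    (fromBlocks L11 0 L21 L22 * fromBlocks (diagonal d1) 0 0 (diagonal d2) *
      fromBlocks U11 U12 0 U22 * W).charpoly.roots.countP (fun r => v π < v r) =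
      Fintype.card m ∧
    ∀ r ∈ (fromBlocks L11 0 L21 L22 * fromBlocks (diagonal d1) 0 0 (diagonal d2) *
      fromBlocks U11 U12 0 U22 * W).charpoly.roots, v r ≠ v π := by
  have hL' : Li11 * L11 = 1 := mul_eq_one_comm.mp hL
  have hU' : Ui11 * U11 = 1 := mul_eq_one_comm.mp hU
  have hD : diagonal d1 * diagonal (fun k => (d1 k)⁻¹) = 1 := by
    rw [diagonal_mul_diagonal, ← diagonal_one]
    congr 1
    funext i
    exact mul_inv_cancel₀ (hd i)
  have hD' : diagonal (fun k => (d1 k)⁻¹) * diagonal d1 = 1 := mul_eq_one_comm.mp hD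
  have hL2 : ∀ (k : Type) (Z : Matrix k m K), Z * Li11 * L11 = Z := by
    intro k Z
    rw [Matrix.mul_assoc, hL', Matrix.mul_one]
  have hU2 : ∀ (k : Type) (Z : Matrix k m K), Z * U11 * Ui11 = Z := by
    intro k Z
    rw [Matrix.mul_assoc, hU, Matrix.mul_one]
  have hD2 : ∀ (k : Type) (Z : Matrix k m K),
      Z * diagonal d1 * diagonal (fun k => (d1 k)⁻¹) = Z := by
    intro k Z
    rw [Matrix.mul_assoc, hD, Matrix.mul_one]
  have hD3 : ∀ (k : Type) (Z : Matrix k m K),
      Z * diagonal (fun k => (d1 k)⁻¹) * diagonal d1 = Z := by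
    intro k Z
    rw [Matrix.mul_assoc, hD', Matrix.mul_one]
  have e0 : fromBlocks L11 0 L21 L22 * fromBlocks (diagonal d1) 0 0 (diagonal d2) *
      fromBlocks U11 U12 0 U22 =
      fromBlocks (L11 * diagonal d1 * U11) (L11 * diagonal d1 * U12)
        (L21 * diagonal d1 * U11) (L21 * diagonal d1 * U12 + L22 * diagonal d2 * U22) := by
    simp only [fromBlocks_multiply, Matrix.mul_zero, Matrix.zero_mul, add_zero, zero_add]
  have e1 : Ui11 * diagonal (fun k => (d1 k)⁻¹) * Li11 * (L11 * diagonal d1 * U12) =
      Ui11 * U12 := by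
    rw [← Matrix.mul_assoc, ← Matrix.mul_assoc, hL2, hD3]
  have e2 : L21 * diagonal d1 * U11 * (Ui11 * diagonal (fun k => (d1 k)⁻¹) * Li11) =
      L21 * Li11 := by
    rw [← Matrix.mul_assoc, ← Matrix.mul_assoc, hU2, hD2]
  have e3 : L21 * Li11 * (L11 * diagonal d1 * U12) = L21 * diagonal d1 * U12 := by
    rw [← Matrix.mul_assoc, ← Matrix.mul_assoc, hL2]
  rw [e0]
  apply block_count_mul v (L11 * diagonal d1 * U11) (Ui11 * diagonal (fun k => (d1 k)⁻¹) * Li11)
    (L11 * diagonal d1 * U12) (L21 * diagonal d1 * U11)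
    (L21 * diagonal d1 * U12 + L22 * diagonal d2 * U22) W π hπ
  · rw [← Matrix.mul_assoc, ← Matrix.mul_assoc, hU2, hD2, hL]
  · exact hAi
  · rw [e1, e2]
    exact hQP
  · rw [e1]
    exact hQ
  · rw [e2]
    exact hP
  · rw [e2, e3, add_sub_cancel_left]
    exact hS
  · exact hW

/-- The number of the large and of the small eigenvalues of a matrix
`L * diagonal δ * U * W`, `L` and `U` block triangular for the partition `p`, `¬ p`, and
`W - 1` small. -/
theorem lu_count {K Γ ι : Type} [Field K] [IsAlgClosed K] [LinearOrderedCommGroupWithZero Γ]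
    [Fintype ι] [DecidableEq ι] (v : Valuation K Γ) (p : ι → Prop) [DecidablePred p]
    (L Li U Ui W : Matrix ι ι K) (δ : ι → K) (π : K) (hπ : π ≠ 0)
    (hL : L * Li = 1) (hU : U * Ui = 1)
    (hL0 : ∀ i j, p i → ¬ p j → L i j = 0) (hLi0 : ∀ i j, p i → ¬ p j → Li i j = 0)
    (hU0 : ∀ i j, ¬ p i → p j → U i j = 0) (hUi0 : ∀ i j, ¬ p i → p j → Ui i j = 0)
    (hδ : ∀ i, p i → δ i ≠ 0)
    (h1 : ∀ i j n, p i → p j → p n → v (Ui i n * Li n j * π) < v (δ n))
    (h2 : ∀ i j n, ¬ p i → ¬ p j → ¬ p n → v (L i n * δ n * U n j) < v π)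
    (hQ : ∀ i j, p i → ¬ p j → v (∑ n with p n, Ui i n * U n j) ≤ 1)
    (hP : ∀ i j, ¬ p i → p j → v (∑ n with p n, L i n * Li n j) ≤ 1)
    (hQP : (∀ i j, p i → ¬ p j → v (∑ n with p n, Ui i n * U n j) < 1) ∨
      (∀ i j, ¬ p i → p j → v (∑ n with p n, L i n * Li n j) < 1))
    (hW : ∀ i j, v ((W - 1) i j) < 1) :
    (L * diagonal δ * U * W).charpoly.roots.countP (fun r => v r < v π) =
      Fintype.card {i // ¬ p i} ∧
    (L * diagonal δ * U * W).charpoly.roots.countP (fun r => v π < v r) =
      Fintype.card {i // p i} ∧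
    ∀ r ∈ (L * diagonal δ * U * W).charpoly.roots, v r ≠ v π := by
  classical
  have hvπ : 0 < v π := zero_lt_iff.mpr ((Valuation.ne_zero_iff v).mpr hπ)
  obtain ⟨e, he⟩ : ∃ e : {i // p i} ⊕ {i // ¬ p i} ≃ ι, e = Equiv.sumCompl p := ⟨_, rfl⟩
  have hel : ∀ x : {i // p i}, e (Sum.inl x) = x := by
    intro x
    rw [he]
    rfl
  have her : ∀ x : {i // ¬ p i}, e (Sum.inr x) = x := by
    intro x
    rw [he]
    rfl
  have hsum : ∀ f : ι → K, ∑ x : {i // p i}, f x = ∑ n with p n, f n := by
    intro f
    rw [← Finset.sum_subtype_eq_sum_filter, Finset.subtype_univ]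
  have hsub : ∀ M N : Matrix ι ι K, (M * N).submatrix e e = M.submatrix e e * N.submatrix e e := by
    intro M N
    rw [Matrix.submatrix_mul_equiv]
  have hchar : (L * diagonal δ * U * W).charpoly =
      (L.submatrix e e * (diagonal δ).submatrix e e * U.submatrix e e *
        W.submatrix e e).charpoly := by
    rw [← hsub, ← hsub, ← hsub]
    exact (Matrix.charpoly_reindex e.symm _).symm
  have bL : L.submatrix e e = fromBlocks (L.submatrix (fun x : {i // p i} => (x : ι))
      (fun x : {i // p i} => (x : ι))) 0 (L.submatrix (fun x : {i // ¬ p i} => (x : ι))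
      (fun x : {i // p i} => (x : ι))) (L.submatrix (fun x : {i // ¬ p i} => (x : ι))
      (fun x : {i // ¬ p i} => (x : ι))) := by
    ext i j
    rcases i with i | i <;> rcases j with j | j
    · simp [hel]
    · simp [hel, her, hL0 i j i.2 j.2]
    · simp [hel, her]
    · simp [her]
  have bLi : Li.submatrix e e = fromBlocks (Li.submatrix (fun x : {i // p i} => (x : ι))
      (fun x : {i // p i} => (x : ι))) 0 (Li.submatrix (fun x : {i // ¬ p i} => (x : ι))
      (fun x : {i // p i} => (x : ι))) (Li.submatrix (fun x : {i // ¬ p i} => (x : ι))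
      (fun x : {i // ¬ p i} => (x : ι))) := by
    ext i j
    rcases i with i | i <;> rcases j with j | j
    · simp [hel]
    · simp [hel, her, hLi0 i j i.2 j.2]
    · simp [hel, her]
    · simp [her]
  have bU : U.submatrix e e = fromBlocks (U.submatrix (fun x : {i // p i} => (x : ι))
      (fun x : {i // p i} => (x : ι))) (U.submatrix (fun x : {i // p i} => (x : ι))
      (fun x : {i // ¬ p i} => (x : ι))) 0 (U.submatrix (fun x : {i // ¬ p i} => (x : ι))
      (fun x : {i // ¬ p i} => (x : ι))) := by
    ext i j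
    rcases i with i | i <;> rcases j with j | j
    · simp [hel]
    · simp [hel, her]
    · simp [hel, her, hU0 i j i.2 j.2]
    · simp [her]
  have bUi : Ui.submatrix e e = fromBlocks (Ui.submatrix (fun x : {i // p i} => (x : ι))
      (fun x : {i // p i} => (x : ι))) (Ui.submatrix (fun x : {i // p i} => (x : ι))
      (fun x : {i // ¬ p i} => (x : ι))) 0 (Ui.submatrix (fun x : {i // ¬ p i} => (x : ι))
      (fun x : {i // ¬ p i} => (x : ι))) := by
    ext i j
    rcases i with i | i <;> rcases j with j | j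
    · simp [hel]
    · simp [hel, her]
    · simp [hel, her, hUi0 i j i.2 j.2]
    · simp [her]
  have bD : (diagonal δ).submatrix e e = fromBlocks (diagonal fun x : {i // p i} => δ x) 0 0
      (diagonal fun x : {i // ¬ p i} => δ x) := by
    ext i j
    rcases i with i | i <;> rcases j with j | j
    · simp [hel, diagonal_apply, Subtype.ext_iff]
    · have : (i : ι) ≠ j := by
        intro h
        exact j.2 (h ▸ i.2)
      simp [hel, her, this]
    · have : (i : ι) ≠ j := by
        intro h
        exact i.2 (h ▸ j.2)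
      simp [hel, her, this]
    · simp [her, diagonal_apply, Subtype.ext_iff]
  have iL : L.submatrix (fun x : {i // p i} => (x : ι)) (fun x : {i // p i} => (x : ι)) *
      Li.submatrix (fun x : {i // p i} => (x : ι)) (fun x : {i // p i} => (x : ι)) = 1 := by
    have h := hsub L Li
    rw [hL, Matrix.submatrix_one_equiv, bL, bLi, fromBlocks_multiply, ← fromBlocks_one] at h
    have h5 := (fromBlocks_inj.mp h).1
    rw [Matrix.zero_mul, add_zero] at h5
    exact h5.symm
  have iU : U.submatrix (fun x : {i // p i} => (x : ι)) (fun x : {i // p i} => (x : ι)) *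
      Ui.submatrix (fun x : {i // p i} => (x : ι)) (fun x : {i // p i} => (x : ι)) = 1 := by
    have h := hsub U Ui
    rw [hU, Matrix.submatrix_one_equiv, bU, bUi, fromBlocks_multiply, ← fromBlocks_one] at h
    have h5 := (fromBlocks_inj.mp h).1
    rw [Matrix.mul_zero, add_zero] at h5
    exact h5.symm
  have qQ : ∀ (i : {i // p i}) (j : {i // ¬ p i}),
      (Ui.submatrix (fun x : {i // p i} => (x : ι)) (fun x : {i // p i} => (x : ι)) *
      U.submatrix (fun x : {i // p i} => (x : ι)) (fun x : {i // ¬ p i} => (x : ι))) i j =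
      ∑ n with p n, Ui i n * U n j := by
    intro i j
    rw [Matrix.mul_apply]
    exact hsum fun n => Ui i n * U n j
  have qP : ∀ (i : {i // ¬ p i}) (j : {i // p i}),
      (L.submatrix (fun x : {i // ¬ p i} => (x : ι)) (fun x : {i // p i} => (x : ι)) *
      Li.submatrix (fun x : {i // p i} => (x : ι)) (fun x : {i // p i} => (x : ι))) i j =
      ∑ n with p n, L i n * Li n j := by
    intro i j
    rw [Matrix.mul_apply]
    exact hsum fun n => L i n * Li n j
  rw [hchar, bL, bD, bU]
  apply QHN_lu_sum v _ _ _ _ _ _ _ _ _ _ _ π hπ iL iU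
  · intro i
    exact hδ i i.2
  · intro i j
    rw [Matrix.mul_apply, Finset.mul_sum]
    apply Valuation.map_sum_lt _ one_ne_zero
    intro k _
    rw [Matrix.mul_diagonal]
    have hk := h1 i j k i.2 j.2 k.2
    have hk0 : 0 < v (δ k) := zero_lt_iff.mpr ((Valuation.ne_zero_iff v).mpr (hδ k k.2))
    have e5 : π * (Ui.submatrix (fun x : {i // p i} => (x : ι))
        (fun x : {i // p i} => (x : ι)) i k * (δ k)⁻¹ *
        Li.submatrix (fun x : {i // p i} => (x : ι)) (fun x : {i // p i} => (x : ι)) k j) =
        (δ k)⁻¹ * (Ui i k * Li k j * π) := by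
      rw [Matrix.submatrix_apply, Matrix.submatrix_apply]
      ring
    rw [e5, map_mul, map_inv₀, inv_mul_lt_iff₀ hk0, mul_one]
    exact hk
  · intro i j
    rw [Matrix.mul_apply]
    apply Valuation.map_sum_lt _ one_ne_zero
    intro k _
    rw [map_mul, qQ, qP]
    rcases hQP with h5 | h5
    · calc _ ≤ v (∑ n with p n, Ui i n * U n k) * 1 := mul_le_mul_right (hP _ _ k.2 j.2) _
        _ < 1 := by rw [mul_one]; exact h5 _ _ i.2 k.2
    · calc _ ≤ 1 * v (∑ n with p n, L k n * Li n j) := mul_le_mul_left (hQ _ _ i.2 k.2) _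
        _ < 1 := by rw [one_mul]; exact h5 _ _ k.2 j.2
  · intro i j
    rw [qQ]
    exact hQ _ _ i.2 j.2
  · intro i j
    rw [qP]
    exact hP _ _ i.2 j.2
  · intro i j
    rw [Matrix.mul_apply]
    apply Valuation.map_sum_lt _ hvπ.ne'
    intro k _
    rw [Matrix.mul_diagonal, Matrix.submatrix_apply, Matrix.submatrix_apply]
    exact h2 i j k i.2 j.2 k.2
  · intro i j
    have e6 : (W.submatrix e e - 1) i j = (W - 1) (e i) (e j) := by
      rw [Matrix.sub_apply, Matrix.sub_apply, Matrix.submatrix_apply, Matrix.one_apply,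
        Matrix.one_apply]
      simp [e.injective.eq_iff]
    rw [e6]
    exact hW _ _

/-- The number of the distinct elements. -/
theorem distinct_of_cuts {K Γ : Type} [Field K] [DecidableEq K]
    [LinearOrderedCommGroupWithZero Γ] (v : Valuation K Γ) (R : Multiset K) (S : Finset ℕ)
    (π : ℕ → K) (hS : ∀ b ∈ S, 0 < b ∧ b < Multiset.card R ∧
      R.countP (fun r => v (π b) < v r) = b) (hR : 0 < Multiset.card R) :
    S.card + 1 ≤ R.toFinset.card := by
  classical
  obtain ⟨V, hV⟩ : ∃ V : Finset Γ, V = R.toFinset.image v := ⟨_, rfl⟩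
  have hVR : V.card ≤ R.toFinset.card := by
    rw [hV]
    exact Finset.card_image_le
  refine le_trans ?_ hVR
  obtain ⟨g, hg⟩ : ∃ g : Γ → ℕ, g = fun γ => R.countP (fun r => γ < v r) := ⟨_, rfl⟩
  have h0 : 0 ∉ S := fun h => (hS 0 h).1.ne' rfl
  have h1 : insert 0 S ⊆ V.image g := by
    intro b hb
    rw [Finset.mem_insert] at hb
    rw [Finset.mem_image]
    rcases hb with rfl | hb
    · have hVn : V.Nonempty := by
        obtain ⟨r, hr⟩ := Multiset.card_pos_iff_exists_mem.mp hR
        exact ⟨v r, by rw [hV]; exact Finset.mem_image_of_mem _ (Multiset.mem_toFinset.mpr hr)⟩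
      refine ⟨V.max' hVn, V.max'_mem hVn, ?_⟩
      rw [hg]
      dsimp only
      rw [Multiset.countP_eq_zero]
      intro r hr
      rw [not_lt]
      apply V.le_max'
      rw [hV]
      exact Finset.mem_image_of_mem _ (Multiset.mem_toFinset.mpr hr)
    · obtain ⟨h2, h3, h4⟩ := hS b hb
      have hFn : (V.filter (fun γ => γ ≤ v (π b))).Nonempty := by
        have h5 : R.countP (fun r => ¬ v (π b) < v r) ≠ 0 := by
          have h6 := Multiset.card_eq_countP_add_countP (fun r => v (π b) < v r) R
          omega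
        obtain ⟨r, hr, h6⟩ := Multiset.countP_pos.mp (Nat.pos_of_ne_zero h5)
        refine ⟨v r, ?_⟩
        rw [Finset.mem_filter, hV]
        exact ⟨Finset.mem_image_of_mem _ (Multiset.mem_toFinset.mpr hr), not_lt.mp h6⟩
      obtain ⟨γ, hγ⟩ : ∃ γ, γ = (V.filter (fun γ => γ ≤ v (π b))).max' hFn := ⟨_, rfl⟩
      have h7 : γ ∈ V.filter (fun γ => γ ≤ v (π b)) := by
        rw [hγ]
        exact Finset.max'_mem _ _
      rw [Finset.mem_filter] at h7
      refine ⟨γ, h7.1, ?_⟩
      rw [hg]
      dsimp only
      refine Eq.trans ?_ h4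
      apply Multiset.countP_congr rfl
      intro r hr
      apply propext
      constructor
      · intro h8
        by_contra h9
        have h10 : v r ∈ V.filter (fun γ => γ ≤ v (π b)) := by
          rw [Finset.mem_filter, hV]
          exact ⟨Finset.mem_image_of_mem _ (Multiset.mem_toFinset.mpr hr), not_lt.mp h9⟩
        have h11 := Finset.le_max' _ _ h10
        rw [← hγ] at h11
        exact absurd h8 (not_lt.mpr h11)
      · intro h8
        exact lt_of_le_of_lt h7.2 h8
  calc S.card + 1 = (insert 0 S).card := (Finset.card_insert_of_notMem h0).symm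
    _ ≤ (V.image g).card := Finset.card_le_card h1
    _ ≤ V.card := Finset.card_image_le

end MT2
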