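import Pool.Agent.Lib_MP_bfd926_sq.SDefs

/-!
# The choice of the window

`exp_bound`: with `L = log 2 w`, `2 ^ L ≤ w`; it says `8 * b + 4 * L + 2 ≤ 4 * w + 2 * e + 4`; as
`3 * b ≤ w` it suffices that `4 * w + 6 ≥ 12 * L` if … (small `w`, say `w < 16`, by `decide` or
`interval_cases`; `L ≤ 2 ^ L / 4` for `L ≥ 4`).

`window`: let `L = log 2 w`, so `EE w = 4 * L + 1` and the condition (d) says `b ≤ d - L`. Let
`b ≤ d - L` be maximal with (b), and `b' ≤ d + 1` minimal with (b') (`b' = d + 1` always satisfies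
it). Then `b ≤ b'`, since `τ ^ (4 * b') ≤ v (2 * lam) * τ ^ (E + 1) ≤ τ ^ (4 * b + 2 * (E + 1))` if
`1 ≤ b` and `b' ≤ d`. If `b = d - L`, at most `L` indices `j` satisfy `b < j ≤ d`. Otherwise
`v (2 * lam) > τ ^ (4 * (b + 1) + E + 1)`, and `τ ^ (4 * (b + 2 * L + 2)) ≤ v (2 * lam) * τ ^ (E + 1)`
as `4 * (b + 2 * L + 2) = 4 * (b + 1) + 2 * (E + 1)`, so `b' ≤ b + 2 * L + 2`.
-/

namespace MT2

private theorem SWin_four {L : ℕ} (h : 4 ≤ L) : 4 * L ≤ 2 ^ L := by
  induction L, h using Nat.le_induction with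
  | base => norm_num
  | succ n hn ih =>
    rw [pow_succ]
    omega

theorem exp_bound {e w b : ℕ} (he : e ≤ 1) (hb : 3 * b + e ≤ w) (h1 : 1 ≤ b) :
    8 * b + EE w + 1 ≤ 4 * w + 2 * e + 4 := by
  unfold EE
  by_cases hw : w < 16
  · have hw3 : 3 ≤ w := by omega
    have hlog : (w < 4 → Nat.log 2 w = 1) ∧ (4 ≤ w → w < 8 → Nat.log 2 w = 2) ∧
        (8 ≤ w → Nat.log 2 w = 3) := by
      refine ⟨fun h => ?_, fun h h' => ?_, fun h => ?_⟩
      · exact (Nat.log_eq_iff (by norm_num)).2 (by constructor <;> norm_num <;> omega)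
      · exact (Nat.log_eq_iff (by norm_num)).2 (by constructor <;> norm_num <;> omega)
      · exact (Nat.log_eq_iff (by norm_num)).2 (by constructor <;> norm_num <;> omega)
    obtain ⟨h2, h3, h4⟩ := hlog
    rcases Nat.lt_or_ge w 4 with h | h
    · rw [h2 h]
      omega
    · rcases Nat.lt_or_ge w 8 with h' | h'
      · rw [h3 h h']
        omega
      · rw [h4 h']
        omega
  · have hw' : 16 ≤ w := by omega
    have h2 : 2 ^ Nat.log 2 w ≤ w := Nat.pow_log_le_self 2 (by omega)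
    have h3 : 4 ≤ Nat.log 2 w := by
      have := Nat.log_mono_right (b := 2) hw'
      have h16 : Nat.log 2 16 = 4 := (Nat.log_eq_iff (by norm_num)).2 (by constructor <;> norm_num)
      omega
    have h4 := SWin_four h3
    omega

/-- The choice of the window. -/
theorem window {K Γ : Type} [Field K] [CharZero K] [LinearOrderedCommGroupWithZero Γ]
    (v : Valuation K Γ) (hv : v 2 < 1) (w d : ℕ) (hd : Nat.log 2 w ≤ d) (lam : K) :
    ∃ b b' : ℕ, b ≤ d ∧ b ≤ b' ∧ (b = 0 ∨ v (2 * lam) ≤ v 2 ^ (4 * b + EE w + 1)) ∧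
      (v 2 ^ (4 * b') ≤ v (2 * lam) * v 2 ^ (EE w + 1) ∨ d < b') ∧ EE w + 1 ≤ 4 * (d + 1 - b) ∧
      ((Finset.Icc 1 d).filter fun j => b < j ∧ j < b').card ≤ 2 * Nat.log 2 w + 1 := by
  classical
  have h20 : v 2 ≠ 0 := by
    rw [Valuation.ne_zero_iff]
    exact two_ne_zero
  have h2p : 0 < v 2 := zero_lt_iff.2 h20
  set L := Nat.log 2 w with hL
  have hE : EE w = 4 * L + 1 := rfl
  set P : ℕ → Prop := fun b => b = 0 ∨ v (2 * lam) ≤ v 2 ^ (4 * b + EE w + 1) with hP
  set Q : ℕ → Prop := fun b' => v 2 ^ (4 * b') ≤ v (2 * lam) * v 2 ^ (EE w + 1) ∨ d < b' with hQ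
  have hQex : ∃ b', Q b' := ⟨d + 1, Or.inr (Nat.lt_succ_self d)⟩
  set b := Nat.findGreatest P (d - L) with hb
  set b' := Nat.find hQex with hb'
  have hPb : P b := Nat.findGreatest_spec (P := P) (Nat.zero_le _) (Or.inl rfl)
  have hQb : Q b' := Nat.find_spec hQex
  have hbL : b ≤ d - L := Nat.findGreatest_le _
  have hle : ∀ m n : ℕ, v 2 ^ m ≤ v 2 ^ n ↔ n ≤ m := fun m n =>
    pow_le_pow_iff_right_of_lt_one₀ h2p hv
  refine ⟨b, b', by omega, ?_, hPb, hQb, by omega, ?_⟩
  · rcases Nat.eq_zero_or_pos b with h0 | h0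
    · omega
    · rcases hQb with h | h
      · rcases hPb with h' | h'
        · omega
        · have h3 : v 2 ^ (4 * b') ≤ v 2 ^ (4 * b + EE w + 1) * v 2 ^ (EE w + 1) :=
            h.trans (mul_le_mul_left h' _)
          rw [← pow_add, hle] at h3
          omega
      · omega
  · have hb2 : b' ≤ b + 2 * L + 2 ∨ b = d - L := by
      by_cases hbd : b = d - L
      · exact Or.inr hbd
      · left
        have hnP : ¬ P (b + 1) := Nat.findGreatest_is_greatest (P := P) (n := d - L) (Nat.lt_succ_self _) (by omega)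
        have h1 : v 2 ^ (4 * (b + 1) + EE w + 1) ≤ v (2 * lam) := by
          by_contra hcon
          exact hnP (Or.inr (not_le.1 hcon).le)
        refine Nat.find_min' hQex (Or.inl ?_)
        calc v 2 ^ (4 * (b + 2 * L + 2)) = v 2 ^ (4 * (b + 1) + EE w + 1) * v 2 ^ (EE w + 1) := by
              rw [← pow_add]
              congr 1
              rw [hE]
              ring
          _ ≤ v (2 * lam) * v 2 ^ (EE w + 1) := mul_le_mul_left h1 _
    rcases hb2 with h | h
    · calc _ ≤ (Finset.Ioo b b').card := by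
            refine Finset.card_le_card fun j hj => ?_
            obtain ⟨-, h1, h2⟩ := Finset.mem_filter.1 hj
            exact Finset.mem_Ioo.2 ⟨h1, h2⟩
        _ ≤ _ := by
            rw [Nat.card_Ioo]
            omega
    · calc _ ≤ (Finset.Ioc b d).card := by
            refine Finset.card_le_card fun j hj => ?_
            obtain ⟨h0, h1, h2⟩ := Finset.mem_filter.1 hj
            exact Finset.mem_Ioc.2 ⟨h1, (Finset.mem_Icc.1 h0).2⟩
        _ ≤ _ := by
            rw [Nat.card_Ioc]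
            omega

end MT2
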