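import Pool.Agent.Lib_MP_bfd926_sq.SInv
import Pool.Agent.Lib_MP_bfd926_sq.SWin

/-!
# The valuation argument

`K` a field of characteristic zero, `v` a valuation with `v 2 < 1` (and `v 2 ≠ 0`), so
`v n ≤ 1` for integers `n`, `v q ≤ (v 2)⁻¹ ^ m` for rational numbers `q` with
`padicNorm 2 q ≤ 2 ^ m` (`val_rat`; write `q * 2 ^ m = a / b` with `b` odd, and `v b = 1` for odd
`b`, since `b - 1 = 2 * m'` has valuation `< 1`). Write `τ = v 2`, `E = EE w`.

`no_vector`: Let `x : ℕ → K` be the coordinates of an eigenvector: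
* (E) for every `ρ` with `v (x j) ≤ ρ` for all `j`, and every `1 ≤ i ≤ d` there is `r` with
  `v r ≤ v 16 * ρ`,
  `2 * lam * x i = 16 ^ i * ∑_{j ∈ Icc 1 (2 * i)} NE e w i j * x j + 2 ^ (4 * w + 2 * e) / 16 ^ i * r`;
* (T) for `i > d`: if `τ ^ (4 * (i - l)) * v (x l) ≤ r` for all `1 ≤ l ≤ d` then `v (x i) ≤ r`;
* `3 * d + e ≤ w`, `x 0 = 0`;
* `b ≤ d`, `b ≤ b'` and `x j = 0` for `b < j < b'`, `j ≤ d`;
* (b) `b = 0` or `v (2 * lam) ≤ τ ^ (4 * b + E + 1)`;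
* (b') `τ ^ (4 * b') ≤ v (2 * lam) * τ ^ (E + 1)` or `d < b'`; (d) `E + 1 ≤ 4 * (d + 1 - b)`.
Then `x j = 0` for all `1 ≤ j ≤ d`.
Proof. Let `ρ` be the maximum of `v (x j)`, `1 ≤ j ≤ d`; suppose `ρ ≠ 0`. By (T) (with `r = ρ`)
`v (x j) ≤ ρ` for all `j`. For `b' ≤ i ≤ d`, `1 ≤ i` (then (b') holds in the first form, so
`v (2 * lam) ≠ 0`): by (E)
`v (2 * lam) * v (x i) ≤ max (τ ^ (4 * i) * ρ) (τ ^ (4 * w + 2 * e - 4 * i + 4) * ρ) =
τ ^ (4 * i) * ρ` (as `8 * i ≤ 8 * d ≤ 4 * w`), hence `v (x i) ≤ τ ^ (E + 1) * ρ`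
(`τ ^ (4 * i) ≤ τ ^ (4 * b')`). For `i > d`: by (T) with `r = τ ^ (E + 1) * ρ`: for `l ≤ b`
`τ ^ (4 * (i - l)) ≤ τ ^ (4 * (d + 1 - b)) ≤ τ ^ (E + 1)`; for `b < l < b'` `x l = 0`; for
`b' ≤ l ≤ d` the bound just proved. So `v (x i) ≤ τ ^ (E + 1) * ρ` for all `i > b`. If `b = 0` this
gives `v (x j) < ρ` for all `1 ≤ j ≤ d`, a contradiction. Otherwise
for `1 ≤ i ≤ b`: `∑_{j ∈ Icc 1 b} NE e w i j * x j = (2 * lam * x i - 2 ^ (…) / 16 ^ i * r) / 16 ^ i -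
∑_{b < j ≤ 2 * i} NE e w i j * x j` (`NE_zero` to change the range of the summation), and the
valuation of the right-hand side is at most `τ ^ (E + 1) * ρ`: first term by (b)
(`τ ^ (4 * b + E + 1 - 4 * i)`), second: `4 * w + 2 * e - 8 * i + 4 ≥ E + 1` (`exp_bound`),
third by the bound above. By `inv_NE` (for `b`) and
`val_rat`, `v (x j) ≤ τ⁻¹ ^ E * τ ^ (E + 1) * ρ = τ * ρ < ρ` for `1 ≤ j ≤ b`. So
`v (x j) < ρ` for all `1 ≤ j ≤ d`, a contradiction.
-/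

namespace MT2

theorem val_int {K Γ : Type} [Field K] [LinearOrderedCommGroupWithZero Γ] (v : Valuation K Γ)
    (n : ℤ) : v (n : K) ≤ 1 := by
  have h : (n : K) ∈ v.integer := intCast_mem v.integer n
  exact h

private theorem SVal_norm_two (m : ℕ) : padicNorm 2 ((2 : ℚ) ^ m) = (2 ^ m)⁻¹ := by
  have h3 : padicNorm 2 (2 : ℚ) = 2⁻¹ := by
    have h5 := padicNorm.padicNorm_p_of_prime (p := 2)
    push_cast at h5
    exact h5
  induction m with
  | zero => simp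
  | succ m ih => rw [pow_succ, padicNorm.mul, ih, h3, mul_inv]

theorem val_rat {K Γ : Type} [Field K] [CharZero K] [LinearOrderedCommGroupWithZero Γ]
    (v : Valuation K Γ) (hv : v 2 < 1) (q : ℚ) (m : ℕ) (h : padicNorm 2 q ≤ 2 ^ m) :
    v (q : K) * v 2 ^ m ≤ 1 := by
  obtain ⟨r, hr⟩ : ∃ r : ℚ, r = q * 2 ^ m := ⟨_, rfl⟩
  have h1 : padicNorm 2 r ≤ 1 := by
    rw [hr, padicNorm.mul, SVal_norm_two]
    have hp : (0 : ℚ) < 2 ^ m := by positivity
    rw [← div_eq_mul_inv, div_le_one hp]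
    exact h
  have h2 : ¬ 2 ∣ r.den := by
    intro h2
    have hnum : ¬ ((2 : ℕ) : ℤ) ∣ r.num := by
      intro h3
      have h4 : 2 ∣ r.num.natAbs := Int.natCast_dvd.mp h3
      have h5 := Nat.dvd_gcd h4 h2
      have h6 := r.reduced
      rw [Nat.Coprime] at h6
      rw [h6] at h5
      norm_num at h5
    have e1 : padicNorm 2 (r.num : ℚ) = 1 := (padicNorm.int_eq_one_iff r.num).mpr hnum
    have e2 : padicNorm 2 (r.den : ℚ) < 1 := (padicNorm.nat_lt_one_iff r.den).mpr h2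
    have e3 : padicNorm 2 r * padicNorm 2 (r.den : ℚ) = padicNorm 2 (r.num : ℚ) := by
      rw [← padicNorm.mul, Rat.mul_den_eq_num]
    rw [e1] at e3
    have e4 : 0 ≤ padicNorm 2 (r.den : ℚ) := padicNorm.nonneg _
    have e5 : 0 ≤ padicNorm 2 r := padicNorm.nonneg _
    nlinarith
  have h3 : v ((r.den : ℕ) : K) = 1 := by
    obtain ⟨t, ht⟩ : ∃ t, r.den = 2 * t + 1 := ⟨r.den / 2, by omega⟩
    rw [ht]
    push_cast
    have ht1 : v ((t : ℕ) : K) ≤ 1 := by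
      have := val_int v (t : ℤ)
      rwa [Int.cast_natCast] at this
    have h4 : v (2 * (t : K)) < 1 := by
      rw [map_mul]
      exact lt_of_le_of_lt (mul_le_mul' le_rfl ht1) (by rw [mul_one]; exact hv)
    rw [add_comm]
    exact v.map_one_add_of_lt h4
  have h4 : (r : K) * ((r.den : ℕ) : K) = (r.num : K) := by
    have := Rat.mul_den_eq_num r
    exact_mod_cast congrArg (fun x : ℚ => (x : K)) this
  have h5 : v (r : K) ≤ 1 := by
    have h6 := congrArg v h4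
    rw [map_mul, h3, mul_one] at h6
    rw [h6]
    exact val_int v _
  have h6 : (r : K) = (q : K) * 2 ^ m := by
    rw [hr]
    push_cast
    ring
  rw [h6, map_mul, map_pow] at h5
  exact h5

private theorem SVal_anti {Γ : Type} [LinearOrderedCommGroupWithZero Γ] {τ : Γ} (h : τ ≤ 1)
    {m n : ℕ} (hmn : n ≤ m) : τ ^ m ≤ τ ^ n :=
  pow_le_pow_right_of_le_one' h hmn

private theorem SVal_le {Γ : Type} [LinearOrderedCommGroupWithZero Γ] {τ : Γ} (h : τ ≤ 1)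
    (m : ℕ) (ρ : Γ) : τ ^ m * ρ ≤ ρ := by
  calc τ ^ m * ρ ≤ 1 * ρ := mul_le_mul' (pow_le_one' h m) le_rfl
    _ = ρ := one_mul ρ

theorem no_vector {K Γ : Type} [Field K] [CharZero K] [LinearOrderedCommGroupWithZero Γ]
    (v : Valuation K Γ) (hv : v 2 < 1) (e w d b b' : ℕ) (he : e ≤ 1) (hd : 3 * d + e ≤ w)
    (hbd : b ≤ d) (hbb : b ≤ b') (lam : K) (x : ℕ → K) (x0 : x 0 = 0)
    (hE : ∀ ρ : Γ, (∀ j, v (x j) ≤ ρ) → ∀ i, 1 ≤ i → i ≤ d → ∃ r : K, v r ≤ v 16 * ρ ∧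
      2 * lam * x i = 16 ^ i * ∑ j ∈ Finset.Icc 1 (2 * i), (NE e w i j : K) * x j +
        2 ^ (4 * w + 2 * e) / 16 ^ i * r)
    (hT : ∀ i, d < i → ∀ r : Γ,
      (∀ l, 1 ≤ l → l ≤ d → v 2 ^ (4 * (i - l)) * v (x l) ≤ r) → v (x i) ≤ r)
    (hw : ∀ j, b < j → j < b' → j ≤ d → x j = 0)
    (h1 : b = 0 ∨ v (2 * lam) ≤ v 2 ^ (4 * b + EE w + 1))
    (h2 : v 2 ^ (4 * b') ≤ v (2 * lam) * v 2 ^ (EE w + 1) ∨ d < b')
    (h3 : EE w + 1 ≤ 4 * (d + 1 - b)) :
    ∀ j, 1 ≤ j → j ≤ d → x j = 0 := by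
  have hτ1 : v (2 : K) ≤ 1 := hv.le
  have hτ0 : v (2 : K) ≠ 0 := by
    rw [Ne, map_eq_zero]
    exact two_ne_zero
  have h16 : v (16 : K) = v 2 ^ 4 := by
    rw [← map_pow]
    norm_num
  intro j hj1 hjd
  obtain ⟨j0, hj0, hmax⟩ := Finset.exists_max_image (Finset.Icc 1 d) (fun j => v (x j))
    ⟨j, Finset.mem_Icc.mpr ⟨hj1, hjd⟩⟩
  rw [Finset.mem_Icc] at hj0
  obtain ⟨ρ, hρ⟩ : ∃ ρ, ρ = v (x j0) := ⟨_, rfl⟩
  have hle : ∀ l, 1 ≤ l → l ≤ d → v (x l) ≤ ρ := by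
    intro l hl1 hl2
    rw [hρ]
    exact hmax l (Finset.mem_Icc.mpr ⟨hl1, hl2⟩)
  by_cases hρ0 : ρ = 0
  · have h := hle j hj1 hjd
    rw [hρ0] at h
    exact (map_eq_zero v).mp (le_antisymm h zero_le')
  exfalso
  have hρpos : 0 < ρ := zero_lt_iff.mpr hρ0
  have hall : ∀ l, v (x l) ≤ ρ := by
    intro l
    rcases Nat.eq_zero_or_pos l with h | h
    · rw [h, x0, map_zero]
      exact zero_le'
    · rcases le_or_gt l d with h' | h'
      · exact hle l h h'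
      · refine hT l h' ρ (fun t ht1 ht2 => ?_)
        exact (mul_le_mul' le_rfl (hle t ht1 ht2)).trans (SVal_le hτ1 _ _)
  have hNE : ∀ (i j : ℤ) (y : K) (g : Γ), v y ≤ g → v ((NE e w i j : K) * y) ≤ g := by
    intro i j y g hy
    rw [map_mul]
    calc v (NE e w i j : K) * v y ≤ 1 * g := mul_le_mul' (val_int v _) hy
      _ = g := one_mul g
  -- the tail
  have hA : ∀ i, b' ≤ i → 1 ≤ i → i ≤ d → v (x i) ≤ v 2 ^ (EE w + 1) * ρ := by
    intro i hi hi1 hid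
    have h2' : v 2 ^ (4 * b') ≤ v (2 * lam) * v 2 ^ (EE w + 1) :=
      h2.resolve_right (by omega)
    have hlam : v (2 * lam) ≠ 0 := by
      intro h
      rw [h, zero_mul] at h2'
      exact pow_ne_zero _ hτ0 (le_antisymm h2' zero_le')
    obtain ⟨r, hr, hE'⟩ := hE ρ hall i hi1 hid
    have e1 : (2 : K) ^ (4 * w + 2 * e) / 16 ^ i = 2 ^ (4 * w + 2 * e - 4 * i) := by
      rw [show (16 : K) = 2 ^ 4 by norm_num, ← pow_mul, pow_sub₀ _ two_ne_zero (by omega),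
        div_eq_mul_inv]
    have k1 : v (2 * lam) * v (x i) ≤ v 2 ^ (4 * i) * ρ := by
      rw [← map_mul, hE', e1]
      refine v.map_add_le ?_ ?_
      · rw [map_mul, map_pow, h16, ← pow_mul]
        refine mul_le_mul' le_rfl (v.map_sum_le (fun j _ => hNE i j _ _ (hall j)))
      · rw [map_mul, map_pow]
        calc v 2 ^ (4 * w + 2 * e - 4 * i) * v r
            ≤ v 2 ^ (4 * w + 2 * e - 4 * i) * (v 16 * ρ) := mul_le_mul' le_rfl hr
          _ = v 2 ^ (4 * w + 2 * e - 4 * i + 4) * ρ := by rw [h16, pow_add, mul_assoc]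
          _ ≤ v 2 ^ (4 * i) * ρ := mul_le_mul' (SVal_anti hτ1 (by omega)) le_rfl
    have k2 : v (2 * lam) * v (x i) ≤ v (2 * lam) * (v 2 ^ (EE w + 1) * ρ) := by
      refine k1.trans ?_
      rw [← mul_assoc]
      exact mul_le_mul' ((SVal_anti hτ1 (by omega)).trans h2') le_rfl
    exact (mul_le_mul_iff_right₀ (zero_lt_iff.mpr hlam)).mp k2
  have hC : ∀ i, b < i → i ≤ d → v (x i) ≤ v 2 ^ (EE w + 1) * ρ := by
    intro i hi hid
    rcases lt_or_ge i b' with h | h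
    · rw [hw i hi h hid, map_zero]
      exact zero_le'
    · exact hA i h (by omega) hid
  have hB : ∀ i, b < i → v (x i) ≤ v 2 ^ (EE w + 1) * ρ := by
    intro i hi
    rcases le_or_gt i d with h | h
    · exact hC i hi h
    · refine hT i h _ (fun l hl1 hl2 => ?_)
      rcases le_or_gt l b with hlb | hlb
      · exact mul_le_mul' (SVal_anti hτ1 (by omega)) (hle l hl1 hl2)
      · exact (mul_le_mul' le_rfl (hC l hlb hl2)).trans (SVal_le hτ1 _ _)
  have hlt : v 2 ^ (EE w + 1) * ρ < ρ := by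
    have k1 : v (2 : K) ^ (EE w + 1) < 1 := pow_lt_one₀ zero_le' hv (by omega)
    calc v 2 ^ (EE w + 1) * ρ < 1 * ρ := mul_lt_mul_of_pos_right k1 hρpos
      _ = ρ := one_mul ρ
  have hj0b : j0 ≤ b := by
    by_contra hc
    have k1 := hC j0 (by omega) hj0.2
    rw [← hρ] at k1
    exact absurd k1 (not_le.mpr hlt)
  have hb0 : b ≠ 0 := by omega
  have h1' := h1.resolve_left hb0
  have hbw : 3 * b + e ≤ w := by omega
  have hexp := exp_bound he hbw (by omega)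
  -- the head
  have hS : ∀ i, 1 ≤ i → i ≤ b →
      v (∑ j ∈ Finset.Icc 1 b, (NE e w i j : K) * x j) ≤ v 2 ^ (EE w + 1) * ρ := by
    intro i hi1 hib
    obtain ⟨r, hr, hE'⟩ := hE ρ hall i hi1 (by omega)
    have e1 : (2 : K) ^ (4 * w + 2 * e) / 16 ^ i = 2 ^ (4 * w + 2 * e - 4 * i) := by
      rw [show (16 : K) = 2 ^ 4 by norm_num, ← pow_mul, pow_sub₀ _ two_ne_zero (by omega),
        div_eq_mul_inv]
    obtain ⟨c, hc⟩ : ∃ c, c = max b (2 * i) := ⟨_, rfl⟩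
    have s1 : ∑ j ∈ Finset.Icc 1 (2 * i), (NE e w i j : K) * x j =
        ∑ j ∈ Finset.Icc 1 c, (NE e w i j : K) * x j := by
      apply Finset.sum_subset
      · exact Finset.Icc_subset_Icc le_rfl (by omega)
      · intro j hj hj2
        rw [Finset.mem_Icc] at hj hj2
        have : NE e w i j = 0 := NE_zero (by omega)
        rw [this, Int.cast_zero, zero_mul]
    have s2 : ∑ j ∈ Finset.Icc 1 c, (NE e w i j : K) * x j =
        ∑ j ∈ Finset.Icc 1 b, (NE e w i j : K) * x j +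
          ∑ j ∈ Finset.Ioc b c, (NE e w i j : K) * x j := by
      have hu : Finset.Icc 1 c = Finset.Icc 1 b ∪ Finset.Ioc b c := by
        ext j
        simp only [Finset.mem_union, Finset.mem_Icc, Finset.mem_Ioc]
        omega
      rw [hu, Finset.sum_union]
      rw [Finset.disjoint_left]
      intro j hj hj2
      rw [Finset.mem_Icc] at hj
      rw [Finset.mem_Ioc] at hj2
      omega
    have s3 : 16 ^ i * ∑ j ∈ Finset.Icc 1 b, (NE e w i j : K) * x j =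
        2 * lam * x i - 2 ^ (4 * w + 2 * e - 4 * i) * r -
          16 ^ i * ∑ j ∈ Finset.Ioc b c, (NE e w i j : K) * x j := by
      rw [hE', s1, s2, e1]
      ring
    have k1 : v 2 ^ (4 * i) * v (∑ j ∈ Finset.Icc 1 b, (NE e w i j : K) * x j) ≤
        v 2 ^ (4 * i) * (v 2 ^ (EE w + 1) * ρ) := by
      have e2 : v (16 : K) ^ i = v 2 ^ (4 * i) := by rw [h16, ← pow_mul]
      rw [← e2, ← map_pow, ← map_mul, s3, map_pow, e2]
      refine v.map_sub_le (v.map_sub_le ?_ ?_) ?_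
      · rw [map_mul]
        calc v (2 * lam) * v (x i) ≤ v 2 ^ (4 * b + EE w + 1) * ρ := mul_le_mul' h1' (hall i)
          _ ≤ v 2 ^ (4 * i + (EE w + 1)) * ρ := mul_le_mul' (SVal_anti hτ1 (by omega)) le_rfl
          _ = v 2 ^ (4 * i) * (v 2 ^ (EE w + 1) * ρ) := by rw [pow_add, mul_assoc]
      · rw [map_mul, map_pow]
        calc v 2 ^ (4 * w + 2 * e - 4 * i) * v r
            ≤ v 2 ^ (4 * w + 2 * e - 4 * i) * (v 16 * ρ) := mul_le_mul' le_rfl hr
          _ = v 2 ^ (4 * w + 2 * e - 4 * i + 4) * ρ := by rw [h16, pow_add, mul_assoc]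
          _ ≤ v 2 ^ (4 * i + (EE w + 1)) * ρ := mul_le_mul' (SVal_anti hτ1 (by omega)) le_rfl
          _ = v 2 ^ (4 * i) * (v 2 ^ (EE w + 1) * ρ) := by rw [pow_add, mul_assoc]
      · rw [map_mul, map_pow, e2]
        refine mul_le_mul' le_rfl (v.map_sum_le (fun j hj => hNE i j _ _ (hB j ?_)))
        rw [Finset.mem_Ioc] at hj
        exact hj.1
    exact (mul_le_mul_iff_right₀ (pow_pos (zero_lt_iff.mpr hτ0) _)).mp k1
  obtain ⟨P, hP, hPn⟩ := inv_NE he hbw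
  obtain ⟨n0, hn0⟩ : ∃ n, n + 1 = j0 := ⟨j0 - 1, by omega⟩
  obtain ⟨jf, hjf⟩ : ∃ jf : Fin b, (jf : ℕ) = n0 := ⟨⟨n0, by omega⟩, rfl⟩
  have hfin : ∀ f : ℕ → K, ∑ k : Fin b, f ((k : ℕ) + 1) = ∑ k ∈ Finset.Icc 1 b, f k := by
    intro f
    rw [Fin.sum_univ_eq_sum_range (fun k => f (k + 1)) b]
    clear * -
    induction b with
    | zero => simp
    | succ b ih =>
      rw [Finset.sum_range_succ, ih, Finset.sum_Icc_succ_top (by omega)]
  have hx : x j0 = ∑ i : Fin b, ((P jf i : ℚ) : K) *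
      ∑ k ∈ Finset.Icc 1 b, (NE e w ((i : ℕ) + 1 : ℕ) k : K) * x k := by
    have t1 : ∀ i : Fin b, ((P jf i : ℚ) : K) *
        ∑ k ∈ Finset.Icc 1 b, (NE e w ((i : ℕ) + 1 : ℕ) k : K) * x k =
        ∑ k : Fin b, ((P jf i : ℚ) : K) *
          (NE e w ((i : ℕ) + 1) ((k : ℕ) + 1) : K) * x ((k : ℕ) + 1) := by
      intro i
      rw [← hfin (fun k => (NE e w ((i : ℕ) + 1 : ℕ) k : K) * x k), Finset.mul_sum]
      refine Finset.sum_congr rfl (fun k _ => ?_)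
      push_cast
      ring
    rw [Finset.sum_congr rfl (fun i _ => t1 i), Finset.sum_comm]
    have t2 : ∀ k : Fin b, ∑ i : Fin b, ((P jf i : ℚ) : K) *
        (NE e w ((i : ℕ) + 1) ((k : ℕ) + 1) : K) * x ((k : ℕ) + 1) =
        if jf = k then x ((k : ℕ) + 1) else 0 := by
      intro k
      rw [← Finset.sum_mul]
      have t3 := congrFun (congrFun hP jf) k
      rw [Matrix.mul_apply] at t3
      simp only [Matrix.of_apply] at t3
      have t4 := congrArg (fun q : ℚ => (q : K)) t3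
      simp only [Rat.cast_sum, Rat.cast_mul, Rat.cast_intCast] at t4
      rw [t4, Matrix.one_apply]
      split_ifs with hjk
      · rw [Rat.cast_one, one_mul]
      · rw [Rat.cast_zero, zero_mul]
    rw [Finset.sum_congr rfl (fun k _ => t2 k), Finset.sum_ite_eq Finset.univ jf,
      if_pos (Finset.mem_univ _), hjf, hn0]
  have hfinal : v 2 ^ (EE w) * v (x j0) ≤ v 2 ^ (EE w) * (v 2 * ρ) := by
    rw [← map_pow, ← map_mul, hx, Finset.mul_sum]
    refine v.map_sum_le (fun i _ => ?_)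
    rw [map_mul, map_mul, map_pow]
    have q1 := val_rat v hv (P jf i) (EE w) (hPn jf i)
    have q2 := hS ((i : ℕ) + 1) (by omega) (by have := i.2; omega)
    calc v 2 ^ EE w * (v ((P jf i : ℚ) : K) *
          v (∑ k ∈ Finset.Icc 1 b, (NE e w ((i : ℕ) + 1 : ℕ) k : K) * x k))
        = (v ((P jf i : ℚ) : K) * v 2 ^ EE w) *
          v (∑ k ∈ Finset.Icc 1 b, (NE e w ((i : ℕ) + 1 : ℕ) k : K) * x k) := by
          rw [← mul_assoc, mul_comm (v 2 ^ EE w)]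
      _ ≤ 1 * (v 2 ^ (EE w + 1) * ρ) := mul_le_mul' q1 q2
      _ = v 2 ^ (EE w) * (v 2 * ρ) := by rw [one_mul, pow_succ, mul_assoc]
  have hfinal2 := (mul_le_mul_iff_right₀ (pow_pos (zero_lt_iff.mpr hτ0) (EE w))).mp hfinal
  rw [← hρ] at hfinal2
  have hlt2 : v 2 * ρ < ρ := by
    calc v 2 * ρ < 1 * ρ := mul_lt_mul_of_pos_right hv hρpos
      _ = ρ := one_mul ρ
  exact absurd hfinal2 (not_le.mpr hlt2)

end MT2
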