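import Pool.Agent.Lib_MP_bfd926_sq.SQCutQ
import Pool.Agent.Lib_MP_bfd926_sq.SQPert
import Pool.Agent.Lib_MP_bfd926_sq.SVal

/-!
# The number of the large eigenvalues at a strict cut

`val_zpow`: `val_rat` (SVal) for `q * 2 ^ m` …: `padicNorm 2 (q * 2 ^ m) ≤ 1` (or multiply by a power of
two to have a natural exponent), `v (q * 2 ^ m) ≤ 1`.
`cut_count`: `cutQ`, the matrices `blkA K` … are the images of `blkA ℚ` … (`Matrix.map`,
`RingHom.map_matrix_mul`), `val_int` for `hB`, `hC`; `A1`, `B1`, `C1`, `E1` are the blocks of `N1`;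
`EE w = 4 * Nat.log 2 w + 1`. With `D = diag (4 ^ (i + 1))` the matrix `D⁻¹ * M * D` has the entries
`4 ^ (i + 1) * (NE + N1) i j * 4 ^ (j + 1)` and the same characteristic polynomial
(`Matrix.charpoly_units_conj`), and it is the reindexing of the block matrix of `pert` by
`finSumFinEquiv` (`Matrix.charpoly_reindex`).
-/

open Matrix

namespace MT2

private theorem SQCutK_norm_two : padicNorm 2 (2 : ℚ) = 2⁻¹ := by
  have h5 := padicNorm.padicNorm_p_of_prime (p := 2)
  push_cast at h5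
  exact h5

private theorem SQCutK_norm_zpow (m : ℤ) : padicNorm 2 ((2 : ℚ) ^ m) = (2 : ℚ) ^ (-m) := by
  have hnat : ∀ n : ℕ, padicNorm 2 ((2 : ℚ) ^ n) = ((2 : ℚ) ^ n)⁻¹ := by
    intro n
    induction n with
    | zero => simp
    | succ m ih => rw [pow_succ, padicNorm.mul, ih, SQCutK_norm_two, mul_inv]
  obtain ⟨n, rfl | rfl⟩ := m.eq_nat_or_neg
  · rw [zpow_natCast, hnat, _root_.zpow_neg, zpow_natCast]
  · rw [neg_neg, _root_.zpow_neg, zpow_natCast]
    have h1 : padicNorm 2 (((2 : ℚ) ^ n)⁻¹) * padicNorm 2 ((2 : ℚ) ^ n) = 1 := by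
      rw [← padicNorm.mul, inv_mul_cancel₀ (by positivity)]
      simp
    rw [hnat] at h1
    have h2 : ((2 : ℚ) ^ n) ≠ 0 := by positivity
    calc padicNorm 2 (((2 : ℚ) ^ n)⁻¹)
        = padicNorm 2 (((2 : ℚ) ^ n)⁻¹) * ((2 : ℚ) ^ n)⁻¹ * (2 : ℚ) ^ n := by
          rw [mul_assoc, inv_mul_cancel₀ h2, mul_one]
      _ = (2 : ℚ) ^ n := by rw [h1, one_mul]

theorem val_zpow {K Γ : Type} [Field K] [CharZero K] [LinearOrderedCommGroupWithZero Γ]
    (v : Valuation K Γ) (hv : v 2 < 1) (q : ℚ) (m : ℤ) (h : padicNorm 2 q ≤ (2 : ℚ) ^ m) :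
    v (q : K) ≤ v 2 ^ (-m) := by
  have h2 : (2 : K) ≠ 0 := two_ne_zero
  have hv2 : v (2 : K) ≠ 0 := (Valuation.ne_zero_iff v).2 h2
  have hr : padicNorm 2 (q * (2 : ℚ) ^ m) ≤ 2 ^ 0 := by
    rw [padicNorm.mul, SQCutK_norm_zpow, pow_zero]
    calc padicNorm 2 q * (2 : ℚ) ^ (-m) ≤ (2 : ℚ) ^ m * (2 : ℚ) ^ (-m) :=
          mul_le_mul_of_nonneg_right h (by positivity)
      _ = 1 := by rw [← zpow_add₀ (by norm_num), add_neg_cancel, zpow_zero]
  have h3 := val_rat v hv (q * (2 : ℚ) ^ m) 0 hr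
  rw [pow_zero, mul_one, Rat.cast_mul, Rat.cast_zpow, Rat.cast_ofNat, map_mul, map_zpow₀] at h3
  have hz : v (2 : K) ^ m ≠ 0 := zpow_ne_zero _ hv2
  calc v (q : K) = v (q : K) * v 2 ^ m * v 2 ^ (-m) := by
        rw [mul_assoc, _root_.zpow_neg, mul_inv_cancel₀ hz, mul_one]
    _ ≤ 1 * v 2 ^ (-m) := mul_le_mul' h3 le_rfl
    _ = v 2 ^ (-m) := one_mul _

theorem cut_count {K Γ : Type} [Field K] [CharZero K] [IsAlgClosed K]
    [LinearOrderedCommGroupWithZero Γ] (v : Valuation K Γ) (hv : v 2 < 1) {e w d b : ℕ}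
    (he : e ≤ 1) (hb : 1 ≤ b) (hd : 3 * d + e ≤ w) (hbd : b + 3 * Nat.log 2 w + 2 ≤ d)
    (hcut : CutOK e w d b) (M N1 : Matrix (Fin d) (Fin d) K)
    (hN1 : ∀ i j, v (N1 i j) ≤ v 2 ^ (4 * (d - (j : ℕ))))
    (hM : ∀ i j, M i j =
      16 ^ ((i : ℕ) + 1) * ((NE e w ((i : ℕ) + 1) ((j : ℕ) + 1) : K) + N1 i j)) :
    ∃ π : K, π ≠ 0 ∧ M.charpoly.roots.countP (fun r => v π < v r) = b := by
  obtain ⟨c, rfl⟩ : ∃ c, d = b + c := ⟨d - b, by omega⟩
  obtain ⟨Pi, m, hAP, hm1, hm2, hPi, hPi2, hP, hQ, hS⟩ := cutQ he hb (by omega) hd hcut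
  set f : ℚ →+* K := Rat.castHom K with hf
  have hfa : ∀ q : ℚ, f q = (q : K) := fun q => rfl
  have hA : (blkA ℚ e w b).map f = blkA K e w b := by
    ext i j
    simp [blkA, hfa]
  have hB : (blkB ℚ e w b c).map f = blkB K e w b c := by
    ext i j
    simp [blkB, hfa]
  have hC : (blkC ℚ e w b c).map f = blkC K e w b c := by
    ext i j
    simp [blkC, hfa]
  have hE : (blkE ℚ e w b c).map f = blkE K e w b c := by
    ext i j
    simp [blkE, hfa]
  have hAP' : blkA K e w b * Pi.map f = 1 := by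
    rw [← hA, ← Matrix.map_mul, hAP]
    exact Matrix.map_one f (map_zero f) (map_one f)
  have hCP : blkC K e w b c * Pi.map f = (blkC ℚ e w b c * Pi).map f := by
    rw [← hC, ← Matrix.map_mul]
  have hPB : Pi.map f * blkB K e w b c = (Pi * blkB ℚ e w b c).map f := by
    rw [← hB, ← Matrix.map_mul]
  have hS' : blkE K e w b c - blkC K e w b c * Pi.map f * blkB K e w b c =
      (blkE ℚ e w b c - blkC ℚ e w b c * Pi * blkB ℚ e w b c).map f := by
    rw [← hC, ← hB, ← hE, ← Matrix.map_mul, ← Matrix.map_mul]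
    ext i j
    simp only [Matrix.sub_apply, Matrix.map_apply, map_sub]
  have hpow : ∀ j : ℕ, j ≤ b + c →
      v (2 : K) ^ (4 * (b + c - j)) = v (2 : K) ^ (4 * ((b : ℤ) + c - (j : ℤ))) := by
    intro j hj
    rw [← zpow_natCast]
    congr 1
    push_cast [Nat.cast_sub hj]
    ring
  obtain ⟨π, hπ, hcount⟩ := pert v hv (L := Nat.log 2 w) (M := m) hb (by omega) hm1 hm2
    (blkA K e w b) (Pi.map f)
    (Matrix.of fun i j : Fin b => N1 (Fin.castAdd c i) (Fin.castAdd c j))
    (blkB K e w b c)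
    (Matrix.of fun (i : Fin b) (j : Fin c) => N1 (Fin.castAdd c i) (Fin.natAdd b j))
    (blkC K e w b c)
    (Matrix.of fun (i : Fin c) (j : Fin b) => N1 (Fin.natAdd b i) (Fin.castAdd c j))
    (blkE K e w b c)
    (Matrix.of fun i j : Fin c => N1 (Fin.natAdd b i) (Fin.natAdd b j))
    hAP'
    (fun i j => by simpa [blkB] using val_int v _)
    (fun i j => by simpa [blkC] using val_int v _)
    (fun i j => by
      have h1 := val_zpow v hv (Pi i j) (EE w : ℤ) (hPi i j)
      rw [Matrix.map_apply, hfa]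
      convert h1 using 2
      simp [EE])
    (fun i j => by
      have h1 := val_zpow v hv (Pi i j) _ (hPi2 i j)
      rw [Matrix.map_apply, hfa]
      refine h1.trans (le_of_eq ?_)
      congr 1
      ring)
    (fun i j => by
      have h1 := val_zpow v hv _ _ (hP i j)
      rw [hCP, Matrix.map_apply, hfa]
      refine h1.trans (le_of_eq ?_)
      congr 1
      ring)
    (fun i j => by
      have h1 := val_zpow v hv _ _ (hQ i j)
      rw [hPB, Matrix.map_apply, hfa]
      refine h1.trans (le_of_eq ?_)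
      congr 1
      ring)
    (fun i j => by
      have h1 := val_zpow v hv _ _ (hS i j)
      rw [hS', Matrix.map_apply, hfa]
      refine h1.trans (le_of_eq ?_)
      congr 1
      ring)
    (fun i j => by
      have h1 := hN1 (Fin.castAdd c i) (Fin.castAdd c j)
      rw [Matrix.of_apply]
      refine h1.trans (le_of_eq ?_)
      rw [hpow _ (by simp; omega)]
      simp)
    (fun i j => by
      have h1 := hN1 (Fin.castAdd c i) (Fin.natAdd b j)
      rw [Matrix.of_apply]
      refine h1.trans (le_of_eq ?_)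
      rw [hpow _ (by simp)]
      congr 1
      simp only [Fin.val_natAdd]
      push_cast
      ring)
    (fun i j => by
      have h1 := hN1 (Fin.natAdd b i) (Fin.castAdd c j)
      rw [Matrix.of_apply]
      refine h1.trans (le_of_eq ?_)
      rw [hpow _ (by simp; omega)]
      simp)
    (fun i j => by
      have h1 := hN1 (Fin.natAdd b i) (Fin.natAdd b j)
      rw [Matrix.of_apply]
      refine h1.trans (le_of_eq ?_)
      rw [hpow _ (by simp)]
      congr 1
      simp only [Fin.val_natAdd]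
      push_cast
      ring)
  refine ⟨π, hπ, ?_⟩
  refine Eq.trans (congrArg (fun p : Polynomial K =>
    p.roots.countP (fun r => v π < v r)) ?_) hcount
  -- the characteristic polynomials
  set N' : Matrix (Fin (b + c)) (Fin (b + c)) K := Matrix.of fun i j =>
    (4 : K) ^ ((i : ℕ) + 1) * ((NE e w ((i : ℕ) + 1) ((j : ℕ) + 1) : K) + N1 i j) *
      4 ^ ((j : ℕ) + 1) with hN'
  have h4 : (4 : K) ≠ 0 := by
    have h40 : ((4 : ℕ) : K) ≠ 0 := Nat.cast_ne_zero.2 (by norm_num)
    simpa using h40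
  have h1 : M.charpoly = N'.charpoly := by
    have hMeq : M = Matrix.diagonal (fun i : Fin (b + c) => (4 : K) ^ ((i : ℕ) + 1)) *
        (N' * Matrix.diagonal (fun i : Fin (b + c) => ((4 : K) ^ ((i : ℕ) + 1))⁻¹)) := by
      ext i j
      rw [Matrix.diagonal_mul, Matrix.mul_diagonal, hM, hN', Matrix.of_apply]
      have h5 : (4 : K) ^ ((j : ℕ) + 1) ≠ 0 := pow_ne_zero _ h4
      have h6 : (16 : K) ^ ((i : ℕ) + 1) = 4 ^ ((i : ℕ) + 1) * 4 ^ ((i : ℕ) + 1) := by
        rw [← mul_pow]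
        norm_num
      rw [h6]
      field_simp
    rw [hMeq, Matrix.charpoly_mul_comm, Matrix.mul_assoc, Matrix.diagonal_mul_diagonal]
    have h7 : (Matrix.diagonal fun i : Fin (b + c) =>
        ((4 : K) ^ ((i : ℕ) + 1))⁻¹ * (4 : K) ^ ((i : ℕ) + 1)) = 1 := by
      rw [← Matrix.diagonal_one]
      congr 1
      funext i
      exact inv_mul_cancel₀ (pow_ne_zero _ h4)
    rw [h7, Matrix.mul_one]
  rw [h1, ← Matrix.charpoly_reindex finSumFinEquiv (fromBlocks _ _ _ _)]
  congr 1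
  ext i j
  rw [Matrix.reindex_apply, Matrix.submatrix_apply]
  refine Fin.addCases (fun i => ?_) (fun i => ?_) i <;>
    refine Fin.addCases (fun j => ?_) (fun j => ?_) j
  · simp [hN', blkA]
  · simp [hN', blkB, add_assoc]
  · simp [hN', blkC, add_assoc]
  · simp [hN', blkE, add_assoc]

end MT2
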