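import Pool.Agent.Lib_MP_bfd926_sq.SVal

/-!
# The form of the matrix of `2 * T₂`

`N1 i j = ∑ l ∈ Ioc d (2 (i + 1)), NE (i + 1) l * c l (j + 1) + 2 ^ (4 w + 2 e) / 16 ^ (2 (i + 1)) * r (i + 1) (j + 1)`.
The first sum: `val_int`, `4 (l - (j + 1)) ≥ 4 (d - j)` for `l > d`. The second term: the exponent
`4 w + 2 e - 8 (i + 1) + 4 (j + 1) ≥ 4 (d - j)`, as `i + 1 ≤ d`, `3 d + e ≤ w` (write
`2 ^ (4 w + 2 e) / 16 ^ (2 (i + 1)) = 2 ^ (4 w + 2 e - 8 (i + 1))`, a natural exponent).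
-/

namespace MT2

private theorem SQRed_anti {Γ : Type} [LinearOrderedCommGroupWithZero Γ] {τ : Γ} (h : τ ≤ 1)
    {m n : ℕ} (hmn : m ≤ n) : τ ^ n ≤ τ ^ m := pow_le_pow_right_of_le_one' h hmn

theorem red_T2 {K Γ : Type} [Field K] [CharZero K] [LinearOrderedCommGroupWithZero Γ]
    (v : Valuation K Γ) (hv : v 2 < 1) {e w d : ℕ} (he : e ≤ 1) (hd : 3 * d + e ≤ w)
    (c r : ℕ → ℕ → K)
    (hc : ∀ l j, 1 ≤ j → j ≤ d → d < l → v (c l j) ≤ v 2 ^ (4 * (l - j)))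
    (hr : ∀ i j, 1 ≤ j → j ≤ d → v (r i j) ≤ v 2 ^ (4 * j))
    (M : Matrix (Fin d) (Fin d) K)
    (hM : ∀ i j : Fin d, M i j = 16 ^ ((i : ℕ) + 1) * (NE e w ((i : ℕ) + 1) ((j : ℕ) + 1) : K) +
      16 ^ ((i : ℕ) + 1) * ∑ l ∈ Finset.Ioc d (2 * ((i : ℕ) + 1)),
        (NE e w ((i : ℕ) + 1) l : K) * c l ((j : ℕ) + 1) +
      2 ^ (4 * w + 2 * e) / 16 ^ ((i : ℕ) + 1) * r ((i : ℕ) + 1) ((j : ℕ) + 1)) :
    ∃ N1 : Matrix (Fin d) (Fin d) K, (∀ i j, v (N1 i j) ≤ v 2 ^ (4 * (d - (j : ℕ)))) ∧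
      ∀ i j, M i j = 16 ^ ((i : ℕ) + 1) * ((NE e w ((i : ℕ) + 1) ((j : ℕ) + 1) : K) + N1 i j) := by
  have h2 : (2 : K) ≠ 0 := two_ne_zero
  have h16 : (16 : K) ≠ 0 := by norm_num
  have hv1 : v 2 ≤ 1 := hv.le
  refine ⟨fun i j => (∑ l ∈ Finset.Ioc d (2 * ((i : ℕ) + 1)),
        (NE e w ((i : ℕ) + 1) l : K) * c l ((j : ℕ) + 1)) +
      2 ^ (4 * w + 2 * e - 8 * ((i : ℕ) + 1)) * r ((i : ℕ) + 1) ((j : ℕ) + 1), ?_, ?_⟩
  · intro i j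
    have hi : (i : ℕ) < d := i.2
    have hj : (j : ℕ) < d := j.2
    refine Valuation.map_add_le v ?_ ?_
    · refine Valuation.map_sum_le v ?_
      intro l hl
      rw [Finset.mem_Ioc] at hl
      rw [map_mul]
      have h1 := val_int v (NE e w ((i : ℕ) + 1) l)
      have h3 := hc l ((j : ℕ) + 1) (by omega) (by omega) hl.1
      calc v ((NE e w ((i : ℕ) + 1) l : ℤ) : K) * v (c l ((j : ℕ) + 1))
          ≤ 1 * v 2 ^ (4 * (l - ((j : ℕ) + 1))) := mul_le_mul' h1 h3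
        _ = v 2 ^ (4 * (l - ((j : ℕ) + 1))) := one_mul _
        _ ≤ v 2 ^ (4 * (d - (j : ℕ))) := SQRed_anti hv1 (by omega)
    · rw [map_mul, map_pow]
      have h3 := hr ((i : ℕ) + 1) ((j : ℕ) + 1) (by omega) (by omega)
      calc v 2 ^ (4 * w + 2 * e - 8 * ((i : ℕ) + 1)) * v (r ((i : ℕ) + 1) ((j : ℕ) + 1))
          ≤ v 2 ^ (4 * w + 2 * e - 8 * ((i : ℕ) + 1)) * v 2 ^ (4 * ((j : ℕ) + 1)) :=
            mul_le_mul' le_rfl h3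
        _ = v 2 ^ (4 * w + 2 * e - 8 * ((i : ℕ) + 1) + 4 * ((j : ℕ) + 1)) := (pow_add _ _ _).symm
        _ ≤ v 2 ^ (4 * (d - (j : ℕ))) := SQRed_anti hv1 (by omega)
  · intro i j
    have hi : (i : ℕ) < d := i.2
    rw [hM i j]
    have h3 : (2 : K) ^ (4 * w + 2 * e) / 16 ^ ((i : ℕ) + 1) =
        16 ^ ((i : ℕ) + 1) * 2 ^ (4 * w + 2 * e - 8 * ((i : ℕ) + 1)) := by
      have h4 : (16 : K) = 2 ^ 4 := by norm_num
      rw [div_eq_iff (pow_ne_zero _ h16), h4, ← pow_mul, ← pow_add, ← pow_add]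
      congr 1
      omega
    rw [h3]
    ring

end MT2
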