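import Pool.Agent.Lib_MP_bfd926_sq.SQDefs

/-!
# Digit sums and carries

`ds_add`: `sub_one_mul_padicValNat_choose_eq_sub_sum_digits'` (`p = 2`, `choose (n + k) k`).
`vc_sum`: `(a + 1) ⋯ (a + t) = t! * C(a + t, t)` (`Nat.ascFactorial_eq_factorial_mul_choose`,
`Finset.prod_Ioc…`), take `padicValNat 2`.
`vc_le`: `padicValNat_choose'`; a carry at the level `i` means `⌊(a + t) / 2 ^ i⌋ > ⌊a / 2 ^ i⌋`, so
the multiple `2 ^ i * ⌊(a + t) / 2 ^ i⌋` of `2 ^ i` is in `(a, a + t]`, hence `i ≤ M`; so the number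
of carries is at most `M`. `ds_three`: `3 t = 2 t + t`, `ds_add`, `ds_two`.
-/

namespace MT2

private theorem sqds_fac (n : ℕ) : padicValNat 2 n.factorial + ds n = n := by
  have h := sub_one_mul_padicValNat_factorial (p := 2) n
  have h2 : ds n ≤ n := Nat.digit_sum_le 2 n
  unfold ds at *
  omega

theorem ds_zero : ds 0 = 0 := by
  simp [ds]

theorem ds_two (n : ℕ) : ds (2 * n) = ds n := by
  rcases Nat.eq_zero_or_pos n with h | h
  · subst h
    rfl
  · unfold ds
    rw [Nat.digits_def' one_lt_two (by omega)]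
    have h1 : 2 * n % 2 = 0 := by omega
    have h2 : 2 * n / 2 = n := by omega
    rw [h1, h2, List.sum_cons, zero_add]

theorem ds_two_add (n : ℕ) : ds (2 * n + 1) = ds n + 1 := by
  unfold ds
  rw [Nat.digits_def' one_lt_two (by omega)]
  have h1 : (2 * n + 1) % 2 = 1 := by omega
  have h2 : (2 * n + 1) / 2 = n := by omega
  rw [h1, h2, List.sum_cons, add_comm]

theorem ds_pos {n : ℕ} (h : 1 ≤ n) : 1 ≤ ds n := by
  have h1 := sub_one_mul_padicValNat_factorial_lt_of_ne_zero 2 (n := n) (by omega)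
  have h2 := sqds_fac n
  omega

theorem ds_le_log (n : ℕ) : ds n ≤ Nat.log 2 n + 1 := by
  rcases Nat.eq_zero_or_pos n with h | h
  · subst h
    simp [ds_zero]
  · unfold ds
    have h1 : (Nat.digits 2 n).length = Nat.log 2 n + 1 := Nat.length_digits 2 n one_lt_two (by omega)
    rw [← h1]
    have h2 := List.sum_le_card_nsmul (Nat.digits 2 n) 1 (fun x hx => by
      have := Nat.digits_lt_base one_lt_two hx
      omega)
    simpa using h2

theorem ds_le_self (n : ℕ) : ds n ≤ n := Nat.digit_sum_le 2 n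

theorem ds_add (a t : ℕ) : ds a + ds t = ds (a + t) + vc a t := by
  have h1 := Nat.add_choose_mul_factorial_mul_factorial a t
  have h2 := congrArg (padicValNat 2) h1
  have h0 : Nat.choose (a + t) t ≠ 0 := Nat.choose_ne_zero (by omega)
  rw [padicValNat.mul (mul_ne_zero h0 (Nat.factorial_ne_zero _)) (Nat.factorial_ne_zero _),
    padicValNat.mul h0 (Nat.factorial_ne_zero _)] at h2
  have h3 := sqds_fac a
  have h4 := sqds_fac t
  have h5 := sqds_fac (a + t)
  unfold vc
  omega

theorem ds_three (t : ℕ) : ds (3 * t) ≤ 2 * ds t := by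
  have h1 := ds_add (2 * t) t
  rw [ds_two] at h1
  have h2 : 2 * t + t = 3 * t := by ring
  rw [h2] at h1
  omega

/-- `ds n = ds (n - 1) + 1 - v₂(n)`. -/
theorem ds_succ (n : ℕ) : ds n + 1 = ds (n + 1) + padicValNat 2 (n + 1) := by
  have h1 := sqds_fac n
  have h2 := sqds_fac (n + 1)
  rw [Nat.factorial_succ, padicValNat.mul (by omega) (Nat.factorial_ne_zero _)] at h2
  omega

theorem vc_zero (a : ℕ) : vc a 0 = 0 := by
  simp [vc]

theorem vc_one (a : ℕ) : vc a 1 = padicValNat 2 (a + 1) := by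
  simp [vc]

theorem vc_two (a t : ℕ) : vc (2 * a) (2 * t) = vc a t := by
  have h1 := ds_add (2 * a) (2 * t)
  have h2 := ds_add a t
  have h3 : 2 * a + 2 * t = 2 * (a + t) := by ring
  rw [h3, ds_two, ds_two, ds_two] at h1
  omega

theorem vc_two_add (a t : ℕ) : vc (2 * a + 1) (2 * t) = vc a t := by
  have h1 := ds_add (2 * a + 1) (2 * t)
  have h2 := ds_add a t
  have h3 : 2 * a + 1 + 2 * t = 2 * (a + t) + 1 := by ring
  rw [h3, ds_two_add, ds_two, ds_two_add] at h1
  omega

theorem vc_le_log (a t : ℕ) : vc a t ≤ Nat.log 2 (a + t) := by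
  unfold vc
  rw [padicValNat_choose' (p := 2) (b := Nat.log 2 (a + t) + 1) (Nat.lt_succ_self _)]
  calc _ ≤ (Finset.Ico 1 (Nat.log 2 (a + t) + 1)).card := Finset.card_filter_le _ _
    _ = Nat.log 2 (a + t) := by simp

theorem vc_sum (a t : ℕ) : vc a t + padicValNat 2 t.factorial =
    ∑ u ∈ Finset.Ioc a (a + t), padicValNat 2 u := by
  induction t with
  | zero => simp [vc_zero]
  | succ t ih =>
    have h1 : Finset.Ioc a (a + (t + 1)) = insert (a + t + 1) (Finset.Ioc a (a + t)) := by
      ext u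
      simp only [Finset.mem_Ioc, Finset.mem_insert]
      omega
    rw [h1, Finset.sum_insert (by simp), ← ih]
    have h2 := ds_add a t
    have h3 := ds_add a (t + 1)
    have h4 := ds_succ (a + t)
    have h5 := sqds_fac t
    have h6 := sqds_fac (t + 1)
    rw [← add_assoc] at h3
    omega

theorem vc_le {a t M : ℕ} (h : ∀ u, a < u → u ≤ a + t → ¬ 2 ^ (M + 1) ∣ u) : vc a t ≤ M := by
  unfold vc
  rw [padicValNat_choose' (p := 2) (b := Nat.log 2 (a + t) + 1) (Nat.lt_succ_self _)]
  calc _ ≤ (Finset.Icc 1 M).card := by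
        apply Finset.card_le_card
        intro i hi
        rw [Finset.mem_filter, Finset.mem_Ico] at hi
        obtain ⟨⟨hi1, _⟩, hi3⟩ := hi
        rw [Finset.mem_Icc]
        refine ⟨hi1, ?_⟩
        by_contra hM
        have hM : M + 1 ≤ i := by omega
        have hp : 0 < 2 ^ i := by positivity
        have hd : (a + t) / 2 ^ i = a / 2 ^ i + t / 2 ^ i + 1 := by
          rw [Nat.add_div hp, if_pos (by omega)]
        apply h (2 ^ i * ((a + t) / 2 ^ i))
        · rw [hd]
          have h1 := Nat.div_add_mod a (2 ^ i)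
          have h2 := Nat.mod_lt a hp
          have h3 : 2 ^ i * (a / 2 ^ i + t / 2 ^ i + 1) =
              2 ^ i * (a / 2 ^ i) + 2 ^ i * (t / 2 ^ i) + 2 ^ i := by ring
          rw [h3]
          omega
        · exact Nat.mul_div_le _ _
        · exact Dvd.dvd.mul_right (pow_dvd_pow 2 hM) _
    _ = M := by simp

end MT2
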