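import Pool.Agent.Lib_MP_bfd926_sq.SDefs

/-!
# The theta series

* `thA = 1 + 2 * ∑_{n ≥ 1} X ^ (n ^ 2)`, `thB = thA(-X)`.
* `th_sub`: `thA - thB = 4 * thO`; `th_add`: `thA + thB = 2 * thA(X ^ 4)` (compare coefficients:
  `coeff m thB = (-1) ^ m * coeff m thA`; `n ^ 2` has the parity of `n`; `n ^ 2 = 4 * m` iff `n` is
  even and `(n / 2) ^ 2 = m`).
* `th_sq`: `thA ^ 2 + thB ^ 2 = 2 * thA(X ^ 2) ^ 2`, `th_mul`: `thA * thB = thB(X ^ 2) ^ 2`.
  Proof: the coefficient of `X ^ m` in `thA ^ 2` is the number of `(a, b) ∈ ℤ × ℤ` with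
  `a ^ 2 + b ^ 2 = m`; in `thB ^ 2` it is this number times `(-1) ^ m`; in `thA * thB` it is
  `∑ (-1) ^ b`. For odd `m` both sides of `th_sq` vanish, and in `th_mul` the exchange `(a, b) ↦ (b, a)`
  changes the sign `(-1) ^ b`. For `m = 2 * r`: `(s, t) ↦ (s + t, s - t)` is a bijection from
  `{s ^ 2 + t ^ 2 = r}` to `{a ^ 2 + b ^ 2 = 2 * r}`, and `(-1) ^ (s - t) = (-1) ^ (s ^ 2 + t ^ 2)`.
  (It may be convenient to prove first `coeff m thA = ∑ over the finite set of n : ℤ with
  n ^ 2 = m`, or to use the subring generated by `X`-adically convergent sums; any method.)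
* `al_sub`: `al - be = 16 * thO * thA(X ^ 4) * thA(X ^ 2) ^ 2`.
* `be` has the constant coefficient `1`, `be * beI = 1`.
* `ff_eq`: `16 * ff * be ^ 2 = al * (al - be)`.
* `ff_zero`, `ff_one`: the coefficients `0` and `1` of `ff` are `0` and `1` (`thO = X + O(X ^ 9)`,
  all the other factors have the constant coefficient `1`).
* `dbl_al`, `dbl_be`: `4 * al(X ^ 2) = (thA ^ 2 + thB ^ 2) ^ 2`, `be(X ^ 2) = thA ^ 2 * thB ^ 2`.
-/

open PowerSeries

namespace MT2

/-! ### Auxiliary -/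

/-- The sign of the parity. -/
private def sg (n : ℤ) : ℤ := (-1) ^ n.natAbs

/-- The theta series with weights. -/
private noncomputable def thW (u : ℤ → ℤ) : PowerSeries ℤ :=
  PowerSeries.mk fun m => ∑ n ∈ Finset.Icc (-(m : ℤ)) m, if n.natAbs ^ 2 = m then u n else 0

/-- The pairs with `a ^ 2 + b ^ 2 = m`. -/
private noncomputable def PP (m : ℕ) : Finset (ℤ × ℤ) :=
  (Finset.Icc (-(m : ℤ)) m ×ˢ Finset.Icc (-(m : ℤ)) m).filter
    fun p => p.1.natAbs ^ 2 + p.2.natAbs ^ 2 = m

private lemma natAbs_le_of_sq {a : ℤ} {i : ℕ} (h : a.natAbs ^ 2 ≤ i) : -(i : ℤ) ≤ a ∧ a ≤ i := by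
  have h1 : a.natAbs ≤ a.natAbs ^ 2 := Nat.le_self_pow two_ne_zero _
  omega

private lemma mem_PP {m : ℕ} {p : ℤ × ℤ} : p ∈ PP m ↔ p.1.natAbs ^ 2 + p.2.natAbs ^ 2 = m := by
  unfold PP
  rw [Finset.mem_filter, Finset.mem_product, Finset.mem_Icc, Finset.mem_Icc]
  constructor
  · exact fun h => h.2
  · intro h
    refine ⟨⟨natAbs_le_of_sq ?_, natAbs_le_of_sq ?_⟩, h⟩ <;> omega

private lemma thW_ext (u : ℤ → ℤ) {i m : ℕ} (h : i ≤ m) : coeff i (thW u) =
    ∑ n ∈ Finset.Icc (-(m : ℤ)) m, if n.natAbs ^ 2 = i then u n else 0 := by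
  unfold thW
  rw [coeff_mk]
  refine Finset.sum_subset ?_ ?_
  · intro n hn
    rw [Finset.mem_Icc] at hn ⊢
    omega
  · intro n _ hn
    rw [if_neg]
    intro h1
    apply hn
    rw [Finset.mem_Icc]
    exact natAbs_le_of_sq h1.le

private lemma thW_mul (u v : ℤ → ℤ) (m : ℕ) : coeff m (thW u * thW v) =
    ∑ p ∈ PP m, u p.1 * v p.2 := by
  rw [coeff_mul]
  have h1 : ∀ p ∈ Finset.HasAntidiagonal.antidiagonal m, coeff p.1 (thW u) * coeff p.2 (thW v) =
      ∑ a ∈ Finset.Icc (-(m : ℤ)) m, ∑ b ∈ Finset.Icc (-(m : ℤ)) m,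
        if a.natAbs ^ 2 = p.1 ∧ b.natAbs ^ 2 = p.2 then u a * v b else 0 := by
    intro p hp
    rw [Finset.HasAntidiagonal.mem_antidiagonal] at hp
    rw [thW_ext u (show p.1 ≤ m by omega), thW_ext v (show p.2 ≤ m by omega),
      Finset.sum_mul_sum]
    refine Finset.sum_congr rfl fun a _ => Finset.sum_congr rfl fun b _ => ?_
    by_cases h1 : a.natAbs ^ 2 = p.1
    · by_cases h2 : b.natAbs ^ 2 = p.2
      · rw [if_pos h1, if_pos h2, if_pos ⟨h1, h2⟩]
      · rw [if_neg h2, mul_zero, if_neg (fun h => h2 h.2)]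
    · rw [if_neg h1, zero_mul, if_neg (fun h => h1 h.1)]
  rw [Finset.sum_congr rfl h1, Finset.sum_comm]
  unfold PP
  rw [Finset.sum_filter, Finset.sum_product]
  refine Finset.sum_congr rfl fun a _ => ?_
  rw [Finset.sum_comm]
  refine Finset.sum_congr rfl fun b _ => ?_
  by_cases h : a.natAbs ^ 2 + b.natAbs ^ 2 = m
  · rw [if_pos h, Finset.sum_eq_single (a.natAbs ^ 2, b.natAbs ^ 2)]
    · rw [if_pos ⟨rfl, rfl⟩]
    · intro p _ hp
      rw [if_neg]
      rintro ⟨h1, h2⟩
      exact hp (Prod.ext h1.symm h2.symm)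
    · intro h1
      exact absurd (Finset.HasAntidiagonal.mem_antidiagonal.mpr h) h1
  · rw [if_neg h]
    refine Finset.sum_eq_zero fun p hp => ?_
    rw [Finset.HasAntidiagonal.mem_antidiagonal] at hp
    rw [if_neg]
    rintro ⟨h1, h2⟩
    exact h (by rw [h1, h2, hp])

private lemma sg_sq (n : ℤ) : (-1 : ℤ) ^ (n.natAbs ^ 2) = sg n := by
  unfold sg
  rcases Nat.even_or_odd n.natAbs with h | h
  · rw [h.neg_one_pow, (h.pow_of_ne_zero two_ne_zero).neg_one_pow]
  · rw [h.neg_one_pow, h.pow.neg_one_pow]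

private lemma thA_eq : thA = thW fun _ => 1 := by
  ext m
  unfold thA thW
  rw [coeff_mk, coeff_mk]
  by_cases h0 : m = 0
  · subst h0
    simp
  rw [if_neg h0]
  by_cases h : ∃ n : ℕ, n ^ 2 = m
  · rw [if_pos h]
    obtain ⟨n, rfl⟩ := h
    have hn : n ≠ 0 := by
      rintro rfl
      exact h0 rfl
    have h1 : n ≤ n ^ 2 := Nat.le_self_pow two_ne_zero _
    rw [← Finset.sum_filter]
    have h2 : (Finset.Icc (-((n ^ 2 : ℕ) : ℤ)) ((n ^ 2 : ℕ) : ℤ)).filter
        (fun a : ℤ => a.natAbs ^ 2 = n ^ 2) = {(n : ℤ), -(n : ℤ)} := by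
      ext a
      rw [Finset.mem_filter, Finset.mem_Icc, Finset.mem_insert, Finset.mem_singleton]
      constructor
      · rintro ⟨_, h3⟩
        have h4 : a.natAbs = n := Nat.pow_left_injective two_ne_zero h3
        omega
      · intro h3
        have h4 : a.natAbs = n := by omega
        refine ⟨by omega, by rw [h4]⟩
    rw [h2, Finset.sum_pair (by omega)]
    norm_num
  · rw [if_neg h]
    symm
    refine Finset.sum_eq_zero fun a _ => if_neg fun h1 => h ⟨a.natAbs, h1⟩

private lemma coeff_thB (m : ℕ) : coeff m thB = (-1) ^ m * coeff m thA := by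
  unfold thB evalNegHom
  rw [coeff_rescale]

private lemma thB_eq : thB = thW sg := by
  ext m
  rw [coeff_thB, thA_eq]
  unfold thW
  rw [coeff_mk, coeff_mk, Finset.mul_sum]
  refine Finset.sum_congr rfl fun a _ => ?_
  by_cases h : a.natAbs ^ 2 = m
  · rw [if_pos h, if_pos h, mul_one, ← sg_sq, h]
  · rw [if_neg h, if_neg h, mul_zero]

private lemma coeff_dbl_even {R : Type} [CommRing R] (φ : PowerSeries R) (m : ℕ) :
    coeff (2 * m) (dbl φ) = coeff m φ := by
  unfold dbl
  exact coeff_expand_mul 2 two_ne_zero φ m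

private lemma coeff_dbl_odd {R : Type} [CommRing R] (φ : PowerSeries R) (m : ℕ) :
    coeff (2 * m + 1) (dbl φ) = 0 := by
  unfold dbl
  exact coeff_expand_of_not_dvd 2 two_ne_zero φ (by omega)

private lemma dbl_pow {R : Type} [CommRing R] (φ : PowerSeries R) (n : ℕ) :
    dbl φ ^ n = dbl (φ ^ n) := by
  unfold dbl
  rw [map_pow]

private lemma sg_mul_sg {m : ℕ} {p : ℤ × ℤ} (hp : p ∈ PP m) : sg p.1 * sg p.2 = (-1) ^ m := by
  rw [mem_PP] at hp
  rw [← sg_sq, ← sg_sq, ← pow_add, hp]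

private lemma sg_cases (n : ℤ) : sg n = 1 ∨ sg n = -1 := by
  unfold sg
  exact neg_one_pow_eq_or ℤ _

private lemma coeff_AA (m : ℕ) : coeff m (thA ^ 2) = ((PP m).card : ℤ) := by
  rw [pow_two, thA_eq, thW_mul]
  simp

private lemma coeff_BB (m : ℕ) : coeff m (thB ^ 2) = (-1 : ℤ) ^ m * ((PP m).card : ℤ) := by
  rw [pow_two, thB_eq, thW_mul, Finset.sum_congr rfl fun p hp => sg_mul_sg hp]
  rw [Finset.sum_const, nsmul_eq_mul, mul_comm]

private lemma sg_parity (n : ℤ) : sg n = if n % 2 = 0 then 1 else -1 := by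
  unfold sg
  split_ifs with h
  · exact Even.neg_one_pow (by rw [Nat.even_iff]; omega)
  · exact Odd.neg_one_pow (by rw [Nat.odd_iff]; omega)

private lemma natAbs_sq_cast (a : ℤ) : ((a.natAbs ^ 2 : ℕ) : ℤ) = a ^ 2 := by
  push_cast
  exact sq_abs a

private lemma mem_PP' {m : ℕ} {p : ℤ × ℤ} : p ∈ PP m ↔ p.1 ^ 2 + p.2 ^ 2 = m := by
  rw [mem_PP, ← natAbs_sq_cast, ← natAbs_sq_cast]
  norm_cast

/-- The bijection `(s, t) ↦ (s + t, s - t)`. -/
private lemma sum_PP_double (r : ℕ) (F : ℤ × ℤ → ℤ) :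
    ∑ p ∈ PP (2 * r), F p = ∑ p ∈ PP r, F (p.1 + p.2, p.1 - p.2) := by
  symm
  refine Finset.sum_bij' (fun p _ => (p.1 + p.2, p.1 - p.2))
    (fun p _ => ((p.1 + p.2) / 2, (p.1 - p.2) / 2)) ?_ ?_ ?_ ?_ ?_
  · intro p hp
    rw [mem_PP'] at hp ⊢
    push_cast
    rw [← hp]
    ring
  · intro p hp
    rw [mem_PP'] at hp ⊢
    obtain ⟨a, b⟩ := p
    have h1 : (a + b) % 2 = 0 := by
      have h2 : (a + b) ^ 2 = 2 * (r + a * b) := by
        push_cast at hp
        linear_combination hp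
      have h3 : Even ((a + b) ^ 2) := by
        rw [h2]
        exact even_two_mul _
      have h4 : Even (a + b) := by
        rw [Int.even_pow' two_ne_zero] at h3
        exact h3
      exact Int.even_iff.mp h4
    obtain ⟨s, hs⟩ : ∃ s, a + b = 2 * s := ⟨(a + b) / 2, by omega⟩
    obtain ⟨t, ht⟩ : ∃ t, a - b = 2 * t := ⟨(a - b) / 2, by omega⟩
    have ha : a = s + t := by omega
    have hb : b = s - t := by omega
    have e1 : (a + b) / 2 = s := by omega
    have e2 : (a - b) / 2 = t := by omega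
    rw [e1, e2]
    subst ha hb
    push_cast at hp
    have h5 : (s + t) ^ 2 + (s - t) ^ 2 = 2 * (s ^ 2 + t ^ 2) := by ring
    show s ^ 2 + t ^ 2 = (r : ℤ)
    rw [h5] at hp
    omega
  · intro p _
    refine Prod.ext ?_ ?_
    · show (p.1 + p.2 + (p.1 - p.2)) / 2 = p.1
      omega
    · show (p.1 + p.2 - (p.1 - p.2)) / 2 = p.2
      omega
  · intro p hp
    rw [mem_PP'] at hp
    obtain ⟨a, b⟩ := p
    have h1 : (a + b) % 2 = 0 := by
      have h2 : (a + b) ^ 2 = 2 * (r + a * b) := by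
        push_cast at hp
        linear_combination hp
      have h3 : Even ((a + b) ^ 2) := by
        rw [h2]
        exact even_two_mul _
      have h4 : Even (a + b) := by
        rw [Int.even_pow' two_ne_zero] at h3
        exact h3
      exact Int.even_iff.mp h4
    refine Prod.ext ?_ ?_
    · show (a + b) / 2 + (a - b) / 2 = a
      omega
    · show (a + b) / 2 - (a - b) / 2 = b
      omega
  · intro p _
    rfl

private lemma card_PP_double (r : ℕ) : (PP (2 * r)).card = (PP r).card := by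
  have h := sum_PP_double r fun _ => 1
  simp only [Finset.sum_const, nsmul_eq_mul, mul_one] at h
  exact_mod_cast h

private lemma sum_sg_double (r : ℕ) : ∑ p ∈ PP (2 * r), sg p.2 = (-1) ^ r * (PP r).card := by
  rw [sum_PP_double r fun p => sg p.2, Finset.sum_congr rfl (g := fun _ => (-1) ^ r)]
  · rw [Finset.sum_const, nsmul_eq_mul, mul_comm]
  · intro p hp
    rw [← sg_mul_sg hp]
    show sg (p.1 - p.2) = sg p.1 * sg p.2
    rw [sg_parity, sg_parity, sg_parity]
    split_ifs <;> omega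

private lemma sum_sg_odd {m : ℕ} (hm : m % 2 = 1) : ∑ p ∈ PP m, sg p.2 = 0 := by
  have h1 : ∑ p ∈ PP m, sg p.2 = ∑ p ∈ PP m, sg p.1 := by
    refine Finset.sum_bij' (fun p _ => (p.2, p.1)) (fun p _ => (p.2, p.1)) ?_ ?_ ?_ ?_ ?_
    · intro p hp
      rw [mem_PP] at hp ⊢
      show p.2.natAbs ^ 2 + p.1.natAbs ^ 2 = m
      omega
    · intro p hp
      rw [mem_PP] at hp ⊢
      show p.2.natAbs ^ 2 + p.1.natAbs ^ 2 = m
      omega
    · intro p _
      rfl
    · intro p _
      rfl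
    · intro p _
      rfl
  have h2 : ∑ p ∈ PP m, (sg p.1 + sg p.2) = 0 := by
    refine Finset.sum_eq_zero fun p hp => ?_
    have h3 := sg_mul_sg hp
    have h4 : (-1 : ℤ) ^ m = -1 := Odd.neg_one_pow (Nat.odd_iff.mpr hm)
    rw [h4] at h3
    rcases sg_cases p.1 with h5 | h5 <;> rcases sg_cases p.2 with h6 | h6 <;>
      rw [h5, h6] at h3 <;> rw [h5, h6] <;> omega
  rw [Finset.sum_add_distrib, ← h1] at h2
  omega

/-! ### The theorems -/

theorem th_sub : thA - thB = 4 * thO := by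
  ext m
  have h4 : coeff m (4 * thO) = 4 * coeff m thO := by
    have := coeff_C_mul m thO (4 : ℤ)
    rw [show (C (4 : ℤ) : PowerSeries ℤ) = 4 from map_ofNat C 4] at this
    exact this
  rw [map_sub, coeff_thB, h4]
  unfold thA thO
  rw [coeff_mk, coeff_mk]
  rcases Nat.even_or_odd m with h | h
  · rw [h.neg_one_pow, if_neg (c := ∃ n : ℕ, n % 2 = 1 ∧ n ^ 2 = m)]
    · ring
    · rintro ⟨n, h1, h2⟩
      have h3 : Odd (n ^ 2) := (Nat.odd_iff.mpr h1).pow
      rw [h2] at h3
      exact (Nat.not_even_iff_odd.mpr h3) h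
  · rw [h.neg_one_pow, if_neg (show m ≠ 0 by rintro rfl; exact (by decide : ¬ Odd 0) h)]
    by_cases h1 : ∃ n : ℕ, n ^ 2 = m
    · rw [if_pos h1, if_pos]
      · ring
      · obtain ⟨n, h2⟩ := h1
        refine ⟨n, ?_, h2⟩
        rw [← h2] at h
        exact Nat.odd_iff.mp (Nat.Odd.of_mul_left (by rwa [← pow_two]))
    · rw [if_neg h1, if_neg]
      · ring
      · rintro ⟨n, _, h2⟩
        exact h1 ⟨n, h2⟩

private lemma coeff_two_mul' (m : ℕ) (φ : PowerSeries ℤ) : coeff m (2 * φ) = 2 * coeff m φ := by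
  have := coeff_C_mul m φ (2 : ℤ)
  rw [show (C (2 : ℤ) : PowerSeries ℤ) = 2 from map_ofNat C 2] at this
  exact this

theorem th_add : thA + thB = 2 * dbl (dbl thA) := by
  ext m
  rw [map_add, coeff_thB, coeff_two_mul']
  obtain ⟨r, h | h⟩ := Nat.even_or_odd' m
  · subst h
    rw [coeff_dbl_even, pow_mul, neg_one_sq, one_pow, one_mul]
    obtain ⟨s, h | h⟩ := Nat.even_or_odd' r
    · subst h
      rw [coeff_dbl_even]
      have h1 : coeff (2 * (2 * s)) thA = coeff s thA := by
        unfold thA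
        rw [coeff_mk, coeff_mk]
        have h2 : (∃ n : ℕ, n ^ 2 = 2 * (2 * s)) ↔ ∃ n : ℕ, n ^ 2 = s := by
          constructor
          · rintro ⟨n, hn⟩
            obtain ⟨k, h | h⟩ := Nat.even_or_odd' n
            · subst h
              exact ⟨k, by nlinarith⟩
            · subst h
              have : (2 * k + 1) ^ 2 = 2 * (2 * k ^ 2 + 2 * k) + 1 := by ring
              omega
          · rintro ⟨n, rfl⟩
            exact ⟨2 * n, by ring⟩
        by_cases h0 : s = 0
        · subst h0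
          rfl
        · rw [if_neg h0, if_neg (show 2 * (2 * s) ≠ 0 by omega)]
          by_cases h3 : ∃ n : ℕ, n ^ 2 = s
          · rw [if_pos h3, if_pos (h2.mpr h3)]
          · rw [if_neg h3, if_neg (fun h => h3 (h2.mp h))]
      rw [h1]
      ring
    · subst h
      rw [coeff_dbl_odd]
      have h1 : coeff (2 * (2 * s + 1)) thA = 0 := by
        unfold thA
        rw [coeff_mk, if_neg (by omega), if_neg]
        rintro ⟨n, hn⟩
        obtain ⟨k, h | h⟩ := Nat.even_or_odd' n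
        · subst h
          have : (2 * k) ^ 2 = 4 * k ^ 2 := by ring
          omega
        · subst h
          have : (2 * k + 1) ^ 2 = 2 * (2 * k ^ 2 + 2 * k) + 1 := by ring
          omega
      rw [h1]
      ring
  · subst h
    rw [coeff_dbl_odd, pow_succ, pow_mul, neg_one_sq, one_pow]
    ring

theorem th_sq : thA ^ 2 + thB ^ 2 = 2 * dbl thA ^ 2 := by
  ext m
  rw [map_add, coeff_AA, coeff_BB, coeff_two_mul', dbl_pow]
  obtain ⟨r, h | h⟩ := Nat.even_or_odd' m
  · subst h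
    rw [coeff_dbl_even, coeff_AA, card_PP_double, pow_mul, neg_one_sq, one_pow]
    ring
  · subst h
    rw [coeff_dbl_odd, pow_succ, pow_mul, neg_one_sq, one_pow]
    ring

theorem th_mul : thA * thB = dbl thB ^ 2 := by
  ext m
  rw [dbl_pow]
  have h1 : coeff m (thA * thB) = ∑ p ∈ PP m, sg p.2 := by
    rw [thA_eq, thB_eq, thW_mul]
    exact Finset.sum_congr rfl fun p _ => one_mul _
  rw [h1]
  obtain ⟨r, h | h⟩ := Nat.even_or_odd' m
  · subst h
    rw [coeff_dbl_even, coeff_BB, sum_sg_double]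
  · subst h
    rw [coeff_dbl_odd, sum_sg_odd (by omega)]

theorem neg_thA : evalNegHom thA = thB := rfl

theorem neg_thB : evalNegHom thB = thA := by
  ext m
  unfold evalNegHom
  rw [coeff_rescale, coeff_thB, ← mul_assoc, ← mul_pow, neg_one_mul, neg_neg, one_pow, one_mul]

private lemma thA_zero : constantCoeff thA = 1 := by
  rw [← coeff_zero_eq_constantCoeff_apply]
  unfold thA
  rw [coeff_mk, if_pos rfl]

private lemma thB_zero : constantCoeff thB = 1 := by
  rw [← coeff_zero_eq_constantCoeff_apply, coeff_thB, coeff_zero_eq_constantCoeff_apply, thA_zero,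
    pow_zero, one_mul]

theorem al_zero : constantCoeff al = 1 := by
  unfold al
  rw [map_pow, thA_zero, one_pow]

theorem be_zero : constantCoeff be = 1 := by
  unfold be
  rw [map_pow, thB_zero, one_pow]

theorem be_mul_beI : be * beI = 1 := by
  unfold beI
  exact mul_invOfUnit be 1 (by rw [be_zero, Units.val_one])

theorem al_sub : al - be = 16 * (thO * dbl (dbl thA) * dbl thA ^ 2) := by
  have h : al - be = (thA - thB) * (thA + thB) * (thA ^ 2 + thB ^ 2) := by
    unfold al be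
    ring
  rw [h, th_sub, th_add, th_sq]
  ring

theorem ff_eq : 16 * ff * be ^ 2 = al * (al - be) := by
  rw [al_sub]
  have h : 16 * ff * be ^ 2 =
      al * (16 * (thO * dbl (dbl thA) * dbl thA ^ 2)) * (be * beI) ^ 2 := by
    unfold ff
    ring
  rw [h, be_mul_beI, one_pow, mul_one]

private lemma thO_zero : coeff 0 thO = 0 := by
  unfold thO
  rw [coeff_mk, if_neg]
  rintro ⟨n, h1, h2⟩
  have h3 : n = 0 := by
    rcases Nat.eq_zero_or_pos n with h | h
    · exact h
    · exact absurd h2 (Nat.pos_iff_ne_zero.mp (pow_pos h 2))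
  omega

private lemma thO_one : coeff 1 thO = 1 := by
  unfold thO
  rw [coeff_mk, if_pos]
  exact ⟨1, rfl, rfl⟩

private lemma ff_fac : ff = thO * (al * dbl (dbl thA) * dbl thA ^ 2 * beI ^ 2) := by
  unfold ff
  ring

theorem ff_zero : coeff 0 ff = 0 := by
  rw [ff_fac, coeff_zero_eq_constantCoeff_apply, map_mul, ← coeff_zero_eq_constantCoeff_apply,
    thO_zero, zero_mul]

private lemma dbl_const {R : Type} [CommRing R] (φ : PowerSeries R) :
    constantCoeff (dbl φ) = constantCoeff φ := by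
  unfold dbl
  exact constantCoeff_expand 2 two_ne_zero φ

theorem ff_one : coeff 1 ff = 1 := by
  have hb : constantCoeff beI = 1 := by
    have h := congrArg constantCoeff be_mul_beI
    rw [map_mul, be_zero, one_mul, map_one] at h
    exact h
  rw [ff_fac, coeff_mul, Finset.Nat.antidiagonal_succ, Finset.sum_cons]
  rw [thO_zero, zero_mul, zero_add]
  simp only [Finset.Nat.antidiagonal_zero, Finset.map_singleton, Finset.sum_singleton]
  show coeff (0 + 1) thO * coeff 0 _ = 1
  rw [zero_add, thO_one, one_mul, coeff_zero_eq_constantCoeff_apply, map_mul, map_mul, map_mul,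
    map_pow, map_pow, dbl_const, dbl_const, thA_zero, al_zero, hb]
  norm_num

theorem dbl_be : dbl be = thA ^ 2 * thB ^ 2 := by
  unfold be
  rw [← dbl_pow, ← mul_pow, th_mul]
  ring

theorem dbl_al : 4 * dbl al = (thA ^ 2 + thB ^ 2) ^ 2 := by
  unfold al
  rw [← dbl_pow, th_sq]
  ring

end MT2
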