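import Pool.Agent.Lib_MP_bfd926_sq.SPoly
import Pool.Agent.Lib_MP_bfd926_sq.STheta

/-!
# The operator `U₂` on the series `WW e w * ff ^ j`

`U2_formula`: `2 * 16 ^ j * uu (WW e w * ff ^ j) = WW e w * TT e w j (256 * ff)`.

Proof. `dbl` is injective and `2 * dbl (uu φ) = φ + evalNegHom φ` (`two_dbl_uu`). So it suffices that
`16 ^ j * (W * ff ^ j + W⁻ * (ff⁻) ^ j) = dbl W * TT e w j (256 * dbl ff)` where `⁻` is `X ↦ -X`,
which exchanges `al` and `be`. Map to the field of fractions (or to `LaurentSeries`) and divide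
by powers of `al`, `be` (not zero): with `y = al / be`:
`W = be ^ (2 * w + e) * (2 * y - 1) ^ e`, `16 * ff = y * (y - 1)`,
`W⁻ = al ^ (2 * w + e) * (2 / y - 1) ^ e`, `16 * ff⁻ = (1 / y) * (1 / y - 1)`,
`dbl W = ((al + be) / 2) ^ e * (al * be) ^ w` (`dbl_al`, `dbl_be`: `dbl be ^ 2 = al * be`,
`2 * dbl al - dbl be = (al + be) / 2`), `256 * dbl ff = (al - be) ^ 2 / (al * be) = (y - 1) ^ 2 / y`.
Now use `eval_TT_zero` (`y + 1 ≠ 0` since `al + be ≠ 0`, constant coefficient `2`), `eval_TT_one`.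
-/

open PowerSeries

namespace MT2

theorem two_dbl_uu (φ : PowerSeries ℤ) : 2 * dbl (uu φ) = φ + evalNegHom φ := by
  ext n
  have h2 : coeff n (2 * dbl (uu φ)) = 2 * coeff n (dbl (uu φ)) := by
    rw [two_mul, map_add, two_mul]
  rw [h2, map_add]
  have h3 : coeff n (evalNegHom φ) = (-1) ^ n * coeff n φ := by
    rw [evalNegHom, coeff_rescale]
  rw [h3]
  unfold dbl
  rw [coeff_expand]
  split_ifs with h
  · obtain ⟨m, rfl⟩ := h
    have h4 : (2 * m) / 2 = m := by omega
    rw [h4, uu, coeff_mk, pow_mul]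
    norm_num
    ring
  · have h5 : Odd n := by
      rw [← Nat.not_even_iff_odd, even_iff_two_dvd]
      exact h
    rw [h5.neg_one_pow]
    ring

theorem dbl_inj {φ ψ : PowerSeries ℤ} (h : dbl φ = dbl ψ) : φ = ψ := by
  ext n
  have h1 := congrArg (coeff (2 * n)) h
  unfold dbl at h1
  rw [coeff_expand, coeff_expand, if_pos (Dvd.intro n rfl), if_pos (Dvd.intro n rfl)] at h1
  have h4 : (2 * n) / 2 = n := by omega
  rwa [h4] at h1

private theorem SU2_dblmul (φ ψ : PowerSeries ℤ) : dbl (φ * ψ) = dbl φ * dbl ψ := by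
  unfold dbl
  rw [map_mul]

/-- `dbl` as a ring homomorphism. -/
private noncomputable def SU2_E : PowerSeries ℤ →+* PowerSeries ℤ :=
  (PowerSeries.expand (R := ℤ) 2 two_ne_zero).toRingHom

private theorem SU2_E_apply (φ : PowerSeries ℤ) : dbl φ = SU2_E φ := rfl

/-- The inclusion in the field of fractions. -/
private noncomputable def SU2_i : PowerSeries ℤ →+* FractionRing (PowerSeries ℤ) :=
  algebraMap _ _

private theorem SU2_i_inj : Function.Injective SU2_i :=
  IsFractionRing.injective (PowerSeries ℤ) (FractionRing (PowerSeries ℤ))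

private theorem SU2_aeval1 (x : PowerSeries ℤ) (P : Polynomial ℤ) :
    Polynomial.aeval x P = P.eval₂ (Int.castRingHom (PowerSeries ℤ)) x := by
  rw [Polynomial.aeval_def]
  congr 1
  ext n
  simp

private theorem SU2_aeval {S : Type} [CommRing S] (g : PowerSeries ℤ →+* S) (x : PowerSeries ℤ)
    (P : Polynomial ℤ) : g (P.eval₂ (Int.castRingHom (PowerSeries ℤ)) x) =
      P.eval₂ (Int.castRingHom S) (g x) := by
  rw [Polynomial.hom_eval₂]
  congr 1
  ext n
  simp

private theorem SU2_neg_thA : evalNegHom thA = thB := rfl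

private theorem SU2_neg_al : evalNegHom al = be := by
  unfold al be
  rw [map_pow, SU2_neg_thA]

private theorem SU2_neg_be : evalNegHom be = al := by
  unfold al be
  rw [map_pow, neg_thB]

private theorem SU2_ne {φ : PowerSeries ℤ} (h : constantCoeff φ ≠ 0) : SU2_i φ ≠ 0 := by
  intro h0
  apply h
  have h1 : φ = 0 := SU2_i_inj (by rw [h0, map_zero])
  rw [h1, map_zero]

private theorem SU2_zero {K : Type} [Field K] (b y f f' : K) (hy : y ≠ 0) (w j : ℕ)
    (h1 : 16 * f = y * (y - 1)) (h2 : 16 * f' = (1 - y) / y ^ 2) :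
    16 ^ j * (b ^ (2 * w) * f ^ j + (y * b) ^ (2 * w) * f' ^ j) =
      (y * b * b) ^ w * ((y - 1) ^ j * (y ^ ((j : ℤ) - w) + (-1) ^ j * y ^ ((w : ℤ) - 2 * j))) := by
  have e1 : (16 : K) ^ j * f ^ j = y ^ j * (y - 1) ^ j := by
    rw [← mul_pow, h1, mul_pow]
  have e2 : (16 : K) ^ j * f' ^ j = (-1) ^ j * (y - 1) ^ j / y ^ (2 * j) := by
    rw [← mul_pow, h2, div_pow, ← pow_mul, ← mul_pow]
    congr 2
    ring
  have e3 : y ^ ((j : ℤ) - w) = y ^ j / y ^ w := by
    rw [zpow_sub₀ hy, zpow_natCast, zpow_natCast]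
  have e4 : y ^ ((w : ℤ) - 2 * j) = y ^ w / y ^ (2 * j) := by
    rw [zpow_sub₀ hy, zpow_natCast]
    congr 1
    exact_mod_cast zpow_natCast y (2 * j)
  have hyw : y ^ w ≠ 0 := pow_ne_zero _ hy
  have hyj : y ^ (2 * j) ≠ 0 := pow_ne_zero _ hy
  calc 16 ^ j * (b ^ (2 * w) * f ^ j + (y * b) ^ (2 * w) * f' ^ j)
      = b ^ (2 * w) * (16 ^ j * f ^ j) + (y * b) ^ (2 * w) * (16 ^ j * f' ^ j) := by ring
    _ = _ := by
      rw [e1, e2, e3, e4]
      have e5 : (y * b * b) ^ w = y ^ w * b ^ (2 * w) := by ring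
      have e6 : (y * b) ^ (2 * w) = y ^ w * y ^ w * b ^ (2 * w) := by ring
      rw [e5, e6]
      field_simp

/-- Evaluation, with a fixed homomorphism. -/
private noncomputable def SU2_ev {S : Type} [CommRing S] (x : S) (P : Polynomial ℤ) : S :=
  P.eval₂ (Int.castRingHom S) x

private theorem SU2_tt0 {K : Type} [Field K] (y : K) (hy : y ≠ 0) (hy1 : y + 1 ≠ 0) (w j : ℕ) :
    SU2_ev ((y - 1) ^ 2 / y) (TT 0 w j) =
      (y - 1) ^ j * (y ^ ((j : ℤ) - w) + (-1) ^ j * y ^ ((w : ℤ) - 2 * j)) := by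
  rw [← eval_TT_zero y hy hy1, Polynomial.aeval_def]
  rfl

private theorem SU2_tt1 {K : Type} [Field K] (y : K) (hy : y ≠ 0) (w j : ℕ) :
    (y + 1) * SU2_ev ((y - 1) ^ 2 / y) (TT 1 w j) =
      2 * (y - 1) ^ j * (y ^ ((j : ℤ) - w) * (2 * y - 1) +
        (-1) ^ j * y ^ ((w : ℤ) - 2 * j) * (2 - y)) := by
  rw [← eval_TT_one y hy, Polynomial.aeval_def]
  rfl

private theorem SU2_one {K : Type} [Field K] (b y f f' : K) (hy : y ≠ 0) (w j : ℕ)
    (h1 : 16 * f = y * (y - 1)) (h2 : 16 * f' = (1 - y) / y ^ 2) :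
    2 * 16 ^ j * ((2 * (y * b) - b) * b ^ (2 * w) * f ^ j +
      (2 * b - y * b) * (y * b) ^ (2 * w) * f' ^ j) =
      b * (y * b * b) ^ w * (2 * (y - 1) ^ j * (y ^ ((j : ℤ) - w) * (2 * y - 1) +
        (-1) ^ j * y ^ ((w : ℤ) - 2 * j) * (2 - y))) := by
  have e1 : (16 : K) ^ j * f ^ j = y ^ j * (y - 1) ^ j := by
    rw [← mul_pow, h1, mul_pow]
  have e2 : (16 : K) ^ j * f' ^ j = (-1) ^ j * (y - 1) ^ j / y ^ (2 * j) := by
    rw [← mul_pow, h2, div_pow, ← pow_mul, ← mul_pow]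
    congr 2
    ring
  have e3 : y ^ ((j : ℤ) - w) = y ^ j / y ^ w := by
    rw [zpow_sub₀ hy, zpow_natCast, zpow_natCast]
  have e4 : y ^ ((w : ℤ) - 2 * j) = y ^ w / y ^ (2 * j) := by
    rw [zpow_sub₀ hy, zpow_natCast]
    congr 1
    exact_mod_cast zpow_natCast y (2 * j)
  have hyw : y ^ w ≠ 0 := pow_ne_zero _ hy
  have hyj : y ^ (2 * j) ≠ 0 := pow_ne_zero _ hy
  calc 2 * 16 ^ j * ((2 * (y * b) - b) * b ^ (2 * w) * f ^ j +
      (2 * b - y * b) * (y * b) ^ (2 * w) * f' ^ j)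
      = 2 * ((2 * (y * b) - b) * b ^ (2 * w) * (16 ^ j * f ^ j) +
      (2 * b - y * b) * (y * b) ^ (2 * w) * (16 ^ j * f' ^ j)) := by ring
    _ = _ := by
      rw [e1, e2, e3, e4]
      have e5 : (y * b * b) ^ w = y ^ w * b ^ (2 * w) := by ring
      have e6 : (y * b) ^ (2 * w) = y ^ w * y ^ w * b ^ (2 * w) := by ring
      rw [e5, e6]
      field_simp

theorem U2_formula (e w j : ℕ) (he : e ≤ 1) :
    2 * 16 ^ j * uu (WW e w * ff ^ j) =
      WW e w * Polynomial.aeval (256 * ff) (TT e w j) := by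
  apply dbl_inj
  have h0 : dbl (2 * 16 ^ j * uu (WW e w * ff ^ j)) =
      16 ^ j * (WW e w * ff ^ j + evalNegHom (WW e w * ff ^ j)) := by
    rw [← two_dbl_uu]
    simp only [SU2_E_apply, map_mul, map_pow, map_ofNat]
    ring
  rw [h0]
  apply SU2_i_inj
  set a := SU2_i al with ha
  set b := SU2_i be with hb
  set f := SU2_i ff with hf
  set f' := SU2_i (evalNegHom ff) with hf'
  have a0 : a ≠ 0 := SU2_ne (by rw [al_zero]; exact one_ne_zero)
  have b0 : b ≠ 0 := SU2_ne (by rw [be_zero]; exact one_ne_zero)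
  have hab : a + b ≠ 0 := by
    rw [ha, hb, ← map_add]
    apply SU2_ne
    rw [map_add, al_zero, be_zero]
    norm_num
  have R1 : 16 * f * b ^ 2 = a * (a - b) := by
    have := congrArg SU2_i ff_eq
    simpa only [map_mul, map_pow, map_sub, map_ofNat] using this
  have R2 : 16 * f' * a ^ 2 = b * (b - a) := by
    have := congrArg (fun x => SU2_i (evalNegHom x)) ff_eq
    simpa only [map_mul, map_pow, map_sub, map_ofNat, SU2_neg_al, SU2_neg_be] using this
  set dA := SU2_i (dbl al) with hdA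
  set dB := SU2_i (dbl be) with hdB
  set df := SU2_i (dbl ff) with hdf
  have R3 : dB ^ 2 = a * b := by
    have : dbl be ^ 2 = al * be := by
      rw [dbl_be]; unfold al be; ring
    rw [hdB, ← map_pow, this, map_mul]
  have R4 : 4 * dA = a + b + 2 * dB := by
    have : 4 * dbl al = al + be + 2 * dbl be := by
      rw [dbl_al, dbl_be]; unfold al be; ring
    have h := congrArg SU2_i this
    simpa only [map_mul, map_add, map_ofNat] using h
  have R5 : 16 * df * dB ^ 2 = dA * (dA - dB) := by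
    have := congrArg (fun x => SU2_i (SU2_E x)) ff_eq
    simpa only [map_mul, map_pow, map_sub, map_ofNat, ← SU2_E_apply] using this
  have R6 : 256 * df * (a * b) = (a - b) ^ 2 := by
    rw [← R3]
    linear_combination 16 * R5 + (4 * dA + a + b - 2 * dB) * R4 - 4 * R3
  have hy0 : a / b ≠ 0 := div_ne_zero a0 b0
  have hy1 : a / b + 1 ≠ 0 := by
    have : a / b + 1 = (a + b) / b := by field_simp
    rw [this]
    exact div_ne_zero hab b0
  have hX : 256 * df = (a / b - 1) ^ 2 / (a / b) := by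
    field_simp
    linear_combination R6
  have hf1 : 16 * f = a / b * (a / b - 1) := by
    field_simp
    linear_combination R1
  have hf2 : 16 * f' = (1 - a / b) / (a / b) ^ 2 := by
    field_simp
    linear_combination R2
  have hyb : a / b * b = a := div_mul_cancel₀ a b0
  have hT : SU2_i (dbl (WW e w * Polynomial.aeval (256 * ff) (TT e w j))) =
      SU2_i (dbl (WW e w)) * SU2_ev ((a / b - 1) ^ 2 / (a / b)) (TT e w j) := by
    rw [SU2_dblmul, map_mul]
    congr 1
    rw [SU2_aeval1, SU2_E_apply, SU2_aeval SU2_E, SU2_aeval SU2_i, ← hX]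
    simp only [map_mul, map_ofNat, ← SU2_E_apply]
    rfl
  rw [hT]
  have he' : e = 0 ∨ e = 1 := by omega
  rcases he' with rfl | rfl
  · rw [SU2_tt0 _ hy0 hy1]
    have hW : SU2_i (dbl (WW 0 w)) = (a * b) ^ w := by
      have : dbl (WW 0 w) = (dbl be ^ 2) ^ w := by
        unfold WW
        simp only [SU2_E_apply, map_mul, map_pow, pow_zero, one_mul, map_one]
        rw [← pow_mul]
      rw [this, map_pow, map_pow, R3]
    rw [hW]
    have hL : SU2_i (16 ^ j * (WW 0 w * ff ^ j + evalNegHom (WW 0 w * ff ^ j))) =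
        16 ^ j * (b ^ (2 * w) * f ^ j + a ^ (2 * w) * f' ^ j) := by
      unfold WW
      simp only [map_mul, map_pow, map_add, pow_zero, one_mul, map_ofNat, SU2_neg_be]
      rfl
    rw [hL]
    have := SU2_zero b (a / b) f f' hy0 w j hf1 hf2
    rw [hyb] at this
    exact this
  · have key := SU2_tt1 (a / b) hy0 w j
    have hW : 2 * SU2_i (dbl (WW 1 w)) = (a + b) * (a * b) ^ w := by
      have h1 : dbl (WW 1 w) = (2 * dbl al - dbl be) * (dbl be ^ 2) ^ w := by
        unfold WW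
        simp only [SU2_E_apply, map_mul, map_pow, pow_one, map_sub, map_ofNat]
        rw [← pow_mul]
      rw [h1, map_mul, map_sub, map_mul, map_pow, map_pow, R3, map_ofNat]
      linear_combination (a * b) ^ w * R4
    have hL : SU2_i (16 ^ j * (WW 1 w * ff ^ j + evalNegHom (WW 1 w * ff ^ j))) =
        16 ^ j * ((2 * a - b) * b ^ (2 * w) * f ^ j + (2 * b - a) * a ^ (2 * w) * f' ^ j) := by
      unfold WW
      simp only [map_mul, map_pow, map_add, map_sub, pow_one, map_ofNat, SU2_neg_be, SU2_neg_al]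
      rfl
    rw [hL]
    have h3 := SU2_one b (a / b) f f' hy0 w j hf1 hf2
    rw [hyb] at h3
    have h20 : (2 : FractionRing (PowerSeries ℤ)) ≠ 0 := by
      have := SU2_ne (φ := 2) (by rw [map_ofNat]; norm_num)
      rwa [map_ofNat] at this
    apply mul_left_cancel₀ h20
    have h4 : b * (a / b + 1) = a + b := by field_simp
    calc 2 * (16 ^ j * ((2 * a - b) * b ^ (2 * w) * f ^ j + (2 * b - a) * a ^ (2 * w) * f' ^ j))
        = 2 * 16 ^ j * ((2 * a - b) * b ^ (2 * w) * f ^ j +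
            (2 * b - a) * a ^ (2 * w) * f' ^ j) := by ring
      _ = b * (a * b) ^ w * ((a / b + 1) *
            SU2_ev ((a / b - 1) ^ 2 / (a / b)) (TT 1 w j)) := by
          rw [h3, key]
      _ = (b * (a / b + 1)) * (a * b) ^ w *
            SU2_ev ((a / b - 1) ^ 2 / (a / b)) (TT 1 w j) := by ring
      _ = 2 * SU2_i (dbl (WW 1 w)) *
            SU2_ev ((a / b - 1) ^ 2 / (a / b)) (TT 1 w j) := by rw [h4, hW]
      _ = _ := by ring

end MT2
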