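import Pool.Agent.Lib_MP_bfd926_sq.SDefs

/-!
# Elementary facts on the binomial coefficients and the matrices

`ch_pascal`: for `0 < r` this is `Ring.choose_succ_succ`, for `r = 0` it is `1 = 1 + 0`, for
`r < 0` it is `0 = 0 + 0`. `ch_absorb`, `ch_absorb'`: for `r ≤ 0` both sides are zero; for
`r = m + 1` multiply by `m!`, `Ring.descPochhammer_eq_factorial_smul_choose`, or prove
`ch_absorb` by induction on `m` from Pascal for all `x` simultaneously (`ℤ` has no torsion).
The formulas for the matrices follow: with `x = i + j - w - 1`, `r = 2 * i - j` one has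
`N = ch (x + 1) r + ch x r`, `Nt = 2 * (ch (x + 1) r + ch x (r - 1))`, and
`3 * j - 2 * w = 2 * (x + 1) - r`, `3 * i - w = x + 1 + r`.
For `N_Nt`: if `r = 0` both matrix entries are `2` and `3 * j = 6 * i`; in general
`ch (x + 1) r = ch x r + ch x (r - 1)` and `r * ch x r = (x - r + 1) * ch x (r - 1)`; if `r ≠ 0`
multiply by `r`.
-/

namespace MT2

theorem ch_zero (x : ℤ) : ch x 0 = 1 := by
  unfold ch
  simp

theorem ch_neg {x r : ℤ} (h : r < 0) : ch x r = 0 := by
  unfold ch
  rw [if_neg (by omega)]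

private theorem SCh_ch_succ (x : ℤ) (m : ℕ) : ch x ((m : ℤ) + 1) = Ring.choose x (m + 1) := by
  unfold ch
  rw [if_pos (by omega)]
  congr 1

private theorem SCh_ch_cast (x : ℤ) (m : ℕ) : ch x (m : ℤ) = Ring.choose x m := by
  unfold ch
  rw [if_pos (by omega)]
  congr 1

theorem ch_pascal (x r : ℤ) : ch (x + 1) r = ch x r + ch x (r - 1) := by
  rcases lt_trichotomy r 0 with h | h | h
  · rw [ch_neg h, ch_neg h, ch_neg (by omega)]
    rfl
  · subst h
    rw [ch_zero, ch_zero, ch_neg (by omega)]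
    rfl
  · obtain ⟨m, rfl⟩ : ∃ m : ℕ, r = (m : ℤ) + 1 := ⟨(r - 1).toNat, by omega⟩
    rw [SCh_ch_succ, SCh_ch_succ, add_sub_cancel_right, SCh_ch_cast, Ring.choose_succ_succ,
      add_comm]

theorem ch_absorb (x r : ℤ) : r * ch x r = (x - r + 1) * ch x (r - 1) := by
  rcases lt_trichotomy r 0 with h | h | h
  · rw [ch_neg h, ch_neg (by omega), mul_zero, mul_zero]
  · subst h
    rw [ch_neg (show (0 : ℤ) - 1 < 0 by omega), zero_mul, mul_zero]
  · obtain ⟨m, rfl⟩ : ∃ m : ℕ, r = (m : ℤ) + 1 := ⟨(r - 1).toNat, by omega⟩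
    rw [SCh_ch_succ, add_sub_cancel_right, SCh_ch_cast]
    have h1 := Ring.descPochhammer_eq_factorial_smul_choose x (m + 1)
    have h2 := Ring.descPochhammer_eq_factorial_smul_choose x m
    rw [descPochhammer_succ_right, Polynomial.smeval_mul, h2] at h1
    simp only [Polynomial.smeval_sub, Polynomial.smeval_X, Polynomial.smeval_natCast, pow_one,
      pow_zero, smul_eq_mul, nsmul_eq_mul, mul_one, Nat.factorial_succ, Nat.cast_mul,
      Nat.cast_add, Nat.cast_one] at h1
    have hm : ((m.factorial : ℕ) : ℤ) ≠ 0 := by exact_mod_cast m.factorial_ne_zero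
    apply mul_left_cancel₀ hm
    linear_combination -h1

theorem ch_absorb' (x r : ℤ) : r * ch x r = x * ch (x - 1) (r - 1) := by
  have h1 := ch_pascal (x - 1) r
  rw [sub_add_cancel] at h1
  have h2 := ch_absorb (x - 1) r
  rw [h1]
  linear_combination h2

theorem ch_nat (x r : ℕ) : ch (x : ℤ) (r : ℤ) = (Nat.choose x r : ℤ) := by
  rw [SCh_ch_cast, Ring.choose_natCast]

theorem N_zero {w i j : ℤ} (h : 2 * i < j) : N w i j = 0 := by
  unfold N
  rw [ch_neg (by omega), ch_neg (by omega)]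
  rfl

theorem Nt_zero {w i j : ℤ} (h : 2 * i < j) : Nt w i j = 0 := by
  unfold Nt
  rw [ch_neg (by omega), ch_neg (by omega)]
  rfl

theorem NE_zero {e : ℕ} {w i j : ℤ} (h : 2 * i < j) : NE e w i j = 0 := by
  unfold NE
  split_ifs
  · exact N_zero h
  · exact Nt_zero h

theorem N_top (w i : ℤ) : N w i (2 * i) = 2 := by
  unfold N
  rw [sub_self, ch_zero, ch_zero]
  rfl

theorem N_Nt (w i j : ℤ) : (2 * w - 3 * j) * Nt w i j = 2 * (w - 3 * i) * N w i j := by
  unfold N Nt
  have h1 := ch_pascal (i + j - w - 1) (2 * i - j)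
  rw [sub_add_cancel] at h1
  have h2 := ch_absorb (i + j - w - 1) (2 * i - j)
  rw [h1]
  linear_combination (6 : ℤ) * h2

theorem K4_zero {w i j : ℤ} (h : 2 * i - 1 < j) : K4 w i j = 0 := by
  unfold K4
  rw [ch_neg (by omega), ch_neg (by omega)]
  rfl

theorem K4_top (w i : ℤ) : K4 w i (2 * i - 1) = 1 := by
  unfold K4
  rw [show 2 * i - (2 * i - 1) - 1 = 0 by ring, ch_zero, ch_neg (by omega)]
  rfl

end MT2
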