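import Mathlib

/-!
# Multiplicities of the eigenvalues of `T₂` in level one: definitions

* `ch x r`: the binomial coefficient, zero for negative `r`.
* `N w i j`, `Nt w i j`, `NE e w i j`: the matrix of the operator `U₂` on the functions
  `W * f ^ j` (weight `4 * w + 2 * e`, `e = 0, 1`), see `SU2`.
* `K4 w i j`: the matrix which intertwines the two pencils, see `SInt`.
* `xv w n`, `yv w n`, `lv w n`: the null vectors of the pencils at `c = n * (n - w)`.
* `kap w n`, `del w n`: the pivots.
* `FF j s`: polynomials with the coefficients `ch (i + s) (2 * i - j)`, see `SPoly`.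
* `thA`, `thB`: the theta series `∑ X ^ (n ^ 2)`, `∑ (-X) ^ (n ^ 2)`; `al = thA ^ 4`,
  `be = thB ^ 4`; `ff` the Hauptmodul with `16 * ff * be ^ 2 = al * (al - be)`;
  `WW e w = (2 * al - be) ^ e * be ^ (2 * w)`.
* `shf φ`: `(φ - φ(0)) / ff`; `fc j φ`: the `j`-th coefficient of `φ` as a series in `ff`.
-/

open PowerSeries

namespace MT2

/-! ### The matrices -/

/-- The binomial coefficient `x choose r`, zero for negative `r`. -/
def ch (x r : ℤ) : ℤ := if 0 ≤ r then Ring.choose x r.toNat else 0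

/-- The matrix of `U₂` for `e = 0`. -/
def N (w i j : ℤ) : ℤ := ch (i + j - w) (2 * i - j) + ch (i + j - w - 1) (2 * i - j)

/-- The matrix of `U₂` for `e = 1`. -/
def Nt (w i j : ℤ) : ℤ :=
  2 * ch (i + j - w) (2 * i - j) + 2 * ch (i + j - w - 1) (2 * i - j - 1)

/-- The matrix of `U₂`. -/
def NE (e : ℕ) (w i j : ℤ) : ℤ := if e = 0 then N w i j else Nt w i j

/-- The intertwining matrix. -/
def K4 (w i j : ℤ) : ℤ :=
  ch (i + j - w) (2 * i - j - 1) + ch (i + j - w - 1) (2 * i - j - 2)

/-! ### The null vectors -/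

/-- The right null vector. -/
noncomputable def xv (w n l : ℕ) : ℚ :=
  if l ≤ n then
    ∏ m ∈ Finset.Ico l n,
      (-(m : ℚ) * (((m : ℚ) + 1) ^ 2 - 2 * w * (m + 1) - 4 * (n * (n - w))) /
        (2 * (2 * w - 1 - 2 * m) * (n * (n - w) - m * (m - w))))
  else 0

/-- The left null vector. -/
noncomputable def yv (w n i : ℕ) : ℚ :=
  if i ≤ n then
    ∏ m ∈ Finset.Ico i n,
      (-((m : ℚ) + 1 - w) * ((m : ℚ) ^ 2 - w ^ 2 - 4 * (n * (n - w))) /
        (4 * (m * (m - w) - n * (n - w)) * (m - 1 / 2)))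
  else 0

/-- The rows which make the matrix triangular. -/
noncomputable def lv (w n i : ℕ) : ℚ :=
  ((i : ℚ) - 1 / 2) * yv w n i + ((i : ℚ) + 1 - w) * yv w n (i + 1)

/-- The product in the pivot. -/
noncomputable def kap (w n : ℕ) : ℚ :=
  ∏ j ∈ Finset.Ioo n (2 * n),
    (2 * (2 * (w : ℚ) - 1 - 2 * j) * (j * (j - w) - n * (n - w)) /
      (((j : ℚ) - 1) * (2 * n - j) * (2 * w - 2 * n - j)))

/-- The pivot. -/
noncomputable def del (w n : ℕ) : ℚ := -(2 * (w : ℚ) - 1 - 2 * n) * kap w n / (2 * n - 1)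

/-- The exponent of the denominators. -/
def EE (w : ℕ) : ℕ := 4 * Nat.log 2 w + 1

/-! ### The polynomials -/

/-- Auxiliary: `G 0 = 1`, `G 1 = X + 1`, `G (n + 2) = (X + 2) * G (n + 1) - G n`. -/
noncomputable def GG : ℕ → Polynomial ℤ
  | 0 => 1
  | 1 => Polynomial.X + 1
  | (n + 2) => (Polynomial.X + 2) * GG (n + 1) - GG n

/-- The polynomials with the coefficients `ch (i + s) (2 * i - j)`. -/
noncomputable def FF : ℕ → ℤ → Polynomial ℤ
  | 0, s => if 0 ≤ s then GG s.toNat else GG (-1 - s).toNat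
  | (j + 1), s => FF j (s + 1) - FF j s

/-- The polynomial with the coefficients `NE e w i j`. -/
noncomputable def TT (e w j : ℕ) : Polynomial ℤ :=
  if e = 0 then FF j ((j : ℤ) - w) + FF j ((j : ℤ) - w - 1)
  else 2 * (FF j ((j : ℤ) - w) + FF (j + 1) ((j : ℤ) - w - 1))

/-! ### The theta series -/

open scoped Classical in
/-- The theta series `∑ X ^ (n ^ 2)`. -/
noncomputable def thA : PowerSeries ℤ :=
  PowerSeries.mk fun m => if m = 0 then 1 else if ∃ n : ℕ, n ^ 2 = m then 2 else 0

/-- The theta series `∑ (-X) ^ (n ^ 2)`. -/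
noncomputable def thB : PowerSeries ℤ := evalNegHom thA

open scoped Classical in
/-- The theta series `∑ X ^ (n ^ 2)`, `n` odd, `n ≥ 1`. -/
noncomputable def thO : PowerSeries ℤ :=
  PowerSeries.mk fun m => if ∃ n : ℕ, n % 2 = 1 ∧ n ^ 2 = m then 1 else 0

/-- `φ(X ^ 2)`. -/
noncomputable def dbl {R : Type} [CommRing R] (φ : PowerSeries R) : PowerSeries R :=
  PowerSeries.expand 2 two_ne_zero φ

/-- `∑ a_{2n} X ^ n`. -/
noncomputable def uu {R : Type} [CommRing R] (φ : PowerSeries R) : PowerSeries R :=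
  PowerSeries.mk fun n => PowerSeries.coeff (2 * n) φ

/-- The fourth power of `thA`. -/
noncomputable def al : PowerSeries ℤ := thA ^ 4

/-- The fourth power of `thB`. -/
noncomputable def be : PowerSeries ℤ := thB ^ 4

/-- The inverse of `be`. -/
noncomputable def beI : PowerSeries ℤ := PowerSeries.invOfUnit be 1

/-- The Hauptmodul `ff = X + 24 X ^ 2 + …`, `16 * ff * be ^ 2 = al * (al - be)`. -/
noncomputable def ff : PowerSeries ℤ := al * thO * dbl (dbl thA) * dbl thA ^ 2 * beI ^ 2

/-- The inverse of `ff / X`. -/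
noncomputable def ffI : PowerSeries ℤ :=
  PowerSeries.invOfUnit (PowerSeries.mk fun n => PowerSeries.coeff (n + 1) ff) 1

/-- The series of weight `4 * w + 2 * e`. -/
noncomputable def WW (e w : ℕ) : PowerSeries ℤ := (2 * al - be) ^ e * be ^ (2 * w)

/-- The image of an integral power series. -/
noncomputable def up (R : Type) [CommRing R] (φ : PowerSeries ℤ) : PowerSeries R :=
  PowerSeries.map (Int.castRingHom R) φ

/-- `(φ - φ(0)) / ff`. -/
noncomputable def shf {R : Type} [CommRing R] : PowerSeries R →ₗ[R] PowerSeries R where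
  toFun φ := (PowerSeries.mk fun n => PowerSeries.coeff (n + 1) φ) * up R ffI
  map_add' φ ψ := by
    rw [← add_mul]
    congr 1
  map_smul' a φ := by
    rw [RingHom.id_apply, ← smul_mul_assoc]
    congr 1

/-- The `j`-th coefficient of `φ` as a series in `ff`. -/
noncomputable def fc {R : Type} [CommRing R] (j : ℕ) (φ : PowerSeries R) : R :=
  PowerSeries.constantCoeff ((shf ^ j) φ)

/-- The value of a polynomial at `ff`. -/
noncomputable def atf {R : Type} [CommRing R] (P : Polynomial R) : PowerSeries R :=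
  Polynomial.aeval (up R ff) P

/-- The polynomial `t ^ l * (1 - 512 t) ^ e * (1 + 256 t) ^ (w - e - 3 l)`. -/
noncomputable def Bt (R : Type) [CommRing R] (e w l : ℕ) : Polynomial R :=
  Polynomial.X ^ l * (1 - 512 * Polynomial.X) ^ e * (1 + 256 * Polynomial.X) ^ (w - e - 3 * l)

end MT2
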