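import Pool.Agent.Lib_MP_bfd926_sq.SFc
import Pool.Agent.Lib_MP_bfd926_sq.SU2

/-!
# The eigenvalue equation in coordinates

Let `K` be a field of characteristic zero (with a valuation `v`), `φ = up K (WW e w) * atf P`,
`P.coeff 0 = 0`, and suppose that `uu φ + 2 ^ (k - 1) * dbl φ = lam • φ`, `k = 4 * w + 2 * e ≥ 1`.
Let `x_j = P.coeff j / 16 ^ j`. Then for all `i`
`2 * lam * x_i = 16 ^ i * ∑_{j ∈ Icc 1 (2 * i)} NE e w i j * x_j + 2 ^ k / 16 ^ i * r_i` with
`r_i = fc i (up K WI * dbl φ)`, `WI` the inverse of `WW e w` in `ℤ⟦X⟧` (constant coefficient `1`).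
Proof: multiply by `WI` and apply `fc i`. `fc i (WI * φ) = P.coeff i = 16 ^ i * x_i` (`fc_atf`).
`uu` is linear, and by `U2_formula` (mapped to `K`)
`uu (W * ff ^ j) = (1 / (2 * 16 ^ j)) * W * atf (TT e w j (256 * X))`, so
`fc i (WI * uu φ) = ∑_j P.coeff j / (2 * 16 ^ j) * 256 ^ i * NE e w i j` (`coeff_TT`; sum over the
support of `P`; `NE e w i j = 0` for `j > 2 * i`, `x_0 = 0`). Multiply by `2 / 16 ^ i`.

The bound: if `v (x_j) ≤ ρ` for all `j ≥ 1` then `v (P.coeff j) ≤ v 16 * ρ` for all `j`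
(`v 16 ≤ 1`), so all coefficients of `φ`, of `dbl φ` and of `WI * dbl φ` are bounded by `v 16 * ρ`
(`val_mul_up`), and `v (r_i) ≤ v 16 * ρ` (`fc_val`).
-/

open PowerSeries

namespace MT2

/-- The coordinates. -/
noncomputable def crd {K : Type} [Field K] (P : Polynomial K) (j : ℕ) : K := P.coeff j / 16 ^ j

private theorem SEq_WI (e w : ℕ) : ∃ V : PowerSeries ℤ, WW e w * V = 1 := by
  refine ⟨PowerSeries.invOfUnit (WW e w) 1, ?_⟩
  apply PowerSeries.mul_invOfUnit
  unfold WW
  have h2 : constantCoeff (2 : PowerSeries ℤ) = 2 := map_ofNat _ 2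
  rw [map_mul, map_pow, map_pow, map_sub, map_mul, al_zero, be_zero, h2]
  norm_num

private theorem SEq_up_mul (R : Type) [CommRing R] (φ ψ : PowerSeries ℤ) :
    up R (φ * ψ) = up R φ * up R ψ := by
  unfold up
  rw [map_mul]

private theorem SEq_up_pow (R : Type) [CommRing R] (φ : PowerSeries ℤ) (n : ℕ) :
    up R (φ ^ n) = up R φ ^ n := by
  unfold up
  rw [map_pow]

private theorem SEq_uu_up (R : Type) [CommRing R] (φ : PowerSeries ℤ) :
    uu (up R φ) = up R (uu φ) := by
  ext n
  simp only [uu, up, PowerSeries.coeff_mk, PowerSeries.coeff_map]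

private theorem SEq_uu_sum {R : Type} [CommRing R] (s : Finset ℕ) (a : ℕ → R)
    (f : ℕ → PowerSeries R) : uu (∑ j ∈ s, C (a j) * f j) = ∑ j ∈ s, C (a j) * uu (f j) := by
  ext n
  simp only [uu, PowerSeries.coeff_mk, map_sum, PowerSeries.coeff_C_mul]

private theorem SEq_fc_sum {R : Type} [CommRing R] (i : ℕ) (s : Finset ℕ) (a : ℕ → R)
    (f : ℕ → PowerSeries R) : fc i (∑ j ∈ s, C (a j) * f j) = ∑ j ∈ s, a j * fc i (f j) := by
  unfold fc
  rw [map_sum, map_sum]
  apply Finset.sum_congr rfl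
  intro j _
  rw [← PowerSeries.smul_eq_C_mul, map_smul, PowerSeries.smul_eq_C_mul, map_mul,
    PowerSeries.constantCoeff_C]

private theorem SEq_fc_C {R : Type} [CommRing R] (i : ℕ) (a : R) (φ : PowerSeries R) :
    fc i (C a * φ) = a * fc i φ := by
  rw [← PowerSeries.smul_eq_C_mul, fc_smul]

private theorem SEq_atf_sum {R : Type} [CommRing R] (P : Polynomial R) :
    atf P = ∑ j ∈ P.support, C (P.coeff j) * up R ff ^ j := by
  unfold atf
  rw [Polynomial.aeval_def, Polynomial.eval₂_eq_sum, Polynomial.sum_def]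
  rfl

/-- `aeval (256 * ff)` of an integral polynomial, in `K`. -/
private theorem SEq_TT (K : Type) [Field K] (Q : Polynomial ℤ) (i : ℕ) :
    fc i (up K (Polynomial.aeval (256 * ff) Q)) = (Q.coeff i : K) * 256 ^ i := by
  have h1 : up K (Polynomial.aeval (256 * ff) Q) =
      atf ((Q.map (Int.castRingHom K)).comp (Polynomial.C 256 * Polynomial.X)) := by
    unfold atf
    rw [Polynomial.aeval_def, Polynomial.aeval_def, Polynomial.eval₂_comp,
      Polynomial.eval₂_map]
    unfold up
    rw [Polynomial.hom_eval₂]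
    congr 1
    · ext n
      simp
    · have h3 : (C (256 : K) : PowerSeries K) = 256 := map_ofNat _ 256
      rw [Polynomial.eval₂_mul, Polynomial.eval₂_C, Polynomial.eval₂_X, map_mul, map_ofNat]
      change _ = C (256 : K) * _
      rw [h3]
  rw [h1, fc_atf]
  rw [Polynomial.comp_C_mul_X_coeff, Polynomial.coeff_map]
  simp

private theorem SEq_val_int {K Γ : Type} [Field K] [LinearOrderedCommGroupWithZero Γ]
    (v : Valuation K Γ) (n : ℤ) : v (n : K) ≤ 1 := intCast_mem v.integer n

private theorem SEq_val_mul {K Γ : Type} [Field K] [LinearOrderedCommGroupWithZero Γ]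
    (v : Valuation K Γ) (a : K) (ψ : PowerSeries ℤ) (ρ : Γ) (h : v a ≤ ρ) (n : ℕ) :
    v (coeff n (C a * up K ψ)) ≤ ρ := by
  rw [PowerSeries.coeff_C_mul, map_mul]
  have h1 : v (coeff n (up K ψ)) ≤ 1 := by
    unfold up
    rw [PowerSeries.coeff_map, eq_intCast]
    exact SEq_val_int v _
  calc v a * v (coeff n (up K ψ)) ≤ ρ * 1 := mul_le_mul' h h1
    _ = ρ := mul_one ρ

private theorem SEq_NE_zero (e : ℕ) (w : ℤ) (i j : ℕ) (h : 2 * i < j) : NE e w i j = 0 := by
  have h1 : ¬ (0 : ℤ) ≤ 2 * (i : ℤ) - (j : ℤ) := by omega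
  have h2 : ¬ (0 : ℤ) ≤ 2 * (i : ℤ) - (j : ℤ) - 1 := by omega
  unfold NE N Nt ch
  simp only [h1, h2, if_false]
  simp

theorem eq_crd {K Γ : Type} [Field K] [CharZero K] [LinearOrderedCommGroupWithZero Γ]
    (v : Valuation K Γ) (e w : ℕ) (he : e ≤ 1) (P : Polynomial K) (hP : P.coeff 0 = 0) (lam : K)
    (h : uu (up K (WW e w) * atf P) + C (2 ^ (4 * w + 2 * e) / 2) * dbl (up K (WW e w) * atf P) =
      C lam * (up K (WW e w) * atf P))
    (ρ : Γ) (hρ : ∀ j, v (crd P j) ≤ ρ) (i : ℕ) :
    ∃ r : K, v r ≤ v 16 * ρ ∧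
      2 * lam * crd P i =
        16 ^ i * ∑ j ∈ Finset.Icc 1 (2 * i), (NE e w i j : K) * crd P j +
          2 ^ (4 * w + 2 * e) / 16 ^ i * r := by
  have h16 : v (16 : K) ≤ 1 := by
    have := SEq_val_int v 16
    simpa using this
  have hP' : ∀ j, v (P.coeff j) ≤ v 16 * ρ := by
    intro j
    rcases Nat.eq_zero_or_pos j with rfl | hj
    · rw [hP, map_zero]
      exact zero_le
    · have h1 : P.coeff j = crd P j * 16 ^ j := by
        unfold crd
        field_simp
      obtain ⟨m, rfl⟩ : ∃ m, j = m + 1 := ⟨j - 1, by omega⟩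
      rw [h1, map_mul, map_pow, pow_succ, ← mul_assoc, mul_comm (v (16 : K)) ρ]
      apply mul_le_mul' _ le_rfl
      calc v (crd P (m + 1)) * v 16 ^ m ≤ ρ * 1 := mul_le_mul' (hρ _) (pow_le_one' h16 m)
        _ = ρ := mul_one ρ
  obtain ⟨V, hV⟩ := SEq_WI e w
  have hVK : up K (WW e w) * up K V = 1 := by
    rw [← SEq_up_mul, hV]
    unfold up
    rw [map_one]
  have hphi : up K (WW e w) * atf P = ∑ j ∈ P.support, C (P.coeff j) * up K (WW e w * ff ^ j) := by
    rw [SEq_atf_sum, Finset.mul_sum]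
    apply Finset.sum_congr rfl
    intro j _
    rw [SEq_up_mul, SEq_up_pow]
    ring
  have hco : ∀ n, v (coeff n (up K (WW e w) * atf P)) ≤ v 16 * ρ := by
    intro n
    rw [hphi, map_sum]
    apply Valuation.map_sum_le
    intro j _
    exact SEq_val_mul v _ _ _ (hP' j) n
  have hdb : ∀ n, v (coeff n (dbl (up K (WW e w) * atf P))) ≤ v 16 * ρ := by
    intro n
    unfold dbl
    rw [PowerSeries.coeff_expand]
    split_ifs with hd
    · exact hco _
    · rw [map_zero]
      exact zero_le
  refine ⟨fc i (dbl (up K (WW e w) * atf P) * up K V), ?_, ?_⟩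
  · exact fc_val v _ _ (val_mul_up v _ _ _ hdb) i
  · have key : fc i (uu (up K (WW e w) * atf P) * up K V) =
        ∑ j ∈ P.support, P.coeff j * ((NE e w i j : K) * 256 ^ i / (2 * 16 ^ j)) := by
      rw [hphi, SEq_uu_sum, Finset.sum_mul]
      have hs : ∀ j ∈ P.support, C (P.coeff j) * uu (up K (WW e w * ff ^ j)) * up K V =
          C (P.coeff j) * (up K (uu (WW e w * ff ^ j)) * up K V) := by
        intro j _
        rw [SEq_uu_up]
        ring
      rw [Finset.sum_congr rfl hs, SEq_fc_sum]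
      apply Finset.sum_congr rfl
      intro j _
      congr 1
      have hU : up K (2 * 16 ^ j) * up K (uu (WW e w * ff ^ j)) =
          up K (WW e w) * up K (Polynomial.aeval (256 * ff) (TT e w j)) := by
        rw [← SEq_up_mul, ← SEq_up_mul, U2_formula e w j he]
      have hc : up K (2 * 16 ^ j) = C ((2 : K) * 16 ^ j) := by
        unfold up
        simp [map_ofNat]
      rw [hc] at hU
      have h2 : C ((2 : K) * 16 ^ j) * (up K (uu (WW e w * ff ^ j)) * up K V) =
          up K (Polynomial.aeval (256 * ff) (TT e w j)) := by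
        calc C ((2 : K) * 16 ^ j) * (up K (uu (WW e w * ff ^ j)) * up K V)
            = C ((2 : K) * 16 ^ j) * up K (uu (WW e w * ff ^ j)) * up K V := by ring
          _ = up K (WW e w) * up K V * up K (Polynomial.aeval (256 * ff) (TT e w j)) := by
              rw [hU]; ring
          _ = _ := by rw [hVK, one_mul]
      have h3 := congrArg (fc i) h2
      rw [SEq_fc_C, SEq_TT, coeff_TT e w j i he] at h3
      rw [eq_div_iff (mul_ne_zero two_ne_zero (pow_ne_zero _ (by norm_num)))]
      linear_combination h3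
    have hE := congrArg (fun φ => fc i (φ * up K V)) h
    simp only [add_mul, fc_add] at hE
    have e1 : C (2 ^ (4 * w + 2 * e) / 2 : K) * dbl (up K (WW e w) * atf P) * up K V =
        C (2 ^ (4 * w + 2 * e) / 2 : K) * (dbl (up K (WW e w) * atf P) * up K V) := by ring
    have e2 : C lam * (up K (WW e w) * atf P) * up K V = C lam * atf P := by
      calc C lam * (up K (WW e w) * atf P) * up K V
          = C lam * atf P * (up K (WW e w) * up K V) := by ring
        _ = _ := by rw [hVK, mul_one]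
    rw [e1, e2, SEq_fc_C, SEq_fc_C, fc_atf, key] at hE
    have hsum : ∑ j ∈ P.support, P.coeff j * ((NE e w i j : K) * 256 ^ i / (2 * 16 ^ j)) =
        256 ^ i / 2 * ∑ j ∈ Finset.Icc 1 (2 * i), (NE e w i j : K) * crd P j := by
      have h1 : ∑ j ∈ P.support, P.coeff j * ((NE e w i j : K) * 256 ^ i / (2 * 16 ^ j)) =
          ∑ j ∈ P.support ∪ Finset.Icc 1 (2 * i),
            P.coeff j * ((NE e w i j : K) * 256 ^ i / (2 * 16 ^ j)) := by
        apply Finset.sum_subset Finset.subset_union_left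
        intro j _ hj
        rw [Polynomial.notMem_support_iff.mp hj, zero_mul]
      have h2 : ∑ j ∈ Finset.Icc 1 (2 * i),
            P.coeff j * ((NE e w i j : K) * 256 ^ i / (2 * 16 ^ j)) =
          ∑ j ∈ P.support ∪ Finset.Icc 1 (2 * i),
            P.coeff j * ((NE e w i j : K) * 256 ^ i / (2 * 16 ^ j)) := by
        apply Finset.sum_subset Finset.subset_union_right
        intro j _ hj
        rw [Finset.mem_Icc, not_and_or] at hj
        rcases hj with hj | hj
        · have : j = 0 := by omega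
          rw [this, hP, zero_mul]
        · rw [SEq_NE_zero e w i j (by omega)]
          simp
      rw [h1, ← h2, Finset.mul_sum]
      apply Finset.sum_congr rfl
      intro j _
      unfold crd
      field_simp
    rw [hsum] at hE
    have h256 : (256 : K) ^ i = 16 ^ i * 16 ^ i := by
      rw [← mul_pow]; norm_num
    rw [h256] at hE
    have h16i : (16 : K) ^ i ≠ 0 := pow_ne_zero _ (by norm_num)
    have hcr : P.coeff i = crd P i * 16 ^ i := by
      unfold crd
      field_simp
    rw [hcr] at hE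
    have h5 : (16 : K) ^ i * (2 * lam * crd P i) = (16 : K) ^ i * (
        16 ^ i * ∑ j ∈ Finset.Icc 1 (2 * i), (NE e w i j : K) * crd P j +
          2 ^ (4 * w + 2 * e) / 16 ^ i * fc i (dbl (up K (WW e w) * atf P) * up K V)) := by
      have h6 : (16 : K) ^ i * (2 ^ (4 * w + 2 * e) / 16 ^ i *
          fc i (dbl (up K (WW e w) * atf P) * up K V)) = 2 ^ (4 * w + 2 * e) *
            fc i (dbl (up K (WW e w) * atf P) * up K V) := by
        field_simp
      rw [mul_add, h6]
      linear_combination (-2) * hE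
    exact mul_left_cancel₀ h16i h5

end MT2
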