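import Pool.Agent.Lib_MP_bfd926_sq.STail

/-!
# The matrix of `T₂`: coordinates of the image of a form

The same computation as in `eq_crd` (file `SEq`, please copy and adapt its proof and its private
lemmas), for the image of a form instead of an eigenform:
`uu φ + 2 ^ (k - 1) * dbl φ = up K (WW e w) * atf P'`, `φ = up K (WW e w) * atf P`. With
`r = fc i (up K WI * dbl φ)`, `WI` the inverse of `WW e w`. If `v (P.coeff j) ≤ ρ` for all `j`, then all
the coefficients of `φ`, `dbl φ`, `up K WI * dbl φ` are bounded by `ρ`, and `v r ≤ ρ`.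
-/

open PowerSeries

namespace MT2

private theorem SEq2_WI (e w : ℕ) : ∃ V : PowerSeries ℤ, WW e w * V = 1 := by
  refine ⟨PowerSeries.invOfUnit (WW e w) 1, ?_⟩
  apply PowerSeries.mul_invOfUnit
  unfold WW
  have h2 : constantCoeff (2 : PowerSeries ℤ) = 2 := map_ofNat _ 2
  rw [map_mul, map_pow, map_pow, map_sub, map_mul, al_zero, be_zero, h2]
  norm_num

private theorem SEq2_up_mul (R : Type) [CommRing R] (φ ψ : PowerSeries ℤ) :
    up R (φ * ψ) = up R φ * up R ψ := by
  unfold up
  rw [map_mul]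

private theorem SEq2_up_pow (R : Type) [CommRing R] (φ : PowerSeries ℤ) (n : ℕ) :
    up R (φ ^ n) = up R φ ^ n := by
  unfold up
  rw [map_pow]

private theorem SEq2_uu_up (R : Type) [CommRing R] (φ : PowerSeries ℤ) :
    uu (up R φ) = up R (uu φ) := by
  ext n
  simp only [uu, up, PowerSeries.coeff_mk, PowerSeries.coeff_map]

private theorem SEq2_uu_sum {R : Type} [CommRing R] (s : Finset ℕ) (a : ℕ → R)
    (f : ℕ → PowerSeries R) : uu (∑ j ∈ s, C (a j) * f j) = ∑ j ∈ s, C (a j) * uu (f j) := by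
  ext n
  simp only [uu, PowerSeries.coeff_mk, map_sum, PowerSeries.coeff_C_mul]

private theorem SEq2_fc_sum {R : Type} [CommRing R] (i : ℕ) (s : Finset ℕ) (a : ℕ → R)
    (f : ℕ → PowerSeries R) : fc i (∑ j ∈ s, C (a j) * f j) = ∑ j ∈ s, a j * fc i (f j) := by
  unfold fc
  rw [map_sum, map_sum]
  apply Finset.sum_congr rfl
  intro j _
  rw [← PowerSeries.smul_eq_C_mul, map_smul, PowerSeries.smul_eq_C_mul, map_mul,
    PowerSeries.constantCoeff_C]

private theorem SEq2_fc_C {R : Type} [CommRing R] (i : ℕ) (a : R) (φ : PowerSeries R) :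
    fc i (C a * φ) = a * fc i φ := by
  rw [← PowerSeries.smul_eq_C_mul, fc_smul]

private theorem SEq2_atf_sum {R : Type} [CommRing R] (P : Polynomial R) :
    atf P = ∑ j ∈ P.support, C (P.coeff j) * up R ff ^ j := by
  unfold atf
  rw [Polynomial.aeval_def, Polynomial.eval₂_eq_sum, Polynomial.sum_def]
  rfl

/-- `aeval (256 * ff)` of an integral polynomial, in `K`. -/
private theorem SEq2_TT (K : Type) [Field K] (Q : Polynomial ℤ) (i : ℕ) :
    fc i (up K (Polynomial.aeval (256 * ff) Q)) = (Q.coeff i : K) * 256 ^ i := by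
  have h1 : up K (Polynomial.aeval (256 * ff) Q) =
      atf ((Q.map (Int.castRingHom K)).comp (Polynomial.C 256 * Polynomial.X)) := by
    unfold atf
    rw [Polynomial.aeval_def, Polynomial.aeval_def, Polynomial.eval₂_comp,
      Polynomial.eval₂_map]
    unfold up
    rw [Polynomial.hom_eval₂]
    congr 1
    · ext n
      simp
    · have h3 : (C (256 : K) : PowerSeries K) = 256 := map_ofNat _ 256
      rw [Polynomial.eval₂_mul, Polynomial.eval₂_C, Polynomial.eval₂_X, map_mul, map_ofNat]
      change _ = C (256 : K) * _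
      rw [h3]
  rw [h1, fc_atf]
  rw [Polynomial.comp_C_mul_X_coeff, Polynomial.coeff_map]
  simp

private theorem SEq2_val_int {K Γ : Type} [Field K] [LinearOrderedCommGroupWithZero Γ]
    (v : Valuation K Γ) (n : ℤ) : v (n : K) ≤ 1 := intCast_mem v.integer n

private theorem SEq2_val_mul {K Γ : Type} [Field K] [LinearOrderedCommGroupWithZero Γ]
    (v : Valuation K Γ) (a : K) (ψ : PowerSeries ℤ) (ρ : Γ) (h : v a ≤ ρ) (n : ℕ) :
    v (coeff n (C a * up K ψ)) ≤ ρ := by
  rw [PowerSeries.coeff_C_mul, map_mul]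
  have h1 : v (coeff n (up K ψ)) ≤ 1 := by
    unfold up
    rw [PowerSeries.coeff_map, eq_intCast]
    exact SEq2_val_int v _
  calc v a * v (coeff n (up K ψ)) ≤ ρ * 1 := mul_le_mul' h h1
    _ = ρ := mul_one ρ

private theorem SEq2_NE_zero (e : ℕ) (w : ℤ) (i j : ℕ) (h : 2 * i < j) : NE e w i j = 0 := by
  have h1 : ¬ (0 : ℤ) ≤ 2 * (i : ℤ) - (j : ℤ) := by omega
  have h2 : ¬ (0 : ℤ) ≤ 2 * (i : ℤ) - (j : ℤ) - 1 := by omega
  unfold NE N Nt ch
  simp only [h1, h2, if_false]
  simp

theorem eq_crd2 {K Γ : Type} [Field K] [CharZero K] [LinearOrderedCommGroupWithZero Γ]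
    (v : Valuation K Γ) (e w : ℕ) (he : e ≤ 1) (P P' : Polynomial K) (hP : P.coeff 0 = 0)
    (h : uu (up K (WW e w) * atf P) + C (2 ^ (4 * w + 2 * e) / 2) * dbl (up K (WW e w) * atf P) =
      up K (WW e w) * atf P')
    (ρ : Γ) (hρ : ∀ j, v (P.coeff j) ≤ ρ) (i : ℕ) :
    ∃ r : K, v r ≤ ρ ∧
      2 * crd P' i =
        16 ^ i * ∑ j ∈ Finset.Icc 1 (2 * i), (NE e w i j : K) * crd P j +
          2 ^ (4 * w + 2 * e) / 16 ^ i * r := by
  obtain ⟨V, hV⟩ := SEq2_WI e w
  have hVK : up K (WW e w) * up K V = 1 := by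
    rw [← SEq2_up_mul, hV]
    unfold up
    rw [map_one]
  have hphi : up K (WW e w) * atf P = ∑ j ∈ P.support, C (P.coeff j) * up K (WW e w * ff ^ j) := by
    rw [SEq2_atf_sum, Finset.mul_sum]
    apply Finset.sum_congr rfl
    intro j _
    rw [SEq2_up_mul, SEq2_up_pow]
    ring
  have hco : ∀ n, v (coeff n (up K (WW e w) * atf P)) ≤ ρ := by
    intro n
    rw [hphi, map_sum]
    apply Valuation.map_sum_le
    intro j _
    exact SEq2_val_mul v _ _ _ (hρ j) n
  have hdb : ∀ n, v (coeff n (dbl (up K (WW e w) * atf P))) ≤ ρ := by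
    intro n
    unfold dbl
    rw [PowerSeries.coeff_expand]
    split_ifs with hd
    · exact hco _
    · rw [map_zero]
      exact zero_le
  refine ⟨fc i (dbl (up K (WW e w) * atf P) * up K V), ?_, ?_⟩
  · exact fc_val v _ _ (val_mul_up v _ _ _ hdb) i
  · have key : fc i (uu (up K (WW e w) * atf P) * up K V) =
        ∑ j ∈ P.support, P.coeff j * ((NE e w i j : K) * 256 ^ i / (2 * 16 ^ j)) := by
      rw [hphi, SEq2_uu_sum, Finset.sum_mul]
      have hs : ∀ j ∈ P.support, C (P.coeff j) * uu (up K (WW e w * ff ^ j)) * up K V =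
          C (P.coeff j) * (up K (uu (WW e w * ff ^ j)) * up K V) := by
        intro j _
        rw [SEq2_uu_up]
        ring
      rw [Finset.sum_congr rfl hs, SEq2_fc_sum]
      apply Finset.sum_congr rfl
      intro j _
      congr 1
      have hU : up K (2 * 16 ^ j) * up K (uu (WW e w * ff ^ j)) =
          up K (WW e w) * up K (Polynomial.aeval (256 * ff) (TT e w j)) := by
        rw [← SEq2_up_mul, ← SEq2_up_mul, U2_formula e w j he]
      have hc : up K (2 * 16 ^ j) = C ((2 : K) * 16 ^ j) := by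
        unfold up
        simp [map_ofNat]
      rw [hc] at hU
      have h2 : C ((2 : K) * 16 ^ j) * (up K (uu (WW e w * ff ^ j)) * up K V) =
          up K (Polynomial.aeval (256 * ff) (TT e w j)) := by
        calc C ((2 : K) * 16 ^ j) * (up K (uu (WW e w * ff ^ j)) * up K V)
            = C ((2 : K) * 16 ^ j) * up K (uu (WW e w * ff ^ j)) * up K V := by ring
          _ = up K (WW e w) * up K V * up K (Polynomial.aeval (256 * ff) (TT e w j)) := by
              rw [hU]; ring
          _ = _ := by rw [hVK, one_mul]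
      have h3 := congrArg (fc i) h2
      rw [SEq2_fc_C, SEq2_TT, coeff_TT e w j i he] at h3
      rw [eq_div_iff (mul_ne_zero two_ne_zero (pow_ne_zero _ (by norm_num)))]
      linear_combination h3
    have hE := congrArg (fun φ => fc i (φ * up K V)) h
    simp only [add_mul, fc_add] at hE
    have e1 : C (2 ^ (4 * w + 2 * e) / 2 : K) * dbl (up K (WW e w) * atf P) * up K V =
        C (2 ^ (4 * w + 2 * e) / 2 : K) * (dbl (up K (WW e w) * atf P) * up K V) := by ring
    have e2 : up K (WW e w) * atf P' * up K V = atf P' := by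
      calc up K (WW e w) * atf P' * up K V
          = atf P' * (up K (WW e w) * up K V) := by ring
        _ = _ := by rw [hVK, mul_one]
    rw [e1, e2, SEq2_fc_C, fc_atf, key] at hE
    have hsum : ∑ j ∈ P.support, P.coeff j * ((NE e w i j : K) * 256 ^ i / (2 * 16 ^ j)) =
        256 ^ i / 2 * ∑ j ∈ Finset.Icc 1 (2 * i), (NE e w i j : K) * crd P j := by
      have h1 : ∑ j ∈ P.support, P.coeff j * ((NE e w i j : K) * 256 ^ i / (2 * 16 ^ j)) =
          ∑ j ∈ P.support ∪ Finset.Icc 1 (2 * i),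
            P.coeff j * ((NE e w i j : K) * 256 ^ i / (2 * 16 ^ j)) := by
        apply Finset.sum_subset Finset.subset_union_left
        intro j _ hj
        rw [Polynomial.notMem_support_iff.mp hj, zero_mul]
      have h2 : ∑ j ∈ Finset.Icc 1 (2 * i),
            P.coeff j * ((NE e w i j : K) * 256 ^ i / (2 * 16 ^ j)) =
          ∑ j ∈ P.support ∪ Finset.Icc 1 (2 * i),
            P.coeff j * ((NE e w i j : K) * 256 ^ i / (2 * 16 ^ j)) := by
        apply Finset.sum_subset Finset.subset_union_right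
        intro j _ hj
        rw [Finset.mem_Icc, not_and_or] at hj
        rcases hj with hj | hj
        · have : j = 0 := by omega
          rw [this, hP, zero_mul]
        · rw [SEq2_NE_zero e w i j (by omega)]
          simp
      rw [h1, ← h2, Finset.mul_sum]
      apply Finset.sum_congr rfl
      intro j _
      unfold crd
      field_simp
    rw [hsum] at hE
    have h256 : (256 : K) ^ i = 16 ^ i * 16 ^ i := by
      rw [← mul_pow]; norm_num
    rw [h256] at hE
    have h16i : (16 : K) ^ i ≠ 0 := pow_ne_zero _ (by norm_num)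
    have hcr : P'.coeff i = crd P' i * 16 ^ i := by
      unfold crd
      field_simp
    rw [hcr] at hE
    have h5 : (16 : K) ^ i * (2 * crd P' i) = (16 : K) ^ i * (
        16 ^ i * ∑ j ∈ Finset.Icc 1 (2 * i), (NE e w i j : K) * crd P j +
          2 ^ (4 * w + 2 * e) / 16 ^ i * fc i (dbl (up K (WW e w) * atf P) * up K V)) := by
      have h6 : (16 : K) ^ i * (2 ^ (4 * w + 2 * e) / 16 ^ i *
          fc i (dbl (up K (WW e w) * atf P) * up K V)) = 2 ^ (4 * w + 2 * e) *
            fc i (dbl (up K (WW e w) * atf P) * up K V) := by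
        field_simp
      rw [mul_add, h6]
      linear_combination (-2) * hE
    exact mul_left_cancel₀ h16i h5


/-- the polynomial `(1 - 2 X) ^ e (1 + X) ^ n` over the integers -/
private noncomputable def SEq2_tailG (e n : ℕ) : Polynomial ℤ :=
  (1 - 2 * Polynomial.X) ^ e * (1 + Polynomial.X) ^ n

private theorem SEq2_tailG_zero (e n : ℕ) : (SEq2_tailG e n).coeff 0 = 1 := by
  unfold SEq2_tailG
  rw [Polynomial.coeff_zero_eq_eval_zero]
  simp

private theorem SEq2_tail_Bt (K : Type) [Field K] (e w l i : ℕ) :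
    (Bt K e w l).coeff i =
      if l ≤ i then 256 ^ (i - l) * ((SEq2_tailG e (w - e - 3 * l)).coeff (i - l) : K) else 0 := by
  have h1 : (1 - 512 * Polynomial.X : Polynomial K) ^ e * (1 + 256 * Polynomial.X) ^ (w - e - 3 * l) =
      ((SEq2_tailG e (w - e - 3 * l)).map (Int.castRingHom K)).comp
        (Polynomial.C 256 * Polynomial.X) := by
    unfold SEq2_tailG
    have h256 : (Polynomial.C (256 : K)) = 256 := by
      rw [show (256 : K) = ((256 : ℕ) : K) by norm_num, Polynomial.C_eq_natCast]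
      norm_num
    simp only [Polynomial.map_mul, Polynomial.map_pow, Polynomial.map_sub, Polynomial.map_add,
      Polynomial.map_one, Polynomial.map_X, Polynomial.map_ofNat, Polynomial.mul_comp,
      Polynomial.pow_comp, Polynomial.sub_comp, Polynomial.add_comp, Polynomial.one_comp,
      Polynomial.X_comp, Polynomial.ofNat_comp, h256]
    ring
  unfold Bt
  rw [mul_assoc, h1, Polynomial.coeff_X_pow_mul']
  split_ifs with h
  · rw [Polynomial.comp_C_mul_X_coeff, Polynomial.coeff_map, eq_intCast, mul_comm]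
  · rfl

private theorem SEq2_tail_crd {K : Type} [Field K] [CharZero K] (e w d : ℕ) (y : ℕ → K) (i : ℕ) :
    crd (∑ l ∈ Finset.Icc 1 d, Polynomial.C (y l) * Bt K e w l) i =
      ∑ l ∈ Finset.Icc 1 d, if l ≤ i then
        16 ^ (i - l) * ((SEq2_tailG e (w - e - 3 * l)).coeff (i - l) : K) * (y l / 16 ^ l) else 0 := by
  unfold crd
  rw [Polynomial.finset_sum_coeff, Finset.sum_div]
  refine Finset.sum_congr rfl fun l _ => ?_
  rw [Polynomial.coeff_C_mul, SEq2_tail_Bt]
  split_ifs with h
  · obtain ⟨m, rfl⟩ := Nat.exists_eq_add_of_le h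
    rw [Nat.add_sub_cancel_left]
    have h16 : (16 : K) ≠ 0 := by norm_num
    have e1 : (256 : K) ^ m = 16 ^ m * 16 ^ m := by
      rw [← mul_pow]
      norm_num
    rw [e1, pow_add]
    field_simp
  · rw [mul_zero, zero_div]

/-- the coordinate with `i ≤ d`, the last term split off -/
private theorem SEq2_tail_split {K : Type} [Field K] [CharZero K] (e w d : ℕ) (y : ℕ → K) (l : ℕ)
    (h1 : 1 ≤ l) (h2 : l ≤ d) :
    crd (∑ l ∈ Finset.Icc 1 d, Polynomial.C (y l) * Bt K e w l) l =
      (∑ m ∈ Finset.Ico 1 l,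
        16 ^ (l - m) * ((SEq2_tailG e (w - e - 3 * m)).coeff (l - m) : K) * (y m / 16 ^ m)) +
      y l / 16 ^ l := by
  rw [SEq2_tail_crd, ← Finset.sum_filter]
  have e1 : (Finset.Icc 1 d).filter (fun m => m ≤ l) = insert l (Finset.Ico 1 l) := by
    ext m
    simp only [Finset.mem_filter, Finset.mem_Icc, Finset.mem_insert, Finset.mem_Ico]
    omega
  rw [e1, Finset.sum_insert (by simp), Nat.sub_self, SEq2_tailG_zero]
  simp only [pow_zero, Int.cast_one, one_mul]
  rw [add_comm]

private theorem SEq2_exists {K : Type} [Field K] [CharZero K] (e w d : ℕ) (t : ℕ → K) (n : ℕ) :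
    ∃ y : ℕ → K, ∀ i, 1 ≤ i → i ≤ n → i ≤ d →
      crd (∑ l ∈ Finset.Icc 1 d, Polynomial.C (y l) * Bt K e w l) i = t i := by
  induction n with
  | zero =>
    refine ⟨fun _ => 0, fun i h1 h2 => ?_⟩
    omega
  | succ n ih =>
    obtain ⟨y, hy⟩ := ih
    have h16 : ((16 : K) ^ (n + 1)) ≠ 0 := pow_ne_zero _ (by norm_num)
    refine ⟨Function.update y (n + 1) (16 ^ (n + 1) * (t (n + 1) -
      ∑ m ∈ Finset.Ico 1 (n + 1), 16 ^ (n + 1 - m) *
        ((SEq2_tailG e (w - e - 3 * m)).coeff (n + 1 - m) : K) * (y m / 16 ^ m))), ?_⟩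
    intro i h1 h2 h3
    rw [SEq2_tail_split e w d _ i h1 h3]
    have hsum : ∀ z : K, ∑ m ∈ Finset.Ico 1 i,
        16 ^ (i - m) * ((SEq2_tailG e (w - e - 3 * m)).coeff (i - m) : K) *
          (Function.update y (n + 1) z m / 16 ^ m) =
        ∑ m ∈ Finset.Ico 1 i,
        16 ^ (i - m) * ((SEq2_tailG e (w - e - 3 * m)).coeff (i - m) : K) * (y m / 16 ^ m) := by
      intro z
      refine Finset.sum_congr rfl fun m hm => ?_
      rw [Finset.mem_Ico] at hm
      rw [Function.update_of_ne (by omega)]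
    rw [hsum]
    rcases Nat.lt_or_ge i (n + 1) with hi | hi
    · rw [Function.update_of_ne (by omega), ← SEq2_tail_split e w d y i h1 h3]
      exact hy i h1 (by omega) h3
    · have hi' : i = n + 1 := by omega
      subst hi'
      rw [Function.update_self, mul_div_cancel_left₀ _ h16]
      ring

/-- The form with prescribed coordinates. -/
theorem crd_surj {K Γ : Type} [Field K] [CharZero K] [LinearOrderedCommGroupWithZero Γ]
    (v : Valuation K Γ) (hv : v 2 ≤ 1) (e w d : ℕ) (j : ℕ) (hj : 1 ≤ j) (hjd : j ≤ d) :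
    ∃ y : ℕ → K,
      (∀ i, 1 ≤ i → i ≤ d → crd (∑ l ∈ Finset.Icc 1 d, Polynomial.C (y l) * Bt K e w l) i =
        if i = j then 1 else 0) ∧
      ∀ l, d < l →
        v (crd (∑ l ∈ Finset.Icc 1 d, Polynomial.C (y l) * Bt K e w l) l) ≤ v 2 ^ (4 * (l - j)) := by
  obtain ⟨y, hy⟩ := SEq2_exists (K := K) e w d (fun i => if i = j then 1 else 0) d
  refine ⟨y, fun i h1 h2 => hy i h1 h2 h2, fun l hl => ?_⟩
  refine crd_tail v hv e w d y l hl _ fun m h1 h2 => ?_
  rw [hy m h1 h2 h2]
  split_ifs with h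
  · rw [h, map_one, mul_one]
  · rw [map_zero, mul_zero]
    exact zero_le

end MT2
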