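import Pool.Agent.Lib_MP_bfd926_sq.STheta

/-!
# Expansions in powers of `ff`

`shf φ = (φ - φ(0)) / ff`. Facts: `up R ff * shf φ = φ - C (φ(0))` (`ff = X * (ff / X)`,
`(ff / X) * ffI = 1`, the constant coefficient of `ff / X` is `1` by `ff_one`);
`shf (C a + up R ff * φ) = φ`. So for a polynomial `P`,
`shf (atf P) = atf P.divX` (`P = P.divX * X + C (P.coeff 0)`), and `fc j (atf P) = P.coeff j` by
induction on `j` (`Polynomial.coeff_divX`).
`fc_mem`: if all the coefficients of `φ` are in a subring-module `M` (here: `v (coeff n φ) ≤ r` for a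
valuation `v` with `v n ≤ 1` for the integers), the same holds for `shf φ`, hence for `fc j φ`.
-/

open PowerSeries

namespace MT2

private noncomputable def SFcg : PowerSeries ℤ := PowerSeries.mk fun n => PowerSeries.coeff (n + 1) ff

private theorem SFc_ff : ff = X * SFcg := by
  have h := PowerSeries.sub_const_eq_X_mul_shift ff
  have h0 : constantCoeff ff = 0 := by
    have := ff_zero
    rwa [PowerSeries.coeff_zero_eq_constantCoeff_apply] at this
  rw [h0, map_zero, sub_zero] at h
  exact h

private theorem SFc_g : SFcg * ffI = 1 := by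
  unfold ffI SFcg
  apply PowerSeries.mul_invOfUnit
  rw [← PowerSeries.coeff_zero_eq_constantCoeff_apply, PowerSeries.coeff_mk]
  simpa using ff_one

private theorem SFc_up_mul (R : Type) [CommRing R] (φ ψ : PowerSeries ℤ) : up R (φ * ψ) = up R φ * up R ψ := by
  unfold up
  rw [map_mul]

private theorem SFc_up_ff (R : Type) [CommRing R] : up R ff = X * up R SFcg := by
  conv_lhs => rw [SFc_ff]
  rw [SFc_up_mul]
  congr 1
  unfold up
  exact PowerSeries.map_X _

private theorem SFc_up_g (R : Type) [CommRing R] : up R SFcg * up R ffI = 1 := by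
  rw [← SFc_up_mul, SFc_g]
  unfold up
  rw [map_one]

private theorem SFc_shf {R : Type} [CommRing R] (φ : PowerSeries R) :
    shf φ = (PowerSeries.mk fun n => PowerSeries.coeff (n + 1) φ) * up R ffI := rfl

private theorem SFc_shf_C {R : Type} [CommRing R] (a : R) (φ : PowerSeries R) :
    shf (C a + up R ff * φ) = φ := by
  rw [SFc_shf]
  have h1 : (PowerSeries.mk fun n => PowerSeries.coeff (n + 1) (C a + up R ff * φ)) = up R SFcg * φ := by
    ext n
    rw [PowerSeries.coeff_mk, map_add, SFc_up_ff, mul_assoc, PowerSeries.coeff_succ_X_mul,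
      PowerSeries.coeff_C, if_neg (Nat.succ_ne_zero n), zero_add]
  rw [h1]
  calc up R SFcg * φ * up R ffI = up R SFcg * up R ffI * φ := by ring
    _ = φ := by rw [SFc_up_g, one_mul]

private theorem SFc_atf {R : Type} [CommRing R] (P : Polynomial R) :
    atf P = C (P.coeff 0) + up R ff * atf P.divX := by
  conv_lhs => rw [← Polynomial.divX_mul_X_add P]
  unfold atf
  rw [map_add, map_mul, Polynomial.aeval_X, Polynomial.aeval_C]
  rw [add_comm, mul_comm]
  rfl

private theorem SFc_cc (R : Type) [CommRing R] : constantCoeff (up R ff) = 0 := by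
  rw [SFc_up_ff, map_mul, PowerSeries.constantCoeff_X, zero_mul]

private theorem SFc_succ {R : Type} [CommRing R] (j : ℕ) (φ : PowerSeries R) : fc (j + 1) φ = fc j (shf φ) := by
  unfold fc
  rw [pow_succ, Module.End.mul_apply]

private theorem SFc_zero {R : Type} [CommRing R] (φ : PowerSeries R) : fc 0 φ = constantCoeff φ := by
  unfold fc
  rw [pow_zero, Module.End.one_apply]

theorem ff_mul_shf {R : Type} [CommRing R] (φ : PowerSeries R) :
    up R ff * shf φ = φ - C (constantCoeff φ) := by
  rw [PowerSeries.sub_const_eq_X_mul_shift, SFc_shf, SFc_up_ff]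
  calc X * up R SFcg * ((PowerSeries.mk fun n => PowerSeries.coeff (n + 1) φ) * up R ffI)
      = X * (PowerSeries.mk fun n => PowerSeries.coeff (n + 1) φ) * (up R SFcg * up R ffI) := by ring
    _ = X * (PowerSeries.mk fun n => PowerSeries.coeff (n + 1) φ) := by rw [SFc_up_g, mul_one]

theorem shf_atf {R : Type} [CommRing R] (P : Polynomial R) : shf (atf P) = atf P.divX := by
  rw [SFc_atf P, SFc_shf_C]

theorem fc_atf {R : Type} [CommRing R] (P : Polynomial R) (j : ℕ) : fc j (atf P) = P.coeff j := by
  induction j generalizing P with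
  | zero =>
    rw [SFc_zero, SFc_atf, map_add, map_mul, SFc_cc, zero_mul, add_zero]
    exact PowerSeries.constantCoeff_C _
  | succ j ih => rw [SFc_succ, shf_atf, ih, Polynomial.coeff_divX]

theorem fc_add {R : Type} [CommRing R] (j : ℕ) (φ ψ : PowerSeries R) :
    fc j (φ + ψ) = fc j φ + fc j ψ := by
  unfold fc
  rw [map_add, map_add]

theorem fc_smul {R : Type} [CommRing R] (j : ℕ) (a : R) (φ : PowerSeries R) :
    fc j (a • φ) = a * fc j φ := by
  unfold fc
  rw [map_smul, PowerSeries.smul_eq_C_mul, map_mul, PowerSeries.constantCoeff_C]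

theorem atf_inj {R : Type} [CommRing R] {P Q : Polynomial R} (h : atf P = atf Q) : P = Q := by
  ext j
  rw [← fc_atf P j, ← fc_atf Q j, h]

/-- Integral power series preserve bounds for the coefficients. -/
theorem val_mul_up {K Γ : Type} [Field K] [LinearOrderedCommGroupWithZero Γ] (v : Valuation K Γ)
    (ψ : PowerSeries ℤ) (φ : PowerSeries K) (r : Γ) (h : ∀ n, v (coeff n φ) ≤ r) (n : ℕ) :
    v (coeff n (φ * up K ψ)) ≤ r := by
  rw [PowerSeries.coeff_mul]
  apply Valuation.map_sum_le
  intro p _
  rw [map_mul]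
  have h1 : v (coeff p.2 (up K ψ)) ≤ 1 := by
    unfold up
    rw [PowerSeries.coeff_map]
    have h2 : ((Int.castRingHom K) (coeff p.2 ψ)) ∈ v.integer := by
      rw [eq_intCast]
      exact intCast_mem v.integer _
    exact h2
  calc v (coeff p.1 φ) * v (coeff p.2 (up K ψ)) ≤ r * 1 := mul_le_mul' (h _) h1
    _ = r := mul_one r

theorem fc_val {K Γ : Type} [Field K] [LinearOrderedCommGroupWithZero Γ] (v : Valuation K Γ)
    (φ : PowerSeries K) (r : Γ) (h : ∀ n, v (coeff n φ) ≤ r) (j : ℕ) : v (fc j φ) ≤ r := by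
  induction j generalizing φ with
  | zero =>
    rw [SFc_zero, ← PowerSeries.coeff_zero_eq_constantCoeff_apply]
    exact h 0
  | succ j ih =>
    rw [SFc_succ]
    apply ih
    intro n
    rw [SFc_shf]
    apply val_mul_up
    intro m
    rw [PowerSeries.coeff_mk]
    exact h _

end MT2
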