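import Mathlib

/-!
# The integral matrices of determinant two: definitions

`M2`: integral `2 × 2` matrices of determinant `2`, with the action of `SL(2, ℤ)` by left
multiplication (Mathlib: `FixedDetMatrix`); `gl A` the matrix in `GL (Fin 2) ℝ`; `dlt i`,
`i : Fin 3`, the representatives `(2, 0; 0, 1)`, `(1, 0; 0, 2)`, `(1, 1; 0, 2)` of
`SL(2, ℤ) \ M2`; `adj A = 2 * A⁻¹`.
`T2f k f`: the Hecke operator on functions.
-/

open UpperHalfPlane Matrix
open scoped MatrixGroups ModularForm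

namespace MT2

/-- Integral matrices of determinant two. -/
abbrev M2 := FixedDetMatrix (Fin 2) ℤ 2

/-- The matrix in `GL (Fin 2) ℝ`. -/
noncomputable def gl (A : M2) : GL (Fin 2) ℝ :=
  Matrix.GeneralLinearGroup.mkOfDetNeZero (A.1.map (Int.castRingHom ℝ)) (by
    have h : (A.1.map (Int.castRingHom ℝ)).det = ((A.1.det : ℤ) : ℝ) := by
      rw [← RingHom.mapMatrix_apply, ← RingHom.map_det]
      rfl
    rw [h, A.2]
    norm_num)

/-- The representatives. -/
def dlt (i : Fin 3) : M2 :=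
  if i = 0 then ⟨!![2, 0; 0, 1], by simp [Matrix.det_fin_two]⟩
  else if i = 1 then ⟨!![1, 0; 0, 2], by simp [Matrix.det_fin_two]⟩
  else ⟨!![1, 1; 0, 2], by simp [Matrix.det_fin_two]⟩

/-- The adjugate matrix. -/
def adj (A : M2) : M2 := ⟨A.1.adjugate, by rw [Matrix.det_adjugate, A.2]; simp⟩

/-- The Hecke operator `T₂` of weight `k` on functions. -/
noncomputable def T2f (k : ℤ) (f : ℍ → ℂ) (z : ℍ) : ℂ :=
  2 ^ (k - 1) * f (ofComplex (2 * z)) + (f (ofComplex (z / 2)) + f (ofComplex ((z + 1) / 2))) / 2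

end MT2
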