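import Pool.Agent.Lib_MP_bfd926_sq.SG

/-!
# The integral matrices of determinant two

* `cosets`: every `A` in `M2` is `γ • dlt i` for exactly one `(γ, i)`. Existence: for
  `A = (a, b; c, d)` with `ad - bc = 2` look at the parity of the first column and of the second
  column: `A * (2 * (dlt i)⁻¹)` must be divisible by `2`, that is `A * (1, 0; 0, 2) ≡ 0` (`i = 0`),
  i.e. `a`, `c` even; `A * (2, 0; 0, 1) ≡ 0` (`i = 1`), i.e. `b`, `d` even; `A * (2, -1; 0, 1) ≡ 0`
  (`i = 2`), i.e. `b - a`, `d - c` even. As `ad - bc` is even, the columns of `A` are linearly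
  dependent modulo `2` and not both zero modulo `2` (else `4` divides `2`); so exactly one of the
  three vectors (first column, second column, their sum) is zero modulo `2`.
* `gl_smul`, `gl_adj`, `adj_adj`, `slash_adj`: for `g` in `GL (Fin 2) ℝ` with `g = gl A`, `gl (adj A) = 2 * g⁻¹`
  (the scalar matrix `2`), and the slash action of the scalar `2` in weight `k` is multiplication with
  `4 ^ (k - 1) * 2 ^ (-k) = 2 ^ (k - 2)`.
* `gl_adj_smul`: scalar matrices act trivially on the upper half plane.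
* `T2f_eq`: by `ModularForm.slash_def`: `f ∣[k] gl (dlt 0) = 2 ^ (k - 1) * f (2 z)`,
  `f ∣[k] gl (dlt 1) = 2 ^ (k - 1) * 2 ^ (-k) * f (z / 2)`, and so on.
* `slash_gl_smul`: for `f` invariant, `f ∣[k] gl (γ • A) = (f ∣[k] γ) ∣[k] gl A = f ∣[k] gl A`.
* `T2f_slash`: for `f` invariant and `γ` in `SL(2, ℤ)`: `dlt i * γ = γ' • dlt (σ i)` with a
  permutation `σ` (by `cosets`; or check it for the generators `S`, `T` only,
  `slash_action_generators_SL2Z`: `dlt 0 * S = S • dlt 1`, `dlt 1 * S = S • dlt 0`,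
  `dlt 2 * S = (1, -1; 2, -1) • dlt 2`, `dlt 0 * T = T ^ 2 • dlt 0`, `dlt 1 * T = dlt 2`,
  `dlt 2 * T = T • dlt 1`).
-/

open UpperHalfPlane Matrix
open scoped MatrixGroups ModularForm

namespace MT2

private theorem SGa_entries0 (γ : SL(2, ℤ)) :
    (γ • dlt 0).1 0 0 = 2 * γ.1 0 0 ∧ (γ • dlt 0).1 0 1 = γ.1 0 1 ∧
    (γ • dlt 0).1 1 0 = 2 * γ.1 1 0 ∧ (γ • dlt 0).1 1 1 = γ.1 1 1 := by
  simp only [FixedDetMatrices.smul_coe, dlt, Matrix.mul_apply, Fin.sum_univ_two]
  simp [mul_comm]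

private theorem SGa_entries1 (γ : SL(2, ℤ)) :
    (γ • dlt 1).1 0 0 = γ.1 0 0 ∧ (γ • dlt 1).1 0 1 = 2 * γ.1 0 1 ∧
    (γ • dlt 1).1 1 0 = γ.1 1 0 ∧ (γ • dlt 1).1 1 1 = 2 * γ.1 1 1 := by
  simp only [FixedDetMatrices.smul_coe, dlt, Matrix.mul_apply, Fin.sum_univ_two]
  simp [mul_comm]

private theorem SGa_entries2 (γ : SL(2, ℤ)) :
    (γ • dlt 2).1 0 0 = γ.1 0 0 ∧ (γ • dlt 2).1 0 1 = γ.1 0 0 + 2 * γ.1 0 1 ∧
    (γ • dlt 2).1 1 0 = γ.1 1 0 ∧ (γ • dlt 2).1 1 1 = γ.1 1 0 + 2 * γ.1 1 1 := by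
  simp only [FixedDetMatrices.smul_coe, dlt, Matrix.mul_apply, Fin.sum_univ_two]
  simp [mul_comm]

private theorem SGa_det (γ : SL(2, ℤ)) : γ.1 0 0 * γ.1 1 1 - γ.1 0 1 * γ.1 1 0 = 1 := by
  have h := γ.2
  rw [Matrix.det_fin_two] at h
  exact h

private theorem SGa_uniq (γ γ' : SL(2, ℤ)) (i j : Fin 3) (h : γ • dlt i = γ' • dlt j) :
    (γ, i) = (γ', j) := by
  have hij : i = j := by
    obtain ⟨e0, e1, e2, e3⟩ := SGa_entries0 γ
    obtain ⟨e0', e1', e2', e3'⟩ := SGa_entries0 γ'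
    obtain ⟨f0, f1, f2, f3⟩ := SGa_entries1 γ
    obtain ⟨f0', f1', f2', f3'⟩ := SGa_entries1 γ'
    obtain ⟨g0, g1, g2, g3⟩ := SGa_entries2 γ
    obtain ⟨g0', g1', g2', g3'⟩ := SGa_entries2 γ'
    have hd := SGa_det γ
    have hd' := SGa_det γ'
    set a := γ.1 0 0
    set b := γ.1 0 1
    set c := γ.1 1 0
    set d := γ.1 1 1
    set a' := γ'.1 0 0
    set b' := γ'.1 0 1
    set c' := γ'.1 1 0
    set d' := γ'.1 1 1
    fin_cases i <;> fin_cases j <;> first | rfl | exfalso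
    all_goals simp only [Fin.zero_eta, Fin.mk_one, Fin.reduceFinMk] at h
    · -- 0 1
      rw [h] at e0 e1 e2 e3
      have h1 : a' = 2 * a := by rw [← f0', e0]
      have h2 : c' = 2 * c := by rw [← f2', e2]
      rw [h1, h2] at hd'
      have : 2 * (a * d' - b' * c) = 1 := by linear_combination hd'
      omega
    · -- 0 2
      rw [h] at e0 e1 e2 e3
      have h1 : a' = 2 * a := by rw [← g0', e0]
      have h2 : c' = 2 * c := by rw [← g2', e2]
      rw [h1, h2] at hd'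
      have : 2 * (a * d' - b' * c) = 1 := by linear_combination hd'
      omega
    · -- 1 0
      rw [h] at f0 f1 f2 f3
      have h1 : a = 2 * a' := by rw [← f0, e0']
      have h2 : c = 2 * c' := by rw [← f2, e2']
      rw [h1, h2] at hd
      have : 2 * (a' * d - b * c') = 1 := by linear_combination hd
      omega
    · -- 1 2
      rw [h] at f0 f1 f2 f3
      have h1 : a = a' := by rw [← f0, g0']
      have h2 : c = c' := by rw [← f2, g2']
      have h3 : a' + 2 * b' = 2 * b := by rw [← f1, g1']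
      have h4 : c' + 2 * d' = 2 * d := by rw [← f3, g3']
      have h5 : a = 2 * (b - b') := by linarith
      have h6 : c = 2 * (d - d') := by linarith
      rw [h5, h6] at hd
      have : 2 * ((b - b') * d - b * (d - d')) = 1 := by linear_combination hd
      omega
    · -- 2 0
      rw [h] at g0 g1 g2 g3
      have h1 : a = 2 * a' := by rw [← g0, e0']
      have h2 : c = 2 * c' := by rw [← g2, e2']
      rw [h1, h2] at hd
      have : 2 * (a' * d - b * c') = 1 := by linear_combination hd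
      omega
    · -- 2 1
      rw [h] at g0 g1 g2 g3
      have h1 : a = a' := by rw [← g0, f0']
      have h2 : c = c' := by rw [← g2, f2']
      have h3 : a + 2 * b = 2 * b' := by rw [← g1, f1']
      have h4 : c + 2 * d = 2 * d' := by rw [← g3, f3']
      have h5 : a' = 2 * (b' - b) := by linarith
      have h6 : c' = 2 * (d' - d) := by linarith
      rw [h5, h6] at hd'
      have : 2 * ((b' - b) * d' - b' * (d' - d)) = 1 := by linear_combination hd'
      omega
  subst hij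
  have hv : γ.1 * (dlt i).1 = γ'.1 * (dlt i).1 := by
    rw [← FixedDetMatrices.smul_coe, ← FixedDetMatrices.smul_coe, h]
  have hc : γ.1 = γ'.1 := by
    have h2 : (γ.1 * (dlt i).1) * (dlt i).1.adjugate = (γ'.1 * (dlt i).1) * (dlt i).1.adjugate := by
      rw [hv]
    rw [Matrix.mul_assoc, Matrix.mul_assoc, Matrix.mul_adjugate, (dlt i).2] at h2
    ext r s
    have h3 := congrFun (congrFun h2 r) s
    simp only [Matrix.mul_smul, Matrix.mul_one, Matrix.smul_apply, smul_eq_mul] at h3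
    omega
  have : γ = γ' := Subtype.ext hc
  rw [this]

theorem cosets (A : M2) : ∃! p : SL(2, ℤ) × Fin 3, p.1 • dlt p.2 = A := by
  have hex : ∃ p : SL(2, ℤ) × Fin 3, p.1 • dlt p.2 = A := by
    have hdet : A.1 0 0 * A.1 1 1 - A.1 0 1 * A.1 1 0 = 2 := by
      have h := A.2
      rw [Matrix.det_fin_two] at h
      exact h
    set a := A.1 0 0 with ha
    set b := A.1 0 1 with hb
    set c := A.1 1 0 with hc
    set d := A.1 1 1 with hd
    have key : (2 ∣ a ∧ 2 ∣ c) ∨ (2 ∣ b ∧ 2 ∣ d) ∨ (2 ∣ b - a ∧ 2 ∣ d - c) := by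
      rcases Int.even_or_odd' a with ⟨a', h1 | h1⟩ <;>
      rcases Int.even_or_odd' b with ⟨b', h2 | h2⟩ <;>
      rcases Int.even_or_odd' c with ⟨c', h3 | h3⟩ <;>
      rcases Int.even_or_odd' d with ⟨d', h4 | h4⟩ <;>
      first
        | (left; exact ⟨⟨a', h1⟩, ⟨c', h3⟩⟩)
        | (right; left; exact ⟨⟨b', h2⟩, ⟨d', h4⟩⟩)
        | (right; right; constructor <;> omega)
        | (exfalso
           rw [h1, h2, h3, h4] at hdet
           ring_nf at hdet
           omega)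
    rcases key with ⟨⟨a', h1⟩, ⟨c', h3⟩⟩ | ⟨⟨b', h2⟩, ⟨d', h4⟩⟩ | ⟨⟨b', h2⟩, ⟨d', h4⟩⟩
    · refine ⟨(⟨!![a', b; c', d], ?_⟩, 0), ?_⟩
      · rw [Matrix.det_fin_two_of]
        rw [h1, h3] at hdet
        have : 2 * (a' * d - b * c') = 2 * 1 := by linear_combination hdet
        exact mul_left_cancel₀ two_ne_zero this
      · obtain ⟨e0, e1, e2, e3⟩ := SGa_entries0 ⟨!![a', b; c', d], by
          rw [Matrix.det_fin_two_of]
          rw [h1, h3] at hdet
          have : 2 * (a' * d - b * c') = 2 * 1 := by linear_combination hdet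
          exact mul_left_cancel₀ two_ne_zero this⟩
        ext i j
        fin_cases i <;> fin_cases j
        · exact e0.trans h1.symm
        · exact e1
        · exact e2.trans h3.symm
        · exact e3
    · refine ⟨(⟨!![a, b'; c, d'], ?_⟩, 1), ?_⟩
      · rw [Matrix.det_fin_two_of]
        rw [h2, h4] at hdet
        have : 2 * (a * d' - b' * c) = 2 * 1 := by linear_combination hdet
        exact mul_left_cancel₀ two_ne_zero this
      · obtain ⟨e0, e1, e2, e3⟩ := SGa_entries1 ⟨!![a, b'; c, d'], by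
          rw [Matrix.det_fin_two_of]
          rw [h2, h4] at hdet
          have : 2 * (a * d' - b' * c) = 2 * 1 := by linear_combination hdet
          exact mul_left_cancel₀ two_ne_zero this⟩
        ext i j
        fin_cases i <;> fin_cases j
        · exact e0
        · exact e1.trans h2.symm
        · exact e2
        · exact e3.trans h4.symm
    · have hb' : a + 2 * b' = b := by linarith
      have hd' : c + 2 * d' = d := by linarith
      have hdt : a * d' - b' * c = 1 := by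
        rw [← hb', ← hd'] at hdet
        have : 2 * (a * d' - b' * c) = 2 * 1 := by linear_combination hdet
        exact mul_left_cancel₀ two_ne_zero this
      refine ⟨(⟨!![a, b'; c, d'], ?_⟩, 2), ?_⟩
      · rw [Matrix.det_fin_two_of]
        exact hdt
      · obtain ⟨e0, e1, e2, e3⟩ := SGa_entries2 ⟨!![a, b'; c, d'], by
          rw [Matrix.det_fin_two_of]
          exact hdt⟩
        ext i j
        fin_cases i <;> fin_cases j
        · exact e0
        · exact e1.trans hb'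
        · exact e2
        · exact e3.trans hd'
  obtain ⟨p, hp⟩ := hex
  refine ⟨p, hp, fun q hq => ?_⟩
  have := SGa_uniq q.1 p.1 q.2 p.2 (by rw [hq, hp])
  exact this

private theorem SGa_gl_apply (A : M2) (i j : Fin 2) : (gl A) i j = ((A.1 i j : ℤ) : ℝ) := rfl

theorem gl_smul (γ : SL(2, ℤ)) (A : M2) : gl (γ • A) = (γ : GL (Fin 2) ℝ) * gl A := by
  apply Matrix.GeneralLinearGroup.ext
  intro i j
  rw [SGa_gl_apply, FixedDetMatrices.smul_coe]
  simp only [Units.val_mul, Matrix.mul_apply, Fin.sum_univ_two]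
  push_cast
  rfl

theorem adj_adj (A : M2) : adj (adj A) = A := by
  ext i j
  fin_cases i <;> fin_cases j <;> simp [adj, Matrix.adjugate_fin_two]

private theorem SGa_gl_adj_mul (A : M2) :
    gl (adj A) * gl A = Matrix.GeneralLinearGroup.scalar (Fin 2) (Units.mk0 (2 : ℝ) two_ne_zero) := by
  have h : (A.1 0 0 : ℝ) * A.1 1 1 - A.1 0 1 * A.1 1 0 = 2 := by
    have h := A.2
    rw [Matrix.det_fin_two] at h
    exact_mod_cast h
  apply Matrix.GeneralLinearGroup.ext
  intro i j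
  simp only [Units.val_mul, Matrix.mul_apply, Fin.sum_univ_two, SGa_gl_apply,
    Matrix.GeneralLinearGroup.coe_scalar]
  fin_cases i <;> fin_cases j <;>
    simp [adj, Matrix.adjugate_fin_two] <;> linarith

theorem gl_adj_smul (A : M2) (z : ℍ) : gl (adj A) • (gl A • z) = z := by
  rw [← mul_smul, SGa_gl_adj_mul, UpperHalfPlane.glScalar_smul]

theorem gl_det (A : M2) : (gl A).det.val = 2 := by
  rw [Matrix.GeneralLinearGroup.val_det_apply]
  have h := A.2
  rw [Matrix.det_fin_two] at h ⊢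
  simp only [SGa_gl_apply]
  exact_mod_cast h

theorem slash_adj (k : ℤ) (f : ℍ → ℂ) (A : M2) :
    (f ∣[k] gl (adj A)) ∣[k] gl A = (2 ^ (k - 2) : ℂ) • f := by
  rw [← SlashAction.slash_mul, SGa_gl_adj_mul]
  ext z
  rw [ModularForm.slash_apply, UpperHalfPlane.glScalar_smul, UpperHalfPlane.denom_scalar,
    Matrix.GeneralLinearGroup.det_scalar]
  have h4 : (0 : ℝ) < 2 ^ 2 := by norm_num
  have hs : σ (Matrix.GeneralLinearGroup.scalar (Fin 2) (Units.mk0 (2 : ℝ) two_ne_zero)) (f z)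
      = f z := by
    rw [UpperHalfPlane.σ, if_pos]
    · rfl
    · rw [Matrix.GeneralLinearGroup.det_scalar]
      simp
  rw [hs]
  simp only [Fintype.card_fin, Units.val_pow_eq_pow_val, Units.val_mk0, Pi.smul_apply, smul_eq_mul]
  rw [abs_of_pos h4]
  push_cast
  have h2 : (2 : ℂ) ≠ 0 := two_ne_zero
  have e : ((2 : ℂ) ^ 2) ^ (k - 1) * 2 ^ (-k) = 2 ^ (k - 2) := by
    rw [← zpow_natCast, ← _root_.zpow_mul, ← zpow_add₀ h2]
    congr 1
    push_cast
    ring
  rw [mul_assoc, e, mul_comm]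

private theorem SGa_slash_apply (k : ℤ) (f : ℍ → ℂ) (A : M2) (z : ℍ) :
    (f ∣[k] gl A) z = f (gl A • z) * 2 ^ (k - 1) * denom (gl A) z ^ (-k) := by
  rw [ModularForm.slash_apply, gl_det]
  have hs : σ (gl A) (f (gl A • z)) = f (gl A • z) := by
    rw [UpperHalfPlane.σ, if_pos]
    · rfl
    · rw [gl_det]
      norm_num
  rw [hs, abs_of_pos (by norm_num : (0 : ℝ) < 2)]
  push_cast
  rfl

private theorem SGa_coe_smul (A : M2) (z : ℍ) :
    ((gl A • z : ℍ) : ℂ) = ((A.1 0 0 : ℂ) * z + A.1 0 1) / ((A.1 1 0 : ℂ) * z + A.1 1 1) := by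
  rw [UpperHalfPlane.coe_smul_of_det_pos (by rw [gl_det]; norm_num)]
  simp only [UpperHalfPlane.num, UpperHalfPlane.denom, SGa_gl_apply]
  push_cast
  rfl

private theorem SGa_smul_eq (A : M2) (z : ℍ) (w : ℂ)
    (h : ((A.1 0 0 : ℂ) * z + A.1 0 1) / ((A.1 1 0 : ℂ) * z + A.1 1 1) = w) :
    gl A • z = ofComplex w := by
  have h1 := SGa_coe_smul A z
  rw [h] at h1
  rw [← h1, UpperHalfPlane.ofComplex_apply]

theorem T2f_eq (k : ℤ) (f : ℍ → ℂ) : T2f k f = ∑ i : Fin 3, f ∣[k] gl (dlt i) := by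
  ext z
  rw [Finset.sum_apply, Fin.sum_univ_three]
  rw [SGa_slash_apply, SGa_slash_apply, SGa_slash_apply]
  rw [SGa_smul_eq (dlt 0) z (2 * z) (by simp [dlt]),
    SGa_smul_eq (dlt 1) z (z / 2) (by simp [dlt]),
    SGa_smul_eq (dlt 2) z ((z + 1) / 2) (by simp [dlt])]
  have d0 : denom (gl (dlt 0)) z = 1 := by
    simp [UpperHalfPlane.denom, SGa_gl_apply, dlt]
  have d1 : denom (gl (dlt 1)) z = 2 := by
    simp [UpperHalfPlane.denom, SGa_gl_apply, dlt]
  have d2 : denom (gl (dlt 2)) z = 2 := by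
    simp [UpperHalfPlane.denom, SGa_gl_apply, dlt]
  rw [d0, d1, d2, _root_.one_zpow, T2f]
  have h2 : (2 : ℂ) ≠ 0 := two_ne_zero
  have e : (2 : ℂ) ^ (k - 1) * 2 ^ (-k) = 1 / 2 := by
    rw [← zpow_add₀ h2]
    have : k - 1 + -k = -1 := by ring
    rw [this]
    simp
  rw [mul_assoc (f _) _ ((2 : ℂ) ^ (-k)), mul_assoc (f _) _ ((2 : ℂ) ^ (-k)), e]
  ring

theorem slash_gl_smul (k : ℤ) (f : ℍ → ℂ) (hf : ∀ γ : SL(2, ℤ), f ∣[k] γ = f) (γ : SL(2, ℤ))
    (A : M2) : f ∣[k] gl (γ • A) = f ∣[k] gl A := by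
  rw [gl_smul, SlashAction.slash_mul]
  have := hf γ
  rw [ModularForm.SL_slash] at this
  rw [this]

/-- Right multiplication with an element of `SL(2, ℤ)`. -/
private def SGa_rmul (A : M2) (γ : SL(2, ℤ)) : M2 :=
  ⟨A.1 * γ.1, by rw [Matrix.det_mul, A.2, γ.2, mul_one]⟩

private theorem SGa_gl_rmul (A : M2) (γ : SL(2, ℤ)) :
    gl (SGa_rmul A γ) = gl A * (γ : GL (Fin 2) ℝ) := by
  apply Matrix.GeneralLinearGroup.ext
  intro i j
  rw [SGa_gl_apply]
  simp only [SGa_rmul, Units.val_mul, Matrix.mul_apply, Fin.sum_univ_two]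
  push_cast
  rfl

private theorem SGa_rmul_inj (A B : M2) (γ : SL(2, ℤ)) (h : SGa_rmul A γ = SGa_rmul B γ) :
    A = B := by
  have hv : A.1 * γ.1 = B.1 * γ.1 := congrArg Subtype.val h
  apply FixedDetMatrices.ext'
  have h2 : (A.1 * γ.1) * γ.1.adjugate = (B.1 * γ.1) * γ.1.adjugate := by rw [hv]
  rw [Matrix.mul_assoc, Matrix.mul_assoc, Matrix.mul_adjugate, γ.2, one_smul, Matrix.mul_one,
    Matrix.mul_one] at h2
  exact h2

private theorem SGa_smul_rmul (δ : SL(2, ℤ)) (A : M2) (γ : SL(2, ℤ)) :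
    δ • SGa_rmul A γ = SGa_rmul (δ • A) γ := by
  apply FixedDetMatrices.ext'
  rw [FixedDetMatrices.smul_coe]
  change δ.1 * (A.1 * γ.1) = (δ • A).1 * γ.1
  rw [FixedDetMatrices.smul_coe, Matrix.mul_assoc]

theorem T2f_slash (k : ℤ) (f : ℍ → ℂ) (hf : ∀ γ : SL(2, ℤ), f ∣[k] γ = f) (γ : SL(2, ℤ)) :
    T2f k f ∣[k] γ = T2f k f := by
  have hch : ∀ i : Fin 3, ∃ p : SL(2, ℤ) × Fin 3, p.1 • dlt p.2 = SGa_rmul (dlt i) γ :=
    fun i => (cosets _).exists
  choose p hp using hch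
  have hinj : Function.Injective (fun i => (p i).2) := by
    intro i j hij
    have hij' : (p i).2 = (p j).2 := hij
    have h1 := hp i
    have h2 := hp j
    rw [hij'] at h1
    -- dlt (p j).2 = (p i).1⁻¹ • rmul (dlt i) γ = (p j).1⁻¹ • rmul (dlt j) γ
    have h3 : dlt (p j).2 = (p i).1⁻¹ • SGa_rmul (dlt i) γ := by
      rw [← h1, inv_smul_smul]
    have h4 : dlt (p j).2 = (p j).1⁻¹ • SGa_rmul (dlt j) γ := by
      rw [← h2, inv_smul_smul]
    have h5 : SGa_rmul ((p i).1⁻¹ • dlt i) γ = SGa_rmul ((p j).1⁻¹ • dlt j) γ := by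
      rw [← SGa_smul_rmul, ← SGa_smul_rmul, ← h3, ← h4]
    have h6 := SGa_rmul_inj _ _ _ h5
    have h7 := SGa_uniq _ _ _ _ h6
    exact (Prod.ext_iff.mp h7).2
  have hbij : Function.Bijective (fun i => (p i).2) := Finite.injective_iff_bijective.mp hinj
  rw [T2f_eq, ModularForm.SL_slash, SlashAction.sum_slash]
  have hterm : ∀ i : Fin 3, (f ∣[k] gl (dlt i)) ∣[k] (γ : GL (Fin 2) ℝ) =
      f ∣[k] gl (dlt ((p i).2)) := by
    intro i
    rw [← SlashAction.slash_mul, ← SGa_gl_rmul, ← hp i, slash_gl_smul k f hf]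
  rw [Finset.sum_congr rfl (fun i _ => hterm i)]
  exact hbij.sum_comp (fun i => f ∣[k] gl (dlt i))

end MT2
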