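import Pool.Agent.Lib_MP_bfd926_sq.SCh

/-!
# The matrix `N` intertwines two pencils of bidiagonal matrices

Both are identities of binomial coefficients (checked by computer for many `w, i, j`). With
`x = i + j - w - 1`, `r = 2 * i - j` one has

* `N w i j = ch (x + 1) r + ch x r`, `N w (i - 1) j = ch x (r - 2) + ch (x - 1) (r - 2)`,
* `K4 w i j = ch (x + 1) (r - 1) + ch x (r - 2)`, `K4 w i (j - 1) = ch x r + ch (x - 1) (r - 1)`.

By `ch_pascal` everything can be written in `ch (x - 1) (r - m)`, `m = 0, …, 3`, and by `ch_absorb`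
these are proportional: `(r - m) * ch (x - 1) (r - m) = (x - r + m) * ch (x - 1) (r - m - 1)`.
Write `j = 2 * i - r`, `w = 3 * i - r - 1 - x`, so that everything is a polynomial identity in
`i, r, x` after the elimination (for `m = 0, 1, 2`); the combination is linear
(`linear_combination (…) * ch_absorb …`), the coefficients are polynomials in `i, r, x` of degree
at most `2` for `int_B` and of degree at most `4` for `int_A`.
-/

namespace MT2

private theorem SInt_chx (x r : ℤ) : ch x r = ch (x - 1) r + ch (x - 1) (r - 1) := by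
  have h := ch_pascal (x - 1) r
  rwa [sub_add_cancel] at h

private theorem SInt_chx1 (x r : ℤ) :
    ch (x + 1) r = ch (x - 1) r + 2 * ch (x - 1) (r - 1) + ch (x - 1) (r - 2) := by
  rw [ch_pascal, SInt_chx x r, SInt_chx x (r - 1), show r - 1 - 1 = r - 2 by ring]
  ring

private theorem SInt_N (i r x : ℤ) : N (3 * i - r - 1 - x) i (2 * i - r) =
    2 * ch (x - 1) r + 3 * ch (x - 1) (r - 1) + ch (x - 1) (r - 2) := by
  unfold N
  rw [show i + (2 * i - r) - (3 * i - r - 1 - x) - 1 = x by ring,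
    show i + (2 * i - r) - (3 * i - r - 1 - x) = x + 1 by ring,
    show 2 * i - (2 * i - r) = r by ring, SInt_chx1, SInt_chx x r]
  ring

private theorem SInt_N' (i r x : ℤ) : N (3 * i - r - 1 - x) (i - 1) (2 * i - r) =
    2 * ch (x - 1) (r - 2) + ch (x - 1) (r - 3) := by
  unfold N
  rw [show i - 1 + (2 * i - r) - (3 * i - r - 1 - x) - 1 = x - 1 by ring,
    show i - 1 + (2 * i - r) - (3 * i - r - 1 - x) = x by ring,
    show 2 * (i - 1) - (2 * i - r) = r - 2 by ring, SInt_chx x (r - 2),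
    show r - 2 - 1 = r - 3 by ring]
  ring

private theorem SInt_K (i r x : ℤ) : K4 (3 * i - r - 1 - x) i (2 * i - r) =
    ch (x - 1) (r - 1) + 3 * ch (x - 1) (r - 2) + 2 * ch (x - 1) (r - 3) := by
  unfold K4
  rw [show i + (2 * i - r) - (3 * i - r - 1 - x) - 1 = x by ring,
    show i + (2 * i - r) - (3 * i - r - 1 - x) = x + 1 by ring,
    show 2 * i - (2 * i - r) - 1 = r - 1 by ring, show 2 * i - (2 * i - r) - 2 = r - 2 by ring,
    SInt_chx1, SInt_chx x (r - 2), show r - 1 - 1 = r - 2 by ring,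
    show r - 1 - 2 = r - 3 by ring, show r - 2 - 1 = r - 3 by ring]
  ring

private theorem SInt_K' (i r x : ℤ) : K4 (3 * i - r - 1 - x) i (2 * i - r - 1) =
    ch (x - 1) r + 2 * ch (x - 1) (r - 1) := by
  unfold K4
  rw [show i + (2 * i - r - 1) - (3 * i - r - 1 - x) - 1 = x - 1 by ring,
    show i + (2 * i - r - 1) - (3 * i - r - 1 - x) = x by ring,
    show 2 * i - (2 * i - r - 1) - 1 = r by ring,
    show 2 * i - (2 * i - r - 1) - 2 = r - 1 by ring, SInt_chx x r]
  ring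

private theorem SInt_R0 (x r : ℤ) : r * ch (x - 1) r = (x - r) * ch (x - 1) (r - 1) := by
  have h := ch_absorb (x - 1) r
  rw [h]
  ring

private theorem SInt_R1 (x r : ℤ) :
    (r - 1) * ch (x - 1) (r - 1) = (x - r + 1) * ch (x - 1) (r - 2) := by
  have h := ch_absorb (x - 1) (r - 1)
  rw [show r - 1 - 1 = r - 2 by ring] at h
  rw [h]
  ring

private theorem SInt_R2 (x r : ℤ) :
    (r - 2) * ch (x - 1) (r - 2) = (x - r + 2) * ch (x - 1) (r - 3) := by
  have h := ch_absorb (x - 1) (r - 2)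
  rw [show r - 2 - 1 = r - 3 by ring] at h
  rw [h]
  ring

theorem int_B (w i j : ℤ) :
    (2 * i - 1) * N w i j + 2 * (i - w) * N w (i - 1) j =
      -(2 * w - 1 - 2 * j) * K4 w i j + 2 * (j - 1) * K4 w i (j - 1) := by
  obtain ⟨r, rfl⟩ : ∃ r, j = 2 * i - r := ⟨2 * i - j, by ring⟩
  obtain ⟨x, rfl⟩ : ∃ x, w = 3 * i - r - 1 - x := ⟨3 * i - r - 1 - w, by ring⟩
  rw [SInt_N, SInt_N', SInt_K, SInt_K']
  linear_combination 2 * SInt_R0 x r + 2 * SInt_R1 x r + 2 * SInt_R2 x r

theorem int_A (w i j : ℤ) :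
    (4 * i - 2) * (i * (i - w)) * N w i j + (i - w) * ((i - 1) ^ 2 - w ^ 2) * N w (i - 1) j =
      -2 * (2 * w - 1 - 2 * j) * (j * (j - w)) * K4 w i j +
        (j - 1) * j * (j - 2 * w) * K4 w i (j - 1) := by
  obtain ⟨r, rfl⟩ : ∃ r, j = 2 * i - r := ⟨2 * i - j, by ring⟩
  obtain ⟨x, rfl⟩ : ∃ x, w = 3 * i - r - 1 - x := ⟨3 * i - r - 1 - w, by ring⟩
  rw [SInt_N, SInt_N', SInt_K, SInt_K']
  linear_combination
    (-12 * i ^ 2 + 8 * i * r + 8 * i * x + 10 * i - r ^ 2 - 2 * r * x - 3 * r - 2 * x - 2) *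
        SInt_R0 x r +
      (-12 * i ^ 2 + 8 * i * r + 8 * i * x + 10 * i - r ^ 2 - 3 * r * x - 4 * r + 2 * x ^ 2 +
          2 * x) * SInt_R1 x r +
      (-12 * i ^ 2 + 8 * i * r + 8 * i * x + 10 * i - r ^ 2 - 4 * r * x - 5 * r + x ^ 2 + x) *
        SInt_R2 x r

end MT2
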