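import Pool.Agent.Lib_MP_bfd926_sq.SThf

/-!
# The functions `g4` and `g6`

Let `a = jacobiTheta (2 * τ)`, `b = jacobiTheta (2 * τ + 1)`, `P = jacobiTheta (τ / 2)`,
`Q = jacobiTheta (τ / 2 + 1)`. By `jt_add`, `jt_mul`, `jt_sq` at `τ / 2` and `jt_mul` at `τ`:
`a = (P + Q) / 2`, `b ^ 4 = P * Q * (P ^ 2 + Q ^ 2) / 2`
(`b ^ 2 = θ τ * θ (τ + 1)`, `2 * θ τ ^ 2 = P ^ 2 + Q ^ 2`, `θ (τ + 1) ^ 2 = P * Q`).
`g4_S`, `g6_S`: by `jt_S`, `jt_ST` the left-hand sides are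
`(τ ^ 4 / 16) * (16 * P ^ 8 - 16 * P ^ 4 * (P ^ 4 - Q ^ 4) + (P ^ 4 - Q ^ 4) ^ 2)` and
`-(τ ^ 6 / 64) * (P ^ 4 + Q ^ 4) * (P ^ 8 - 34 * P ^ 4 * Q ^ 4 + Q ^ 8)`; now `ring`.
`g4_T`, `g6_T`: `jacobiTheta_two_add`.
`Rep_g4`, `Rep_g6`: `Rep_thA`, `Rep_thB`, `Rep.mul`, `Rep.pow`, `Rep.add`, `Rep.sub`, `Rep_C`.
`g4_diff`, `g6_diff`: `differentiableAt_jacobiTheta`.
-/

open PowerSeries

namespace MT2

/-- The power series of `E₄`. -/
noncomputable def ser4 : PowerSeries ℤ := 16 * al ^ 2 - 16 * al * be + be ^ 2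

/-- The power series of `E₆`. -/
noncomputable def ser6 : PowerSeries ℤ :=
  (2 * al - be) * (be ^ 2 + 32 * al * be - 32 * al ^ 2)

/-- The function `E₄`. -/
noncomputable def g4 (τ : ℂ) : ℂ :=
  16 * jacobiTheta (2 * τ) ^ 8 - 16 * jacobiTheta (2 * τ) ^ 4 * jacobiTheta (2 * τ + 1) ^ 4 +
    jacobiTheta (2 * τ + 1) ^ 8

/-- The function `E₆`. -/
noncomputable def g6 (τ : ℂ) : ℂ :=
  (2 * jacobiTheta (2 * τ) ^ 4 - jacobiTheta (2 * τ + 1) ^ 4) *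
    (jacobiTheta (2 * τ + 1) ^ 8 +
      32 * jacobiTheta (2 * τ) ^ 4 * jacobiTheta (2 * τ + 1) ^ 4 - 32 * jacobiTheta (2 * τ) ^ 8)

private theorem SMa_im {τ : ℂ} (h : 0 < τ.im) : 0 < (τ / 2).im := by
  have : (τ / 2).im = τ.im / 2 := by
    rw [show τ / 2 = τ / ((2 : ℝ) : ℂ) by norm_num, Complex.div_ofReal_im]
  rw [this]
  linarith

/-- The relations between the theta functions. -/
private theorem SMa_rel {τ : ℂ} (h : 0 < τ.im) :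
    2 * jacobiTheta (2 * τ) = jacobiTheta (τ / 2) + jacobiTheta (τ / 2 + 1) ∧
    2 * jacobiTheta (2 * τ + 1) ^ 4 = jacobiTheta (τ / 2) * jacobiTheta (τ / 2 + 1) *
      (jacobiTheta (τ / 2) ^ 2 + jacobiTheta (τ / 2 + 1) ^ 2) := by
  have h2 := SMa_im h
  have a1 := jt_add h2
  have a2 := jt_sq h2
  have a3 := jt_mul h2
  have a4 := jt_mul h
  have e1 : 4 * (τ / 2) = 2 * τ := by ring
  have e2 : 2 * (τ / 2) = τ := by ring
  rw [e1] at a1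
  rw [e2] at a2 a3
  refine ⟨a1.symm, ?_⟩
  have : 2 * jacobiTheta (2 * τ + 1) ^ 4 = 2 * (jacobiTheta (2 * τ + 1) ^ 2) ^ 2 := by ring
  rw [this, ← a4, a3, a2]
  have : 2 * (jacobiTheta τ * jacobiTheta (τ + 1)) ^ 2 =
      (2 * jacobiTheta τ ^ 2) * jacobiTheta (τ + 1) ^ 2 := by ring
  rw [this, ← a3]
  ring

theorem g4_S {τ : ℂ} (h : 0 < τ.im) : g4 (-1 / τ) = τ ^ 4 * g4 τ := by
  obtain ⟨r1, r2⟩ := SMa_rel h
  have s1 := jt_S h
  have s2 := jt_ST h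
  set P := jacobiTheta (τ / 2)
  set Q := jacobiTheta (τ / 2 + 1)
  have ea : jacobiTheta (2 * τ) = (P + Q) / 2 := by linear_combination r1 / 2
  have eb : jacobiTheta (2 * τ + 1) ^ 4 = P * Q * (P ^ 2 + Q ^ 2) / 2 := by
    linear_combination r2 / 2
  have l1 : g4 (-1 / τ) = 16 * (jacobiTheta (2 * (-1 / τ)) ^ 4) ^ 2 -
      16 * jacobiTheta (2 * (-1 / τ)) ^ 4 * jacobiTheta (2 * (-1 / τ) + 1) ^ 4 +
      (jacobiTheta (2 * (-1 / τ) + 1) ^ 4) ^ 2 := by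
    unfold g4; ring
  have l2 : g4 τ = 16 * jacobiTheta (2 * τ) ^ 8 -
      16 * jacobiTheta (2 * τ) ^ 4 * jacobiTheta (2 * τ + 1) ^ 4 +
      (jacobiTheta (2 * τ + 1) ^ 4) ^ 2 := by
    unfold g4; ring
  rw [l1, l2, s1, s2, ea, eb]
  ring

theorem g6_S {τ : ℂ} (h : 0 < τ.im) : g6 (-1 / τ) = τ ^ 6 * g6 τ := by
  obtain ⟨r1, r2⟩ := SMa_rel h
  have s1 := jt_S h
  have s2 := jt_ST h
  set P := jacobiTheta (τ / 2)
  set Q := jacobiTheta (τ / 2 + 1)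
  have ea : jacobiTheta (2 * τ) = (P + Q) / 2 := by linear_combination r1 / 2
  have eb : jacobiTheta (2 * τ + 1) ^ 4 = P * Q * (P ^ 2 + Q ^ 2) / 2 := by
    linear_combination r2 / 2
  have l1 : g6 (-1 / τ) = (2 * jacobiTheta (2 * (-1 / τ)) ^ 4 -
      jacobiTheta (2 * (-1 / τ) + 1) ^ 4) *
      ((jacobiTheta (2 * (-1 / τ) + 1) ^ 4) ^ 2 +
        32 * jacobiTheta (2 * (-1 / τ)) ^ 4 * jacobiTheta (2 * (-1 / τ) + 1) ^ 4 -
        32 * (jacobiTheta (2 * (-1 / τ)) ^ 4) ^ 2) := by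
    unfold g6; ring
  have l2 : g6 τ = (2 * jacobiTheta (2 * τ) ^ 4 - jacobiTheta (2 * τ + 1) ^ 4) *
      ((jacobiTheta (2 * τ + 1) ^ 4) ^ 2 +
        32 * jacobiTheta (2 * τ) ^ 4 * jacobiTheta (2 * τ + 1) ^ 4 -
        32 * jacobiTheta (2 * τ) ^ 8) := by
    unfold g6; ring
  rw [l1, l2, s1, s2, ea, eb]
  ring

private theorem SMa_T1 (τ : ℂ) : jacobiTheta (2 * (τ + 1)) = jacobiTheta (2 * τ) := by
  rw [show 2 * (τ + 1) = 2 + 2 * τ by ring, jacobiTheta_two_add]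

private theorem SMa_T2 (τ : ℂ) : jacobiTheta (2 * (τ + 1) + 1) = jacobiTheta (2 * τ + 1) := by
  rw [show 2 * (τ + 1) + 1 = 2 + (2 * τ + 1) by ring, jacobiTheta_two_add]

theorem g4_T (τ : ℂ) : g4 (τ + 1) = g4 τ := by
  unfold g4
  rw [SMa_T1, SMa_T2]

theorem g6_T (τ : ℂ) : g6 (τ + 1) = g6 τ := by
  unfold g6
  rw [SMa_T1, SMa_T2]

private theorem SMa_up_mul (φ ψ : PowerSeries ℤ) : up ℂ (φ * ψ) = up ℂ φ * up ℂ ψ := by
  unfold up; rw [map_mul]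

private theorem SMa_up_add (φ ψ : PowerSeries ℤ) : up ℂ (φ + ψ) = up ℂ φ + up ℂ ψ := by
  unfold up; rw [map_add]

private theorem SMa_up_sub (φ ψ : PowerSeries ℤ) : up ℂ (φ - ψ) = up ℂ φ - up ℂ ψ := by
  unfold up; rw [map_sub]

private theorem SMa_up_pow (φ : PowerSeries ℤ) (n : ℕ) : up ℂ (φ ^ n) = up ℂ φ ^ n := by
  unfold up; rw [map_pow]

private theorem SMa_up_C (n : ℤ) : up ℂ (C n) = C (n : ℂ) := by
  unfold up; simp

private theorem SMa_Rep_n (n : ℤ) : Rep (up ℂ (C n)) (fun _ => (n : ℂ)) := by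
  rw [SMa_up_C]
  exact Rep_C _

private theorem SMa_Rep_al : Rep (up ℂ al) (fun τ => jacobiTheta (2 * τ) ^ 4) := by
  unfold al
  rw [SMa_up_pow]
  exact Rep_thA.pow 4

private theorem SMa_Rep_be : Rep (up ℂ be) (fun τ => jacobiTheta (2 * τ + 1) ^ 4) := by
  unfold be
  rw [SMa_up_pow]
  exact Rep_thB.pow 4

theorem Rep_g4 : Rep (up ℂ ser4) g4 := by
  have h1 : ser4 = C 16 * al ^ 2 - C 16 * al * be + be ^ 2 := by
    unfold ser4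
    rw [show (C (16 : ℤ) : PowerSeries ℤ) = 16 from map_ofNat _ 16]
  rw [h1]
  simp only [SMa_up_add, SMa_up_sub, SMa_up_mul, SMa_up_pow]
  have h2 := (((SMa_Rep_n 16).mul (SMa_Rep_al.pow 2)).sub
    (((SMa_Rep_n 16).mul SMa_Rep_al).mul SMa_Rep_be)).add (SMa_Rep_be.pow 2)
  have h3 : g4 = fun τ => (((16 : ℤ) : ℂ) * (jacobiTheta (2 * τ) ^ 4) ^ 2 -
      ((16 : ℤ) : ℂ) * jacobiTheta (2 * τ) ^ 4 * jacobiTheta (2 * τ + 1) ^ 4) +
      (jacobiTheta (2 * τ + 1) ^ 4) ^ 2 := by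
    funext τ
    unfold g4
    push_cast
    ring
  rw [h3]
  exact h2

theorem Rep_g6 : Rep (up ℂ ser6) g6 := by
  have h1 : ser6 = (C 2 * al - be) * (be ^ 2 + C 32 * al * be - C 32 * al ^ 2) := by
    unfold ser6
    rw [show (C (2 : ℤ) : PowerSeries ℤ) = 2 from map_ofNat _ 2,
      show (C (32 : ℤ) : PowerSeries ℤ) = 32 from map_ofNat _ 32]
  rw [h1]
  simp only [SMa_up_add, SMa_up_sub, SMa_up_mul, SMa_up_pow]
  have h2 := (((SMa_Rep_n 2).mul SMa_Rep_al).sub SMa_Rep_be).mul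
    (((SMa_Rep_be.pow 2).add (((SMa_Rep_n 32).mul SMa_Rep_al).mul SMa_Rep_be)).sub
      ((SMa_Rep_n 32).mul (SMa_Rep_al.pow 2)))
  have h3 : g6 = fun τ => (((2 : ℤ) : ℂ) * jacobiTheta (2 * τ) ^ 4 - jacobiTheta (2 * τ + 1) ^ 4) *
      (((jacobiTheta (2 * τ + 1) ^ 4) ^ 2 +
      ((32 : ℤ) : ℂ) * jacobiTheta (2 * τ) ^ 4 * jacobiTheta (2 * τ + 1) ^ 4) -
      ((32 : ℤ) : ℂ) * (jacobiTheta (2 * τ) ^ 4) ^ 2) := by
    funext τ
    unfold g6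
    push_cast
    ring
  rw [h3]
  exact h2

private theorem SMa_d1 {τ : ℂ} (h : 0 < τ.im) :
    DifferentiableAt ℂ (fun τ => jacobiTheta (2 * τ)) τ := by
  have h1 : 0 < (2 * τ).im := by
    simp only [Complex.mul_im, Complex.re_ofNat, Complex.im_ofNat, zero_mul, add_zero]
    linarith
  have h2 : DifferentiableAt ℂ (fun τ : ℂ => 2 * τ) τ := by fun_prop
  exact (differentiableAt_jacobiTheta h1).comp τ h2

private theorem SMa_d2 {τ : ℂ} (h : 0 < τ.im) :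
    DifferentiableAt ℂ (fun τ => jacobiTheta (2 * τ + 1)) τ := by
  have h1 : 0 < (2 * τ + 1).im := by
    simp only [Complex.add_im, Complex.mul_im, Complex.re_ofNat, Complex.im_ofNat, zero_mul,
      add_zero, Complex.one_im]
    linarith
  have h2 : DifferentiableAt ℂ (fun τ : ℂ => 2 * τ + 1) τ := by fun_prop
  exact (differentiableAt_jacobiTheta h1).comp τ h2

theorem g4_diff {τ : ℂ} (h : 0 < τ.im) : DifferentiableAt ℂ g4 τ := by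
  have h1 := SMa_d1 h
  have h2 := SMa_d2 h
  unfold g4
  exact ((((h1.pow 8).const_mul 16).sub (((h1.pow 4).const_mul 16).mul (h2.pow 4))).add (h2.pow 8))

theorem g6_diff {τ : ℂ} (h : 0 < τ.im) : DifferentiableAt ℂ g6 τ := by
  have h1 := SMa_d1 h
  have h2 := SMa_d2 h
  unfold g6
  exact ((((h1.pow 4).const_mul 2).sub (h2.pow 4)).mul
    (((h2.pow 8).add (((h1.pow 4).const_mul 32).mul (h2.pow 4))).sub ((h1.pow 8).const_mul 32)))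

end MT2
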