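import Pool.Agent.Lib_MP_bfd926_sq.SEq

/-!
# The coordinates of level one forms

Let `d ≤ (w - e) / 3`, `P = ∑_{l = 1}^d C (y l) * Bt K e w l`,
`Bt K e w l = t ^ l * (1 - 512 t) ^ e * (1 + 256 t) ^ (w - e - 3 l)`. With `T = 16 t`,
`x_i = crd P i` is the coefficient of `T ^ i` in `∑_l (y l / 16 ^ l) * T ^ l * g_l (16 * T)` where
`g_l = (1 - 2 * X) ^ e * (1 + X) ^ (w - e - 3 l)` has integral coefficients and `g_l(0) = 1`. So
`x_i = ∑_{l ≤ min i d} 16 ^ (i - l) * c_{i,l} * z_l`, `z_l = y l / 16 ^ l`, with integers `c_{i,l}`,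
`c_{l,l} = 1`.

* `crd_inj`: if `x_i = 0` for `1 ≤ i ≤ d` then all `y l = 0` (`1 ≤ l ≤ d`) (strong induction on `l`).
* `crd_tail`: every `x_i`, `i > d`, satisfies `v (x_i) ≤ v 2 ^ (4 * (i - l)) * v (x_l)` for some
  `1 ≤ l ≤ d` — in the form: if `v 2 ^ (4 * (i - l)) * v (x_l) ≤ r` for all `1 ≤ l ≤ d` then
  `v (x_i) ≤ r`. Proof: first `v (z_l) * v 2 ^ (4 * (i - l)) ≤ r` for `1 ≤ l ≤ d` by strong
  induction on `l` (`z_l = x_l - ∑_{m < l} 16 ^ (l - m) * c_{l,m} * z_m`, and
  `v (16 ^ (l - m) * z_m) * v 2 ^ (4 * (i - l)) = v (z_m) * v 2 ^ (4 * (i - m))`), then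
  the formula for `x_i`. (Integers have valuation at most one.)
* `crd_zero`: `P.coeff 0 = 0`.
-/

open PowerSeries

namespace MT2

/-- the polynomial `(1 - 2 X) ^ e (1 + X) ^ n` over the integers -/
private noncomputable def stailG (e n : ℕ) : Polynomial ℤ :=
  (1 - 2 * Polynomial.X) ^ e * (1 + Polynomial.X) ^ n

private theorem stailG_zero (e n : ℕ) : (stailG e n).coeff 0 = 1 := by
  unfold stailG
  rw [Polynomial.coeff_zero_eq_eval_zero]
  simp

private theorem stail_Bt (K : Type) [Field K] (e w l i : ℕ) :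
    (Bt K e w l).coeff i =
      if l ≤ i then 256 ^ (i - l) * ((stailG e (w - e - 3 * l)).coeff (i - l) : K) else 0 := by
  have h1 : (1 - 512 * Polynomial.X : Polynomial K) ^ e * (1 + 256 * Polynomial.X) ^ (w - e - 3 * l) =
      ((stailG e (w - e - 3 * l)).map (Int.castRingHom K)).comp
        (Polynomial.C 256 * Polynomial.X) := by
    unfold stailG
    have h256 : (Polynomial.C (256 : K)) = 256 := by
      rw [show (256 : K) = ((256 : ℕ) : K) by norm_num, Polynomial.C_eq_natCast]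
      norm_num
    simp only [Polynomial.map_mul, Polynomial.map_pow, Polynomial.map_sub, Polynomial.map_add,
      Polynomial.map_one, Polynomial.map_X, Polynomial.map_ofNat, Polynomial.mul_comp,
      Polynomial.pow_comp, Polynomial.sub_comp, Polynomial.add_comp, Polynomial.one_comp,
      Polynomial.X_comp, Polynomial.ofNat_comp, h256]
    ring
  unfold Bt
  rw [mul_assoc, h1, Polynomial.coeff_X_pow_mul']
  split_ifs with h
  · rw [Polynomial.comp_C_mul_X_coeff, Polynomial.coeff_map, eq_intCast, mul_comm]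
  · rfl

private theorem stail_crd {K : Type} [Field K] [CharZero K] (e w d : ℕ) (y : ℕ → K) (i : ℕ) :
    crd (∑ l ∈ Finset.Icc 1 d, Polynomial.C (y l) * Bt K e w l) i =
      ∑ l ∈ Finset.Icc 1 d, if l ≤ i then
        16 ^ (i - l) * ((stailG e (w - e - 3 * l)).coeff (i - l) : K) * (y l / 16 ^ l) else 0 := by
  unfold crd
  rw [Polynomial.finset_sum_coeff, Finset.sum_div]
  refine Finset.sum_congr rfl fun l _ => ?_
  rw [Polynomial.coeff_C_mul, stail_Bt]
  split_ifs with h
  · obtain ⟨m, rfl⟩ := Nat.exists_eq_add_of_le h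
    rw [Nat.add_sub_cancel_left]
    have h16 : (16 : K) ≠ 0 := by norm_num
    have e1 : (256 : K) ^ m = 16 ^ m * 16 ^ m := by
      rw [← mul_pow]
      norm_num
    rw [e1, pow_add]
    field_simp
  · rw [mul_zero, zero_div]

/-- the coordinate with `i ≤ d`, the last term split off -/
private theorem stail_split {K : Type} [Field K] [CharZero K] (e w d : ℕ) (y : ℕ → K) (l : ℕ)
    (h1 : 1 ≤ l) (h2 : l ≤ d) :
    crd (∑ l ∈ Finset.Icc 1 d, Polynomial.C (y l) * Bt K e w l) l =
      (∑ m ∈ Finset.Ico 1 l,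
        16 ^ (l - m) * ((stailG e (w - e - 3 * m)).coeff (l - m) : K) * (y m / 16 ^ m)) +
      y l / 16 ^ l := by
  rw [stail_crd, ← Finset.sum_filter]
  have e1 : (Finset.Icc 1 d).filter (fun m => m ≤ l) = insert l (Finset.Ico 1 l) := by
    ext m
    simp only [Finset.mem_filter, Finset.mem_Icc, Finset.mem_insert, Finset.mem_Ico]
    omega
  rw [e1, Finset.sum_insert (by simp), Nat.sub_self, stailG_zero]
  simp only [pow_zero, Int.cast_one, one_mul]
  rw [add_comm]

private theorem stail_nat {K Γ : Type} [Field K] [LinearOrderedCommGroupWithZero Γ]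
    (v : Valuation K Γ) (n : ℕ) : v (n : K) ≤ 1 := by
  induction n with
  | zero => simp
  | succ n ih =>
    rw [Nat.cast_succ]
    exact (v.map_add _ _).trans (max_le ih (by rw [map_one]))

private theorem stail_int {K Γ : Type} [Field K] [LinearOrderedCommGroupWithZero Γ]
    (v : Valuation K Γ) (n : ℤ) : v (n : K) ≤ 1 := by
  rcases Int.eq_nat_or_neg n with ⟨m, rfl | rfl⟩
  · rw [Int.cast_natCast]
    exact stail_nat v m
  · rw [Int.cast_neg, Valuation.map_neg, Int.cast_natCast]
    exact stail_nat v m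

private theorem stail_16 {K Γ : Type} [Field K] [LinearOrderedCommGroupWithZero Γ]
    (v : Valuation K Γ) (n : ℕ) : v ((16 : K) ^ n) = v 2 ^ (4 * n) := by
  rw [pow_mul, map_pow, ← map_pow v 2 4]
  norm_num

theorem crd_zero {K : Type} [Field K] (e w d : ℕ) (y : ℕ → K) :
    (∑ l ∈ Finset.Icc 1 d, Polynomial.C (y l) * Bt K e w l).coeff 0 = 0 := by
  rw [Polynomial.finset_sum_coeff]
  refine Finset.sum_eq_zero fun l hl => ?_
  rw [Finset.mem_Icc] at hl
  rw [Polynomial.coeff_C_mul, stail_Bt, if_neg (by omega), mul_zero]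

theorem crd_inj {K : Type} [Field K] [CharZero K] (e w d : ℕ) (y : ℕ → K)
    (h : ∀ i, 1 ≤ i → i ≤ d →
      crd (∑ l ∈ Finset.Icc 1 d, Polynomial.C (y l) * Bt K e w l) i = 0) :
    ∀ l, 1 ≤ l → l ≤ d → y l = 0 := by
  intro l
  induction l using Nat.strong_induction_on with
  | _ l ih =>
    intro h1 h2
    have h3 := h l h1 h2
    rw [stail_split e w d y l h1 h2] at h3
    have h4 : ∑ m ∈ Finset.Ico 1 l,
        16 ^ (l - m) * ((stailG e (w - e - 3 * m)).coeff (l - m) : K) * (y m / 16 ^ m) = 0 := by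
      refine Finset.sum_eq_zero fun m hm => ?_
      rw [Finset.mem_Ico] at hm
      rw [ih m hm.2 hm.1 (by omega), zero_div, mul_zero]
    rw [h4, zero_add, div_eq_zero_iff] at h3
    exact h3.resolve_right (pow_ne_zero _ (by norm_num))

theorem crd_tail {K Γ : Type} [Field K] [CharZero K] [LinearOrderedCommGroupWithZero Γ]
    (v : Valuation K Γ) (hv : v 2 ≤ 1) (e w d : ℕ) (y : ℕ → K) (i : ℕ) (hi : d < i) (r : Γ)
    (h : ∀ l, 1 ≤ l → l ≤ d →
      v 2 ^ (4 * (i - l)) * v (crd (∑ l ∈ Finset.Icc 1 d, Polynomial.C (y l) * Bt K e w l) l) ≤ r) :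
    v (crd (∑ l ∈ Finset.Icc 1 d, Polynomial.C (y l) * Bt K e w l) i) ≤ r := by
  have key : ∀ l, 1 ≤ l → l ≤ d → v 2 ^ (4 * (i - l)) * v (y l / 16 ^ l) ≤ r := by
    intro l
    induction l using Nat.strong_induction_on with
    | _ l ih =>
      intro h1 h2
      have h3 := h l h1 h2
      have h4 := stail_split e w d y l h1 h2
      have h5 : y l / 16 ^ l = crd (∑ l ∈ Finset.Icc 1 d, Polynomial.C (y l) * Bt K e w l) l -
          ∑ m ∈ Finset.Ico 1 l,
            16 ^ (l - m) * ((stailG e (w - e - 3 * m)).coeff (l - m) : K) * (y m / 16 ^ m) := by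
        rw [h4]
        ring
      rw [← stail_16, ← map_mul] at h3 ⊢
      rw [h5, mul_sub]
      refine (v.map_sub _ _).trans (max_le h3 ?_)
      rw [Finset.mul_sum]
      refine v.map_sum_le fun m hm => ?_
      rw [Finset.mem_Ico] at hm
      have h6 := ih m hm.2 hm.1 (by omega)
      rw [← stail_16, ← map_mul] at h6
      have h7 : (16 : K) ^ (i - l) *
          (16 ^ (l - m) * ((stailG e (w - e - 3 * m)).coeff (l - m) : K) * (y m / 16 ^ m)) =
          ((stailG e (w - e - 3 * m)).coeff (l - m) : K) * (16 ^ (i - m) * (y m / 16 ^ m)) := by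
        have h8 : i - m = (i - l) + (l - m) := by omega
        rw [h8, pow_add]
        ring
      rw [h7, map_mul]
      exact (mul_le_mul_left (stail_int v _) _).trans (by rw [one_mul]; exact h6)
  rw [stail_crd]
  refine v.map_sum_le fun l hl => ?_
  rw [Finset.mem_Icc] at hl
  rw [if_pos (by omega)]
  have h6 := key l hl.1 hl.2
  rw [← stail_16, ← map_mul] at h6
  have h7 : (16 : K) ^ (i - l) * ((stailG e (w - e - 3 * l)).coeff (i - l) : K) * (y l / 16 ^ l) =
      ((stailG e (w - e - 3 * l)).coeff (i - l) : K) * (16 ^ (i - l) * (y l / 16 ^ l)) := by ring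
  rw [h7, map_mul]
  exact (mul_le_mul_left (stail_int v _) _).trans (by rw [one_mul]; exact h6)

end MT2
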