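import Pool.Agent.Lib_MP_bfd926_sq.SExV
import Pool.Agent.Lib_MP_bfd926_sq.SVal
import Pool.Agent.Lib_MP_bfd926_sq.STail
import Pool.Agent.Lib_MP_bfd926_sq.SStr

/-!
# The bound for the eigenspaces

`eig_bound`: `S_k = 0` for odd `k` (`ModularForm.levelOne_odd_weight_eq_zero`) and for `k < 12`
(`CuspForm.rank_eq_zero_of_weight_lt_twelve`). Let `k = 4 * w + 2 * e`, `e ≤ 1`, `w ≥ 3`,
`d = (w - e) / 3`, so `3 * d + e ≤ w`, and `Nat.log 2 k = Nat.log 2 w + 2`. `S_k` is finite
dimensional (`CuspForm.discriminantEquiv`, `ModularForm`). For `f` in `V` take `y` from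
`cusp_struct`, `P = ∑ …`; `crd P j = fc j (up ℂ WI * qExpansion 1 f) / 16 ^ j`, where `WI` is the
inverse of `WW e w` in `ℤ⟦X⟧` (constant coefficient `1`; `fc_atf`), is linear in `f`.
* If `d ≤ 2 * Nat.log 2 w + 1`: the linear map `f ↦ (crd P j)_{1 ≤ j ≤ d}` is injective by `crd_inj`
  (`P = 0` if all `y l = 0`, and `f` is determined by its expansion), so `finrank V ≤ d`.
* Otherwise take a valuation (`exists_val`) and `b`, `b'` from `window`. The linear map
  `f ↦ (crd P j)_j`, `1 ≤ j ≤ d`, `b < j < b'`, is injective on `V`: if the image of `f` is zero,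
  `no_vector` applies to `x j = crd P j` with `eq_crd` for (E) (the hypothesis `hV`), `crd_tail` for
  (T), `crd_zero`; so `x j = 0` for `1 ≤ j ≤ d`, and `f = 0` as before. So
  `finrank V ≤ 2 * Nat.log 2 w + 1 = 2 * Nat.log 2 k - 3`.
-/

open UpperHalfPlane PowerSeries
open scoped MatrixGroups ModularForm

namespace MT2

private theorem SMain_WI (e w : ℕ) : ∃ V : PowerSeries ℤ, WW e w * V = 1 := by
  refine ⟨PowerSeries.invOfUnit (WW e w) 1, ?_⟩
  apply PowerSeries.mul_invOfUnit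
  unfold WW
  have h2 : constantCoeff (2 : PowerSeries ℤ) = 2 := map_ofNat _ 2
  rw [map_mul, map_pow, map_pow, map_sub, map_mul, al_zero, be_zero, h2]
  norm_num

private theorem SMain_up (a b : PowerSeries ℤ) (h : a * b = 1) : up ℂ a * up ℂ b = 1 := by
  unfold up
  rw [← map_mul, h, map_one]

/-- The coordinate functionals. -/
private noncomputable def SMainCo (k : ℤ) (V : PowerSeries ℤ) (j : ℕ) : CuspForm 𝒮ℒ k →ₗ[ℂ] ℂ where
  toFun f := fc j (up ℂ V * qExpansion 1 f) / 16 ^ j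
  map_add' f g := by
    have h1 : qExpansion 1 (⇑(f + g) : ℍ → ℂ) = qExpansion 1 f + qExpansion 1 g :=
      ModularForm.qExpansion_add one_pos one_mem_strictPeriods_SL f g
    rw [h1, mul_add, fc_add, add_div]
  map_smul' a f := by
    have h1 : qExpansion 1 (⇑(a • f) : ℍ → ℂ) = a • qExpansion 1 f :=
      ModularForm.qExpansion_smul one_pos one_mem_strictPeriods_SL a f
    rw [h1, mul_smul_comm, fc_smul, RingHom.id_apply, smul_eq_mul, mul_div_assoc]

private theorem SMain_co (k : ℤ) (e w : ℕ) (V : PowerSeries ℤ) (hV : WW e w * V = 1) (j : ℕ)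
    (f : CuspForm 𝒮ℒ k) (P : Polynomial ℂ) (h : qExpansion 1 f = up ℂ (WW e w) * atf P) :
    SMainCo k V j f = crd P j := by
  show fc j (up ℂ V * qExpansion 1 f) / 16 ^ j = crd P j
  have h1 : up ℂ V * (up ℂ (WW e w) * atf P) = atf P := by
    rw [← mul_assoc, mul_comm (up ℂ V), SMain_up _ _ hV, one_mul]
  rw [h, h1, fc_atf]
  rfl

private theorem SMain_zero (k : ℤ) (f : CuspForm 𝒮ℒ k) (h : qExpansion 1 f = 0) : f = 0 := by
  have h1 : CuspForm.toModularFormₗ f = 0 :=
    (ModularForm.qExpansion_eq_zero_iff one_pos one_mem_strictPeriods_SL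
      (CuspForm.toModularFormₗ f)).1 h
  ext z
  have h2 := DFunLike.congr_fun h1 z
  exact h2

private theorem SMain_inj (k : ℤ) (e w : ℕ) (f : CuspForm 𝒮ℒ k) (y : ℕ → ℂ)
    (h : qExpansion 1 f = up ℂ (WW e w) *
      atf (∑ l ∈ Finset.Icc 1 ((w - e) / 3), Polynomial.C (y l) * Bt ℂ e w l))
    (h0 : ∀ i, 1 ≤ i → i ≤ (w - e) / 3 →
      crd (∑ l ∈ Finset.Icc 1 ((w - e) / 3), Polynomial.C (y l) * Bt ℂ e w l) i = 0) : f = 0 := by
  have h1 := crd_inj e w ((w - e) / 3) y h0
  have h2 : (∑ l ∈ Finset.Icc 1 ((w - e) / 3), Polynomial.C (y l) * Bt ℂ e w l) = 0 := by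
    refine Finset.sum_eq_zero fun l hl => ?_
    rw [Finset.mem_Icc] at hl
    rw [h1 l hl.1 hl.2, map_zero, zero_mul]
  apply SMain_zero
  rw [h, h2]
  unfold atf
  rw [map_zero, mul_zero]

private theorem SMain_card (k : ℤ) (hfin : Module.Finite ℂ (CuspForm 𝒮ℒ k))
    (V : Submodule ℂ (CuspForm 𝒮ℒ k)) (S : Finset ℕ) (co : ℕ → CuspForm 𝒮ℒ k →ₗ[ℂ] ℂ)
    (h : ∀ f ∈ V, (∀ j ∈ S, co j f = 0) → f = 0) : Module.finrank ℂ V ≤ S.card := by
  let φ : V →ₗ[ℂ] (S → ℂ) := LinearMap.pi fun j => (co j).comp V.subtype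
  have hφ : Function.Injective φ := by
    rw [← LinearMap.ker_eq_bot, LinearMap.ker_eq_bot']
    intro f hf
    apply Subtype.ext
    apply h f.1 f.2
    intro j hj
    exact congrFun hf ⟨j, hj⟩
  have h1 := LinearMap.finrank_le_finrank_of_injective hφ
  rw [Module.finrank_fintype_fun_eq_card, Fintype.card_coe] at h1
  exact h1

private theorem SMain_log (e w : ℕ) (he : e ≤ 1) (hw : 1 ≤ w) :
    Nat.log 2 (4 * w + 2 * e) = Nat.log 2 w + 2 := by
  have h1 : 2 ^ Nat.log 2 w ≤ w := Nat.pow_log_le_self 2 (by omega)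
  have h2 : w < 2 ^ (Nat.log 2 w + 1) := Nat.lt_pow_succ_log_self (by norm_num) w
  rw [Nat.log_eq_iff (Or.inl (by omega))]
  constructor
  · rw [pow_add]
    omega
  · rw [pow_succ] at h2
    rw [pow_succ, pow_add]
    omega

theorem cusp_fin (k : ℤ) : Module.Finite ℂ (CuspForm 𝒮ℒ k) :=
  Module.Finite.equiv CuspForm.discriminantEquiv.symm

private theorem SMain_main (e w : ℕ) (he : e ≤ 1) (hw : 3 ≤ w) (lam : ℂ)
    (V : Submodule ℂ (CuspForm 𝒮ℒ ((4 * w + 2 * e : ℕ) : ℤ)))
    (hV : ∀ f ∈ V, uu (qExpansion 1 f) + C ((2 : ℂ) ^ (4 * w + 2 * e) / 2) * dbl (qExpansion 1 f) =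
      C lam * qExpansion 1 f) :
    Module.finrank ℂ V ≤ 2 * Nat.log 2 w + 1 := by
  have hfin := cusp_fin ((4 * w + 2 * e : ℕ) : ℤ)
  obtain ⟨W, hW⟩ := SMain_WI e w
  obtain ⟨d, hd⟩ : ∃ d, d = (w - e) / 3 := ⟨_, rfl⟩
  rcases le_or_gt d (2 * Nat.log 2 w + 1) with hdL | hdL
  · have h1 := SMain_card _ hfin V (Finset.Icc 1 d) (fun j => SMainCo _ W j) (by
      intro f _ hf0
      obtain ⟨y, hy⟩ := cusp_struct e w he f
      refine SMain_inj _ e w f y hy fun i h1 h2 => ?_
      rw [← SMain_co _ e w W hW i f _ hy]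
      exact hf0 i (Finset.mem_Icc.2 ⟨h1, hd ▸ h2⟩))
    rw [Nat.card_Icc] at h1
    omega
  · obtain ⟨Γ, _, v, hv⟩ := exists_val
    obtain ⟨b, b', hbd, hbb, h1, h2, h3, hcard⟩ := window v hv w d (by omega) lam
    have h5 := SMain_card _ hfin V ((Finset.Icc 1 d).filter fun j => b < j ∧ j < b')
      (fun j => SMainCo _ W j) (by
      intro f hf hf0
      obtain ⟨y, hy⟩ := cusp_struct e w he f
      have hP0 := crd_zero (K := ℂ) e w ((w - e) / 3) y
      have hx := no_vector v hv e w d b b' he (by omega) hbd hbb lam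
        (fun j => crd (∑ l ∈ Finset.Icc 1 ((w - e) / 3), Polynomial.C (y l) * Bt ℂ e w l) j)
        (by
          show crd _ 0 = 0
          unfold crd
          rw [hP0, zero_div])
        (by
          intro ρ hρ i _ _
          refine eq_crd v e w he _ hP0 lam ?_ ρ hρ i
          have h6 := hV f hf
          rw [hy] at h6
          exact h6)
        (by
          intro i hi r hr
          refine crd_tail v hv.le e w ((w - e) / 3) y i (hd ▸ hi) r ?_
          rw [← hd]
          intro l hl1 hl2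
          have := hr l hl1 hl2
          rw [← hd] at this
          exact this)
        (by
          intro j hj1 hj2 hj3
          show crd _ j = 0
          rw [← SMain_co _ e w W hW j f _ hy]
          exact hf0 j (by
            rw [Finset.mem_filter, Finset.mem_Icc]
            exact ⟨⟨by omega, hj3⟩, hj1, hj2⟩))
        h1 h2 h3
      refine SMain_inj _ e w f y hy fun i h1 h2 => ?_
      exact hx i h1 (by omega))
    exact h5.trans hcard

private theorem SMain_sub (k : ℤ) (h : ∀ f : CuspForm 𝒮ℒ k, f = 0)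
    (V : Submodule ℂ (CuspForm 𝒮ℒ k)) : Module.finrank ℂ V = 0 := by
  have h1 : Subsingleton V := ⟨fun a b => Subtype.ext ((h a.1).trans (h b.1).symm)⟩
  exact Module.finrank_zero_of_subsingleton

theorem eig_bound (k : ℕ) (lam : ℂ) (V : Submodule ℂ (CuspForm 𝒮ℒ (k : ℤ)))
    (hV : ∀ f ∈ V, uu (qExpansion 1 f) + C ((2 : ℂ) ^ k / 2) * dbl (qExpansion 1 f) =
      C lam * qExpansion 1 f) :
    Module.finrank ℂ V ≤ 2 * Nat.log 2 k - 3 := by
  rcases Nat.even_or_odd k with hk | hk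
  · rcases lt_or_ge k 12 with h12 | h12
    · have h0 : ∀ f : CuspForm 𝒮ℒ (k : ℤ), f = 0 :=
        rank_zero_iff_forall_zero.1
          (CuspForm.rank_eq_zero_of_weight_lt_twelve (by exact_mod_cast h12))
      rw [SMain_sub _ h0 V]
      exact Nat.zero_le _
    · obtain ⟨m, hm⟩ := hk
      obtain ⟨w, e, he, hwe⟩ : ∃ w e, e ≤ 1 ∧ k = 4 * w + 2 * e :=
        ⟨m / 2, m % 2, by omega, by omega⟩
      subst hwe
      have h1 := SMain_main e w he (by omega) lam V hV
      rw [SMain_log e w he (by omega)]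
      omega
  · have h0 : ∀ f : CuspForm 𝒮ℒ (k : ℤ), f = 0 := by
      intro f
      have h1 := ModularForm.levelOne_odd_weight_eq_zero (by exact_mod_cast hk)
        (CuspForm.toModularFormₗ f)
      ext z
      exact DFunLike.congr_fun h1 z
    rw [SMain_sub _ h0 V]
    exact Nat.zero_le _

end MT2
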