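import Pool.Agent.Lib_MP_bfd926_sq.SMa
import Pool.Agent.Lib_MP_bfd926_sq.SMb

/-!
# The Eisenstein series `E₄`, `E₆` and `Δ` in terms of the theta series

`E4_q`: by `mk_form` and `g4_S`, … there is a modular form `G` of weight `4` with the `q`-expansion
`up ℂ ser4`; `levelOne_weight_four_rank_one` gives `E₄ = c • G` or `G = c • E₄`; the coefficient `0` of
both expansions is `1` (`E_qExpansion_coeff_zero`; `ser4` has the constant coefficient
`16 - 16 + 1`), so `c = 1`. Same for `E6_q` (constant coefficient `(2 - 1) * (1 + 32 - 32)`).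
`delta_q`: `discriminant_eq_E₄_cube_sub_E₆_sq` (in `LevelOne/GradedRing.lean`; see the
private lemmas there for the `q`-expansion of `E₄ ^ 3 - E₆ ^ 2`), and the
identity `ser4 ^ 3 - ser6 ^ 2 = 1728 * (be ^ 6 * ff)` in `ℤ⟦X⟧` (from `ff_eq`; multiply by `16`,
use `linear_combination`, and cancel `16`).
`ser4_eq`, `ser6_eq`: from `ff_eq`: `16 * ff * be ^ 2 = al * (al - be)`, so
`be ^ 2 * (1 + 256 * ff) = be ^ 2 + 16 * al * (al - be)` and
`be ^ 2 * (1 - 512 * ff) = be ^ 2 - 32 * al * (al - be)`.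
-/

open UpperHalfPlane PowerSeries
open scoped MatrixGroups ModularForm

namespace MT2

private theorem SMc_up_sub (φ ψ : PowerSeries ℤ) : up ℂ (φ - ψ) = up ℂ φ - up ℂ ψ := by
  unfold up
  rw [map_sub]

private theorem SMc_up_mul (φ ψ : PowerSeries ℤ) : up ℂ (φ * ψ) = up ℂ φ * up ℂ ψ := by
  unfold up
  rw [map_mul]

private theorem SMc_up_pow (φ : PowerSeries ℤ) (n : ℕ) : up ℂ (φ ^ n) = up ℂ φ ^ n := by
  unfold up
  rw [map_pow]

private theorem SMc_up_zero (φ : PowerSeries ℤ) :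
    (up ℂ φ).coeff 0 = ((constantCoeff φ : ℤ) : ℂ) := by
  unfold up
  rw [PowerSeries.coeff_map, PowerSeries.coeff_zero_eq_constantCoeff_apply]
  rfl

theorem ser4_eq : ser4 = be ^ 2 * (1 + 256 * ff) := by
  unfold ser4
  linear_combination (-16) * ff_eq

theorem ser6_eq : ser6 = (2 * al - be) * be ^ 2 * (1 - 512 * ff) := by
  unfold ser6
  linear_combination (32 * (2 * al - be)) * ff_eq

private theorem SMc_ser4_zero : constantCoeff ser4 = 1 := by
  unfold ser4
  rw [map_add, map_sub, map_mul, map_mul, map_mul, map_pow, map_pow, al_zero, be_zero]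
  rw [show constantCoeff (16 : PowerSeries ℤ) = 16 from rfl]
  norm_num

private theorem SMc_ser6_zero : constantCoeff ser6 = 1 := by
  unfold ser6
  rw [map_mul, map_sub, map_sub, map_add, map_mul, map_mul, map_mul, map_mul, map_pow, map_pow,
    al_zero, be_zero]
  rw [show constantCoeff (32 : PowerSeries ℤ) = 32 from rfl,
    show constantCoeff (2 : PowerSeries ℤ) = 2 from rfl]
  norm_num

theorem E4_q : qExpansion 1 ModularForm.E₄ = up ℂ ser4 := by
  obtain ⟨G, hG⟩ : ∃ G : ModularForm 𝒮ℒ 4, qExpansion 1 G = up ℂ ser4 := by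
    obtain ⟨f, -, hf⟩ := mk_form 4 g4 (up ℂ ser4) Rep_g4 (fun τ h => g4_diff h)
      (fun τ h => g4_S h) (fun τ _ => g4_T τ)
    exact ⟨f, hf⟩
  obtain ⟨c, hc⟩ : ∃ c : ℂ, c • ModularForm.E₄ = G :=
    (finrank_eq_one_iff_of_nonzero' ModularForm.E₄ (EisensteinSeries.E_ne_zero _ ⟨2, rfl⟩)).mp
      (Module.rank_eq_one_iff_finrank_eq_one.mp ModularForm.levelOne_weight_four_rank_one) _
  have h1 : c • qExpansion 1 ModularForm.E₄ = up ℂ ser4 := by
    rw [← hG, ← ModularForm.qExpansion_smul one_pos one_mem_strictPeriods_SL c ModularForm.E₄,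
      show (c • ModularForm.E₄ : ℍ → ℂ) = G from congrArg DFunLike.coe hc]
  have h2 := congrArg (PowerSeries.coeff 0) h1
  rw [PowerSeries.coeff_smul, EisensteinSeries.E_qExpansion_coeff_zero _ ⟨2, rfl⟩, SMc_up_zero,
    SMc_ser4_zero] at h2
  have hc1 : c = 1 := by simpa using h2
  rw [hc1, one_smul] at h1
  exact h1

theorem E6_q : qExpansion 1 ModularForm.E₆ = up ℂ ser6 := by
  obtain ⟨G, hG⟩ : ∃ G : ModularForm 𝒮ℒ 6, qExpansion 1 G = up ℂ ser6 := by
    obtain ⟨f, -, hf⟩ := mk_form 6 g6 (up ℂ ser6) Rep_g6 (fun τ h => g6_diff h)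
      (fun τ h => g6_S h) (fun τ _ => g6_T τ)
    exact ⟨f, hf⟩
  obtain ⟨c, hc⟩ : ∃ c : ℂ, c • ModularForm.E₆ = G :=
    (finrank_eq_one_iff_of_nonzero' ModularForm.E₆ (EisensteinSeries.E_ne_zero _ ⟨3, rfl⟩)).mp
      (Module.rank_eq_one_iff_finrank_eq_one.mp ModularForm.levelOne_weight_six_rank_one) _
  have h1 : c • qExpansion 1 ModularForm.E₆ = up ℂ ser6 := by
    rw [← hG, ← ModularForm.qExpansion_smul one_pos one_mem_strictPeriods_SL c ModularForm.E₆,
      show (c • ModularForm.E₆ : ℍ → ℂ) = G from congrArg DFunLike.coe hc]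
  have h2 := congrArg (PowerSeries.coeff 0) h1
  rw [PowerSeries.coeff_smul, EisensteinSeries.E_qExpansion_coeff_zero _ ⟨3, rfl⟩, SMc_up_zero,
    SMc_ser6_zero] at h2
  have hc1 : c = 1 := by simpa using h2
  rw [hc1, one_smul] at h1
  exact h1

private noncomputable def SMcF : ModularForm 𝒮ℒ 12 :=
  ModularForm.mcast (by decide) (ModularForm.E₄.pow 3) -
    ModularForm.mcast (by decide) (ModularForm.E₆.pow 2)

private theorem SMcF_apply (z : ℍ) :
    SMcF z = ModularForm.E₄ z ^ 3 - ModularForm.E₆ z ^ 2 := by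
  simp only [SMcF, ModularForm.coe_mcast, ModularForm.coe_pow, sub_apply, Pi.pow_apply]

private theorem SMcF_q : qExpansion 1 SMcF =
    qExpansion 1 ModularForm.E₄ ^ 3 - qExpansion 1 ModularForm.E₆ ^ 2 := by
  simp only [SMcF, FunLike.coe_sub, ModularForm.coe_mcast,
    ModularForm.qExpansion_sub one_pos one_mem_strictPeriods_SL,
    ModularForm.qExpansion_pow one_pos one_mem_strictPeriods_SL]

private theorem SMc_ser : ser4 ^ 3 - ser6 ^ 2 = 1728 * (be ^ 6 * ff) := by
  unfold ser4 ser6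
  linear_combination (-(108 * be ^ 4)) * ff_eq

theorem delta_q : qExpansion 1 ModularForm.discriminant = up ℂ (be ^ 6 * ff) := by
  have h1 : ((1728 : ℂ) • (CuspForm.discriminant : ℍ → ℂ)) = SMcF := by
    funext z
    rw [SMcF_apply]
    change (1728 : ℂ) * ModularForm.discriminant z = _
    rw [ModularForm.discriminant_eq_E₄_cube_sub_E₆_sq]
    ring
  have h2 := ModularForm.qExpansion_smul one_pos one_mem_strictPeriods_SL (1728 : ℂ)
    CuspForm.discriminant
  rw [h1, SMcF_q, E4_q, E6_q, ← SMc_up_pow, ← SMc_up_pow, ← SMc_up_sub, SMc_ser, SMc_up_mul] at h2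
  have h3 : up ℂ (1728 : PowerSeries ℤ) = C (1728 : ℂ) := by
    have h4 : (1728 : PowerSeries ℤ) = C (1728 : ℤ) := rfl
    unfold up
    rw [h4, PowerSeries.map_C]
    norm_num
  rw [h3, ← PowerSeries.smul_eq_C_mul] at h2
  have h5 : (1728 : ℂ) ≠ 0 := by norm_num
  have h6 := congrArg (fun φ => (1728 : ℂ)⁻¹ • φ) h2
  simp only [smul_smul] at h6
  rw [inv_mul_cancel₀ h5, one_smul, one_smul] at h6
  exact h6.symm

end MT2
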