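import Pool.Agent.Lib_MP_bfd926_sq.SGa

/-!
# The fundamental domain

`D = ModularGroup.fdo = {z | 1 < |z| ^ 2, |re z| < 1 / 2}` (open).
* `fdo_lt_top`: `volume D < ∞`: `UpperHalfPlane.volume_eq_lintegral`; on `D` one has `im z ≥ 3 / 4` hence
  `∫∫_D dx dy / y ^ 2 ≤ ∫_{-1/2}^{1/2} ∫_{3/4}^∞ dy / y ^ 2 dx < ∞` (bound the image of `D` by the set
  `{|re| ≤ 1/2, im > 3/4}`, `Complex.measurableEquivRealProd`, Tonelli, `integrableOn_Ioi_rpow…`).
* `ae_two`: for almost all `w`, the set of `δ` in `SL(2, ℤ)` with `δ • w ∈ D` is `{γ, -γ}` for some `γ`.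
  By `ModularGroup.exists_smul_mem_fd` some `γ • w` is in the closed domain `fd`; the boundary
  `fd \ D` is contained in `{re z = ± 1 / 2} ∪ {|z| = 1}`, which is a null set (lines and circles in `ℂ`
  are null sets: `Measure.addHaar_affineSubspace`, `Measure.addHaar_sphere`; the measure of `ℍ` is
  absolutely continuous with respect to the Lebesgue measure), so the union of its
  countably many translates is a null set (`measure_preimage_smul`, the measure is invariant, as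
  `SL(2, ℤ)` acts through `GL (Fin 2) ℝ`). Outside of this null set `γ • w ∈ D`, and then
  `ModularGroup.eq_one_or_neg_one_of_mem_fdo_mem_fdo` gives the claim.
-/

open UpperHalfPlane Matrix MeasureTheory
open scoped MatrixGroups ModularForm

namespace MT2

private theorem SPb_strip : ∫⁻ z : ℂ in {z : ℂ | z.re ∈ Set.Icc (-1 / 2 : ℝ) (1 / 2) ∧
    z.im ∈ Set.Ioi (3 / 4 : ℝ)}, ((1 / ‖z.im‖₊) ^ 2 : NNReal) < ⊤ := by
  have h1 : MeasurePreserving Complex.measurableEquivRealProd volume volume :=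
    Complex.volume_preserving_equiv_real_prod
  have h2 := h1.setLIntegral_comp_preimage_emb
    Complex.measurableEquivRealProd.measurableEmbedding
    (fun p : ℝ × ℝ => (((1 / ‖p.2‖₊) ^ 2 : NNReal) : ENNReal))
    (Set.Icc (-1 / 2 : ℝ) (1 / 2) ×ˢ Set.Ioi (3 / 4 : ℝ))
  have h3 : Complex.measurableEquivRealProd ⁻¹'
      (Set.Icc (-1 / 2 : ℝ) (1 / 2) ×ˢ Set.Ioi (3 / 4 : ℝ)) =
      {z : ℂ | z.re ∈ Set.Icc (-1 / 2 : ℝ) (1 / 2) ∧ z.im ∈ Set.Ioi (3 / 4 : ℝ)} := by
    ext z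
    simp [Complex.measurableEquivRealProd, Set.mem_prod]
  rw [h3] at h2
  have h4 : ∫⁻ z : ℂ in {z : ℂ | z.re ∈ Set.Icc (-1 / 2 : ℝ) (1 / 2) ∧
      z.im ∈ Set.Ioi (3 / 4 : ℝ)}, (((1 / ‖z.im‖₊) ^ 2 : NNReal) : ENNReal) =
      ∫⁻ p : ℝ × ℝ in (Set.Icc (-1 / 2 : ℝ) (1 / 2) ×ˢ Set.Ioi (3 / 4 : ℝ)),
        (((1 / ‖p.2‖₊) ^ 2 : NNReal) : ENNReal) := by
    rw [← h2]
    rfl
  rw [h4, Measure.volume_eq_prod, ← Measure.prod_restrict]
  have hmeas : Measurable (fun y : ℝ => (((1 / ‖y‖₊) ^ 2 : NNReal) : ENNReal)) := by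
    fun_prop
  have h8 : AEMeasurable (fun p : ℝ × ℝ => (((1 / ‖p.2‖₊) ^ 2 : NNReal) : ENNReal))
      ((volume.restrict (Set.Icc (-1 / 2 : ℝ) (1 / 2))).prod
        (volume.restrict (Set.Ioi (3 / 4 : ℝ)))) :=
    (hmeas.comp measurable_snd).aemeasurable
  rw [lintegral_prod _ h8]
  simp only
  rw [lintegral_const]
  have h5 : IntegrableOn (fun t : ℝ => t ^ (-2 : ℝ)) (Set.Ioi (3 / 4 : ℝ)) :=
    integrableOn_Ioi_rpow_of_lt (by norm_num) (by norm_num)
  have h6 : ∫⁻ y : ℝ in Set.Ioi (3 / 4 : ℝ), (((1 / ‖y‖₊) ^ 2 : NNReal) : ENNReal) < ⊤ := by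
    have h7 := h5.2
    unfold HasFiniteIntegral at h7
    refine lt_of_eq_of_lt ?_ h7
    refine setLIntegral_congr_fun measurableSet_Ioi ?_
    intro y hy
    have hy0 : (0 : ℝ) < y := lt_trans (by norm_num) hy
    simp only
    rw [enorm_eq_nnnorm]
    congr 1
    ext
    rw [coe_nnnorm, Real.norm_of_nonneg (Real.rpow_nonneg hy0.le _), Real.rpow_neg hy0.le]
    simp [abs_of_pos hy0]
  refine ENNReal.mul_lt_top h6 ?_
  rw [Measure.restrict_apply_univ, Real.volume_Icc]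
  exact ENNReal.ofReal_lt_top

theorem fdo_lt_top : volume (ModularGroup.fdo : Set ℍ) < ⊤ := by
  rw [volume_eq_lintegral]
  refine lt_of_le_of_lt (lintegral_mono_set ?_) SPb_strip
  rintro _ ⟨τ, hτ, rfl⟩
  have h1 := ModularGroup.three_lt_four_mul_im_sq_of_mem_fdo hτ
  have h2 : |τ.re| < 1 / 2 := hτ.2
  have h3 := τ.im_pos
  refine ⟨⟨?_, ?_⟩, ?_⟩
  · have := (abs_lt.mp h2).1
    rw [coe_re]
    linarith
  · have := (abs_lt.mp h2).2
    rw [coe_re]
    linarith
  · rw [coe_im]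
    show (3 / 4 : ℝ) < τ.im
    nlinarith

private theorem SPb_line (c : ℝ) : volume {z : ℂ | z.re = c} = 0 := by
  have h1 : MeasurePreserving Complex.measurableEquivRealProd volume volume :=
    Complex.volume_preserving_equiv_real_prod
  have h3 : {z : ℂ | z.re = c} = Complex.measurableEquivRealProd ⁻¹'
      (({c} : Set ℝ) ×ˢ (Set.univ : Set ℝ)) := by
    ext z
    simp [Complex.measurableEquivRealProd, Set.mem_prod]
  rw [h3, h1.measure_preimage_equiv, Measure.volume_eq_prod, Measure.prod_prod]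
  simp

private theorem SPb_bdry : volume ((ModularGroup.fd : Set ℍ) \ ModularGroup.fdo) = 0 := by
  rw [volume_eq_lintegral]
  refine setLIntegral_measure_zero _ _ ?_
  refine measure_mono_null (t := {z : ℂ | z.re = 1 / 2} ∪ {z : ℂ | z.re = -1 / 2} ∪
    Metric.sphere (0 : ℂ) 1) ?_ ?_
  · rintro _ ⟨τ, ⟨hτ, hn⟩, rfl⟩
    by_contra hc
    simp only [Set.mem_union, Set.mem_ofPred_eq, not_or, coe_re] at hc
    obtain ⟨⟨h1, h2⟩, h3⟩ := hc
    apply hn
    refine ⟨?_, ?_⟩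
    · refine lt_of_le_of_ne hτ.1 ?_
      intro h4
      apply h3
      rw [mem_sphere_zero_iff_norm]
      rw [Complex.normSq_eq_norm_sq] at h4
      have := norm_nonneg (τ : ℂ)
      nlinarith
    · refine lt_of_le_of_ne hτ.2 ?_
      intro h4
      rcases (abs_eq (by norm_num : (0 : ℝ) ≤ 1 / 2)).mp h4 with h5 | h5
      · exact h1 h5
      · exact h2 (by rw [h5]; norm_num)
  · refine measure_union_null (measure_union_null (SPb_line _) (SPb_line _)) ?_
    exact Measure.addHaar_sphere _ _ _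

theorem ae_two : ∀ᵐ w : ℍ, ∃ γ : SL(2, ℤ), {δ : SL(2, ℤ) | δ • w ∈ ModularGroup.fdo} = {γ, -γ} := by
  have hm : MeasurableSet ((ModularGroup.fd : Set ℍ) \ ModularGroup.fdo) :=
    ModularGroup.isClosed_fd.measurableSet.diff ModularGroup.isOpen_fdo.measurableSet
  have h1 : ∀ γ : SL(2, ℤ), ∀ᵐ w : ℍ, γ • w ∉ (ModularGroup.fd : Set ℍ) \ ModularGroup.fdo := by
    intro γ
    rw [ae_iff]
    simp only [not_not]
    have h2 := SMulInvariantMeasure.measure_preimage_smul (μ := (volume : Measure ℍ))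
      (γ : GL (Fin 2) ℝ) hm
    rw [SPb_bdry] at h2
    exact h2
  have hcount : Countable SL(2, ℤ) :=
    Function.Injective.countable
      (f := fun (γ : SL(2, ℤ)) (i j : Fin 2) => (γ : Matrix (Fin 2) (Fin 2) ℤ) i j)
      (fun a b h => Subtype.ext h)
  rw [← ae_all_iff] at h1
  filter_upwards [h1] with w hw
  obtain ⟨g, hg⟩ := ModularGroup.exists_smul_mem_fd w
  have hgo : g • w ∈ ModularGroup.fdo := by
    by_contra hc
    exact hw g ⟨hg, hc⟩
  refine ⟨g, ?_⟩
  ext δ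
  simp only [Set.mem_ofPred_eq, Set.mem_insert_iff, Set.mem_singleton_iff]
  constructor
  · intro hδ
    have h3 : (δ * g⁻¹) • (g • w) ∈ ModularGroup.fdo := by
      rw [smul_smul, inv_mul_cancel_right]
      exact hδ
    rcases ModularGroup.eq_one_or_neg_one_of_mem_fdo_mem_fdo hgo h3 with h4 | h4
    · left
      exact mul_inv_eq_one.mp h4
    · right
      have h5 := congrArg (· * g) h4
      simpa using h5
  · rintro (rfl | rfl)
    · exact hgo
    · rw [ModularGroup.SL_neg_smul]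
      exact hgo

end MT2
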