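import Pool.Agent.Lib_MP_bfd926_sq.SPb

/-!
# Unfolding

`D = ModularGroup.fdo`.
`sum_formula`: for almost all `z`, by `cosets` and `ae_two` at `w = gl (dlt i) • z` (the
action of `gl (dlt i)` preserves null sets, the measure is invariant under `GL (Fin 2) ℝ`),
`∑'_A 1_D(gl A • z) * P A z = ∑_i ∑'_γ 1_D(γ • (gl (dlt i) • z)) * P (dlt i) z = 2 * ∑_i P (dlt i) z`
(for almost all `z` only six terms are not zero; `gl_smul`, `(γ : GL (Fin 2) ℝ) • w = γ • w`).
Integrate over `D`: the exchange of the sum and the integral is allowed, since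
`∑'_A ∫⁻_{z ∈ D} 1_D(gl A • z) * ‖P A z‖ ≤ 6 * c * volume D < ∞` by the same computation
(`lintegral_tsum`, `fdo_lt_top`; then `integral_tsum` or `hasSum_integral_of_summable_integral_norm`).
`swap`: the change of variables `w = gl A • z` (measure preserving, a bijection of
`{z ∈ D | gl A • z ∈ D}` with `{w ∈ D | gl (adj A) • w ∈ D}` by `gl_adj_smul`).
-/

open UpperHalfPlane Matrix MeasureTheory
open scoped MatrixGroups ModularForm

namespace MT2

private theorem SPc_neg (γ : SL(2, ℤ)) : γ ≠ -γ := by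
  intro h
  have h1 : γ.1 = -γ.1 := by
    have := congrArg Subtype.val h
    exact this
  have h2 : γ.1 = 0 := by
    ext i j
    have := congrFun (congrFun h1 i) j
    rw [Matrix.neg_apply] at this
    rw [Matrix.zero_apply]
    omega
  have h3 := γ.2
  rw [h2, Matrix.det_zero] at h3
  exact zero_ne_one h3

open scoped Classical in
private theorem SPc_tsum {α : Type} [AddCommMonoid α] [TopologicalSpace α] (z : ℍ)
    (γ : Fin 3 → SL(2, ℤ))
    (hγ : ∀ i, {δ : SL(2, ℤ) | δ • (gl (dlt i) • z) ∈ ModularGroup.fdo} = {γ i, -γ i})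
    (F : M2 → α) (hF : ∀ (δ : SL(2, ℤ)) (A : M2), F (δ • A) = F A) :
    ∑' A : M2, (if gl A • z ∈ ModularGroup.fdo then F A else 0) =
      ∑ i : Fin 3, (F (dlt i) + F (dlt i)) := by
  have hbij : Function.Bijective (fun p : SL(2, ℤ) × Fin 3 => p.1 • dlt p.2) :=
    Function.bijective_iff_existsUnique _ |>.2 cosets
  let e : SL(2, ℤ) × Fin 3 ≃ M2 := Equiv.ofBijective _ hbij
  rw [← e.tsum_eq]
  have hmem : ∀ (δ : SL(2, ℤ)) (i : Fin 3),
      gl (δ • dlt i) • z ∈ ModularGroup.fdo ↔ δ = γ i ∨ δ = -γ i := by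
    intro δ i
    rw [gl_smul, mul_smul]
    have h1 : δ ∈ {δ : SL(2, ℤ) | δ • (gl (dlt i) • z) ∈ ModularGroup.fdo} ↔
        δ ∈ ({γ i, -γ i} : Set SL(2, ℤ)) := by
      rw [hγ i]
    simpa using h1
  rw [tsum_eq_sum (s := (Finset.univ : Finset (Fin 3)).biUnion
    (fun i => {(γ i, i), (-γ i, i)}))]
  · rw [Finset.sum_biUnion]
    · refine Finset.sum_congr rfl fun i _ => ?_
      have hne : ((γ i, i) : SL(2, ℤ) × Fin 3) ≠ (-γ i, i) := by
        intro h
        exact SPc_neg (γ i) (congrArg Prod.fst h)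
      rw [Finset.sum_pair hne]
      show (if gl (γ i • dlt i) • z ∈ ModularGroup.fdo then F (γ i • dlt i) else 0) +
        (if gl (-γ i • dlt i) • z ∈ ModularGroup.fdo then F (-γ i • dlt i) else 0) = _
      rw [if_pos ((hmem _ _).2 (Or.inl rfl)), if_pos ((hmem _ _).2 (Or.inr rfl)), hF, hF]
    · intro i _ j _ hij
      rw [Function.onFun, Finset.disjoint_left]
      rintro ⟨a, b⟩ h1 h2
      apply hij
      simp only [Finset.mem_insert, Finset.mem_singleton, Prod.mk.injEq] at h1 h2
      rcases h1 with h1 | h1 <;> rcases h2 with h2 | h2 <;> rw [← h1.2, h2.2]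
  · rintro ⟨δ, i⟩ hb
    show (if gl (δ • dlt i) • z ∈ ModularGroup.fdo then F (δ • dlt i) else 0) = 0
    rw [if_neg]
    intro h
    apply hb
    rw [Finset.mem_biUnion]
    refine ⟨i, Finset.mem_univ _, ?_⟩
    rw [Finset.mem_insert, Finset.mem_singleton]
    rcases (hmem _ _).1 h with h | h
    · left; rw [h]
    · right; rw [h]

private theorem SPc_ae : ∀ᵐ z : ℍ, ∀ i : Fin 3, ∃ γ : SL(2, ℤ),
    {δ : SL(2, ℤ) | δ • (gl (dlt i) • z) ∈ ModularGroup.fdo} = {γ, -γ} := by
  rw [ae_all_iff]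
  intro i
  exact (measurePreserving_smul (gl (dlt i)) (volume : Measure ℍ)).quasiMeasurePreserving.ae ae_two

private theorem SPc_meas (A : M2) : MeasurableSet {z : ℍ | gl A • z ∈ ModularGroup.fdo} := by
  have h : Continuous (fun z : ℍ => gl A • z) := continuous_const_smul _
  exact (ModularGroup.isOpen_fdo.preimage h).measurableSet

private theorem SPc_count : Countable M2 :=
  Function.Injective.countable
    (f := fun (A : M2) (i j : Fin 2) => (A.1 : Matrix (Fin 2) (Fin 2) ℤ) i j)
    (fun _ _ h => Subtype.ext h)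

theorem sum_formula (P : M2 → ℍ → ℂ) (hc : ∀ A, Continuous (P A))
    (hinv : ∀ (γ : SL(2, ℤ)) (A : M2), P (γ • A) = P A) (c : ℝ) (hb : ∀ A z, ‖P A z‖ ≤ c) :
    2 * ∑ i : Fin 3, ∫ z in ModularGroup.fdo, P (dlt i) z =
      ∑' A : M2, ∫ z in ModularGroup.fdo ∩ {z | gl A • z ∈ ModularGroup.fdo}, P A z := by
  classical
  have := SPc_count
  have hae : ∀ᵐ z ∂((volume : Measure ℍ).restrict ModularGroup.fdo), ∀ i : Fin 3,
      ∃ γ : SL(2, ℤ), {δ : SL(2, ℤ) | δ • (gl (dlt i) • z) ∈ ModularGroup.fdo} = {γ, -γ} :=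
    ae_restrict_of_ae SPc_ae
  have hint : ∀ A : M2, IntegrableOn (P A) ModularGroup.fdo := fun A =>
    Measure.integrableOn_of_bounded (M := c) fdo_lt_top.ne
      (hc A).aestronglyMeasurable (ae_of_all _ (hb A))
  have h1 : ∀ A : M2, ∫ z in ModularGroup.fdo ∩ {z | gl A • z ∈ ModularGroup.fdo}, P A z =
      ∫ z in ModularGroup.fdo, Set.indicator {z | gl A • z ∈ ModularGroup.fdo} (P A) z := by
    intro A
    rw [setIntegral_indicator (SPc_meas A)]
  simp_rw [h1]
  rw [← integral_tsum]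
  · rw [Finset.mul_sum]
    have h2 : ∀ i : Fin 3, 2 * ∫ z in ModularGroup.fdo, P (dlt i) z =
        ∫ z in ModularGroup.fdo, (P (dlt i) z + P (dlt i) z) := by
      intro i
      rw [integral_add (hint _) (hint _), two_mul]
    simp_rw [h2]
    have h7 := integral_finsetSum (μ := (volume : Measure ℍ).restrict ModularGroup.fdo)
      (Finset.univ : Finset (Fin 3)) (f := fun (i : Fin 3) (z : ℍ) => P (dlt i) z + P (dlt i) z)
      (fun i _ => (hint (dlt i)).add (hint (dlt i)))
    rw [← h7]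
    refine integral_congr_ae ?_
    filter_upwards [hae] with z hz
    choose γ hγ using hz
    have h3 := SPc_tsum z γ hγ (fun A => P A z) (fun δ A => by simp only [hinv])
    rw [← h3]
    refine tsum_congr fun A => ?_
    rw [Set.indicator_apply]
    rfl
  · intro A
    exact ((hc A).aestronglyMeasurable.indicator (SPc_meas A))
  · rw [← lintegral_tsum]
    · have h4 : ∫⁻ z in ModularGroup.fdo,
          ∑' A : M2, ‖Set.indicator {z | gl A • z ∈ ModularGroup.fdo} (P A) z‖ₑ ≤
          ∫⁻ _ in ModularGroup.fdo, (6 * ENNReal.ofReal c) := by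
        refine lintegral_mono_ae ?_
        filter_upwards [hae] with z hz
        choose γ hγ using hz
        have h3 := SPc_tsum z γ hγ (fun A => ‖P A z‖ₑ) (fun δ A => by simp only [hinv])
        have h5 : ∑' A : M2, ‖Set.indicator {z | gl A • z ∈ ModularGroup.fdo} (P A) z‖ₑ =
            ∑' A : M2, (if gl A • z ∈ ModularGroup.fdo then ‖P A z‖ₑ else 0) := by
          refine tsum_congr fun A => ?_
          rw [Set.indicator_apply]
          by_cases h : gl A • z ∈ ModularGroup.fdo
          · rw [if_pos h, if_pos]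
            exact h
          · rw [if_neg h, if_neg, enorm_zero]
            exact h
        rw [h5, h3, Fin.sum_univ_three]
        have h6 : ∀ A : M2, ‖P A z‖ₑ ≤ ENNReal.ofReal c := by
          intro A
          rw [← ofReal_norm]
          exact ENNReal.ofReal_le_ofReal (hb A z)
        calc ‖P (dlt 0) z‖ₑ + ‖P (dlt 0) z‖ₑ + (‖P (dlt 1) z‖ₑ + ‖P (dlt 1) z‖ₑ) +
              (‖P (dlt 2) z‖ₑ + ‖P (dlt 2) z‖ₑ)
            ≤ ENNReal.ofReal c + ENNReal.ofReal c + (ENNReal.ofReal c + ENNReal.ofReal c) +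
              (ENNReal.ofReal c + ENNReal.ofReal c) := by
              gcongr <;> exact h6 _
          _ = 6 * ENNReal.ofReal c := by ring
      refine ne_top_of_le_ne_top ?_ h4
      rw [lintegral_const, Measure.restrict_apply_univ]
      exact (ENNReal.mul_lt_top (ENNReal.mul_lt_top (by simp) ENNReal.ofReal_lt_top)
        fdo_lt_top).ne
    · intro A
      exact ((hc A).aestronglyMeasurable.indicator (SPc_meas A)).enorm

theorem swap (A : M2) (Q : ℍ → ℂ) :
    ∫ z in ModularGroup.fdo ∩ {z | gl A • z ∈ ModularGroup.fdo}, Q (gl A • z) =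
      ∫ w in ModularGroup.fdo ∩ {w | gl (adj A) • w ∈ ModularGroup.fdo}, Q w := by
  have h1 : MeasurePreserving (fun z : ℍ => gl A • z) volume volume :=
    measurePreserving_smul (gl A) (volume : Measure ℍ)
  have h2 : MeasurableEmbedding (fun z : ℍ => gl A • z) := measurableEmbedding_const_smul (gl A)
  rw [← h1.setIntegral_preimage_emb h2 Q
    ((ModularGroup.fdo : Set ℍ) ∩ {w | gl (adj A) • w ∈ ModularGroup.fdo})]
  have h3 : (fun z : ℍ => gl A • z) ⁻¹'
      ((ModularGroup.fdo : Set ℍ) ∩ {w | gl (adj A) • w ∈ ModularGroup.fdo}) =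
      (ModularGroup.fdo : Set ℍ) ∩ {z | gl A • z ∈ ModularGroup.fdo} := by
    ext z
    simp only [Set.mem_preimage, Set.mem_inter_iff, Set.mem_ofPred_eq, gl_adj_smul]
    exact and_comm
  rw [h3]

end MT2
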