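import Pool.Agent.Lib_MP_bfd926_sq.SCh

/-!
# The polynomials `FF j s`

* `FF_zero_rec`: `FF 0 (s + 1) + FF 0 (s - 1) = (X + 2) * FF 0 s` for all `s : ℤ`: cases `s ≥ 1`
  and `s ≤ -2` by the definition of `GG`; `s = 0`: `FF 0 1 + FF 0 (-1) = (X + 1) + 1`; `s = -1`:
  `FF 0 0 + FF 0 (-2) = 1 + (X + 1)`.
* `coeff_FF_zero`: the coefficient `i` of `FF 0 s` is `ch (i + s) (2 * i)`: two-sided induction on
  `s` (`Int.induction_on`, or prove the statement for `s` and `s - 1` together), from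
  `ch (i + s + 1) (2 * i) + ch (i + s - 1) (2 * i) = 2 * ch (i + s) (2 * i) + ch (i + s - 1) (2 * i - 2)`
  (three times `ch_pascal`); start `s = 0`: `ch i (2 * i)` is `1` for `i = 0` and
  `0` for `i > 0` (`ch_nat`), and `s = -1`: `ch (i - 1) (2 * i)` likewise (`ch (-1) 0 = 1`).
* `coeff_FF`: induction on `j` from `ch_pascal`:
  `ch (i + s + 1) (2 * i - j) - ch (i + s) (2 * i - j) = ch (i + s) (2 * i - j - 1)`.
* `eval_FF`: for `y ≠ 0` in a field, with `X = (y - 1) ^ 2 / y`,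
  `(y + 1) * FF j s (X) = (y - 1) ^ j * (y ^ (s + 1) + (-1) ^ j * y ^ (-s - j))`: for `j = 0` by the
  recursion (`(X + 2) = y + 1 / y`) and two-sided induction on `s`, then induction on `j`.
* `eval_TT`: combine. For `e = 0` the factor `y + 1` can only be cancelled if `y ≠ -1`, so the
  hypothesis `y + 1 ≠ 0` is added.
-/

open Polynomial

namespace MT2

private theorem SPoly_nat (n : ℕ) : FF 0 (n : ℤ) = GG n := by
  have h : (0 : ℤ) ≤ (n : ℤ) := Int.natCast_nonneg n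
  simp only [FF, h, if_true, Int.toNat_natCast]

private theorem SPoly_neg (n : ℕ) : FF 0 (-1 - (n : ℤ)) = GG n := by
  have h : ¬ (0 : ℤ) ≤ (-1 - (n : ℤ)) := by omega
  have h2 : (-1 - (-1 - (n : ℤ))) = (n : ℤ) := by ring
  simp only [FF, h, if_false, h2, Int.toNat_natCast]

private theorem SPoly_GG (n : ℕ) : GG (n + 2) + GG n = (X + 2) * GG (n + 1) := by
  have h : GG (n + 2) = (X + 2) * GG (n + 1) - GG n := rfl
  rw [h]; ring

theorem FF_zero_rec (s : ℤ) : FF 0 (s + 1) + FF 0 (s - 1) = (X + 2) * FF 0 s := by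
  rcases lt_or_ge s (-1) with h | h
  · obtain ⟨n, hn⟩ : ∃ n : ℕ, s = -1 - ((n + 1 : ℕ) : ℤ) := ⟨(-2 - s).toNat, by omega⟩
    have e1 : s + 1 = -1 - (n : ℤ) := by rw [hn]; push_cast; ring
    have e2 : s - 1 = -1 - ((n + 2 : ℕ) : ℤ) := by rw [hn]; push_cast; ring
    rw [e1, e2, hn, SPoly_neg, SPoly_neg, SPoly_neg, add_comm, SPoly_GG]
  · rcases lt_or_ge s 1 with h1 | h1
    · rcases (show s = -1 ∨ s = 0 by omega) with rfl | rfl
      · have e0 : ((-1 : ℤ) + 1) = ((0 : ℕ) : ℤ) := by norm_num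
        have e2 : ((-1 : ℤ) - 1) = -1 - ((1 : ℕ) : ℤ) := by norm_num
        have e1 : FF 0 (-1 : ℤ) = GG 0 := by
          have := SPoly_neg 0
          simpa using this
        rw [e0, e2, SPoly_nat, SPoly_neg, e1]
        have g0 : GG 0 = 1 := rfl
        have g1 : GG 1 = X + 1 := rfl
        rw [g0, g1]; ring
      · have e0 : ((0 : ℤ) + 1) = ((1 : ℕ) : ℤ) := by norm_num
        have e2 : ((0 : ℤ) - 1) = -1 - ((0 : ℕ) : ℤ) := by norm_num
        have e1 : FF 0 (0 : ℤ) = GG 0 := by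
          have := SPoly_nat 0
          simpa using this
        rw [e0, e2, SPoly_nat, SPoly_neg, e1]
        have g0 : GG 0 = 1 := rfl
        have g1 : GG 1 = X + 1 := rfl
        rw [g0, g1]; ring
    · obtain ⟨n, hn⟩ : ∃ n : ℕ, s = ((n + 1 : ℕ) : ℤ) := ⟨(s - 1).toNat, by omega⟩
      have e1 : s + 1 = ((n + 2 : ℕ) : ℤ) := by rw [hn]; push_cast; ring
      have e2 : s - 1 = ((n : ℕ) : ℤ) := by rw [hn]; push_cast; ring
      rw [e1, e2, hn, SPoly_nat, SPoly_nat, SPoly_nat, SPoly_GG]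

private theorem SPoly_ch (x r : ℤ) :
    ch (x + 1) r + ch (x - 1) r = 2 * ch x r + ch (x - 1) (r - 2) := by
  have h1 := ch_pascal x r
  have h2 := ch_pascal (x - 1) r
  have h3 := ch_pascal (x - 1) (r - 1)
  have e : x - 1 + 1 = x := by ring
  have e' : r - 1 - 1 = r - 2 := by ring
  rw [e] at h2 h3
  rw [e'] at h3
  linarith

private theorem SPoly_step (s : ℤ) (F G H : Polynomial ℤ) (hr : F + G = (X + 2) * H)
    (hH : ∀ i : ℕ, H.coeff i = ch (i + s) (2 * i)) (i : ℕ) :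
    F.coeff i + G.coeff i = ch (i + s + 1) (2 * i) + ch (i + s - 1) (2 * i) := by
  rw [← Polynomial.coeff_add, hr, add_mul, Polynomial.coeff_add, SPoly_ch]
  have h2 : ((2 : Polynomial ℤ) * H).coeff i = 2 * H.coeff i := by
    have : (2 : Polynomial ℤ) = C 2 := by simp
    rw [this, Polynomial.coeff_C_mul]
  rw [h2, hH]
  rcases i with _ | k
  · rw [Polynomial.mul_coeff_zero, Polynomial.coeff_X_zero, zero_mul]
    have : ch (((0 : ℕ) : ℤ) + s - 1) (2 * ((0 : ℕ) : ℤ) - 2) = 0 := ch_neg (by norm_num)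
    rw [this]; ring
  · rw [Polynomial.coeff_X_mul, hH]
    have e1 : (((k + 1 : ℕ) : ℤ) + s - 1) = (k : ℤ) + s := by push_cast; ring
    have e2 : (2 * ((k + 1 : ℕ) : ℤ) - 2) = 2 * (k : ℤ) := by push_cast; ring
    rw [e1, e2]; ring

private theorem SPoly_both (s : ℤ) :
    (∀ i : ℕ, (FF 0 s).coeff i = ch (i + s) (2 * i)) ∧
      (∀ i : ℕ, (FF 0 (s - 1)).coeff i = ch (i + (s - 1)) (2 * i)) := by
  induction s using Int.induction_on with
  | zero =>
    have g0 : GG 0 = 1 := rfl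
    constructor
    · intro i
      have e : FF 0 (0 : ℤ) = 1 := by
        have := SPoly_nat 0
        rw [← g0]; simpa using this
      rw [e, Polynomial.coeff_one]
      rcases i with _ | k
      · simp only [if_true]
        exact (ch_zero _).symm
      · rw [if_neg (by omega)]
        have h := ch_nat (k + 1) (2 * (k + 1))
        rw [Nat.choose_eq_zero_of_lt (by omega)] at h
        push_cast at h ⊢
        rw [add_zero]
        exact h.symm
    · intro i
      have e : FF 0 ((0 : ℤ) - 1) = 1 := by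
        have := SPoly_neg 0
        rw [← g0]; simpa using this
      rw [e, Polynomial.coeff_one]
      rcases i with _ | k
      · simp only [if_true]
        exact (ch_zero _).symm
      · rw [if_neg (by omega)]
        have h := ch_nat k (2 * (k + 1))
        rw [Nat.choose_eq_zero_of_lt (by omega)] at h
        push_cast at h ⊢
        have e1 : ((k : ℤ) + 1 + -1) = (k : ℤ) := by ring
        rw [e1]
        exact h.symm
  | succ n ih =>
    obtain ⟨h0, h1⟩ := ih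
    have e : ((n : ℤ) + 1 - 1) = (n : ℤ) := by ring
    constructor
    · intro i
      have hs := SPoly_step (n : ℤ) _ _ _ (FF_zero_rec (n : ℤ)) h0 i
      rw [h1 i] at hs
      have e1 : (i : ℤ) + ((n : ℤ) + 1) = i + n + 1 := by ring
      have e2 : (i : ℤ) + ((n : ℤ) - 1) = i + n - 1 := by ring
      rw [e2] at hs
      rw [e1]
      linarith
    · intro i
      rw [e]
      exact h0 i
  | pred n ih =>
    obtain ⟨h0, h1⟩ := ih
    constructor
    · exact h1
    · intro i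
      have hr := FF_zero_rec (-(n : ℤ) - 1)
      have e0 : (-(n : ℤ) - 1 + 1) = -(n : ℤ) := by ring
      rw [e0] at hr
      have hs := SPoly_step (-(n : ℤ) - 1) _ _ _ hr h1 i
      rw [h0 i] at hs
      have e1 : (i : ℤ) + (-(n : ℤ) - 1) + 1 = i + -(n : ℤ) := by ring
      have e2 : (i : ℤ) + (-(n : ℤ) - 1 - 1) = i + (-(n : ℤ) - 1) - 1 := by ring
      rw [e1] at hs
      rw [e2]
      linarith

theorem coeff_FF_zero (s : ℤ) (i : ℕ) : (FF 0 s).coeff i = ch (i + s) (2 * i) :=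
  (SPoly_both s).1 i

theorem coeff_FF (j : ℕ) (s : ℤ) (i : ℕ) : (FF j s).coeff i = ch (i + s) (2 * i - j) := by
  induction j generalizing s with
  | zero =>
    rw [coeff_FF_zero]
    simp
  | succ j ih =>
    have h : FF (j + 1) s = FF j (s + 1) - FF j s := rfl
    rw [h, Polynomial.coeff_sub, ih, ih]
    have hp := ch_pascal ((i : ℤ) + s) (2 * i - j)
    have e1 : (i : ℤ) + (s + 1) = i + s + 1 := by ring
    have e2 : (2 * (i : ℤ) - ((j + 1 : ℕ) : ℤ)) = 2 * i - j - 1 := by push_cast; ring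
    rw [e1, e2, hp]; ring

theorem coeff_TT (e w j i : ℕ) (he : e ≤ 1) : (TT e w j).coeff i = NE e w i j := by
  rcases (show e = 0 ∨ e = 1 by omega) with rfl | rfl
  · have h : TT 0 w j = FF j ((j : ℤ) - w) + FF j ((j : ℤ) - w - 1) := by simp [TT]
    have h2 : NE 0 (w : ℤ) i j = N w i j := by simp [NE]
    rw [h, h2, Polynomial.coeff_add, coeff_FF, coeff_FF, N]
    have e1 : (i : ℤ) + ((j : ℤ) - w) = i + j - w := by ring
    have e2 : (i : ℤ) + ((j : ℤ) - w - 1) = i + j - w - 1 := by ring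
    rw [e1, e2]
  · have h : TT 1 w j = C 2 * (FF j ((j : ℤ) - w) + FF (j + 1) ((j : ℤ) - w - 1)) := by
      simp [TT]
    have h2 : NE 1 (w : ℤ) i j = Nt w i j := by simp [NE]
    rw [h, h2, Polynomial.coeff_C_mul, Polynomial.coeff_add, coeff_FF, coeff_FF, Nt]
    have e1 : (i : ℤ) + ((j : ℤ) - w) = i + j - w := by ring
    have e2 : (i : ℤ) + ((j : ℤ) - w - 1) = i + j - w - 1 := by ring
    have e3 : (2 * (i : ℤ) - ((j + 1 : ℕ) : ℤ)) = 2 * i - j - 1 := by push_cast; ring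
    rw [e1, e2, e3]; ring

private theorem SPoly_evalstep {K : Type} [Field K] (y : K) (hy : y ≠ 0)
    (F G H : Polynomial ℤ) (hr : F + G = (X + 2) * H) :
    (y + 1) * aeval ((y - 1) ^ 2 / y) F + (y + 1) * aeval ((y - 1) ^ 2 / y) G =
      (y + y⁻¹) * ((y + 1) * aeval ((y - 1) ^ 2 / y) H) := by
  have h := congrArg (aeval ((y - 1) ^ 2 / y)) hr
  rw [map_add, map_mul, map_add, aeval_X] at h
  have h2 : aeval ((y - 1) ^ 2 / y) (2 : Polynomial ℤ) = (2 : K) := map_ofNat _ 2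
  rw [h2] at h
  have e : ((y - 1) ^ 2 / y + 2) = y + y⁻¹ := by
    field_simp
    ring
  rw [e] at h
  rw [← mul_add, h]; ring

private theorem SPoly_evalboth {K : Type} [Field K] (y : K) (hy : y ≠ 0) (s : ℤ) :
    ((y + 1) * aeval ((y - 1) ^ 2 / y) (FF 0 s) = y ^ (s + 1) + y ^ (-s)) ∧
    ((y + 1) * aeval ((y - 1) ^ 2 / y) (FF 0 (s - 1)) = y ^ s + y ^ (-s + 1)) := by
  induction s using Int.induction_on with
  | zero =>
    have g0 : GG 0 = 1 := rfl
    constructor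
    · have e : FF 0 (0 : ℤ) = 1 := by
        have := SPoly_nat 0
        rw [← g0]; simpa using this
      rw [e, map_one]
      simp
    · have e : FF 0 ((0 : ℤ) - 1) = 1 := by
        have := SPoly_neg 0
        rw [← g0]; simpa using this
      rw [e, map_one]
      simp
      ring
  | succ n ih =>
    obtain ⟨h0, h1⟩ := ih
    constructor
    · have hs := SPoly_evalstep y hy _ _ _ (FF_zero_rec (n : ℤ))
      rw [h0, h1] at hs
      have hs' := eq_sub_of_add_eq hs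
      rw [hs']
      have e1 : y ^ ((n : ℤ) + 1 + 1) = y * y ^ ((n : ℤ) + 1) := by
        rw [zpow_add_one₀ hy]; ring
      have e2 : y ^ (-((n : ℤ) + 1)) = y⁻¹ * y ^ (-(n : ℤ)) := by
        rw [neg_add, zpow_add₀ hy, zpow_neg_one]; ring
      have e3 : y ^ (-(n : ℤ) + 1) = y * y ^ (-(n : ℤ)) := by
        rw [zpow_add_one₀ hy]; ring
      have e4 : y ^ (n : ℤ) = y⁻¹ * y ^ ((n : ℤ) + 1) := by
        rw [zpow_add_one₀ hy]; field_simp
      rw [e1, e2, e3]
      linear_combination e4 * (-1 : K)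
    · have e : ((n : ℤ) + 1 - 1) = (n : ℤ) := by ring
      have e2 : (-((n : ℤ) + 1) + 1) = -(n : ℤ) := by ring
      rw [e, e2]
      exact h0
  | pred n ih =>
    obtain ⟨h0, h1⟩ := ih
    have e0 : (-(n : ℤ) - 1 + 1) = -(n : ℤ) := by ring
    constructor
    · have e2 : (-(-(n : ℤ) - 1)) = -(-(n : ℤ)) + 1 := by ring
      rw [e0, e2]
      exact h1
    · have hr := FF_zero_rec (-(n : ℤ) - 1)
      rw [e0] at hr
      have hs := SPoly_evalstep y hy _ _ _ hr
      rw [h0, h1] at hs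
      have hs' := eq_sub_of_add_eq' hs
      rw [hs']
      have e1 : y ^ (-(n : ℤ) - 1) = y⁻¹ * y ^ (-(n : ℤ)) := by
        rw [sub_eq_add_neg, zpow_add₀ hy, zpow_neg_one]; ring
      have e2 : y ^ (-(-(n : ℤ) - 1) + 1) = y * y ^ (-(-(n : ℤ)) + 1) := by
        rw [← zpow_one_add₀ hy]; congr 1; ring
      have e3 : y ^ (-(n : ℤ) + 1) = y * y ^ (-(n : ℤ)) := by
        rw [zpow_add_one₀ hy]; ring
      have e4 : y ^ (-(-(n : ℤ))) = y⁻¹ * y ^ (-(-(n : ℤ)) + 1) := by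
        rw [zpow_add_one₀ hy]; field_simp
      rw [e1, e2, e3]
      linear_combination e4 * (-1 : K)

theorem eval_FF {K : Type} [Field K] (y : K) (hy : y ≠ 0) (j : ℕ) (s : ℤ) :
    (y + 1) * aeval ((y - 1) ^ 2 / y) (FF j s) =
      (y - 1) ^ j * (y ^ (s + 1) + (-1) ^ j * y ^ (-s - j)) := by
  induction j generalizing s with
  | zero =>
    rw [(SPoly_evalboth y hy s).1]
    simp
  | succ j ih =>
    have h : FF (j + 1) s = FF j (s + 1) - FF j s := rfl
    rw [h, map_sub, mul_sub, ih, ih]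
    have e1 : y ^ (s + 1 + 1) = y * y ^ (s + 1) := by
      rw [zpow_add_one₀ hy (s + 1)]; ring
    have e2 : y ^ (-s - (j : ℤ)) = y * y ^ (-(s + 1) - (j : ℤ)) := by
      rw [← zpow_one_add₀ hy]; congr 1; ring
    have e3 : (-s - ((j + 1 : ℕ) : ℤ)) = -(s + 1) - (j : ℤ) := by push_cast; ring
    rw [e3, e1, e2]; ring

theorem eval_TT_zero {K : Type} [Field K] (y : K) (hy : y ≠ 0) (hy1 : y + 1 ≠ 0) (w j : ℕ) :
    aeval ((y - 1) ^ 2 / y) (TT 0 w j) =
      (y - 1) ^ j * (y ^ ((j : ℤ) - w) + (-1) ^ j * y ^ ((w : ℤ) - 2 * j)) := by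
  have h : TT 0 w j = FF j ((j : ℤ) - w) + FF j ((j : ℤ) - w - 1) := by simp [TT]
  apply mul_left_cancel₀ hy1
  rw [h, map_add, mul_add, eval_FF y hy, eval_FF y hy]
  have e1 : y ^ ((j : ℤ) - w + 1) = y * y ^ ((j : ℤ) - w) := by
    rw [zpow_add_one₀ hy]; ring
  have e2 : ((j : ℤ) - w - 1 + 1) = (j : ℤ) - w := by ring
  have e3 : (-((j : ℤ) - w) - j) = (w : ℤ) - 2 * j := by ring
  have e4 : y ^ (-((j : ℤ) - w - 1) - j) = y * y ^ ((w : ℤ) - 2 * j) := by
    rw [← zpow_one_add₀ hy]; congr 1; ring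
  rw [e1, e2, e3, e4]; ring

theorem eval_TT_one {K : Type} [Field K] (y : K) (hy : y ≠ 0) (w j : ℕ) :
    (y + 1) * aeval ((y - 1) ^ 2 / y) (TT 1 w j) =
      2 * (y - 1) ^ j * (y ^ ((j : ℤ) - w) * (2 * y - 1) +
        (-1) ^ j * y ^ ((w : ℤ) - 2 * j) * (2 - y)) := by
  have h : TT 1 w j = 2 * (FF j ((j : ℤ) - w) + FF (j + 1) ((j : ℤ) - w - 1)) := by
    simp [TT]
  have h2 : aeval ((y - 1) ^ 2 / y) (2 : Polynomial ℤ) = (2 : K) := map_ofNat _ 2
  have h3 : (y + 1) * (2 * (aeval ((y - 1) ^ 2 / y) (FF j ((j : ℤ) - w)) +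
      aeval ((y - 1) ^ 2 / y) (FF (j + 1) ((j : ℤ) - w - 1)))) =
      2 * ((y + 1) * aeval ((y - 1) ^ 2 / y) (FF j ((j : ℤ) - w)) +
        (y + 1) * aeval ((y - 1) ^ 2 / y) (FF (j + 1) ((j : ℤ) - w - 1))) := by ring
  rw [h, map_mul, h2, map_add, h3, eval_FF y hy, eval_FF y hy]
  have e1 : y ^ ((j : ℤ) - w + 1) = y * y ^ ((j : ℤ) - w) := by
    rw [zpow_add_one₀ hy]; ring
  have e2 : ((j : ℤ) - w - 1 + 1) = (j : ℤ) - w := by ring
  have e3 : (-((j : ℤ) - w) - j) = (w : ℤ) - 2 * j := by ring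
  have e4 : (-((j : ℤ) - w - 1) - ((j + 1 : ℕ) : ℤ)) = (w : ℤ) - 2 * j := by
    push_cast; ring
  rw [e1, e2, e3, e4]; ring

end MT2
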