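import Pool.Agent.Lib_MP_bfd926_sq.SQGood

/-!
# The number of good cuts

Odd `w`: among `b ∈ [1, B]` at least `(B - 1) / 2` satisfy `rr w (2b+1) = 1` (`w - 2b - 1 ≡ 2` mod `4`).
If such a `b` is not good there is `a ∈ [1, 2d]` with `rr w a > (|a - (2b+1)| + 1) / 2 + 3`; then `w - a` is even,
`a = 2b + 1 ± 2y`, and `2 ^ (y + 4) ∣ w - a`; `y` is odd (for even `y` `w - a ≡ 2` mod `4`), and
`y + 4 ≤ log 2 w`. For given `y` and sign the `b`'s correspond to the `a ∈ [1, 2d]` with
`2 ^ (y + 4) ∣ w - a`, at most `2d / 2 ^ (y + 4) + 1` of them. The sum over the odd `y` of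
`2 (2d / 2 ^ (y+4) + 1)` is at most `d / 6 + log 2 w`.
Even `w`: at least `(B - 3) / 2` of the `b` satisfy `rr w (2b) + rr w (2b+2) = 3`
(`w - 2b ≡ 4, 6` mod `8`); bad: `a = 2b + 2y` or `a = 2b + 2 - 2y` with `y ≥ 2` and
`2 ^ (y + 4) ∣ w - a`; the sum over `y ≥ 2` of `2 (2d / 2 ^ (y+4) + 1)` is at most `d / 8 + 2 log 2 w`.
So `#good ≥ B / 2 - 3 / 2 - d / 6 - 2 log 2 w`.
-/

namespace MT2

private lemma card_mod_ge (B K r : ℕ) (hr : r < K) :
    B / K ≤ ((Finset.Icc 1 B).filter fun b => b % K = r).card := by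
  have hK : 0 < K := by omega
  obtain ⟨s, hs1, hs2, hs3⟩ : ∃ s, 1 ≤ s ∧ s ≤ K ∧ s % K = r := by
    rcases Nat.eq_zero_or_pos r with h | h
    · exact ⟨K, hK, le_refl _, by simp [h]⟩
    · exact ⟨r, h, hr.le, Nat.mod_eq_of_lt hr⟩
  calc B / K = (Finset.range (B / K)).card := by simp
    _ ≤ _ := by
      apply Finset.card_le_card_of_injOn (fun i => K * i + s)
      · intro i hi
        simp only [Finset.coe_range, Set.mem_Iio] at hi
        have h1 : K * (i + 1) ≤ K * (B / K) := Nat.mul_le_mul_left _ hi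
        have h2 : K * (B / K) ≤ B := Nat.mul_div_le B K
        rw [mul_add, mul_one] at h1
        simp only [Finset.coe_filter, Finset.mem_Icc, Set.mem_setOf_eq]
        refine ⟨⟨by omega, by omega⟩, ?_⟩
        rw [Nat.mul_add_mod]
        exact hs3
      · intro i _ j _ h
        have h' : K * i = K * j := by
          simpa using h
        exact Nat.eq_of_mul_eq_mul_left hK h'

private lemma card_A (w d K : ℕ) :
    ((Finset.Icc 1 (2 * d)).filter fun a => a % K = w % K).card ≤ 2 * d / K + 1 := by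
  calc _ ≤ (Finset.range (2 * d / K + 1)).card := by
        apply Finset.card_le_card_of_injOn (fun a => a / K)
        · intro a ha
          simp only [Finset.coe_filter, Finset.mem_Icc, Set.mem_setOf_eq] at ha
          simp only [Finset.coe_range, Set.mem_Iio]
          exact Nat.lt_succ_of_le (Nat.div_le_div_right ha.1.2)
        · intro a ha b hb h
          simp only [Finset.coe_filter, Finset.mem_Icc, Set.mem_setOf_eq] at ha hb
          have h' : a / K = b / K := h
          rw [← Nat.div_add_mod a K, ← Nat.div_add_mod b K, h', ha.2, hb.2]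
    _ = _ := by simp

private lemma card_union (w d L : ℕ) (y : ℕ → ℕ) (g1 g2 : ℕ → ℕ → ℕ) (S : Finset ℕ)
    (hS : ∀ b ∈ S, ∃ i < L, ∃ a, 1 ≤ a ∧ a ≤ 2 * d ∧
      a % 2 ^ (y i + 4) = w % 2 ^ (y i + 4) ∧ (b = g1 i a ∨ b = g2 i a)) :
    S.card ≤ ∑ i ∈ Finset.range L, 2 * (2 * d / 2 ^ (y i + 4) + 1) := by
  classical
  set A : ℕ → Finset ℕ := fun i =>
    (Finset.Icc 1 (2 * d)).filter fun a => a % 2 ^ (y i + 4) = w % 2 ^ (y i + 4) with hA
  have hsub : S ⊆ (Finset.range L).biUnion fun i => (A i).image (g1 i) ∪ (A i).image (g2 i) := by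
    intro b hb
    obtain ⟨i, hi, a, ha1, ha2, ha3, hab⟩ := hS b hb
    have hmem : a ∈ A i := by
      rw [hA]
      simp only [Finset.mem_filter, Finset.mem_Icc]
      exact ⟨⟨ha1, ha2⟩, ha3⟩
    simp only [Finset.mem_biUnion, Finset.mem_range, Finset.mem_union, Finset.mem_image]
    refine ⟨i, hi, ?_⟩
    rcases hab with h | h
    · exact Or.inl ⟨a, hmem, h.symm⟩
    · exact Or.inr ⟨a, hmem, h.symm⟩
  calc S.card ≤ _ := Finset.card_le_card hsub
    _ ≤ ∑ i ∈ Finset.range L, ((A i).image (g1 i) ∪ (A i).image (g2 i)).card :=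
        Finset.card_biUnion_le
    _ ≤ _ := Finset.sum_le_sum fun i _ => by
        have h1 := Finset.card_union_le ((A i).image (g1 i)) ((A i).image (g2 i))
        have h2 := Finset.card_image_le (s := A i) (f := g1 i)
        have h3 := Finset.card_image_le (s := A i) (f := g2 i)
        have h4 : (A i).card ≤ 2 * d / 2 ^ (y i + 4) + 1 := card_A w d (2 ^ (y i + 4))
        omega

private lemma sum_odd (d L : ℕ) :
    6 * ∑ i ∈ Finset.range L, 2 * (2 * d / 2 ^ ((2 * i + 1) + 4) + 1) ≤ d + 12 * L := by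
  have h : (6 * ∑ i ∈ Finset.range L, (2 * (((2 * d / 2 ^ ((2 * i + 1) + 4) : ℕ) : ℚ) + 1))) ≤
      d * (1 - (1 / 4) ^ L) + 12 * L := by
    induction L with
    | zero => simp
    | succ n ih =>
      rw [Finset.sum_range_succ, mul_add]
      have hd : ((2 * d / 2 ^ ((2 * n + 1) + 4) : ℕ) : ℚ) ≤
          ((2 * d : ℕ) : ℚ) / ((2 ^ ((2 * n + 1) + 4) : ℕ) : ℚ) := Nat.cast_div_le
      have he : ((2 * d : ℕ) : ℚ) / ((2 ^ ((2 * n + 1) + 4) : ℕ) : ℚ) =
          d * (1 / 16) * (1 / 4) ^ n := by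
        push_cast
        rw [show (2 : ℚ) ^ ((2 * n + 1) + 4) = 32 * 4 ^ n by
          rw [show (2 * n + 1) + 4 = 2 * n + 5 by ring, pow_add, pow_mul]; norm_num; ring]
        rw [one_div_pow]
        have h4 : (4 : ℚ) ^ n ≠ 0 := by positivity
        field_simp
        ring
      rw [he] at hd
      have hp : (1 / 4 : ℚ) ^ (n + 1) = (1 / 4) ^ n * (1 / 4) := pow_succ _ _
      rw [hp, Nat.cast_succ]
      linarith [hd, ih]
  have h4 : (0 : ℚ) ≤ d * (1 / 4) ^ L := by positivity
  have h5 : ((6 * ∑ i ∈ Finset.range L, 2 * (2 * d / 2 ^ ((2 * i + 1) + 4) + 1) : ℕ) : ℚ) ≤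
      ((d + 12 * L : ℕ) : ℚ) := by
    rw [Nat.cast_mul, Nat.cast_sum]
    simp only [Nat.cast_mul, Nat.cast_add, Nat.cast_one, Nat.cast_ofNat] at *
    linarith
  exact_mod_cast h5

private lemma sum_even (d L : ℕ) :
    6 * ∑ i ∈ Finset.range L, 2 * (2 * d / 2 ^ ((i + 2) + 4) + 1) ≤ d + 12 * L := by
  have h : (6 * ∑ i ∈ Finset.range L, (2 * (((2 * d / 2 ^ ((i + 2) + 4) : ℕ) : ℚ) + 1))) ≤
      d * (1 - (1 / 2) ^ L) + 12 * L := by
    induction L with
    | zero => simp
    | succ n ih =>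
      rw [Finset.sum_range_succ, mul_add]
      have hd : ((2 * d / 2 ^ ((n + 2) + 4) : ℕ) : ℚ) ≤
          ((2 * d : ℕ) : ℚ) / ((2 ^ ((n + 2) + 4) : ℕ) : ℚ) := Nat.cast_div_le
      have he : ((2 * d : ℕ) : ℚ) / ((2 ^ ((n + 2) + 4) : ℕ) : ℚ) =
          d * (1 / 32) * (1 / 2) ^ n := by
        push_cast
        rw [show (2 : ℚ) ^ ((n + 2) + 4) = 64 * 2 ^ n by
          rw [show (n + 2) + 4 = n + 6 by ring, pow_add]; norm_num; ring]
        rw [one_div_pow]
        have h4 : (2 : ℚ) ^ n ≠ 0 := by positivity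
        field_simp
        ring
      rw [he] at hd
      have h0 : (0 : ℚ) ≤ d * (1 / 2) ^ n := by positivity
      have hp : (1 / 2 : ℚ) ^ (n + 1) = (1 / 2) ^ n * (1 / 2) := pow_succ _ _
      rw [hp, Nat.cast_succ]
      linarith [hd, ih, h0]
  have h4 : (0 : ℚ) ≤ d * (1 / 2) ^ L := by positivity
  have h5 : ((6 * ∑ i ∈ Finset.range L, 2 * (2 * d / 2 ^ ((i + 2) + 4) + 1) : ℕ) : ℚ) ≤
      ((d + 12 * L : ℕ) : ℚ) := by
    rw [Nat.cast_mul, Nat.cast_sum]
    simp only [Nat.cast_mul, Nat.cast_add, Nat.cast_one, Nat.cast_ofNat] at *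
    linarith
  exact_mod_cast h5

private lemma rr_one {w a : ℕ} (h : (w - a) % 4 = 2) : rr w a = 1 := by
  unfold rr
  obtain ⟨k, hk⟩ : ∃ k, w - a = 2 * (2 * k + 1) := ⟨(w - a) / 4, by omega⟩
  rw [hk, padicValNat.mul (by norm_num) (by omega), padicValNat.self (by norm_num),
    padicValNat.eq_zero_of_not_dvd (by omega)]

private lemma rr_two {w a : ℕ} (h : (w - a) % 8 = 4) : rr w a = 2 := by
  unfold rr
  obtain ⟨k, hk⟩ : ∃ k, w - a = 2 ^ 2 * (2 * k + 1) := ⟨(w - a) / 8, by omega⟩
  rw [hk, padicValNat.mul (by norm_num) (by omega), padicValNat.prime_pow,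
    padicValNat.eq_zero_of_not_dvd (by omega)]

private lemma rr_big {w a n : ℕ} (hn : 1 ≤ n) (h : n ≤ rr w a) :
    2 ^ n ∣ w - a ∧ a < w ∧ n ≤ Nat.log 2 w := by
  unfold rr at h
  have hne : w - a ≠ 0 := by
    intro h0
    rw [h0] at h
    simp at h
    omega
  refine ⟨(padicValNat_dvd_iff_le hne).2 h, by omega, ?_⟩
  calc n ≤ padicValNat 2 (w - a) := h
    _ ≤ Nat.log 2 (w - a) := padicValNat_le_nat_log _
    _ ≤ Nat.log 2 w := Nat.log_mono_right (by omega)

private lemma mod_of_dvd {w a K : ℕ} (h : K ∣ w - a) (ha : a < w) : a % K = w % K :=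
  (Nat.modEq_iff_dvd' ha.le).2 h

private lemma combine {α : Type*} [DecidableEq α] (C G S : Finset α) (h : C ⊆ G ∪ S) :
    C.card ≤ G.card + S.card :=
  (Finset.card_le_card h).trans (Finset.card_union_le _ _)

open scoped Classical in
theorem count_good {w d B : ℕ} (hd : 3 * d ≤ w) (hB : B ≤ d) :
    3 * B ≤ 6 * ((Finset.Icc 1 B).filter fun b => Good w d b).card + d + 12 * Nat.log 2 w + 9 := by
  set L := Nat.log 2 w with hL
  rcases Nat.mod_two_eq_zero_or_one w with hw | hw
  · -- even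
    set r1 := (w / 2 + 2) % 4 with hr1
    set r2 := (w / 2 + 1) % 4 with hr2
    set C1 := (Finset.Icc 1 B).filter fun b => b % 4 = r1 with hC1
    set C2 := (Finset.Icc 1 B).filter fun b => b % 4 = r2 with hC2
    set S := (C1 ∪ C2).filter fun b => ¬ Good w d b with hSdef
    have hc1 : B / 4 ≤ C1.card := card_mod_ge B 4 r1 (by omega)
    have hc2 : B / 4 ≤ C2.card := card_mod_ge B 4 r2 (by omega)
    have hdisj : Disjoint C1 C2 := by
      rw [Finset.disjoint_left]
      intro b h1 h2
      simp only [hC1, hC2, Finset.mem_filter] at h1 h2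
      omega
    have hcU : (C1 ∪ C2).card = C1.card + C2.card := Finset.card_union_of_disjoint hdisj
    have hsplit : (C1 ∪ C2).card ≤ ((Finset.Icc 1 B).filter fun b => Good w d b).card + S.card := by
      apply combine
      intro b hb
      simp only [Finset.mem_union, Finset.mem_filter, hSdef, hC1, hC2] at hb ⊢
      tauto
    have hS : S.card ≤ ∑ i ∈ Finset.range L, 2 * (2 * d / 2 ^ ((i + 2) + 4) + 1) := by
      apply card_union w d L (fun i => i + 2) (fun i a => (a - 2 * (i + 2)) / 2)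
        (fun i a => (a + 2 * (i + 2) - 2) / 2) S
      intro b hb
      simp only [hSdef, Finset.mem_filter, Finset.mem_union, hC1, hC2, Finset.mem_Icc] at hb
      obtain ⟨hbC, hbG⟩ := hb
      have hb1 : 1 ≤ b := by rcases hbC with h | h <;> exact h.1.1
      have hb2 : b ≤ B := by rcases hbC with h | h <;> exact h.1.2
      have hmod : (w - 2 * b) % 8 = 4 ∨ (w - 2 * b) % 8 = 6 := by
        rcases hbC with h | h <;> [have := h.2; have := h.2] <;> omega
      have hsum : rr w (2 * b) + rr w (2 * b + 2) = 3 ∧ rr w (2 * b) ≤ 2 ∧ rr w (2 * b + 2) ≤ 2 := by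
        rcases hmod with h | h
        · rw [rr_two h, rr_one (show (w - (2 * b + 2)) % 4 = 2 by omega)]
          omega
        · rw [rr_one (show (w - 2 * b) % 4 = 2 by omega),
            rr_two (show (w - (2 * b + 2)) % 8 = 4 by omega)]
          omega
      have hex : ∃ a : ℕ, 1 ≤ a ∧ a ≤ 2 * d ∧
          ¬ rr w a ≤ (((a : ℤ) - (2 * b + 1)).natAbs + 1) / 2 + 3 := by
        by_contra hno
        push Not at hno
        apply hbG
        refine ⟨fun h => by omega, fun _ => hsum.1, fun a h1 h2 => hno a h1 h2⟩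
      obtain ⟨a, ha1, ha2, ha3⟩ := hex
      push Not at ha3
      have hbig := rr_big (w := w) (a := a) (n := (((a : ℤ) - (2 * b + 1)).natAbs + 1) / 2 + 4)
        (by omega) (by omega)
      obtain ⟨hdv, haw, hlog⟩ := hbig
      have heven : a % 2 = 0 := by
        have h2 : (2 : ℕ) ∣ w - a := (dvd_pow_self 2 (by omega)).trans hdv
        omega
      rcases le_total a (2 * b) with hle | hle
      · -- `a = 2 b + 2 - 2 y`
        obtain ⟨y, hy⟩ : ∃ y, a + 2 * y = 2 * b + 2 := ⟨(2 * b + 2 - a) / 2, by omega⟩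
        have hyval : (((a : ℤ) - (2 * b + 1)).natAbs + 1) / 2 = y := by omega
        rw [hyval] at hdv hlog ha3
        have hy2 : 2 ≤ y := by
          by_contra hlt
          have : a = 2 * b := by omega
          rw [this] at ha3
          omega
        refine ⟨y - 2, by omega, a, ha1, ha2, ?_, Or.inr ?_⟩
        · have : y - 2 + 2 = y := by omega
          simp only [this]
          exact mod_of_dvd hdv haw
        · show b = (a + 2 * (y - 2 + 2) - 2) / 2
          omega
      · by_cases h2b : a = 2 * b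
        · rw [h2b] at ha3
          omega
        obtain ⟨y, hy⟩ : ∃ y, a = 2 * b + 2 * y := ⟨(a - 2 * b) / 2, by omega⟩
        have hyval : (((a : ℤ) - (2 * b + 1)).natAbs + 1) / 2 = y := by omega
        rw [hyval] at hdv hlog ha3
        have hy2 : 2 ≤ y := by
          by_contra hlt
          have : a = 2 * b + 2 := by omega
          rw [this] at ha3
          omega
        refine ⟨y - 2, by omega, a, ha1, ha2, ?_, Or.inl ?_⟩
        · have : y - 2 + 2 = y := by omega
          simp only [this]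
          exact mod_of_dvd hdv haw
        · show b = (a - 2 * (y - 2 + 2)) / 2
          omega
    have hsumb := sum_even d L
    omega
  · -- odd
    set r1 := (w / 2 + 1) % 2 with hr1
    set C := (Finset.Icc 1 B).filter fun b => b % 2 = r1 with hC
    set S := C.filter fun b => ¬ Good w d b with hSdef
    have hc : B / 2 ≤ C.card := card_mod_ge B 2 r1 (by omega)
    have hsplit : C.card ≤ ((Finset.Icc 1 B).filter fun b => Good w d b).card + S.card := by
      apply combine
      intro b hb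
      simp only [Finset.mem_union, Finset.mem_filter, hSdef, hC] at hb ⊢
      tauto
    have hS : S.card ≤ ∑ i ∈ Finset.range L, 2 * (2 * d / 2 ^ ((2 * i + 1) + 4) + 1) := by
      apply card_union w d L (fun i => 2 * i + 1) (fun i a => (a - 1 - 2 * (2 * i + 1)) / 2)
        (fun i a => (a - 1 + 2 * (2 * i + 1)) / 2) S
      intro b hb
      simp only [hSdef, Finset.mem_filter, hC, Finset.mem_Icc] at hb
      obtain ⟨⟨⟨hb1, hb2⟩, hbC⟩, hbG⟩ := hb
      have hmod : (w - (2 * b + 1)) % 4 = 2 := by omega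
      have hone : rr w (2 * b + 1) = 1 := rr_one hmod
      have hex : ∃ a : ℕ, 1 ≤ a ∧ a ≤ 2 * d ∧
          ¬ rr w a ≤ (((a : ℤ) - (2 * b + 1)).natAbs + 1) / 2 + 3 := by
        by_contra hno
        push Not at hno
        apply hbG
        refine ⟨fun _ => hone, fun h => by omega, fun a h1 h2 => hno a h1 h2⟩
      obtain ⟨a, ha1, ha2, ha3⟩ := hex
      push Not at ha3
      have hbig := rr_big (w := w) (a := a) (n := (((a : ℤ) - (2 * b + 1)).natAbs + 1) / 2 + 4)
        (by omega) (by omega)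
      obtain ⟨hdv, haw, hlog⟩ := hbig
      have hodd : a % 2 = 1 := by
        have h2 : (2 : ℕ) ∣ w - a := (dvd_pow_self 2 (by omega)).trans hdv
        omega
      have hfour : (w - a) % 4 ≠ 2 := by
        intro h
        have := rr_one h
        omega
      rcases le_total a (2 * b + 1) with hle | hle
      · obtain ⟨y, hy⟩ : ∃ y, a + 2 * y = 2 * b + 1 := ⟨(2 * b + 1 - a) / 2, by omega⟩
        have hyval : (((a : ℤ) - (2 * b + 1)).natAbs + 1) / 2 = y := by omega
        rw [hyval] at hdv hlog ha3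
        have hyodd : y % 2 = 1 := by omega
        refine ⟨y / 2, by omega, a, ha1, ha2, ?_, Or.inr ?_⟩
        · have : 2 * (y / 2) + 1 = y := by omega
          simp only [this]
          exact mod_of_dvd hdv haw
        · show b = (a - 1 + 2 * (2 * (y / 2) + 1)) / 2
          omega
      · obtain ⟨y, hy⟩ : ∃ y, a = 2 * b + 1 + 2 * y := ⟨(a - (2 * b + 1)) / 2, by omega⟩
        have hyval : (((a : ℤ) - (2 * b + 1)).natAbs + 1) / 2 = y := by omega
        rw [hyval] at hdv hlog ha3
        have hyodd : y % 2 = 1 := by omega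
        refine ⟨y / 2, by omega, a, ha1, ha2, ?_, Or.inl ?_⟩
        · have : 2 * (y / 2) + 1 = y := by omega
          simp only [this]
          exact mod_of_dvd hdv haw
        · show b = (a - 1 - 2 * (2 * (y / 2) + 1)) / 2
          omega
    have hsumb := sum_odd d L
    omega

end MT2
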