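import Pool.Agent.Lib_MP_bfd926_sq.SQVf

/-!
# The main inequality for good cuts

`e_m - e_n = 2 (m - n) + v3 - 2 ∑_{2n < a < 2m} rr a - rr (2n) - rr (2m)`, so `ineq_gap` says
`e_n + 2 (pG - hx) + 2 (qG - hy) + 1 ≤ e_m`.

Proof. Put `D = m - n`, `S = ∑_{2n-t ≤ a ≤ 2m+s} rr a`; the claim is
`2 S + 1 ≤ 2 D + v3 + rr (2n) + rr (2m) + 2 vf t + 4 t + 2 vf s + 4 s + 2 hx + 2 hy`.
By `sum_rr_le` `S ≤ r + vf A + vf B`, `r = rr a₀`, `A = a₀ - 2n + t`, `B = 2m + s - a₀`,
`vf A = A' + vf A'`, `A' = A / 2`, etc., and `vf A' + vf B' ≤ A' + B' - 1` if `A' + B' ≥ 1`.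
Even `w` (`a₀` may be taken even, all `rr (2 i) ≥ 1`): `A' + B' = D + t' + s'`, `t' = t / 2`,
`s' = s / 2`; it suffices `2 r ≤ 2 vf (3D) - 2 D + 6 t' + 6 s' + 1 + rr (2n) + rr (2m)`.
With `y = (|a₀ - (2b+1)| + 1) / 2`: `r ≤ 2` if `y = 1`, `r ≤ y + 3` otherwise, `y ≤ D + max t' s'`;
if `t' = s' = 0` and `y = D` then `a₀ = 2n` or `a₀ = 2m`. Use `vf 3 = 1`, `vf_three`, `vf_three'`.
Odd `w` (`a₀` odd): `A' + B' = D - 1 + t'' + s''`, `t'' = (t+1)/2`, `s'' = (s+1)/2`. If this is `0`, then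
`S = rr (2b+1) = 1`. Otherwise it suffices
`2 r ≤ v3 - 2 D + 5 + [6 t'' - 6 if t'' ≥ 1] + [6 s'' - 6 if s'' ≥ 1] + 2 hx + 2 hy`, and `6` more if
`t = 2` or `s = 2`. With `a₀ = 2 α + 1`, `y = |α - b|`: `r = 1` if `y` is even, `r ≤ y + 3` if `y` is odd,
`y ≤ D - 1 + max t'' s''`. For `D ≥ 2` the bounds `v3 ≥ 2 vf (3D)` suffice; for `D = 1` (`n = b`,
`m = b + 1`) and `t, s ≤ 1` use `v3_one` if `b + e` is odd, and `hx`, `hy` if `b + e` is even.
-/

namespace MT2

private theorem sqa_zero {w a : ℕ} (h : (w - a) % 2 = 1) : rr w a = 0 := by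
  unfold rr
  apply padicValNat.eq_zero_of_not_dvd
  omega

private theorem sqa_pos {w a : ℕ} (h1 : a < w) (h : (w - a) % 2 = 0) : 1 ≤ rr w a := by
  unfold rr
  exact one_le_padicValNat_of_dvd (by omega) (by omega)

private theorem sqa_one {w a : ℕ} (h : (w - a) % 4 = 2) : rr w a = 1 := by
  unfold rr
  obtain ⟨k, hk⟩ : ∃ k, w - a = 2 * (2 * k + 1) := ⟨(w - a) / 4, by omega⟩
  rw [hk, padicValNat.mul (by norm_num) (by omega), padicValNat.self (by norm_num),
    padicValNat.eq_zero_of_not_dvd (by omega)]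

private theorem sqa_mod {w a : ℕ} (h1 : a < w) (h : rr w a = 1) : (w - a) % 4 = 2 := by
  unfold rr at h
  have h2 : 2 ∣ w - a := by
    have := pow_padicValNat_dvd (p := 2) (n := w - a)
    rw [h] at this
    simpa using this
  have h3 : ¬ 2 ^ 2 ∣ w - a := by
    intro h4
    have := (padicValNat_dvd_iff_le (p := 2) (a := w - a) (n := 2) (by omega)).1 h4
    omega
  omega

private theorem sqa_split {f : ℕ → ℕ} {n m t s : ℕ} (hnm : n < m) :
    ∑ c ∈ Finset.Icc (2 * n - t) (2 * m + s), f c =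
      ∑ c ∈ Finset.Ico (2 * n - t) (2 * n), f c + (f (2 * n) + ∑ c ∈ Finset.Ioo (2 * n) (2 * m), f c +
        f (2 * m)) + ∑ c ∈ Finset.Ioc (2 * m) (2 * m + s), f c := by
  have e1 : Finset.Icc (2 * n - t) (2 * m + s) = Finset.Ico (2 * n - t) (2 * m + s + 1) := by
    ext x
    simp only [Finset.mem_Icc, Finset.mem_Ico]
    omega
  have e2 : Finset.Ioo (2 * n) (2 * m) = Finset.Ico (2 * n + 1) (2 * m) := by
    ext x
    simp only [Finset.mem_Ioo, Finset.mem_Ico]
    omega
  have e3 : Finset.Ioc (2 * m) (2 * m + s) = Finset.Ico (2 * m + 1) (2 * m + s + 1) := by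
    ext x
    simp only [Finset.mem_Ioc, Finset.mem_Ico]
    omega
  rw [e1, e2, e3, ← Finset.sum_Ico_consecutive f (show 2 * n - t ≤ 2 * n by omega)
      (show 2 * n ≤ 2 * m + s + 1 by omega),
    ← Finset.sum_Ico_consecutive f (show 2 * n ≤ 2 * m by omega)
      (show 2 * m ≤ 2 * m + s + 1 by omega),
    Finset.sum_eq_sum_Ico_succ_bot (show 2 * n < 2 * m by omega),
    Finset.sum_eq_sum_Ico_succ_bot (show 2 * m < 2 * m + s + 1 by omega)]
  omega


private theorem sqa_even {R Rn Rm F7 D t' s' b n m α : ℕ} (h1 : m = n + D) (hn : n ≤ b)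
    (hm : b + 1 ≤ m) (hl : n ≤ α + t') (hr : α ≤ m + s') (hR1 : α ≤ b → R + α ≤ b + 4)
    (hR2 : b + 1 ≤ α → R + b ≤ α + 3) (q1 : α = b → R ≤ 2) (q2 : α = b + 1 → R ≤ 2)
    (q3 : α = n → Rn = R) (q4 : α = m → Rm = R) (p1 : 1 ≤ Rn) (p2 : 1 ≤ Rm)
    (q5 : n = b → m = b + 1 → Rn + Rm = 3)
    (hF : (D = 1 ∧ F7 = 1) ∨ (D = 2 ∧ 4 ≤ F7) ∨ (3 ≤ D ∧ 2 * D + 1 ≤ F7)) :
    2 * R + 2 * D ≤ 2 * F7 + 6 * t' + 6 * s' + 1 + Rn + Rm := by
  subst h1
  rcases Nat.lt_or_ge b α with h | h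
  · have h2 := hR2 h
    clear hR2 hR1 q1 q3
    rcases hF with ⟨h3, h4⟩ | ⟨h3, h4⟩ | ⟨h3, h4⟩
    · subst h3
      have h5 := q5 (by omega) (by omega)
      omega
    · omega
    · omega
  · have h2 := hR1 h
    clear hR2 hR1 q2 q4
    rcases hF with ⟨h3, h4⟩ | ⟨h3, h4⟩ | ⟨h3, h4⟩
    · subst h3
      have h5 := q5 (by omega) (by omega)
      omega
    · omega
    · omega


private theorem sqa_odd' {R V D u x b n m α F7 e : ℕ} {ct cs : ℕ} (h1 : m = n + D) (hn : n ≤ b)
    (hm : b + 1 ≤ m) (hl : n ≤ α + u) (hr : α + 1 ≤ m + x)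
    (hR1 : α ≤ b → R + α ≤ b + 3) (hR2 : b ≤ α → R + b ≤ α + 3)
    (q1 : (α + b) % 2 = 0 → R = 1)
    (hF : (D = 1 ∧ F7 = 1) ∨ (D = 2 ∧ 4 ≤ F7) ∨ (3 ≤ D ∧ 2 * D + 1 ≤ F7)) (hV : 2 * F7 ≤ V)
    (hV1 : m = b + 1 → n = b → (b + e) % 2 = 1 → 6 ≤ V)
    (k1 : 1 ≤ u → 4 * u + 6 * u ≤ ct + 6) (k2 : 1 ≤ x → 4 * x + 6 * x ≤ cs + 6)
    (k3 : (n + e) % 2 = 0 → u = 1 → 8 ≤ ct) (k4 : (m + e) % 2 = 1 → x = 1 → 8 ≤ cs) :
    2 * R + 2 * D + 4 * u + 4 * x ≤ V + 5 + ct + cs := by
  subst h1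
  rcases Nat.mod_two_eq_zero_or_one (α + b) with h2 | h2
  · have h3 := q1 h2
    clear q1 hR1 hR2 hV1 k3 k4
    rcases hF with ⟨h4, h5⟩ | ⟨h4, h5⟩ | ⟨h4, h5⟩ <;>
    rcases Nat.eq_zero_or_pos u with h6 | h6 <;>
    rcases Nat.eq_zero_or_pos x with h7 | h7 <;>
    omega
  · have h3 : α ≠ b := by
      rintro rfl
      omega
    clear q1
    rcases Nat.lt_or_ge b α with h8 | h8
    · have h9 := hR2 h8.le
      have h11 : α = b + 1 ∨ b + 3 ≤ α := by omega
      clear hR1 hR2 h2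
      rcases hF with ⟨h4, h5⟩ | ⟨h4, h5⟩ | ⟨h4, h5⟩
      · have e1 : n = b := by omega
        subst e1
        have e2 := hV1 (by omega) rfl
        subst h4
        rcases Nat.mod_two_eq_zero_or_one (n + e) with h10 | h10
        · have k3' := k3 h10
          have k4' := k4 (by omega)
          clear k3 k4 hV1 e2
          rcases Nat.eq_zero_or_pos u with h6 | h6 <;>
          rcases Nat.eq_zero_or_pos x with h7 | h7 <;>
          omega
        · have e3 := e2 h10
          clear k3 k4 hV1 e2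
          rcases Nat.eq_zero_or_pos u with h6 | h6 <;>
          rcases Nat.eq_zero_or_pos x with h7 | h7 <;>
          omega
      · clear hV1 k3 k4
        rcases Nat.eq_zero_or_pos u with h6 | h6 <;>
        rcases Nat.eq_zero_or_pos x with h7 | h7 <;>
        omega
      · clear hV1 k3 k4
        rcases Nat.eq_zero_or_pos u with h6 | h6 <;>
        rcases Nat.eq_zero_or_pos x with h7 | h7 <;>
        omega
    · have h9 := hR1 h8
      have h11 : b = α + 1 ∨ α + 3 ≤ b := by omega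
      clear hR1 hR2 h2
      rcases hF with ⟨h4, h5⟩ | ⟨h4, h5⟩ | ⟨h4, h5⟩
      · have e1 : n = b := by omega
        subst e1
        have e2 := hV1 (by omega) rfl
        subst h4
        rcases Nat.mod_two_eq_zero_or_one (n + e) with h10 | h10
        · have k3' := k3 h10
          have k4' := k4 (by omega)
          clear k3 k4 hV1 e2
          rcases Nat.eq_zero_or_pos u with h6 | h6 <;>
          rcases Nat.eq_zero_or_pos x with h7 | h7 <;>
          omega
        · have e3 := e2 h10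
          clear k3 k4 hV1 e2
          rcases Nat.eq_zero_or_pos u with h6 | h6 <;>
          rcases Nat.eq_zero_or_pos x with h7 | h7 <;>
          omega
      · clear hV1 k3 k4
        rcases Nat.eq_zero_or_pos u with h6 | h6 <;>
        rcases Nat.eq_zero_or_pos x with h7 | h7 <;>
        omega
      · clear hV1 k3 k4
        rcases Nat.eq_zero_or_pos u with h6 | h6 <;>
        rcases Nat.eq_zero_or_pos x with h7 | h7 <;>
        omega

private theorem sqa_odd {R V D t s b n m α F7 hx hy e : ℕ} (h1 : m = n + D) (hn : n ≤ b)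
    (hm : b + 1 ≤ m) (hl : n ≤ α + (t + 1) / 2) (hr : α + 1 ≤ m + (s + 1) / 2)
    (hR1 : α ≤ b → R + α ≤ b + 3) (hR2 : b ≤ α → R + b ≤ α + 3)
    (q1 : (α + b) % 2 = 0 → R = 1)
    (hF : (D = 1 ∧ F7 = 1) ∨ (D = 2 ∧ 4 ≤ F7) ∨ (3 ≤ D ∧ 2 * D + 1 ≤ F7)) (hV : 2 * F7 ≤ V)
    (hV1 : m = b + 1 → n = b → (b + e) % 2 = 1 → 6 ≤ V)
    (k1 : (n + e) % 2 = 0 → t = 1 → hx = 2) (k2 : (m + e) % 2 = 1 → s = 1 → hy = 2) :
    2 * R + 2 * D + 4 * ((t + 1) / 2) + 4 * ((s + 1) / 2) ≤
      V + 5 + (4 * t + 2 * (t / 2) + 2 * hx) + (4 * s + 2 * (s / 2) + 2 * hy) := by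
  refine sqa_odd' h1 hn hm hl hr hR1 hR2 q1 hF hV hV1 ?_ ?_ ?_ ?_
  · intro h
    rcases Nat.even_or_odd' t with ⟨c, rfl | rfl⟩ <;> omega
  · intro h
    rcases Nat.even_or_odd' s with ⟨c, rfl | rfl⟩ <;> omega
  · intro h h'
    rcases Nat.even_or_odd' t with ⟨c, rfl | rfl⟩
    · omega
    · have := k1 h (by omega)
      omega
  · intro h h'
    rcases Nat.even_or_odd' s with ⟨c, rfl | rfl⟩
    · omega
    · have := k2 h (by omega)
      omega

private theorem sqa_half {x : ℕ} : (1 ≤ x / 2 ∧ vf x + 1 ≤ 2 * (x / 2)) ∨ (x / 2 = 0 ∧ vf x = 0) := by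
  have h1 := vf_half x
  rcases Nat.eq_zero_or_pos (x / 2) with h | h
  · right
    rw [h, vf_zero] at h1
    exact ⟨h, by omega⟩
  · left
    have := vf_lt h
    exact ⟨h, by omega⟩

theorem ineq_gap {e w d b n m t s : ℕ} (he : e ≤ 1) (hd : 3 * d + e ≤ w) (hb : Good w d b)
    (hn : 1 ≤ n) (hnb : n ≤ b) (hbm : b < m) (hm : m ≤ d) (ht : t < n) (hs : m + s ≤ d) :
    2 * (pG w n t - hx e w n t) + 2 * (qG w m s - hy e w m s) + 1 +
        2 * (∑ a ∈ Finset.Ioo (2 * n) (2 * m), (rr w a : ℤ)) + rr w (2 * n) + rr w (2 * m) ≤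
      2 * ((m : ℤ) - n) + v3 e w n (m - n) := by
  obtain ⟨hg1, hg2, hg3⟩ := hb
  obtain ⟨a, ha1, ha2, ha3, ha4⟩ := sum_rr_le (w := w) (lo := 2 * n - t) (hi := 2 * m + s)
    (by omega) (by omega)
  rw [sqa_split (by omega)] at ha4
  obtain ⟨D, hD⟩ : ∃ D, D = m - n := ⟨_, rfl⟩
  have hmD : m = n + D := by omega
  have hv := v3_ge (e := e) (w := w) (n := n) (D := m - n) he (by omega)
  have hra := hg3 a (by omega) (by omega)
  have A1 := sqa_half (x := a - (2 * n - t))
  have A2 := sqa_half (x := 2 * m + s - a)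
  have A5 : t / 2 ≤ vf t := by rw [vf_half t]; exact Nat.le_add_right _ _
  have A6 : s / 2 ≤ vf s := by rw [vf_half s]; exact Nat.le_add_right _ _
  have hD1 : (D = 1 ∧ vf (3 * D) = 1) ∨ (D = 2 ∧ 4 ≤ vf (3 * D)) ∨
      (3 ≤ D ∧ 2 * D + 1 ≤ vf (3 * D)) := by
    rcases Nat.lt_or_ge D 3 with h | h
    · rcases Nat.lt_or_ge D 2 with h' | h'
      · left
        have : D = 1 := by omega
        rw [this]
        exact ⟨rfl, vf_one_three⟩
      · right; left
        have h2 : D = 2 := by omega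
        have := vf_three h'
        rw [h2] at this ⊢
        exact ⟨rfl, this⟩
    · right; right
      exact ⟨h, vf_three' h⟩
  have key : 2 * (∑ c ∈ Finset.Ico (2 * n - t) (2 * n), rr w c +
        (rr w (2 * n) + ∑ c ∈ Finset.Ioo (2 * n) (2 * m), rr w c + rr w (2 * m)) +
        ∑ c ∈ Finset.Ioc (2 * m) (2 * m + s), rr w c) + 1 ≤
      2 * D + v3 e w n D + rr w (2 * n) + rr w (2 * m) + 2 * vf t + 4 * t + 2 * vf s + 4 * s +
        2 * (hx e w n t).toNat + 2 * (hy e w m s).toNat := by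
    rw [← hD] at hv
    generalize ∑ c ∈ Finset.Ico (2 * n - t) (2 * n), rr w c +
        (rr w (2 * n) + ∑ c ∈ Finset.Ioo (2 * n) (2 * m), rr w c + rr w (2 * m)) +
        ∑ c ∈ Finset.Ioc (2 * m) (2 * m + s), rr w c = S at ha4 ⊢
    rcases Nat.mod_two_eq_zero_or_one w with hw | hw
    · have h2 := hg2 hw
      have p1 := sqa_pos (w := w) (a := 2 * n) (by omega) (by omega)
      have p2 := sqa_pos (w := w) (a := 2 * m) (by omega) (by omega)
      have p3 := ha3 (2 * n) (by omega) (by omega)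
      have hae : a % 2 = 0 := by
        by_contra h
        have := sqa_zero (w := w) (a := a) (by omega)
        omega
      obtain ⟨α, hα⟩ : ∃ α, a = 2 * α := ⟨a / 2, by omega⟩
      have q := sqa_even (R := rr w a) (Rn := rr w (2 * n)) (Rm := rr w (2 * m))
        (F7 := vf (3 * D)) (D := D) (t' := t / 2) (s' := s / 2) (b := b) (n := n) (m := m) (α := α)
        hmD hnb hbm (by omega) (by omega) (by omega) (by omega)
        (by
          intro h
          have := sqa_pos (w := w) (a := 2 * b + 2) (by omega) (by omega)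
          rw [hα, h]
          omega)
        (by
          intro h
          have := sqa_pos (w := w) (a := 2 * b) (by omega) (by omega)
          rw [hα, h]
          have e1 : 2 * (b + 1) = 2 * b + 2 := by ring
          rw [e1]
          omega)
        (by intro h; rw [hα, h]) (by intro h; rw [hα, h]) p1 p2
        (by
          intro h3 h4
          have e1 : 2 * (b + 1) = 2 * b + 2 := by ring
          rw [h3, h4, e1]
          exact h2) hD1
      generalize rr w a = R at ha4 q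
      generalize rr w (2 * n) = Rn at q ⊢
      generalize rr w (2 * m) = Rm at q ⊢
      generalize vf (a - (2 * n - t)) = F1 at A1 ha4
      generalize vf (2 * m + s - a) = F2 at A2 ha4
      have e1 : (a - (2 * n - t)) / 2 + (2 * m + s - a) / 2 = D + t / 2 + s / 2 := by omega
      have e2 : 1 ≤ D := by omega
      have e3 : F1 + F2 + 1 ≤ 2 * (D + t / 2 + s / 2) := by omega
      have e4 : 4 * (t / 2) ≤ 2 * t := by omega
      have e5 : 4 * (s / 2) ≤ 2 * s := by omega
      omega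
    · have h2 := hg1 hw
      have p1 := sqa_pos (w := w) (a := 2 * n + 1) (by omega) (by omega)
      have p3 := ha3 (2 * n + 1) (by omega) (by omega)
      have hae : a % 2 = 1 := by
        by_contra h
        have := sqa_zero (w := w) (a := a) (by omega)
        omega
      obtain ⟨α, hα⟩ : ∃ α, a = 2 * α + 1 := ⟨a / 2, by omega⟩
      have hw4 := sqa_mod (w := w) (a := 2 * b + 1) (by omega) h2
      have q := sqa_odd (R := rr w a) (V := v3 e w n D) (D := D) (t := t) (s := s) (b := b) (n := n)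
        (m := m) (α := α) (F7 := vf (3 * D)) (hx := (hx e w n t).toNat) (hy := (hy e w m s).toNat)
        (e := e) hmD hnb hbm (by omega) (by omega) (by omega) (by omega)
        (by
          intro h
          apply sqa_one
          omega)
        hD1 hv
        (by
          intro h3 h4 h5
          have h6 : D = 1 := by omega
          rw [h6]
          exact v3_one he (by omega) hw (by omega))
        (by
          intro h3 h4
          unfold hx
          rw [if_pos ⟨hw, h3, h4⟩]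
          rfl)
        (by
          intro h3 h4
          unfold hy
          rw [if_pos ⟨hw, h3, h4⟩]
          rfl)
      have r1 : n = b → m = b + 1 → α = b → rr w a = 1 := by
        intro _ _ h
        rw [hα, h]
        exact h2
      generalize rr w a = R at ha4 q r1
      generalize vf (a - (2 * n - t)) = F1 at A1 ha4
      generalize vf (2 * m + s - a) = F2 at A2 ha4
      generalize (hx e w n t).toNat = HX at q ⊢
      generalize (hy e w m s).toNat = HY at q ⊢
      have e1 : (a - (2 * n - t)) / 2 + (2 * m + s - a) / 2 + 1 = D + (t + 1) / 2 + (s + 1) / 2 := by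
        omega
      have e2 : 1 ≤ D := by omega
      have e3 : F1 + F2 + 3 ≤ 2 * (D + (t + 1) / 2 + (s + 1) / 2) ∨
          (D = 1 ∧ t = 0 ∧ s = 0 ∧ F1 = 0 ∧ F2 = 0) := by omega
      have e4 : 2 ≤ v3 e w n D := by omega
      rcases e3 with e3 | ⟨e3, e5, e6, e7, e8⟩
      · omega
      · have := r1 (by omega) (by omega) (by omega)
        omega
  have hhx : 0 ≤ hx e w n t := by
    unfold hx
    split_ifs <;> norm_num
  have hhy : 0 ≤ hy e w m s := by
    unfold hy
    split_ifs <;> norm_num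
  unfold pG qG
  rw [← hD]
  zify at key
  rw [Int.toNat_of_nonneg hhx, Int.toNat_of_nonneg hhy] at key
  have e9 : (m : ℤ) - n = D := by omega
  rw [e9]
  linarith

end MT2
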