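import Pool.Agent.Lib_MP_bfd926_sq.SQVf

/-!
# The inequalities for the off-diagonal blocks

`ineq_off`: with `S = ∑_{2n-t ≤ a ≤ 2n+s} rr a` the claim is (`hx`, `hy` are not needed)
`S - rr (2n) + 1 ≤ 2 t + 2 s + vf t + vf s`. By `sum_rr_le` `S ≤ r + vf A + vf B`, `A = a₀ - 2n + t`,
`B = 2n + s - a₀`.
Even `w`: `A/2 + B/2 = t' + s'` (`t' = t/2`, `s' = s/2 ≥ 1`), so it suffices
`r ≤ 3 t' + 3 s' + 1` (`+ 2` if `s` is odd). `y = (|a₀ - (2b+1)| + 1) / 2`; right of the centre
`y ≤ s'`, left of the centre `y ≤ b + 1 - n + t'`, `b - n ≤ s - 2`, and `r ≤ y + 3`.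
Odd `w`: `A/2 + B/2 = t'' + s'' - 1` (`t'' = (t+1)/2`, `s'' = (s+1)/2 ≥ 1`); if it is `0` then `t = 0`,
`s = 2`, `n = b` and `S ≤ 3`; otherwise it suffices
`r ≤ [3 t'' - 3 if t'' ≥ 1] + (3 s'' - 3 if s is odd, 3 s'' if s is even) + 2`. `a₀ = 2 α + 1`,
`y = |α - b|`, `r ≤ y + 3`; right: `y ≤ s'' - 1`, left: `y ≤ b - n + t''`, `b - n ≤ s - 2`.
`ineq_col`: `∑_{2b+2-t ≤ a ≤ 2b+1} rr a ≤ vf t + 2 t - 1`, similarly.
-/

namespace MT2

private theorem sqb_odd {w a : ℕ} (h : (w - a) % 2 = 1) : rr w a = 0 := by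
  unfold rr
  apply padicValNat.eq_zero_of_not_dvd
  omega

private theorem sqb_even {w a : ℕ} (ha : a < w) (h : (w - a) % 2 = 0) : 1 ≤ rr w a := by
  unfold rr
  rw [← padicValNat_dvd_iff_le (by omega), pow_one]
  omega

private theorem sqb_split (w n t s : ℕ) :
    ∑ a ∈ Finset.Icc (2 * n - t) (2 * n + s), rr w a =
      ∑ a ∈ Finset.Ico (2 * n - t) (2 * n), rr w a + rr w (2 * n) +
        ∑ a ∈ Finset.Ioc (2 * n) (2 * n + s), rr w a := by
  have hsplit : Finset.Icc (2 * n - t) (2 * n + s) =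
      (Finset.Ico (2 * n - t) (2 * n) ∪ {2 * n}) ∪ Finset.Ioc (2 * n) (2 * n + s) := by
    ext c
    simp only [Finset.mem_Icc, Finset.mem_union, Finset.mem_Ico, Finset.mem_singleton,
      Finset.mem_Ioc]
    omega
  rw [hsplit, Finset.sum_union, Finset.sum_union, Finset.sum_singleton]
  · rw [Finset.disjoint_left]
    intro c hc hc'
    simp only [Finset.mem_Ico, Finset.mem_singleton] at hc hc'
    omega
  · rw [Finset.disjoint_left]
    intro c hc hc'
    simp only [Finset.mem_union, Finset.mem_Ico, Finset.mem_singleton, Finset.mem_Ioc] at hc hc'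
    omega

private theorem sqb_vf_pred (x : ℕ) : (x = 0 ∧ vf x = 0) ∨ (1 ≤ x ∧ vf x + 1 ≤ x) := by
  rcases Nat.eq_zero_or_pos x with h | h
  · left
    exact ⟨h, by rw [h]; exact vf_zero⟩
  · right
    exact ⟨h, vf_lt h⟩

theorem ineq_off {e w d b n t s : ℕ} (he : e ≤ 1) (hd : 3 * d + e ≤ w) (hb : Good w d b)
    (hn : 1 ≤ n) (hnb : n ≤ b) (ht : t < n) (hs : n + s ≤ d) (hbs : b + 2 ≤ n + s) :
    (pG w n t - hx e w n t) + (qG w n s - hy e w n s) ≤ -1 := by
  have h1 : 0 ≤ hx e w n t := by unfold hx; split_ifs <;> norm_num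
  have h2 : 0 ≤ hy e w n s := by unfold hy; split_ifs <;> norm_num
  obtain ⟨a, ha1, ha2, hmax, hS⟩ := sum_rr_le (w := w) (lo := 2 * n - t) (hi := 2 * n + s)
    (by omega) (by omega)
  rw [sqb_split] at hS
  have hr := hb.2.2 a (by omega) (by omega)
  have hvA := vf_half (a - (2 * n - t))
  have hvB := vf_half (2 * n + s - a)
  have hA := sqb_vf_pred ((a - (2 * n - t)) / 2)
  have hB := sqb_vf_pred ((2 * n + s - a) / 2)
  have hvt := vf_half t
  have hvs := vf_half s
  have hpar : (w - a) % 2 = 0 := by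
    by_contra hc
    have h0 := sqb_odd (w := w) (a := a) (by omega)
    rcases Nat.mod_two_eq_zero_or_one w with hw | hw
    · have h3 := sqb_even (w := w) (a := 2 * n) (by omega) (by omega)
      have h4 := hmax (2 * n) (by omega) (by omega)
      omega
    · have h3 := sqb_even (w := w) (a := 2 * n + 1) (by omega) (by omega)
      have h4 := hmax (2 * n + 1) (by omega) (by omega)
      omega
  have e1 : (∑ c ∈ Finset.Ico (2 * n - t) (2 * n), (rr w c : ℤ)) =
      ((∑ c ∈ Finset.Ico (2 * n - t) (2 * n), rr w c : ℕ) : ℤ) := by push_cast; rfl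
  have e2 : (∑ c ∈ Finset.Ioc (2 * n) (2 * n + s), (rr w c : ℤ)) =
      ((∑ c ∈ Finset.Ioc (2 * n) (2 * n + s), rr w c : ℕ) : ℤ) := by push_cast; rfl
  unfold pG qG
  rw [e1, e2]
  generalize (∑ c ∈ Finset.Ico (2 * n - t) (2 * n), rr w c) = S1 at *
  generalize (∑ c ∈ Finset.Ioc (2 * n) (2 * n + s), rr w c) = S2 at *
  rcases Nat.mod_two_eq_zero_or_one w with hw | hw
  · have h3 := sqb_even (w := w) (a := 2 * n) (by omega) (by omega)
    omega
  · omega

theorem ineq_col {e w d b t : ℕ} (he : e ≤ 1) (hd : 3 * d + e ≤ w) (hb : Good w d b)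
    (hbd : b + 1 ≤ d) (ht : 1 ≤ t) (htb : t ≤ b) : pG w (b + 1) t ≤ -1 := by
  obtain ⟨a, ha1, ha2, hmax, hS⟩ := sum_rr_le (w := w) (lo := 2 * (b + 1) - t)
    (hi := 2 * b + 1) (by omega) (by omega)
  have hr := hb.2.2 a (by omega) (by omega)
  have hvA := vf_half (a - (2 * (b + 1) - t))
  have hvB := vf_half (2 * b + 1 - a)
  have hA := sqb_vf_pred ((a - (2 * (b + 1) - t)) / 2)
  have hB := sqb_vf_pred ((2 * b + 1 - a) / 2)
  have hvt := vf_half t
  have e0 : Finset.Ico (2 * (b + 1) - t) (2 * (b + 1)) =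
      Finset.Icc (2 * (b + 1) - t) (2 * b + 1) := by
    ext c
    simp only [Finset.mem_Icc, Finset.mem_Ico]
    omega
  have e1 : (∑ c ∈ Finset.Ico (2 * (b + 1) - t) (2 * (b + 1)), (rr w c : ℤ)) =
      ((∑ c ∈ Finset.Icc (2 * (b + 1) - t) (2 * b + 1), rr w c : ℕ) : ℤ) := by
    rw [e0]; push_cast; rfl
  unfold pG
  rw [e1]
  generalize (∑ c ∈ Finset.Icc (2 * (b + 1) - t) (2 * b + 1), rr w c) = S1 at *
  rcases Nat.mod_two_eq_zero_or_one w with hw | hw
  · by_cases h1 : t = 1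
    · subst h1
      have h0 := sqb_odd (w := w) (a := a) (by omega)
      omega
    · have h3 := sqb_even (w := w) (a := 2 * b) (by omega) (by omega)
      have h4 := hmax (2 * b) (by omega) (by omega)
      have hpar : (w - a) % 2 = 0 := by
        by_contra hc
        have h0 := sqb_odd (w := w) (a := a) (by omega)
        omega
      omega
  · have h3 := hb.1 hw
    have h4 := hmax (2 * b + 1) (by omega) (by omega)
    have hpar : (w - a) % 2 = 0 := by
      by_contra hc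
      have h0 := sqb_odd (w := w) (a := a) (by omega)
      omega
    by_cases h5 : a = 2 * b + 1
    · rw [← h5] at h3
      omega
    · omega

end MT2
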