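import Pool.Agent.Lib_MP_bfd926_sq.SQDefs
import Pool.Agent.Lib_MP_bfd926_sq.SQIneqA
import Pool.Agent.Lib_MP_bfd926_sq.SQIneqB

/-!
# Good cuts satisfy the conditions of `CutOK`

`vf x + ds x = x` (Legendre), `vf x = vf (x - L) + ∑_{u < L} v (x - u)`. So
`vc (w - 2n) t = ∑_{2n-t ≤ a < 2n} rr a - vf t`, `vc (w - 2m - 1 - s) s = ∑_{2m < a ≤ 2m+s} rr a - vf s`,
that is `pX = pG - hx`, `qU = qG - hy`, and
`ph m = ph n + 2 (m - n) + v3 - 2 ∑_{2n < a < 2m} rr a - rr (2n) - rr (2m)`.
-/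

namespace MT2

private theorem sqc_ds (x : ℕ) : vf x + ds x = x := by
  unfold vf ds
  have h := sub_one_mul_padicValNat_factorial (p := 2) x
  have h2 : (Nat.digits 2 x).sum ≤ x := Nat.digit_sum_le 2 x
  omega

private theorem sqc_vf_sub {x L : ℕ} (h : L ≤ x) :
    vf x = vf (x - L) + ∑ u ∈ Finset.range L, padicValNat 2 (x - u) := by
  induction L with
  | zero => simp
  | succ L ih =>
    rw [Finset.sum_range_succ, ih (by omega)]
    have h1 : x - L = (x - (L + 1)) + 1 := by omega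
    have h2 : vf (x - L) = padicValNat 2 (x - L) + vf (x - (L + 1)) := by
      unfold vf
      rw [h1, Nat.factorial_succ, padicValNat.mul (by omega) (Nat.factorial_ne_zero _)]
    rw [h2]
    omega

private theorem sqc_vc (a t : ℕ) :
    vc a t + vf t = ∑ u ∈ Finset.range t, padicValNat 2 (a + t - u) := by
  have h1 : Nat.choose (a + t) t * t.factorial * a.factorial = (a + t).factorial := by
    have := Nat.add_choose_mul_factorial_mul_factorial a t
    rw [← this]
    ring
  have h2 : vc a t + vf t + vf a = vf (a + t) := by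
    unfold vc vf
    rw [← padicValNat.mul (Nat.choose_pos (by omega)).ne' (Nat.factorial_ne_zero _),
      ← padicValNat.mul (by
        have := Nat.choose_pos (show t ≤ a + t by omega)
        positivity) (Nat.factorial_ne_zero _), h1]
  have h3 := sqc_vf_sub (x := a + t) (L := t) (by omega)
  rw [Nat.add_sub_cancel] at h3
  omega

private theorem sqc_pX {e w n t : ℕ} (ht : t < n) (hw : 2 * n < w) :
    pX e w n t = pG w n t - hx e w n t := by
  have h := sqc_vc (w - 2 * n) t
  have h2 : ∑ u ∈ Finset.range t, padicValNat 2 (w - 2 * n + t - u) =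
      ∑ a ∈ Finset.Ico (2 * n - t) (2 * n), rr w a := by
    rw [Finset.sum_Ico_eq_sum_range]
    have h3 : 2 * n - (2 * n - t) = t := by omega
    rw [h3]
    refine Finset.sum_congr rfl fun u hu => ?_
    rw [Finset.mem_range] at hu
    unfold rr
    congr 1
    omega
  rw [h2] at h
  unfold pX pG hx
  zify at h
  linarith

private theorem sqc_qU {e w m s : ℕ} (hw : 2 * m + s + 1 ≤ w) :
    qU e w m s = qG w m s - hy e w m s := by
  have h := sqc_vc (w - 2 * m - 1 - s) s
  have h2 : ∑ u ∈ Finset.range s, padicValNat 2 (w - 2 * m - 1 - s + s - u) =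
      ∑ a ∈ Finset.Ioc (2 * m) (2 * m + s), rr w a := by
    have e1 : Finset.Ioc (2 * m) (2 * m + s) = Finset.Ico (2 * m + 1) (2 * m + 1 + s) := by
      ext x
      simp only [Finset.mem_Ioc, Finset.mem_Ico]
      omega
    rw [e1, Finset.sum_Ico_eq_sum_range]
    have h3 : 2 * m + 1 + s - (2 * m + 1) = s := by omega
    rw [h3]
    refine Finset.sum_congr rfl fun u hu => ?_
    rw [Finset.mem_range] at hu
    unfold rr
    congr 1
    omega
  rw [h2] at h
  unfold qU qG hy
  zify at h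
  linarith

private theorem sqc_rr (w n D : ℕ) :
    ∑ u ∈ Finset.range (2 * D), padicValNat 2 (w - 2 * n - u) =
      ∑ a ∈ Finset.Ico (2 * n) (2 * (n + D)), rr w a := by
  rw [Finset.sum_Ico_eq_sum_range]
  have h3 : 2 * (n + D) - 2 * n = 2 * D := by omega
  rw [h3]
  refine Finset.sum_congr rfl fun u hu => ?_
  unfold rr
  congr 1
  omega

private theorem sqc_rr' (w n D : ℕ) :
    ∑ u ∈ Finset.range (2 * D), padicValNat 2 (w - 2 * n - 1 - u) =
      ∑ a ∈ Finset.Ioc (2 * n) (2 * (n + D)), rr w a := by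
  have e1 : Finset.Ioc (2 * n) (2 * (n + D)) = Finset.Ico (2 * n + 1) (2 * n + 1 + 2 * D) := by
    ext x
    simp only [Finset.mem_Ioc, Finset.mem_Ico]
    omega
  rw [e1, Finset.sum_Ico_eq_sum_range]
  have h3 : 2 * n + 1 + 2 * D - (2 * n + 1) = 2 * D := by omega
  rw [h3]
  refine Finset.sum_congr rfl fun u hu => ?_
  unfold rr
  congr 1
  omega

/-- The difference formula. -/
private theorem sqc_ph_diff {e w n m : ℕ} (he : e ≤ 1) (hnm : n < m) (hm : 3 * m + e ≤ w) :
    ph e w m + 2 * (∑ a ∈ Finset.Ioo (2 * n) (2 * m), (rr w a : ℤ)) + rr w (2 * n) +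
        rr w (2 * m) = ph e w n + 2 * ((m : ℤ) - n) + v3 e w n (m - n) := by
  obtain ⟨D, rfl⟩ := Nat.exists_eq_add_of_lt hnm
  obtain ⟨E, hE⟩ : ∃ E, E = D + 1 := ⟨_, rfl⟩
  have hmE : n + D + 1 = n + E := by omega
  rw [hmE] at hm ⊢
  have hE1 : 1 ≤ E := by omega
  have d1 := sqc_ds (w - 3 * n - e)
  have d2 := sqc_ds (2 * w - 3 * n - 1 + e)
  have d3 := sqc_ds (w - 2 * n)
  have d4 := sqc_ds (w - 2 * n - 1)
  have d5 := sqc_ds (w - 3 * (n + E) - e)
  have d6 := sqc_ds (2 * w - 3 * (n + E) - 1 + e)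
  have d7 := sqc_ds (w - 2 * (n + E))
  have d8 := sqc_ds (w - 2 * (n + E) - 1)
  have f1 := sqc_vf_sub (x := w - 3 * n - e) (L := 3 * E) (by omega)
  have f2 := sqc_vf_sub (x := 2 * w - 3 * n - 1 + e) (L := 3 * E) (by omega)
  have f3 := sqc_vf_sub (x := w - 2 * n) (L := 2 * E) (by omega)
  have f4 := sqc_vf_sub (x := w - 2 * n - 1) (L := 2 * E) (by omega)
  rw [show w - 3 * n - e - 3 * E = w - 3 * (n + E) - e by omega] at f1
  rw [show 2 * w - 3 * n - 1 + e - 3 * E = 2 * w - 3 * (n + E) - 1 + e by omega] at f2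
  rw [show w - 2 * n - 2 * E = w - 2 * (n + E) by omega, sqc_rr] at f3
  rw [show w - 2 * n - 1 - 2 * E = w - 2 * (n + E) - 1 by omega, sqc_rr'] at f4
  have g1 : v3 e w n (n + E - n) =
      ∑ u ∈ Finset.range (3 * E), padicValNat 2 (w - 3 * n - e - u) +
        ∑ u ∈ Finset.range (3 * E), padicValNat 2 (2 * w - 3 * n - 1 + e - u) := by
    unfold v3
    rw [Nat.add_sub_cancel_left, ← Finset.sum_add_distrib]
    refine Finset.sum_congr rfl fun u hu => ?_
    rw [Finset.mem_range] at hu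
    congr 2 <;> omega
  have g2 : ∑ a ∈ Finset.Ico (2 * n) (2 * (n + E)), rr w a =
      rr w (2 * n) + ∑ a ∈ Finset.Ioo (2 * n) (2 * (n + E)), rr w a := by
    rw [Finset.sum_eq_sum_Ico_succ_bot (by omega)]
    congr 1
  have g3 : ∑ a ∈ Finset.Ioc (2 * n) (2 * (n + E)), rr w a =
      ∑ a ∈ Finset.Ioo (2 * n) (2 * (n + E)), rr w a + rr w (2 * (n + E)) := by
    have e1 : Finset.Ioc (2 * n) (2 * (n + E)) = insert (2 * (n + E)) (Finset.Ioo (2 * n) (2 * (n + E))) := by
      ext x
      simp only [Finset.mem_Ioc, Finset.mem_insert, Finset.mem_Ioo]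
      omega
    rw [e1, Finset.sum_insert (by simp), add_comm]
  rw [g1]
  unfold ph
  rw [g2] at f3
  rw [g3] at f4
  zify at d1 d2 d3 d4 d5 d6 d7 d8 f1 f2 f3 f4
  push_cast
  generalize (∑ u ∈ Finset.range (3 * E), (padicValNat 2 (w - 3 * n - e - u) : ℤ)) = P1 at f1 ⊢
  generalize (∑ u ∈ Finset.range (3 * E), (padicValNat 2 (2 * w - 3 * n - 1 + e - u) : ℤ)) = P2 at f2 ⊢
  generalize (∑ a ∈ Finset.Ioo (2 * n) (2 * (n + E)), (rr w a : ℤ)) = P3 at f3 f4 ⊢
  generalize vf (w - 3 * n - e) = x1 at *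
  generalize vf (2 * w - 3 * n - 1 + e) = x2 at *
  generalize vf (w - 2 * n) = x3 at *
  generalize vf (w - 2 * n - 1) = x4 at *
  generalize vf (w - 3 * (n + E) - e) = x5 at *
  generalize vf (2 * w - 3 * (n + E) - 1 + e) = x6 at *
  generalize vf (w - 2 * (n + E)) = x7 at *
  generalize vf (w - 2 * (n + E) - 1) = x8 at *
  generalize ds (w - 3 * n - e) = y1 at *
  generalize ds (2 * w - 3 * n - 1 + e) = y2 at *
  generalize ds (w - 2 * n) = y3 at *
  generalize ds (w - 2 * n - 1) = y4 at *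
  generalize ds (w - 3 * (n + E) - e) = y5 at *
  generalize ds (2 * w - 3 * (n + E) - 1 + e) = y6 at *
  generalize ds (w - 2 * (n + E)) = y7 at *
  generalize ds (w - 2 * (n + E) - 1) = y8 at *
  clear g1 g2 g3
  omega

theorem good_cut {e w d b : ℕ} (he : e ≤ 1) (hd : 3 * d + e ≤ w) (hb : Good w d b)
    (hbd : b + 1 ≤ d) : CutOK e w d b := by
  constructor
  · intro n t m s hn ht hm hs
    have h1 := ineq_gap (t := t) (s := s) he hd hb (by omega : 1 ≤ n) hn hm (by omega) ht hs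
    have h2 := sqc_ph_diff (e := e) (w := w) (n := n) (m := m) he (by omega) (by omega)
    rw [sqc_pX ht (by omega), sqc_qU (by omega)]
    linarith
  · intro n t s hn ht hs hsd
    rw [sqc_pX ht (by omega), sqc_qU (by omega)]
    exact ineq_off he hd hb (by omega) hn ht hsd hs
  · intro t ht htb
    rw [sqc_pX (by omega) (by omega)]
    have h1 := ineq_col he hd hb hbd ht htb
    have h2 : 0 ≤ hx e w (b + 1) t := by
      unfold hx
      split_ifs <;> norm_num
    linarith

end MT2
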