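import Pool.Agent.Lib_MP_bfd926_sq.SDefs

/-!
# The matrix of `T₂`, second layer: definitions

`k = 4 * w + 2 * e`, `d = (w - e) / 3`, indices `1, …, d`.

* `ds n`: the binary digit sum.
* `vc a t`: the number of carries of `a + t` in base two, `v₂(C(a + t, t))`.
* `ph e w n`: the 2-adic valuation of `16 ^ n * DE e w n` (the scaled pivot).
* `pX e w n t`: minus a lower bound of the valuations of the scaled entries
  `4 ^ t * XE e w (n - t) n`, `4 ^ t * YE e w n (n - t)` (`vc (w - 2 n) t - 2 t`, minus 2 if `w` is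
  odd, `n + e` even and `t = 1`).
* `qU e w m s`: the same for `4 ^ s * LE e w (m + s) m`, `4 ^ s * UE e w m (m + s)`
  (`vc (w - 2 m - 1 - s) s - 2 s`, minus 2 if `w` is odd, `m + e` odd and `s = 1`).
* `XE e w l n`: the coordinate `l` of the right vector with the index `n`, both `e`.
* `YE e w n i`: the coordinate `i` of the normalised left vector with the index `n`, both `e`.
* `DE e w n`: the pivots, both `e`.
* `LE e w m n`, `UE e w n m`: the inverse matrices of `YE`, `XE`: `NE = LE * DE * UE`.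
* `CutOK e w d b`: the conditions on a strict cut.
-/

namespace MT2

/-- The binary digit sum. -/
def ds (n : ℕ) : ℕ := (Nat.digits 2 n).sum

/-- The number of carries of the addition `a + t` in base two. -/
def vc (a t : ℕ) : ℕ := padicValNat 2 (Nat.choose (a + t) t)

/-- The valuation of `16 ^ n * DE e w n`. -/
def ph (e w n : ℕ) : ℤ :=
  4 * n + e + ds (w - 3 * n - e) + ds (2 * w - 3 * n - 1 + e) - ds (w - 2 * n) -
    ds (w - 2 * n - 1)

/-- The bound for the entries of `XE` and `YE`. -/
def pX (e w n t : ℕ) : ℤ :=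
  vc (w - 2 * n) t - 2 * t - (if w % 2 = 1 ∧ (n + e) % 2 = 0 ∧ t = 1 then 2 else 0)

/-- The bound for the entries of `LE` and `UE`. -/
def qU (e w m s : ℕ) : ℤ :=
  vc (w - 2 * m - 1 - s) s - 2 * s - (if w % 2 = 1 ∧ (m + e) % 2 = 1 ∧ s = 1 then 2 else 0)

/-- The conditions on a strict cut. -/
structure CutOK (e w d b : ℕ) : Prop where
  h1 : ∀ n t m s, n ≤ b → t < n → b < m → m + s ≤ d →
    ph e w n + 2 * pX e w n t + 2 * qU e w m s + 1 ≤ ph e w m
  h2 : ∀ n t s, n ≤ b → t < n → b + 2 ≤ n + s → n + s ≤ d → pX e w n t + qU e w n s ≤ -1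
  h3 : ∀ t, 1 ≤ t → t ≤ b → pX e w (b + 1) t ≤ -1

/-- The right vectors: coordinate `l` of the vector with the index `n`. -/
noncomputable def XE (e w l n : ℕ) : ℚ :=
  if e = 0 then xv w n l else (2 * w - 3 * l) / (2 * w - 3 * n) * xv w n l

/-- The normalised left vectors: coordinate `i` of the row with the index `n`. -/
noncomputable def YE (e w n i : ℕ) : ℚ :=
  if e = 0 then lv w n i / lv w n n
  else ((w : ℚ) - 3 * n) / (w - 3 * i) * (lv w n i / lv w n n)

/-- The pivots. -/
noncomputable def DE (e w n : ℕ) : ℚ :=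
  if e = 0 then del w n else 2 * (w - 3 * n) / (2 * w - 3 * n) * del w n

/-- The lower triangular factor. -/
noncomputable def LE (e w m n : ℕ) : ℚ :=
  (∑ j ∈ Finset.Icc 1 n, (NE e w m j : ℚ) * XE e w j n) / DE e w n

/-- The upper triangular factor. -/
noncomputable def UE (e w n m : ℕ) : ℚ :=
  (∑ i ∈ Finset.Icc 1 n, YE e w n i * (NE e w i m : ℚ)) / DE e w n

end MT2
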