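import Mathlib

/-!
# Good cuts: definitions

`rr w a` is the valuation of `w - a`, `vf n` the valuation of `n!`. `pG w n t` and `qG w m s` are the
(negatives of the) crude lower bounds for the weighted valuations of the entries of the
triangular matrices: with `hx`, `hy` (the numerators in the cases `t = 1`, `s = 1`)

* `2 t + v (X_{n-t,n}), 2 t + v (L⁻¹_{n,n-t}) ≥ -(pG w n t - hx e w n t)`,
* `2 s + v (L_{m+s,m}), 2 s + v (U_{m,m+s}) ≥ -(qG w m s - hy e w m s)`.

`v3 e w n D` is the valuation of the two products of `3 D` consecutive integers in the formula for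
`e_{n+D} - e_n`. `Good w d b` is the condition for a good cut: the valuations near the centre
`2 b + 1` are as small as possible, and `v (w - a)` is at most half of the distance plus `3`.
-/

namespace MT2

/-- The valuation of `w - a`. -/
def rr (w a : ℕ) : ℕ := padicValNat 2 (w - a)

/-- The valuation of `n!`. -/
def vf (n : ℕ) : ℕ := padicValNat 2 n.factorial

/-- The crude bound for `X`, `L⁻¹`. -/
def pG (w n t : ℕ) : ℤ := (∑ a ∈ Finset.Ico (2 * n - t) (2 * n), (rr w a : ℤ)) - vf t - 2 * t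

/-- The crude bound for `L`, `U`. -/
def qG (w m s : ℕ) : ℤ := (∑ a ∈ Finset.Ioc (2 * m) (2 * m + s), (rr w a : ℤ)) - vf s - 2 * s

/-- The numerators of `X_{n-1,n}`, `L⁻¹_{n,n-1}`. -/
def hx (e w n t : ℕ) : ℤ := if w % 2 = 1 ∧ (n + e) % 2 = 0 ∧ t = 1 then 2 else 0

/-- The numerators of `L_{m+1,m}`, `U_{m,m+1}`. -/
def hy (e w m s : ℕ) : ℤ := if w % 2 = 1 ∧ (m + e) % 2 = 1 ∧ s = 1 then 2 else 0

/-- The valuation of the products of `3 D` consecutive integers. -/
def v3 (e w n D : ℕ) : ℕ :=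
  ∑ u ∈ Finset.range (3 * D),
    (padicValNat 2 (w - (3 * n + e + u)) + padicValNat 2 (2 * w + e - (3 * n + 1 + u)))

/-- The good cuts. -/
def Good (w d b : ℕ) : Prop :=
  (w % 2 = 1 → rr w (2 * b + 1) = 1) ∧ (w % 2 = 0 → rr w (2 * b) + rr w (2 * b + 2) = 3) ∧
  ∀ a : ℕ, 1 ≤ a → a ≤ 2 * d → rr w a ≤ (((a : ℤ) - (2 * b + 1)).natAbs + 1) / 2 + 3

end MT2
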