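import Pool.Agent.Lib_MP_bfd926_sq.SQCutK
import Pool.Agent.Lib_MP_bfd926_sq.SQRed
import Pool.Agent.Lib_MP_bfd926_sq.SQCut
import Pool.Agent.Lib_MP_bfd926_sq.SQCount

/-!
# The number of distinct eigenvalues

`B = d - (3 L + 2)`, `L = Nat.log 2 w`. If `B = 0` then `d ≤ 3 L + 2`. Otherwise `cut_count` and
`good_cut` for every good `b ∈ [1, B]`, `distinct_of_cuts` (QHN) with the multiset of the roots
(`card = d`: `IsAlgClosed.card_roots_eq_natDegree …`, `Matrix.charpoly_natDegree_eq_dim`), so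
`#good + 1 ≤ #roots`; `count_good`: `3 B ≤ 6 #good + d + 12 L + 9`, so
`2 d ≤ 6 #good + 21 L + 15 ≤ 6 #roots + 21 L + 9`.
-/

namespace MT2

private theorem SQMain_core {K Γ : Type} [Field K] [CharZero K] [IsAlgClosed K] [DecidableEq K]
    [LinearOrderedCommGroupWithZero Γ] (v : Valuation K Γ) (hv : v 2 < 1) {e w d : ℕ}
    (he : e ≤ 1) (hd : 3 * d + e ≤ w)
    (hgood : ∀ b, 1 ≤ b → b + 3 * Nat.log 2 w + 2 ≤ d → Good w d b → CutOK e w d b)
    (M N1 : Matrix (Fin d) (Fin d) K)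
    (hN1 : ∀ i j, v (N1 i j) ≤ v 2 ^ (4 * (d - (j : ℕ))))
    (hM : ∀ i j, M i j =
      16 ^ ((i : ℕ) + 1) * ((NE e w ((i : ℕ) + 1) ((j : ℕ) + 1) : K) + N1 i j)) :
    2 * d ≤ 6 * M.charpoly.roots.toFinset.card + 21 * Nat.log 2 w + 15 := by
  classical
  by_cases hB : d ≤ 3 * Nat.log 2 w + 2
  · omega
  · obtain ⟨B, hBd⟩ : ∃ B, B + 3 * Nat.log 2 w + 2 = d :=
      ⟨d - (3 * Nat.log 2 w + 2), by omega⟩
    have hcard : Multiset.card M.charpoly.roots = d := by
      rw [IsAlgClosed.card_roots_eq_natDegree, Matrix.charpoly_natDegree_eq_dim, Fintype.card_fin]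
    have hcount := count_good (w := w) (d := d) (B := B) (by omega) (by omega)
    set S : Finset ℕ := (Finset.Icc 1 B).filter fun b => Good w d b with hS
    have hex : ∀ b ∈ S, ∃ π : K, M.charpoly.roots.countP (fun r => v π < v r) = b := by
      intro b hb
      rw [hS, Finset.mem_filter, Finset.mem_Icc] at hb
      obtain ⟨π, -, hπ⟩ := cut_count v hv he (b := b) (by omega) hd (by omega)
        (hgood b hb.1.1 (by omega) hb.2) M N1 hN1 hM
      exact ⟨π, hπ⟩
    have hex2 : ∀ b : ℕ, ∃ π : K, b ∈ S → M.charpoly.roots.countP (fun r => v π < v r) = b := by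
      intro b
      by_cases hb : b ∈ S
      · obtain ⟨π, hπ⟩ := hex b hb
        exact ⟨π, fun _ => hπ⟩
      · exact ⟨0, fun h => absurd h hb⟩
    choose π hπ using hex2
    have hdist := distinct_of_cuts v M.charpoly.roots S π
      (fun b hb => by
        have hb' := hb
        rw [hS, Finset.mem_filter, Finset.mem_Icc] at hb'
        refine ⟨by omega, by omega, ?_⟩
        rw [← hπ b hb]
        congr 1
        rw [hπ b hb])
      (by omega)
    omega

theorem distinct_M {K Γ : Type} [Field K] [CharZero K] [IsAlgClosed K] [DecidableEq K]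
    [LinearOrderedCommGroupWithZero Γ] (v : Valuation K Γ) (hv : v 2 < 1) {e w d : ℕ}
    (he : e ≤ 1) (hd : 3 * d + e ≤ w) (M N1 : Matrix (Fin d) (Fin d) K)
    (hN1 : ∀ i j, v (N1 i j) ≤ v 2 ^ (4 * (d - (j : ℕ))))
    (hM : ∀ i j, M i j =
      16 ^ ((i : ℕ) + 1) * ((NE e w ((i : ℕ) + 1) ((j : ℕ) + 1) : K) + N1 i j)) :
    2 * d ≤ 6 * M.charpoly.roots.toFinset.card + 21 * Nat.log 2 w + 15 := by
  exact SQMain_core v hv he hd (fun b _ hb hg => good_cut he hd hg (by omega)) M N1 hN1 hM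

end MT2
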