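import Pool.Agent.Lib_MP_bfd926_sq.SQGood

/-!
# Valuations of factorials and sums of valuations of consecutive integers

* `vf_half`: `vf n = n / 2 + vf (n / 2)` (`padicValNat` of `n!`: Legendre, or
  `Nat.factorial` of even numbers; one may use `sub_one_mul_padicValNat_factorial` or the sum of the
  valuations of `1, …, n`).
* `vf_lt`: `vf n < n` for `1 ≤ n`.
* `vf_three`: `2 * D ≤ vf (3 * D)` for `2 ≤ D`, `vf_three'`: `2 * D + 1 ≤ vf (3 * D)` for `3 ≤ D`
  (`vf (n + 6) ≥ vf n + 4`).
* `vf_le_sum`: the sum of the valuations of `L` consecutive positive integers is at least `vf L`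
  (`L! ∣ descFactorial`).
* `sum_rr_le`: let `a₀` be the element of `[lo, hi]` with the largest `rr w a₀` (`hi < w`). For
  `a ≠ a₀` in the interval `rr w a ≤ v (a - a₀)`, so the sum of the `rr w a` is at most
  `rr w a₀ + vf (a₀ - lo) + vf (hi - a₀)`.
-/

namespace MT2

theorem vf_zero : vf 0 = 0 := by
  simp [vf]

theorem vf_succ' (n : ℕ) : vf (n + 1) = padicValNat 2 (n + 1) + vf n := by
  unfold vf
  rw [Nat.factorial_succ, padicValNat.mul (by omega) (Nat.factorial_ne_zero n)]

theorem vf_mono {a b : ℕ} (h : a ≤ b) : vf a ≤ vf b := by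
  induction b, h using Nat.le_induction with
  | base => exact le_refl _
  | succ m hm ih => rw [vf_succ']; omega

theorem vf_half (n : ℕ) : vf n = n / 2 + vf (n / 2) := by
  unfold vf
  rw [← padicValNat_mul_div_factorial (p := 2) n, padicValNat_factorial_mul]
  omega

theorem vf_lt {n : ℕ} (h : 1 ≤ n) : vf n < n := by
  induction n using Nat.strong_induction_on with
  | _ n ih =>
    rw [vf_half]
    rcases Nat.eq_zero_or_pos (n / 2) with h0 | h0
    · rw [h0, vf_zero]; omega
    · have := ih (n / 2) (by omega) h0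
      omega

theorem vf_add_three (m : ℕ) : vf m + 1 ≤ vf (m + 3) := by
  rw [vf_half m, vf_half (m + 3)]
  have := vf_mono (show m / 2 ≤ (m + 3) / 2 by omega)
  omega

theorem vf_add_six (m : ℕ) : vf m + 4 ≤ vf (m + 6) := by
  rw [vf_half m, vf_half (m + 6)]
  have h1 : (m + 6) / 2 = m / 2 + 3 := by omega
  rw [h1]
  have := vf_add_three (m / 2)
  omega

theorem vf_one_three : vf 3 = 1 := by
  rw [vf_half, vf_half, vf_half]
  norm_num [vf_zero]

theorem vf_six : vf 6 = 4 := by
  rw [vf_half]
  norm_num [vf_one_three]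

theorem vf_two : vf 2 = 1 := by
  rw [vf_half, vf_half]
  norm_num [vf_zero]

theorem vf_four : vf 4 = 3 := by
  rw [vf_half]
  norm_num [vf_two]

theorem vf_nine : vf 9 = 7 := by
  rw [vf_half]
  norm_num [vf_four]

theorem vf_twelve : vf 12 = 10 := by
  rw [vf_half]
  norm_num [vf_six]

theorem vf_three' {D : ℕ} (h : 3 ≤ D) : 2 * D + 1 ≤ vf (3 * D) := by
  induction D using Nat.strong_induction_on with
  | _ D ih =>
    by_cases h5 : 5 ≤ D
    · have h1 := ih (D - 2) (by omega) (by omega)
      have h2 := vf_add_six (3 * (D - 2))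
      rw [show 3 * (D - 2) + 6 = 3 * D by omega] at h2
      omega
    · have : D = 3 ∨ D = 4 := by omega
      rcases this with rfl | rfl
      · norm_num [vf_nine]
      · norm_num [vf_twelve]

theorem vf_three {D : ℕ} (h : 2 ≤ D) : 2 * D ≤ vf (3 * D) := by
  rcases Nat.lt_or_ge 2 D with h3 | h3
  · have := vf_three' (D := D) (by omega)
    omega
  · have : D = 2 := by omega
    subst this
    norm_num [vf_six]

theorem sum_pv (x L : ℕ) (h : L ≤ x) :
    ∑ u ∈ Finset.range L, padicValNat 2 (x - u) = padicValNat 2 (x.descFactorial L) := by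
  induction L with
  | zero => simp
  | succ L ih =>
    rw [Finset.sum_range_succ, ih (by omega), Nat.descFactorial_succ, padicValNat.mul (by omega)
      (by
        have := Nat.descFactorial_eq_zero_iff_lt (n := x) (k := L)
        intro h0
        rw [this] at h0
        omega)]
    omega

theorem vf_le_sum (x L : ℕ) (h : L ≤ x) :
    vf L ≤ ∑ u ∈ Finset.range L, padicValNat 2 (x - u) := by
  rw [sum_pv x L h, Nat.descFactorial_eq_factorial_mul_choose,
    padicValNat.mul (Nat.factorial_ne_zero L) (Nat.choose_pos h).ne']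
  unfold vf
  omega

theorem sum_sub_vf (L : ℕ) : ∑ u ∈ Finset.range L, padicValNat 2 (u + 1) = vf L := by
  induction L with
  | zero => simp [vf]
  | succ L ih => rw [Finset.sum_range_succ, ih, vf_succ']; omega

theorem rr_le_sub {w a c : ℕ} (ha : a < w) (hc : c < w) (hca : c < a)
    (h : rr w c ≤ rr w a) : rr w c ≤ padicValNat 2 (a - c) := by
  unfold rr at *
  rw [← padicValNat_dvd_iff_le (by omega)]
  have h1 : 2 ^ padicValNat 2 (w - c) ∣ w - c := pow_padicValNat_dvd
  have h2 : 2 ^ padicValNat 2 (w - c) ∣ w - a :=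
    (pow_dvd_pow 2 h).trans pow_padicValNat_dvd
  have h3 := Nat.dvd_sub h1 h2
  rwa [show w - c - (w - a) = a - c by omega] at h3

theorem rr_le_sub' {w a c : ℕ} (ha : a < w) (hc : c < w) (hca : a < c)
    (h : rr w c ≤ rr w a) : rr w c ≤ padicValNat 2 (c - a) := by
  unfold rr at *
  rw [← padicValNat_dvd_iff_le (by omega)]
  have h1 : 2 ^ padicValNat 2 (w - c) ∣ w - c := pow_padicValNat_dvd
  have h2 : 2 ^ padicValNat 2 (w - c) ∣ w - a :=
    (pow_dvd_pow 2 h).trans pow_padicValNat_dvd
  have h3 := Nat.dvd_sub h2 h1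
  rwa [show w - a - (w - c) = c - a by omega] at h3

theorem sum_rr_le {w lo hi : ℕ} (h : lo ≤ hi) (hw : hi < w) :
    ∃ a : ℕ, lo ≤ a ∧ a ≤ hi ∧ (∀ c, lo ≤ c → c ≤ hi → rr w c ≤ rr w a) ∧
      ∑ c ∈ Finset.Icc lo hi, rr w c ≤ rr w a + vf (a - lo) + vf (hi - a) := by
  obtain ⟨a, ha, hmax⟩ := Finset.exists_max_image (Finset.Icc lo hi) (rr w)
    (Finset.nonempty_Icc.2 h)
  rw [Finset.mem_Icc] at ha
  refine ⟨a, ha.1, ha.2, fun c h1 h2 => hmax c (Finset.mem_Icc.2 ⟨h1, h2⟩), ?_⟩
  have hsplit : Finset.Icc lo hi = (Finset.Ico lo a ∪ {a}) ∪ Finset.Ioc a hi := by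
    ext c
    simp only [Finset.mem_Icc, Finset.mem_union, Finset.mem_Ico, Finset.mem_singleton,
      Finset.mem_Ioc]
    omega
  rw [hsplit, Finset.sum_union, Finset.sum_union, Finset.sum_singleton]
  · have h1 : ∑ c ∈ Finset.Ico lo a, rr w c ≤ vf (a - lo) := by
      calc ∑ c ∈ Finset.Ico lo a, rr w c
          ≤ ∑ c ∈ Finset.Ico lo a, padicValNat 2 (a - c) := by
            apply Finset.sum_le_sum
            intro c hc
            rw [Finset.mem_Ico] at hc
            exact rr_le_sub (by omega) (by omega) hc.2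
              (hmax c (Finset.mem_Icc.2 ⟨hc.1, by omega⟩))
        _ = ∑ u ∈ Finset.range (a - lo), padicValNat 2 (u + 1) := by
            rw [Finset.sum_Ico_eq_sum_range, ← Finset.sum_range_reflect]
            apply Finset.sum_congr rfl
            intro u hu
            rw [Finset.mem_range] at hu
            congr 1
            omega
        _ = vf (a - lo) := sum_sub_vf _
    have h2 : ∑ c ∈ Finset.Ioc a hi, rr w c ≤ vf (hi - a) := by
      calc ∑ c ∈ Finset.Ioc a hi, rr w c
          ≤ ∑ c ∈ Finset.Ioc a hi, padicValNat 2 (c - a) := by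
            apply Finset.sum_le_sum
            intro c hc
            rw [Finset.mem_Ioc] at hc
            exact rr_le_sub' (by omega) (by omega) hc.1
              (hmax c (Finset.mem_Icc.2 ⟨by omega, hc.2⟩))
        _ = ∑ c ∈ Finset.Ico (a + 1) (hi + 1), padicValNat 2 (c - a) := by
            apply Finset.sum_congr _ (fun _ _ => rfl)
            ext c
            simp only [Finset.mem_Ioc, Finset.mem_Ico]
            omega
        _ = ∑ u ∈ Finset.range (hi - a), padicValNat 2 (u + 1) := by
            rw [Finset.sum_Ico_eq_sum_range, show hi + 1 - (a + 1) = hi - a by omega]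
            apply Finset.sum_congr rfl
            intro u hu
            congr 1
            omega
        _ = vf (hi - a) := sum_sub_vf _
    omega
  · rw [Finset.disjoint_left]
    intro c hc hc'
    simp only [Finset.mem_Ico, Finset.mem_singleton] at hc hc'
    omega
  · rw [Finset.disjoint_left]
    intro c hc hc'
    simp only [Finset.mem_union, Finset.mem_Ico, Finset.mem_singleton, Finset.mem_Ioc] at hc hc'
    omega

/-- The product of `3 D` consecutive integers. -/
theorem v3_ge {e w n D : ℕ} (he : e ≤ 1) (h : 3 * (n + D) + e ≤ w) : 2 * vf (3 * D) ≤ v3 e w n D := by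
  unfold v3
  rw [Finset.sum_add_distrib]
  rcases Nat.eq_zero_or_pos D with h0 | h0
  · subst h0; simp [vf_zero]
  · have h1 := vf_le_sum (w - (3 * n + e)) (3 * D) (by omega)
    have h2 := vf_le_sum (2 * w + e - (3 * n + 1)) (3 * D) (by omega)
    have e1 : ∑ u ∈ Finset.range (3 * D), padicValNat 2 (w - (3 * n + e) - u) =
        ∑ u ∈ Finset.range (3 * D), padicValNat 2 (w - (3 * n + e + u)) :=
      Finset.sum_congr rfl fun u _ => by rw [Nat.sub_sub]
    have e2 : ∑ u ∈ Finset.range (3 * D), padicValNat 2 (2 * w + e - (3 * n + 1) - u) =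
        ∑ u ∈ Finset.range (3 * D), padicValNat 2 (2 * w + e - (3 * n + 1 + u)) :=
      Finset.sum_congr rfl fun u _ => by rw [Nat.sub_sub]
    rw [e1] at h1
    rw [e2] at h2
    omega

theorem v_two_even {y : ℕ} (h : 2 ≤ y) :
    3 ≤ padicValNat 2 (2 * y) + padicValNat 2 (2 * y - 2) := by
  have e1 : 2 * y - 2 = 2 * (y - 1) := by omega
  rw [e1, padicValNat.mul (by norm_num) (by omega), padicValNat.mul (by norm_num) (by omega),
    padicValNat.self (by norm_num)]
  rcases Nat.even_or_odd y with hy | hy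
  · have : 1 ≤ padicValNat 2 y := by
      rw [← padicValNat_dvd_iff_le (by omega), pow_one]
      exact hy.two_dvd
    omega
  · have : 1 ≤ padicValNat 2 (y - 1) := by
      rw [← padicValNat_dvd_iff_le (by omega), pow_one]
      obtain ⟨k, hk⟩ := hy
      omega
    omega

/-- For odd `w` and `n + e` odd the two products of three consecutive integers have both two even
factors. -/
theorem v3_one {e w n : ℕ} (he : e ≤ 1) (h : 3 * (n + 1) + e ≤ w) (hw : w % 2 = 1)
    (hn : (n + e) % 2 = 1) : 6 ≤ v3 e w n 1 := by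
  unfold v3
  rw [show 3 * 1 = 3 from rfl, Finset.sum_range_succ, Finset.sum_range_succ,
    Finset.sum_range_one]
  have h1 := v_two_even (y := (w - (3 * n + e)) / 2) (by omega)
  have h2 := v_two_even (y := (2 * w + e - (3 * n + 1)) / 2) (by omega)
  have a1 : 2 * ((w - (3 * n + e)) / 2) = w - (3 * n + e + 0) := by omega
  have a2 : 2 * ((2 * w + e - (3 * n + 1)) / 2) = 2 * w + e - (3 * n + 1 + 0) := by omega
  have b1 : w - (3 * n + e + 0) - 2 = w - (3 * n + e + 2) := by omega
  have b2 : 2 * w + e - (3 * n + 1 + 0) - 2 = 2 * w + e - (3 * n + 1 + 2) := by omega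
  rw [a1, b1] at h1
  rw [a2, b2] at h2
  omega

end MT2
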