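import Pool.Agent.Lib_MP_bfd926_sq.STheta

/-!
# Functions on the upper half plane given by power series in `q`

`Rep φ F`: `F τ = ∑ a_m q ^ m`, `q = exp (2 * π * I * τ)`, for all `τ` in the upper half plane, where
`φ = ∑ a_m X ^ m`. The sums are absolutely convergent (`ℂ` is finite dimensional:
`summable_norm_iff`), so `Rep.mul` is the Cauchy product
(`summable_norm_sum_mul_antidiagonal_of_summable_norm`,
`tsum_mul_tsum_eq_tsum_sum_antidiagonal_of_summable_norm`, `PowerSeries.coeff_mul`).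
`Rep.dbl`: `q(2 * τ) = q ^ 2`; the coefficient `m` of `dbl φ` is zero for odd `m`
(`PowerSeries.coeff_expand…`); reindex by the injection `m ↦ 2 * m`
(`Function.Injective.hasSum_iff`).
`Rep_thA`: `jacobiTheta (2 * τ) = 1 + 2 * ∑_{n ≥ 1} q ^ (n ^ 2)` (`hasSum_nat_jacobiTheta`),
`Rep_thB`: `exp (π * I * n ^ 2 * (2 * τ + 1)) = (-1) ^ n * q ^ (n ^ 2)`, `(-1) ^ (n ^ 2) = (-1) ^ n`.
(One can also sum over `n : ℤ` fiberwise over `n ^ 2 = m`.)
-/

open PowerSeries

namespace MT2

/-- `F τ = ∑ a_m q ^ m`. -/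
def Rep (φ : PowerSeries ℂ) (F : ℂ → ℂ) : Prop :=
  ∀ τ : ℂ, 0 < τ.im →
    HasSum (fun m : ℕ => coeff m φ * Complex.exp (2 * Real.pi * Complex.I * τ) ^ m) (F τ)

theorem Rep.unique {φ : PowerSeries ℂ} {F G : ℂ → ℂ} (hF : Rep φ F) (hG : Rep φ G) {τ : ℂ}
    (h : 0 < τ.im) : F τ = G τ :=
  (hF τ h).unique (hG τ h)

theorem Rep_C (a : ℂ) : Rep (C a) (fun _ => a) := by
  intro τ _
  have h1 := hasSum_single (f := fun m : ℕ =>
    coeff m (C a : PowerSeries ℂ) * Complex.exp (2 * Real.pi * Complex.I * τ) ^ m) 0 (by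
      intro m hm
      show coeff m (C a : PowerSeries ℂ) * _ = 0
      rw [PowerSeries.coeff_C, if_neg hm, zero_mul])
  have h2 : coeff 0 (C a : PowerSeries ℂ) * Complex.exp (2 * Real.pi * Complex.I * τ) ^ 0 = a := by
    rw [PowerSeries.coeff_C, if_pos rfl, pow_zero, mul_one]
  rw [h2] at h1
  exact h1

theorem Rep.add {φ ψ : PowerSeries ℂ} {F G : ℂ → ℂ} (hF : Rep φ F) (hG : Rep ψ G) :
    Rep (φ + ψ) (fun τ => F τ + G τ) := by
  intro τ h
  have h1 := (hF τ h).add (hG τ h)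
  refine h1.congr_fun ?_
  intro m
  rw [map_add, add_mul]

theorem Rep.sub {φ ψ : PowerSeries ℂ} {F G : ℂ → ℂ} (hF : Rep φ F) (hG : Rep ψ G) :
    Rep (φ - ψ) (fun τ => F τ - G τ) := by
  intro τ h
  have h1 := (hF τ h).sub (hG τ h)
  refine h1.congr_fun ?_
  intro m
  rw [map_sub, sub_mul]

theorem Rep.mul {φ ψ : PowerSeries ℂ} {F G : ℂ → ℂ} (hF : Rep φ F) (hG : Rep ψ G) :
    Rep (φ * ψ) (fun τ => F τ * G τ) := by
  intro τ h
  have hf := (hF τ h).summable.norm
  have hg := (hG τ h).summable.norm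
  have h1 := (summable_norm_sum_mul_antidiagonal_of_summable_norm hf hg).of_norm.hasSum
  rw [← tsum_mul_tsum_eq_tsum_sum_antidiagonal_of_summable_norm hf hg, (hF τ h).tsum_eq,
    (hG τ h).tsum_eq] at h1
  refine h1.congr_fun ?_
  intro m
  rw [PowerSeries.coeff_mul, Finset.sum_mul]
  refine Finset.sum_congr rfl fun p hp => ?_
  rw [← Finset.HasAntidiagonal.mem_antidiagonal.1 hp, pow_add]
  ring

theorem Rep.pow {φ : PowerSeries ℂ} {F : ℂ → ℂ} (hF : Rep φ F) (n : ℕ) :
    Rep (φ ^ n) (fun τ => F τ ^ n) := by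
  induction n with
  | zero =>
    have h1 := Rep_C 1
    rw [map_one] at h1
    simpa using h1
  | succ n ih =>
    have h1 := ih.mul hF
    simpa only [pow_succ] using h1

theorem Rep.dbl {φ : PowerSeries ℂ} {F : ℂ → ℂ} (hF : Rep φ F) :
    Rep (MT2.dbl φ) (fun τ => F (2 * τ)) := by
  intro τ h
  have h0 : 0 < (2 * τ).im := by
    have : (2 * τ).im = 2 * τ.im := by simp
    rw [this]
    positivity
  have h1 := hF (2 * τ) h0
  have hq : Complex.exp (2 * Real.pi * Complex.I * (2 * τ)) = Complex.exp (2 * Real.pi * Complex.I * τ) ^ 2 := by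
    rw [← Complex.exp_nat_mul]
    congr 1
    push_cast
    ring
  have hinj : Function.Injective (fun m : ℕ => 2 * m) := fun a b hab => by
    have : 2 * a = 2 * b := hab
    omega
  have h2 := (hinj.hasSum_iff (f := fun m : ℕ =>
      coeff m (MT2.dbl φ) * Complex.exp (2 * Real.pi * Complex.I * τ) ^ m) (a := F (2 * τ)) (by
        intro m hm
        show coeff m (MT2.dbl φ) * _ = 0
        unfold MT2.dbl
        rw [PowerSeries.coeff_expand_of_not_dvd, zero_mul]
        intro hd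
        obtain ⟨c, hc⟩ := hd
        exact hm ⟨c, hc.symm⟩)).1
  apply h2
  refine h1.congr_fun ?_
  intro m
  show coeff (2 * m) (MT2.dbl φ) * _ ^ (2 * m) = _
  unfold MT2.dbl
  rw [PowerSeries.coeff_expand_mul, hq, pow_mul]

private theorem SRep_aux (φ : PowerSeries ℂ) (q s : ℂ) (e : ℕ → ℂ) (h0 : coeff 0 φ = 1)
    (h1 : ∀ n : ℕ, coeff ((n + 1) ^ 2) φ = 2 * e n)
    (h2 : ∀ m : ℕ, m ≠ 0 → (∀ n : ℕ, (n + 1) ^ 2 ≠ m) → coeff m φ = 0)
    (hs : HasSum (fun n : ℕ => e n * q ^ ((n + 1) ^ 2)) s) :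
    HasSum (fun m : ℕ => coeff m φ * q ^ m) (1 + 2 * s) := by
  classical
  have hinj : Function.Injective (fun n : ℕ => (n + 1) ^ 2) := fun a b hab => by
    have h3 : (a + 1) ^ 2 = (b + 1) ^ 2 := hab
    have h4 := Nat.pow_left_injective (n := 2) (by norm_num) h3
    omega
  have h3 := (hinj.hasSum_iff (f := fun m : ℕ => if m = 0 then 0 else coeff m φ * q ^ m) (a := 2 * s) (by
      intro m hm
      show (if m = 0 then 0 else coeff m φ * q ^ m) = 0
      by_cases h5 : m = 0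
      · rw [if_pos h5]
      · rw [if_neg h5, h2 m h5 (fun n hn => hm ⟨n, hn⟩), zero_mul])).1 (by
      refine (hs.mul_left 2).congr_fun ?_
      intro n
      show (if (n + 1) ^ 2 = 0 then 0 else coeff ((n + 1) ^ 2) φ * q ^ ((n + 1) ^ 2)) = _
      rw [if_neg (by positivity), h1]
      ring)
  have h4 := (hasSum_ite_eq (0 : ℕ) (1 : ℂ)).add h3
  refine h4.congr_fun ?_
  intro m
  by_cases h5 : m = 0
  · subst h5
    simp [h0]
  · simp [h5]

open scoped Classical in
private theorem SRep_thA (m : ℕ) : coeff m (up ℂ thA) =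
    if m = 0 then 1 else if ∃ n : ℕ, n ^ 2 = m then 2 else 0 := by
  classical
  unfold up
  rw [PowerSeries.coeff_map]
  unfold thA
  rw [PowerSeries.coeff_mk]
  by_cases h1 : m = 0
  · rw [if_pos h1, if_pos h1]
    simp
  · rw [if_neg h1, if_neg h1]
    by_cases h2 : ∃ n : ℕ, n ^ 2 = m
    · rw [if_pos h2, if_pos h2]
      simp
    · rw [if_neg h2, if_neg h2]
      simp

private theorem SRep_thB (m : ℕ) : coeff m (up ℂ thB) = (-1) ^ m * coeff m (up ℂ thA) := by
  unfold up thB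
  rw [PowerSeries.coeff_map, PowerSeries.coeff_map]
  unfold evalNegHom
  rw [PowerSeries.coeff_rescale]
  simp

private theorem SRep_term (τ : ℂ) (n : ℕ) :
    Complex.exp (Real.pi * Complex.I * ((n : ℂ) + 1) ^ 2 * (2 * τ)) =
      Complex.exp (2 * Real.pi * Complex.I * τ) ^ ((n + 1) ^ 2) := by
  rw [← Complex.exp_nat_mul]
  congr 1
  push_cast
  ring

private theorem SRep_term' (τ : ℂ) (n : ℕ) :
    Complex.exp (Real.pi * Complex.I * ((n : ℂ) + 1) ^ 2 * (2 * τ + 1)) =
      (-1) ^ ((n + 1) ^ 2) * Complex.exp (2 * Real.pi * Complex.I * τ) ^ ((n + 1) ^ 2) := by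
  rw [← SRep_term, ← Complex.exp_pi_mul_I, ← Complex.exp_nat_mul, ← Complex.exp_add]
  congr 1
  push_cast
  ring

theorem Rep_thA : Rep (up ℂ thA) (fun τ => jacobiTheta (2 * τ)) := by
  classical
  intro τ h
  have h0 : 0 < (2 * τ).im := by
    have : (2 * τ).im = 2 * τ.im := by simp
    rw [this]
    positivity
  have h1 := hasSum_nat_jacobiTheta h0
  have h2 := SRep_aux (up ℂ thA) (Complex.exp (2 * Real.pi * Complex.I * τ)) ((jacobiTheta (2 * τ) - 1) / 2)
    (fun _ => 1) (by rw [SRep_thA, if_pos rfl])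
    (by
      intro n
      rw [SRep_thA, if_neg (by positivity), if_pos ⟨n + 1, rfl⟩, mul_one])
    (by
      intro m hm hn
      rw [SRep_thA, if_neg hm, if_neg]
      rintro ⟨c, hc⟩
      cases c with
      | zero => exact hm (by rw [← hc]; rfl)
      | succ c => exact hn c hc)
    (by
      refine h1.congr_fun ?_
      intro n
      rw [SRep_term, one_mul])
  have h3 : 1 + 2 * ((jacobiTheta (2 * τ) - 1) / 2) = jacobiTheta (2 * τ) := by ring
  rw [h3] at h2
  exact h2

theorem Rep_thB : Rep (up ℂ thB) (fun τ => jacobiTheta (2 * τ + 1)) := by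
  classical
  intro τ h
  have h0 : 0 < (2 * τ + 1).im := by
    have : (2 * τ + 1).im = 2 * τ.im := by simp
    rw [this]
    positivity
  have h1 := hasSum_nat_jacobiTheta h0
  have h2 := SRep_aux (up ℂ thB) (Complex.exp (2 * Real.pi * Complex.I * τ)) ((jacobiTheta (2 * τ + 1) - 1) / 2)
    (fun n => (-1) ^ ((n + 1) ^ 2)) (by rw [SRep_thB, SRep_thA, if_pos rfl, pow_zero, one_mul])
    (by
      intro n
      rw [SRep_thB, SRep_thA, if_neg (by positivity), if_pos ⟨n + 1, rfl⟩, mul_comm])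
    (by
      intro m hm hn
      rw [SRep_thB, SRep_thA, if_neg hm, if_neg, mul_zero]
      rintro ⟨c, hc⟩
      cases c with
      | zero => exact hm (by rw [← hc]; rfl)
      | succ c => exact hn c hc)
    (by
      refine h1.congr_fun ?_
      intro n
      rw [SRep_term'])
  have h3 : 1 + 2 * ((jacobiTheta (2 * τ + 1) - 1) / 2) = jacobiTheta (2 * τ + 1) := by ring
  rw [h3] at h2
  exact h2

end MT2
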