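import Pool.Agent.Lib_MP_bfd926_sq.SInt

/-!
# The right null vectors

Let `c = n * (n - w)`, `3 * n ≤ w`. By the definition of `xv` (`Finset.prod_Ico_eq_mul…`,
the factor with the index `m = l` is split off), for `1 ≤ l < n`
`2 * (2 * w - 1 - 2 * l) * (c - l * (l - w)) * x_l = -l * ((l + 1) ^ 2 - 2 * w * (l + 1) - 4 * c) * x_{l+1}`
(`xv_rec`; the denominators are not zero: `2 * w - 1 - 2 * l` is odd, and
`c - l * (l - w) = (n - l) * (n + l - w)` with `n + l < w`).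

`xv_null`: let `g_i = ∑_{j ∈ Icc 1 n} N w i j * x_j`. Taking `int_A - 2 * c * int_B` (for all
`j ∈ Icc 1 n`, times `x_j`, summed) gives
`(4 * i - 2) * (c_i - c) * g_i + (i - w) * ((i - 1) ^ 2 - w ^ 2 - 4 * c) * g_{i-1} =
 ∑_j x_j * (-2 * (2 * w - 1 - 2 * j) * (c_j - c) * K4 w i j +
   (j - 1) * (j * (j - 2 * w) - 4 * c) * K4 w i (j - 1))`,
and the coefficient of `K4 w i j` in the sum on the right is, after the shift of the second part,
`-2 * (2 * w - 1 - 2 * j) * (c_j - c) * x_j + j * ((j + 1) * (j + 1 - 2 * w) - 4 * c) * x_{j+1}`,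
which is zero by `xv_rec` for `j < n` and since `c_n = c`, `x_{n+1} = 0` for `j = n`; the term
`K4 w i 0` has the factor `j - 1 = 0`. Moreover `g_0 = 0` by `N_zero`. As `c_i ≠ c` for
`1 ≤ i < n`, induction on `i` gives `g_i = 0` for `i < n`.
-/

namespace MT2

theorem xv_self (w n : ℕ) : xv w n n = 1 := by
  unfold xv
  rw [if_pos le_rfl, Finset.Ico_self, Finset.prod_empty]

theorem xv_gt {w n l : ℕ} (h : n < l) : xv w n l = 0 := by
  unfold xv
  rw [if_neg (by omega)]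

private theorem sRight_cne {w n l : ℕ} (hn : 3 * n ≤ w) (hl : l < n) :
    (n : ℚ) * (n - w) - l * (l - w) ≠ 0 := by
  have h1 : (n : ℚ) * (n - w) - l * (l - w) = (n - l) * (n + l - w) := by ring
  rw [h1]
  have h2 : (l : ℚ) < n := by exact_mod_cast hl
  have h3 : ((n + l : ℕ) : ℚ) < w := by exact_mod_cast (by omega : n + l < w)
  push_cast at h3
  exact mul_ne_zero (by linarith) (by linarith)

private theorem sRight_odd (w l : ℕ) : 2 * (w : ℚ) - 1 - 2 * l ≠ 0 := by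
  intro h
  have h1 : (2 * (w : ℤ) - 1 - 2 * l : ℤ) = 0 := by
    have : ((2 * (w : ℤ) - 1 - 2 * l : ℤ) : ℚ) = 0 := by
      push_cast
      exact h
    exact_mod_cast this
  omega

theorem xv_rec {w n l : ℕ} (hn : 3 * n ≤ w) (hl : l < n) :
    2 * (2 * (w : ℚ) - 1 - 2 * l) * (n * (n - w) - l * (l - w)) * xv w n l =
      -(l : ℚ) * (((l : ℚ) + 1) ^ 2 - 2 * w * (l + 1) - 4 * (n * (n - w))) * xv w n (l + 1) := by
  have h1 := sRight_cne hn hl
  have h2 := sRight_odd w l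
  have h3 : xv w n l = (-(l : ℚ) * (((l : ℚ) + 1) ^ 2 - 2 * w * (l + 1) - 4 * (n * (n - w))) /
        (2 * (2 * w - 1 - 2 * l) * (n * (n - w) - l * (l - w)))) * xv w n (l + 1) := by
    unfold xv
    rw [if_pos hl.le, if_pos (by omega), Finset.prod_eq_prod_Ico_succ_bot hl]
  rw [h3, ← mul_assoc, mul_div_cancel₀]
  exact mul_ne_zero (mul_ne_zero two_ne_zero h2) h1

private theorem sRight_sum {M : Type} [AddCommMonoid M] (F : ℕ → M) (n : ℕ) :
    ∑ j ∈ Finset.Icc 1 n, F j = ∑ l ∈ Finset.range n, F (l + 1) := by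
  rw [Finset.range_eq_Ico, Finset.sum_Ico_add' F 0 n 1]
  congr 1

private theorem sRight_rec' {w n l : ℕ} (hn : 3 * n ≤ w) (hl : l ≤ n) :
    -2 * (2 * (w : ℚ) - 1 - 2 * l) * (l * (l - w) - n * (n - w)) * xv w n l =
      -((l : ℚ) * (((l : ℚ) + 1) * ((l + 1) - 2 * w) - 4 * (n * (n - w))) * xv w n (l + 1)) := by
  rcases eq_or_lt_of_le hl with h | h
  · subst h
    rw [xv_gt (Nat.lt_succ_self l)]
    ring
  · have := xv_rec hn h
    linarith

private theorem sRight_step {w n i : ℕ} (hn : 3 * n ≤ w) :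
    (4 * ((i : ℚ) + 1) - 2) * (((i : ℚ) + 1) * ((i + 1) - w) - n * (n - w)) *
        ∑ l ∈ Finset.range n, (N w (i + 1) (l + 1) : ℚ) * xv w n (l + 1) +
      (((i : ℚ) + 1) - w) * ((i : ℚ) ^ 2 - w ^ 2 - 4 * (n * (n - w))) *
        ∑ l ∈ Finset.range n, (N w i (l + 1) : ℚ) * xv w n (l + 1) = 0 := by
  have key : ∀ l ∈ Finset.range n,
      (4 * ((i : ℚ) + 1) - 2) * (((i : ℚ) + 1) * ((i + 1) - w) - n * (n - w)) *
        ((N w (i + 1) (l + 1) : ℚ) * xv w n (l + 1)) +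
      (((i : ℚ) + 1) - w) * ((i : ℚ) ^ 2 - w ^ 2 - 4 * (n * (n - w))) *
        ((N w i (l + 1) : ℚ) * xv w n (l + 1)) =
      (l : ℚ) * (((l : ℚ) + 1) * ((l + 1) - 2 * w) - 4 * (n * (n - w))) * xv w n (l + 1) *
          (K4 w (i + 1) l : ℚ) -
        ((l + 1 : ℕ) : ℚ) * ((((l + 1 : ℕ) : ℚ) + 1) * ((((l + 1 : ℕ) : ℚ) + 1) - 2 * w) -
          4 * (n * (n - w))) * xv w n (l + 1 + 1) * (K4 w (i + 1) ((l + 1 : ℕ) : ℤ) : ℚ) := by
    intro l hl
    have hA := congrArg (Int.cast : ℤ → ℚ) (int_A (w : ℤ) ((i : ℤ) + 1) ((l : ℤ) + 1))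
    have hB := congrArg (Int.cast : ℤ → ℚ) (int_B (w : ℤ) ((i : ℤ) + 1) ((l : ℤ) + 1))
    simp only [add_sub_cancel_right] at hA hB
    have hr := sRight_rec' (l := l + 1) hn (by have := Finset.mem_range.1 hl; omega)
    push_cast at hA hB hr ⊢
    linear_combination (xv w n (l + 1)) * hA - 2 * (n * (n - w)) * (xv w n (l + 1)) * hB +
      (K4 w (i + 1) (l + 1) : ℚ) * hr
  have hsum := Finset.sum_congr (rfl : Finset.range n = Finset.range n) key
  rw [Finset.sum_add_distrib, ← Finset.mul_sum, ← Finset.mul_sum] at hsum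
  have htel := Finset.sum_range_sub' (fun l : ℕ => (l : ℚ) * (((l : ℚ) + 1) * ((l + 1) - 2 * w) -
    4 * (n * (n - w))) * xv w n (l + 1) * (K4 w (i + 1) l : ℚ)) n
  rw [htel] at hsum
  rw [hsum, xv_gt (Nat.lt_succ_self n)]
  simp

theorem xv_null {w n i : ℕ} (hn : 3 * n ≤ w) (hi : 1 ≤ i) (hin : i < n) :
    ∑ j ∈ Finset.Icc 1 n, (N w i j : ℚ) * xv w n j = 0 := by
  rw [sRight_sum (fun j => (N w i j : ℚ) * xv w n j)]
  clear hi
  induction i with
  | zero =>
    apply Finset.sum_eq_zero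
    intro l _
    rw [N_zero (by push_cast; omega)]
    simp
  | succ i ih =>
    have h0 := ih (by omega)
    have hs := sRight_step (w := w) (n := n) (i := i) hn
    push_cast at h0 hs ⊢
    rw [h0, mul_zero, add_zero] at hs
    have hc := sRight_cne (w := w) (n := n) (l := i + 1) hn hin
    push_cast at hc
    rcases mul_eq_zero.1 hs with h | h
    · exfalso
      rcases mul_eq_zero.1 h with h | h
      · have h2 : (0 : ℚ) ≤ i := Nat.cast_nonneg i
        linarith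
      · exact hc (by linarith)
    · exact h

end MT2
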