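import Pool.Agent.Lib_MP_bfd926_sq.SRep

/-!
# Identities for the theta functions

Let `θ = jacobiTheta`. `jt_add`, `jt_sq`, `jt_mul`: apply `Rep.unique` at `τ / 2` to both sides of
the images of `th_add`, `th_sq`, `th_mul` in `ℂ⟦X⟧` (`up ℂ (dbl φ) = dbl (up ℂ φ)`), e.g. for
`th_sq`: `Rep (up ℂ thA ^ 2 + up ℂ thB ^ 2) (fun τ => θ (2 τ) ^ 2 + θ (2 τ + 1) ^ 2)` and
`Rep (2 * dbl (up ℂ thA) ^ 2) (fun τ => 2 * θ (4 τ) ^ 2)`.

`jt_S`: `jacobiTheta_S_smul` at `τ / 2`: `θ (-1 / (τ / 2)) = (-I * (τ / 2)) ^ (1/2) * θ (τ / 2)`; the fourth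
power of the square root is `(-I * (τ / 2)) ^ 2 = -τ ^ 2 / 4`.

`jt_ST`: put `s = τ / 2`. `θ (-1 / s + 1) = jacobiTheta₂ (1 / 2) (-1 / s)` (compare terms), and
`jacobiTheta₂_functional_equation (s / 2) s` gives
`jacobiTheta₂ (s / 2) s = (-I * s) ^ (-1/2) * exp (-π * I * s / 4) * jacobiTheta₂ (1 / 2) (-1 / s)`. Put
`t = exp (π * I * s / 4) * jacobiTheta₂ (s / 2) s` (this is the theta constant
`∑ exp (π * I * (n + 1 / 2) ^ 2 * s)`). So `θ (-1 / s + 1) ^ 4 = -s ^ 2 * t ^ 4`. Moreover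
`θ (s / 4) - θ (s / 4 + 1) = 2 * ∑_{n odd} exp (π * I * n ^ 2 * s / 4) = 2 * t`
(`n = 2 * m + 1`, `(2 * m + 1) ^ 2 / 4 = (m + 1 / 2) ^ 2`; the terms with `n` even cancel). With
`p = θ (s / 4)`, `r = θ (s / 4 + 1)`: `t = (p - r) / 2`, `θ s = (p + r) / 2` (`jt_add`),
`θ (s + 1) ^ 4 = (θ (s / 2) * θ (s / 2 + 1)) ^ 2 …`: precisely `θ (s + 1) ^ 2 = θ (s / 2) * θ (s / 2 + 1)`
(`jt_mul` at `s / 2`), `2 * θ (s / 2) ^ 2 = p ^ 2 + r ^ 2` (`jt_sq` at `s / 4`),
`θ (s / 2 + 1) ^ 2 = p * r` (`jt_mul` at `s / 4`), so `θ (s + 1) ^ 4 = p * r * (p ^ 2 + r ^ 2) / 2` and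
`θ s ^ 4 - θ (s + 1) ^ 4 = ((p - r) / 2) ^ 4 = t ^ 4` by `ring`.
-/

namespace MT2

/-! ### Images in `ℂ⟦X⟧` -/

private lemma up_add' (φ ψ : PowerSeries ℤ) : up ℂ (φ + ψ) = up ℂ φ + up ℂ ψ := by
  unfold up
  rw [map_add]

private lemma up_mul' (φ ψ : PowerSeries ℤ) : up ℂ (φ * ψ) = up ℂ φ * up ℂ ψ := by
  unfold up
  rw [map_mul]

private lemma up_pow' (φ : PowerSeries ℤ) (n : ℕ) : up ℂ (φ ^ n) = up ℂ φ ^ n := by
  unfold up
  rw [map_pow]

private lemma up_two' : up ℂ (2 : PowerSeries ℤ) = PowerSeries.C (2 : ℂ) := by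
  unfold up
  rw [map_ofNat, map_ofNat]

private lemma up_dbl' (φ : PowerSeries ℤ) : up ℂ (dbl φ) = dbl (up ℂ φ) := by
  unfold up dbl
  ext m
  rw [PowerSeries.coeff_map]
  by_cases h : 2 ∣ m
  · obtain ⟨k, rfl⟩ := h
    rw [PowerSeries.coeff_expand_mul, PowerSeries.coeff_expand_mul, PowerSeries.coeff_map]
  · rw [PowerSeries.coeff_expand_of_not_dvd 2 two_ne_zero _ h,
      PowerSeries.coeff_expand_of_not_dvd 2 two_ne_zero _ h, map_zero]

private lemma im_half {τ : ℂ} (h : 0 < τ.im) : 0 < (τ / 2).im := by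
  rw [Complex.div_ofNat_im]
  linarith

theorem jt_add {τ : ℂ} (h : 0 < τ.im) :
    jacobiTheta τ + jacobiTheta (τ + 1) = 2 * jacobiTheta (4 * τ) := by
  have h1 := Rep_thA.add Rep_thB
  rw [← up_add', th_add, up_mul', up_dbl', up_dbl', up_two'] at h1
  have h2 := (Rep_C 2).mul (Rep_thA.dbl).dbl
  have h3 := Rep.unique h1 h2 (im_half h)
  have e1 : 2 * (τ / 2) = τ := by ring
  have e2 : 2 * (2 * (2 * (τ / 2))) = 4 * τ := by ring
  simp only [e2] at h3
  rw [e1] at h3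
  exact h3

theorem jt_sq {τ : ℂ} (h : 0 < τ.im) :
    jacobiTheta τ ^ 2 + jacobiTheta (τ + 1) ^ 2 = 2 * jacobiTheta (2 * τ) ^ 2 := by
  have h1 := (Rep_thA.pow 2).add (Rep_thB.pow 2)
  rw [← up_pow', ← up_pow', ← up_add', th_sq, up_mul', up_pow', up_dbl', up_two'] at h1
  have h2 := (Rep_C 2).mul ((Rep_thA.dbl).pow 2)
  have h3 := Rep.unique h1 h2 (im_half h)
  have e1 : 2 * (τ / 2) = τ := by ring
  simp only [e1] at h3
  exact h3

theorem jt_mul {τ : ℂ} (h : 0 < τ.im) :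
    jacobiTheta τ * jacobiTheta (τ + 1) = jacobiTheta (2 * τ + 1) ^ 2 := by
  have h1 := Rep_thA.mul Rep_thB
  rw [← up_mul', th_mul, up_pow', up_dbl'] at h1
  have h2 := (Rep_thB.dbl).pow 2
  have h3 := Rep.unique h1 h2 (im_half h)
  have e1 : 2 * (τ / 2) = τ := by ring
  simp only [e1] at h3
  exact h3

/-! ### The inversion -/

private lemma sqrt_four (s : ℂ) : ((-Complex.I * s) ^ (1 / 2 : ℂ)) ^ 4 = -s ^ 2 := by
  rw [← Complex.cpow_nat_mul]
  have : ((4 : ℕ) : ℂ) * (1 / 2 : ℂ) = ((2 : ℕ) : ℂ) := by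
    push_cast
    norm_num
  rw [this, Complex.cpow_natCast, mul_pow, neg_sq, Complex.I_sq]
  ring

private lemma inv_four {s a b : ℂ} (hs : s ≠ 0)
    (h : a = 1 / (-Complex.I * s) ^ (1 / 2 : ℂ) * b) : b ^ 4 = -s ^ 2 * a ^ 4 := by
  have h1 := sqrt_four s
  have h2 : (-Complex.I * s) ^ (1 / 2 : ℂ) ≠ 0 := by
    intro h0
    rw [h0] at h1
    have : s ^ 2 = 0 := by
      rw [zero_pow (by norm_num)] at h1
      linear_combination h1
    exact hs (pow_eq_zero_iff (two_ne_zero) |>.mp this)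
  have h3 : b = (-Complex.I * s) ^ (1 / 2 : ℂ) * a := by
    rw [h]
    field_simp
  rw [h3, mul_pow, h1]

private lemma ne_zero_of_im {s : ℂ} (h : 0 < s.im) : s ≠ 0 := by
  intro h0
  rw [h0] at h
  exact lt_irrefl _ h

theorem jt_S {τ : ℂ} (h : 0 < τ.im) :
    jacobiTheta (2 * (-1 / τ)) ^ 4 = -(τ ^ 2 / 4) * jacobiTheta (τ / 2) ^ 4 := by
  have hs := im_half h
  have h0 := ne_zero_of_im hs
  have h1 := ne_zero_of_im h
  have h2 := jacobiTheta₂_functional_equation 0 (τ / 2)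
  have e1 : (0 : ℂ) / (τ / 2) = 0 := zero_div _
  have e2 : -1 / (τ / 2) = 2 * (-1 / τ) := by field_simp
  have e3 : -Real.pi * Complex.I * (0 : ℂ) ^ 2 / (τ / 2) = 0 := by
    rw [zero_pow two_ne_zero, mul_zero, zero_div]
  rw [e1, e2, e3, Complex.exp_zero, mul_one, ← jacobiTheta_eq_jacobiTheta₂,
    ← jacobiTheta_eq_jacobiTheta₂] at h2
  rw [inv_four h0 h2]
  ring

/-! ### The second transformation -/

/-- `exp (π I n ^ 2) = (-1) ^ n` in the form `exp (π I n)`. -/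
private lemma exp_sq (n : ℤ) :
    Complex.exp (Real.pi * Complex.I * (n : ℂ) ^ 2) = Complex.exp (Real.pi * Complex.I * n) := by
  obtain ⟨k, hk⟩ : (2 : ℤ) ∣ n * n - n := by
    rw [show n * n - n = n * (n - 1) by ring]
    exact Int.even_mul_pred_self n |>.two_dvd
  have hk' : (n : ℂ) ^ 2 = n + 2 * k := by
    have : (n : ℂ) * n - n = 2 * k := by exact_mod_cast hk
    linear_combination this
  rw [hk', mul_add, Complex.exp_add]
  have : Complex.exp (Real.pi * Complex.I * (2 * (k : ℂ))) = 1 := by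
    rw [show (Real.pi : ℂ) * Complex.I * (2 * (k : ℂ)) = k * (2 * Real.pi * Complex.I) by ring]
    exact Complex.exp_int_mul_two_pi_mul_I k
  rw [this, mul_one]

private lemma jt_half (σ : ℂ) : jacobiTheta (σ + 1) = jacobiTheta₂ (1 / 2) σ := by
  refine tsum_congr fun n => ?_
  unfold jacobiTheta₂_term
  rw [mul_add, mul_one, Complex.exp_add, exp_sq, ← Complex.exp_add]
  congr 1
  ring

private lemma hs_theta {σ : ℂ} (h : 0 < σ.im) :
    HasSum (fun n : ℤ => Complex.exp (Real.pi * Complex.I * (n : ℂ) ^ 2 * σ))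
      (jacobiTheta σ) := by
  have h1 := hasSum_jacobiTheta₂_term 0 h
  rw [← jacobiTheta_eq_jacobiTheta₂] at h1
  have e : (fun n : ℤ => Complex.exp (Real.pi * Complex.I * (n : ℂ) ^ 2 * σ)) =
      fun n : ℤ => jacobiTheta₂_term n 0 σ := by
    funext n
    unfold jacobiTheta₂_term
    rw [mul_zero, zero_add]
  rw [e]
  exact h1

private lemma exp_odd (m : ℤ) : Complex.exp (Real.pi * Complex.I * ((2 * m + 1 : ℤ) : ℂ)) = -1 := by
  rw [show (Real.pi : ℂ) * Complex.I * ((2 * m + 1 : ℤ) : ℂ) =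
    m * (2 * Real.pi * Complex.I) + Real.pi * Complex.I by push_cast; ring]
  rw [Complex.exp_add, Complex.exp_int_mul_two_pi_mul_I, Complex.exp_pi_mul_I, one_mul]

private lemma exp_even (m : ℤ) : Complex.exp (Real.pi * Complex.I * ((2 * m : ℤ) : ℂ)) = 1 := by
  rw [show (Real.pi : ℂ) * Complex.I * ((2 * m : ℤ) : ℂ) =
    m * (2 * Real.pi * Complex.I) by push_cast; ring]
  exact Complex.exp_int_mul_two_pi_mul_I m

/-- `θ σ - θ (σ + 1)` is the sum over the odd integers. -/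
private lemma theta_odd {s : ℂ} (h : 0 < s.im) :
    jacobiTheta (s / 4) - jacobiTheta (s / 4 + 1) =
      2 * (Complex.exp (Real.pi * Complex.I * s / 4) * jacobiTheta₂ (s / 2) s) := by
  have h4 : 0 < (s / 4).im := by
    rw [Complex.div_ofNat_im]
    linarith
  have h5 : 0 < (s / 4 + 1).im := by
    rw [Complex.add_im, Complex.one_im, add_zero]
    exact h4
  have h1 := (hs_theta h4).sub (hs_theta h5)
  have h2 := ((hasSum_jacobiTheta₂_term (s / 2) h).mul_left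
    (Complex.exp (Real.pi * Complex.I * s / 4))).mul_left 2
  have inj : Function.Injective (fun m : ℤ => 2 * m + 1) := by
    intro a b hab
    have : 2 * a + 1 = 2 * b + 1 := hab
    omega
  have key : ∀ n : ℤ, Complex.exp (Real.pi * Complex.I * (n : ℂ) ^ 2 * (s / 4)) -
      Complex.exp (Real.pi * Complex.I * (n : ℂ) ^ 2 * (s / 4 + 1)) =
      Complex.exp (Real.pi * Complex.I * (n : ℂ) ^ 2 * (s / 4)) *
        (1 - Complex.exp (Real.pi * Complex.I * n)) := by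
    intro n
    rw [mul_add, mul_one, Complex.exp_add, exp_sq]
    ring
  have h3 := (inj.hasSum_iff (f := fun n : ℤ =>
      Complex.exp (Real.pi * Complex.I * (n : ℂ) ^ 2 * (s / 4)) -
      Complex.exp (Real.pi * Complex.I * (n : ℂ) ^ 2 * (s / 4 + 1)))
      (a := jacobiTheta (s / 4) - jacobiTheta (s / 4 + 1)) (by
    intro n hn
    show Complex.exp (Real.pi * Complex.I * (n : ℂ) ^ 2 * (s / 4)) -
      Complex.exp (Real.pi * Complex.I * (n : ℂ) ^ 2 * (s / 4 + 1)) = 0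
    rw [key]
    obtain ⟨k, hk | hk⟩ := Int.even_or_odd' n
    · rw [hk, exp_even, sub_self, mul_zero]
    · exact absurd ⟨k, hk.symm⟩ hn)).mpr h1
  refine HasSum.unique h3 ?_
  have e : (fun n : ℤ =>
      Complex.exp (Real.pi * Complex.I * (n : ℂ) ^ 2 * (s / 4)) -
      Complex.exp (Real.pi * Complex.I * (n : ℂ) ^ 2 * (s / 4 + 1))) ∘
        (fun m : ℤ => 2 * m + 1) =
      fun m : ℤ => 2 * (Complex.exp (Real.pi * Complex.I * s / 4) *
        jacobiTheta₂_term m (s / 2) s) := by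
    funext m
    show Complex.exp (Real.pi * Complex.I * ((2 * m + 1 : ℤ) : ℂ) ^ 2 * (s / 4)) -
      Complex.exp (Real.pi * Complex.I * ((2 * m + 1 : ℤ) : ℂ) ^ 2 * (s / 4 + 1)) = _
    rw [key, exp_odd]
    unfold jacobiTheta₂_term
    rw [← Complex.exp_add]
    have e1 : Real.pi * Complex.I * ((2 * m + 1 : ℤ) : ℂ) ^ 2 * (s / 4) =
      Real.pi * Complex.I * s / 4 +
        (2 * Real.pi * Complex.I * m * (s / 2) + Real.pi * Complex.I * m ^ 2 * s) := by
      push_cast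
      ring
    rw [e1]
    ring
  rw [e]
  exact h2

theorem jt_ST {τ : ℂ} (h : 0 < τ.im) :
    jacobiTheta (2 * (-1 / τ) + 1) ^ 4 =
      -(τ ^ 2 / 4) * (jacobiTheta (τ / 2) ^ 4 - jacobiTheta (τ / 2 + 1) ^ 4) := by
  obtain ⟨s, rfl⟩ : ∃ s, τ = 2 * s := ⟨τ / 2, by ring⟩
  have hs : 0 < s.im := by
    have := im_half h
    rwa [show 2 * s / 2 = s by ring] at this
  have h0 := ne_zero_of_im hs
  have hs2 := im_half hs
  have hs4 : 0 < (s / 4).im := by
    rw [Complex.div_ofNat_im]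
    linarith
  have e0 : 2 * s / 2 = s := by ring
  have e1 : 2 * (-1 / (2 * s)) = -1 / s := by field_simp
  rw [e0, e1, jt_half]
  -- the functional equation
  have h2 := jacobiTheta₂_functional_equation (s / 2) s
  have e2 : s / 2 / s = 1 / 2 := by field_simp
  rw [e2] at h2
  have e3 : -Real.pi * Complex.I * (s / 2) ^ 2 / s = -(Real.pi * Complex.I * s / 4) := by
    field_simp
    ring
  rw [e3] at h2
  have h3 : Complex.exp (Real.pi * Complex.I * s / 4) * jacobiTheta₂ (s / 2) s =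
      1 / (-Complex.I * s) ^ (1 / 2 : ℂ) * jacobiTheta₂ (1 / 2) (-1 / s) := by
    rw [h2]
    have : Complex.exp (Real.pi * Complex.I * s / 4) *
        Complex.exp (-(Real.pi * Complex.I * s / 4)) = 1 := by
      rw [← Complex.exp_add, add_neg_cancel, Complex.exp_zero]
    linear_combination (1 / (-Complex.I * s) ^ (1 / 2 : ℂ) *
      jacobiTheta₂ (1 / 2) (-1 / s)) * this
  rw [inv_four h0 h3]
  have h4 := theta_odd hs
  generalize Complex.exp (Real.pi * Complex.I * s / 4) * jacobiTheta₂ (s / 2) s = t at h4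
  have a1 := jt_add hs4
  have a2 := jt_mul hs2
  have a3 := jt_sq hs4
  have a4 := jt_mul hs4
  rw [show 4 * (s / 4) = s by ring] at a1
  rw [show 2 * (s / 2) = s by ring] at a2
  rw [show 2 * (s / 4) = s / 2 by ring] at a3 a4
  generalize jacobiTheta (s / 4) = p at *
  generalize jacobiTheta (s / 4 + 1) = r at *
  generalize jacobiTheta (s / 2) = u at *
  generalize jacobiTheta (s / 2 + 1) = v at *
  generalize jacobiTheta (s + 1) = y at *
  generalize jacobiTheta s = x at *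
  have ht : t = (p - r) / 2 := by linear_combination -h4 / 2
  have hx : x = (p + r) / 2 := by linear_combination -a1 / 2
  have hu : u ^ 2 = (p ^ 2 + r ^ 2) / 2 := by linear_combination -a3 / 2
  have hv : v ^ 2 = p * r := a4.symm
  have hy : y ^ 4 = p * r * ((p ^ 2 + r ^ 2) / 2) := by
    calc y ^ 4 = (y ^ 2) ^ 2 := by ring
      _ = (u * v) ^ 2 := by rw [a2]
      _ = v ^ 2 * u ^ 2 := by ring
      _ = _ := by rw [hv, hu]
  rw [hy, hx, ht]
  ring

end MT2
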