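import Pool.Agent.Lib_MP_bfd926_sq.SMain
import Pool.Agent.Lib_MP_bfd926_sq.SGb
import Pool.Agent.Lib_MP_bfd926_sq.SPa
import Pool.Agent.Lib_MP_bfd926_sq.SPe

/-!
# Multiplicities of the eigenvalues of the Hecke operator `T₂` in level one

For every weight `k` the Hecke operator `T₂` on `S_k(SL₂(ℤ))`,
`(T₂ f)(z) = 2 ^ (k - 1) f(2 z) + (f(z / 2) + f((z + 1) / 2)) / 2`, is diagonalizable, every root of its
characteristic polynomial has multiplicity at most `2 log₂ k - 3`, and `T₂` has at least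
`dim S_k / (2 log₂ k - 3)` distinct eigenvalues. (`Nat.log 2 k` is the floor of `log₂ k`.)
-/

open UpperHalfPlane
open scoped MatrixGroups

namespace Pool.Agent.Lib_MP_bfd926_sq.WMult

theorem result (k : ℕ) :
    ∃ (_ : FiniteDimensional ℂ (CuspForm 𝒮ℒ (k : ℤ))) (T : Module.End ℂ (CuspForm 𝒮ℒ (k : ℤ))),
      (∀ (f : CuspForm 𝒮ℒ (k : ℤ)) (z : ℍ),
        T f z = 2 ^ ((k : ℤ) - 1) * f (ofComplex (2 * z)) +
          (f (ofComplex (z / 2)) + f (ofComplex ((z + 1) / 2))) / 2) ∧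
      (∀ μ : ℂ, T.charpoly.rootMultiplicity μ ≤ 2 * Nat.log 2 k - 3) ∧
      Module.finrank ℂ (CuspForm 𝒮ℒ (k : ℤ)) ≤
        (2 * Nat.log 2 k - 3) * {μ : ℂ | T.HasEigenvalue μ}.ncard := by
  obtain ⟨T, hT, hq⟩ := MT2.exists_T2 k
  haveI hfin : FiniteDimensional ℂ (CuspForm 𝒮ℒ (k : ℤ)) := MT2.cusp_fin (k : ℤ)
  have hTf : ∀ f : CuspForm 𝒮ℒ (k : ℤ), (T f : ℍ → ℂ) = MT2.T2f k f := fun f => funext (hT f)
  have htop : ⨆ μ : ℂ, T.eigenspace μ = ⊤ := by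
    refine MT2.eig_top (V := CuspForm 𝒮ℒ (k : ℤ)) (fun f g => MT2.pet k f g) (MT2.pet_add k)
      (fun f a g => MT2.pet_smul k f g a)
      (MT2.pet_conj k) (MT2.pet_pos k) (MT2.pet_def k) T ?_
    intro f g
    change MT2.pet k (T f) g = MT2.pet k f (T g)
    rw [hTf f, hTf g]
    exact MT2.pet_adj k f g
  have hb : ∀ μ : ℂ, Module.finrank ℂ (T.eigenspace μ) ≤ 2 * Nat.log 2 k - 3 := by
    intro μ
    refine MT2.eig_bound k μ (T.eigenspace μ) ?_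
    intro f hf
    have h1 : T f = μ • f := Module.End.mem_eigenspace_iff.mp hf
    rw [← hq f, h1]
    have h2 : ((μ • f : CuspForm 𝒮ℒ (k : ℤ)) : ℍ → ℂ) = μ • (f : ℍ → ℂ) := rfl
    rw [h2, ModularForm.qExpansion_smul one_pos one_mem_strictPeriods_SL μ f,
      PowerSeries.smul_eq_C_mul]
  refine ⟨hfin, T, hT, fun μ => ?_, MT2.card_eig T htop _ hb⟩
  rw [MT2.root_mult T htop μ]
  exact hb μ

end Pool.Agent.Lib_MP_bfd926_sq.WMult
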